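import Pool.Agent.LQN.RED
import Pool.Agent.LQ.LIFTQ

/-!
[LQN] the functions of a quadratic form with distinct eigenvalues, from the row PIECE.
-/

set_option autoImplicit false

namespace Pool.Agent.LQN

open MeasureTheory Set Pool.Agent.MP_6cbfb8_an
open scoped ENNReal NNReal Real ContDiff

/-- The functions of one variable are in the class `GC`. -/
theorem gc_const {n : ℕ} {F : ℝ → ℂ} (hF : Measurable F) (h1 : ∀ t, ‖F t‖ ≤ 1) :
    GC (n := n) (fun _ => 1) (fun t _ => F t) := by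
  refine ⟨hF.comp measurable_fst, fun t => contDiff_const, fun k t x => ?_⟩
  rcases Nat.eq_zero_or_pos k with rfl | hk
  · rw [norm_iteratedFDeriv_zero]
    exact h1 t
  · rw [iteratedFDeriv_const_of_ne hk.ne']
    simp

/-- Distinct eigenvalues, from PIECE. -/
theorem full_piece {m : ℕ} (hpc : ∀ p : ℝ, 2 * ((m : ℝ) + 2) / (m + 1) < p → PieceAt m p)
    (b : Fin (m + 2) → ℝ) (hb : Function.Injective b) : LQ.Full (m + 2) b := by
  intro p hp
  have hm : (0 : ℝ) ≤ m := Nat.cast_nonneg m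
  have hp' : 2 * ((m : ℝ) + 2) / (m + 1) < p := by
    have h1 : 2 * ((m + 2 : ℕ) : ℝ) / (((m + 2 : ℕ) : ℝ) - 1) =
        2 * ((m : ℝ) + 2) / (m + 1) := by
      push_cast
      congr 1
      ring
    rwa [h1] at hp
  have hp1 : 1 < p := by
    refine lt_of_le_of_lt ?_ hp'
    rw [le_div_iff₀ (by positivity)]
    linarith
  obtain ⟨C, hC⟩ := quadQ_all (b := b) (p := p) (by linarith) (quadQ_of hb hp1 (hpc p hp'))
    (fun _ => 1)
  exact ⟨C, ENNReal.coe_ne_top, fun F hF h1 => hC _ (gc_const hF h1)⟩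

/-- Distinct eigenvalues, every `n ≥ 4`, from PIECE. -/
theorem full_of (hpc : ∀ m : ℕ, 2 ≤ m → ∀ p : ℝ, 2 * ((m : ℝ) + 2) / (m + 1) < p → PieceAt m p)
    {n : ℕ} (hn : 4 ≤ n) (b : Fin n → ℝ) (hb : Function.Injective b) : LQ.Full n b := by
  obtain ⟨m, rfl⟩ : ∃ m, n = m + 2 := ⟨n - 2, by omega⟩
  exact full_piece (hpc m (by omega)) b hb

/-- Distinct eigenvalues, every `n ≥ 3`, from PIECE and the case `n = 3`. -/
theorem full_inj (h3 : ∀ b : Fin 3 → ℝ, Function.Injective b → LQ.Full 3 b)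
    (hpc : ∀ m : ℕ, 2 ≤ m → ∀ p : ℝ, 2 * ((m : ℝ) + 2) / (m + 1) < p → PieceAt m p)
    {n : ℕ} (hn : 3 ≤ n) (b : Fin n → ℝ) (hb : Function.Injective b) : LQ.Full n b := by
  rcases hn.eq_or_lt with h | h
  · subst h
    exact h3 b hb
  · exact full_of hpc h b hb

end Pool.Agent.LQN
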