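import Pool.Agent.LQN.PIECE
import Pool.Agent.LQN.FULL
import Pool.Agent.LQ.LIFTQ2
import Pool.Agent.LQ.FULL3
import Pool.Agent.LQ.PLE

/-!
All bounded measurable functions of an arbitrary quadratic form, in every dimension `n ≥ 3`.
-/

set_option autoImplicit false

namespace Pool.Agent.LQN

/-- **Every quadratic form.** -/
theorem full_any {n : ℕ} (hn : 3 ≤ n) (b : Fin n → ℝ) : LQ.Full n b :=
  LQ.full_every (fun _ hq => LQ.planar_ext hq)
    (fun _ hk b hb => LQN.full_inj LQ.full3 (fun _ hm _ hp => LQN.pieceAt hm hp) hk b hb) hn b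

end Pool.Agent.LQN
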