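import Mathlib

/-!
LQN: maps which are Lipschitz from below push Lebesgue measure below a multiple of itself.
-/

set_option autoImplicit false

namespace Pool.Agent.LQN

open MeasureTheory Set
open scoped ENNReal NNReal

/-- The volume of a set and of its image. -/
theorem al_vol {ι : Type*} [Fintype ι] (T : Set (ι → ℝ)) (Φ : (ι → ℝ) → ι → ℝ) (D : ι → ℝ)
    (hD : ∀ i, 0 < D i) {c : ℝ} (hc : 0 < c)
    (h : ∀ x ∈ T, ∀ y ∈ T, ∀ i, c * (D i * |x i - y i|) ≤ ‖Φ x - Φ y‖) :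
    volume T ≤ ENNReal.ofReal ((1 / c) ^ Fintype.card ι / ∏ i, D i) * volume (Φ '' T) := by
  classical
  rcases T.eq_empty_or_nonempty with rfl | hT
  · simp
  set e : (ι → ℝ) →ₗ[ℝ] (ι → ℝ) := Matrix.toLin' (Matrix.diagonal D) with he
  have hea : ∀ x i, e x i = D i * x i := by
    intro x i
    rw [he, Matrix.toLin'_apply, Matrix.mulVec_diagonal]
  have hP : 0 < ∏ i, D i := Finset.prod_pos fun i _ => hD i
  have hdet : LinearMap.det e = ∏ i, D i := by
    rw [he, LinearMap.det_toLin', Matrix.det_diagonal]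
  have hinj : InjOn Φ T := by
    intro x hx y hy hxy
    funext i
    have h1 := h x hx y hy i
    rw [hxy, sub_self, norm_zero] at h1
    have h2 : 0 < c * D i := mul_pos hc (hD i)
    have h3 : |x i - y i| ≤ 0 := by
      by_contra h4
      have := mul_pos h2 (not_le.1 h4)
      linarith
    have h4 : |x i - y i| = 0 := le_antisymm h3 (abs_nonneg _)
    linarith [abs_eq_zero.1 h4]
  set Ψ : (ι → ℝ) → ι → ℝ := Function.invFunOn Φ T with hΨ
  have hΨx : ∀ x ∈ T, Ψ (Φ x) = x := fun x hx => hinj.leftInvOn_invFunOn hx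
  set K : ℝ≥0 := ⟨1 / c, by positivity⟩ with hK
  have hlip : LipschitzOnWith K (fun u => e (Ψ u)) (Φ '' T) := by
    refine LipschitzOnWith.of_dist_le_mul ?_
    rintro _ ⟨x, hx, rfl⟩ _ ⟨y, hy, rfl⟩
    rw [hΨx x hx, hΨx y hy, dist_eq_norm, dist_eq_norm]
    have hKc : (K : ℝ) = 1 / c := rfl
    rw [hKc, pi_norm_le_iff_of_nonneg (by positivity)]
    intro i
    rw [Pi.sub_apply, hea, hea, ← mul_sub, Real.norm_eq_abs, abs_mul, abs_of_pos (hD i)]
    have h1 := h x hx y hy i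
    rw [one_div, inv_mul_eq_div, le_div_iff₀ hc]
    linarith
  have himg : (fun u => e (Ψ u)) '' (Φ '' T) = e '' T := by
    rw [image_image]
    refine image_congr fun x hx => ?_
    rw [hΨx x hx]
  have h1 := hlip.hausdorffMeasure_image_le (d := (Fintype.card ι : ℝ)) (by positivity)
  rw [himg, hausdorffMeasure_pi_real, Measure.addHaar_image_linearMap, hdet,
    abs_of_pos hP] at h1
  have h2 : volume T = ENNReal.ofReal (1 / ∏ i, D i) * (ENNReal.ofReal (∏ i, D i) * volume T) := by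
    rw [← mul_assoc, ← ENNReal.ofReal_mul (by positivity), one_div_mul_cancel hP.ne',
      ENNReal.ofReal_one, one_mul]
  rw [h2]
  refine (mul_le_mul_right h1 _).trans (le_of_eq ?_)
  have h3 : (K : ℝ≥0∞) ^ (Fintype.card ι : ℝ) = ENNReal.ofReal ((1 / c) ^ Fintype.card ι) := by
    rw [ENNReal.rpow_natCast, ENNReal.ofReal_pow (by positivity)]
    congr 1
    rw [ENNReal.ofReal, Real.toNNReal_of_nonneg (by positivity)]
    rfl
  rw [h3, ← mul_assoc, ← ENNReal.ofReal_mul (by positivity)]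
  congr 2
  ring

/-- **(AL)** -/
theorem al {ι : Type*} [Fintype ι] {S : Set (ι → ℝ)}
    {Φ : (ι → ℝ) → ι → ℝ} (hΦ : Measurable Φ) (D : ι → ℝ)
    (hD : ∀ i, 0 < D i) {c : ℝ} (hc : 0 < c)
    (h : ∀ x ∈ S, ∀ y ∈ S, ∀ i, c * (D i * |x i - y i|) ≤ ‖Φ x - Φ y‖)
    {g : (ι → ℝ) → ℝ≥0∞} (hg : Measurable g) :
    ∫⁻ x in S, g (Φ x) ≤ ENNReal.ofReal ((1 / c) ^ Fintype.card ι / ∏ i, D i) * ∫⁻ y, g y := by
  have h1 : (volume.restrict S).map Φ ≤
      ENNReal.ofReal ((1 / c) ^ Fintype.card ι / ∏ i, D i) • (volume : Measure (ι → ℝ)) := by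
    refine Measure.le_iff.2 fun F hF => ?_
    rw [Measure.map_apply hΦ hF, Measure.restrict_apply (hΦ hF), Measure.smul_apply, smul_eq_mul]
    refine (al_vol (Φ ⁻¹' F ∩ S) Φ D hD hc fun x hx y hy i => h x hx.2 y hy.2 i).trans ?_
    refine mul_le_mul_right (measure_mono ?_) _
    rintro _ ⟨x, hx, rfl⟩
    exact hx.1
  calc ∫⁻ x in S, g (Φ x) = ∫⁻ y, g y ∂((volume.restrict S).map Φ) := (lintegral_map hg hΦ).symm
    _ ≤ ∫⁻ y, g y ∂(ENNReal.ofReal ((1 / c) ^ Fintype.card ι / ∏ i, D i) •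
        (volume : Measure (ι → ℝ))) := lintegral_mono' h1 le_rfl
    _ = _ := by rw [lintegral_smul_measure, smul_eq_mul]

/-- **(AL)** on `ℝ × ℝ^m`. -/
theorem al_prod {m : ℕ} {S : Set (ℝ × (Fin m → ℝ))} (hS : MeasurableSet S)
    {Φ : ℝ × (Fin m → ℝ) → ℝ × (Fin m → ℝ)} (hΦ : Measurable Φ) {D0 : ℝ} (hD0 : 0 < D0)
    (D : Fin m → ℝ) (hD : ∀ i, 0 < D i) {c : ℝ} (hc : 0 < c)
    (h0 : ∀ x ∈ S, ∀ y ∈ S, c * (D0 * |x.1 - y.1|) ≤ ‖Φ x - Φ y‖)
    (h : ∀ x ∈ S, ∀ y ∈ S, ∀ i, c * (D i * |x.2 i - y.2 i|) ≤ ‖Φ x - Φ y‖)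
    {g : ℝ × (Fin m → ℝ) → ℝ≥0∞} (hg : Measurable g) :
    ∫⁻ x in S, g (Φ x) ≤
      ENNReal.ofReal ((1 / c) ^ (m + 1) / (D0 * ∏ i, D i)) * ∫⁻ y, g y := by
  set E : (Fin (m + 1) → ℝ) ≃ᵐ ℝ × (Fin m → ℝ) :=
    MeasurableEquiv.piFinSuccAbove (fun _ => ℝ) 0 with hE
  have hEp : MeasurePreserving E := volume_preserving_piFinSuccAbove (fun _ => ℝ) 0
  have hE1 : ∀ x, (E x).1 = x 0 := fun x => rfl
  have hE2 : ∀ x i, (E x).2 i = x i.succ := fun x i => rfl
  have hEn : ∀ u v, ‖E.symm u - E.symm v‖ = ‖u - v‖ := by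
    intro u v
    obtain ⟨x, rfl⟩ := E.surjective u
    obtain ⟨y, rfl⟩ := E.surjective v
    rw [E.symm_apply_apply, E.symm_apply_apply]
    refine le_antisymm ?_ ?_
    · rw [pi_norm_le_iff_of_nonneg (norm_nonneg _)]
      intro i
      refine Fin.cases ?_ (fun j => ?_) i
      · exact norm_fst_le (E x - E y)
      · exact (norm_le_pi_norm (E x - E y).2 j).trans (norm_snd_le (E x - E y))
    · rw [Prod.norm_def]
      refine max_le (norm_le_pi_norm (x - y) 0) ?_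
      rw [pi_norm_le_iff_of_nonneg (norm_nonneg _)]
      intro j
      exact norm_le_pi_norm (x - y) j.succ
  have key := al (S := E ⁻¹' S) (Φ := fun x => E.symm (Φ (E x)))
    (E.symm.measurable.comp (hΦ.comp E.measurable)) (Fin.cons D0 D) (fun i => by
      refine Fin.cases ?_ (fun j => ?_) i
      · exact hD0
      · exact hD j) hc (fun x hx y hy i => by
      rw [hEn]
      refine Fin.cases ?_ (fun j => ?_) i
      · exact h0 _ hx _ hy
      · exact h _ hx _ hy j) (g := fun x => g (E x)) (hg.comp E.measurable)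
  simp only [MeasurableEquiv.apply_symm_apply] at key
  rw [Fintype.card_fin, Fin.prod_univ_succ] at key
  simp only [Fin.cons_zero, Fin.cons_succ] at key
  have e1 : ∫⁻ x in E ⁻¹' S, g (Φ (E x)) = ∫⁻ x in S, g (Φ x) :=
    hEp.setLIntegral_comp_preimage hS (hg.comp hΦ)
  have e2 : ∫⁻ x, g (E x) = ∫⁻ y, g y := hEp.lintegral_comp hg
  rwa [e1, e2] at key

end Pool.Agent.LQN
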