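import Pool.Agent.LQN.BQ0

/-!
`LQN`, rows BQ and RE over the statements of the rows BOX, W1 and CHK.
-/

set_option autoImplicit false

namespace Pool.Agent.LQN.BQ

variable {m : ℕ}

theorem Bx_mono {c0 c1 t0 : ℝ} {y0 : Fin m → ℝ} {t : ℝ} {y : Fin m → ℝ} (hc : c0 ≤ c1)
    (h : Bx c0 t0 y0 t y) : Bx c1 t0 y0 t y :=
  ⟨h.1.trans hc, fun i => (h.2 i).trans (mul_le_mul_of_nonneg_right hc (abs_nonneg _))⟩

theorem Rg_mono {κ κ' α d : ℝ} {r : Fin m → ℝ} {t : ℝ} {y : Fin m → ℝ} (hκ' : 0 < κ')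
    (hc : κ' ≤ κ) (h : Rg κ α d r t y) : Rg κ' α d r t y := by
  have h1 : κ⁻¹ ≤ κ'⁻¹ := inv_anti₀ hκ' hc
  exact ⟨fun i => (h.1 i).trans h1, hc.trans h.2.1, h.2.2.1.trans h1, hc.trans h.2.2.2⟩

/-- The chords of the box are short. -/
theorem nn_box {c0 κ t0 : ℝ} {y0 : Fin m → ℝ} {t t' : ℝ} {y y' : Fin m → ℝ} (hc0 : 0 ≤ c0)
    (hy0 : ∀ i, |y0 i| ≤ κ⁻¹) (h : Bx c0 t0 y0 t y) (h' : Bx c0 t0 y0 t' y') :
    nn t y t' y' ≤ 2 * c0 * (1 + m * κ⁻¹) := by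
  unfold nn
  have h1 : |t' - t| ≤ 2 * c0 := by
    have e : t' - t = (t' - t0) - (t - t0) := by ring
    rw [e]
    have := abs_sub (t' - t0) (t - t0)
    have := h.1
    have := h'.1
    linarith
  have h2 : ∀ i ∈ (Finset.univ : Finset (Fin m)), |y' i - y i| ≤ 2 * c0 * κ⁻¹ := by
    intro i _
    have e : y' i - y i = (y' i - y0 i) - (y i - y0 i) := by ring
    rw [e]
    have h3 := abs_sub (y' i - y0 i) (y i - y0 i)
    have h4 := h.2 i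
    have h5 := h'.2 i
    have h6 : c0 * |y0 i| ≤ c0 * κ⁻¹ := by gcongr; exact hy0 i
    linarith
  have h3 := Finset.sum_le_sum h2
  rw [Finset.sum_const, Finset.card_univ, Fintype.card_fin, nsmul_eq_mul] at h3
  have e : 2 * c0 * (1 + m * κ⁻¹) = 2 * c0 + m * (2 * c0 * κ⁻¹) := by ring
  rw [e]
  exact add_le_add h1 h3

theorem row_BQ_of {α : ℝ} {r : Fin m → ℝ} (h : Hyp α r) {κ : ℝ} (hκ : 0 < κ) (hκ1 : κ ≤ 1)
    (hbox : ∃ c1 : ℝ, 0 < c1 ∧ c1 ≤ 1 / 8 ∧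
      ∀ d, 0 ≤ d → d ≤ 1 → ∀ t0 y0 t y, Rg κ α d r t0 y0 → Bx c1 t0 y0 t y →
        Rg (κ / 4) α d r t y) :
    ∃ c C c1 : ℝ, 0 < c ∧ 0 < C ∧ 0 < c1 ∧ ∀ c0, 0 < c0 → c0 ≤ c1 → ∀ d, 0 ≤ d → d ≤ 1 →
      ∀ t0 y0, Rg κ α d r t0 y0 → ∀ t y t' y' t'' y'', Bx c0 t0 y0 t y → Bx c0 t0 y0 t' y' →
      Bx c0 t0 y0 t'' y'' →
        c * nn t y t' y' ^ 2 ≤ BB α d r t y t' y' t' y' ∧
        |BB α d r t y t' y' t'' y''| ≤ C * (nn t y t' y' * nn t y t'' y'') := by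
  obtain ⟨cb, hcb, -, hbox⟩ := hbox
  obtain ⟨c, C, hc, hC, hq⟩ := bq_core h.α0 r (κ := κ / 4) (by positivity) (by linarith)
  refine ⟨c, C, cb, hc, hC, hcb, ?_⟩
  intro c0 hc0 hc01 d hd0 hd1 t0 y0 hg t y t' y' t'' y'' hb hb' hb''
  exact hq d t t' t'' y y' y'' hd0 hd1 (hbox d hd0 hd1 t0 y0 t y hg (Bx_mono hc01 hb))
    (hbox d hd0 hd1 t0 y0 t' y' hg (Bx_mono hc01 hb'))
    (hbox d hd0 hd1 t0 y0 t'' y'' hg (Bx_mono hc01 hb''))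

theorem abs_le_eight {w1 wn : ℝ} {w : Fin m → ℝ} (h : ww w1 w wn ≤ 64) :
    |w1| ≤ 8 ∧ |wn| ≤ 8 := by
  unfold ww at h
  have h1 : 0 ≤ ∑ i, w i ^ 2 := Finset.sum_nonneg fun i _ => sq_nonneg _
  have h2 : 0 ≤ w1 ^ 2 := sq_nonneg _
  have h3 : 0 ≤ wn ^ 2 := sq_nonneg _
  constructor
  · refine abs_le_of_sq_le_sq ?_ (by norm_num)
    linarith
  · refine abs_le_of_sq_le_sq ?_ (by norm_num)
    linarith

theorem row_RE_of {α : ℝ} {r : Fin m → ℝ} (h : Hyp α r) {κ : ℝ} (hκ : 0 < κ) (hκ1 : κ ≤ 1)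
    (hbox : ∃ c1 : ℝ, 0 < c1 ∧ c1 ≤ 1 / 8 ∧
      ∀ d, 0 ≤ d → d ≤ 1 → ∀ t0 y0 t y, Rg κ α d r t0 y0 → Bx c1 t0 y0 t y →
        Rg (κ / 4) α d r t y)
    (hW1 : ∃ c : ℝ, 0 < c ∧ ∀ d, 0 ≤ d → d ≤ 1 → ∀ t y w1 w wn, Rg (κ / 4) α d r t y →
      1 / 16 ≤ ww w1 w wn → (∀ i, |UU α d r w1 wn w t y i| ≤ c) → c ≤ |w1| + |wn|)
    (hchk : 1 ≤ m → ∀ κ' : ℝ, 0 < κ' → κ' ≤ 1 →
      ∃ C c1 : ℝ, 0 < C ∧ 0 < c1 ∧ ∀ c0, 0 < c0 → c0 ≤ c1 → ∀ d, 0 ≤ d → d ≤ 1 →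
      ∀ t0 y0, Rg κ' α d r t0 y0 → ∀ ν, 0 < ν → (∀ i, ν ≤ |y0 i|) → ∀ t y, Bx c0 t0 y0 t y →
      ∀ w1 w wn, κ' ≤ |w1| + |wn| → |w1| + |wn| ≤ κ'⁻¹ → ∀ ε, 0 ≤ ε →
      (∀ i, |UU α d r w1 wn w t y i| ≤ ε) →
      ∃ (kt : ℝ) (k : Fin m → ℝ), |kt| + ∑ i, |k i| = 1 ∧ ∀ t' y', Bx c0 t0 y0 t' y' →
        (∀ i, |UU α d r w1 wn w t' y' i| ≤ ε) → ∃ lam : ℝ,
          |t' - t - lam * kt| + ∑ i, |y' i - y i - lam * k i| ≤
            C * (c0 * nn t y t' y' + ε / ν)) :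
    ∃ c M c1 : ℝ, 0 < c ∧ 1 ≤ M ∧ 0 < c1 ∧ ∀ c0, 0 < c0 → c0 ≤ c1 → ∀ d, 0 ≤ d → d ≤ 1 →
      ∀ t0 y0, Rg κ α d r t0 y0 → ∀ ν, 0 < ν → (∀ i, ν ≤ |y0 i|) →
      ∀ t y t' y' t'' y'', Bx c0 t0 y0 t y → Bx c0 t0 y0 t' y' → Bx c0 t0 y0 t'' y'' →
      ∀ w1 w wn ε, 0 ≤ ε → 1 / 16 ≤ ww w1 w wn → ww w1 w wn ≤ 64 →
        (∀ i, |UU α d r w1 wn w t y i| ≤ ε) → (∀ i, |UU α d r w1 wn w t' y' i| ≤ ε) →
        (∀ i, |UU α d r w1 wn w t'' y'' i| ≤ ε) → M * ε ≤ ν * nn t y t' y' →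
        M * ε ≤ ν * nn t y t'' y'' →
        c * (nn t y t' y' * nn t y t'' y'') ≤ |BB α d r t y t' y' t'' y''| := by
  obtain ⟨cb, hcb, -, hbox⟩ := hbox
  obtain ⟨c, η, hc, hη, hη2, hre⟩ := re_core h.α0 r (κ := κ / 4) (by positivity) (by linarith)
  have hnnn : ∀ (t t' : ℝ) (y y' : Fin m → ℝ), 0 ≤ nn t y t' y' := fun t t' y y' =>
    n1_nonneg (t' - t) (fun i => y' i - y i)
  rcases Nat.eq_zero_or_pos m with hm | hm
  · -- `m = 0`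
    subst hm
    refine ⟨c, 1, min cb (η / 2), hc, le_rfl, by positivity, ?_⟩
    intro c0 hc0 hc01 d hd0 hd1 t0 y0 hg ν hν _ t y t' y' t'' y'' hb hb' hb'' w1 w wn ε hε _ _ _ _
      _ _ _
    have hcb' : c0 ≤ cb := hc01.trans (min_le_left _ _)
    have hs : ∀ (t' : ℝ) (y' : Fin 0 → ℝ), Bx c0 t0 y0 t' y' → nn t y t' y' ≤ η := by
      intro t' y' hb'
      have h1 := nn_box hc0.le hg.1 hb hb'
      have h2 : c0 ≤ η / 2 := hc01.trans (min_le_right _ _)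
      simp only [Nat.cast_zero, zero_mul, add_zero, mul_one] at h1
      linarith
    refine hre d t t' t'' y y' y'' 1 0 (t' - t) (t'' - t) hd0 hd1
      (hbox d hd0 hd1 t0 y0 t y hg (Bx_mono hcb' hb))
      (hbox d hd0 hd1 t0 y0 t' y' hg (Bx_mono hcb' hb'))
      (hbox d hd0 hd1 t0 y0 t'' y'' hg (Bx_mono hcb' hb'')) ?_ (hs t' y' hb') (hs t'' y'' hb'')
      ?_ ?_
    · unfold n1; simp
    · have : n1 (t' - t - (t' - t) * 1)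
          (fun i => y' i - y i - (t' - t) * (0 : Fin 0 → ℝ) i) = 0 := by
        unfold n1; simp
      rw [this]
      exact mul_nonneg hη.le (n1_nonneg _ _)
    · have : n1 (t'' - t - (t'' - t) * 1)
          (fun i => y'' i - y i - (t'' - t) * (0 : Fin 0 → ℝ) i) = 0 := by
        unfold n1; simp
      rw [this]
      exact mul_nonneg hη.le (n1_nonneg _ _)
  · obtain ⟨cw, hcw, hW⟩ := hW1
    set κ' : ℝ := min κ (min cw (1 / 16)) with hκ'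
    have hκ'0 : 0 < κ' := by positivity
    have hκ'κ : κ' ≤ κ := min_le_left _ _
    have hκ'w : κ' ≤ cw := (min_le_right _ _).trans (min_le_left _ _)
    have hκ'16 : κ' ≤ 1 / 16 := (min_le_right _ _).trans (min_le_right _ _)
    obtain ⟨C, cc, hC, hcc, hchk⟩ := hchk hm κ' hκ'0 (hκ'κ.trans hκ1)
    set M : ℝ := 1 + 2 * C / η + κ⁻¹ / cw with hM
    have hκi : 0 < κ⁻¹ := inv_pos.mpr hκ
    have h2Cη : 0 < 2 * C / η := by positivity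
    have hκcw : 0 < κ⁻¹ / cw := by positivity
    have hM1 : 1 ≤ M := by rw [hM]; linarith
    have hM0 : 0 < M := by linarith
    have hm1 : 0 < 1 + (m : ℝ) * κ⁻¹ := by positivity
    refine ⟨c, M, min (min cb cc) (min (η / (2 * C)) (η / (4 * (1 + m * κ⁻¹)))), hc, hM1,
      by positivity, ?_⟩
    intro c0 hc0 hc01 d hd0 hd1 t0 y0 hg ν hν hy0 t y t' y' t'' y'' hb hb' hb'' w1 w wn ε hε
      hw1 hw2 hU hU' hU'' hM' hM''
    have hcb' : c0 ≤ cb := hc01.trans ((min_le_left _ _).trans (min_le_left _ _))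
    have hcc' : c0 ≤ cc := hc01.trans ((min_le_left _ _).trans (min_le_right _ _))
    have hcη : c0 ≤ η / (2 * C) := hc01.trans ((min_le_right _ _).trans (min_le_left _ _))
    have hcm : c0 ≤ η / (4 * (1 + m * κ⁻¹)) :=
      hc01.trans ((min_le_right _ _).trans (min_le_right _ _))
    have hs : ∀ (t' : ℝ) (y' : Fin m → ℝ), Bx c0 t0 y0 t' y' → nn t y t' y' ≤ η := by
      intro t' y' hb'
      refine (nn_box hc0.le hg.1 hb hb').trans ?_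
      calc 2 * c0 * (1 + m * κ⁻¹) ≤ 2 * (η / (4 * (1 + m * κ⁻¹))) * (1 + m * κ⁻¹) := by gcongr
        _ = η / 2 := by field_simp; ring
        _ ≤ η := by linarith
    have hεw : ε ≤ cw := by
      have h1 : ν ≤ κ⁻¹ := (hy0 ⟨0, hm⟩).trans (hg.1 ⟨0, hm⟩)
      have h2 : nn t y t' y' ≤ 1 := (hs t' y' hb').trans (by linarith)
      have h3 : M * ε ≤ κ⁻¹ * 1 := hM'.trans (mul_le_mul h1 h2 (hnnn _ _ _ _) hκi.le)
      have h4 : κ⁻¹ / cw * ε ≤ M * ε := by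
        refine mul_le_mul_of_nonneg_right ?_ hε
        rw [hM]; linarith
      have h5 : κ⁻¹ / cw * ε ≤ κ⁻¹ := by linarith
      rw [div_mul_eq_mul_div, div_le_iff₀ hcw] at h5
      exact le_of_mul_le_mul_left h5 hκi
    have hgt := hbox d hd0 hd1 t0 y0 t y hg (Bx_mono hcb' hb)
    have hww := hW d hd0 hd1 t y w1 w wn hgt hw1 (fun i => (hU i).trans hεw)
    obtain ⟨e1, e2⟩ := abs_le_eight hw2
    have hwu : |w1| + |wn| ≤ κ'⁻¹ := by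
      have h1 : (1 / 16 : ℝ)⁻¹ ≤ κ'⁻¹ := inv_anti₀ hκ'0 hκ'16
      norm_num at h1
      linarith
    obtain ⟨kt, k, hk, hall⟩ := hchk c0 hc0 hcc' d hd0 hd1 t0 y0 (Rg_mono hκ'0 hκ'κ hg) ν hν hy0
      t y hb w1 w wn (hκ'w.trans hww) hwu ε hε hU
    obtain ⟨l', hl'⟩ := hall t' y' hb' hU'
    obtain ⟨l'', hl''⟩ := hall t'' y'' hb'' hU''
    have key : ∀ (t' : ℝ) (y' : Fin m → ℝ), M * ε ≤ ν * nn t y t' y' →
        C * (c0 * nn t y t' y' + ε / ν) ≤ η * nn t y t' y' := by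
      intro t' y' hM'
      set n := nn t y t' y' with hn
      have hn0 : 0 ≤ n := hnnn _ _ _ _
      have h1 : C * (c0 * n) ≤ η / 2 * n := by
        calc C * (c0 * n) ≤ C * (η / (2 * C) * n) := by gcongr
          _ = η / 2 * n := by field_simp
      have h2 : C * (ε / ν) ≤ η / 2 * n := by
        have h3 : 2 * C / η * ε ≤ ν * n := by
          refine le_trans (mul_le_mul_of_nonneg_right ?_ hε) hM'
          rw [hM]; linarith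
        rw [div_mul_eq_mul_div, div_le_iff₀ hη] at h3
        rw [mul_div_assoc', div_le_iff₀ hν]
        linarith
      rw [mul_add]
      linarith
    exact hre d t t' t'' y y' y'' kt k l' l'' hd0 hd1 hgt
      (hbox d hd0 hd1 t0 y0 t' y' hg (Bx_mono hcb' hb'))
      (hbox d hd0 hd1 t0 y0 t'' y'' hg (Bx_mono hcb' hb'')) hk (hs t' y' hb') (hs t'' y'' hb'')
      (hl'.trans (key t' y' hM')) (hl''.trans (key t'' y'' hM''))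

end Pool.Agent.LQN.BQ
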