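import Pool.Agent.LQN.G1
import Pool.Agent.LQN.RE0

/-!
`LQN`, row BQ: the form `B` on one chord.
-/

set_option autoImplicit false

namespace Pool.Agent.LQN

variable {m : ℕ}

/-- ROW BQ. -/
theorem row_BQ {α : ℝ} {r : Fin m → ℝ} (h : Hyp α r) {κ : ℝ} (hκ : 0 < κ) (hκ1 : κ ≤ 1) :
    ∃ c C c1 : ℝ, 0 < c ∧ 0 < C ∧ 0 < c1 ∧ ∀ c0, 0 < c0 → c0 ≤ c1 → ∀ d, 0 ≤ d → d ≤ 1 →
      ∀ t0 y0, Rg κ α d r t0 y0 → ∀ t y t' y' t'' y'', Bx c0 t0 y0 t y → Bx c0 t0 y0 t' y' →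
      Bx c0 t0 y0 t'' y'' →
        c * nn t y t' y' ^ 2 ≤ BB α d r t y t' y' t' y' ∧
        |BB α d r t y t' y' t'' y''| ≤ C * (nn t y t' y' * nn t y t'' y'') :=
  BQ.row_BQ_of h hκ hκ1 (box_sub h hκ hκ1)

end Pool.Agent.LQN
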