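import Pool.Agent.LQN.Df

/-!
`LQN`, core of the rows BQ and RE: chords and the form `B` of the quadric.
-/

set_option autoImplicit false

namespace Pool.Agent.LQN.BQ

variable {m : ℕ}

/-- one component of the product of two nearly parallel vectors. -/
theorem comp_prod {x3 x4 x l3 l4 n3 n4 δ C : ℝ} (h3 : |x3 - l3 * x| ≤ δ * n3)
    (h4 : |x4 - l4 * x| ≤ δ * n4) (b4 : |x4| ≤ C * n4) (b3 : |l3 * x| ≤ C * n3)
    (hδ : 0 ≤ δ) (hC : 0 ≤ C) (hn3 : 0 ≤ n3) (_hn4 : 0 ≤ n4) :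
    |x3 * x4 - l3 * l4 * x ^ 2| ≤ 2 * C * δ * (n3 * n4) := by
  have e : x3 * x4 - l3 * l4 * x ^ 2 = (x3 - l3 * x) * x4 + (l3 * x) * (x4 - l4 * x) := by ring
  rw [e]
  refine (abs_add_le _ _).trans ?_
  rw [abs_mul, abs_mul]
  have h5 : |x3 - l3 * x| * |x4| ≤ (δ * n3) * (C * n4) := by gcongr
  have h6 : |l3 * x| * |x4 - l4 * x| ≤ (C * n3) * (δ * n4) := by gcongr
  have e2 : 2 * C * δ * (n3 * n4) = (δ * n3) * (C * n4) + (C * n3) * (δ * n4) := by ring
  rw [e2]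
  exact add_le_add h5 h6

theorem AA_sq {α : ℝ} {r : Fin m → ℝ} {t : ℝ} {y : Fin m → ℝ} (h : 0 ≤ rr α r t y) :
    AA α r t y ^ 2 = rr α r t y := Real.sq_sqrt h

/-- `A' - A`, exactly. -/
theorem AA_sub {α : ℝ} {r : Fin m → ℝ} {t t' : ℝ} {y y' : Fin m → ℝ} (h : 0 ≤ rr α r t y)
    (h' : 0 ≤ rr α r t' y') :
    (AA α r t' y' - AA α r t y) * (AA α r t' y' + AA α r t y) =
      2 * PP α r (fun i => (y i + y' i) / 2) (t' - t) (fun i => y' i - y i) := by
  have e1 := AA_sq h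
  have e2 := AA_sq h'
  have e3 : (AA α r t' y' - AA α r t y) * (AA α r t' y' + AA α r t y) =
      rr α r t' y' - rr α r t y := by rw [← e1, ← e2]; ring
  rw [e3]
  unfold rr PP
  rw [mul_sub, Finset.mul_sum]
  have e4 : ∑ i, 2 * (r i * ((y i + y' i) / 2) * (y' i - y i)) =
      ∑ i, r i * y' i ^ 2 - ∑ i, r i * y i ^ 2 := by
    rw [← Finset.sum_sub_distrib]
    exact Finset.sum_congr rfl fun i _ => by ring
  rw [e4]
  rcases eq_or_ne α 0 with h0 | h0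
  · subst h0; simp; ring
  · field_simp
    ring

theorem ss_sub {α : ℝ} {r : Fin m → ℝ} {t t' : ℝ} {y y' : Fin m → ℝ} :
    ss α r t' y' - ss α r t y =
      2 * SS α r (fun i => (y i + y' i) / 2) (t' - t) (fun i => y' i - y i) := by
  unfold ss SS
  rw [mul_add, Finset.mul_sum]
  have e4 : ∑ i, 2 * ((1 - r i) * ((y i + y' i) / 2) * (y' i - y i)) =
      ∑ i, (1 - r i) * y' i ^ 2 - ∑ i, (1 - r i) * y i ^ 2 := by
    rw [← Finset.sum_sub_distrib]
    exact Finset.sum_congr rfl fun i _ => by ring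
  rw [e4]
  rcases eq_or_ne α 0 with h0 | h0
  · subst h0; simp
  · field_simp
    ring

/-- `h' - h`, exactly. -/
theorem hh_sub {α d : ℝ} {r : Fin m → ℝ} {t t' : ℝ} {y y' : Fin m → ℝ}
    (h : 0 ≤ 1 - d ^ 2 * ss α r t y) (h' : 0 ≤ 1 - d ^ 2 * ss α r t' y') :
    (hh α d r t' y' - hh α d r t y) * (HH α d r t' y' + HH α d r t y) =
      2 * SS α r (fun i => (y i + y' i) / 2) (t' - t) (fun i => y' i - y i) := by
  have e1 : HH α d r t y ^ 2 = 1 - d ^ 2 * ss α r t y := Real.sq_sqrt h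
  have e2 : HH α d r t' y' ^ 2 = 1 - d ^ 2 * ss α r t' y' := Real.sq_sqrt h'
  have n1 : (0 : ℝ) ≤ HH α d r t y := Real.sqrt_nonneg _
  have n2 : (0 : ℝ) ≤ HH α d r t' y' := Real.sqrt_nonneg _
  have p1 : 0 < 1 + HH α d r t y := by linarith
  have p2 : 0 < 1 + HH α d r t' y' := by linarith
  rw [← ss_sub]
  unfold hh
  set a := HH α d r t y
  set b := HH α d r t' y'
  set s := ss α r t y
  set s' := ss α r t' y'
  rw [div_sub_div _ _ p2.ne' p1.ne', div_mul_eq_mul_div, div_eq_iff (mul_pos p2 p1).ne']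
  have e4 : d ^ 2 * s = 1 - a ^ 2 := by rw [e1]; ring
  have e5 : d ^ 2 * s' = 1 - b ^ 2 := by rw [e2]; ring
  have key : s' * (1 - a ^ 2) = s * (1 - b ^ 2) := by rw [← e4, ← e5]; ring
  linear_combination -key

theorem abs_mul_pos_eq {x z : ℝ} (hz : 0 < z) : |x| * z = |x * z| := by
  rw [abs_mul, abs_of_pos hz]

/-- The size of a chord. -/
noncomputable def n1 (Dt : ℝ) (D : Fin m → ℝ) : ℝ := |Dt| + ∑ i, |D i|

theorem n1_nonneg (Dt : ℝ) (D : Fin m → ℝ) : 0 ≤ n1 Dt D :=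
  add_nonneg (abs_nonneg _) (Finset.sum_nonneg fun _ _ => abs_nonneg _)

theorem le_n1 (Dt : ℝ) (D : Fin m → ℝ) (i : Fin m) : |D i| ≤ n1 Dt D := by
  have h := Finset.single_le_sum (f := fun i => |D i|) (fun _ _ => abs_nonneg _)
    (Finset.mem_univ i)
  have := abs_nonneg Dt
  unfold n1
  linarith

theorem n1_smul (l : ℝ) (Dt : ℝ) (D : Fin m → ℝ) : n1 (l * Dt) (fun i => l * D i) = |l| * n1 Dt D := by
  unfold n1
  simp only [abs_mul]
  rw [mul_add, Finset.mul_sum]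

theorem n1_neg (Dt : ℝ) (D : Fin m → ℝ) : n1 (-Dt) (fun i => -D i) = n1 Dt D := by
  unfold n1
  simp only [abs_neg]

theorem n1_add (Dt Et : ℝ) (D E : Fin m → ℝ) :
    n1 (Dt + Et) (fun i => D i + E i) ≤ n1 Dt D + n1 Et E := by
  unfold n1
  have h1 := abs_add_le Dt Et
  have h2 : ∑ i, |D i + E i| ≤ ∑ i, |D i| + ∑ i, |E i| := by
    rw [← Finset.sum_add_distrib]
    exact Finset.sum_le_sum fun i _ => abs_add_le _ _
  linarith

/-- a linear form with coefficients `a`, `c i * y i`. -/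
theorem lin_bd {a : ℝ} {c y : Fin m → ℝ} {K M Y : ℝ} (ha : |a| ≤ K) (hc : ∀ i, |c i| ≤ M)
    (hy : ∀ i, |y i| ≤ Y) (hK : M * Y ≤ K) (Dt : ℝ) (D : Fin m → ℝ) :
    |a * Dt + ∑ i, c i * y i * D i| ≤ K * n1 Dt D := by
  refine (abs_add_le _ _).trans ?_
  unfold n1
  rw [mul_add, Finset.mul_sum, abs_mul]
  refine add_le_add (mul_le_mul_of_nonneg_right ha (abs_nonneg _)) ?_
  refine (Finset.abs_sum_le_sum_abs _ _).trans (Finset.sum_le_sum fun i _ => ?_)
  rw [abs_mul, abs_mul]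
  have h1 : |c i| * |y i| ≤ M * Y :=
    mul_le_mul (hc i) (hy i) (abs_nonneg _) ((abs_nonneg _).trans (hc i))
  exact mul_le_mul_of_nonneg_right (h1.trans hK) (abs_nonneg _)

/-- linearisation of `G = 2 Lb / (X + X')`. -/
theorem lin_one {κ G X X' Lb L1 K n : ℝ} (hκ : 0 < κ) (hX : κ ≤ X) (hX' : κ ≤ X')
    (hG : G * (X' + X) = 2 * Lb) (hXX : |X' - X| ≤ K * n) (hL1 : |L1| ≤ K * n)
    (hLb : |Lb - L1| ≤ K * n ^ 2) (hK : 0 ≤ K) (hn : 0 ≤ n) :
    |G - L1 / X| ≤ (K / κ + (K / κ) ^ 2) * n ^ 2 := by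
  have p1 : 0 < X := by linarith
  have p2 : 0 < X' + X := by linarith
  have e : G - L1 / X = 2 * (Lb - L1) / (X' + X) + L1 * (X - X') / (X * (X' + X)) := by
    have : G = 2 * Lb / (X' + X) := by rw [eq_div_iff p2.ne', hG]
    rw [this]
    field_simp
    ring
  rw [e]
  refine (abs_add_le _ _).trans ?_
  have h1 : |2 * (Lb - L1) / (X' + X)| ≤ K / κ * n ^ 2 := by
    rw [abs_div, abs_of_pos p2, div_le_iff₀ p2, abs_mul, abs_two]
    have h0 : 0 ≤ K / κ * n ^ 2 := by positivity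
    calc 2 * |Lb - L1| ≤ 2 * (K * n ^ 2) := by gcongr
      _ = K / κ * n ^ 2 * (2 * κ) := by field_simp
      _ ≤ K / κ * n ^ 2 * (X' + X) := by gcongr; linarith
  have h2 : |L1 * (X - X') / (X * (X' + X))| ≤ (K / κ) ^ 2 * n ^ 2 := by
    rw [abs_div, abs_of_pos (mul_pos p1 p2), div_le_iff₀ (mul_pos p1 p2), abs_mul]
    have h3 : |L1| * |X - X'| ≤ (K * n) * (K * n) := by
      rw [abs_sub_comm X X']
      exact mul_le_mul hL1 hXX (abs_nonneg _) (by positivity)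
    have h4 : κ * κ ≤ X * (X' + X) := by
      have : κ ≤ X' + X := by linarith
      gcongr
    have h5 : 0 ≤ (K / κ) ^ 2 * n ^ 2 := by positivity
    calc |L1| * |X - X'| ≤ (K * n) * (K * n) := h3
      _ = (K / κ) ^ 2 * n ^ 2 * (κ * κ) := by field_simp
      _ ≤ (K / κ) ^ 2 * n ^ 2 * (X * (X' + X)) := by gcongr
  calc _ ≤ K / κ * n ^ 2 + (K / κ) ^ 2 * n ^ 2 := add_le_add h1 h2
    _ = _ := by ring

theorem r_bd (r : Fin m → ℝ) (i : Fin m) :
    |r i| ≤ ∑ i, |r i| + ∑ i, |1 - r i| + 1 ∧ |1 - r i| ≤ ∑ i, |r i| + ∑ i, |1 - r i| + 1 := by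
  have h1 := Finset.single_le_sum (f := fun i => |r i|) (fun _ _ => abs_nonneg _)
    (Finset.mem_univ i)
  have h2 := Finset.single_le_sum (f := fun i => |1 - r i|) (fun _ _ => abs_nonneg _)
    (Finset.mem_univ i)
  have h3 : 0 ≤ ∑ i, |r i| := Finset.sum_nonneg fun _ _ => abs_nonneg _
  have h4 : 0 ≤ ∑ i, |1 - r i| := Finset.sum_nonneg fun _ _ => abs_nonneg _
  constructor <;> linarith

/-- `R0`. -/
noncomputable def R0 (r : Fin m → ℝ) : ℝ := ∑ i, |r i| + ∑ i, |1 - r i| + 1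
/-- `K0`. -/
noncomputable def K0 (κ α : ℝ) (r : Fin m → ℝ) : ℝ := 1 / (2 * |α|) + R0 r * κ⁻¹

theorem one_le_R0 (r : Fin m → ℝ) : 1 ≤ R0 r := by
  have h3 : 0 ≤ ∑ i, |r i| := Finset.sum_nonneg fun _ _ => abs_nonneg _
  have h4 : 0 ≤ ∑ i, |1 - r i| := Finset.sum_nonneg fun _ _ => abs_nonneg _
  unfold R0; linarith

theorem R0κ_le {κ : ℝ} (α : ℝ) (r : Fin m → ℝ) : R0 r * κ⁻¹ ≤ K0 κ α r := by
  have : 0 ≤ 1 / (2 * |α|) := by positivity
  unfold K0; linarith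

theorem R0_le {κ : ℝ} (hκ : 0 < κ) (hκ1 : κ ≤ 1) (α : ℝ) (r : Fin m → ℝ) : R0 r ≤ K0 κ α r := by
  have h1 := R0κ_le (κ := κ) α r
  have h2 := one_le_R0 r
  have h3 : 1 ≤ κ⁻¹ := (one_le_inv₀ hκ).mpr hκ1
  have h4 : R0 r * 1 ≤ R0 r * κ⁻¹ := by gcongr
  linarith

theorem one_le_K0 {κ : ℝ} (hκ : 0 < κ) (hκ1 : κ ≤ 1) (α : ℝ) (r : Fin m → ℝ) : 1 ≤ K0 κ α r :=
  (one_le_R0 r).trans (R0_le hκ hκ1 α r)

theorem inv_le_K0 {κ : ℝ} (hκ : 0 < κ) (α : ℝ) (r : Fin m → ℝ) : |1 / (2 * α)| ≤ K0 κ α r := by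
  rw [abs_div, abs_one, abs_mul, abs_two]
  have := one_le_R0 r
  have : 0 ≤ R0 r * κ⁻¹ := by positivity
  unfold K0; linarith

theorem PP_eq (α : ℝ) (r yb : Fin m → ℝ) (Dt : ℝ) (D : Fin m → ℝ) :
    PP α r yb Dt D = (1 / (2 * α)) * Dt + ∑ i, (-r i) * yb i * D i := by
  unfold PP
  rw [sub_eq_add_neg, ← Finset.sum_neg_distrib]
  congr 1
  · ring
  · exact Finset.sum_congr rfl fun i _ => by ring

theorem SS_eq (α : ℝ) (r yb : Fin m → ℝ) (Dt : ℝ) (D : Fin m → ℝ) :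
    SS α r yb Dt D = (1 / (2 * α)) * Dt + ∑ i, (1 - r i) * yb i * D i := by
  unfold SS
  congr 1
  ring

theorem PP_bd {κ : ℝ} (hκ : 0 < κ) (α : ℝ) (r : Fin m → ℝ) {y : Fin m → ℝ}
    (hy : ∀ i, |y i| ≤ κ⁻¹) (Dt : ℝ) (D : Fin m → ℝ) :
    |PP α r y Dt D| ≤ K0 κ α r * n1 Dt D := by
  rw [PP_eq]
  exact lin_bd (inv_le_K0 hκ α r) (fun i => by rw [abs_neg]; exact (r_bd r i).1) hy
    (R0κ_le α r) Dt D

theorem SS_bd {κ : ℝ} (hκ : 0 < κ) (α : ℝ) (r : Fin m → ℝ) {y : Fin m → ℝ}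
    (hy : ∀ i, |y i| ≤ κ⁻¹) (Dt : ℝ) (D : Fin m → ℝ) :
    |SS α r y Dt D| ≤ K0 κ α r * n1 Dt D := by
  rw [SS_eq]
  exact lin_bd (inv_le_K0 hκ α r) (fun i => (r_bd r i).2) hy (R0κ_le α r) Dt D

theorem sum_sq_bd {c : Fin m → ℝ} {M : ℝ} (hc : ∀ i, |c i| ≤ M) (hM : 0 ≤ M) (Dt : ℝ)
    (D : Fin m → ℝ) : |∑ i, c i * (D i / 2) * D i| ≤ M * n1 Dt D ^ 2 := by
  refine (Finset.abs_sum_le_sum_abs _ _).trans ?_
  have h1 : ∀ i ∈ (Finset.univ : Finset (Fin m)), |c i * (D i / 2) * D i| ≤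
      (M * n1 Dt D) * |D i| := by
    intro i _
    rw [abs_mul, abs_mul, abs_div, abs_two]
    have h2 := le_n1 Dt D i
    have h3 := abs_nonneg (D i)
    have h4 : |c i| * (|D i| / 2) ≤ M * n1 Dt D :=
      mul_le_mul (hc i) (by linarith) (by positivity) hM
    exact mul_le_mul_of_nonneg_right h4 (abs_nonneg _)
  refine (Finset.sum_le_sum h1).trans ?_
  rw [← Finset.mul_sum]
  have h5 : ∑ i, |D i| ≤ n1 Dt D := by
    unfold n1; linarith [abs_nonneg Dt]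
  have h6 : 0 ≤ M * n1 Dt D := mul_nonneg hM (n1_nonneg _ _)
  calc (M * n1 Dt D) * ∑ i, |D i| ≤ (M * n1 Dt D) * n1 Dt D :=
        mul_le_mul_of_nonneg_left h5 h6
    _ = M * n1 Dt D ^ 2 := by ring

theorem AA_ge {κ α d : ℝ} {r : Fin m → ℝ} {t : ℝ} {y : Fin m → ℝ} (hκ : 0 < κ) (hκ1 : κ ≤ 1)
    (h : Rg κ α d r t y) : κ ≤ AA α r t y := by
  refine Real.le_sqrt_of_sq_le ?_
  have : κ ^ 2 ≤ κ := by nlinarith
  exact this.trans h.2.1

theorem AA_le {κ α d : ℝ} {r : Fin m → ℝ} {t : ℝ} {y : Fin m → ℝ} (hκ : 0 < κ) (hκ1 : κ ≤ 1)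
    (h : Rg κ α d r t y) : AA α r t y ≤ κ⁻¹ := by
  have h1 : 1 ≤ κ⁻¹ := (one_le_inv₀ hκ).mpr hκ1
  refine Real.sqrt_le_iff.mpr ⟨by linarith, h.2.2.1.trans ?_⟩
  nlinarith

theorem HH_ge {κ α d : ℝ} {r : Fin m → ℝ} {t : ℝ} {y : Fin m → ℝ} (hκ : 0 < κ) (hκ1 : κ ≤ 1)
    (h : Rg κ α d r t y) : κ ≤ HH α d r t y := by
  refine Real.le_sqrt_of_sq_le ?_
  have : κ ^ 2 ≤ κ := by nlinarith
  exact this.trans h.2.2.2

theorem mean_bd {Y : ℝ} {y y' : Fin m → ℝ} (h : ∀ i, |y i| ≤ Y) (h' : ∀ i, |y' i| ≤ Y)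
    (i : Fin m) : |(y i + y' i) / 2| ≤ Y := by
  rw [abs_div, abs_two]
  have := abs_add_le (y i) (y' i)
  have := h i
  have := h' i
  linarith

/-- from `x z = 2 L`, `|L| ≤ K n`, `z ≥ 2κ`. -/
theorem div_two_bd {x z L κ K n : ℝ} (hκ : 0 < κ) (hz : 2 * κ ≤ z) (e : |x * z| ≤ 2 * L)
    (hL : L ≤ K * n) : |x| ≤ K / κ * n := by
  have hp : 0 < z := by linarith
  rw [abs_mul, abs_of_pos hp] at e
  have h1 : |x| * (2 * κ) ≤ |x| * z := by gcongr
  have h2 : |x| * κ ≤ K * n := by linarith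
  rw [div_mul_eq_mul_div, le_div_iff₀ hκ]
  exact h2

/-- The chord in the first coordinate. -/
theorem chordA {κ α d : ℝ} {r : Fin m → ℝ} {t t' : ℝ} {y y' : Fin m → ℝ} (hκ : 0 < κ)
    (hκ1 : κ ≤ 1) (h : Rg κ α d r t y) (h' : Rg κ α d r t' y') :
    |AA α r t' y' - AA α r t y - PP α r y (t' - t) (fun i => y' i - y i) / AA α r t y| ≤
      (K0 κ α r / κ / κ + (K0 κ α r / κ / κ) ^ 2) * n1 (t' - t) (fun i => y' i - y i) ^ 2 ∧
    |AA α r t' y' - AA α r t y| ≤ K0 κ α r / κ * n1 (t' - t) (fun i => y' i - y i) := by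
  set D : Fin m → ℝ := fun i => y' i - y i with hD
  set n := n1 (t' - t) D with hn
  have hn0 : 0 ≤ n := n1_nonneg _ _
  have hK := one_le_K0 hκ hκ1 α r
  have hKK : K0 κ α r ≤ K0 κ α r / κ := by
    rw [le_div_iff₀ hκ]; nlinarith
  have hA := AA_ge hκ hκ1 h
  have hA' := AA_ge hκ hκ1 h'
  have e := AA_sub (α := α) (r := r) (t := t) (t' := t') (y := y) (y' := y')
    (by linarith [h.2.1]) (by linarith [h'.2.1])
  have hP := PP_bd hκ α r (mean_bd h.1 h'.1) (t' - t) D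
  have h1 : |AA α r t' y' - AA α r t y| ≤ K0 κ α r / κ * n := by
    refine div_two_bd (z := AA α r t' y' + AA α r t y) hκ (by linarith) ?_ hP
    rw [e, abs_mul, abs_two]
  refine ⟨?_, h1⟩
  refine lin_one hκ hA hA' e h1 ?_ ?_ (by positivity) hn0
  · refine (PP_bd hκ α r h.1 (t' - t) D).trans ?_
    gcongr
  · have e2 : PP α r (fun i => (y i + y' i) / 2) (t' - t) D - PP α r y (t' - t) D =
        ∑ i, (-r i) * (D i / 2) * D i := by
      unfold PP
      rw [sub_sub_sub_cancel_left, ← Finset.sum_sub_distrib]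
      exact Finset.sum_congr rfl fun i _ => by simp only [hD]; ring
    rw [e2]
    refine (sum_sq_bd (M := R0 r) (fun i => by rw [abs_neg]; exact (r_bd r i).1)
      (by linarith [one_le_R0 r]) (t' - t) D).trans ?_
    exact mul_le_mul_of_nonneg_right ((R0_le hκ hκ1 α r).trans hKK) (sq_nonneg _)

/-- The chord in the last coordinate. -/
theorem chordH {κ α d : ℝ} {r : Fin m → ℝ} {t t' : ℝ} {y y' : Fin m → ℝ} (hκ : 0 < κ)
    (hκ1 : κ ≤ 1) (hd0 : 0 ≤ d) (hd1 : d ≤ 1) (h : Rg κ α d r t y) (h' : Rg κ α d r t' y') :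
    |hh α d r t' y' - hh α d r t y - SS α r y (t' - t) (fun i => y' i - y i) / HH α d r t y| ≤
      (K0 κ α r / κ / κ + (K0 κ α r / κ / κ) ^ 2) * n1 (t' - t) (fun i => y' i - y i) ^ 2 ∧
    |hh α d r t' y' - hh α d r t y| ≤ K0 κ α r / κ * n1 (t' - t) (fun i => y' i - y i) := by
  set D : Fin m → ℝ := fun i => y' i - y i with hD
  set n := n1 (t' - t) D with hn
  have hn0 : 0 ≤ n := n1_nonneg _ _
  have hK := one_le_K0 hκ hκ1 α r
  have hKK : K0 κ α r ≤ K0 κ α r / κ := by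
    rw [le_div_iff₀ hκ]; nlinarith
  have hA := HH_ge hκ hκ1 h
  have hA' := HH_ge hκ hκ1 h'
  have p1 : 0 ≤ 1 - d ^ 2 * ss α r t y := by linarith [h.2.2.2]
  have p2 : 0 ≤ 1 - d ^ 2 * ss α r t' y' := by linarith [h'.2.2.2]
  have e := hh_sub (α := α) (r := r) (t := t) (t' := t') (y := y) (y' := y') (d := d) p1 p2
  have e1 : HH α d r t y ^ 2 = 1 - d ^ 2 * ss α r t y := Real.sq_sqrt p1
  have e2 : HH α d r t' y' ^ 2 = 1 - d ^ 2 * ss α r t' y' := Real.sq_sqrt p2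
  have hP := SS_bd hκ α r (mean_bd h.1 h'.1) (t' - t) D
  have h1 : |hh α d r t' y' - hh α d r t y| ≤ K0 κ α r / κ * n := by
    refine div_two_bd (z := HH α d r t' y' + HH α d r t y) hκ (by linarith) ?_ hP
    rw [e, abs_mul, abs_two]
  have h4 : |HH α d r t' y' - HH α d r t y| ≤ K0 κ α r / κ * n := by
    refine div_two_bd (z := HH α d r t' y' + HH α d r t y) hκ (by linarith) ?_ hP
    have e3 : (HH α d r t' y' - HH α d r t y) * (HH α d r t' y' + HH α d r t y) =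
        -(d ^ 2 * (ss α r t' y' - ss α r t y)) := by
      have : (HH α d r t' y' - HH α d r t y) * (HH α d r t' y' + HH α d r t y) =
        HH α d r t' y' ^ 2 - HH α d r t y ^ 2 := by ring
      rw [this, e1, e2]; ring
    rw [e3, ss_sub, abs_neg, abs_mul, abs_mul, abs_two, abs_of_nonneg (sq_nonneg d)]
    have h5 : d ^ 2 ≤ 1 := by nlinarith
    have h6 : 0 ≤ 2 * |SS α r (fun i => (y i + y' i) / 2) (t' - t) D| := by positivity
    calc d ^ 2 * (2 * |SS α r (fun i => (y i + y' i) / 2) (t' - t) D|) ≤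
        1 * (2 * |SS α r (fun i => (y i + y' i) / 2) (t' - t) D|) := by gcongr
      _ = _ := one_mul _
  refine ⟨?_, h1⟩
  refine lin_one hκ hA hA' e h4 ?_ ?_ (by positivity) hn0
  · refine (SS_bd hκ α r h.1 (t' - t) D).trans ?_
    gcongr
  · have e2 : SS α r (fun i => (y i + y' i) / 2) (t' - t) D - SS α r y (t' - t) D =
        ∑ i, (1 - r i) * (D i / 2) * D i := by
      unfold SS
      rw [add_sub_add_left_eq_sub, ← Finset.sum_sub_distrib]
      exact Finset.sum_congr rfl fun i _ => by simp only [hD]; ring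
    rw [e2]
    refine (sum_sq_bd (M := R0 r) (fun i => (r_bd r i).2)
      (by linarith [one_le_R0 r]) (t' - t) D).trans ?_
    exact mul_le_mul_of_nonneg_right ((R0_le hκ hκ1 α r).trans hKK) (sq_nonneg _)

/-- The quadratic form is bounded below. -/
theorem q_low {α : ℝ} (hα : α ≠ 0) (r : Fin m → ℝ) {κ : ℝ} (hκ : 0 < κ) :
    ∃ q : ℝ, 0 < q ∧ ∀ (A : ℝ) (y : Fin m → ℝ)
    (kt : ℝ) (k : Fin m → ℝ), 0 < A → A ≤ κ⁻¹ → (∀ i, |y i| ≤ κ⁻¹) →
    q * n1 kt k ^ 2 ≤ (PP α r y kt k / A) ^ 2 + ∑ i, k i ^ 2 := by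
  have hα' : 0 < |α| := abs_pos.mpr hα
  have hR := one_le_R0 r
  have hR' : 0 < R0 r := by linarith
  set c1 : ℝ := 1 / (2 + 8 * |α| * (R0 r * κ⁻¹)) with hc1
  have hden : 0 < 2 + 8 * |α| * (R0 r * κ⁻¹) := by positivity
  have hc1p : 0 < c1 := by positivity
  have hc1e : c1 * (2 + 8 * |α| * (R0 r * κ⁻¹)) = 1 := by rw [hc1]; field_simp
  have hc1h : c1 ≤ 1 / 2 := by
    have : 0 ≤ c1 * (8 * |α| * (R0 r * κ⁻¹)) := by positivity
    linarith
  refine ⟨min (c1 ^ 2 / (m + 1)) ((κ / (8 * |α|)) ^ 2), by positivity, ?_⟩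
  intro A y kt k hA hA3 hy
  set N := n1 kt k with hN
  have hN0 : 0 ≤ N := n1_nonneg _ _
  by_cases hS : c1 * N ≤ ∑ i, |k i|
  · have h1 : (∑ i, |k i|) ^ 2 ≤ (m + 1) * ∑ i, k i ^ 2 := by
      have h2 := sq_sum_le_card_mul_sum_sq (s := (Finset.univ : Finset (Fin m)))
        (f := fun i => |k i|)
      simp only [sq_abs, Finset.card_univ, Fintype.card_fin] at h2
      have h3 : 0 ≤ ∑ i, k i ^ 2 := Finset.sum_nonneg fun i _ => sq_nonneg _
      linarith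
    have h4 : (c1 * N) ^ 2 ≤ (∑ i, |k i|) ^ 2 := pow_le_pow_left₀ (by positivity) hS 2
    have h5 : c1 ^ 2 / (m + 1) * N ^ 2 ≤ ∑ i, k i ^ 2 := by
      rw [div_mul_eq_mul_div, div_le_iff₀ (by positivity)]
      calc c1 ^ 2 * N ^ 2 = (c1 * N) ^ 2 := by ring
        _ ≤ _ := h4.trans h1
        _ = _ := by ring
    have h6 := sq_nonneg (PP α r y kt k / A)
    calc _ ≤ c1 ^ 2 / (m + 1) * N ^ 2 := by gcongr; exact min_le_left _ _
      _ ≤ _ := by linarith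
  · push Not at hS
    have h1 : |kt| = N - ∑ i, |k i| := by
      rw [hN]; unfold n1; ring
    have h2 : N / (8 * |α|) ≤ |PP α r y kt k| := by
      have h3 : |∑ i, r i * y i * k i| ≤ R0 r * κ⁻¹ * ∑ i, |k i| := by
        refine (Finset.abs_sum_le_sum_abs _ _).trans ?_
        rw [Finset.mul_sum]
        refine Finset.sum_le_sum fun i _ => ?_
        rw [abs_mul, abs_mul]
        have h4 : |r i| * |y i| ≤ R0 r * κ⁻¹ :=
          mul_le_mul (r_bd r i).1 (hy i) (abs_nonneg _) hR'.le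
        exact mul_le_mul_of_nonneg_right h4 (abs_nonneg _)
      have h5 : |kt / (2 * α)| - |∑ i, r i * y i * k i| ≤ |PP α r y kt k| := by
        unfold PP
        exact abs_sub_abs_le_abs_sub _ _
      have h6 : |kt / (2 * α)| = |kt| / (2 * |α|) := by
        rw [abs_div, abs_mul, abs_two]
      rw [h6] at h5
      have h7 : N / (4 * |α|) ≤ |kt| / (2 * |α|) := by
        have h71 : N / 2 ≤ |kt| := by
          have : c1 * N ≤ 1 / 2 * N := by gcongr
          linarith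
        have : N / (4 * |α|) = (N / 2) / (2 * |α|) := by field_simp; norm_num
        rw [this]
        gcongr
      have h8 : R0 r * κ⁻¹ * ∑ i, |k i| ≤ N / (8 * |α|) := by
        have h81 : R0 r * κ⁻¹ * (∑ i, |k i|) ≤ R0 r * κ⁻¹ * (c1 * N) := by gcongr
        refine h81.trans ?_
        rw [le_div_iff₀ (by positivity)]
        have h82 : c1 * (8 * |α| * (R0 r * κ⁻¹)) ≤ 1 := by linarith
        calc R0 r * κ⁻¹ * (c1 * N) * (8 * |α|) = c1 * (8 * |α| * (R0 r * κ⁻¹)) * N := by ring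
          _ ≤ 1 * N := by gcongr
          _ = N := one_mul _
      have h10 : N / (4 * |α|) = N / (8 * |α|) + N / (8 * |α|) := by
        field_simp; ring
      linarith
    have h11 : κ / (8 * |α|) * N ≤ |PP α r y kt k / A| := by
      rw [abs_div, abs_of_pos hA, le_div_iff₀ hA]
      have h12 : κ / (8 * |α|) * N * A ≤ κ / (8 * |α|) * N * κ⁻¹ := by gcongr
      have e : κ / (8 * |α|) * N * κ⁻¹ = N / (8 * |α|) := by field_simp
      linarith
    have h12 : (κ / (8 * |α|) * N) ^ 2 ≤ (PP α r y kt k / A) ^ 2 := by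
      rw [← sq_abs (PP α r y kt k / A)]
      exact pow_le_pow_left₀ (by positivity) h11 2
    have h13 : 0 ≤ ∑ i, k i ^ 2 := Finset.sum_nonneg fun i _ => sq_nonneg _
    calc _ ≤ (κ / (8 * |α|)) ^ 2 * N ^ 2 := by gcongr; exact min_le_right _ _
      _ = (κ / (8 * |α|) * N) ^ 2 := by ring
      _ ≤ _ := by linarith

theorem PP_sub_smul (α : ℝ) (r y : Fin m → ℝ) (Dt l kt : ℝ) (D k : Fin m → ℝ) :
    PP α r y (Dt - l * kt) (fun i => D i - l * k i) = PP α r y Dt D - l * PP α r y kt k := by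
  unfold PP
  rw [mul_sub, Finset.mul_sum]
  have : ∑ i, r i * y i * (D i - l * k i) =
      ∑ i, r i * y i * D i - ∑ i, l * (r i * y i * k i) := by
    rw [← Finset.sum_sub_distrib]
    exact Finset.sum_congr rfl fun i _ => by ring
  rw [this]; ring

theorem SS_sub_smul (α : ℝ) (r y : Fin m → ℝ) (Dt l kt : ℝ) (D k : Fin m → ℝ) :
    SS α r y (Dt - l * kt) (fun i => D i - l * k i) = SS α r y Dt D - l * SS α r y kt k := by
  unfold SS
  rw [mul_add, Finset.mul_sum]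
  have : ∑ i, (1 - r i) * y i * (D i - l * k i) =
      ∑ i, (1 - r i) * y i * D i - ∑ i, l * ((1 - r i) * y i * k i) := by
    rw [← Finset.sum_sub_distrib]
    exact Finset.sum_congr rfl fun i _ => by ring
  rw [this]; ring

theorem div_bd {κ x X B : ℝ} (hκ : 0 < κ) (hX : κ ≤ X) (hx : |x| ≤ B) : |x / X| ≤ B / κ := by
  have hXp : 0 < X := by linarith
  rw [abs_div, abs_of_pos hXp]
  exact div_le_div₀ ((abs_nonneg _).trans hx) hx hκ hX

/-- `l` is comparable with the chord. -/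
theorem lam_bd {Dt l kt η : ℝ} {D k : Fin m → ℝ} (hk : n1 kt k = 1) (_hη0 : 0 ≤ η)
    (hη : η ≤ 1 / 2)
    (hp : n1 (Dt - l * kt) (fun i => D i - l * k i) ≤ η * n1 Dt D) :
    |l| ≤ 2 * n1 Dt D ∧ n1 Dt D / 2 ≤ |l| := by
  set n := n1 Dt D with hn
  have hn0 : 0 ≤ n := n1_nonneg _ _
  have hηn : η * n ≤ n / 2 := by
    have : η * n ≤ 1 / 2 * n := by gcongr
    linarith
  constructor
  · have h1 := n1_add Dt (-(Dt - l * kt)) D (fun i => -(D i - l * k i))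
    rw [n1_neg] at h1
    have h2 : n1 (Dt + -(Dt - l * kt)) (fun i => D i + -(D i - l * k i)) = |l| := by
      have : n1 (l * kt) (fun i => l * k i) = |l| := by rw [n1_smul, hk, mul_one]
      rw [← this]
      congr 1
      · ring
      · funext i; ring
    rw [h2] at h1
    linarith
  · have h1 := n1_add (l * kt) (Dt - l * kt) (fun i => l * k i) (fun i => D i - l * k i)
    rw [n1_smul, hk, mul_one] at h1
    have h2 : n1 (l * kt + (Dt - l * kt)) (fun i => l * k i + (D i - l * k i)) = n := by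
      rw [hn]; congr 1
      · ring
      · funext i; ring
    rw [h2] at h1
    linarith

/-- One chord, nearly parallel to `k`: all the components. -/
theorem one_chord {κ α d : ℝ} {r : Fin m → ℝ} {t t' : ℝ} {y y' : Fin m → ℝ} (hκ : 0 < κ)
    (hκ1 : κ ≤ 1) (hd0 : 0 ≤ d) (hd1 : d ≤ 1) (hg : Rg κ α d r t y) (hg' : Rg κ α d r t' y')
    {kt l η K K2 : ℝ} {k : Fin m → ℝ} (hk : n1 kt k = 1) (hη0 : 0 ≤ η) (hη : η ≤ 1 / 2)
    (hK : K = K0 κ α r / κ) (hK2 : K2 = K / κ + (K / κ) ^ 2)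
    (hs : n1 (t' - t) (fun i => y' i - y i) ≤ η)
    (hp : n1 (t' - t - l * kt) (fun i => y' i - y i - l * k i) ≤
      η * n1 (t' - t) (fun i => y' i - y i)) :
    (|AA α r t' y' - AA α r t y - l * (PP α r y kt k / AA α r t y)| ≤
      ((K2 + K) * η) * n1 (t' - t) (fun i => y' i - y i) ∧
    |hh α d r t' y' - hh α d r t y - l * (SS α r y kt k / HH α d r t y)| ≤
      ((K2 + K) * η) * n1 (t' - t) (fun i => y' i - y i) ∧
    (∀ i, |y' i - y i - l * k i| ≤ ((K2 + K) * η) * n1 (t' - t) (fun i => y' i - y i)) ∧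
    |AA α r t' y' - AA α r t y| ≤ (2 * K) * n1 (t' - t) (fun i => y' i - y i) ∧
    |hh α d r t' y' - hh α d r t y| ≤ (2 * K) * n1 (t' - t) (fun i => y' i - y i) ∧
    (∀ i, |y' i - y i| ≤ (2 * K) * n1 (t' - t) (fun i => y' i - y i)) ∧
    |l * (PP α r y kt k / AA α r t y)| ≤ (2 * K) * n1 (t' - t) (fun i => y' i - y i) ∧
    |l * (SS α r y kt k / HH α d r t y)| ≤ (2 * K) * n1 (t' - t) (fun i => y' i - y i) ∧
    (∀ i, |l * k i| ≤ (2 * K) * n1 (t' - t) (fun i => y' i - y i)) ∧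
    n1 (t' - t) (fun i => y' i - y i) / 2 ≤ |l|) := by
  obtain ⟨a1, a2⟩ := chordA hκ hκ1 hg hg'
  obtain ⟨b1, b2⟩ := chordH hκ hκ1 hd0 hd1 hg hg'
  rw [← hK, ← hK2] at a1 b1
  rw [← hK] at a2 b2
  obtain ⟨hlu, hll⟩ := lam_bd (Dt := t' - t) (D := fun i => y' i - y i) hk hη0 hη hp
  have hA := AA_ge hκ hκ1 hg
  have hH := HH_ge hκ hκ1 hg
  have hK0 := one_le_K0 hκ hκ1 α r
  have hK1 : 1 ≤ K := by
    rw [hK, le_div_iff₀ hκ]; linarith
  have hKp : 0 < K := by linarith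
  have hK2p : 0 < K2 := by rw [hK2]; positivity
  have hPk := PP_bd hκ α r hg.1 kt k
  have hSk := SS_bd hκ α r hg.1 kt k
  rw [hk, mul_one] at hPk hSk
  have hPd := PP_bd hκ α r hg.1 (t' - t - l * kt) (fun i => y' i - y i - l * k i)
  have hSd := SS_bd hκ α r hg.1 (t' - t - l * kt) (fun i => y' i - y i - l * k i)
  have ePd := PP_sub_smul α r y (t' - t) l kt (fun i => y' i - y i) k
  have eSd := SS_sub_smul α r y (t' - t) l kt (fun i => y' i - y i) k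
  have hki : ∀ i, |k i| ≤ 1 := fun i => by
    have := le_n1 kt k i
    rwa [hk] at this
  have hyi : ∀ i, |y' i - y i| ≤ n1 (t' - t) (fun i => y' i - y i) := fun i =>
    le_n1 (t' - t) (fun i => y' i - y i) i
  have hdi : ∀ i, |y' i - y i - l * k i| ≤ η * n1 (t' - t) (fun i => y' i - y i) := fun i =>
    (le_n1 (t' - t - l * kt) (fun i => y' i - y i - l * k i) i).trans hp
  set n := n1 (t' - t) (fun i => y' i - y i) with hn
  have hn0 : 0 ≤ n := n1_nonneg _ _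
  have hK0n : K0 κ α r * n1 (t' - t - l * kt) (fun i => y' i - y i - l * k i) ≤
      K0 κ α r * (η * n) := by gcongr
  have hPA : |PP α r y kt k / AA α r t y| ≤ K := (div_bd hκ hA hPk).trans hK.symm.le
  have hSH : |SS α r y kt k / HH α d r t y| ≤ K := (div_bd hκ hH hSk).trans hK.symm.le
  have hKe : K0 κ α r * (η * n) / κ = K * (η * n) := by rw [hK]; ring
  have hPdA := div_bd hκ hA (hPd.trans hK0n)
  have hSdH := div_bd hκ hH (hSd.trans hK0n)
  rw [hKe] at hPdA hSdH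
  rw [ePd] at hPdA
  rw [eSd] at hSdH
  have hn2 : K2 * n ^ 2 ≤ K2 * (η * n) := by
    have : n ^ 2 ≤ η * n := by rw [sq]; gcongr
    gcongr
  have hδ : (K2 + K) * η * n = K2 * (η * n) + K * (η * n) := by ring
  have h2K : 2 * n ≤ 2 * K * n := by
    have : 1 * n ≤ K * n := by gcongr
    linarith
  have hKn : K * n ≤ 2 * K * n := by
    have : 0 ≤ K * n := by positivity
    linarith
  refine ⟨?_, ?_, ?_, a2.trans hKn, b2.trans hKn, ?_, ?_, ?_, ?_, hll⟩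
  · have e : AA α r t' y' - AA α r t y - l * (PP α r y kt k / AA α r t y) =
        (AA α r t' y' - AA α r t y - PP α r y (t' - t) (fun i => y' i - y i) / AA α r t y) +
        (PP α r y (t' - t) (fun i => y' i - y i) - l * PP α r y kt k) / AA α r t y := by
      ring
    rw [e, hδ]
    exact (abs_add_le _ _).trans (add_le_add (a1.trans hn2) hPdA)
  · have e : hh α d r t' y' - hh α d r t y - l * (SS α r y kt k / HH α d r t y) =
        (hh α d r t' y' - hh α d r t y - SS α r y (t' - t) (fun i => y' i - y i) / HH α d r t y) +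
        (SS α r y (t' - t) (fun i => y' i - y i) - l * SS α r y kt k) / HH α d r t y := by
      ring
    rw [e, hδ]
    exact (abs_add_le _ _).trans (add_le_add (b1.trans hn2) hSdH)
  · intro i
    refine (hdi i).trans ?_
    rw [hδ]
    have h1 : 1 * (η * n) ≤ K * (η * n) := by gcongr
    have h2 : 0 ≤ K2 * (η * n) := by positivity
    linarith
  · intro i
    have := hyi i
    linarith
  · rw [abs_mul]
    calc |l| * |PP α r y kt k / AA α r t y| ≤ (2 * n) * K := by gcongr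
      _ = 2 * K * n := by ring
  · rw [abs_mul]
    calc |l| * |SS α r y kt k / HH α d r t y| ≤ (2 * n) * K := by gcongr
      _ = 2 * K * n := by ring
  · intro i
    rw [abs_mul]
    calc |l| * |k i| ≤ (2 * n) * 1 := by gcongr; exact hki i
      _ ≤ 2 * K * n := by linarith

/-- **RE, core.** Two short chords from the same point which are nearly parallel (to the same `k`)
have a large product. -/
theorem re_core {α : ℝ} (hα : α ≠ 0) (r : Fin m → ℝ) {κ : ℝ} (hκ : 0 < κ) (hκ1 : κ ≤ 1) :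
    ∃ c η : ℝ, 0 < c ∧ 0 < η ∧ η ≤ 1 / 2 ∧ ∀ (d t t3 t4 : ℝ) (y y3 y4 : Fin m → ℝ) (kt : ℝ)
      (k : Fin m → ℝ) (l3 l4 : ℝ), 0 ≤ d → d ≤ 1 → Rg κ α d r t y → Rg κ α d r t3 y3 →
      Rg κ α d r t4 y4 → n1 kt k = 1 →
      n1 (t3 - t) (fun i => y3 i - y i) ≤ η → n1 (t4 - t) (fun i => y4 i - y i) ≤ η →
      n1 (t3 - t - l3 * kt) (fun i => y3 i - y i - l3 * k i) ≤
        η * n1 (t3 - t) (fun i => y3 i - y i) →
      n1 (t4 - t - l4 * kt) (fun i => y4 i - y i - l4 * k i) ≤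
        η * n1 (t4 - t) (fun i => y4 i - y i) →
      c * (n1 (t3 - t) (fun i => y3 i - y i) * n1 (t4 - t) (fun i => y4 i - y i)) ≤
        |BB α d r t y t3 y3 t4 y4| := by
  obtain ⟨q, hq0, hq⟩ := q_low hα r hκ
  have hK0 := one_le_K0 hκ hκ1 α r
  set K : ℝ := K0 κ α r / κ with hK
  set K2 : ℝ := K / κ + (K / κ) ^ 2 with hK2
  have hKp : 0 < K := by positivity
  have hK2p : 0 < K2 := by positivity
  set Z : ℝ := 4 * K * (m + 2) * (K2 + K) with hZ
  have hZp : 0 < Z := by positivity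
  refine ⟨q / 8, min (1 / 2) (q / (8 * Z)), by positivity, by positivity, min_le_left _ _, ?_⟩
  intro d t t3 t4 y y3 y4 kt k l3 l4 hd0 hd1 hg hg3 hg4 hk hs3 hs4 hp3 hp4
  set η : ℝ := min (1 / 2) (q / (8 * Z)) with hη
  have hη0 : 0 < η := by positivity
  have hη1 : η ≤ 1 / 2 := min_le_left _ _
  have hη2 : Z * η ≤ q / 8 := by
    have : η ≤ q / (8 * Z) := min_le_right _ _
    calc Z * η ≤ Z * (q / (8 * Z)) := by gcongr
      _ = q / 8 := by field_simp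
  obtain ⟨p1, p2, p3, p4, p5, p6, p7, p8, p9, p10⟩ :=
    one_chord hκ hκ1 hd0 hd1 hg hg3 hk hη0.le hη1 hK hK2 hs3 hp3
  obtain ⟨q1, q2, q3, q4, q5, q6, q7, q8, q9, q10⟩ :=
    one_chord hκ hκ1 hd0 hd1 hg hg4 hk hη0.le hη1 hK hK2 hs4 hp4
  have hA := AA_ge hκ hκ1 hg
  have hqk := hq (AA α r t y) y kt k (by linarith) (AA_le hκ hκ1 hg) hg.1
  rw [hk] at hqk
  clear hs3 hs4 hp3 hp4 hg hg3 hg4 hq hk hη hA
  set n3 := n1 (t3 - t) (fun i => y3 i - y i) with hn3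
  set n4 := n1 (t4 - t) (fun i => y4 i - y i) with hn4
  have hn30 : 0 ≤ n3 := n1_nonneg _ _
  have hn40 : 0 ≤ n4 := n1_nonneg _ _
  have hδ0 : 0 ≤ (K2 + K) * η := by positivity
  have hC0 : (0 : ℝ) ≤ 2 * K := by positivity
  have cA := comp_prod p1 q1 q4 p7 hδ0 hC0 hn30 hn40
  have cH := comp_prod p2 q2 q5 p8 hδ0 hC0 hn30 hn40
  have cy : ∀ i, |(y3 i - y i) * (y4 i - y i) - l3 * l4 * k i ^ 2| ≤
      2 * (2 * K) * ((K2 + K) * η) * (n3 * n4) := fun i =>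
    comp_prod (p3 i) (q3 i) (q6 i) (p9 i) hδ0 hC0 hn30 hn40
  set x := PP α r y kt k / AA α r t y with hx
  set z := SS α r y kt k / HH α d r t y with hz
  set E : ℝ := 2 * (2 * K) * ((K2 + K) * η) * (n3 * n4) with hE
  clear_value n3 n4 x z
  have hE0 : 0 ≤ E := by positivity
  have hd2 : d ^ 2 ≤ 1 := by nlinarith
  have hsum : |∑ i, (y3 i - y i) * (y4 i - y i) - l3 * l4 * ∑ i, k i ^ 2| ≤ m * E := by
    rw [Finset.mul_sum, ← Finset.sum_sub_distrib]
    refine (Finset.abs_sum_le_sum_abs _ _).trans ?_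
    refine (Finset.sum_le_sum fun i _ => cy i).trans ?_
    rw [Finset.sum_const, Finset.card_univ, Fintype.card_fin, nsmul_eq_mul]
  have hdiff : |BB α d r t y t3 y3 t4 y4 - l3 * l4 * (x ^ 2 + ∑ i, k i ^ 2 + d ^ 2 * z ^ 2)|
      ≤ (m + 2) * E := by
    have e : BB α d r t y t3 y3 t4 y4 - l3 * l4 * (x ^ 2 + ∑ i, k i ^ 2 + d ^ 2 * z ^ 2) =
        ((AA α r t3 y3 - AA α r t y) * (AA α r t4 y4 - AA α r t y) - l3 * l4 * x ^ 2) +
        (∑ i, (y3 i - y i) * (y4 i - y i) - l3 * l4 * ∑ i, k i ^ 2) +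
        d ^ 2 * ((hh α d r t3 y3 - hh α d r t y) * (hh α d r t4 y4 - hh α d r t y) -
          l3 * l4 * z ^ 2) := by
      unfold BB; ring
    rw [e]
    have h1 := abs_add_le
      ((AA α r t3 y3 - AA α r t y) * (AA α r t4 y4 - AA α r t y) - l3 * l4 * x ^ 2)
      (∑ i, (y3 i - y i) * (y4 i - y i) - l3 * l4 * ∑ i, k i ^ 2)
    have h2 : |d ^ 2 * ((hh α d r t3 y3 - hh α d r t y) * (hh α d r t4 y4 - hh α d r t y) -
          l3 * l4 * z ^ 2)| ≤ 1 * E := by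
      rw [abs_mul, abs_of_nonneg (sq_nonneg d)]
      exact mul_le_mul hd2 cH (abs_nonneg _) zero_le_one
    have e2 : ((m : ℝ) + 2) * E = (E + m * E) + 1 * E := by ring
    rw [e2]
    exact (abs_add_le _ _).trans (add_le_add (h1.trans (add_le_add cA hsum)) h2)
  have hmain : q * (n3 * n4) / 4 ≤ |l3 * l4 * (x ^ 2 + ∑ i, k i ^ 2 + d ^ 2 * z ^ 2)| := by
    have h1 : q ≤ x ^ 2 + ∑ i, k i ^ 2 + d ^ 2 * z ^ 2 := by
      have : 0 ≤ d ^ 2 * z ^ 2 := by positivity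
      linarith
    rw [abs_mul, abs_mul, abs_of_nonneg (hq0.le.trans h1)]
    have h2 : (n3 / 2) * (n4 / 2) ≤ |l3| * |l4| := by gcongr
    calc q * (n3 * n4) / 4 = (n3 / 2) * (n4 / 2) * q := by ring
      _ ≤ _ := mul_le_mul h2 h1 hq0.le (by positivity)
  have hEb : (m + 2) * E ≤ q * (n3 * n4) / 8 := by
    have e : ((m : ℝ) + 2) * E = (Z * η) * (n3 * n4) := by
      rw [hE, hZ]; ring
    rw [e]
    calc Z * η * (n3 * n4) ≤ q / 8 * (n3 * n4) := by gcongr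
      _ = _ := by ring
  have h1 := abs_sub_abs_le_abs_sub
    (l3 * l4 * (x ^ 2 + ∑ i, k i ^ 2 + d ^ 2 * z ^ 2)) (BB α d r t y t3 y3 t4 y4)
  rw [abs_sub_comm] at h1
  have e : q / 8 * (n3 * n4) = q * (n3 * n4) / 4 - q * (n3 * n4) / 8 := by ring
  rw [e]
  linarith

/-- **BQ, core.** -/
theorem bq_core {α : ℝ} (hα : α ≠ 0) (r : Fin m → ℝ) {κ : ℝ} (hκ : 0 < κ) (hκ1 : κ ≤ 1) :
    ∃ c C : ℝ, 0 < c ∧ 0 < C ∧ ∀ (d t t' t'' : ℝ) (y y' y'' : Fin m → ℝ), 0 ≤ d → d ≤ 1 →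
      Rg κ α d r t y → Rg κ α d r t' y' → Rg κ α d r t'' y'' →
        c * nn t y t' y' ^ 2 ≤ BB α d r t y t' y' t' y' ∧
        |BB α d r t y t' y' t'' y''| ≤ C * (nn t y t' y' * nn t y t'' y'') := by
  obtain ⟨q, hq0, hq⟩ := q_low hα r hκ
  have hK0 := one_le_K0 hκ hκ1 α r
  set K : ℝ := K0 κ α r / κ with hK
  have hKp : 0 < K := by positivity
  refine ⟨q, 2 * K ^ 2 + 1, hq0, by positivity, ?_⟩
  intro d t t' t'' y y' y'' hd0 hd1 hg hg' hg''
  obtain ⟨-, a2⟩ := chordA hκ hκ1 hg hg'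
  obtain ⟨-, b2⟩ := chordH hκ hκ1 hd0 hd1 hg hg'
  obtain ⟨-, a3⟩ := chordA hκ hκ1 hg hg''
  obtain ⟨-, b3⟩ := chordH hκ hκ1 hd0 hd1 hg hg''
  rw [← hK] at a2 b2 a3 b3
  have e' : nn t y t' y' = n1 (t' - t) (fun i => y' i - y i) := rfl
  have e'' : nn t y t'' y'' = n1 (t'' - t) (fun i => y'' i - y i) := rfl
  have hd2 : d ^ 2 ≤ 1 := by nlinarith
  constructor
  · have hA := AA_ge hκ hκ1 hg
    have hA' := AA_ge hκ hκ1 hg'
    have hA1 := AA_le hκ hκ1 hg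
    have hA1' := AA_le hκ hκ1 hg'
    have h1 := hq ((AA α r t' y' + AA α r t y) / 2) (fun i => (y i + y' i) / 2) (t' - t)
      (fun i => y' i - y i) (by linarith) (by linarith) (mean_bd hg.1 hg'.1)
    have e := AA_sub (α := α) (r := r) (t := t) (t' := t') (y := y) (y' := y')
      (by linarith [hg.2.1]) (by linarith [hg'.2.1])
    have e2 : PP α r (fun i => (y i + y' i) / 2) (t' - t) (fun i => y' i - y i) /
        ((AA α r t' y' + AA α r t y) / 2) = AA α r t' y' - AA α r t y := by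
      have hp : 0 < AA α r t' y' + AA α r t y := by linarith
      rw [div_eq_iff (by positivity)]
      linarith
    rw [e2] at h1
    rw [e']
    refine h1.trans ?_
    unfold BB
    have h2 : 0 ≤ d ^ 2 * ((hh α d r t' y' - hh α d r t y) * (hh α d r t' y' - hh α d r t y)) :=
      mul_nonneg (sq_nonneg _) (mul_self_nonneg _)
    have h3 : ∑ i, (y' i - y i) ^ 2 = ∑ i, (y' i - y i) * (y' i - y i) :=
      Finset.sum_congr rfl fun i _ => sq _
    rw [h3, sq]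
    linarith
  · rw [e', e'']
    set n' := n1 (t' - t) (fun i => y' i - y i) with hn'
    set n'' := n1 (t'' - t) (fun i => y'' i - y i) with hn''
    have hn0' : 0 ≤ n' := n1_nonneg _ _
    have hn0'' : 0 ≤ n'' := n1_nonneg _ _
    have s1 : |(AA α r t' y' - AA α r t y) * (AA α r t'' y'' - AA α r t y)| ≤
        K ^ 2 * (n' * n'') := by
      rw [abs_mul]
      calc _ ≤ (K * n') * (K * n'') := by gcongr
        _ = _ := by ring
    have s2 : |d ^ 2 * ((hh α d r t' y' - hh α d r t y) * (hh α d r t'' y'' - hh α d r t y))| ≤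
        K ^ 2 * (n' * n'') := by
      rw [abs_mul, abs_mul, abs_of_nonneg (sq_nonneg d)]
      calc _ ≤ 1 * ((K * n') * (K * n'')) := by gcongr
        _ = _ := by ring
    have s3 : |∑ i, (y' i - y i) * (y'' i - y i)| ≤ n' * n'' := by
      refine (Finset.abs_sum_le_sum_abs _ _).trans ?_
      have h1 : ∀ i ∈ (Finset.univ : Finset (Fin m)), |(y' i - y i) * (y'' i - y i)| ≤
          |y' i - y i| * n'' := by
        intro i _
        rw [abs_mul]
        exact mul_le_mul_of_nonneg_left (le_n1 (t'' - t) (fun i => y'' i - y i) i)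
          (abs_nonneg _)
      refine (Finset.sum_le_sum h1).trans ?_
      rw [← Finset.sum_mul]
      refine mul_le_mul_of_nonneg_right ?_ hn0''
      rw [hn']; unfold n1
      linarith [abs_nonneg (t' - t)]
    unfold BB
    refine (abs_add_le _ _).trans ?_
    have s4 := abs_add_le ((AA α r t' y' - AA α r t y) * (AA α r t'' y'' - AA α r t y))
      (∑ i, (y' i - y i) * (y'' i - y i))
    have e3 : (2 * K ^ 2 + 1) * (n' * n'') = K ^ 2 * (n' * n'') + n' * n'' + K ^ 2 * (n' * n'') := by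
      ring
    rw [e3]
    exact add_le_add (s4.trans (add_le_add s1 s3)) s2

end Pool.Agent.LQN.BQ
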