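import Mathlib

/-!
LQN: the kernel functional. `m` vectors in `ℝ × ℝ^m` which are independent in a quantitative sense
and the linear form given by the unit vector orthogonal to them control everything.
-/

set_option autoImplicit false

namespace Pool.Agent.LQN

open Finset
open scoped RealInnerProductSpace

/-- In a Euclidean space of dimension `m + 1`. -/
theorem kf_euclid {m : ℕ} (ρ : Fin m → EuclideanSpace ℝ (Fin (m + 1))) {C0 : ℝ}
    (h : ∀ v : Fin m → ℝ, ∑ i, |v i| ≤ C0 * ‖∑ i, v i • ρ i‖) :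
    ∃ e : EuclideanSpace ℝ (Fin (m + 1)), ‖e‖ = 1 ∧ (∀ i, ⟪ρ i, e⟫ = 0) ∧
      ∀ D, ‖D‖ ≤ C0 * ∑ i, |⟪ρ i, D⟫| + |⟪e, D⟫| := by
  have hli : LinearIndependent ℝ ρ := by
    rw [Fintype.linearIndependent_iff]
    intro v hv i
    have h1 := h v
    rw [hv, norm_zero, mul_zero] at h1
    have h2 : |v i| ≤ ∑ i, |v i| :=
      Finset.single_le_sum (f := fun i => |v i|) (fun _ _ => abs_nonneg _) (mem_univ i)
    exact abs_eq_zero.1 (le_antisymm (h2.trans h1) (abs_nonneg _))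
  set W : Submodule ℝ (EuclideanSpace ℝ (Fin (m + 1))) := Submodule.span ℝ (Set.range ρ) with hW
  have hdW : Module.finrank ℝ W = m := by
    rw [hW, finrank_span_eq_card hli, Fintype.card_fin]
  have hdO : Module.finrank ℝ Wᗮ = 1 := by
    have h1 := W.finrank_add_finrank_orthogonal
    rw [hdW, finrank_euclideanSpace_fin] at h1
    omega
  obtain ⟨e0, he0, he0s⟩ := finrank_eq_one_iff'.1 hdO
  have he0n : ‖(e0 : EuclideanSpace ℝ (Fin (m + 1)))‖ ≠ 0 := by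
    rw [norm_ne_zero_iff]
    exact fun h => he0 (Subtype.ext h)
  set e : EuclideanSpace ℝ (Fin (m + 1)) := (‖(e0 : EuclideanSpace ℝ (Fin (m + 1)))‖)⁻¹ • e0 with he
  have heO : e ∈ Wᗮ := Submodule.smul_mem _ _ e0.2
  have hen : ‖e‖ = 1 := by
    rw [he, norm_smul, norm_inv, norm_norm, inv_mul_cancel₀ he0n]
  refine ⟨e, hen, fun i => ?_, fun D => ?_⟩
  · exact Submodule.inner_right_of_mem_orthogonal (K := W)
      (Submodule.subset_span (Set.mem_range_self i)) heO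
  -- decompose `D = w + u`, `w ∈ W`, `u ∈ Wᗮ`
  obtain ⟨w, hw, u, hu, hD⟩ := W.exists_add_mem_mem_orthogonal D
  obtain ⟨v, hv⟩ := (Submodule.mem_span_range_iff_exists_fun ℝ).1 hw
  obtain ⟨c, hc⟩ := he0s ⟨u, hu⟩
  have hue : u = ⟪e, D⟫ • e := by
    have h1 : u = c • (e0 : EuclideanSpace ℝ (Fin (m + 1))) := by
      have := congrArg (Subtype.val) hc
      simpa using this.symm
    have h2 : u = (c * ‖(e0 : EuclideanSpace ℝ (Fin (m + 1)))‖) • e := by
      rw [he, smul_smul, mul_assoc, mul_inv_cancel₀ he0n, mul_one, ← h1]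
    have h3 : ⟪e, D⟫ = c * ‖(e0 : EuclideanSpace ℝ (Fin (m + 1)))‖ := by
      rw [hD, inner_add_right, Submodule.inner_left_of_mem_orthogonal hw heO, zero_add, h2,
        inner_smul_right, real_inner_self_eq_norm_sq, hen]
      ring
    rw [h3]; exact h2
  have hwn : ‖w‖ ≤ C0 * ∑ i, |⟪ρ i, D⟫| := by
    have hC0 : 0 ≤ C0 * ‖w‖ := by
      have := h v
      rw [hv] at this
      exact (Finset.sum_nonneg fun _ _ => abs_nonneg _).trans this
    have h1 : ‖w‖ ^ 2 ≤ (C0 * ‖w‖) * ∑ i, |⟪ρ i, D⟫| := by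
      have h2 : ‖w‖ ^ 2 = ∑ i, v i * ⟪ρ i, D⟫ := by
        have h3 : ⟪w, D⟫ = ‖w‖ ^ 2 := by
          rw [hD, inner_add_right, real_inner_self_eq_norm_sq,
            Submodule.inner_right_of_mem_orthogonal hw hu, add_zero]
        rw [← h3, ← hv, sum_inner]
        refine Finset.sum_congr rfl fun i _ => ?_
        rw [real_inner_smul_left]
      rw [h2]
      calc ∑ i, v i * ⟪ρ i, D⟫ ≤ ∑ i, |v i| * ∑ j, |⟪ρ j, D⟫| := by
            refine Finset.sum_le_sum fun i _ => ?_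
            refine (le_abs_self _).trans ?_
            rw [abs_mul]
            exact mul_le_mul_of_nonneg_left (Finset.single_le_sum (f := fun j => |⟪ρ j, D⟫|)
              (fun _ _ => abs_nonneg _) (mem_univ i)) (abs_nonneg _)
        _ = (∑ i, |v i|) * ∑ j, |⟪ρ j, D⟫| := by rw [Finset.sum_mul]
        _ ≤ (C0 * ‖w‖) * ∑ i, |⟪ρ i, D⟫| := by
            refine mul_le_mul_of_nonneg_right ?_ (Finset.sum_nonneg fun _ _ => abs_nonneg _)
            have := h v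
            rwa [hv] at this
    rcases eq_or_lt_of_le (norm_nonneg w) with h0 | h0
    · rw [← h0]
      by_cases hC : 0 ≤ C0
      · exact mul_nonneg hC (Finset.sum_nonneg fun _ _ => abs_nonneg _)
      · -- then `m = 0`
        rcases Nat.eq_zero_or_pos m with rfl | hm
        · simp
        · exfalso
          have h4 := h (fun _ => 1)
          have h5 : (0 : ℝ) < ∑ _i : Fin m, |(1 : ℝ)| := by
            rw [Finset.sum_const, card_univ, Fintype.card_fin, abs_one, nsmul_eq_mul, mul_one]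
            exact_mod_cast hm
          have h6 : C0 * ‖∑ i, (1 : ℝ) • ρ i‖ ≤ 0 :=
            mul_nonpos_of_nonpos_of_nonneg (not_le.1 hC).le (norm_nonneg _)
          linarith
    · have h4 : ‖w‖ * ‖w‖ ≤ (C0 * ∑ i, |⟪ρ i, D⟫|) * ‖w‖ := by
        calc ‖w‖ * ‖w‖ = ‖w‖ ^ 2 := by ring
          _ ≤ _ := h1
          _ = _ := by ring
      exact le_of_mul_le_mul_right h4 h0
  have hun : ‖u‖ = |⟪e, D⟫| := by
    conv_lhs => rw [hue]
    rw [norm_smul, hen, mul_one, Real.norm_eq_abs]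
  calc ‖D‖ = ‖w + u‖ := by rw [← hD]
    _ ≤ ‖w‖ + ‖u‖ := norm_add_le _ _
    _ ≤ _ := add_le_add hwn hun.le

/-- Vectors of `ℝ × ℝ^m` in the Euclidean space. -/
noncomputable def cv {m : ℕ} (a : ℝ) (b : Fin m → ℝ) : EuclideanSpace ℝ (Fin (m + 1)) :=
  WithLp.toLp 2 (Fin.cons a b : Fin (m + 1) → ℝ)

theorem cv_inner {m : ℕ} (a a' : ℝ) (b b' : Fin m → ℝ) :
    ⟪cv a b, cv a' b'⟫ = a * a' + ∑ k, b k * b' k := by
  unfold cv
  rw [PiLp.inner_apply, Fin.sum_univ_succ]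
  simp only [Fin.cons_zero, Fin.cons_succ, RCLike.inner_apply, conj_trivial]
  rw [mul_comm a a']
  congr 1
  exact Finset.sum_congr rfl fun k _ => mul_comm _ _

theorem cv_sum {m : ℕ} (v : Fin m → ℝ) (a : Fin m → ℝ) (b : Fin m → Fin m → ℝ) :
    ∑ i, v i • cv (a i) (b i) = cv (∑ i, v i * a i) (fun k => ∑ i, v i * b i k) := by
  ext k
  refine Fin.cases ?_ (fun k => ?_) k
  · simp [cv]
  · simp [cv]

theorem cv_norm1 {m : ℕ} (a : ℝ) (b : Fin m → ℝ) :
    |a| + ∑ k, |b k| ≤ ((m : ℝ) + 1) * ‖cv a b‖ := by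
  have h1 : |a| ≤ ‖cv a b‖ := by
    have := PiLp.norm_apply_le (cv a b) (0 : Fin (m + 1))
    simpa [cv] using this
  have h2 : ∀ k, |b k| ≤ ‖cv a b‖ := fun k => by
    have := PiLp.norm_apply_le (cv a b) k.succ
    simpa [cv] using this
  calc |a| + ∑ k, |b k| ≤ ‖cv a b‖ + ∑ _k : Fin m, ‖cv a b‖ :=
        add_le_add h1 (Finset.sum_le_sum fun k _ => h2 k)
    _ = _ := by
        rw [Finset.sum_const, card_univ, Fintype.card_fin, nsmul_eq_mul]
        ring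

theorem cv_norm {m : ℕ} (a : ℝ) (b : Fin m → ℝ) : ‖cv a b‖ ≤ |a| + ∑ k, |b k| := by
  have h0 : 0 ≤ |a| + ∑ k, |b k| :=
    add_nonneg (abs_nonneg _) (Finset.sum_nonneg fun _ _ => abs_nonneg _)
  refine le_of_sq_le_sq ?_ h0
  rw [← real_inner_self_eq_norm_sq, cv_inner]
  have h1 : ∑ k, b k * b k ≤ (∑ k, |b k|) ^ 2 := by
    calc ∑ k, b k * b k = ∑ k, |b k| ^ 2 := by
          refine Finset.sum_congr rfl fun k _ => ?_
          rw [sq_abs]; ring
      _ ≤ (∑ k, |b k|) ^ 2 := by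
          refine Finset.sum_sq_le_sq_sum_of_nonneg ?_
          exact fun _ _ => abs_nonneg _
  have h2 : a * a = |a| ^ 2 := by rw [sq_abs]; ring
  have h3 : 0 ≤ |a| * ∑ k, |b k| :=
    mul_nonneg (abs_nonneg _) (Finset.sum_nonneg fun _ _ => abs_nonneg _)
  nlinarith

/-- **(KF)** The kernel functional of `m` quantitatively independent rows. -/
theorem kf {m : ℕ} (a : Fin m → ℝ) (b : Fin m → Fin m → ℝ) {C0 : ℝ} (hC0 : 0 ≤ C0)
    (h : ∀ v : Fin m → ℝ, ∑ i, |v i| ≤ C0 * (|∑ i, v i * a i| + ∑ k, |∑ i, v i * b i k|)) :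
    ∃ (e0 : ℝ) (e : Fin m → ℝ), |e0| ≤ 1 ∧ (∀ k, |e k| ≤ 1) ∧ e0 ^ 2 + ∑ k, e k ^ 2 = 1 ∧
      (∀ i, a i * e0 + ∑ k, b i k * e k = 0) ∧
      ∀ (Dt : ℝ) (D : Fin m → ℝ), |Dt| + ∑ k, |D k| ≤
        ((m : ℝ) + 1) * (C0 * ((m : ℝ) + 1) + 1) *
          (∑ i, |a i * Dt + ∑ k, b i k * D k| + |e0 * Dt + ∑ k, e k * D k|) := by
  have hm : (0 : ℝ) ≤ m := Nat.cast_nonneg m
  obtain ⟨e, he, heo, hD⟩ := kf_euclid (fun i => cv (a i) (b i)) (C0 := C0 * ((m : ℝ) + 1))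
    (fun v => by
      refine (h v).trans ?_
      rw [mul_assoc]
      refine mul_le_mul_of_nonneg_left ?_ hC0
      rw [cv_sum]
      exact cv_norm1 _ _)
  have hecv : e = cv (e 0) (fun k => e k.succ) := by
    ext k
    refine Fin.cases ?_ (fun k => ?_) k
    · simp [cv]
    · simp [cv]
  have hc : ∀ k, |e k| ≤ 1 := fun k => by
    have := PiLp.norm_apply_le e k
    rwa [he] at this
  refine ⟨e 0, fun k => e k.succ, hc 0, fun k => hc k.succ, ?_, fun i => ?_, fun Dt D => ?_⟩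
  · have h1 : ‖e‖ ^ 2 = 1 := by rw [he]; norm_num
    rw [← real_inner_self_eq_norm_sq, hecv, cv_inner] at h1
    rw [sq]
    simpa [sq] using h1
  · have h1 := heo i
    rw [hecv, cv_inner] at h1
    exact h1
  · have h1 := hD (cv Dt D)
    have h2 := cv_norm1 Dt D
    rw [hecv] at h1
    simp only [cv_inner] at h1
    have h3 : 0 ≤ ∑ i, |a i * Dt + ∑ k, b i k * D k| :=
      Finset.sum_nonneg fun _ _ => abs_nonneg _
    have h4 : 0 ≤ |e 0 * Dt + ∑ k, e k.succ * D k| := abs_nonneg _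
    calc |Dt| + ∑ k, |D k| ≤ ((m : ℝ) + 1) * ‖cv Dt D‖ := h2
      _ ≤ ((m : ℝ) + 1) * (C0 * ((m : ℝ) + 1) * ∑ i, |a i * Dt + ∑ k, b i k * D k| +
            |e 0 * Dt + ∑ k, e k.succ * D k|) := mul_le_mul_of_nonneg_left h1 (by positivity)
      _ ≤ ((m : ℝ) + 1) * ((C0 * ((m : ℝ) + 1) + 1) *
          (∑ i, |a i * Dt + ∑ k, b i k * D k| + |e 0 * Dt + ∑ k, e k.succ * D k|)) := by
          refine mul_le_mul_of_nonneg_left ?_ (by positivity)
          have h5 : 0 ≤ C0 * ((m : ℝ) + 1) := by positivity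
          nlinarith [mul_nonneg h5 h4]
      _ = _ := by ring

/-- The constant of (KF). -/
noncomputable def kc (m : ℕ) (C0 : ℝ) : ℝ := ((m : ℝ) + 1) * (C0 * ((m : ℝ) + 1) + 1)

theorem kc_pos (m : ℕ) {C0 : ℝ} (hC0 : 0 ≤ C0) : 0 < kc m C0 := by
  unfold kc
  positivity

/-- **(KF)**, robust: the rows may be perturbed. `R` is any family of functions of the chord. -/
theorem kf_robust {m : ℕ} (a : Fin m → ℝ) (b : Fin m → Fin m → ℝ) {C0 : ℝ} (hC0 : 0 ≤ C0)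
    (h : ∀ v : Fin m → ℝ, ∑ i, |v i| ≤ C0 * (|∑ i, v i * a i| + ∑ k, |∑ i, v i * b i k|)) :
    ∃ (e0 : ℝ) (e : Fin m → ℝ), |e0| ≤ 1 ∧ (∀ k, |e k| ≤ 1) ∧ e0 ^ 2 + ∑ k, e k ^ 2 = 1 ∧
      (∀ i, a i * e0 + ∑ k, b i k * e k = 0) ∧
      ∀ (Dt : ℝ) (D R : Fin m → ℝ) (η : ℝ), kc m C0 * (m * η) ≤ 1 / 2 →
        (∀ i, |R i - (a i * Dt + ∑ k, b i k * D k)| ≤ η * (|Dt| + ∑ k, |D k|)) →
        |Dt| + ∑ k, |D k| ≤ 2 * kc m C0 * (∑ i, |R i| + |e0 * Dt + ∑ k, e k * D k|) := by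
  obtain ⟨e0, e, h0, h1, h2, h3, h4⟩ := kf a b hC0 h
  refine ⟨e0, e, h0, h1, h2, h3, fun Dt D R η hη hR => ?_⟩
  have h5 := h4 Dt D
  set N : ℝ := |Dt| + ∑ k, |D k| with hN
  have hN0 : 0 ≤ N := add_nonneg (abs_nonneg _) (Finset.sum_nonneg fun _ _ => abs_nonneg _)
  have h6 : ∑ i, |a i * Dt + ∑ k, b i k * D k| ≤ ∑ i, |R i| + m * η * N := by
    calc ∑ i, |a i * Dt + ∑ k, b i k * D k| ≤ ∑ i, (|R i| + η * N) := by
          refine Finset.sum_le_sum fun i _ => ?_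
          have h7 : a i * Dt + ∑ k, b i k * D k =
              R i - (R i - (a i * Dt + ∑ k, b i k * D k)) := by ring
          rw [h7]
          exact (abs_sub _ _).trans (add_le_add le_rfl (hR i))
      _ = _ := by
          rw [Finset.sum_add_distrib, Finset.sum_const, card_univ, Fintype.card_fin, nsmul_eq_mul]
          ring
  have hk := kc_pos m hC0
  have h8 : N ≤ kc m C0 * (∑ i, |a i * Dt + ∑ k, b i k * D k| +
      |e0 * Dt + ∑ k, e k * D k|) := h5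
  have h9 : N ≤ kc m C0 * (∑ i, |R i| + m * η * N + |e0 * Dt + ∑ k, e k * D k|) :=
    h8.trans (mul_le_mul_of_nonneg_left (by linarith) hk.le)
  have h10 : kc m C0 * (m * η) * N ≤ 1 / 2 * N := mul_le_mul_of_nonneg_right hη hN0
  nlinarith

end Pool.Agent.LQN
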