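import Mathlib

/-!
# [LQN] Row SV: the derivative of the leaf gradient has no small combination of rows.

Exact form for two points. `L k = (1 - r k) * c - r k * a`; rows
`L k * D k + y' k * (r k * a3 * P D + (1 - r k) * c3 * S D)` with
`P D = τ - ∑ r k * yb k * D k`, `S D = τ + ∑ (1 - r k) * yb k * D k`.
-/

set_option autoImplicit false

namespace Pool.Agent.LQN

namespace SVA

theorem am {a b A B : ℝ} (ha : |a| ≤ A) (hb : |b| ≤ B) : |a * b| ≤ A * B := by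
  rw [abs_mul]
  exact mul_le_mul ha hb (abs_nonneg _) ((abs_nonneg _).trans ha)

theorem as {m : ℕ} {f : Fin m → ℝ} {A : ℝ} (h : ∀ i, |f i| ≤ A) : |∑ i, f i| ≤ m * A := by
  refine (Finset.abs_sum_le_sum_abs _ _).trans ((Finset.sum_le_sum fun i _ => h i).trans ?_)
  rw [Finset.sum_const, Finset.card_univ, Fintype.card_fin, nsmul_eq_mul]

/-- Division of a bound. -/
theorem dv {x y c A : ℝ} (hc : 0 < c) (hcy : c ≤ |y|) (h : |x * y| ≤ A) : |x| ≤ A / c := by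
  rw [le_div_iff₀ hc]
  rw [abs_mul] at h
  exact (mul_le_mul_of_nonneg_left hcy (abs_nonneg _)).trans h

/-- Step 1: the common value `g`. -/
theorem g_bd {m : ℕ} {B ρ d K J s g e0 E : ℝ} (hd0 : 0 ≤ d) (hd1 : d ≤ 1)
    (hK0 : 0 ≤ K) (hK1 : K ≤ 1) (hbr : 1 / 2 ≤ K + d ^ 2 * J + d ^ 2 * s)
    (hid : g * (K + d ^ 2 * J + d ^ 2 * s) = e0 * K - d ^ 2 * E) (he0 : |e0| ≤ ρ)
    (hE : |E| ≤ m * (B * ((1 + B ^ 2) * ρ))) : |g| ≤ 2 * (1 + m * (B * (1 + B ^ 2))) * ρ := by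
  have hd2 : |d ^ 2| ≤ 1 := by
    rw [abs_of_nonneg (sq_nonneg d)]
    nlinarith
  have h1 : |g * (K + d ^ 2 * J + d ^ 2 * s)| ≤ ρ * 1 + 1 * (m * (B * ((1 + B ^ 2) * ρ))) := by
    rw [hid]
    refine (abs_sub _ _).trans (add_le_add (am he0 ?_) (am hd2 hE))
    rwa [abs_of_nonneg hK0]
  have h2 := dv (by norm_num : (0 : ℝ) < 1 / 2) (hbr.trans (le_abs_self _)) h1
  refine h2.trans (le_of_eq ?_)
  ring

/-- Step 2: at most one small `L`. -/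
theorem one_small {δ B c0 a c ri rj Li Lj : ℝ} (hδ : 0 < δ) (hB : 0 < B)
    (hri : |ri| ≤ B) (hrj : |rj| ≤ B) (hri1 : |1 - ri| ≤ B) (hrj1 : |1 - rj| ≤ B)
    (hrr : δ ≤ |rj - ri|) (hLi : Li = (1 - ri) * c - ri * a) (hLj : Lj = (1 - rj) * c - rj * a)
    (hc : c0 ≤ |a| + |c|) (hi : |Li| < δ * c0 / (4 * B)) : δ * c0 / (4 * B) ≤ |Lj| := by
  by_contra hj
  push Not at hj
  set c1 := δ * c0 / (4 * B) with hc1
  have hc1p : 0 < c1 := (abs_nonneg _).trans_lt hi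
  have h1 : |c * (rj - ri)| ≤ B * c1 + B * c1 := by
    have e : c * (rj - ri) = rj * Li - ri * Lj := by
      rw [hLi, hLj]
      ring
    rw [e]
    exact (abs_sub _ _).trans (add_le_add (am hrj hi.le) (am hri hj.le))
  have h2 : |a * (rj - ri)| < B * c1 + B * c1 := by
    have e : a * (rj - ri) = (1 - rj) * Li - (1 - ri) * Lj := by
      rw [hLi, hLj]
      ring
    rw [e]
    refine (abs_sub _ _).trans_lt (add_lt_add_of_lt_of_le ?_ (am hri1 hj.le))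
    rw [abs_mul]
    calc |1 - rj| * |Li| ≤ B * |Li| := mul_le_mul_of_nonneg_right hrj1 (abs_nonneg _)
      _ < B * c1 := mul_lt_mul_of_pos_left hi hB
  rw [abs_mul] at h1 h2
  have h4 : |c| * δ ≤ B * c1 + B * c1 := (mul_le_mul_of_nonneg_left hrr (abs_nonneg _)).trans h1
  have h5 : |a| * δ < B * c1 + B * c1 :=
    (mul_le_mul_of_nonneg_left hrr (abs_nonneg _)).trans_lt h2
  have h6 : B * c1 = δ * c0 / 4 := by
    rw [hc1]
    field_simp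
  have h7 : c0 * δ ≤ (|a| + |c|) * δ := mul_le_mul_of_nonneg_right hc hδ.le
  rw [h6] at h4 h5
  linarith

/-- Step 3: the bad index. -/
theorem bad {m : ℕ} {δ B M T : ℝ} (hδ : 0 < δ) (hB : 0 ≤ B) (hM : 0 ≤ M) (k : Fin m)
    (v y' q : Fin m → ℝ) (hq : ∀ i, δ ≤ |q i|) (hqB : ∀ i, |q i| ≤ B) (hy' : ∀ i, |y' i| ≤ B)
    (hoth : ∀ i, i ≠ k → |v i| ≤ M) (hs : |∑ i, v i * y' i * q i| ≤ T) :
    |v k * y' k| ≤ (T + m * (M * B * B)) / δ := by
  refine dv hδ (hq k) ?_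
  have e : v k * y' k * q k = ∑ i, v i * y' i * q i -
      ∑ i ∈ Finset.univ.erase k, v i * y' i * q i := by
    rw [← Finset.add_sum_erase _ _ (Finset.mem_univ k)]
    ring
  rw [e]
  refine (abs_sub _ _).trans (add_le_add hs ?_)
  refine (Finset.abs_sum_le_sum_abs _ _).trans ((Finset.sum_le_sum fun i hi =>
    am (am (hoth i (Finset.ne_of_mem_erase hi)) (hy' i)) (hqB i)).trans ?_)
  rw [Finset.sum_const, nsmul_eq_mul]
  refine mul_le_mul_of_nonneg_right ?_ (by positivity)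
  have h3 : (Finset.univ.erase k).card ≤ m := (Finset.card_le_univ _).trans (by simp)
  exact_mod_cast h3

end SVA

open SVA in
/-- The abstract inequality. -/
theorem sv_abs (m : ℕ) (δ B c0 : ℝ) (hδ : 0 < δ) (hB : 1 ≤ B) (hc0 : 0 < c0) :
    ∃ C : ℝ, 0 < C ∧ ∀ (r yb y' v L : Fin m → ℝ) (d a c a3 c3 J K ρ G1 G2 : ℝ),
      (∀ i, δ ≤ |r i|) → (∀ i, |r i| ≤ B) → (∀ i, δ ≤ |1 - r i|) → (∀ i, |1 - r i| ≤ B) →
      (∀ i j, i ≠ j → δ ≤ |r i - r j|) → 0 ≤ d → d ≤ 1 → 0 ≤ K → K ≤ 1 → 0 ≤ J → J ≤ B ^ 2 →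
      (∀ i, |yb i| ≤ B) → (∀ i, |y' i| ≤ B) →
      1 / 2 ≤ K + d ^ 2 * J + d ^ 2 * ∑ i, yb i * y' i →
      (∀ i, L i = (1 - r i) * c - r i * a) → a = a3 * J → d ^ 2 * c = c3 * K →
      c0 ≤ |a| + |c| → G1 = ∑ i, v i * y' i * r i → G2 = ∑ i, v i * y' i * (1 - r i) →
      |a3 * G1 + c3 * G2| ≤ ρ →
      (∀ k, |v k * L k + yb k * (-(r k * (a3 * G1)) + (1 - r k) * (c3 * G2))| ≤ ρ) →
      ∀ k, |v k| * (|L k| + |y' k|) ≤ C * ρ := by
  have hB0 : 0 < B := by linarith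
  have hm0 : (0 : ℝ) ≤ m := Nat.cast_nonneg m
  obtain ⟨C1, hC1⟩ : ∃ C1 : ℝ, C1 = 2 * (1 + m * (B * (1 + B ^ 2))) := ⟨_, rfl⟩
  obtain ⟨C2, hC2⟩ : ∃ C2 : ℝ, C2 = 1 + B ^ 2 + B * C1 := ⟨_, rfl⟩
  obtain ⟨C3, hC3⟩ : ∃ C3 : ℝ, C3 = m * (B * C2) + C1 * B ^ 2 := ⟨_, rfl⟩
  obtain ⟨c1, hc1⟩ : ∃ c1 : ℝ, c1 = δ * c0 / (4 * B) := ⟨_, rfl⟩
  have hC1p : 0 < C1 := by rw [hC1]; positivity
  have hC2p : 0 < C2 := by rw [hC2]; positivity
  have hC3p : 0 < C3 := by rw [hC3]; positivity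
  have hc1p : 0 < c1 := by rw [hc1]; positivity
  refine ⟨C2 + C2 / c1 * B + (C3 / (c0 / 2) + m * (C2 / c1 * B * B)) / δ, by positivity, ?_⟩
  intro r yb y' v L d a c a3 c3 J K ρ G1 G2 hr0 hrB hr1 hr1B hrr hd0 hd1 hK0 hK1 hJ0 hJ1 hyb hy'
    hbr hL ha hc hac hG1 hG2 hT hk
  have hρ : 0 ≤ ρ := (abs_nonneg _).trans hT
  obtain ⟨g, hg⟩ : ∃ g : ℝ, g = a3 * G1 := ⟨_, rfl⟩
  obtain ⟨e0, he0⟩ : ∃ e0 : ℝ, e0 = g + c3 * G2 := ⟨_, rfl⟩
  have he0ρ : |e0| ≤ ρ := by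
    rw [he0, hg]
    exact hT
  obtain ⟨E, hE⟩ : ∃ E : Fin m → ℝ, ∀ k, E k = v k * L k - yb k * g :=
    ⟨fun k => v k * L k - yb k * g, fun _ => rfl⟩
  have hEρ : ∀ k, |E k| ≤ (1 + B ^ 2) * ρ := by
    intro k
    have e : E k = (v k * L k + yb k * (-(r k * (a3 * G1)) + (1 - r k) * (c3 * G2))) -
        yb k * ((1 - r k) * e0) := by
      rw [hE, he0, hg]
      ring
    rw [e]
    calc |(v k * L k + yb k * (-(r k * (a3 * G1)) + (1 - r k) * (c3 * G2))) -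
        yb k * ((1 - r k) * e0)| ≤ ρ + B * (B * ρ) :=
          (abs_sub _ _).trans (add_le_add (hk k) (am (hyb k) (am (hr1B k) he0ρ)))
      _ = (1 + B ^ 2) * ρ := by ring
  have hsum : ∑ k, y' k * (v k * L k) = c * G2 - a * G1 := by
    rw [hG1, hG2, Finset.mul_sum, Finset.mul_sum, ← Finset.sum_sub_distrib]
    refine Finset.sum_congr rfl fun k _ => ?_
    rw [hL k]
    ring
  have hsum2 : ∑ k, y' k * (v k * L k) = ∑ k, y' k * E k + g * ∑ k, yb k * y' k := by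
    rw [Finset.mul_sum, ← Finset.sum_add_distrib]
    refine Finset.sum_congr rfl fun k _ => ?_
    rw [hE]
    ring
  have haJ : a * G1 = g * J := by
    rw [ha, hg]
    ring
  have hid : g * (K + d ^ 2 * J + d ^ 2 * ∑ i, yb i * y' i) =
      e0 * K - d ^ 2 * ∑ k, y' k * E k := by
    have h1 : d ^ 2 * (∑ k, y' k * E k + g * ∑ k, yb k * y' k) = d ^ 2 * (c * G2 - a * G1) := by
      rw [← hsum2, hsum]
    have h2 : d ^ 2 * (c * G2 - a * G1) = c3 * G2 * K - d ^ 2 * (g * J) := by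
      rw [mul_sub, ← mul_assoc, hc, haJ]
      ring
    rw [h2] at h1
    rw [he0]
    linarith
  have hgρ : |g| ≤ C1 * ρ := by
    rw [hC1]
    exact g_bd hd0 hd1 hK0 hK1 hbr hid he0ρ (as fun k => am (hy' k) (hEρ k))
  have hvL : ∀ k, |v k * L k| ≤ C2 * ρ := by
    intro k
    have e : v k * L k = E k + yb k * g := by
      rw [hE]
      ring
    rw [e, hC2]
    calc |E k + yb k * g| ≤ (1 + B ^ 2) * ρ + B * (C1 * ρ) :=
          (abs_add_le _ _).trans (add_le_add (hEρ k) (am (hyb k) hgρ))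
      _ = (1 + B ^ 2 + B * C1) * ρ := by ring
  have hgJ : |g * J| ≤ C1 * ρ * B ^ 2 := am hgρ (by rwa [abs_of_nonneg hJ0])
  have hsv : |∑ k, y' k * (v k * L k)| ≤ m * (B * (C2 * ρ)) := as fun k => am (hy' k) (hvL k)
  have hx : 0 ≤ (m : ℝ) * (B * (C2 * ρ)) := by positivity
  have hC3e : C3 * ρ = m * (B * (C2 * ρ)) + C1 * ρ * B ^ 2 := by
    rw [hC3]
    ring
  have haG : |G1 * a| ≤ C3 * ρ := by
    rw [mul_comm, haJ, hC3e]
    linarith
  have hcG : |G2 * c| ≤ C3 * ρ := by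
    have e : G2 * c = ∑ k, y' k * (v k * L k) + g * J := by
      rw [hsum, ← haJ]
      ring
    rw [e, hC3e]
    exact (abs_add_le _ _).trans (add_le_add hsv hgJ)
  have hG : |G1| ≤ C3 * ρ / (c0 / 2) ∨ |G2| ≤ C3 * ρ / (c0 / 2) := by
    rcases le_or_gt (c0 / 2) |a| with h | h
    · exact Or.inl (dv (by positivity) h haG)
    · exact Or.inr (dv (by positivity) (by linarith) hcG)
  have hvsmall : ∀ i, c1 ≤ |L i| → |v i| ≤ C2 * ρ / c1 := fun i hi => dv hc1p hi (hvL i)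
  intro k
  have hsplit : |v k| * (|L k| + |y' k|) = |v k * L k| + |v k * y' k| := by
    rw [abs_mul, abs_mul]
    ring
  have hCe : (C2 + C2 / c1 * B + (C3 / (c0 / 2) + m * (C2 / c1 * B * B)) / δ) * ρ =
      C2 * ρ + C2 * ρ / c1 * B + (C3 * ρ / (c0 / 2) + m * (C2 * ρ / c1 * B * B)) / δ := by
    ring
  rw [hsplit, hCe]
  have h1 : 0 ≤ C2 * ρ / c1 * B := by positivity
  have h2 : 0 ≤ (C3 * ρ / (c0 / 2) + m * (C2 * ρ / c1 * B * B)) / δ := by positivity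
  have h3 := hvL k
  rcases le_or_gt c1 |L k| with hLk | hLk
  · have h4 : |v k * y' k| ≤ C2 * ρ / c1 * B := am (hvsmall k hLk) (hy' k)
    linarith
  · have hoth : ∀ i, i ≠ k → |v i| ≤ C2 * ρ / c1 := by
      intro i hi
      refine hvsmall i ?_
      rw [hc1] at hLk ⊢
      exact one_small hδ hB0 (hrB k) (hrB i) (hr1B k) (hr1B i) (hrr i k hi) (hL k) (hL i) hac hLk
    have h4 : |v k * y' k| ≤ (C3 * ρ / (c0 / 2) + m * (C2 * ρ / c1 * B * B)) / δ := by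
      rcases hG with h | h
      · rw [hG1] at h
        exact bad hδ hB0.le (by positivity) k v y' r hr0 hrB hy' hoth h
      · rw [hG2] at h
        exact bad hδ hB0.le (by positivity) k v y' (fun i => 1 - r i) hr1 hr1B hy' hoth h
    linarith

end Pool.Agent.LQN
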