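import Pool.Agent.LQN.Df
import Pool.Agent.LQN.SVA

/-!
# [LQN] Row SVR: no small combination of rows which are close to those of `M_w`.
-/

set_option autoImplicit false

namespace Pool.Agent.LQN

namespace SVR

theorem fin_lb {ι : Type*} [Finite ι] (f : ι → ℝ) (hf : ∀ i, 0 < f i) :
    ∃ δ : ℝ, 0 < δ ∧ ∀ i, δ ≤ f i := by
  rcases isEmpty_or_nonempty ι with h | h
  · exact ⟨1, one_pos, fun i => h.elim i⟩
  · obtain ⟨i, hi⟩ := Finite.exists_min f
    exact ⟨f i, hf i, hi⟩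

theorem fin_ub {ι : Type*} [Finite ι] (f : ι → ℝ) : ∃ B : ℝ, 1 ≤ B ∧ ∀ i, f i ≤ B := by
  rcases isEmpty_or_nonempty ι with h | h
  · exact ⟨1, le_rfl, fun i => h.elim i⟩
  · obtain ⟨i, hi⟩ := Finite.exists_max f
    exact ⟨max 1 (f i), le_max_left _ _, fun j => (hi j).trans (le_max_right _ _)⟩

/-- A weighted sum and its perturbation. -/
theorem sum_bd {m : ℕ} {B c : ℝ} (_hB : 0 ≤ B) (hc : 0 ≤ c) (q y y1 v l : Fin m → ℝ)
    (hq : ∀ i, |q i| ≤ B) (hl : ∀ i, |y i| ≤ l i) (hy : ∀ i, |y1 i - y i| ≤ c * |y i|) :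
    |∑ i, v i * y i * q i| ≤ B * ∑ i, |v i| * l i ∧
      |∑ i, v i * y1 i * q i - ∑ i, v i * y i * q i| ≤ c * (B * ∑ i, |v i| * l i) := by
  have hl0 : ∀ i, 0 ≤ l i := fun i => (abs_nonneg _).trans (hl i)
  constructor
  · rw [Finset.mul_sum]
    refine (Finset.abs_sum_le_sum_abs _ _).trans (Finset.sum_le_sum fun i _ => ?_)
    rw [abs_mul, abs_mul]
    calc |v i| * |y i| * |q i| ≤ |v i| * l i * B :=
          mul_le_mul (mul_le_mul_of_nonneg_left (hl i) (abs_nonneg _)) (hq i) (abs_nonneg _)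
            (mul_nonneg (abs_nonneg _) (hl0 i))
      _ = B * (|v i| * l i) := by ring
  · rw [← Finset.sum_sub_distrib, Finset.mul_sum, Finset.mul_sum]
    refine (Finset.abs_sum_le_sum_abs _ _).trans (Finset.sum_le_sum fun i _ => ?_)
    have e : v i * y1 i * q i - v i * y i * q i = v i * (y1 i - y i) * q i := by ring
    rw [e, abs_mul, abs_mul]
    have h1 : |y1 i - y i| ≤ c * l i :=
      (hy i).trans (mul_le_mul_of_nonneg_left (hl i) hc)
    calc |v i| * |y1 i - y i| * |q i| ≤ |v i| * (c * l i) * B :=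
          mul_le_mul (mul_le_mul_of_nonneg_left h1 (abs_nonneg _)) (hq i) (abs_nonneg _)
            (mul_nonneg (abs_nonneg _) (mul_nonneg hc (hl0 i)))
      _ = c * (B * (|v i| * l i)) := by ring

/-- Two products. -/
theorem prod_bd {B c S a a' G G' : ℝ} (hB : 1 ≤ B) (hc : 0 ≤ c) (hc1 : c ≤ 1) (hS : 0 ≤ S)
    (ha : |a| ≤ B) (haa : |a' - a| ≤ c) (hG : |G| ≤ B * S) (hGG : |G' - G| ≤ c * (B * S)) :
    |a' * G' - a * G| ≤ 3 * B ^ 2 * c * S ∧ |a' * G'| ≤ 4 * B ^ 2 * S := by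
  have hB0 : 0 ≤ B := by linarith
  have hBS : 0 ≤ B * S := mul_nonneg hB0 hS
  have hG' : |G'| ≤ 2 * (B * S) := by
    have e : G' = (G' - G) + G := by ring
    rw [e]
    refine (abs_add_le _ _).trans ?_
    have : c * (B * S) ≤ 1 * (B * S) := mul_le_mul_of_nonneg_right hc1 hBS
    linarith
  have ha' : |a'| ≤ 2 * B := by
    have e : a' = (a' - a) + a := by ring
    rw [e]
    refine (abs_add_le _ _).trans ?_
    linarith
  constructor
  · have e : a' * G' - a * G = (a' - a) * G' + a * (G' - G) := by ring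
    rw [e]
    refine (abs_add_le _ _).trans ?_
    rw [abs_mul, abs_mul]
    have h1 : |a' - a| * |G'| ≤ c * (2 * (B * S)) := mul_le_mul haa hG' (abs_nonneg _) hc
    have h2 : |a| * |G' - G| ≤ B * (c * (B * S)) := mul_le_mul ha hGG (abs_nonneg _) hB0
    have h3 : 0 ≤ c * S * (B * (B - 1)) := by
      have : 0 ≤ B - 1 := by linarith
      positivity
    nlinarith
  · rw [abs_mul]
    calc |a'| * |G'| ≤ 2 * B * (2 * (B * S)) := mul_le_mul ha' hG' (abs_nonneg _) (by positivity)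
      _ = 4 * B ^ 2 * S := by ring

/-- One coordinate of the transposed rows. -/
theorem coy_bd {B c S vk lk Lk L'k rk yk ybk X Y X' Y' : ℝ} (hB : 1 ≤ B) (hc : 0 ≤ c)
    (hS : 0 ≤ S) (_hlk : 0 ≤ lk) (hvS : |vk| * lk ≤ S)
    (hL : |L'k - Lk| ≤ c * lk) (hr : |rk| ≤ B) (hr1 : |1 - rk| ≤ B)
    (hy : |yk| ≤ B) (hyb : |ybk - yk| ≤ c * |yk|) (hX : |X' - X| ≤ 3 * B ^ 2 * c * S)
    (hX' : |X'| ≤ 4 * B ^ 2 * S) (hY : |Y' - Y| ≤ 3 * B ^ 2 * c * S)
    (hY' : |Y'| ≤ 4 * B ^ 2 * S) :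
    |vk * Lk + yk * (-(rk * X) + (1 - rk) * Y)| ≤
      |vk * L'k + ybk * (-(rk * X') + (1 - rk) * Y')| + 15 * B ^ 4 * c * S := by
  have hB0 : 0 ≤ B := by linarith
  have key : ∀ q Z Z' : ℝ, |q| ≤ B → |Z' - Z| ≤ 3 * B ^ 2 * c * S → |Z'| ≤ 4 * B ^ 2 * S →
      |q * (ybk * Z' - yk * Z)| ≤ 7 * B ^ 4 * c * S := by
    intro q Z Z' hq hZ hZ'
    have e : ybk * Z' - yk * Z = (ybk - yk) * Z' + yk * (Z' - Z) := by ring
    have h1 : |(ybk - yk) * Z'| ≤ c * B * (4 * B ^ 2 * S) := by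
      rw [abs_mul]
      exact mul_le_mul (hyb.trans (mul_le_mul_of_nonneg_left hy hc)) hZ' (abs_nonneg _)
        (by positivity)
    have h2 : |yk * (Z' - Z)| ≤ B * (3 * B ^ 2 * c * S) := by
      rw [abs_mul]
      exact mul_le_mul hy hZ (abs_nonneg _) hB0
    rw [abs_mul, e]
    calc |q| * |(ybk - yk) * Z' + yk * (Z' - Z)|
        ≤ B * (c * B * (4 * B ^ 2 * S) + B * (3 * B ^ 2 * c * S)) :=
          mul_le_mul hq ((abs_add_le _ _).trans (add_le_add h1 h2)) (abs_nonneg _) hB0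
      _ = 7 * B ^ 4 * c * S := by ring
  have k1 := key rk X X' hr hX hX'
  have k2 := key (1 - rk) Y Y' hr1 hY hY'
  have k3 : |vk * (L'k - Lk)| ≤ c * S := by
    rw [abs_mul]
    calc |vk| * |L'k - Lk| ≤ |vk| * (c * lk) := mul_le_mul_of_nonneg_left hL (abs_nonneg _)
      _ = c * (|vk| * lk) := by ring
      _ ≤ c * S := mul_le_mul_of_nonneg_left hvS hc
  have e : vk * Lk + yk * (-(rk * X) + (1 - rk) * Y) =
      (vk * L'k + ybk * (-(rk * X') + (1 - rk) * Y')) - vk * (L'k - Lk) +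
        rk * (ybk * X' - yk * X) - (1 - rk) * (ybk * Y' - yk * Y) := by ring
  rw [e]
  have hB4 : 1 ≤ B ^ 4 := one_le_pow₀ hB
  have hcS : 0 ≤ c * S := mul_nonneg hc hS
  have h5 : c * S ≤ B ^ 4 * c * S := by nlinarith
  refine (abs_sub _ _).trans ?_
  refine (add_le_add (abs_add_le _ _) le_rfl).trans ?_
  refine (add_le_add (add_le_add (abs_sub _ _) le_rfl) le_rfl).trans ?_
  linarith

end SVR

/-- The abstract robust inequality. -/
theorem svr_abs (m : ℕ) (B C0 : ℝ) (hB : 1 ≤ B) (hC0 : 0 < C0) :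
    ∃ C c1 : ℝ, 0 < C ∧ 0 < c1 ∧ ∀ (r y L v l y1 yb L' : Fin m → ℝ) (a3 c3 a3' c3' : ℝ),
      (∀ i, |r i| ≤ B) → (∀ i, |1 - r i| ≤ B) → (∀ i, |y i| ≤ B) → |a3| ≤ B → |c3| ≤ B →
      (∀ i, |y i| ≤ l i) → (∀ i, |L' i - L i| ≤ c1 * l i) → (∀ i, |y1 i - y i| ≤ c1 * |y i|) →
      (∀ i, |yb i - y i| ≤ c1 * |y i|) → |a3' - a3| ≤ c1 → |c3' - c3| ≤ c1 →
      (∀ ρ, |a3 * (∑ i, v i * y i * r i) + c3 * (∑ i, v i * y i * (1 - r i))| ≤ ρ →
        (∀ k, |v k * L k + y k * (-(r k * (a3 * ∑ i, v i * y i * r i)) +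
          (1 - r k) * (c3 * ∑ i, v i * y i * (1 - r i)))| ≤ ρ) → ∀ k, |v k| * l k ≤ C0 * ρ) →
      ∑ i, |v i| * l i ≤ C * (|a3' * (∑ i, v i * y1 i * r i) +
        c3' * (∑ i, v i * y1 i * (1 - r i))| +
        ∑ k, |v k * L' k + yb k * (-(r k * (a3' * ∑ i, v i * y1 i * r i)) +
          (1 - r k) * (c3' * ∑ i, v i * y1 i * (1 - r i)))|) := by
  have hB0 : 0 < B := by linarith
  set D : ℝ := 15 * B ^ 4 with hD
  have hD1 : 1 ≤ D := by
    have : 1 ≤ B ^ 4 := one_le_pow₀ hB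
    linarith
  have hm0 : (0 : ℝ) ≤ m := Nat.cast_nonneg m
  set c1 : ℝ := 1 / (2 * D * (m * C0 + 1)) with hc1
  have hden : 1 ≤ 2 * D * (m * C0 + 1) := by nlinarith [mul_nonneg hm0 hC0.le]
  have hc1p : 0 < c1 := by positivity
  have hc1le : c1 ≤ 1 := by
    rw [hc1, div_le_one (by positivity)]
    exact hden
  refine ⟨2 * (m * C0) + 1, c1, by positivity, hc1p, ?_⟩
  intro r y L v l y1 yb L' a3 c3 a3' c3' hr hr1 hy ha3 hc3 hl hL hy1 hyb ha hc hsv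
  have hl0 : ∀ i, 0 ≤ l i := fun i => (abs_nonneg _).trans (hl i)
  set S : ℝ := ∑ i, |v i| * l i with hS
  have hS0 : 0 ≤ S := Finset.sum_nonneg fun i _ => mul_nonneg (abs_nonneg _) (hl0 i)
  obtain ⟨g1, g1'⟩ := SVR.sum_bd hB0.le hc1p.le r y y1 v l hr hl hy1
  obtain ⟨g2, g2'⟩ := SVR.sum_bd hB0.le hc1p.le (fun i => 1 - r i) y y1 v l hr1 hl hy1
  rw [← hS] at g1 g1' g2 g2'
  obtain ⟨x1, x2⟩ := SVR.prod_bd hB hc1p.le hc1le hS0 ha3 ha g1 g1'
  obtain ⟨z1, z2⟩ := SVR.prod_bd hB hc1p.le hc1le hS0 hc3 hc g2 g2'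
  set X := a3 * ∑ i, v i * y i * r i with hX
  set Y := c3 * ∑ i, v i * y i * (1 - r i) with hY
  set X' := a3' * ∑ i, v i * y1 i * r i with hX'
  set Y' := c3' * ∑ i, v i * y1 i * (1 - r i) with hY'
  set T : ℝ := |X' + Y'| + ∑ k, |v k * L' k + yb k * (-(r k * X') + (1 - r k) * Y')| with hT
  have hB24 : B ^ 2 ≤ B ^ 4 := pow_le_pow_right₀ hB (by norm_num)
  have hTk : ∀ k, |v k * L' k + yb k * (-(r k * X') + (1 - r k) * Y')| ≤ T := by
    intro k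
    have h1 : |v k * L' k + yb k * (-(r k * X') + (1 - r k) * Y')| ≤
        ∑ k, |v k * L' k + yb k * (-(r k * X') + (1 - r k) * Y')| :=
      Finset.single_le_sum
        (f := fun k => |v k * L' k + yb k * (-(r k * X') + (1 - r k) * Y')|)
        (fun _ _ => abs_nonneg _) (Finset.mem_univ k)
    rw [hT]
    linarith [abs_nonneg (X' + Y')]
  have hT1 : |X' + Y'| ≤ T := by
    rw [hT]
    linarith [Finset.sum_nonneg fun k (_ : k ∈ Finset.univ) =>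
      abs_nonneg (v k * L' k + yb k * (-(r k * X') + (1 - r k) * Y'))]
  have hcS : 0 ≤ c1 * S := mul_nonneg hc1p.le hS0
  have h := hsv (T + D * c1 * S) ?_ ?_
  · have h1 : S ≤ ∑ _k : Fin m, C0 * (T + D * c1 * S) := Finset.sum_le_sum fun k _ => h k
    rw [Finset.sum_const, Finset.card_univ, Fintype.card_fin, nsmul_eq_mul] at h1
    have h2 : m * (C0 * (D * c1 * S)) ≤ S / 2 := by
      have e : (m : ℝ) * (C0 * (D * c1 * S)) = (m * C0) / (m * C0 + 1) * (S / 2) := by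
        rw [hc1]
        field_simp
      rw [e]
      have h3 : (m * C0 : ℝ) / (m * C0 + 1) ≤ 1 := by
        rw [div_le_one (by positivity)]
        linarith
      exact mul_le_of_le_one_left (by linarith) h3
    have h3 : 0 ≤ T := (abs_nonneg _).trans hT1
    have e : (m : ℝ) * (C0 * (T + D * c1 * S)) = m * C0 * T + m * (C0 * (D * c1 * S)) := by ring
    rw [e] at h1
    have h4 : S ≤ 2 * (m * C0) * T := by linarith
    calc S ≤ 2 * (m * C0) * T := h4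
      _ ≤ (2 * (m * C0) + 1) * T := by linarith
  · have e : X + Y = (X' + Y') - (X' - X) - (Y' - Y) := by ring
    rw [e]
    refine (abs_sub _ _).trans ((add_le_add (abs_sub _ _) le_rfl).trans ?_)
    have h5 : 3 * B ^ 2 * c1 * S + 3 * B ^ 2 * c1 * S ≤ D * c1 * S := by
      have : B ^ 2 * (c1 * S) ≤ B ^ 4 * (c1 * S) := mul_le_mul_of_nonneg_right hB24 hcS
      have h6 : 0 ≤ B ^ 4 * (c1 * S) := by positivity
      rw [hD]
      linarith
    linarith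
  · intro k
    have hvS : |v k| * l k ≤ S :=
      Finset.single_le_sum (f := fun k => |v k| * l k)
        (fun i _ => mul_nonneg (abs_nonneg _) (hl0 i)) (Finset.mem_univ k)
    have h5 := SVR.coy_bd hB hc1p.le hS0 (hl0 k) hvS (hL k) (hr k) (hr1 k) (hy k) (hyb k)
      x1 x2 z1 z2
    have h6 := hTk k
    rw [hD]
    linarith

/- ROW SVR (helper94): the lower bound for rows close to those of `M_w`. -/
theorem svr {m : ℕ} {α : ℝ} {r : Fin m → ℝ} (h : Hyp α r) {κ : ℝ} (hκ : 0 < κ) (hκ1 : κ ≤ 1) :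
    ∃ C c1 : ℝ, 0 < C ∧ 0 < c1 ∧ ∀ d, 0 ≤ d → d ≤ 1 → ∀ t y w1 wn, Rg κ α d r t y →
      κ ≤ |w1| + |wn| → |w1| + |wn| ≤ κ⁻¹ → ∀ (L y1 yb : Fin m → ℝ) (a3 c3 : ℝ),
      Near c1 α d r w1 wn t y L y1 yb a3 c3 → ∀ v : Fin m → ℝ,
        ∑ i, |v i| * el α d r w1 wn t y i ≤
          C * (|Cot α r y1 a3 c3 v| + ∑ k, |Coy r L y1 yb a3 c3 v k|) := by
  obtain ⟨δ0, hδ0, hr0'⟩ := SVR.fin_lb (fun i => |r i|) fun i => abs_pos.2 (h.r0 i)
  obtain ⟨δ1, hδ1, hr1'⟩ := SVR.fin_lb (fun i => |1 - r i|) fun i =>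
    abs_pos.2 (sub_ne_zero.2 (Ne.symm (h.r1 i)))
  obtain ⟨δ2, hδ2, hr2'⟩ := SVR.fin_lb (fun q : {q : Fin m × Fin m // q.1 ≠ q.2} =>
    |r q.1.1 - r q.1.2|) fun q => abs_pos.2 (sub_ne_zero.2 fun h' => q.2 (h.inj h'))
  obtain ⟨B0, hB0, hb0⟩ := SVR.fin_ub fun i => |r i|
  obtain ⟨B1, hB1, hb1⟩ := SVR.fin_ub fun i => |1 - r i|
  have hκi : 1 ≤ κ⁻¹ := (one_le_inv₀ hκ).2 hκ1
  have hκ4 : κ⁻¹ ≤ κ⁻¹ ^ 4 := le_self_pow₀ hκi (by norm_num)
  set B : ℝ := B0 + B1 + κ⁻¹ ^ 4 with hB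
  have hB1' : 1 ≤ B := by linarith [one_le_pow₀ hκi (n := 4)]
  have hBr : ∀ i, |r i| ≤ B := fun i => (hb0 i).trans (by linarith [one_le_pow₀ hκi (n := 4)])
  have hBr1 : ∀ i, |1 - r i| ≤ B := fun i =>
    (hb1 i).trans (by linarith [one_le_pow₀ hκi (n := 4)])
  have hBκ : κ⁻¹ ≤ B := by linarith
  have hBκ4 : κ⁻¹ ^ 4 ≤ B := by linarith
  set δ : ℝ := min δ0 (min δ1 δ2) with hδ
  have hδp : 0 < δ := lt_min hδ0 (lt_min hδ1 hδ2)
  obtain ⟨C0, hC0, H0⟩ := sv_abs m δ B (κ ^ 2) hδp hB1' (by positivity)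
  obtain ⟨C, c1, hC, hc1, H⟩ := svr_abs m B C0 hB1' hC0
  refine ⟨C * (1 + |2 * α|), c1, by positivity, hc1, ?_⟩
  intro d hd0 hd1 t y w1 wn hRg hw hw' L y1 yb a3 c3 hN v
  obtain ⟨hyκ, hrrκ, hrrκ', hssκ⟩ := hRg
  obtain ⟨hNL, hNy, hNyb, hNa, hNc⟩ := hN
  have hrr : 0 < rr α r t y := lt_of_lt_of_le hκ hrrκ
  have hss : 0 < 1 - d ^ 2 * ss α r t y := lt_of_lt_of_le hκ hssκ
  have hA : 0 < AA α r t y := Real.sqrt_pos.2 hrr
  have hH : 0 < HH α d r t y := Real.sqrt_pos.2 hss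
  have hA2 : AA α r t y ^ 2 = rr α r t y := Real.sq_sqrt hrr.le
  have hH2 : HH α d r t y ^ 2 = 1 - d ^ 2 * ss α r t y := Real.sq_sqrt hss.le
  have hssr : ss α r t y = rr α r t y + ∑ i, y i ^ 2 := by
    unfold ss rr
    rw [sub_add, ← Finset.sum_sub_distrib, sub_eq_add_neg, ← Finset.sum_neg_distrib]
    congr 1
    refine Finset.sum_congr rfl fun i _ => ?_
    ring
  have hs0 : 0 ≤ ss α r t y := by
    rw [hssr]
    exact add_nonneg hrr.le (Finset.sum_nonneg fun i _ => sq_nonneg _)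
  have hAκ : κ ≤ AA α r t y := by
    refine (sq_le_sq₀ hκ.le hA.le).1 ?_
    rw [hA2]
    exact (by nlinarith : κ ^ 2 ≤ κ).trans hrrκ
  have hHκ : κ ≤ HH α d r t y := by
    refine (sq_le_sq₀ hκ.le hH.le).1 ?_
    rw [hH2]
    exact (by nlinarith : κ ^ 2 ≤ κ).trans hssκ
  have hAκ' : AA α r t y ≤ κ⁻¹ := by
    refine (sq_le_sq₀ hA.le (by positivity)).1 ?_
    rw [hA2]
    exact hrrκ'.trans (le_self_pow₀ hκi (by norm_num))
  have hH1 : HH α d r t y ≤ 1 := by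
    refine (sq_le_sq₀ hH.le (by norm_num)).1 ?_
    rw [hH2]
    have : 0 ≤ d ^ 2 * ss α r t y := mul_nonneg (sq_nonneg d) hs0
    linarith
  set A := AA α r t y with hAdef
  set Hh := HH α d r t y with hHdef
  have hw1 : |w1| ≤ κ⁻¹ := (by linarith [abs_nonneg wn] : |w1| ≤ |w1| + |wn|).trans hw'
  have hwn : |wn| ≤ κ⁻¹ := (by linarith [abs_nonneg w1] : |wn| ≤ |w1| + |wn|).trans hw'
  have hdiv : ∀ x A : ℝ, |x| ≤ κ⁻¹ → 0 < A → κ ≤ A → |x / A ^ 3| ≤ B := by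
    intro x A hx hA hAκ
    rw [abs_div, abs_of_pos (by positivity : 0 < A ^ 3), div_eq_mul_inv]
    refine le_trans ?_ hBκ4
    have h1 : (A ^ 3)⁻¹ ≤ κ⁻¹ ^ 3 := by
      rw [inv_pow]
      exact inv_anti₀ (by positivity) (pow_le_pow_left₀ hκ.le hAκ 3)
    calc |x| * (A ^ 3)⁻¹ ≤ κ⁻¹ * κ⁻¹ ^ 3 :=
          mul_le_mul hx h1 (by positivity) (by positivity)
      _ = κ⁻¹ ^ 4 := by ring
  have hd2 : d ^ 2 ≤ 1 := by nlinarith
  have ha3B : |w1 / A ^ 3| ≤ B := hdiv w1 A hw1 hA hAκ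
  have hc3B : |d ^ 2 * wn / Hh ^ 3| ≤ B := by
    refine hdiv (d ^ 2 * wn) Hh ?_ hH hHκ
    rw [abs_mul, abs_of_nonneg (sq_nonneg d)]
    exact (mul_le_of_le_one_left (abs_nonneg _) hd2).trans hwn
  have key := H r y (LL α d r w1 wn t y) v (el α d r w1 wn t y) y1 yb L (w1 / A ^ 3)
    (d ^ 2 * wn / Hh ^ 3) a3 c3 hBr hBr1 (fun i => (hyκ i).trans hBκ) ha3B hc3B
    (fun i => by
      unfold el
      linarith [abs_nonneg (LL α d r w1 wn t y i)]) hNL hNy hNyb hNa hNc ?_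
  · have e1 : |a3 * (∑ i, v i * y1 i * r i) + c3 * (∑ i, v i * y1 i * (1 - r i))| =
        |2 * α| * |Cot α r y1 a3 c3 v| := by
      rw [← abs_mul]
      congr 1
      unfold Cot
      rw [mul_div_cancel₀ _ (mul_ne_zero two_ne_zero h.α0)]
      congr 1
      · congr 1
        exact Finset.sum_congr rfl fun i _ => by ring
      · congr 1
        exact Finset.sum_congr rfl fun i _ => by ring
    have e2 : ∀ k, v k * L k + yb k * (-(r k * (a3 * ∑ i, v i * y1 i * r i)) +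
        (1 - r k) * (c3 * ∑ i, v i * y1 i * (1 - r i))) = Coy r L y1 yb a3 c3 v k := by
      intro k
      unfold Coy
      have e3 : ∑ i, r i * y1 i * v i = ∑ i, v i * y1 i * r i :=
        Finset.sum_congr rfl fun i _ => by ring
      have e4 : ∑ i, (1 - r i) * y1 i * v i = ∑ i, v i * y1 i * (1 - r i) :=
        Finset.sum_congr rfl fun i _ => by ring
      rw [e3, e4]
      ring
    rw [e1] at key
    simp only [e2] at key
    refine key.trans ?_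
    have h1 : 0 ≤ |Cot α r y1 a3 c3 v| := abs_nonneg _
    have h2 : 0 ≤ ∑ k, |Coy r L y1 yb a3 c3 v k| := Finset.sum_nonneg fun _ _ => abs_nonneg _
    have h3 : 0 ≤ |2 * α| := abs_nonneg _
    rw [mul_assoc]
    refine mul_le_mul_of_nonneg_left ?_ hC.le
    rw [one_add_mul, mul_add]
    have h4 : 0 ≤ |2 * α| * ∑ k, |Coy r L y1 yb a3 c3 v k| := mul_nonneg h3 h2
    linarith
  · intro ρ hρ1 hρ2 k
    have h5 := H0 r y y v (LL α d r w1 wn t y) d (w1 / A) (wn / Hh) (w1 / A ^ 3)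
      (d ^ 2 * wn / Hh ^ 3) (A ^ 2) (Hh ^ 2) ρ (∑ i, v i * y i * r i)
      (∑ i, v i * y i * (1 - r i))
      (fun i => (min_le_left _ _).trans (hr0' i)) hBr
      (fun i => (min_le_right _ _).trans ((min_le_left _ _).trans (hr1' i))) hBr1
      (fun i j hij => (min_le_right _ _).trans ((min_le_right _ _).trans (hr2' ⟨(i, j), hij⟩)))
      hd0 hd1 (by positivity) (by
        rw [← one_pow 2]
        exact pow_le_pow_left₀ hH.le hH1 2) (by positivity)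
      (pow_le_pow_left₀ hA.le (hAκ'.trans hBκ) 2) (fun i => (hyκ i).trans hBκ)
      (fun i => (hyκ i).trans hBκ) ?_ (fun i => rfl) ?_ ?_ ?_ rfl rfl hρ1 hρ2 k
    · exact h5
    · have e1 : ∑ i, y i * y i = ∑ i, y i ^ 2 := Finset.sum_congr rfl fun i _ => by ring
      rw [e1, hH2, hA2, hssr]
      linarith
    · field_simp
    · field_simp
    · have h1 : κ * |w1| ≤ |w1 / A| := by
        rw [abs_div, abs_of_pos hA, le_div_iff₀ hA]
        have : κ * A ≤ 1 := by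
          calc κ * A ≤ κ * κ⁻¹ := mul_le_mul_of_nonneg_left hAκ' hκ.le
            _ = 1 := mul_inv_cancel₀ hκ.ne'
        calc κ * |w1| * A = κ * A * |w1| := by ring
          _ ≤ 1 * |w1| := mul_le_mul_of_nonneg_right this (abs_nonneg _)
          _ = |w1| := one_mul _
      have h2 : κ * |wn| ≤ |wn / Hh| := by
        rw [abs_div, abs_of_pos hH, le_div_iff₀ hH]
        have : κ * Hh ≤ 1 := mul_le_one₀ hκ1 hH.le hH1
        calc κ * |wn| * Hh = κ * Hh * |wn| := by ring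
          _ ≤ 1 * |wn| := mul_le_mul_of_nonneg_right this (abs_nonneg _)
          _ = |wn| := one_mul _
      calc κ ^ 2 = κ * κ := by ring
        _ ≤ κ * (|w1| + |wn|) := mul_le_mul_of_nonneg_left hw hκ.le
        _ = κ * |w1| + κ * |wn| := by ring
        _ ≤ |w1 / A| + |wn / Hh| := add_le_add h1 h2

end Pool.Agent.LQN
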