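import Pool.Agent.LQN.G2
import Pool.Agent.LQN.SVR
import Pool.Agent.LQN.KF

/-!
LQN, row CHK: the chords from an active point to the active points have a common direction.
-/

set_option autoImplicit false

namespace Pool.Agent.LQN

variable {m : ℕ}

/-- Coefficient of `Dt` in a row. -/
noncomputable def ckA (α : ℝ) (r y' : Fin m → ℝ) (a3 c3 : ℝ) (i : Fin m) : ℝ :=
  y' i * (r i * a3 + (1 - r i) * c3) / (2 * α)
/-- Coefficient of `D k` in a row. -/
noncomputable def ckB (r L y' yb : Fin m → ℝ) (a3 c3 : ℝ) (i k : Fin m) : ℝ :=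
  (if i = k then L i else 0) +
    y' i * (-(r i * a3 * (r k * yb k)) + (1 - r i) * c3 * ((1 - r k) * yb k))

theorem ck_row (α : ℝ) (r L y' yb : Fin m → ℝ) (a3 c3 Dt : ℝ) (D : Fin m → ℝ) (i : Fin m) :
    Row α r L y' yb a3 c3 Dt D i = ckA α r y' a3 c3 i * Dt + ∑ k, ckB r L y' yb a3 c3 i k * D k := by
  have h : ∑ k, ckB r L y' yb a3 c3 i k * D k = L i * D i +
      (y' i * (-(r i * a3)) * ∑ k, r k * yb k * D k +
        y' i * ((1 - r i) * c3) * ∑ k, (1 - r k) * yb k * D k) := by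
    have h1 : ∑ k, (if i = k then L i else 0) * D k = L i * D i := by
      simp
    rw [Finset.mul_sum, Finset.mul_sum, ← h1, ← Finset.sum_add_distrib, ← Finset.sum_add_distrib]
    exact Finset.sum_congr rfl fun k _ => by unfold ckB; ring
  rw [h]
  unfold Row ckA PP SS
  ring

theorem ck_cot (α : ℝ) (r y' : Fin m → ℝ) (a3 c3 : ℝ) (v : Fin m → ℝ) :
    Cot α r y' a3 c3 v = ∑ i, v i * ckA α r y' a3 c3 i := by
  unfold Cot
  rw [Finset.mul_sum, Finset.mul_sum, ← Finset.sum_add_distrib, Finset.sum_div]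
  exact Finset.sum_congr rfl fun i _ => by unfold ckA; ring

theorem ck_coy (r L y' yb : Fin m → ℝ) (a3 c3 : ℝ) (v : Fin m → ℝ) (k : Fin m) :
    Coy r L y' yb a3 c3 v k = ∑ i, v i * ckB r L y' yb a3 c3 i k := by
  have h1 : ∑ i, v i * (if i = k then L i else 0) = v k * L k := by
    simp
  unfold Coy
  rw [Finset.mul_sum, Finset.mul_sum, ← h1, ← Finset.sum_sub_distrib, ← Finset.sum_add_distrib]
  exact Finset.sum_congr rfl fun i _ => by unfold ckB; ring

/-- The base rows are near themselves. -/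
theorem ck_near {η α d : ℝ} (hη : 0 ≤ η) (r : Fin m → ℝ) (w1 wn t : ℝ) (y : Fin m → ℝ) :
    Near η α d r w1 wn t y (LL α d r w1 wn t y) y y (w1 / AA α r t y ^ 3)
      (d ^ 2 * wn / HH α d r t y ^ 3) := by
  refine ⟨fun i => ?_, fun i => ?_, fun i => ?_, ?_, ?_⟩
  · rw [sub_self, abs_zero]
    exact mul_nonneg hη (add_nonneg (abs_nonneg _) (abs_nonneg _))
  · rw [sub_self, abs_zero]
    exact mul_nonneg hη (abs_nonneg _)
  · rw [sub_self, abs_zero]
    exact mul_nonneg hη (abs_nonneg _)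
  · rw [sub_self, abs_zero]
    exact hη
  · rw [sub_self, abs_zero]
    exact hη

/-- A point of the box is at least half as large. -/
theorem ck_half {c0 t0 : ℝ} {y0 : Fin m → ℝ} {t : ℝ} {y : Fin m → ℝ} (hc : c0 ≤ 1 / 2)
    (h : Bx c0 t0 y0 t y) (i : Fin m) : |y0 i| / 2 ≤ |y i| := by
  have h1 := h.2 i
  have h2 : |y0 i| ≤ |y i| + |y i - y0 i| := by
    have := abs_sub_abs_le_abs_sub (y0 i) (y i)
    rw [abs_sub_comm] at this
    linarith
  have h3 : c0 * |y0 i| ≤ 1 / 2 * |y0 i| := mul_le_mul_of_nonneg_right hc (abs_nonneg _)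
  linarith

/-- ROW CHK: the common direction of the chords at `p`. -/
theorem chk {α : ℝ} {r : Fin m → ℝ} (h : Hyp α r) {κ : ℝ} (hκ : 0 < κ) (hκ1 : κ ≤ 1) :
    ∃ C c1 : ℝ, 0 < C ∧ 0 < c1 ∧ ∀ c0, 0 < c0 → c0 ≤ c1 → ∀ d, 0 ≤ d → d ≤ 1 →
      ∀ t0 y0, Rg κ α d r t0 y0 → ∀ ν, 0 < ν → (∀ i, ν ≤ |y0 i|) → ∀ t y, Bx c0 t0 y0 t y →
      ∀ w1 w wn, κ ≤ |w1| + |wn| → |w1| + |wn| ≤ κ⁻¹ → ∀ ε, 0 ≤ ε →
      (∀ i, |UU α d r w1 wn w t y i| ≤ ε) →
      ∃ (kt : ℝ) (k : Fin m → ℝ), |kt| + ∑ i, |k i| = 1 ∧ ∀ t' y', Bx c0 t0 y0 t' y' →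
        (∀ i, |UU α d r w1 wn w t' y' i| ≤ ε) → ∃ lam : ℝ,
          |t' - t - lam * kt| + ∑ i, |y' i - y i - lam * k i| ≤ C * (c0 * nn t y t' y' + ε / ν) := by
  have hκ4 : 0 < κ / 4 := by linarith
  obtain ⟨cb, hcb, hcb8, hbox⟩ := box_sub h hκ hκ1
  obtain ⟨Cs, cs, hCs, hcs, hsvr⟩ := svr h hκ4 (by linarith)
  obtain ⟨Cc, cc, hCc, hcc, hchord⟩ := chord h hκ hκ1
  set K : ℝ := ((m : ℝ) + 1) * (Cs * ((m : ℝ) + 1) + 1) with hK
  have hm : (0 : ℝ) ≤ m := Nat.cast_nonneg m
  have hK0 : 0 < K := by positivity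
  refine ⟨K * (m + 1) * (Cc + 4), min cb cc, by positivity, lt_min hcb hcc, ?_⟩
  intro c0 hc0 hc1 d hd0 hd1 t0 y0 hR ν hν hνy t y hp w1 w wn hw hw' ε hε hU
  have hc8 : c0 ≤ 1 / 8 := (hc1.trans (min_le_left _ _)).trans hcb8
  have hbx : Bx cb t0 y0 t y :=
    ⟨hp.1.trans (hc1.trans (min_le_left _ _)), fun i => (hp.2 i).trans
      (mul_le_mul_of_nonneg_right (hc1.trans (min_le_left _ _)) (abs_nonneg _))⟩
  have hR4 : Rg (κ / 4) α d r t y := hbox d hd0 hd1 t0 y0 t y hR hbx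
  set L := LL α d r w1 wn t y with hL
  set a3 := w1 / AA α r t y ^ 3 with ha3
  set c3 := d ^ 2 * wn / HH α d r t y ^ 3 with hc3
  set l : Fin m → ℝ := fun i => el α d r w1 wn t y i with hl
  have hly : ∀ i, ν / 2 ≤ l i := by
    intro i
    have h1 := ck_half (by linarith) hp i
    have h2 := hνy i
    have h3 : 0 ≤ |LL α d r w1 wn t y i| := abs_nonneg _
    show ν / 2 ≤ |LL α d r w1 wn t y i| + |y i|
    linarith
  have hl0 : ∀ i, 0 < l i := fun i => lt_of_lt_of_le (by linarith) (hly i)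
  have hsv := hsvr d hd0 hd1 t y w1 wn hR4 (by linarith) (hw'.trans (by
    rw [inv_div]
    rw [inv_eq_one_div, div_le_div_iff_of_pos_right hκ]
    norm_num)) L y y a3 c3 (ck_near hcs.le r w1 wn t y)
  obtain ⟨e0, e, he0, he1, he2, he3, he4⟩ := kf (fun i => ckA α r y a3 c3 i / l i)
    (fun i k => ckB r L y y a3 c3 i k / l i) hCs.le (by
      intro v
      have h1 := hsv (fun i => v i / l i)
      have e1 : ∑ i, |v i / l i| * el α d r w1 wn t y i = ∑ i, |v i| := by
        refine Finset.sum_congr rfl fun i _ => ?_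
        rw [abs_div, abs_of_pos (hl0 i)]
        exact div_mul_cancel₀ _ (hl0 i).ne'
      have e2 : Cot α r y a3 c3 (fun i => v i / l i) = ∑ i, v i * (ckA α r y a3 c3 i / l i) := by
        rw [ck_cot]
        exact Finset.sum_congr rfl fun i _ => by ring
      have e3 : ∀ k, Coy r L y y a3 c3 (fun i => v i / l i) k =
          ∑ i, v i * (ckB r L y y a3 c3 i k / l i) := by
        intro k
        rw [ck_coy]
        exact Finset.sum_congr rfl fun i _ => by ring
      rw [e1, e2] at h1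
      simp only [e3] at h1
      exact h1)
  -- the normal direction, in the norm `|kt| + ∑ |k i|`
  set s : ℝ := |e0| + ∑ k, |e k| with hs
  have hs0 : 0 < s := by
    rcases (add_nonneg (abs_nonneg e0) (Finset.sum_nonneg fun k _ => abs_nonneg (e k))).lt_or_eq
      with h1 | h1
    · exact h1
    · exfalso
      have h2 : |e0| = 0 := le_antisymm (by
        have : 0 ≤ ∑ k, |e k| := Finset.sum_nonneg fun k _ => abs_nonneg (e k)
        linarith) (abs_nonneg _)
      have h3 : ∑ k, |e k| = 0 := by linarith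
      have h4 : ∀ k, e k = 0 := by
        intro k
        have := (Finset.sum_eq_zero_iff_of_nonneg (fun k _ => abs_nonneg (e k))).1 h3 k
          (Finset.mem_univ k)
        exact abs_eq_zero.1 this
      rw [abs_eq_zero.1 h2] at he2
      simp [h4] at he2
  refine ⟨e0 / s, fun k => e k / s, ?_, ?_⟩
  · have h1 : ∑ i, |e i / s| = (∑ i, |e i|) / s := by
      rw [Finset.sum_div]
      exact Finset.sum_congr rfl fun i _ => by rw [abs_div, abs_of_pos hs0]
    rw [h1, abs_div, abs_of_pos hs0, ← add_div]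
    exact div_self hs0.ne'
  intro t' y' hp' hU'
  set μ : ℝ := e0 * (t' - t) + ∑ k, e k * (y' k - y k) with hμ
  refine ⟨μ * s, ?_⟩
  have hch := hchord c0 hc0 (hc1.trans (min_le_right _ _)) d hd0 hd1 t0 y0 hR t y t' y' hp hp' w1 w
    wn hw' ε hU hU' L y y a3 c3 (ck_near hc0.le r w1 wn t y)
  have h5 := he4 (t' - t - μ * e0) (fun i => y' i - y i - μ * e i)
  have h6 : e0 * (t' - t - μ * e0) + ∑ k, e k * (y' k - y k - μ * e k) = 0 := by
    have h7 : ∑ k, e k * (y' k - y k - μ * e k) = ∑ k, e k * (y' k - y k) - μ * ∑ k, e k ^ 2 := by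
      rw [Finset.mul_sum, ← Finset.sum_sub_distrib]
      exact Finset.sum_congr rfl fun i _ => by ring
    rw [h7]
    linear_combination (-μ) * he2
  have h8 : ∀ i, |ckA α r y a3 c3 i / l i * (t' - t - μ * e0) +
      ∑ k, ckB r L y y a3 c3 i k / l i * (y' k - y k - μ * e k)| ≤
        (Cc + 4) * (c0 * nn t y t' y' + ε / ν) := by
    intro i
    have h9 : ckA α r y a3 c3 i / l i * (t' - t - μ * e0) +
        ∑ k, ckB r L y y a3 c3 i k / l i * (y' k - y k - μ * e k) =
        Row α r L y y a3 c3 (t' - t) (fun i => y' i - y i) i / l i := by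
      have h10 : ∑ k, ckB r L y y a3 c3 i k / l i * (y' k - y k - μ * e k) =
          (∑ k, ckB r L y y a3 c3 i k * (y' k - y k)) / l i -
            μ * ∑ k, ckB r L y y a3 c3 i k / l i * e k := by
        rw [Finset.mul_sum, Finset.sum_div, ← Finset.sum_sub_distrib]
        exact Finset.sum_congr rfl fun i _ => by ring
      rw [h10, ck_row]
      have h11 := he3 i
      linear_combination (-μ) * h11
    rw [h9, abs_div, abs_of_pos (hl0 i), div_le_iff₀ (hl0 i)]
    refine (hch i).trans ?_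
    have hn0 : 0 ≤ nn t y t' y' :=
      add_nonneg (abs_nonneg _) (Finset.sum_nonneg fun _ _ => abs_nonneg _)
    have h12 : 2 * ε ≤ 4 * (ε / ν) * l i := by
      have h13 : ε / ν * (ν / 2) ≤ ε / ν * l i :=
        mul_le_mul_of_nonneg_left (hly i) (by positivity)
      have h14 : ε / ν * (ν / 2) = ε / 2 := by
        field_simp
      linarith
    have h15 : Cc * c0 * el α d r w1 wn t y i * nn t y t' y' = Cc * (c0 * nn t y t' y') * l i := by
      rw [hl]
      ring
    rw [h15]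
    have h16 : 0 ≤ c0 * nn t y t' y' := mul_nonneg hc0.le hn0
    have h17 : 0 ≤ ε / ν := by positivity
    have h18 : 0 ≤ (c0 * nn t y t' y') * l i := mul_nonneg h16 (hl0 i).le
    have h19 : 0 ≤ (ε / ν) * l i := mul_nonneg h17 (hl0 i).le
    nlinarith [mul_nonneg hCc.le h19]
  rw [h6, abs_zero, add_zero] at h5
  have h20 : ∑ i, |ckA α r y a3 c3 i / l i * (t' - t - μ * e0) +
      ∑ k, ckB r L y y a3 c3 i k / l i * (y' k - y k - μ * e k)| ≤
        (m + 1) * ((Cc + 4) * (c0 * nn t y t' y' + ε / ν)) := by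
    refine (Finset.sum_le_sum fun i _ => h8 i).trans ?_
    rw [Finset.sum_const, Finset.card_univ, Fintype.card_fin, nsmul_eq_mul]
    have hn0 : 0 ≤ nn t y t' y' :=
      add_nonneg (abs_nonneg _) (Finset.sum_nonneg fun _ _ => abs_nonneg _)
    have h21 : 0 ≤ (Cc + 4) * (c0 * nn t y t' y' + ε / ν) := by
      have : 0 ≤ c0 * nn t y t' y' := mul_nonneg hc0.le hn0
      positivity
    nlinarith
  have h22 : |t' - t - μ * s * (e0 / s)| + ∑ i, |y' i - y i - μ * s * (e i / s)| =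
      |t' - t - μ * e0| + ∑ i, |y' i - y i - μ * e i| := by
    have h23 : ∀ x : ℝ, μ * s * (x / s) = μ * x := by
      intro x
      field_simp
    simp only [h23]
  rw [h22]
  refine h5.trans ?_
  refine (mul_le_mul_of_nonneg_left h20 hK0.le).trans (le_of_eq ?_)
  ring

end Pool.Agent.LQN
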