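import Pool.Agent.LQN.D1

/-!
LQN: the box, the elementary bounds, `|w₁| + |wₙ| ≥ c` at active points.
-/

set_option autoImplicit false

namespace Pool.Agent.LQN

variable {m : ℕ}

/-- The constant of the coefficients. -/
noncomputable def QQ (α : ℝ) (r : Fin m → ℝ) : ℝ := 1 / |α| + ∑ i, (|r i| + |1 - r i|)

theorem QQ_nonneg (α : ℝ) (r : Fin m → ℝ) : 0 ≤ QQ α r := by
  unfold QQ
  positivity

theorem q_le (α : ℝ) (r : Fin m → ℝ) (i : Fin m) : |r i| + |1 - r i| ≤ QQ α r := by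
  unfold QQ
  have h1 : |r i| + |1 - r i| ≤ ∑ i, (|r i| + |1 - r i|) :=
    Finset.single_le_sum (f := fun i => |r i| + |1 - r i|) (fun i _ => by positivity)
      (Finset.mem_univ i)
  have h2 : 0 ≤ 1 / |α| := by positivity
  linarith

theorem PP_le (α : ℝ) (r yb : Fin m → ℝ) (Dt : ℝ) (D : Fin m → ℝ) {M : ℝ} (hM : 0 ≤ M)
    (hy : ∀ i, |yb i| ≤ M) : |PP α r yb Dt D| ≤ QQ α r * (1 + M) * (|Dt| + ∑ k, |D k|) := by
  have hQ := QQ_nonneg α r
  have h1 : |PP α r yb Dt D| ≤ 1 / |α| * |Dt| + ∑ k, QQ α r * M * |D k| := by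
    unfold PP
    refine (abs_sub _ _).trans (add_le_add ?_ ?_)
    · rw [abs_div, abs_mul, abs_two]
      have : |Dt| / (2 * |α|) = 1 / |α| * |Dt| / 2 := by ring
      rw [this]
      have : 0 ≤ 1 / |α| * |Dt| := by positivity
      linarith
    · refine (Finset.abs_sum_le_sum_abs _ _).trans (Finset.sum_le_sum fun k _ => ?_)
      rw [abs_mul, abs_mul]
      refine mul_le_mul_of_nonneg_right (mul_le_mul ?_ (hy k) (abs_nonneg _) hQ) (abs_nonneg _)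
      have := q_le α r k
      have := abs_nonneg (1 - r k)
      linarith
  have h2 : 1 / |α| ≤ QQ α r := by
    unfold QQ
    have : 0 ≤ ∑ i, (|r i| + |1 - r i|) := by positivity
    linarith
  rw [← Finset.mul_sum] at h1
  have h3 : 0 ≤ ∑ k, |D k| := by positivity
  have h4 : 1 / |α| * |Dt| ≤ QQ α r * |Dt| := mul_le_mul_of_nonneg_right h2 (abs_nonneg _)
  have h5 : 0 ≤ QQ α r * M * |Dt| := by positivity
  have h6 : 0 ≤ QQ α r * ∑ k, |D k| := by positivity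
  calc _ ≤ _ := h1
    _ ≤ QQ α r * |Dt| + QQ α r * M * ∑ k, |D k| + QQ α r * M * |Dt| + QQ α r * ∑ k, |D k| := by
        linarith
    _ = _ := by ring

theorem SS_le (α : ℝ) (r yb : Fin m → ℝ) (Dt : ℝ) (D : Fin m → ℝ) {M : ℝ} (hM : 0 ≤ M)
    (hy : ∀ i, |yb i| ≤ M) : |SS α r yb Dt D| ≤ QQ α r * (1 + M) * (|Dt| + ∑ k, |D k|) := by
  have hQ := QQ_nonneg α r
  have h1 : |SS α r yb Dt D| ≤ 1 / |α| * |Dt| + ∑ k, QQ α r * M * |D k| := by
    unfold SS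
    refine (abs_add_le _ _).trans (add_le_add ?_ ?_)
    · rw [abs_div, abs_mul, abs_two]
      have : |Dt| / (2 * |α|) = 1 / |α| * |Dt| / 2 := by ring
      rw [this]
      have : 0 ≤ 1 / |α| * |Dt| := by positivity
      linarith
    · refine (Finset.abs_sum_le_sum_abs _ _).trans (Finset.sum_le_sum fun k _ => ?_)
      rw [abs_mul, abs_mul]
      refine mul_le_mul_of_nonneg_right (mul_le_mul ?_ (hy k) (abs_nonneg _) hQ) (abs_nonneg _)
      have := q_le α r k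
      have := abs_nonneg (r k)
      linarith
  have h2 : 1 / |α| ≤ QQ α r := by
    unfold QQ
    have : 0 ≤ ∑ i, (|r i| + |1 - r i|) := by positivity
    linarith
  rw [← Finset.mul_sum] at h1
  have h3 : 0 ≤ ∑ k, |D k| := by positivity
  have h4 : 1 / |α| * |Dt| ≤ QQ α r * |Dt| := mul_le_mul_of_nonneg_right h2 (abs_nonneg _)
  have h5 : 0 ≤ QQ α r * M * |Dt| := by positivity
  have h6 : 0 ≤ QQ α r * ∑ k, |D k| := by positivity
  calc _ ≤ _ := h1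
    _ ≤ QQ α r * |Dt| + QQ α r * M * ∑ k, |D k| + QQ α r * M * |Dt| + QQ α r * ∑ k, |D k| := by
        linarith
    _ = _ := by ring

/-- Lipschitz bound for `A²`. -/
theorem rr_lip {α : ℝ} (hα : α ≠ 0) (r : Fin m → ℝ) {M : ℝ} (hM : 0 ≤ M) (t t' : ℝ)
    (y y' : Fin m → ℝ) (hy : ∀ i, |y i| ≤ M) (hy' : ∀ i, |y' i| ≤ M) :
    |rr α r t' y' - rr α r t y| ≤ 2 * (QQ α r * (1 + M)) * nn t y t' y' := by
  rw [rr_diff hα, abs_mul, abs_two, mul_assoc]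
  refine mul_le_mul_of_nonneg_left (PP_le α r _ _ _ hM fun i => ?_) (by norm_num)
  rw [abs_div, abs_two]
  have := abs_add_le (y i) (y' i)
  have := hy i
  have := hy' i
  linarith

theorem ss_lip {α : ℝ} (hα : α ≠ 0) (r : Fin m → ℝ) {M : ℝ} (hM : 0 ≤ M) (t t' : ℝ)
    (y y' : Fin m → ℝ) (hy : ∀ i, |y i| ≤ M) (hy' : ∀ i, |y' i| ≤ M) :
    |ss α r t' y' - ss α r t y| ≤ 2 * (QQ α r * (1 + M)) * nn t y t' y' := by
  rw [ss_diff hα, abs_mul, abs_two, mul_assoc]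
  refine mul_le_mul_of_nonneg_left (SS_le α r _ _ _ hM fun i => ?_) (by norm_num)
  rw [abs_div, abs_two]
  have := abs_add_le (y i) (y' i)
  have := hy i
  have := hy' i
  linarith

theorem nn_nonneg (t : ℝ) (y : Fin m → ℝ) (t' : ℝ) (y' : Fin m → ℝ) : 0 ≤ nn t y t' y' := by
  unfold nn
  positivity

/-- Distances in the box. -/
theorem bx_nn {κ : ℝ} (hκ : 0 < κ) {c0 t0 t t' : ℝ} {y0 y y' : Fin m → ℝ} (hc0 : 0 ≤ c0)
    (h0 : ∀ i, |y0 i| ≤ κ⁻¹) (h : Bx c0 t0 y0 t y) (h' : Bx c0 t0 y0 t' y') :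
    nn t y t' y' ≤ 2 * (1 + m * κ⁻¹) * c0 := by
  unfold nn
  have h1 : |t' - t| ≤ 2 * c0 := by
    have e : t' - t = (t' - t0) - (t - t0) := by ring
    rw [e]
    refine (abs_sub _ _).trans ?_
    have := h.1
    have := h'.1
    linarith
  have h2 : ∀ i, |y' i - y i| ≤ 2 * c0 * κ⁻¹ := by
    intro i
    have e : y' i - y i = (y' i - y0 i) - (y i - y0 i) := by ring
    rw [e]
    refine (abs_sub _ _).trans ?_
    have h3 := h.2 i
    have h4 := h'.2 i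
    have h5 : c0 * |y0 i| ≤ c0 * κ⁻¹ := mul_le_mul_of_nonneg_left (h0 i) hc0
    linarith
  have h3 : ∑ i, |y' i - y i| ≤ m * (2 * c0 * κ⁻¹) := by
    refine (Finset.sum_le_sum fun i _ => h2 i).trans ?_
    simp
  calc _ ≤ 2 * c0 + m * (2 * c0 * κ⁻¹) := add_le_add h1 h3
    _ = _ := by ring

theorem bx_self {c0 t0 : ℝ} {y0 : Fin m → ℝ} (hc0 : 0 ≤ c0) : Bx c0 t0 y0 t0 y0 :=
  ⟨by simpa using hc0, fun i => by
    rw [sub_self, abs_zero]
    positivity⟩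

theorem bx_mono {c0 c1 t0 t : ℝ} {y0 y : Fin m → ℝ} (hc : c0 ≤ c1) (h : Bx c0 t0 y0 t y) :
    Bx c1 t0 y0 t y :=
  ⟨h.1.trans hc, fun i => (h.2 i).trans (mul_le_mul_of_nonneg_right hc (abs_nonneg _))⟩

theorem bx_abs {κ : ℝ} (hκ : 0 < κ) {c0 t0 t : ℝ} {y0 y : Fin m → ℝ} (hc1 : c0 ≤ 1)
    (h0 : ∀ i, |y0 i| ≤ κ⁻¹) (h : Bx c0 t0 y0 t y) (i : Fin m) : |y i| ≤ 2 * κ⁻¹ := by
  have h1 := h.2 i
  have h2 := h0 i
  have h3 : |y i| ≤ |y0 i| + |y i - y0 i| := by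
    have e : y i = y0 i + (y i - y0 i) := by ring
    conv_lhs => rw [e]
    exact abs_add_le _ _
  have h4 : c0 * |y0 i| ≤ 1 * |y0 i| := mul_le_mul_of_nonneg_right hc1 (abs_nonneg _)
  linarith

/- ROW BOX. -/
theorem box_sub {α : ℝ} {r : Fin m → ℝ} (h : Hyp α r) {κ : ℝ} (hκ : 0 < κ) (hκ1 : κ ≤ 1) :
    ∃ c1 : ℝ, 0 < c1 ∧ c1 ≤ 1 / 8 ∧
    ∀ d, 0 ≤ d → d ≤ 1 → ∀ t0 y0 t y, Rg κ α d r t0 y0 → Bx c1 t0 y0 t y →
      Rg (κ / 4) α d r t y := by
  set K : ℝ := 2 * (QQ α r * (1 + 2 * κ⁻¹)) * (2 * (1 + m * κ⁻¹)) with hK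
  have hQ := QQ_nonneg α r
  have hκi : 1 ≤ κ⁻¹ := (one_le_inv₀ hκ).2 hκ1
  have hK0 : 0 ≤ K := by positivity
  refine ⟨min (1 / 8) (κ / (2 * (K + 1))), by positivity, min_le_left _ _, ?_⟩
  set c1 := min (1 / 8) (κ / (2 * (K + 1))) with hc1
  have hc1p : 0 < c1 := by positivity
  have hc18 : c1 ≤ 1 / 8 := min_le_left _ _
  have hKc : K * c1 ≤ κ / 2 := by
    have h1 : c1 ≤ κ / (2 * (K + 1)) := min_le_right _ _
    calc K * c1 ≤ K * (κ / (2 * (K + 1))) := mul_le_mul_of_nonneg_left h1 hK0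
      _ = κ / 2 * (K / (K + 1)) := by
          field_simp
      _ ≤ κ / 2 * 1 := by
          refine mul_le_mul_of_nonneg_left ?_ (by positivity)
          rw [div_le_one (by positivity)]
          linarith
      _ = κ / 2 := mul_one _
  intro d hd0 hd1 t0 y0 t y hR hB
  have hy : ∀ i, |y i| ≤ 2 * κ⁻¹ := bx_abs hκ (by linarith) hR.1 hB
  have hy0 : ∀ i, |y0 i| ≤ 2 * κ⁻¹ := fun i => by
    have := hR.1 i
    linarith
  have hn := bx_nn hκ hc1p.le hR.1 (bx_self hc1p.le) hB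
  have h1 := rr_lip h.α0 r (M := 2 * κ⁻¹) (by positivity) t0 t y0 y hy0 hy
  have h2 := ss_lip h.α0 r (M := 2 * κ⁻¹) (by positivity) t0 t y0 y hy0 hy
  have h3 : 2 * (QQ α r * (1 + 2 * κ⁻¹)) * nn t0 y0 t y ≤ κ / 2 := by
    refine (mul_le_mul_of_nonneg_left hn (by positivity)).trans ?_
    rw [← mul_assoc]
    exact hKc
  have h4 := abs_le.1 (h1.trans h3)
  have h5 := abs_le.1 (h2.trans h3)
  have hi4 : (κ / 4)⁻¹ = 4 * κ⁻¹ := by
    field_simp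
  refine ⟨fun i => ?_, ?_, ?_, ?_⟩
  · rw [hi4]
    have := hy i
    linarith
  · have := hR.2.1
    linarith [h4.1]
  · rw [hi4]
    have := hR.2.2.1
    linarith [h4.2]
  · have h6 := hR.2.2.2
    have h7 : d ^ 2 ≤ 1 := by nlinarith
    have h8 : d ^ 2 * (ss α r t y - ss α r t0 y0) ≤ κ / 2 := by
      rcases le_or_gt 0 (ss α r t y - ss α r t0 y0) with h9 | h9
      · nlinarith
      · nlinarith [sq_nonneg d]
    nlinarith

theorem rg_A {κ α d t : ℝ} {r y : Fin m → ℝ} (hκ : 0 < κ) (hκ1 : κ ≤ 1)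
    (h : Rg κ α d r t y) : κ ≤ AA α r t y ∧ AA α r t y ≤ κ⁻¹ := by
  have hκi : 1 ≤ κ⁻¹ := (one_le_inv₀ hκ).2 hκ1
  refine ⟨Real.le_sqrt_of_sq_le ?_, Real.sqrt_le_iff.2 ⟨by positivity, ?_⟩⟩
  · have := h.2.1
    nlinarith
  · have := h.2.2.1
    nlinarith

theorem rg_H {κ α d t : ℝ} {r y : Fin m → ℝ} (hκ : 0 < κ) (hκ1 : κ ≤ 1)
    (h : Rg κ α d r t y) : κ ≤ HH α d r t y := by
  refine Real.le_sqrt_of_sq_le ?_
  have := h.2.2.2
  nlinarith

theorem LL_le {κ α d t : ℝ} {r y : Fin m → ℝ} (hκ : 0 < κ) (hκ1 : κ ≤ 1)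
    (h : Rg κ α d r t y) (w1 wn : ℝ) (i : Fin m) :
    |LL α d r w1 wn t y i| ≤ QQ α r * κ⁻¹ * (|w1| + |wn|) := by
  have hA := (rg_A hκ hκ1 h).1
  have hH := rg_H hκ hκ1 h
  have hQ := q_le α r i
  have h1 : |wn / HH α d r t y| ≤ κ⁻¹ * |wn| := by
    rw [abs_div, abs_of_pos (hκ.trans_le hH), div_eq_inv_mul]
    exact mul_le_mul_of_nonneg_right (inv_anti₀ hκ hH) (abs_nonneg _)
  have h2 : |w1 / AA α r t y| ≤ κ⁻¹ * |w1| := by
    rw [abs_div, abs_of_pos (hκ.trans_le hA), div_eq_inv_mul]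
    exact mul_le_mul_of_nonneg_right (inv_anti₀ hκ hA) (abs_nonneg _)
  unfold LL
  refine (abs_sub _ _).trans ?_
  rw [abs_mul, abs_mul]
  have h3 : |1 - r i| ≤ QQ α r := by
    have := abs_nonneg (r i)
    linarith
  have h4 : |r i| ≤ QQ α r := by
    have := abs_nonneg (1 - r i)
    linarith
  have h5 := mul_le_mul h3 h1 (abs_nonneg _) (QQ_nonneg α r)
  have h6 := mul_le_mul h4 h2 (abs_nonneg _) (QQ_nonneg α r)
  calc _ ≤ _ := add_le_add h5 h6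
    _ = _ := by ring

/- ROW W1. -/
theorem row_W1 {α : ℝ} {r : Fin m → ℝ} {κ : ℝ} (hκ : 0 < κ) (hκ1 : κ ≤ 1) :
    ∃ c : ℝ, 0 < c ∧ ∀ d, 0 ≤ d → d ≤ 1 → ∀ t y w1 w wn, Rg κ α d r t y → 1 / 16 ≤ ww w1 w wn →
      (∀ i, |UU α d r w1 wn w t y i| ≤ c) → c ≤ |w1| + |wn| := by
  have hQ := QQ_nonneg α r
  have hκi : 0 < κ⁻¹ := by positivity
  set T : ℝ := 1 + κ⁻¹ * (QQ α r * κ⁻¹) with hT
  have hT1 : 1 ≤ T := by
    have : 0 ≤ κ⁻¹ * (QQ α r * κ⁻¹) := by positivity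
    linarith
  refine ⟨1 / (8 * ((2 + m) * T)), by positivity, ?_⟩
  set c := 1 / (8 * ((2 + m) * T)) with hc
  have hcp : 0 < c := by positivity
  intro d hd0 hd1 t y w1 w wn hR hw hU
  by_contra hlt
  push Not at hlt
  have hwi : ∀ i, w i ^ 2 ≤ (T * c) ^ 2 := by
    intro i
    have h1 := LL_le hκ hκ1 hR w1 wn i
    have h2 : |w i| ≤ T * c := by
      have e : w i = UU α d r w1 wn w t y i - y i * LL α d r w1 wn t y i := by
        unfold UU
        ring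
      rw [e]
      refine (abs_sub _ _).trans ?_
      rw [abs_mul]
      have h3 : |y i| * |LL α d r w1 wn t y i| ≤ κ⁻¹ * (QQ α r * κ⁻¹ * c) := by
        refine mul_le_mul (hR.1 i) (h1.trans ?_) (abs_nonneg _) hκi.le
        exact mul_le_mul_of_nonneg_left hlt.le (by positivity)
      have h4 := hU i
      calc _ ≤ c + κ⁻¹ * (QQ α r * κ⁻¹ * c) := add_le_add h4 h3
        _ = T * c := by
            rw [hT]
            ring
    exact sq_le_sq' (by linarith [abs_le.1 h2]) (le_of_abs_le h2)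
  have hsum : ∑ i, w i ^ 2 ≤ m * (T * c) ^ 2 := by
    refine (Finset.sum_le_sum fun i _ => hwi i).trans ?_
    simp
  have h1 : w1 ^ 2 ≤ c ^ 2 := by
    have : |w1| ≤ c := by
      have := abs_nonneg wn
      linarith
    exact sq_le_sq' (by linarith [abs_le.1 this]) (le_of_abs_le this)
  have h2 : wn ^ 2 ≤ c ^ 2 := by
    have : |wn| ≤ c := by
      have := abs_nonneg w1
      linarith
    exact sq_le_sq' (by linarith [abs_le.1 this]) (le_of_abs_le this)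
  have h3 : c ^ 2 ≤ (T * c) ^ 2 := by
    have : c ≤ T * c := by nlinarith
    exact pow_le_pow_left₀ hcp.le this 2
  have h4 : ww w1 w wn ≤ (2 + m) * (T * c) ^ 2 := by
    unfold ww
    linarith
  have h5 : (2 + m) * (T * c) ^ 2 ≤ 1 / 64 := by
    have e : (2 + m) * (T * c) ^ 2 = 1 / 64 / (2 + m) := by
      rw [hc]
      field_simp
      ring
    rw [e]
    refine div_le_self (by norm_num) ?_
    have : (0 : ℝ) ≤ m := Nat.cast_nonneg m
    linarith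
  linarith

end Pool.Agent.LQN
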