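import Pool.Agent.LQN.BQ
import Pool.Agent.LQN.CHK

/-!
`LQN`, row RE: two long chords from an active point.
-/

set_option autoImplicit false

namespace Pool.Agent.LQN

variable {m : ℕ}

/-- ROW RE. -/
theorem row_RE {α : ℝ} {r : Fin m → ℝ} (h : Hyp α r) {κ : ℝ} (hκ : 0 < κ) (hκ1 : κ ≤ 1) :
    ∃ c M c1 : ℝ, 0 < c ∧ 1 ≤ M ∧ 0 < c1 ∧ ∀ c0, 0 < c0 → c0 ≤ c1 → ∀ d, 0 ≤ d → d ≤ 1 →
      ∀ t0 y0, Rg κ α d r t0 y0 → ∀ ν, 0 < ν → (∀ i, ν ≤ |y0 i|) →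
      ∀ t y t' y' t'' y'', Bx c0 t0 y0 t y → Bx c0 t0 y0 t' y' → Bx c0 t0 y0 t'' y'' →
      ∀ w1 w wn ε, 0 ≤ ε → 1 / 16 ≤ ww w1 w wn → ww w1 w wn ≤ 64 →
        (∀ i, |UU α d r w1 wn w t y i| ≤ ε) → (∀ i, |UU α d r w1 wn w t' y' i| ≤ ε) →
        (∀ i, |UU α d r w1 wn w t'' y'' i| ≤ ε) → M * ε ≤ ν * nn t y t' y' →
        M * ε ≤ ν * nn t y t'' y'' →
        c * (nn t y t' y' * nn t y t'' y'') ≤ |BB α d r t y t' y' t'' y''| :=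
  BQ.row_RE_of h hκ hκ1 (box_sub h hκ hκ1)
    (row_W1 (κ := κ / 4) (by positivity) (by linarith))
    (fun _ _ h0 h1 => chk h h0 h1)

end Pool.Agent.LQN
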