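import Pool.Agent.LQN.VOL3

/-!
LQN row VOL: the volume of the active points in a ball.
-/

set_option autoImplicit false

namespace Pool.Agent.LQN

open MeasureTheory Set
open scoped ENNReal

variable {m : ℕ}

namespace Vo

/-- The trivial bound. -/
theorem vol_triv {t0 t : ℝ} {y0 y : Fin m → ℝ} {c0 κ ρ : ℝ} (hc1 : c0 ≤ 1) (hκ : 0 < κ)
    (hy0 : ∀ i, |y0 i| ≤ κ⁻¹) (hρ : 0 < ρ) (P : ℝ × (Fin m → ℝ) → Prop) :
    volume {q : ℝ × (Fin m → ℝ) | Bx c0 t0 y0 q.1 q.2 ∧ nn t y q.1 q.2 ≤ ρ ∧ P q} ≤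
      ENNReal.ofReal (2 * ρ * (2 * κ⁻¹) ^ m) := by
  have hκi : 0 < κ⁻¹ := by positivity
  calc volume {q : ℝ × (Fin m → ℝ) | Bx c0 t0 y0 q.1 q.2 ∧ nn t y q.1 q.2 ≤ ρ ∧ P q}
      ≤ volume (Icc (t - ρ) (t + ρ) ×ˢ Icc (fun i => y0 i - κ⁻¹) (fun i => y0 i + κ⁻¹) :
          Set (ℝ × (Fin m → ℝ))) := by
        refine measure_mono fun q hq => ?_
        obtain ⟨h1, h2, -⟩ := hq
        have h3 := abs_le.1 ((abs_le_nn1 t q.1 y q.2).trans h2)
        have h4 : ∀ i, |q.2 i - y0 i| ≤ κ⁻¹ := fun i => by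
          refine (h1.2 i).trans ?_
          have := mul_le_mul hc1 (hy0 i) (abs_nonneg _) zero_le_one
          linarith
        refine ⟨⟨by linarith [h3.1], by linarith [h3.2]⟩, fun i => ?_, fun i => ?_⟩
        · have := (abs_le.1 (h4 i)).1
          show y0 i - κ⁻¹ ≤ q.2 i
          linarith
        · have := (abs_le.1 (h4 i)).2
          show q.2 i ≤ y0 i + κ⁻¹
          linarith
    _ = ENNReal.ofReal (2 * ρ * (2 * κ⁻¹) ^ m) := by
        rw [vol_box _ _ _ _ (by linarith) (fun i => by linarith)]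
        congr 1
        have e1 : t + ρ - (t - ρ) = 2 * ρ := by ring
        rw [e1]
        congr 1
        rw [Finset.prod_congr rfl (g := fun _ => 2 * κ⁻¹) (fun i _ => by ring)]
        simp

theorem geo_sum {K δ : ℝ} (hK : 0 ≤ K) (hδ : 0 < δ) :
    ∑' n : ℕ, ENNReal.ofReal (K * Real.exp (-(n * δ))) =
      ENNReal.ofReal (K * (1 - Real.exp (-δ))⁻¹) := by
  have h1 : Real.exp (-δ) < 1 := by
    rw [Real.exp_lt_one_iff]; linarith
  have h2 : ∀ n : ℕ, Real.exp (-(n * δ)) = Real.exp (-δ) ^ n := fun n => by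
    rw [← Real.exp_nat_mul]; ring_nf
  simp only [h2]
  have h3 := summable_geometric_of_lt_one (Real.exp_pos (-δ)).le h1
  rw [← ENNReal.ofReal_tsum_of_nonneg (fun n => by positivity) (h3.mul_left K), tsum_mul_left,
    tsum_geometric_of_lt_one (Real.exp_pos (-δ)).le h1]

/-- The product of the weights. -/
theorem prod_bd {l : Fin m → ℝ} {j : Fin m} {a b ε : ℝ} (ha : 0 < a) (ha1 : a ≤ 1) (hb : 0 < b)
    (hε : 0 < ε) (h1 : ∀ i, i ≠ j → a ≤ l i) (h2 : b ≤ l j) :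
    ∏ i, (2 * (ε / l i)) ≤ (2 / a) ^ m * ε ^ m / b := by
  have h3 : ∀ i, 0 < l i := fun i => by
    by_cases hij : i = j
    · rw [hij]; linarith
    · linarith [h1 i hij]
  calc ∏ i, (2 * (ε / l i)) ≤ ∏ i, ((2 * ε / a) * (if i = j then 1 / b else 1)) := by
        refine Finset.prod_le_prod (fun i _ => ?_) fun i _ => ?_
        · have := div_pos hε (h3 i)
          linarith
        · by_cases hij : i = j
          · subst hij
            rw [if_pos rfl]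
            have e1 : 2 * ε / a * (1 / b) = 2 * (ε / (a * b)) := by ring
            rw [e1]
            refine mul_le_mul_of_nonneg_left (div_le_div_of_nonneg_left hε.le (by positivity) ?_)
              zero_le_two
            nlinarith
          · rw [if_neg hij, mul_one, mul_div_assoc]
            exact mul_le_mul_of_nonneg_left (div_le_div_of_nonneg_left hε.le ha (h1 i hij))
              zero_le_two
    _ = (2 / a) ^ m * ε ^ m / b := by
        rw [Finset.prod_mul_distrib, Finset.prod_ite_eq' Finset.univ j, Finset.prod_const,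
          Finset.card_univ, Fintype.card_fin, if_pos (Finset.mem_univ _), ← mul_pow]
        have e1 : 2 * ε / a = 2 / a * ε := by ring
        rw [e1]
        ring

end Vo

open Vo in
/-- **ROW VOL** -/
theorem row_VOL (hm : 1 ≤ m) {α : ℝ} {r : Fin m → ℝ} (h : Hyp α r) {κ : ℝ} (hκ : 0 < κ)
    (hκ1 : κ ≤ 1) :
    ∃ C c1 : ℝ, 0 < C ∧ 0 < c1 ∧ ∀ c0, 0 < c0 → c0 ≤ c1 → ∀ d, 0 ≤ d → d ≤ 1 →
      ∀ t0 y0, Rg κ α d r t0 y0 → ∀ ν, 0 < ν → (∀ i, ν ≤ |y0 i|) → ∀ t y, Bx c0 t0 y0 t y →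
      ∀ w1 w wn, 1 / 16 ≤ ww w1 w wn → ww w1 w wn ≤ 64 → ∀ ρ ε, 0 < ρ → 0 < ε →
        volume {q : ℝ × (Fin m → ℝ) | Bx c0 t0 y0 q.1 q.2 ∧ nn t y q.1 q.2 ≤ ρ ∧
          ∀ i, |UU α d r w1 wn w q.1 q.2 i| ≤ ε} ≤ ENNReal.ofReal (C * ρ * ε ^ m / ν) := by
  have : Nonempty (Fin m) := ⟨⟨0, hm⟩⟩
  have hκ4 : 0 < κ / 4 := by positivity
  have hκ41 : κ / 4 ≤ 1 := by linarith
  have hκi : 0 < κ⁻¹ := by positivity
  obtain ⟨b1, hb1, hb8, hbox⟩ := box_sub h hκ hκ1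
  obtain ⟨cW, hcW, hW1⟩ := row_W1 (α := α) (r := r) hκ4 hκ41
  set κ' := min κ (min cW (1 / 16)) with hκ'
  have hκ'0 : 0 < κ' := by positivity
  have hκ'κ : κ' ≤ κ := min_le_left _ _
  have hκ'W : κ' ≤ cW := (min_le_right _ _).trans (min_le_left _ _)
  have hκ'16 : κ' ≤ 1 / 16 := (min_le_right _ _).trans (min_le_right _ _)
  have hκ'1 : κ' ≤ 1 := hκ'κ.trans hκ1
  obtain ⟨C1, a1, hC1, ha1, ha8, hch⟩ := ch_al h hκ'0 hκ'1
  obtain ⟨Cl, hCl, hpair⟩ := LL_pair h hκ hκ1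
  obtain ⟨Cp, hCp, hlip⟩ := LL_lip h hκ4 hκ41
  set c3 := min 1 (κ' / (4 * Cl)) with hc3
  have hc30 : 0 < c3 := by positivity
  have hc31 : c3 ≤ 1 := min_le_left _ _
  have hc3' : 4 * Cl * c3 ≤ κ' := by
    have : c3 ≤ κ' / (4 * Cl) := min_le_right _ _
    rw [le_div_iff₀ (by positivity)] at this
    linarith
  set c2 := a1 * c3 / (32 * Cp * (1 + m * κ⁻¹)) with hc2
  have hc20 : 0 < c2 := by positivity
  have hc2' : Cp * 16 * (2 * c2 * (1 + m * κ⁻¹)) = a1 * c3 := by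
    rw [hc2]; field_simp; ring
  set δ := a1 / 4 with hδ
  have hδ0 : 0 < δ := by positivity
  have hδ1 : δ ≤ 1 := by rw [hδ]; linarith
  set G : ℝ := (1 - Real.exp (-δ))⁻¹ with hG
  have hG0 : 0 < G := by
    have : Real.exp (-δ) < 1 := by rw [Real.exp_lt_one_iff]; linarith
    exact inv_pos.2 (by linarith)
  set E : ℝ := (C1 * (m + 1)) ^ (m + 1) * (4 * (2 / c3) ^ m) with hE
  have hE0 : 0 < E := by positivity
  set F : ℝ := 2 * (2 * κ⁻¹) ^ m * κ⁻¹ / cW ^ m with hF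
  have hF0 : 0 < F := by positivity
  refine ⟨2 * (E * G) + F, min b1 (min a1 c2), by positivity, by positivity,
    fun c0 hc0 hc01 d hd0 hd1 t0 y0 hR ν hν hνy t y hB w1 w wn hww hww' ρ ε hρ hε => ?_⟩
  have hcb : c0 ≤ b1 := hc01.trans (min_le_left _ _)
  have hca : c0 ≤ a1 := hc01.trans ((min_le_right _ _).trans (min_le_left _ _))
  have hcc : c0 ≤ c2 := hc01.trans ((min_le_right _ _).trans (min_le_right _ _))
  have hc1 : c0 ≤ 1 := by linarith
  have hy0 : ∀ i, y0 i ≠ 0 := fun i h0 => by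
    have := hνy i
    rw [h0, abs_zero] at this
    linarith
  by_cases hεW : cW < ε
  · -- the trivial bound
    refine (vol_triv hc1 hκ hR.1 hρ fun q => ∀ i, |UU α d r w1 wn w q.1 q.2 i| ≤ ε).trans
      (ENNReal.ofReal_le_ofReal ?_)
    have h1 : ν ≤ κ⁻¹ := (hνy ⟨0, hm⟩).trans (hR.1 _)
    have h2 : cW ^ m ≤ ε ^ m := pow_le_pow_left₀ hcW.le hεW.le m
    have h3 : F * ρ * ε ^ m / ν ≤ (2 * (E * G) + F) * ρ * ε ^ m / ν := by
      have : F ≤ 2 * (E * G) + F := by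
        have : 0 < E * G := by positivity
        linarith
      gcongr
    refine le_trans ?_ h3
    rw [le_div_iff₀ hν, hF]
    have h4 : 2 * (2 * κ⁻¹) ^ m * κ⁻¹ / cW ^ m * ρ * cW ^ m = 2 * ρ * (2 * κ⁻¹) ^ m * κ⁻¹ := by
      field_simp
    calc 2 * ρ * (2 * κ⁻¹) ^ m * ν ≤ 2 * ρ * (2 * κ⁻¹) ^ m * κ⁻¹ := by gcongr
      _ = 2 * (2 * κ⁻¹) ^ m * κ⁻¹ / cW ^ m * ρ * cW ^ m := h4.symm
      _ ≤ _ := by gcongr
  have hεW' : ε ≤ cW := not_lt.1 hεW
  set S := {q : ℝ × (Fin m → ℝ) | Bx c0 t0 y0 q.1 q.2 ∧ nn t y q.1 q.2 ≤ ρ ∧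
          ∀ i, |UU α d r w1 wn w q.1 q.2 i| ≤ ε} with hS
  rcases S.eq_empty_or_nonempty with hS0 | ⟨q0, hq0⟩
  · rw [hS0, measure_empty]; exact zero_le
  have hwl : κ' ≤ |w1| + |wn| := by
    refine hκ'W.trans (hW1 d hd0 hd1 q0.1 q0.2 w1 w wn
      (hbox d hd0 hd1 t0 y0 _ _ hR (Bx_mono hcb hq0.1)) hww fun i => (hq0.2.2 i).trans hεW')
  have hw16 : |w1| + |wn| ≤ 16 := by
    have h1 : w1 ^ 2 + wn ^ 2 ≤ 64 := by
      unfold ww at hww'
      have : 0 ≤ ∑ i, w i ^ 2 := Finset.sum_nonneg fun i _ => sq_nonneg _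
      linarith
    have h2 : |w1| ≤ 8 := abs_le_of_sq_le_sq (by nlinarith [sq_nonneg wn]) (by norm_num)
    have h3 : |wn| ≤ 8 := abs_le_of_sq_le_sq (by nlinarith [sq_nonneg w1]) (by norm_num)
    linarith
  have hwu : |w1| + |wn| ≤ κ'⁻¹ := by
    refine hw16.trans ?_
    rw [le_inv_comm₀ (by norm_num) hκ'0]
    linarith
  -- the small coordinate
  obtain ⟨j, hj⟩ := Finite.exists_min fun i => |LL α d r w1 wn t0 y0 i|
  have hcen : ∀ i, i ≠ j → 2 * c3 ≤ |LL α d r w1 wn t0 y0 i| := fun i hij => by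
    have h1 := hpair d t0 y0 hR w1 wn i j hij
    have h2 : Cl * (|LL α d r w1 wn t0 y0 i| + |LL α d r w1 wn t0 y0 j|) ≤
        Cl * (2 * |LL α d r w1 wn t0 y0 i|) := by
      refine mul_le_mul_of_nonneg_left ?_ hCl.le
      linarith [hj i]
    have h3 : Cl * (4 * c3) ≤ Cl * (2 * |LL α d r w1 wn t0 y0 i|) := by linarith
    have h4 := le_of_mul_le_mul_left h3 hCl
    linarith
  have hR4 : ∀ q : ℝ × (Fin m → ℝ), Bx c0 t0 y0 q.1 q.2 → Rg (κ / 4) α d r q.1 q.2 :=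
    fun q hq => hbox d hd0 hd1 t0 y0 _ _ hR (Bx_mono hcb hq)
  have hB0 : Bx c0 t0 y0 t0 y0 := ⟨by rw [sub_self, abs_zero]; exact hc0.le, fun i => by
    rw [sub_self, abs_zero]; positivity⟩
  have hvar : ∀ p q : ℝ × (Fin m → ℝ), Bx c0 t0 y0 p.1 p.2 → Bx c0 t0 y0 q.1 q.2 → ∀ i,
      |LL α d r w1 wn q.1 q.2 i - LL α d r w1 wn p.1 p.2 i| ≤ a1 * c3 := fun p q hp hq i => by
    refine (hlip d hd0 hd1 _ _ _ _ (hR4 p hp) (hR4 q hq) w1 wn i).trans ?_
    rw [← hc2']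
    have h1 := nn_Bx hR.1 hc0.le hp hq
    have h2 : 2 * c0 * (1 + m * κ⁻¹) ≤ 2 * c2 * (1 + m * κ⁻¹) := by gcongr
    have h3 : 0 ≤ nn p.1 p.2 q.1 q.2 := (abs_nonneg _).trans (abs_le_nn1 _ _ _ _)
    calc Cp * (|w1| + |wn|) * nn p.1 p.2 q.1 q.2 ≤ Cp * 16 * nn p.1 p.2 q.1 q.2 := by gcongr
      _ ≤ _ := by
        refine mul_le_mul_of_nonneg_left (h1.trans h2) (by positivity)
  have hbig : ∀ q : ℝ × (Fin m → ℝ), Bx c0 t0 y0 q.1 q.2 → ∀ i, i ≠ j →
      c3 ≤ |LL α d r w1 wn q.1 q.2 i| := fun q hq i hij => by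
    have h1 := hvar (t0, y0) q hB0 hq i
    have h2 := hcen i hij
    have h3 : a1 * c3 ≤ c3 := by nlinarith
    have h4 := abs_sub_abs_le_abs_sub (LL α d r w1 wn t0 y0 i) (LL α d r w1 wn q.1 q.2 i)
    rw [abs_sub_comm] at h4
    simp only at h1
    linarith
  have hyj : 0 < |y0 j| := abs_pos.2 (hy0 j)
  set T : Bool → ℕ → Set (ℝ × (Fin m → ℝ)) := fun b n =>
    S ∩ {q | LL α d r w1 wn q.1 q.2 j ∈ pc |y0 j| δ (if b then 1 else -1) n} with hT
  have hSm : MeasurableSet S := by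
    have h1 : S = {q : ℝ × (Fin m → ℝ) | Bx c0 t0 y0 q.1 q.2} ∩
        ({q | nn t y q.1 q.2 ≤ ρ} ∩ ⋂ i, {q | |UU α d r w1 wn w q.1 q.2 i| ≤ ε}) := by
      ext q
      simp only [hS, mem_ofPred_eq, mem_inter_iff, mem_iInter]
    rw [h1]
    refine (meas_Bx c0 t0 y0).inter ((measurableSet_le (meas_nn t y) measurable_const).inter
      (MeasurableSet.iInter fun i => measurableSet_le ?_ measurable_const))
    exact (meas_UU α d r w1 wn w i).abs
  have hTm : ∀ b n, MeasurableSet (T b n) := fun b n =>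
    hSm.inter ((meas_LL α d r w1 wn j) (meas_pc _ _ _ _))
  have hcov : S ⊆ ⋃ b, ⋃ n, T b n := fun q hq => by
    obtain ⟨b, n, hbn⟩ := pc_cover hyj hδ0 (LL α d r w1 wn q.1 q.2 j)
    exact mem_iUnion₂.2 ⟨b, n, hq, hbn⟩
  have hpiece : ∀ b n, volume (T b n) ≤
      ENNReal.ofReal (E * ρ * ε ^ m / ν * Real.exp (-(n * δ))) := by
    intro b n
    rcases (T b n).eq_empty_or_nonempty with hT0 | ⟨p, hp⟩
    · rw [hT0, measure_empty]; exact zero_le
    have hσ : |(if b then (1 : ℝ) else -1)| = 1 := by cases b <;> simp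
    obtain ⟨e0, e, he0, he, hmain⟩ := hch d hd0 hd1 t0 y0 (Rg_mono hκ'0 hκ'κ hR) hy0 p.1 p.2
      (Bx_mono hca hp.1.1) w1 wn hwl hwu
    set l := el α d r w1 wn p.1 p.2 with hl
    have hlj : |y0 j| * Real.exp (n * δ) / 2 ≤ l j := by
      have h1 := (pc_diff hyj hδ0 hδ1 hσ hp.2 hp.2).2
      have h2 := (Bx_abs hp.1.1 j).1
      have h3 : (1 / 2) * |y0 j| ≤ (1 - c0) * |y0 j| :=
        mul_le_mul_of_nonneg_right (by linarith) (abs_nonneg _)
      rw [hl]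
      unfold el
      linarith [abs_nonneg (LL α d r w1 wn p.1 p.2 j)]
    have hli : ∀ i, i ≠ j → c3 ≤ l i := fun i hij => by
      rw [hl]
      unfold el
      linarith [hbig p hp.1.1 i hij, abs_nonneg (p.2 i)]
    have hbpos : 0 < |y0 j| * Real.exp (n * δ) / 2 := by positivity
    have hlpos : ∀ i, 0 < l i := fun i => by
      by_cases hij : i = j
      · rw [hij]; linarith
      · linarith [hli i hij]
    have hv := vol_al (hTm b n) (U := fun q i => UU α d r w1 wn w q.1 q.2 i)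
      (measurable_pi_lambda _ fun i => meas_UU α d r w1 wn w i) hlpos hC1 hρ hε he0 he
      (t := t) (y := y) (fun q hq => hq.1.2.1) (fun q hq => hq.1.2.2) (fun q1 hq1 q2 hq2 => by
        refine hmain q1.1 q1.2 q2.1 q2.2 (Bx_mono hca hq1.1.1) (Bx_mono hca hq2.1.1) w ?_
        intro i
        by_cases hij : i = j
        · rw [hij]
          have h1 := (pc_diff hyj hδ0 hδ1 hσ hq1.2 hp.2).1
          refine h1.trans ?_
          have h2 : 2 * δ * (|y0 j| * Real.exp (n * δ)) =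
              a1 * (|y0 j| * Real.exp (n * δ) / 2) := by rw [hδ]; ring
          rw [h2]
          exact mul_le_mul_of_nonneg_left hlj ha1.le
        · refine (hvar p q1 hp.1.1 hq1.1.1 i).trans ?_
          exact mul_le_mul_of_nonneg_left (hli i hij) ha1.le)
    refine hv.trans (ENNReal.ofReal_le_ofReal ?_)
    have h5 := prod_bd (ε := ε) hc30 hc31 hbpos hε hli hlj
    have h6 : (2 / c3) ^ m * ε ^ m / (|y0 j| * Real.exp (n * δ) / 2) ≤
        2 * ((2 / c3) ^ m * ε ^ m / ν * Real.exp (-(n * δ))) := by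
      rw [Real.exp_neg]
      have e1 : (2 / c3) ^ m * ε ^ m / (|y0 j| * Real.exp (n * δ) / 2) =
          2 * ((2 / c3) ^ m * ε ^ m / |y0 j| * (Real.exp (n * δ))⁻¹) := by
        field_simp
      rw [e1]
      have := hνy j
      gcongr
    calc (C1 * (m + 1)) ^ (m + 1) * (2 * ρ * ∏ i, 2 * (ε / l i))
        ≤ (C1 * (m + 1)) ^ (m + 1) * (2 * ρ *
          (2 * ((2 / c3) ^ m * ε ^ m / ν * Real.exp (-(n * δ))))) := by
          gcongr
          exact h5.trans h6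
      _ = _ := by rw [hE]; ring
  calc volume S ≤ volume (⋃ b, ⋃ n, T b n) := measure_mono hcov
    _ ≤ ∑' b, volume (⋃ n, T b n) := measure_iUnion_le _
    _ ≤ ∑' b : Bool, ∑' n, volume (T b n) := ENNReal.tsum_le_tsum fun b => measure_iUnion_le _
    _ ≤ ∑' _b : Bool, ENNReal.ofReal (E * ρ * ε ^ m / ν * G) := by
        refine ENNReal.tsum_le_tsum fun b => ?_
        rw [hG, ← geo_sum (by positivity) hδ0]
        exact ENNReal.tsum_le_tsum fun n => hpiece b n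
    _ = ENNReal.ofReal (2 * (E * G) * ρ * ε ^ m / ν) := by
        rw [tsum_fintype, Fintype.sum_bool, ← ENNReal.ofReal_add (by positivity) (by positivity)]
        congr 1
        ring
    _ ≤ _ := by
        refine ENNReal.ofReal_le_ofReal ?_
        have : 2 * (E * G) ≤ 2 * (E * G) + F := by linarith
        gcongr

end Pool.Agent.LQN
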