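import Pool.Agent.LQN.CNTP3
import Pool.Agent.LQN.G1
import Pool.Agent.LQN.RE
import Pool.Agent.LQN.VOL

/-!
LQN, row CNTP: the count of the related pairs at one frequency.
-/

set_option autoImplicit false

namespace Pool.Agent.LQN

variable {m : ℕ}

theorem cntp (hm : 1 ≤ m) {α : ℝ} {r : Fin m → ℝ} (h : Hyp α r) {κ : ℝ} (hκ : 0 < κ)
    (hκ1 : κ ≤ 1) : ∃ C c1 : ℝ, 0 < C ∧ 0 < c1 ∧ ∀ c0, 0 < c0 → c0 ≤ c1 → ∀ d, 0 ≤ d → d ≤ 1 →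
      ∀ t0 y0, Rg κ α d r t0 y0 → ∀ ν, 0 < ν → (∀ i, ν ≤ |y0 i|) →
      ∀ s K A, 0 < s → s ≤ 1 → s ≤ ν → 1 ≤ K → 1 ≤ A →
      ∀ w1 w wn, 1 / 16 ≤ ww w1 w wn → ww w1 w wn ≤ 64 →
      ∀ (ι : Type) [Fintype ι] (P : ι → ℝ × (Fin m → ℝ)) (T : ι → Set (ℝ × (Fin m → ℝ))),
      (∀ a b, a ≠ b → s ≤ ‖P a - P b‖) →
      (∀ a, ∀ p ∈ T a, ‖p - P a‖ ≤ A * s ∧ Bx c0 t0 y0 p.1 p.2) →
      ∀ a b, ({q : ι × ι | ∃ p1 ∈ T a, ∃ p2 ∈ T b, ∃ p3 ∈ T q.1, ∃ p4 ∈ T q.2,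
        (∀ i, |UU α d r w1 wn w p1.1 p1.2 i| ≤ K * s) ∧
        (∀ i, |UU α d r w1 wn w p2.1 p2.2 i| ≤ K * s) ∧
        (∀ i, |UU α d r w1 wn w p3.1 p3.2 i| ≤ K * s) ∧
        (∀ i, |UU α d r w1 wn w p4.1 p4.2 i| ≤ K * s) ∧
        CpRel α d r ((K * s) ^ 2) p1 p2 p3 p4}.ncard : ℝ) ≤
          C * A ^ (2 * m + 3) * K ^ (3 * m + 3) / ν ^ 2 :=
  cntp_of hm h hκ hκ1 (box_sub h hκ hκ1) (row_RE h hκ hκ1) (row_VOL hm h hκ hκ1)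

end Pool.Agent.LQN
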