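import Mathlib

/-!
LQN, row CNTP: counting by volume.
-/

set_option autoImplicit false

namespace Pool.Agent.LQN

open MeasureTheory Set Metric
open scoped ENNReal

variable {m : ℕ}

/-- Sets of measure at least `v` inside `S`, at most `N` of them through a point. -/
theorem cv_count {Ω : Type*} [MeasurableSpace Ω] (μ : Measure Ω) {κ : Type*} (Z : Finset κ)
    (B : κ → Set Ω) (hB : ∀ a ∈ Z, MeasurableSet (B a)) {S : Set Ω} (hS : ∀ a ∈ Z, B a ⊆ S)
    {v : ℝ≥0∞} (hv : ∀ a ∈ Z, v ≤ μ (B a)) {N : ℕ}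
    (hN : ∀ x, ∀ Z' ⊆ Z, (∀ a ∈ Z', x ∈ B a) → Z'.card ≤ N) :
    (Z.card : ℝ≥0∞) * v ≤ N * μ S := by
  classical
  have hU : MeasurableSet (⋃ a ∈ Z, B a) := Finset.measurableSet_biUnion _ hB
  calc (Z.card : ℝ≥0∞) * v = ∑ _a ∈ Z, v := by rw [Finset.sum_const, nsmul_eq_mul]
    _ ≤ ∑ a ∈ Z, μ (B a) := Finset.sum_le_sum hv
    _ = ∑ a ∈ Z, ∫⁻ x, (B a).indicator 1 x ∂μ :=
        Finset.sum_congr rfl fun a ha => (lintegral_indicator_one (hB a ha)).symm
    _ = ∫⁻ x, ∑ a ∈ Z, (B a).indicator 1 x ∂μ :=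
        (lintegral_finsetSum' Z fun a ha =>
          (measurable_one.indicator (hB a ha)).aemeasurable).symm
    _ ≤ ∫⁻ x, (⋃ a ∈ Z, B a).indicator (fun _ => (N : ℝ≥0∞)) x ∂μ := by
        refine lintegral_mono fun x => ?_
        have h1 : ∑ a ∈ Z, (B a).indicator (1 : Ω → ℝ≥0∞) x =
            ((Z.filter fun a => x ∈ B a).card : ℝ≥0∞) := by
          rw [Finset.card_filter]
          push_cast
          refine Finset.sum_congr rfl fun a _ => ?_
          by_cases h : x ∈ B a <;> simp [h]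
        show ∑ a ∈ Z, (B a).indicator (1 : Ω → ℝ≥0∞) x ≤ _
        rw [h1]
        by_cases hx : x ∈ ⋃ a ∈ Z, B a
        · rw [indicator_of_mem hx]
          exact_mod_cast hN x _ (Finset.filter_subset _ _) fun a ha => (Finset.mem_filter.1 ha).2
        · rw [indicator_of_notMem hx]
          have h2 : Z.filter (fun a => x ∈ B a) = ∅ := by
            refine Finset.filter_eq_empty_iff.2 fun {a} ha h3 => hx ?_
            exact mem_biUnion ha h3
          rw [h2]
          simp
    _ = N * μ (⋃ a ∈ Z, B a) := lintegral_indicator_const hU _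
    _ ≤ N * μ S := mul_le_mul_right (measure_mono (iUnion₂_subset hS)) _

theorem cv_vol_closedBall (p : ℝ × (Fin m → ℝ)) {r : ℝ} (hr : 0 ≤ r) :
    volume (closedBall p r) = ENNReal.ofReal ((2 * r) ^ (m + 1)) := by
  have h1 : closedBall p r = closedBall p.1 r ×ˢ closedBall p.2 r := (closedBall_prod_same _ _ _).symm
  rw [h1, Measure.volume_eq_prod, Measure.prod_prod, Real.volume_closedBall,
    Real.volume_pi_closedBall _ hr, Fintype.card_fin, ← ENNReal.ofReal_mul (by positivity)]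
  congr 1
  ring

theorem cv_vol_ball (p : ℝ × (Fin m → ℝ)) {r : ℝ} (hr : 0 < r) :
    volume (ball p r) = ENNReal.ofReal ((2 * r) ^ (m + 1)) := by
  have h1 : ball p r = ball p.1 r ×ˢ ball p.2 r := (ball_prod_same _ _ _).symm
  rw [h1, Measure.volume_eq_prod, Measure.prod_prod, Real.volume_ball,
    Real.volume_pi_ball _ hr, Fintype.card_fin, ← ENNReal.ofReal_mul (by positivity)]
  congr 1
  ring

/-- Separated points in a ball. -/
theorem cv_sep {κ : Type*} (Z : Finset κ) (P : κ → ℝ × (Fin m → ℝ)) {s : ℝ} (hs : 0 < s)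
    (hP : ∀ a ∈ Z, ∀ b ∈ Z, a ≠ b → s ≤ ‖P a - P b‖) (x : ℝ × (Fin m → ℝ)) {D : ℝ} (hD : 0 ≤ D)
    (hx : ∀ a ∈ Z, ‖P a - x‖ ≤ D) : (Z.card : ℝ) ≤ (2 * (D / s) + 1) ^ (m + 1) := by
  have key := cv_count (volume : Measure (ℝ × (Fin m → ℝ))) Z (fun a => ball (P a) (s / 2))
    (fun a _ => measurableSet_ball) (S := closedBall x (D + s / 2))
    (fun a ha y hy => by
      rw [mem_ball, dist_eq_norm] at hy
      rw [mem_closedBall, dist_eq_norm]
      have : y - x = (y - P a) + (P a - x) := by abel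
      rw [this]
      exact (norm_add_le _ _).trans (by linarith [hx a ha]))
    (v := ENNReal.ofReal (s ^ (m + 1))) (fun a _ => by
      rw [cv_vol_ball _ (by positivity : 0 < s / 2)]
      refine le_of_eq ?_
      congr 2
      ring) (N := 1) (fun y Z' hZ' h => by
      rw [Finset.card_le_one]
      intro a ha b hb
      by_contra hab
      have h1 := h a ha
      have h2 := h b hb
      rw [mem_ball, dist_eq_norm] at h1 h2
      have h3 : ‖P a - P b‖ < s := by
        have e : P a - P b = (y - P b) - (y - P a) := by abel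
        rw [e]
        exact (norm_sub_le _ _).trans_lt (by linarith)
      exact absurd (hP a (hZ' ha) b (hZ' hb) hab) (not_le.2 h3))
  rw [cv_vol_closedBall _ (by positivity), Nat.cast_one, one_mul, ← ENNReal.ofReal_natCast,
    ← ENNReal.ofReal_mul (by positivity)] at key
  have h2 := (ENNReal.ofReal_le_ofReal_iff (by positivity)).1 key
  have h3 : (Z.card : ℝ) ≤ (2 * (D + s / 2)) ^ (m + 1) / s ^ (m + 1) := by
    rw [le_div_iff₀ (by positivity)]
    exact h2
  rw [← div_pow] at h3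
  refine h3.trans (le_of_eq ?_)
  congr 1
  field_simp

/-- **Counting caps by volume.** The centres `P a` are `s`-separated, `p a` is a point within `A s` of
`P a`, and the ball of radius `σ ≤ s` around `p a` is contained in `S`. -/
theorem cv_near {κ : Type*} (Z : Finset κ) (P p : κ → ℝ × (Fin m → ℝ)) {s σ A : ℝ} (hs : 0 < s)
    (hσ : 0 < σ) (hσs : σ ≤ s) (hA : 0 ≤ A)
    (hP : ∀ a ∈ Z, ∀ b ∈ Z, a ≠ b → s ≤ ‖P a - P b‖) (hp : ∀ a ∈ Z, ‖p a - P a‖ ≤ A * s)
    {S : Set (ℝ × (Fin m → ℝ))} (hS : ∀ a ∈ Z, closedBall (p a) σ ⊆ S) {V : ℝ} (hV : 0 ≤ V)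
    (hSV : volume S ≤ ENNReal.ofReal V) :
    (Z.card : ℝ) ≤ (2 * A + 3) ^ (m + 1) * V / (2 * σ) ^ (m + 1) := by
  set N : ℕ := ⌊(2 * A + 3) ^ (m + 1)⌋₊ with hN
  have key := cv_count (volume : Measure (ℝ × (Fin m → ℝ))) Z (fun a => closedBall (p a) σ)
    (fun a _ => measurableSet_closedBall) hS (v := ENNReal.ofReal ((2 * σ) ^ (m + 1)))
    (fun a _ => (cv_vol_closedBall _ hσ.le).ge) (N := N) (fun y Z' hZ' h => by
      refine Nat.le_floor ?_
      have h1 := cv_sep Z' P hs (fun a ha b hb => hP a (hZ' ha) b (hZ' hb)) y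
        (D := A * s + s) (by positivity) fun a ha => by
          have h2 := h a ha
          rw [mem_closedBall, dist_comm, dist_eq_norm] at h2
          have e : P a - y = -(p a - P a) + (p a - y) := by abel
          rw [e]
          refine (norm_add_le _ _).trans ?_
          rw [norm_neg]
          linarith [hp a (hZ' ha)]
      refine h1.trans (le_of_eq ?_)
      congr 1
      field_simp
      ring)
  have h1 : (Z.card : ℝ≥0∞) * ENNReal.ofReal ((2 * σ) ^ (m + 1)) ≤
      ENNReal.ofReal ((2 * A + 3) ^ (m + 1)) * ENNReal.ofReal V := by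
    refine key.trans (mul_le_mul' ?_ hSV)
    rw [← ENNReal.ofReal_natCast]
    exact ENNReal.ofReal_le_ofReal (Nat.floor_le (by positivity))
  rw [← ENNReal.ofReal_natCast, ← ENNReal.ofReal_mul (by positivity),
    ← ENNReal.ofReal_mul (by positivity), ENNReal.ofReal_le_ofReal_iff (by positivity)] at h1
  rwa [le_div_iff₀ (by positivity)]

/-- **Counting pairs.** Related pairs `(c, c')` have `c` near (or `c'` near, symmetric), and the
other one is determined up to `N'` choices. -/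
theorem cv_pairs {κ : Type*} [Fintype κ] (rel : κ → κ → Prop) (near : κ → Prop) {N N' : ℝ}
    (hN' : 0 ≤ N') (h1 : ∀ c c', rel c c' → near c ∨ near c')
    (h2 : ∀ Z : Finset κ, (∀ a ∈ Z, near a) → (Z.card : ℝ) ≤ N)
    (h3 : ∀ c, ∀ Z : Finset κ, (∀ a ∈ Z, rel c a) → (Z.card : ℝ) ≤ N')
    (h4 : ∀ c, ∀ Z : Finset κ, (∀ a ∈ Z, rel a c) → (Z.card : ℝ) ≤ N') :
    ({q : κ × κ | rel q.1 q.2}.ncard : ℝ) ≤ 2 * N * N' := by
  classical
  set Zn : Finset κ := Finset.univ.filter near with hZn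
  set Q : Finset (κ × κ) := Finset.univ.filter fun q : κ × κ => rel q.1 q.2 with hQ
  have e0 : {q : κ × κ | rel q.1 q.2}.ncard = Q.card := by
    rw [← Set.ncard_coe_finset]
    congr 1
    ext q
    simp [hQ]
  rw [e0]
  have hsub : Q ⊆ (Zn.biUnion fun c => (Finset.univ.filter fun a => rel c a).image fun a => (c, a)) ∪
      (Zn.biUnion fun c => (Finset.univ.filter fun a => rel a c).image fun a => (a, c)) := by
    intro q hq
    have hr : rel q.1 q.2 := (Finset.mem_filter.1 hq).2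
    rw [Finset.mem_union, Finset.mem_biUnion, Finset.mem_biUnion]
    rcases h1 _ _ hr with h | h
    · refine Or.inl ⟨q.1, Finset.mem_filter.2 ⟨Finset.mem_univ _, h⟩, ?_⟩
      exact Finset.mem_image.2 ⟨q.2, Finset.mem_filter.2 ⟨Finset.mem_univ _, hr⟩, rfl⟩
    · refine Or.inr ⟨q.2, Finset.mem_filter.2 ⟨Finset.mem_univ _, h⟩, ?_⟩
      exact Finset.mem_image.2 ⟨q.1, Finset.mem_filter.2 ⟨Finset.mem_univ _, hr⟩, rfl⟩
  have hZc : (Zn.card : ℝ) ≤ N := h2 Zn fun a ha => (Finset.mem_filter.1 ha).2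
  have hb : ∀ (F : κ → Finset (κ × κ)), (∀ c, ((F c).card : ℝ) ≤ N') →
      ((Zn.biUnion F).card : ℝ) ≤ N * N' := by
    intro F hF
    calc ((Zn.biUnion F).card : ℝ) ≤ ∑ c ∈ Zn, ((F c).card : ℝ) := by
          exact_mod_cast Finset.card_biUnion_le
      _ ≤ ∑ _c ∈ Zn, N' := Finset.sum_le_sum fun c _ => hF c
      _ = Zn.card * N' := by rw [Finset.sum_const, nsmul_eq_mul]
      _ ≤ N * N' := mul_le_mul_of_nonneg_right hZc hN'
  have hi : ∀ (Z : Finset κ) (f : κ → κ × κ), (Z.card : ℝ) ≤ N' → (((Z.image f).card : ℕ) : ℝ) ≤ N' :=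
    fun Z f h => le_trans (by exact_mod_cast Finset.card_image_le) h
  calc (Q.card : ℝ) ≤ (((Zn.biUnion fun c => (Finset.univ.filter fun a => rel c a).image
        fun a => (c, a)) ∪ (Zn.biUnion fun c => (Finset.univ.filter fun a => rel a c).image
        fun a => (a, c))).card : ℝ) := by exact_mod_cast Finset.card_le_card hsub
    _ ≤ N * N' + N * N' := by
        refine (Nat.cast_le.2 (Finset.card_union_le _ _)).trans ?_
        rw [Nat.cast_add]
        refine add_le_add (hb _ fun c => hi _ _ ?_) (hb _ fun c => hi _ _ ?_)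
        · exact h3 c _ fun a ha => (Finset.mem_filter.1 ha).2
        · exact h4 c _ fun a ha => (Finset.mem_filter.1 ha).2
    _ = 2 * N * N' := by ring

end Pool.Agent.LQN
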