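import Pool.Agent.LQN.D1
import Pool.Agent.LQN.CNTP0

/-!
LQN, row CNTP: elementary bounds of the explicit surfaces.
-/

set_option autoImplicit false

namespace Pool.Agent.LQN

open MeasureTheory Set Metric
open scoped ENNReal

variable {m : ℕ}

theorem cp_ss_eq (α : ℝ) (r : Fin m → ℝ) (t : ℝ) (y : Fin m → ℝ) :
    ss α r t y = rr α r t y + ∑ i, y i ^ 2 := by
  unfold ss rr
  have : ∑ i, (1 - r i) * y i ^ 2 = ∑ i, y i ^ 2 - ∑ i, r i * y i ^ 2 := by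
    rw [← Finset.sum_sub_distrib]
    exact Finset.sum_congr rfl fun i _ => by ring
  rw [this]
  ring

theorem cp_AA {κ α d : ℝ} (hκ : 0 < κ) (hκ1 : κ ≤ 1) {r : Fin m → ℝ} {t : ℝ} {y : Fin m → ℝ}
    (h : Rg κ α d r t y) : κ ≤ AA α r t y ∧ AA α r t y ≤ κ⁻¹ := by
  obtain ⟨-, h1, h2, -⟩ := h
  have hκ2 : 1 ≤ κ⁻¹ := (one_le_inv₀ hκ).2 hκ1
  constructor
  · refine Real.le_sqrt_of_sq_le ?_
    nlinarith
  · refine Real.sqrt_le_iff.2 ⟨by positivity, h2.trans ?_⟩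
    nlinarith

theorem cp_HH {κ α d : ℝ} (hκ : 0 < κ) (hκ1 : κ ≤ 1) {r : Fin m → ℝ} {t : ℝ} {y : Fin m → ℝ}
    (h : Rg κ α d r t y) : κ ≤ HH α d r t y ∧ HH α d r t y ≤ 1 := by
  obtain ⟨-, h1, h2, h3⟩ := h
  constructor
  · refine Real.le_sqrt_of_sq_le ?_
    nlinarith
  · refine Real.sqrt_le_iff.2 ⟨by norm_num, ?_⟩
    have h4 : 0 ≤ ss α r t y := by
      rw [cp_ss_eq]
      have : 0 ≤ ∑ i, y i ^ 2 := Finset.sum_nonneg fun i _ => sq_nonneg _
      linarith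
    nlinarith [sq_nonneg d, mul_nonneg (sq_nonneg d) h4]

theorem cp_PP {κ α : ℝ} (hκ : 0 < κ) (r yb : Fin m → ℝ) (hy : ∀ i, |yb i| ≤ κ⁻¹) (Dt : ℝ)
    (D : Fin m → ℝ) : |PP α r yb Dt D| ≤
      (1 / (2 * |α|) + κ⁻¹ * ∑ i, |r i|) * (|Dt| + ∑ i, |D i|) := by
  unfold PP
  have h0 : 0 ≤ ∑ i, |D i| := Finset.sum_nonneg fun i _ => abs_nonneg _
  have h1 : |Dt / (2 * α)| ≤ 1 / (2 * |α|) * (|Dt| + ∑ i, |D i|) := by
    rw [abs_div, abs_mul, abs_two]
    have : |Dt| / (2 * |α|) = 1 / (2 * |α|) * |Dt| := by ring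
    rw [this]
    exact mul_le_mul_of_nonneg_left (by linarith) (by positivity)
  have h2 : |∑ i, r i * yb i * D i| ≤ κ⁻¹ * (∑ i, |r i|) * (|Dt| + ∑ i, |D i|) := by
    calc |∑ i, r i * yb i * D i| ≤ ∑ i, |r i * yb i * D i| := Finset.abs_sum_le_sum_abs _ _
      _ ≤ ∑ i, |r i| * (κ⁻¹ * (|Dt| + ∑ i, |D i|)) := by
          refine Finset.sum_le_sum fun i _ => ?_
          rw [abs_mul, abs_mul, mul_assoc]
          refine mul_le_mul_of_nonneg_left ?_ (abs_nonneg _)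
          refine mul_le_mul (hy i) ?_ (abs_nonneg _) (by positivity)
          have := Finset.single_le_sum (f := fun i => |D i|) (fun i _ => abs_nonneg _)
            (Finset.mem_univ i)
          have h3 := abs_nonneg Dt
          linarith
      _ = κ⁻¹ * (∑ i, |r i|) * (|Dt| + ∑ i, |D i|) := by
          rw [← Finset.sum_mul]
          ring
  calc |Dt / (2 * α) - ∑ i, r i * yb i * D i| ≤ |Dt / (2 * α)| + |∑ i, r i * yb i * D i| :=
        abs_sub _ _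
    _ ≤ _ := by
        rw [add_mul]
        exact add_le_add h1 h2

theorem cp_SS {κ α : ℝ} (hκ : 0 < κ) (r yb : Fin m → ℝ) (hy : ∀ i, |yb i| ≤ κ⁻¹) (Dt : ℝ)
    (D : Fin m → ℝ) : |SS α r yb Dt D| ≤
      (1 / (2 * |α|) + κ⁻¹ * ∑ i, |1 - r i|) * (|Dt| + ∑ i, |D i|) := by
  have h := cp_PP (α := α) hκ (fun i => -(1 - r i)) yb hy Dt D
  have e : PP α (fun i => -(1 - r i)) yb Dt D = SS α r yb Dt D := by
    unfold PP SS
    rw [sub_eq_add_neg, ← Finset.sum_neg_distrib]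
    congr 1
    exact Finset.sum_congr rfl fun i _ => by ring
  rw [e] at h
  simpa only [abs_neg] using h

theorem cp_mean {κ α d : ℝ} {r : Fin m → ℝ} {t t' : ℝ} {y y' : Fin m → ℝ}
    (h : Rg κ α d r t y) (h' : Rg κ α d r t' y') (i : Fin m) : |(y i + y' i) / 2| ≤ κ⁻¹ := by
  have h1 := abs_le.1 (h.1 i)
  have h2 := abs_le.1 (h'.1 i)
  rw [abs_le]
  constructor <;> linarith [h1.1, h1.2, h2.1, h2.2]

/-- `A` is Lipschitz. -/
theorem cp_AA_lip {κ α : ℝ} (hκ : 0 < κ) (hκ1 : κ ≤ 1) (hα : α ≠ 0) (r : Fin m → ℝ) :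
    ∃ C : ℝ, 0 < C ∧ ∀ d t y t' y', Rg κ α d r t y → Rg κ α d r t' y' →
      |AA α r t' y' - AA α r t y| ≤ C * nn t y t' y' := by
  refine ⟨(1 / (2 * |α|) + κ⁻¹ * ∑ i, |r i|) / κ, ?_, ?_⟩
  · have : 0 < |α| := abs_pos.2 hα
    have h0 : 0 ≤ ∑ i, |r i| := Finset.sum_nonneg fun i _ => abs_nonneg _
    positivity
  intro d t y t' y' h h'
  have h1 := rr_diff hα r t t' y y'
  have h2 := cp_PP (α := α) hκ r (fun i => (y i + y' i) / 2) (cp_mean h h') (t' - t)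
    fun i => y' i - y i
  have h3 : AA α r t y ^ 2 = rr α r t y := Real.sq_sqrt (hκ.le.trans h.2.1)
  have h4 : AA α r t' y' ^ 2 = rr α r t' y' := Real.sq_sqrt (hκ.le.trans h'.2.1)
  obtain ⟨h5, -⟩ := cp_AA hκ hκ1 h
  obtain ⟨h6, -⟩ := cp_AA hκ hκ1 h'
  rw [← h3, ← h4] at h1
  have h7 : (AA α r t' y' - AA α r t y) * ((AA α r t' y' + AA α r t y) / 2) =
      PP α r (fun i => (y i + y' i) / 2) (t' - t) fun i => y' i - y i := by linarith
  have h8 : |AA α r t' y' - AA α r t y| * κ ≤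
      (1 / (2 * |α|) + κ⁻¹ * ∑ i, |r i|) * nn t y t' y' := by
    refine le_trans ?_ h2
    rw [← h7, abs_mul]
    refine mul_le_mul_of_nonneg_left ?_ (abs_nonneg _)
    rw [abs_of_nonneg (by linarith)]
    linarith
  rw [div_mul_eq_mul_div, le_div_iff₀ hκ]
  exact h8

/-- `U` is Lipschitz. -/
theorem cp_UU_lip {κ α : ℝ} (hκ : 0 < κ) (hκ1 : κ ≤ 1) (hα : α ≠ 0) (r : Fin m → ℝ) :
    ∃ C : ℝ, 0 < C ∧ ∀ d, 0 ≤ d → d ≤ 1 → ∀ t y t' y', Rg κ α d r t y → Rg κ α d r t' y' →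
      ∀ w1 w wn, |w1| ≤ 8 → |wn| ≤ 8 → ∀ i,
      |UU α d r w1 wn w t' y' i - UU α d r w1 wn w t y i| ≤ C * nn t y t' y' := by
  set CP : ℝ := 1 / (2 * |α|) + κ⁻¹ * ∑ i, |r i| with hCP
  set CS : ℝ := 1 / (2 * |α|) + κ⁻¹ * ∑ i, |1 - r i| with hCS
  set R1 : ℝ := 1 + ∑ i, |r i| + ∑ i, |1 - r i| with hR1
  have hs0 : 0 ≤ ∑ i, |r i| := Finset.sum_nonneg fun i _ => abs_nonneg _
  have hs1 : 0 ≤ ∑ i, |1 - r i| := Finset.sum_nonneg fun i _ => abs_nonneg _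
  have hα0 : 0 < |α| := abs_pos.2 hα
  have hCP0 : 0 < CP := by positivity
  have hCS0 : 0 < CS := by positivity
  have hR0 : 0 < R1 := by positivity
  have hri : ∀ i, |r i| ≤ R1 := fun i => by
    have := Finset.single_le_sum (f := fun i => |r i|) (fun i _ => abs_nonneg _)
      (Finset.mem_univ i)
    linarith
  have hri1 : ∀ i, |1 - r i| ≤ R1 := fun i => by
    have := Finset.single_le_sum (f := fun i => |1 - r i|) (fun i _ => abs_nonneg _)
      (Finset.mem_univ i)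
    linarith
  refine ⟨R1 * (8 * κ⁻¹) + R1 * (8 * κ⁻¹) + κ⁻¹ * (R1 * (8 / κ ^ 3) * CP + R1 * (8 / κ ^ 3) * CS),
    by positivity, ?_⟩
  intro d hd0 hd1 t y t' y' h h' w1 w wn hw1 hwn i
  rw [D1 hα r t t' y y' (hκ.trans_le h.2.1) (hκ.trans_le h'.2.1) (hκ.trans_le h.2.2.2)
    (hκ.trans_le h'.2.2.2) w1 wn w i]
  have hP := cp_PP (α := α) hκ r (fun i => (y i + y' i) / 2) (cp_mean h h') (t' - t)
    fun i => y' i - y i
  have hS := cp_SS (α := α) hκ r (fun i => (y i + y' i) / 2) (cp_mean h h') (t' - t)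
    fun i => y' i - y i
  obtain ⟨a1, -⟩ := cp_AA hκ hκ1 h
  obtain ⟨a2, -⟩ := cp_AA hκ hκ1 h'
  obtain ⟨b1, -⟩ := cp_HH hκ hκ1 h
  obtain ⟨b2, -⟩ := cp_HH hκ hκ1 h'
  have hAp : 0 < AA α r t y := hκ.trans_le a1
  have hAp' : 0 < AA α r t' y' := hκ.trans_le a2
  have hHp : 0 < HH α d r t y := hκ.trans_le b1
  have hHp' : 0 < HH α d r t' y' := hκ.trans_le b2
  have hn0 : 0 ≤ nn t y t' y' := by unfold nn; positivity
  have hDi : |y' i - y i| ≤ nn t y t' y' := by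
    have := Finset.single_le_sum (f := fun i => |y' i - y i|) (fun i _ => abs_nonneg _)
      (Finset.mem_univ i)
    unfold nn
    linarith [abs_nonneg (t' - t)]
  have hL : |LL α d r w1 wn t y i| ≤ R1 * (8 * κ⁻¹) + R1 * (8 * κ⁻¹) := by
    unfold LL
    refine (abs_sub _ _).trans (add_le_add ?_ ?_)
    · rw [abs_mul, abs_div, abs_of_pos hHp]
      refine mul_le_mul (hri1 i) ?_ (by positivity) hR0.le
      rw [div_eq_mul_inv]
      exact mul_le_mul hwn ((inv_le_inv₀ hHp hκ).2 b1) (by positivity) (by norm_num)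
    · rw [abs_mul, abs_div, abs_of_pos hAp]
      refine mul_le_mul (hri i) ?_ (by positivity) hR0.le
      rw [div_eq_mul_inv]
      exact mul_le_mul hw1 ((inv_le_inv₀ hAp hκ).2 a1) (by positivity) (by norm_num)
  have ha3 : |a3c α r w1 t y t' y'| ≤ 8 / κ ^ 3 := by
    unfold a3c
    rw [abs_div, abs_of_pos (by positivity : 0 < AA α r t y * AA α r t' y' *
      (AA α r t y + AA α r t' y')), abs_mul, abs_two, div_le_div_iff₀ (by positivity) (by positivity)]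
    have h1 : κ * κ * (κ + κ) ≤ AA α r t y * AA α r t' y' * (AA α r t y + AA α r t' y') := by
      gcongr
    have h2 : 2 * |w1| * κ ^ 3 ≤ 8 * (κ * κ * (κ + κ)) := by
      have : 0 ≤ κ ^ 3 := by positivity
      nlinarith
    linarith
  have hc3 : |c3c α d r wn t y t' y'| ≤ 8 / κ ^ 3 := by
    unfold c3c
    rw [abs_div, abs_of_pos (by positivity : 0 < HH α d r t y * HH α d r t' y' *
      (HH α d r t y + HH α d r t' y')), abs_mul, abs_mul, abs_two, abs_of_nonneg (sq_nonneg d),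
      div_le_div_iff₀ (by positivity) (by positivity)]
    have h1 : κ * κ * (κ + κ) ≤ HH α d r t y * HH α d r t' y' * (HH α d r t y + HH α d r t' y') := by
      gcongr
    have h0 : d ^ 2 ≤ 1 := by nlinarith
    have h2 : 2 * d ^ 2 * |wn| * κ ^ 3 ≤ 8 * (κ * κ * (κ + κ)) := by
      have h3 : 0 ≤ κ ^ 3 := by positivity
      have h4 : d ^ 2 * |wn| ≤ 1 * 8 := mul_le_mul h0 hwn (abs_nonneg _) (by norm_num)
      nlinarith
    linarith
  have hP' : |PP α r (fun i => (y i + y' i) / 2) (t' - t) fun i => y' i - y i| ≤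
      CP * nn t y t' y' := hP
  have hS' : |SS α r (fun i => (y i + y' i) / 2) (t' - t) fun i => y' i - y i| ≤
      CS * nn t y t' y' := hS
  unfold Row
  calc |LL α d r w1 wn t y i * (y' i - y i) + y' i * (r i * a3c α r w1 t y t' y' *
        PP α r (fun i => (y i + y' i) / 2) (t' - t) (fun i => y' i - y i) +
        (1 - r i) * c3c α d r wn t y t' y' *
        SS α r (fun i => (y i + y' i) / 2) (t' - t) (fun i => y' i - y i))|
      ≤ |LL α d r w1 wn t y i| * |y' i - y i| + |y' i| * (|r i| * |a3c α r w1 t y t' y'| *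
        |PP α r (fun i => (y i + y' i) / 2) (t' - t) (fun i => y' i - y i)| +
        |1 - r i| * |c3c α d r wn t y t' y'| *
        |SS α r (fun i => (y i + y' i) / 2) (t' - t) (fun i => y' i - y i)|) := by
        refine (abs_add_le _ _).trans ?_
        rw [abs_mul, abs_mul]
        gcongr
        refine (abs_add_le _ _).trans ?_
        rw [abs_mul, abs_mul, abs_mul, abs_mul]
    _ ≤ (R1 * (8 * κ⁻¹) + R1 * (8 * κ⁻¹)) * nn t y t' y' + κ⁻¹ *
        (R1 * (8 / κ ^ 3) * (CP * nn t y t' y') + R1 * (8 / κ ^ 3) * (CS * nn t y t' y')) := by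
        have hyi := h'.1 i
        gcongr
        · exact hri i
        · exact hri1 i
    _ = _ := by ring

/-- `p` is a Lipschitz function of `(A, y)`. -/
theorem cp_low {κ α : ℝ} (hκ : 0 < κ) (hκ1 : κ ≤ 1) (hα : α ≠ 0) (r : Fin m → ℝ) :
    ∃ C : ℝ, 0 < C ∧ ∀ d t y t' y', Rg κ α d r t y → Rg κ α d r t' y' →
      nn t y t' y' ≤ C * (|AA α r t' y' - AA α r t y| + ∑ i, |y' i - y i|) := by
  have hs0 : 0 ≤ ∑ i, |r i| := Finset.sum_nonneg fun i _ => abs_nonneg _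
  have hα0 : 0 < |α| := abs_pos.2 hα
  refine ⟨|α| * (2 * κ⁻¹) + |α| * (2 * κ⁻¹ * ∑ i, |r i|) + 1, by positivity, ?_⟩
  intro d t y t' y' h h'
  have h3 : AA α r t y ^ 2 = rr α r t y := Real.sq_sqrt (hκ.le.trans h.2.1)
  have h4 : AA α r t' y' ^ 2 = rr α r t' y' := Real.sq_sqrt (hκ.le.trans h'.2.1)
  obtain ⟨a1, a2⟩ := cp_AA hκ hκ1 h
  obtain ⟨a3, a4⟩ := cp_AA hκ hκ1 h'
  have ht : t' - t = α * ((AA α r t' y' - AA α r t y) * (AA α r t' y' + AA α r t y) +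
      ∑ i, r i * ((y' i - y i) * (y' i + y i))) := by
    have e : ∑ i, r i * ((y' i - y i) * (y' i + y i)) =
        ∑ i, r i * y' i ^ 2 - ∑ i, r i * y i ^ 2 := by
      rw [← Finset.sum_sub_distrib]
      exact Finset.sum_congr rfl fun i _ => by ring
    have e2 : (AA α r t' y' - AA α r t y) * (AA α r t' y' + AA α r t y) =
        rr α r t' y' - rr α r t y := by rw [← h3, ← h4]; ring
    rw [e, e2]
    unfold rr
    field_simp
    ring
  set X : ℝ := |AA α r t' y' - AA α r t y| with hX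
  set S : ℝ := ∑ i, |y' i - y i| with hS
  have hX0 : 0 ≤ X := abs_nonneg _
  have hS0 : 0 ≤ S := Finset.sum_nonneg fun i _ => abs_nonneg _
  have hb1 : |(AA α r t' y' - AA α r t y) * (AA α r t' y' + AA α r t y)| ≤ X * (2 * κ⁻¹) := by
    rw [abs_mul]
    refine mul_le_mul_of_nonneg_left ?_ (abs_nonneg _)
    rw [abs_of_nonneg (by linarith)]
    linarith
  have hb2 : |∑ i, r i * ((y' i - y i) * (y' i + y i))| ≤ (∑ i, |r i|) * (S * (2 * κ⁻¹)) := by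
    calc |∑ i, r i * ((y' i - y i) * (y' i + y i))|
        ≤ ∑ i, |r i * ((y' i - y i) * (y' i + y i))| := Finset.abs_sum_le_sum_abs _ _
      _ ≤ ∑ i, |r i| * (S * (2 * κ⁻¹)) := by
          refine Finset.sum_le_sum fun i _ => ?_
          rw [abs_mul, abs_mul]
          refine mul_le_mul_of_nonneg_left ?_ (abs_nonneg _)
          refine mul_le_mul ?_ ?_ (abs_nonneg _) hS0
          · exact Finset.single_le_sum (f := fun i => |y' i - y i|) (fun i _ => abs_nonneg _)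
              (Finset.mem_univ i)
          · have g1 := h.1 i
            have g2 := h'.1 i
            exact (abs_add_le _ _).trans (by linarith)
      _ = _ := by rw [← Finset.sum_mul]
  unfold nn
  rw [ht, abs_mul]
  have hb3 : |(AA α r t' y' - AA α r t y) * (AA α r t' y' + AA α r t y) +
      ∑ i, r i * ((y' i - y i) * (y' i + y i))| ≤ X * (2 * κ⁻¹) + (∑ i, |r i|) * (S * (2 * κ⁻¹)) :=
    (abs_add_le _ _).trans (add_le_add hb1 hb2)
  have hk0 : 0 < κ⁻¹ := by positivity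
  have hb4 := mul_le_mul_of_nonneg_left hb3 hα0.le
  have p1 : 0 ≤ |α| * (2 * κ⁻¹) * S := by positivity
  have p2 : 0 ≤ |α| * (2 * κ⁻¹ * ∑ i, |r i|) * X := by positivity
  have e3 : (|α| * (2 * κ⁻¹) + |α| * (2 * κ⁻¹ * ∑ i, |r i|) + 1) * (X + S) =
      |α| * (X * (2 * κ⁻¹) + (∑ i, |r i|) * (S * (2 * κ⁻¹))) + |α| * (2 * κ⁻¹) * S +
        |α| * (2 * κ⁻¹ * ∑ i, |r i|) * X + X + S := by ring
  rw [e3]
  linarith

/-- The quadric. -/
theorem cp_quad {κ α d : ℝ} (hκ : 0 < κ) {r : Fin m → ℝ} {t : ℝ} {y : Fin m → ℝ}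
    (h : Rg κ α d r t y) :
    AA α r t y ^ 2 + ∑ i, y i ^ 2 + d ^ 2 * hh α d r t y ^ 2 = 2 * hh α d r t y := by
  have h3 : AA α r t y ^ 2 = rr α r t y := Real.sq_sqrt (hκ.le.trans h.2.1)
  have h4 : HH α d r t y ^ 2 = 1 - d ^ 2 * ss α r t y := Real.sq_sqrt (hκ.le.trans h.2.2.2)
  have h5 : 0 ≤ HH α d r t y := Real.sqrt_nonneg _
  have h6 : ss α r t y = hh α d r t y * (1 + HH α d r t y) := by
    unfold hh
    field_simp
  have h7 : d ^ 2 * hh α d r t y = 1 - HH α d r t y := by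
    have h8 : (1 + HH α d r t y) * (d ^ 2 * hh α d r t y - (1 - HH α d r t y)) = 0 := by
      have : d ^ 2 * (hh α d r t y * (1 + HH α d r t y)) = 1 - HH α d r t y ^ 2 := by
        rw [← h6]; linarith
      linarith [this, sq (HH α d r t y)]
    rcases mul_eq_zero.1 h8 with h9 | h9 <;> linarith
  rw [h3, ← cp_ss_eq, h6]
  have e : d ^ 2 * hh α d r t y ^ 2 = (d ^ 2 * hh α d r t y) * hh α d r t y := by ring
  rw [e, h7]
  ring

theorem cp_hh {κ α d : ℝ} (hκ : 0 < κ) {r : Fin m → ℝ} {t : ℝ} {y : Fin m → ℝ}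
    (h : Rg κ α d r t y) : 0 ≤ hh α d r t y ∧ hh α d r t y ≤ κ⁻¹ + m * κ⁻¹ ^ 2 := by
  have h5 : 0 ≤ HH α d r t y := Real.sqrt_nonneg _
  have h4 : ∑ i, y i ^ 2 ≤ m * κ⁻¹ ^ 2 := by
    calc ∑ i, y i ^ 2 ≤ ∑ _i : Fin m, κ⁻¹ ^ 2 := by
          refine Finset.sum_le_sum fun i _ => ?_
          rw [← sq_abs]
          exact pow_le_pow_left₀ (abs_nonneg _) (h.1 i) 2
      _ = m * κ⁻¹ ^ 2 := by rw [Finset.sum_const, Finset.card_univ, Fintype.card_fin, nsmul_eq_mul]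
  have h6 : 0 ≤ ∑ i, y i ^ 2 := Finset.sum_nonneg fun i _ => sq_nonneg _
  have h7 : 0 ≤ ss α r t y := by
    rw [cp_ss_eq]
    linarith [h.2.1]
  have h8 : ss α r t y ≤ κ⁻¹ + m * κ⁻¹ ^ 2 := by
    rw [cp_ss_eq]
    linarith [h.2.2.1]
  unfold hh
  refine ⟨by positivity, ?_⟩
  rw [div_le_iff₀ (by positivity)]
  nlinarith

/-- The relation of four points makes the form of two chords small. -/
theorem cp_BB {κ α : ℝ} (hκ : 0 < κ) (hκ1 : κ ≤ 1) (r : Fin m → ℝ) :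
    ∃ C : ℝ, 0 < C ∧ ∀ d, 0 ≤ d → d ≤ 1 → ∀ p1 p2 p3 p4 : ℝ × (Fin m → ℝ),
      Rg κ α d r p1.1 p1.2 → Rg κ α d r p2.1 p2.2 → Rg κ α d r p3.1 p3.2 →
      Rg κ α d r p4.1 p4.2 → ∀ e, 0 ≤ e →
      |AA α r p1.1 p1.2 + AA α r p2.1 p2.2 - AA α r p3.1 p3.2 - AA α r p4.1 p4.2| ≤ e →
      (∀ i, |p1.2 i + p2.2 i - p3.2 i - p4.2 i| ≤ e) →
      |hh α d r p1.1 p1.2 + hh α d r p2.1 p2.2 - hh α d r p3.1 p3.2 - hh α d r p4.1 p4.2| ≤ e →
      |BB α d r p1.1 p1.2 p3.1 p3.2 p4.1 p4.2| ≤ C * e := by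
  set G : ℝ := κ⁻¹ + m * κ⁻¹ ^ 2 with hG
  have hκi : 0 < κ⁻¹ := by positivity
  have hG0 : 0 < G := by positivity
  refine ⟨1 + (3 * κ⁻¹ + m * (3 * κ⁻¹) + 3 * G) + (4 * κ⁻¹ + m * (4 * κ⁻¹) + 4 * G),
    by positivity, ?_⟩
  intro d hd0 hd1 p1 p2 p3 p4 h1 h2 h3 h4 e he0 hA hy hh'
  have q1 := cp_quad hκ h1
  have q2 := cp_quad hκ h2
  have q3 := cp_quad hκ h3
  have q4 := cp_quad hκ h4
  obtain ⟨a1, a1'⟩ := cp_AA hκ hκ1 h1
  obtain ⟨a2, a2'⟩ := cp_AA hκ hκ1 h2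
  obtain ⟨a3, a3'⟩ := cp_AA hκ hκ1 h3
  obtain ⟨a4, a4'⟩ := cp_AA hκ hκ1 h4
  obtain ⟨g1, g1'⟩ := cp_hh hκ h1
  obtain ⟨g2, g2'⟩ := cp_hh hκ h2
  obtain ⟨g3, g3'⟩ := cp_hh hκ h3
  obtain ⟨g4, g4'⟩ := cp_hh hκ h4
  have y1 := h1.1
  have y2 := h2.1
  have y3 := h3.1
  have y4 := h4.1
  unfold BB
  generalize AA α r p1.1 p1.2 = A1 at *
  generalize AA α r p2.1 p2.2 = A2 at *
  generalize AA α r p3.1 p3.2 = A3 at *
  generalize AA α r p4.1 p4.2 = A4 at *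
  generalize hh α d r p1.1 p1.2 = H1 at *
  generalize hh α d r p2.1 p2.2 = H2 at *
  generalize hh α d r p3.1 p3.2 = H3 at *
  generalize hh α d r p4.1 p4.2 = H4 at *
  generalize p1.2 = z1 at *
  generalize p2.2 = z2 at *
  generalize p3.2 = z3 at *
  generalize p4.2 = z4 at *
  have hS : ∑ i, z2 i ^ 2 = ∑ i, z3 i ^ 2 + ∑ i, z4 i ^ 2 - ∑ i, z1 i ^ 2 +
      2 * ∑ i, (z3 i - z1 i) * (z4 i - z1 i) +
      2 * ∑ i, (z1 i + z2 i - z3 i - z4 i) * (z3 i + z4 i - z1 i) +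
      ∑ i, (z1 i + z2 i - z3 i - z4 i) ^ 2 := by
    rw [Finset.mul_sum, Finset.mul_sum, ← Finset.sum_add_distrib, ← Finset.sum_sub_distrib,
      ← Finset.sum_add_distrib, ← Finset.sum_add_distrib, ← Finset.sum_add_distrib]
    exact Finset.sum_congr rfl fun i _ => by ring
  have b1 : |∑ i, (z1 i + z2 i - z3 i - z4 i) * (z3 i + z4 i - z1 i)| ≤ m * (3 * κ⁻¹) * e := by
    calc |∑ i, (z1 i + z2 i - z3 i - z4 i) * (z3 i + z4 i - z1 i)|
        ≤ ∑ i, |(z1 i + z2 i - z3 i - z4 i) * (z3 i + z4 i - z1 i)| := Finset.abs_sum_le_sum_abs _ _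
      _ ≤ ∑ _i : Fin m, e * (3 * κ⁻¹) := by
          refine Finset.sum_le_sum fun i _ => ?_
          rw [abs_mul]
          refine mul_le_mul (hy i) ?_ (abs_nonneg _) he0
          have c1 := abs_le.1 (y1 i)
          have c3 := abs_le.1 (y3 i)
          have c4 := abs_le.1 (y4 i)
          rw [abs_le]
          constructor <;> linarith [c1.1, c1.2, c3.1, c3.2, c4.1, c4.2]
      _ = _ := by
          rw [Finset.sum_const, Finset.card_univ, Fintype.card_fin, nsmul_eq_mul]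
          ring
  have b2 : |∑ i, (z1 i + z2 i - z3 i - z4 i) ^ 2| ≤ m * (4 * κ⁻¹) * e := by
    calc |∑ i, (z1 i + z2 i - z3 i - z4 i) ^ 2|
        ≤ ∑ i, |(z1 i + z2 i - z3 i - z4 i) ^ 2| := Finset.abs_sum_le_sum_abs _ _
      _ ≤ ∑ _i : Fin m, 4 * κ⁻¹ * e := by
          refine Finset.sum_le_sum fun i _ => ?_
          rw [abs_pow, sq]
          refine mul_le_mul ?_ (hy i) (abs_nonneg _) (by positivity)
          have c1 := abs_le.1 (y1 i)
          have c2 := abs_le.1 (y2 i)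
          have c3 := abs_le.1 (y3 i)
          have c4 := abs_le.1 (y4 i)
          rw [abs_le]
          constructor <;> linarith [c1.1, c1.2, c2.1, c2.2, c3.1, c3.2, c4.1, c4.2]
      _ = _ := by
          rw [Finset.sum_const, Finset.card_univ, Fintype.card_fin, nsmul_eq_mul]
          ring
  have b3 : |(A1 + A2 - A3 - A4) * (A3 + A4 - A1)| ≤ 3 * κ⁻¹ * e := by
    rw [abs_mul, mul_comm]
    refine mul_le_mul ?_ hA (abs_nonneg _) (by positivity)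
    rw [abs_le]
    constructor <;> linarith
  have b4 : |(A1 + A2 - A3 - A4) ^ 2| ≤ 4 * κ⁻¹ * e := by
    rw [abs_pow, sq]
    refine mul_le_mul ?_ hA (abs_nonneg _) (by positivity)
    rw [abs_le]
    constructor <;> linarith
  have hd2 : d ^ 2 ≤ 1 := by nlinarith
  have b5 : |d ^ 2 * ((H1 + H2 - H3 - H4) * (H3 + H4 - H1))| ≤ 3 * G * e := by
    rw [abs_mul, abs_mul, abs_of_nonneg (sq_nonneg d)]
    have c1 : |H3 + H4 - H1| ≤ 3 * G := by
      rw [abs_le]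
      constructor <;> linarith
    have c2 : |H1 + H2 - H3 - H4| * |H3 + H4 - H1| ≤ e * (3 * G) :=
      mul_le_mul hh' c1 (abs_nonneg _) he0
    calc d ^ 2 * (|H1 + H2 - H3 - H4| * |H3 + H4 - H1|) ≤ 1 * (e * (3 * G)) :=
          mul_le_mul hd2 c2 (by positivity) (by norm_num)
      _ = _ := by ring
  have b6 : |d ^ 2 * (H1 + H2 - H3 - H4) ^ 2| ≤ 4 * G * e := by
    rw [abs_mul, abs_of_nonneg (sq_nonneg d), abs_pow]
    have c2 : |H1 + H2 - H3 - H4| ^ 2 ≤ 4 * G * e := by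
      rw [sq]
      refine mul_le_mul ?_ hh' (abs_nonneg _) (by positivity)
      rw [abs_le]
      constructor <;> linarith
    calc d ^ 2 * |H1 + H2 - H3 - H4| ^ 2 ≤ 1 * (4 * G * e) :=
          mul_le_mul hd2 c2 (by positivity) (by norm_num)
      _ = _ := one_mul _
  have key : 2 * ((A3 - A1) * (A4 - A1) + ∑ i, (z3 i - z1 i) * (z4 i - z1 i) +
      d ^ 2 * ((H3 - H1) * (H4 - H1))) = 2 * (H1 + H2 - H3 - H4) -
      2 * ((A1 + A2 - A3 - A4) * (A3 + A4 - A1)) -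
      2 * (∑ i, (z1 i + z2 i - z3 i - z4 i) * (z3 i + z4 i - z1 i)) -
      2 * (d ^ 2 * ((H1 + H2 - H3 - H4) * (H3 + H4 - H1))) -
      (A1 + A2 - A3 - A4) ^ 2 - ∑ i, (z1 i + z2 i - z3 i - z4 i) ^ 2 -
      d ^ 2 * (H1 + H2 - H3 - H4) ^ 2 := by
    linear_combination q1 + q2 - q3 - q4 - hS
  have i1 := abs_le.1 b1
  have i2 := abs_le.1 b2
  have i3 := abs_le.1 b3
  have i4 := abs_le.1 b4
  have i5 := abs_le.1 b5
  have i6 := abs_le.1 b6
  have i7 := abs_le.1 hh'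
  have m0 : (0 : ℝ) ≤ m * (4 * κ⁻¹) * e := by positivity
  have m1 : 0 ≤ 4 * κ⁻¹ * e := by positivity
  have m2 : 0 ≤ 4 * G * e := by positivity
  rw [abs_le]
  constructor <;> linarith [i1.1, i1.2, i2.1, i2.2, i3.1, i3.2, i4.1, i4.2, i5.1, i5.2, i6.1, i6.2,
    i7.1, i7.2]

end Pool.Agent.LQN
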