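import Pool.Agent.LQN.CNTP1

/-!
LQN, row CNTP: the count of the related pairs at one frequency, over RE and VOL.
-/

set_option autoImplicit false

namespace Pool.Agent.LQN

open MeasureTheory Set Metric
open scoped ENNReal

variable {m : ℕ}

/-- Four related points: `Y p1 + Y p2 - Y p3 - Y p4` is small in each coordinate. -/
def CpRel (α d : ℝ) (r : Fin m → ℝ) (e : ℝ) (p1 p2 p3 p4 : ℝ × (Fin m → ℝ)) : Prop :=
  |AA α r p1.1 p1.2 + AA α r p2.1 p2.2 - AA α r p3.1 p3.2 - AA α r p4.1 p4.2| ≤ e ∧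
  (∀ i, |p1.2 i + p2.2 i - p3.2 i - p4.2 i| ≤ e) ∧
  |hh α d r p1.1 p1.2 + hh α d r p2.1 p2.2 - hh α d r p3.1 p3.2 - hh α d r p4.1 p4.2| ≤ e

theorem CpRel.symm {α d : ℝ} {r : Fin m → ℝ} {e : ℝ} {p1 p2 p3 p4 : ℝ × (Fin m → ℝ)}
    (h : CpRel α d r e p1 p2 p3 p4) : CpRel α d r e p1 p2 p4 p3 := by
  obtain ⟨h1, h2, h3⟩ := h
  refine ⟨?_, fun i => ?_, ?_⟩
  · rwa [sub_right_comm]
  · have := h2 i
    rwa [sub_right_comm]
  · rwa [sub_right_comm]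

theorem cp_nn_nonneg (t : ℝ) (y : Fin m → ℝ) (t' : ℝ) (y' : Fin m → ℝ) : 0 ≤ nn t y t' y' := by
  unfold nn; positivity

theorem cp_nn_tri (t : ℝ) (y : Fin m → ℝ) (t' : ℝ) (y' : Fin m → ℝ) (t'' : ℝ) (y'' : Fin m → ℝ) :
    nn t y t'' y'' ≤ nn t y t' y' + nn t' y' t'' y'' := by
  unfold nn
  have h1 : |t'' - t| ≤ |t' - t| + |t'' - t'| := by
    have : t'' - t = (t' - t) + (t'' - t') := by ring
    rw [this]
    exact abs_add_le _ _
  have h2 : ∑ i, |y'' i - y i| ≤ ∑ i, |y' i - y i| + ∑ i, |y'' i - y' i| := by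
    rw [← Finset.sum_add_distrib]
    refine Finset.sum_le_sum fun i _ => ?_
    have : y'' i - y i = (y' i - y i) + (y'' i - y' i) := by ring
    rw [this]
    exact abs_add_le _ _
  linarith

theorem cp_nn_le (p q : ℝ × (Fin m → ℝ)) : nn p.1 p.2 q.1 q.2 ≤ (m + 1) * ‖q - p‖ := by
  unfold nn
  have h1 : |q.1 - p.1| ≤ ‖q - p‖ := norm_fst_le (q - p)
  have h2 : ∑ i, |q.2 i - p.2 i| ≤ ∑ _i : Fin m, ‖q - p‖ :=
    Finset.sum_le_sum fun i _ => (norm_le_pi_norm (q - p).2 i).trans (norm_snd_le (q - p))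
  rw [Finset.sum_const, Finset.card_univ, Fintype.card_fin, nsmul_eq_mul] at h2
  linarith

theorem cp_le_nn (p q : ℝ × (Fin m → ℝ)) : ‖q - p‖ ≤ nn p.1 p.2 q.1 q.2 := by
  unfold nn
  have h0 : 0 ≤ ∑ i, |q.2 i - p.2 i| := Finset.sum_nonneg fun i _ => abs_nonneg _
  rw [Prod.norm_def]
  refine max_le ?_ ?_
  · show |q.1 - p.1| ≤ _
    linarith
  · rw [pi_norm_le_iff_of_nonneg (by positivity)]
    intro i
    have := Finset.single_le_sum (f := fun i => |q.2 i - p.2 i|) (fun i _ => abs_nonneg _)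
      (Finset.mem_univ i)
    show |q.2 i - p.2 i| ≤ _
    have h1 := abs_nonneg (q.1 - p.1)
    linarith

theorem cp_Bx_mono {c c' t0 t : ℝ} {y0 y : Fin m → ℝ} (hc : c ≤ c') (h : Bx c t0 y0 t y) :
    Bx c' t0 y0 t y :=
  ⟨h.1.trans hc, fun i => (h.2 i).trans (mul_le_mul_of_nonneg_right hc (abs_nonneg _))⟩

/-- The fourth cap is determined. -/
theorem cp_det {κ α : ℝ} (hκ : 0 < κ) (hκ1 : κ ≤ 1) (hα : α ≠ 0) (r : Fin m → ℝ) :
    ∃ C : ℝ, 0 < C ∧ ∀ d s K A, 0 < s → s ≤ 1 → 1 ≤ K → 1 ≤ A →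
      ∀ (ι : Type) (P : ι → ℝ × (Fin m → ℝ)) (T : ι → Set (ℝ × (Fin m → ℝ))),
      (∀ a b, a ≠ b → s ≤ ‖P a - P b‖) →
      (∀ a, ∀ p ∈ T a, ‖p - P a‖ ≤ A * s ∧ Rg κ α d r p.1 p.2) →
      ∀ a b c, ∀ Z : Finset ι, (∀ x ∈ Z, ∃ p1 ∈ T a, ∃ p2 ∈ T b, ∃ p3 ∈ T c, ∃ p4 ∈ T x,
        CpRel α d r ((K * s) ^ 2) p1 p2 p3 p4) → (Z.card : ℝ) ≤ (C * (A * K ^ 2)) ^ (m + 1) := by
  obtain ⟨CA, hCA, hA⟩ := cp_AA_lip hκ hκ1 hα r
  obtain ⟨CL, hCL, hL⟩ := cp_low hκ hκ1 hα r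
  set B4 : ℝ := CL * (2 + 6 * (m + 1) * CA + 8 * m) with hB4
  refine ⟨5 + 2 * B4, by positivity, ?_⟩
  intro d s K A hs hs1 hK hA1 ι P T hP hT a b c Z hZ
  have hK0 : 0 < K := by linarith
  have hA0 : 0 < A := by linarith
  rcases Z.eq_empty_or_nonempty with rfl | ⟨x0, hx0⟩
  · simp only [Finset.card_empty, Nat.cast_zero]
    positivity
  obtain ⟨q1, hq1, q2, hq2, q3, hq3, q4, hq4, hq⟩ := hZ x0 hx0
  have hnear : ∀ c, ∀ p ∈ T c, ∀ q ∈ T c, ‖p - q‖ ≤ 2 * A * s := by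
    intro c p hp q hq
    have e : p - q = (p - P c) - (q - P c) := by abel
    rw [e]
    refine (norm_sub_le _ _).trans ?_
    linarith [(hT c p hp).1, (hT c q hq).1]
  have hAA : ∀ c, ∀ p ∈ T c, ∀ q ∈ T c, |AA α r p.1 p.2 - AA α r q.1 q.2| ≤
      CA * ((m + 1) * (2 * A * s)) := by
    intro c p hp q hq
    refine (hA d _ _ _ _ (hT c q hq).2 (hT c p hp).2).trans ?_
    refine mul_le_mul_of_nonneg_left ?_ hCA.le
    refine (cp_nn_le q p).trans ?_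
    exact mul_le_mul_of_nonneg_left (hnear c p hp q hq) (by positivity)
  have hyy : ∀ c, ∀ p ∈ T c, ∀ q ∈ T c, ∀ i, |p.2 i - q.2 i| ≤ 2 * A * s := by
    intro c p hp q hq i
    exact ((norm_le_pi_norm (p - q).2 i).trans (norm_snd_le (p - q))).trans (hnear c p hp q hq)
  have he : (K * s) ^ 2 ≤ A * K ^ 2 * s := by
    have h1 : (K * s) ^ 2 = 1 * K ^ 2 * (s * s) := by ring
    rw [h1]
    have h2 : s * s ≤ s := by nlinarith
    gcongr
  have hAs : A * s ≤ A * K ^ 2 * s := by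
    have : 1 ≤ K ^ 2 := one_le_pow₀ hK
    calc A * s = A * 1 * s := by ring
      _ ≤ A * K ^ 2 * s := by gcongr
  set X : ℝ := A * K ^ 2 * s with hX
  have hX0 : 0 < X := by positivity
  have hD : ∀ x ∈ Z, ‖P x - P x0‖ ≤ (2 + B4) * X := by
    intro x hx
    obtain ⟨p1, hp1, p2, hp2, p3, hp3, p4, hp4, hp⟩ := hZ x hx
    have hA4 : |AA α r p4.1 p4.2 - AA α r q4.1 q4.2| ≤ 2 * X + 6 * (m + 1) * CA * X := by
      have i1 := abs_le.1 (hAA a p1 hp1 q1 hq1)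
      have i2 := abs_le.1 (hAA b p2 hp2 q2 hq2)
      have i3 := abs_le.1 (hAA c p3 hp3 q3 hq3)
      have i4 := abs_le.1 hp.1
      have i5 := abs_le.1 hq.1
      have i6 : CA * ((m + 1) * (2 * A * s)) ≤ 2 * (m + 1) * CA * X := by
        calc CA * ((m + 1) * (2 * A * s)) = 2 * (m + 1) * CA * (A * s) := by ring
          _ ≤ 2 * (m + 1) * CA * X := by gcongr
      rw [abs_le]
      constructor <;> linarith [i1.1, i1.2, i2.1, i2.2, i3.1, i3.2, i4.1, i4.2, i5.1, i5.2]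
    have hy4 : ∀ i, |p4.2 i - q4.2 i| ≤ 8 * X := by
      intro i
      have i1 := abs_le.1 (hyy a p1 hp1 q1 hq1 i)
      have i2 := abs_le.1 (hyy b p2 hp2 q2 hq2 i)
      have i3 := abs_le.1 (hyy c p3 hp3 q3 hq3 i)
      have i4 := abs_le.1 (hp.2.1 i)
      have i5 := abs_le.1 (hq.2.1 i)
      have i6 : 2 * A * s ≤ 2 * X := by linarith
      rw [abs_le]
      constructor <;> linarith [i1.1, i1.2, i2.1, i2.2, i3.1, i3.2, i4.1, i4.2, i5.1, i5.2]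
    have hn : nn q4.1 q4.2 p4.1 p4.2 ≤ B4 * X := by
      refine (hL d _ _ _ _ (hT x0 q4 hq4).2 (hT x p4 hp4).2).trans ?_
      rw [hB4, mul_assoc]
      refine mul_le_mul_of_nonneg_left ?_ hCL.le
      have h1 : ∑ i, |p4.2 i - q4.2 i| ≤ m * (8 * X) := by
        calc ∑ i, |p4.2 i - q4.2 i| ≤ ∑ _i : Fin m, 8 * X := Finset.sum_le_sum fun i _ => hy4 i
          _ = m * (8 * X) := by
            rw [Finset.sum_const, Finset.card_univ, Fintype.card_fin, nsmul_eq_mul]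
      calc |AA α r p4.1 p4.2 - AA α r q4.1 q4.2| + ∑ i, |p4.2 i - q4.2 i|
          ≤ (2 * X + 6 * (m + 1) * CA * X) + m * (8 * X) := add_le_add hA4 h1
        _ = (2 + 6 * (m + 1) * CA + 8 * m) * X := by ring
    have e : P x - P x0 = -(p4 - P x) + (p4 - q4) + (q4 - P x0) := by abel
    rw [e]
    have j1 := (hT x p4 hp4).1
    have j2 := (hT x0 q4 hq4).1
    have j3 := (cp_le_nn q4 p4).trans hn
    calc ‖-(p4 - P x) + (p4 - q4) + (q4 - P x0)‖ ≤ ‖-(p4 - P x)‖ + ‖p4 - q4‖ + ‖q4 - P x0‖ :=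
          norm_add₃_le
      _ ≤ A * s + B4 * X + A * s := by
          rw [norm_neg]
          gcongr
      _ ≤ (2 + B4) * X := by nlinarith
  have hB40 : 0 < B4 := by positivity
  have h := cv_sep Z P hs (fun a _ b _ hab => hP a b hab) (P x0) (D := (2 + B4) * X)
    (by positivity) hD
  refine h.trans (pow_le_pow_left₀ (by positivity) ?_ _)
  have e2 : (2 + B4) * X / s = (2 + B4) * (A * K ^ 2) := by
    rw [hX]
    field_simp
  rw [e2]
  have h1 : 1 ≤ A * K ^ 2 := by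
    have : 1 ≤ K ^ 2 := one_le_pow₀ hK
    nlinarith
  nlinarith

/-- The caps near a given one. -/
theorem cp_near {κ α : ℝ} (hκ : 0 < κ) (hκ1 : κ ≤ 1) (hα : α ≠ 0) {r : Fin m → ℝ}
    (hbox : ∃ c1 : ℝ, 0 < c1 ∧ c1 ≤ 1 / 8 ∧
      ∀ d, 0 ≤ d → d ≤ 1 → ∀ t0 y0 t y, Rg κ α d r t0 y0 → Bx c1 t0 y0 t y →
        Rg (κ / 4) α d r t y)
    (hvol : ∃ C c1 : ℝ, 0 < C ∧ 0 < c1 ∧ ∀ c0, 0 < c0 → c0 ≤ c1 → ∀ d, 0 ≤ d → d ≤ 1 →
      ∀ t0 y0, Rg κ α d r t0 y0 → ∀ ν, 0 < ν → (∀ i, ν ≤ |y0 i|) → ∀ t y, Bx c0 t0 y0 t y →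
      ∀ w1 w wn, 1 / 16 ≤ ww w1 w wn → ww w1 w wn ≤ 64 → ∀ ρ ε, 0 < ρ → 0 < ε →
        volume {q : ℝ × (Fin m → ℝ) | Bx c0 t0 y0 q.1 q.2 ∧ nn t y q.1 q.2 ≤ ρ ∧
          ∀ i, |UU α d r w1 wn w q.1 q.2 i| ≤ ε} ≤ ENNReal.ofReal (C * ρ * ε ^ m / ν))
    {B1 : ℝ} (hB1 : 0 < B1) :
    ∃ C c1 : ℝ, 0 < C ∧ 0 < c1 ∧ ∀ c0, 0 < c0 → c0 ≤ c1 → ∀ d, 0 ≤ d → d ≤ 1 →
      ∀ t0 y0, Rg κ α d r t0 y0 → ∀ ν, 0 < ν → (∀ i, ν ≤ |y0 i|) → ν ≤ κ⁻¹ →
      ∀ s K A, 0 < s → s ≤ 1 → s ≤ ν → 1 ≤ K → 1 ≤ A →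
      ∀ w1 w wn, 1 / 16 ≤ ww w1 w wn → ww w1 w wn ≤ 64 →
      ∀ (ι : Type) (P : ι → ℝ × (Fin m → ℝ)) (T : ι → Set (ℝ × (Fin m → ℝ))),
      (∀ a b, a ≠ b → s ≤ ‖P a - P b‖) →
      (∀ a, ∀ p ∈ T a, ‖p - P a‖ ≤ A * s ∧ Bx c0 t0 y0 p.1 p.2) →
      ∀ t y, Bx c0 t0 y0 t y → ∀ Z : Finset ι, (∀ x ∈ Z, ∃ p ∈ T x,
        (∀ i, |UU α d r w1 wn w p.1 p.2 i| ≤ K * s) ∧ ν * nn t y p.1 p.2 ≤ B1 * (A * K * s)) →
      (Z.card : ℝ) ≤ C * A ^ (m + 2) * K ^ (m + 1) / ν ^ 2 := by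
  obtain ⟨cb, hcb, -, hbox⟩ := hbox
  obtain ⟨CV, cV, hCV, hcV, hvol⟩ := hvol
  obtain ⟨CU, hCU, hU⟩ := cp_UU_lip (κ := κ / 4) (by positivity) (by linarith) hα r
  set c2 : ℝ := min cb cV with hc2
  have hc20 : 0 < c2 := lt_min hcb hcV
  set B2 : ℝ := B1 + (m + 1) * κ⁻¹ with hB2
  set B3 : ℝ := 1 + CU * (m + 1) with hB3
  have hκi : 0 < κ⁻¹ := by positivity
  have hB20 : 0 < B2 := by positivity
  have hB30 : 0 < B3 := by positivity
  have hmin0 : 0 < min c2 1 := lt_min hc20 one_pos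
  refine ⟨5 ^ (m + 1) * (CV * B2 * B3 ^ m) / min c2 1 ^ (m + 1), min c2 1 / 2, by positivity,
    by positivity, ?_⟩
  intro c0 hc0 hc01 d hd0 hd1 t0 y0 hR ν hν hνy hνκ s K A hs hs1 hsν hK hA w1 w wn hw hw' ι P T hP
    hT t y hty Z hZ
  have hm2 : min c2 1 ≤ c2 := min_le_left _ _
  have hm1 : min c2 1 ≤ 1 := min_le_right _ _
  have hc0c2 : c0 ≤ c2 / 2 := by linarith
  have hK0 : 0 < K := by linarith
  have hA0 : 0 < A := by linarith
  have hw1 : |w1| ≤ 8 := by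
    have : w1 ^ 2 ≤ 8 ^ 2 := by
      unfold ww at hw'
      have := Finset.sum_nonneg fun i (_ : i ∈ Finset.univ) => sq_nonneg (w i)
      nlinarith [sq_nonneg wn]
    exact abs_le_of_sq_le_sq this (by norm_num)
  have hwn : |wn| ≤ 8 := by
    have : wn ^ 2 ≤ 8 ^ 2 := by
      unfold ww at hw'
      have := Finset.sum_nonneg fun i (_ : i ∈ Finset.univ) => sq_nonneg (w i)
      nlinarith [sq_nonneg w1]
    exact abs_le_of_sq_le_sq this (by norm_num)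
  choose! p hpT hpU hpn using hZ
  set σ : ℝ := min c2 1 / 2 * s with hσ
  have hσ0 : 0 < σ := by positivity
  have hσs : σ ≤ s := by nlinarith
  have hσc : σ ≤ c2 / 2 * s := by
    rw [hσ]
    gcongr
  have hRg : ∀ q : ℝ × (Fin m → ℝ), Bx c2 t0 y0 q.1 q.2 → Rg (κ / 4) α d r q.1 q.2 := fun q hq =>
    hbox d hd0 hd1 t0 y0 q.1 q.2 hR (cp_Bx_mono (min_le_left _ _) hq)
  have hsi : s ≤ κ⁻¹ * s / ν := by
    rw [le_div_iff₀ hν, mul_comm s ν]
    exact mul_le_mul_of_nonneg_right hνκ hs.le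
  have hAKs : s ≤ A * K * s := by
    have : 1 ≤ A * K := one_le_mul_of_one_le_of_one_le hA hK
    nlinarith
  have key := cv_near Z P p hs hσ0 hσs hA0.le (fun a _ b _ hab => hP a b hab)
    (fun a ha => (hT a _ (hpT a ha)).1)
    (S := {q : ℝ × (Fin m → ℝ) | Bx c2 t0 y0 q.1 q.2 ∧ nn t y q.1 q.2 ≤ B2 * (A * K * s) / ν ∧
          ∀ i, |UU α d r w1 wn w q.1 q.2 i| ≤ B3 * (K * s)})
    (fun a ha q hq => by
      rw [mem_closedBall, dist_eq_norm] at hq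
      have hpb := (hT a _ (hpT a ha)).2
      have hqb : Bx c2 t0 y0 q.1 q.2 := by
        constructor
        · have h1 : |q.1 - (p a).1| ≤ σ := (norm_fst_le (q - p a)).trans hq
          have h2 := hpb.1
          have e : q.1 - t0 = (q.1 - (p a).1) + ((p a).1 - t0) := by ring
          rw [e]
          refine (abs_add_le _ _).trans ?_
          have : σ ≤ c2 / 2 := by nlinarith
          linarith
        · intro i
          have h1 : |q.2 i - (p a).2 i| ≤ σ :=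
            ((norm_le_pi_norm (q - p a).2 i).trans (norm_snd_le (q - p a))).trans hq
          have h2 := hpb.2 i
          have e : q.2 i - y0 i = (q.2 i - (p a).2 i) + ((p a).2 i - y0 i) := by ring
          rw [e]
          refine (abs_add_le _ _).trans ?_
          have h3 : σ ≤ c2 / 2 * |y0 i| := by
            refine hσc.trans ?_
            gcongr
            exact hsν.trans (hνy i)
          have h4 : c0 * |y0 i| ≤ c2 / 2 * |y0 i| := by gcongr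
          linarith
      have hnq : nn (p a).1 (p a).2 q.1 q.2 ≤ (m + 1) * s :=
        (cp_nn_le (p a) q).trans (mul_le_mul_of_nonneg_left (hq.trans hσs) (by positivity))
      refine ⟨hqb, ?_, fun i => ?_⟩
      · refine (cp_nn_tri t y (p a).1 (p a).2 q.1 q.2).trans ?_
        have h1 : nn t y (p a).1 (p a).2 ≤ B1 * (A * K * s) / ν := by
          rw [le_div_iff₀ hν, mul_comm]
          exact hpn a ha
        have h2 : (m + 1) * s ≤ (m + 1) * κ⁻¹ * (A * K * s) / ν := by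
          calc (m + 1) * s ≤ (m + 1) * (κ⁻¹ * s / ν) :=
                mul_le_mul_of_nonneg_left hsi (by positivity)
            _ = (m + 1) * κ⁻¹ * s / ν := by ring
            _ ≤ (m + 1) * κ⁻¹ * (A * K * s) / ν := by gcongr
        calc nn t y (p a).1 (p a).2 + nn (p a).1 (p a).2 q.1 q.2
            ≤ B1 * (A * K * s) / ν + (m + 1) * κ⁻¹ * (A * K * s) / ν :=
              add_le_add h1 (hnq.trans h2)
          _ = B2 * (A * K * s) / ν := by rw [hB2]; ring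
      · have h1 := hU d hd0 hd1 (p a).1 (p a).2 q.1 q.2
          (hRg _ (cp_Bx_mono (by linarith) hpb)) (hRg q hqb) w1 w wn hw1 hwn i
        have h2 := hpU a ha i
        have h3 : CU * nn (p a).1 (p a).2 q.1 q.2 ≤ CU * (m + 1) * (K * s) := by
          have : (m + 1) * s ≤ (m + 1) * (K * s) := by
            have : s ≤ K * s := by nlinarith
            gcongr
          calc CU * nn (p a).1 (p a).2 q.1 q.2 ≤ CU * ((m + 1) * (K * s)) :=
                mul_le_mul_of_nonneg_left (hnq.trans this) hCU.le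
            _ = _ := by ring
        have e : UU α d r w1 wn w q.1 q.2 i = (UU α d r w1 wn w q.1 q.2 i -
            UU α d r w1 wn w (p a).1 (p a).2 i) + UU α d r w1 wn w (p a).1 (p a).2 i := by ring
        rw [e]
        refine (abs_add_le _ _).trans ?_
        rw [hB3]
        linarith)
    (V := CV * (B2 * (A * K * s) / ν) * (B3 * (K * s)) ^ m / ν) (by positivity)
    (hvol c2 hc20 (min_le_right _ _) d hd0 hd1 t0 y0 hR ν hν hνy t y
      (cp_Bx_mono (by linarith) hty) w1 w wn hw hw' _ _ (by positivity) (by positivity))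
  refine key.trans ?_
  have h5 : (2 * A + 3) ^ (m + 1) ≤ (5 * A) ^ (m + 1) :=
    pow_le_pow_left₀ (by positivity) (by linarith) _
  have e1 : 2 * σ = min c2 1 * s := by rw [hσ]; ring
  rw [e1]
  calc (2 * A + 3) ^ (m + 1) * (CV * (B2 * (A * K * s) / ν) * (B3 * (K * s)) ^ m / ν) /
        (min c2 1 * s) ^ (m + 1)
      ≤ (5 * A) ^ (m + 1) * (CV * (B2 * (A * K * s) / ν) * (B3 * (K * s)) ^ m / ν) /
        (min c2 1 * s) ^ (m + 1) := by gcongr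
    _ = 5 ^ (m + 1) * (CV * B2 * B3 ^ m) / min c2 1 ^ (m + 1) * A ^ (m + 2) * K ^ (m + 1) /
        ν ^ 2 := by
        rw [mul_pow (min c2 1) s, mul_pow 5 A, mul_pow B3, mul_pow K s]
        field_simp
        ring

end Pool.Agent.LQN
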