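import Pool.Agent.LQN.CNTP2

/-!
LQN, row CNTP: the count of the related pairs at one frequency, over RE and VOL.
-/

set_option autoImplicit false

namespace Pool.Agent.LQN

open MeasureTheory Set Metric
open scoped ENNReal

variable {m : ℕ}

/-- The count over RE and VOL. -/
theorem cntp_of (hm : 1 ≤ m) {α : ℝ} {r : Fin m → ℝ} (h : Hyp α r) {κ : ℝ} (hκ : 0 < κ)
    (hκ1 : κ ≤ 1)
    (hbox : ∃ c1 : ℝ, 0 < c1 ∧ c1 ≤ 1 / 8 ∧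
      ∀ d, 0 ≤ d → d ≤ 1 → ∀ t0 y0 t y, Rg κ α d r t0 y0 → Bx c1 t0 y0 t y →
        Rg (κ / 4) α d r t y)
    (hre : ∃ c M c1 : ℝ, 0 < c ∧ 1 ≤ M ∧ 0 < c1 ∧ ∀ c0, 0 < c0 → c0 ≤ c1 → ∀ d, 0 ≤ d → d ≤ 1 →
      ∀ t0 y0, Rg κ α d r t0 y0 → ∀ ν, 0 < ν → (∀ i, ν ≤ |y0 i|) →
      ∀ t y t' y' t'' y'', Bx c0 t0 y0 t y → Bx c0 t0 y0 t' y' → Bx c0 t0 y0 t'' y'' →
      ∀ w1 w wn ε, 0 ≤ ε → 1 / 16 ≤ ww w1 w wn → ww w1 w wn ≤ 64 →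
        (∀ i, |UU α d r w1 wn w t y i| ≤ ε) → (∀ i, |UU α d r w1 wn w t' y' i| ≤ ε) →
        (∀ i, |UU α d r w1 wn w t'' y'' i| ≤ ε) → M * ε ≤ ν * nn t y t' y' →
        M * ε ≤ ν * nn t y t'' y'' →
        c * (nn t y t' y' * nn t y t'' y'') ≤ |BB α d r t y t' y' t'' y''|)
    (hvol : ∃ C c1 : ℝ, 0 < C ∧ 0 < c1 ∧ ∀ c0, 0 < c0 → c0 ≤ c1 → ∀ d, 0 ≤ d → d ≤ 1 →
      ∀ t0 y0, Rg κ α d r t0 y0 → ∀ ν, 0 < ν → (∀ i, ν ≤ |y0 i|) → ∀ t y, Bx c0 t0 y0 t y →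
      ∀ w1 w wn, 1 / 16 ≤ ww w1 w wn → ww w1 w wn ≤ 64 → ∀ ρ ε, 0 < ρ → 0 < ε →
        volume {q : ℝ × (Fin m → ℝ) | Bx c0 t0 y0 q.1 q.2 ∧ nn t y q.1 q.2 ≤ ρ ∧
          ∀ i, |UU α d r w1 wn w q.1 q.2 i| ≤ ε} ≤ ENNReal.ofReal (C * ρ * ε ^ m / ν)) :
    ∃ C c1 : ℝ, 0 < C ∧ 0 < c1 ∧ ∀ c0, 0 < c0 → c0 ≤ c1 → ∀ d, 0 ≤ d → d ≤ 1 →
      ∀ t0 y0, Rg κ α d r t0 y0 → ∀ ν, 0 < ν → (∀ i, ν ≤ |y0 i|) →
      ∀ s K A, 0 < s → s ≤ 1 → s ≤ ν → 1 ≤ K → 1 ≤ A →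
      ∀ w1 w wn, 1 / 16 ≤ ww w1 w wn → ww w1 w wn ≤ 64 →
      ∀ (ι : Type) [Fintype ι] (P : ι → ℝ × (Fin m → ℝ)) (T : ι → Set (ℝ × (Fin m → ℝ))),
      (∀ a b, a ≠ b → s ≤ ‖P a - P b‖) →
      (∀ a, ∀ p ∈ T a, ‖p - P a‖ ≤ A * s ∧ Bx c0 t0 y0 p.1 p.2) →
      ∀ a b, ({q : ι × ι | ∃ p1 ∈ T a, ∃ p2 ∈ T b, ∃ p3 ∈ T q.1, ∃ p4 ∈ T q.2,
        (∀ i, |UU α d r w1 wn w p1.1 p1.2 i| ≤ K * s) ∧
        (∀ i, |UU α d r w1 wn w p2.1 p2.2 i| ≤ K * s) ∧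
        (∀ i, |UU α d r w1 wn w p3.1 p3.2 i| ≤ K * s) ∧
        (∀ i, |UU α d r w1 wn w p4.1 p4.2 i| ≤ K * s) ∧
        CpRel α d r ((K * s) ^ 2) p1 p2 p3 p4}.ncard : ℝ) ≤
          C * A ^ (2 * m + 3) * K ^ (3 * m + 3) / ν ^ 2 := by
  have hα := h.α0
  have hκi : 0 < κ⁻¹ := by positivity
  have hκi1 : 1 ≤ κ⁻¹ := (one_le_inv₀ hκ).2 hκ1
  obtain ⟨CB, hCB, hBB⟩ := cp_BB (m := m) (κ := κ / 4) (α := α) (by positivity) (by linarith) r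
  obtain ⟨CD, hCD, hdet⟩ := cp_det (m := m) (κ := κ / 4) (by positivity) (by linarith) hα r
  obtain ⟨cR, M, c1R, hcR, hM, hc1R, hRE⟩ := hre
  set M' : ℝ := M + CB * κ⁻¹ ^ 2 / cR with hM'
  have hM'1 : M ≤ M' := by
    have : 0 ≤ CB * κ⁻¹ ^ 2 / cR := by positivity
    linarith
  have hM'0 : 0 < M' := by linarith
  set B1 : ℝ := M' + (m + 1) * (2 * κ⁻¹) with hB1
  have hB10 : 0 < B1 := by positivity
  obtain ⟨CN, c1N, hCN, hc1N, hnear⟩ := cp_near hκ hκ1 hα hbox hvol hB10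
  obtain ⟨cb, hcb, -, hbox⟩ := hbox
  refine ⟨2 * CN * CD ^ (m + 1), min (min cb c1R) c1N, by positivity, by positivity, ?_⟩
  intro c0 hc0 hc01 d hd0 hd1 t0 y0 hR ν hν hνy s K A hs hs1 hsν hK hA w1 w wn hw hw' ι _ P T hP hT
    a b
  have hc0b : c0 ≤ cb := hc01.trans ((min_le_left _ _).trans (min_le_left _ _))
  have hc0R : c0 ≤ c1R := hc01.trans ((min_le_left _ _).trans (min_le_right _ _))
  have hc0N : c0 ≤ c1N := hc01.trans (min_le_right _ _)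
  have hK0 : 0 < K := by linarith
  have hA0 : 0 < A := by linarith
  have hKs : 0 < K * s := by positivity
  have hνκ : ν ≤ κ⁻¹ := (hνy ⟨0, hm⟩).trans (hR.1 ⟨0, hm⟩)
  have hRg : ∀ a, ∀ p ∈ T a, Rg (κ / 4) α d r p.1 p.2 := fun a p hp =>
    hbox d hd0 hd1 t0 y0 p.1 p.2 hR (cp_Bx_mono hc0b (hT a p hp).2)
  set Q : ι × ι → Prop := fun q => ∃ p1 ∈ T a, ∃ p2 ∈ T b, ∃ p3 ∈ T q.1, ∃ p4 ∈ T q.2,
        (∀ i, |UU α d r w1 wn w p1.1 p1.2 i| ≤ K * s) ∧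
        (∀ i, |UU α d r w1 wn w p2.1 p2.2 i| ≤ K * s) ∧
        (∀ i, |UU α d r w1 wn w p3.1 p3.2 i| ≤ K * s) ∧
        (∀ i, |UU α d r w1 wn w p4.1 p4.2 i| ≤ K * s) ∧
        CpRel α d r ((K * s) ^ 2) p1 p2 p3 p4 with hQ
  show ({q : ι × ι | Q q}.ncard : ℝ) ≤ _
  by_cases hne : ∃ q, Q q
  swap
  · have : {q : ι × ι | Q q} = ∅ := by
      ext q
      simp only [mem_ofPred_eq, mem_empty_iff_false, iff_false]
      exact fun hq => hne ⟨q, hq⟩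
    rw [this, Set.ncard_empty]
    simp only [Nat.cast_zero]
    positivity
  obtain ⟨-, ps, hps, -⟩ := hne
  -- the two alternatives
  have hre2 : ∀ p1 p2 p3 p4 : ℝ × (Fin m → ℝ), Bx c0 t0 y0 p1.1 p1.2 →
      Rg (κ / 4) α d r p1.1 p1.2 → Rg (κ / 4) α d r p2.1 p2.2 → Rg (κ / 4) α d r p3.1 p3.2 →
      Rg (κ / 4) α d r p4.1 p4.2 →
      Bx c0 t0 y0 p3.1 p3.2 → Bx c0 t0 y0 p4.1 p4.2 →
      (∀ i, |UU α d r w1 wn w p1.1 p1.2 i| ≤ K * s) →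
      (∀ i, |UU α d r w1 wn w p3.1 p3.2 i| ≤ K * s) →
      (∀ i, |UU α d r w1 wn w p4.1 p4.2 i| ≤ K * s) →
      CpRel α d r ((K * s) ^ 2) p1 p2 p3 p4 →
      ν * nn p1.1 p1.2 p3.1 p3.2 ≤ M' * (K * s) ∨ ν * nn p1.1 p1.2 p4.1 p4.2 ≤ M' * (K * s) := by
    intro p1 p2 p3 p4 b1 g1 g2 g3 g4 b3 b4 u1 u3 u4 hrel
    by_contra hcon
    push Not at hcon
    obtain ⟨k3, k4⟩ := hcon
    have h1 := hRE c0 hc0 hc0R d hd0 hd1 t0 y0 hR ν hν hνy _ _ _ _ _ _ b1 b3 b4 w1 w wn (K * s)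
      hKs.le hw hw' u1 u3 u4 ((mul_le_mul_of_nonneg_right hM'1 hKs.le).trans k3.le)
      ((mul_le_mul_of_nonneg_right hM'1 hKs.le).trans k4.le)
    have h2 := hBB d hd0 hd1 p1 p2 p3 p4 g1 g2 g3 g4 _ (sq_nonneg (K * s)) hrel.1 hrel.2.1 hrel.2.2
    set n3 := nn p1.1 p1.2 p3.1 p3.2
    set n4 := nn p1.1 p1.2 p4.1 p4.2
    have h3 : cR * (n3 * n4) ≤ CB * (K * s) ^ 2 := h1.trans h2
    have h4 : (M' * (K * s)) * (M' * (K * s)) < (ν * n3) * (ν * n4) :=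
      mul_lt_mul'' k3 k4 (by positivity) (by positivity)
    have h5 : cR * ((M' * (K * s)) * (M' * (K * s))) < ν ^ 2 * (CB * (K * s) ^ 2) := by
      calc cR * ((M' * (K * s)) * (M' * (K * s))) < cR * ((ν * n3) * (ν * n4)) :=
            mul_lt_mul_of_pos_left h4 hcR
        _ = ν ^ 2 * (cR * (n3 * n4)) := by ring
        _ ≤ ν ^ 2 * (CB * (K * s) ^ 2) := mul_le_mul_of_nonneg_left h3 (by positivity)
    have h6 : cR * M' ^ 2 < ν ^ 2 * CB := by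
      have h7 : cR * M' ^ 2 * (K * s) ^ 2 < ν ^ 2 * CB * (K * s) ^ 2 := by
        calc cR * M' ^ 2 * (K * s) ^ 2 = cR * ((M' * (K * s)) * (M' * (K * s))) := by ring
          _ < ν ^ 2 * (CB * (K * s) ^ 2) := h5
          _ = _ := by ring
      exact lt_of_mul_lt_mul_right h7 (by positivity)
    have h8 : ν ^ 2 * CB ≤ κ⁻¹ ^ 2 * CB := by gcongr
    have h9 : CB * κ⁻¹ ^ 2 ≤ cR * M' := by
      rw [hM', mul_add, mul_div_cancel₀ _ hcR.ne']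
      have : 0 ≤ cR * M := by positivity
      linarith
    have h10 : M' ≤ M' ^ 2 := by nlinarith
    have h11 : cR * M' ≤ cR * M' ^ 2 := mul_le_mul_of_nonneg_left h10 hcR.le
    linarith
  -- the pairs
  have key := cv_pairs (fun c c' => Q (c, c'))
    (fun c => ∃ p ∈ T c, (∀ i, |UU α d r w1 wn w p.1 p.2 i| ≤ K * s) ∧
      ν * nn ps.1 ps.2 p.1 p.2 ≤ B1 * (A * K * s))
    (N := CN * A ^ (m + 2) * K ^ (m + 1) / ν ^ 2) (N' := (CD * (A * K ^ 2)) ^ (m + 1))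
    (by positivity) (by
      rintro c c' ⟨p1, hp1, p2, hp2, p3, hp3, p4, hp4, u1, u2, u3, u4, hrel⟩
      have hps1 : ν * nn ps.1 ps.2 p1.1 p1.2 ≤ (m + 1) * (2 * κ⁻¹) * (A * K * s) := by
        have h1 : ‖p1 - ps‖ ≤ 2 * (A * s) := by
          have e : p1 - ps = (p1 - P a) - (ps - P a) := by abel
          rw [e]
          refine (norm_sub_le _ _).trans ?_
          linarith [(hT a p1 hp1).1, (hT a ps hps).1]
        have h2 : nn ps.1 ps.2 p1.1 p1.2 ≤ (m + 1) * (2 * (A * s)) :=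
          (cp_nn_le ps p1).trans (mul_le_mul_of_nonneg_left h1 (by positivity))
        have h3 : A * s ≤ A * K * s := by
          have : A ≤ A * K := by nlinarith
          gcongr
        calc ν * nn ps.1 ps.2 p1.1 p1.2 ≤ κ⁻¹ * ((m + 1) * (2 * (A * K * s))) :=
              mul_le_mul hνκ (h2.trans (by gcongr)) (cp_nn_nonneg _ _ _ _) hκi.le
          _ = _ := by ring
      have hKA : M' * (K * s) ≤ M' * (A * K * s) := by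
        have : K * s ≤ A * K * s := by
          have : K ≤ A * K := by nlinarith
          gcongr
        gcongr
      have hfin : ∀ p : ℝ × (Fin m → ℝ), ν * nn p1.1 p1.2 p.1 p.2 ≤ M' * (K * s) →
          ν * nn ps.1 ps.2 p.1 p.2 ≤ B1 * (A * K * s) := by
        intro p hp
        have h1 := cp_nn_tri ps.1 ps.2 p1.1 p1.2 p.1 p.2
        have h2 := mul_le_mul_of_nonneg_left h1 hν.le
        rw [hB1, add_mul]
        linarith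
      rcases hre2 p1 p2 p3 p4 (hT a p1 hp1).2 (hRg a p1 hp1) (hRg b p2 hp2) (hRg _ p3 hp3)
        (hRg _ p4 hp4) (hT _ p3 hp3).2 (hT _ p4 hp4).2 u1 u3 u4 hrel with h1 | h1
      · exact Or.inl ⟨p3, hp3, u3, hfin p3 h1⟩
      · exact Or.inr ⟨p4, hp4, u4, hfin p4 h1⟩)
    (fun Z hZ => hnear c0 hc0 hc0N d hd0 hd1 t0 y0 hR ν hν hνy hνκ s K A hs hs1 hsν hK hA w1 w wn
      hw hw' ι P T hP hT ps.1 ps.2 (hT a ps hps).2 Z hZ)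
    (fun c Z hZ => hdet d s K A hs hs1 hK hA ι P T hP
      (fun x p hp => ⟨(hT x p hp).1, hRg x p hp⟩) a b c Z fun x hx => by
        obtain ⟨p1, hp1, p2, hp2, p3, hp3, p4, hp4, -, -, -, -, hrel⟩ := hZ x hx
        exact ⟨p1, hp1, p2, hp2, p3, hp3, p4, hp4, hrel⟩)
    (fun c Z hZ => hdet d s K A hs hs1 hK hA ι P T hP
      (fun x p hp => ⟨(hT x p hp).1, hRg x p hp⟩) a b c Z fun x hx => by
        obtain ⟨p1, hp1, p2, hp2, p3, hp3, p4, hp4, -, -, -, -, hrel⟩ := hZ x hx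
        exact ⟨p1, hp1, p2, hp2, p4, hp4, p3, hp3, hrel.symm⟩)
  refine key.trans (le_of_eq ?_)
  have e1 : A ^ (2 * m + 3) = A ^ (m + 2) * A ^ (m + 1) := by
    rw [← pow_add]
    congr 1
    ring
  have e2 : K ^ (3 * m + 3) = K ^ (m + 1) * (K ^ 2) ^ (m + 1) := by
    rw [← pow_mul, ← pow_add]
    congr 1
    ring
  rw [e1, e2, mul_pow CD, mul_pow A]
  ring

end Pool.Agent.LQN
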