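import Pool.Agent.LQN.HMN0
import Pool.Agent.LQN.CNTP

/-!
LQN, row HMN: closed.
-/

set_option autoImplicit false

namespace Pool.Agent.LQN

open MeasureTheory Set Metric Pool.Agent.MP_6cbfb8_an Pool.Agent.LF
open scoped RealInnerProductSpace ContDiff ENNReal NNReal ComplexConjugate

variable {m : ℕ}

/-- ROW HMN. -/
theorem hmn (hm : 1 ≤ m) {κ α : ℝ} {r : Fin m → ℝ} (hκ : 0 < κ) (hκ1 : κ ≤ 1) (h : Hyp α r)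
    {X : ℝ → ℝ × E m → E (m + 2)} {A : ℕ → ℝ} (hX : SF κ α r X A) :
    ∃ (N : ℕ) (C c1 : ℝ), 0 < C ∧ 0 < c1 ∧ ∀ c0, 0 < c0 → c0 ≤ c1 →
    ∀ d, 0 ≤ d → d ≤ 1 → ∀ (t0 : ℝ) (z0 : E m), Rs κ α d r t0 z0.ofLp →
    ∀ ν, 0 < ν → (∀ i, ν ≤ |z0 i|) →
    ∀ (s K : ℝ) (M : ℕ), 0 < s → s ≤ 1 → 1 ≤ K → s ≤ ν →
    ∀ T : ↥(gi M ×ˢ gk m M) → Set (ℝ × E m),
      (∀ a, ∀ p ∈ T a, ‖p - pcs (t0, z0) s M a.1‖ ≤ √(m : ℝ) * s ∧ |p.1 - t0| ≤ c0 ∧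
        ∀ i, |p.2 i - z0 i| ≤ c0 * |z0 i|) →
      ∀ w : E (m + 2), 1 / 2 ≤ ‖w‖ → ‖w‖ ≤ 4 → ∀ a b,
      ({q : ↥(gi M ×ˢ gk m M) × ↥(gi M ×ˢ gk m M) |
        ∃ p1 ∈ T a, ∃ p2 ∈ T b, ∃ p3 ∈ T q.1, ∃ p4 ∈ T q.2,
        (‖Vw (X d) w p1‖ ≤ K * s ∧ ‖Vw (X d) w p2‖ ≤ K * s ∧ ‖Vw (X d) w p3‖ ≤ K * s ∧
          ‖Vw (X d) w p4‖ ≤ K * s) ∧
          ‖X d p1 + X d p2 - X d p3 - X d p4‖ ≤ (K * s) ^ 2}.ncard : ℝ) ≤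
        C * K ^ N / ν ^ 2 :=
  hmn_of hm hκ hκ1 hX (cntp hm h (by positivity) (by linarith))

end Pool.Agent.LQN
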