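import Pool.Agent.MP_6cbfb8_an.Defs

/-!
[LQN] The densities: measurable in `t`, smooth in `x`, with bounds.
-/

set_option autoImplicit false

namespace Pool.Agent.LQN

open MeasureTheory Set Pool.Agent.MP_6cbfb8_an
open scoped ContDiff

/-- Functions of `(t, x)`, measurable, smooth in `x` with bounds `B`. -/
def GC {n : ℕ} (B : ℕ → ℝ) (G : ℝ → E n → ℂ) : Prop :=
  Measurable (Function.uncurry G) ∧ (∀ t, ContDiff ℝ ∞ (G t)) ∧
    ∀ k t x, ‖iteratedFDeriv ℝ k (G t) x‖ ≤ B k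

end Pool.Agent.LQN
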