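import Pool.Agent.LQN.Df
import Pool.Agent.LQN.GC
import Pool.Agent.LF.Tb

/-!
LEAFQ for every `n = m + 2`: surfaces with uniform bounds, densities on the sphere and in the chart.
-/

set_option autoImplicit false

namespace Pool.Agent.LQN

open MeasureTheory Set Pool.Agent.MP_6cbfb8_an Pool.Agent.LF
open scoped RealInnerProductSpace ContDiff

variable {m : ℕ}

/-- The small region (where the densities live). -/
def Rs (κ α d : ℝ) (r : Fin m → ℝ) (t : ℝ) (y : Fin m → ℝ) : Prop :=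
  (∀ i, |y i| ≤ 2) ∧ κ ≤ rr α r t y ∧ rr α r t y ≤ 4 ∧ κ ≤ 1 - d ^ 2 * ss α r t y

/-- The large region (where the surfaces are the explicit ones). -/
def Rl (κ α d : ℝ) (r : Fin m → ℝ) (t : ℝ) (y : Fin m → ℝ) : Prop :=
  (∀ i, |y i| ≤ 3) ∧ κ / 4 ≤ rr α r t y ∧ rr α r t y ≤ 9 ∧ κ / 4 ≤ 1 - d ^ 2 * ss α r t y

/-- `X d` is a smooth map on the whole plane with bounds uniform in `d ∈ [0, 1]`, equal to
`(A, y, h)` on the large region, where its gradients are the explicit ones. -/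
def SF (κ α : ℝ) (r : Fin m → ℝ) (X : ℝ → ℝ × E m → E (m + 2)) (A : ℕ → ℝ) : Prop :=
  ∀ d, 0 ≤ d → d ≤ 1 → ContDiff ℝ ∞ (X d) ∧ (∀ j p, ‖iteratedFDeriv ℝ j (X d) p‖ ≤ A j) ∧
    ∀ t (z : E m), Rl κ α d r t z.ofLp →
      X d (t, z) 0 = AA α r t z.ofLp ∧ (∀ i : Fin m, X d (t, z) i.succ.castSucc = z i) ∧
      X d (t, z) (Fin.last (m + 1)) = hh α d r t z.ofLp ∧
      (∀ w : E (m + 2), ⟪w, Xt (X d) (t, z)⟫ =
        TT α d r (w 0) (w (Fin.last (m + 1))) t z.ofLp) ∧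
      ∀ (w : E (m + 2)) (i : Fin m), Vw (X d) w (t, z) i =
        UU α d r (w 0) (w (Fin.last (m + 1))) (fun i => w i.succ.castSucc) t z.ofLp i

/-- Densities in the chart: measurable, smooth along the leaves. -/
def DC (κ α d : ℝ) (r : Fin m → ℝ) (B : ℕ → ℝ) (b : ℝ × E m → ℂ) : Prop :=
  Measurable b ∧ (∀ t, ContDiff ℝ ∞ fun z => b (t, z)) ∧
    (∀ t k z, ‖iteratedFDeriv ℝ k (fun z => b (t, z)) z‖ ≤ B k) ∧
    ∀ t (z : E m), ¬ Rs κ α d r t z.ofLp → b (t, z) = 0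

theorem Rs_sub {κ α d : ℝ} {r : Fin m → ℝ} {t : ℝ} {y : Fin m → ℝ} (h0 : 0 ≤ κ)
    (h : Rs κ α d r t y) : Rl κ α d r t y :=
  ⟨fun i => (h.1 i).trans (by norm_num), by linarith [h.2.1], by linarith [h.2.2.1],
    by linarith [h.2.2.2]⟩

theorem Rl_sub {κ α d : ℝ} {r : Fin m → ℝ} {t : ℝ} {y : Fin m → ℝ} (h0 : 0 < κ) (h1 : κ ≤ 1)
    (h : Rl κ α d r t y) : Rg (κ / 16) α d r t y := by
  have h2 : 9 ≤ (κ / 16)⁻¹ := by
    rw [inv_div, le_div_iff₀ h0]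
    linarith
  exact ⟨fun i => (h.1 i).trans (by linarith), by linarith [h.2.1], by linarith [h.2.2.1],
    by linarith [h.2.2.2]⟩

theorem Rl.mono {κ κ' α d : ℝ} {r : Fin m → ℝ} {t : ℝ} {y : Fin m → ℝ} (h1 : κ' ≤ κ)
    (h : Rl κ α d r t y) : Rl κ' α d r t y :=
  ⟨h.1, by linarith [h.2.1], h.2.2.1, by linarith [h.2.2.2]⟩

end Pool.Agent.LQN
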