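import Pool.Agent.LQN.KQE2
import Pool.Agent.LQN.Df2

/-!
LEAFQ for every `n`: the estimate KAK in the language of the charts, from the explicit estimate.
-/

set_option autoImplicit false

namespace Pool.Agent.LQN

open MeasureTheory Set Metric Pool.Agent.MP_6cbfb8_an Pool.Agent.LF
open scoped RealInnerProductSpace ContDiff ENNReal NNReal

variable {m : ℕ}

theorem abs_sq_diff {a b c : ℝ} (hc0 : 0 ≤ c) (hc1 : c ≤ 1 / 8) (hb : |b| ≤ 2)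
    (h : |a - b| ≤ c * |b|) : |a ^ 2 - b ^ 2| ≤ 10 * c := by
  have h1 : |a - b| ≤ 2 * c := h.trans (by nlinarith)
  have h2 : |a + b| ≤ 5 := by
    have e : a + b = (a - b) + (b + b) := by ring
    rw [e]
    refine (abs_add_le _ _).trans ?_
    have := abs_add_le b b
    linarith
  have e : a ^ 2 - b ^ 2 = (a - b) * (a + b) := by ring
  rw [e, abs_mul]
  calc |a - b| * |a + b| ≤ (2 * c) * 5 := by gcongr
    _ = 10 * c := by ring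

/-- The box around a point of the small region stays in the large region. -/
theorem rs_box {α κ : ℝ} (r : Fin m → ℝ) (hκ : 0 < κ) (hκ1 : κ ≤ 1) : ∃ c1 : ℝ, 0 < c1 ∧
    c1 ≤ 1 / 8 ∧ ∀ c0, 0 ≤ c0 → c0 ≤ c1 → ∀ d, 0 ≤ d → d ≤ 1 → ∀ t0 y0 t y,
      Rs κ α d r t0 y0 → Bx c0 t0 y0 t y → Rl κ α d r t y := by
  set B : ℝ := |α|⁻¹ + 10 * ∑ i, (|r i| + |1 - r i|) + 1 with hB
  have hs0 : 0 ≤ ∑ i, (|r i| + |1 - r i|) := Finset.sum_nonneg fun i _ => by positivity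
  have hB0 : 0 < B := by positivity
  refine ⟨min (1 / 8) (3 * κ / (4 * B)), by positivity, min_le_left _ _, ?_⟩
  intro c0 hc0 hc01 d hd0 hd1 t0 y0 t y hs hb
  have hc8 : c0 ≤ 1 / 8 := hc01.trans (min_le_left _ _)
  have hcB : c0 * B ≤ 3 * κ / 4 := by
    have h1 : c0 ≤ 3 * κ / (4 * B) := hc01.trans (min_le_right _ _)
    calc c0 * B ≤ 3 * κ / (4 * B) * B := by gcongr
      _ = 3 * κ / 4 := by field_simp
  obtain ⟨h1, h2, h3, h4⟩ := hs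
  obtain ⟨g1, g2⟩ := hb
  have hsq : ∀ i, |y i ^ 2 - y0 i ^ 2| ≤ 10 * c0 := fun i => abs_sq_diff hc0 hc8 (h1 i) (g2 i)
  have ht : |t / α - t0 / α| ≤ c0 * |α|⁻¹ := by
    rw [← sub_div, abs_div, div_eq_mul_inv]
    gcongr
  have hsum : ∀ a : Fin m → ℝ, (∀ i, |a i| ≤ |r i| + |1 - r i|) →
      |∑ i, a i * y i ^ 2 - ∑ i, a i * y0 i ^ 2| ≤ c0 * (10 * ∑ i, (|r i| + |1 - r i|)) := by
    intro a ha
    rw [← Finset.sum_sub_distrib]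
    refine (Finset.abs_sum_le_sum_abs _ _).trans ?_
    rw [Finset.mul_sum, Finset.mul_sum]
    refine Finset.sum_le_sum fun i _ => ?_
    rw [← mul_sub, abs_mul]
    calc |a i| * |y i ^ 2 - y0 i ^ 2| ≤ (|r i| + |1 - r i|) * (10 * c0) :=
          mul_le_mul (ha i) (hsq i) (abs_nonneg _) (by positivity)
      _ = c0 * (10 * (|r i| + |1 - r i|)) := by ring
  have hrr : |rr α r t y - rr α r t0 y0| ≤ c0 * B := by
    have e : rr α r t y - rr α r t0 y0 = (t / α - t0 / α) -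
        (∑ i, r i * y i ^ 2 - ∑ i, r i * y0 i ^ 2) := by
      unfold rr
      ring
    rw [e]
    refine (abs_sub _ _).trans ?_
    have := hsum r fun i => le_add_of_nonneg_right (abs_nonneg _)
    rw [hB]
    nlinarith
  have hss : |ss α r t y - ss α r t0 y0| ≤ c0 * B := by
    have e : ss α r t y - ss α r t0 y0 = (t / α - t0 / α) +
        (∑ i, (1 - r i) * y i ^ 2 - ∑ i, (1 - r i) * y0 i ^ 2) := by
      unfold ss
      ring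
    rw [e]
    refine (abs_add_le _ _).trans ?_
    have := hsum (fun i => 1 - r i) fun i => le_add_of_nonneg_left (abs_nonneg _)
    rw [hB]
    nlinarith
  have hds : |d ^ 2 * (ss α r t y - ss α r t0 y0)| ≤ c0 * B := by
    rw [abs_mul, abs_of_nonneg (sq_nonneg d)]
    have hd2 : d ^ 2 ≤ 1 := by nlinarith
    calc d ^ 2 * |ss α r t y - ss α r t0 y0| ≤ 1 * (c0 * B) := by gcongr
      _ = c0 * B := one_mul _
  have k1 := abs_le.1 hrr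
  have k2 := abs_le.1 hds
  refine ⟨fun i => ?_, by linarith, by linarith, by linarith⟩
  have := g2 i
  have h5 : |y i| ≤ |y i - y0 i| + |y0 i| := by
    have := abs_add_le (y i - y0 i) (y0 i)
    rwa [sub_add_cancel] at this
  have h6 := h1 i
  have h7 : c0 * |y0 i| ≤ 1 / 8 * 2 := by gcongr
  linarith

/-- The explicit estimate KAK at `κ`. -/
def KQs (κ α : ℝ) (r : Fin m → ℝ) : Prop :=
    ∃ C c1 : ℝ, 0 < C ∧ 0 < c1 ∧ ∀ c0, 0 < c0 → c0 ≤ c1 → ∀ d, 0 ≤ d → d ≤ 1 →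
      ∀ t0 y0, Rg κ α d r t0 y0 → (∀ i, y0 i ≠ 0) → ∀ R Λ, 1 ≤ R → (∀ i, 1 ≤ R * y0 i ^ 2) →
      √R ≤ Λ → ∀ (ι : Type) [Fintype ι] (t : ι → ℝ) (g : ι → ℝ → ℝ≥0∞), (∀ i, |t i - t0| ≤ c0) →
      (∀ i j, i ≠ j → 1 / √R ≤ |t i - t j|) → (∀ i, Measurable (g i)) →
      (∀ i, ∫⁻ τ, g i τ ≤ ENNReal.ofReal (1 / √R)) →
      (∀ i τ, g i τ ≤ ENNReal.ofReal (1 / R)) →
      ∫⁻ w in {w : ℝ × (Fin m → ℝ) × ℝ | WA R w.1 w.2.1 w.2.2},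
          (∑ i, ∫⁻ y in {y : Fin m → ℝ | ∀ j, |y j - y0 j| ≤ c0 * |y0 j|},
            ({y | ∀ j, |UU α d r w.1 w.2.2 w.2.1 (t i) y j| ≤ Λ}.indicator
              fun y => g i (TT α d r w.1 w.2.2 (t i) y)) y) ^ 2 ≤
        ENNReal.ofReal (C * (Λ / √R) ^ (2 * m + 1) * (1 + Real.log R) ^ (m + 2))

/-- ROW KQE, from KAK. -/
theorem kqe_of {α κ : ℝ} {r : Fin m → ℝ} (hκ : 0 < κ) (hκ1 : κ ≤ 1) (hKQ : KQs (κ / 16) α r)
    {X : ℝ → ℝ × E m → E (m + 2)} {A : ℕ → ℝ} (hX : SF κ α r X A) :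
    ∃ C c1 : ℝ, 0 < C ∧ 0 < c1 ∧ ∀ c0, 0 < c0 → c0 ≤ c1 → ∀ d, 0 ≤ d → d ≤ 1 →
      ∀ (t0 : ℝ) (z0 : E m), Rs κ α d r t0 z0.ofLp → (∀ i, z0 i ≠ 0) → ∀ R Λ, 1 ≤ R →
      (∀ i, 1 ≤ R * z0 i ^ 2) → √R ≤ Λ →
      ∀ (ι : Type) [Fintype ι] (t : ι → ℝ) (g : ι → ℝ → ℝ≥0∞), (∀ i, |t i - t0| ≤ c0) →
      (∀ i j, i ≠ j → 1 / √R ≤ |t i - t j|) → (∀ i, Measurable (g i)) →
      (∀ i, ∫⁻ τ, g i τ ≤ ENNReal.ofReal (1 / √R)) →
      (∀ i τ, g i τ ≤ ENNReal.ofReal (1 / R)) →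
      ∫⁻ ξ in {ξ : E (m + 2) | R / 2 ≤ ‖ξ‖ ∧ ‖ξ‖ ≤ 4 * R},
          (∑ i, ∫⁻ z in {z : E m | ∀ j, |z j - z0 j| ≤ c0 * |z0 j|},
            ({z | ‖Vw (X d) ξ (t i, z)‖ ≤ Λ}.indicator
              fun z => g i ⟪ξ, Xt (X d) (t i, z)⟫) z) ^ 2 ≤
        ENNReal.ofReal (C * (Λ / √R) ^ (2 * m + 1) * (1 + Real.log R) ^ (m + 2)) := by
  obtain ⟨C, k1, hC, hk1, KQ⟩ := hKQ
  obtain ⟨k3, hk3, -, BX⟩ := rs_box (α := α) r hκ hκ1
  refine ⟨C, min k1 k3, hC, lt_min hk1 hk3, ?_⟩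
  intro c0 hc0 hc01 d hd0 hd1 t0 z0 hs hz0 R Λ hR hRy hΛ ι _ t g ht hsep hg hgi hgs
  have hc1 : c0 ≤ k1 := hc01.trans (min_le_left _ _)
  have hc3 : c0 ≤ k3 := hc01.trans (min_le_right _ _)
  refine kqe_pt (by linarith) (fun t z hz => ?_) ht
    (KQ c0 hc0 hc1 d hd0 hd1 t0 z0.ofLp (Rl_sub hκ hκ1 (Rs_sub hκ.le hs)) hz0 R Λ hR hRy hΛ ι t g
      ht hsep hg hgi hgs)
  obtain ⟨-, -, -, h4, h5⟩ := (hX d hd0 hd1).2.2 t z
    (BX c0 hc0.le hc3 d hd0 hd1 t0 z0.ofLp t z.ofLp hs hz)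
  exact ⟨h4, h5⟩

end Pool.Agent.LQN
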