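import Pool.Agent.LQN.KQF
import Pool.Agent.LQN.KQE3

/-!
LEAFQ for every `n`, row KQE: the estimate KAK in the language of LEAF.
-/

set_option autoImplicit false

namespace Pool.Agent.LQN

open MeasureTheory Set Metric Pool.Agent.MP_6cbfb8_an Pool.Agent.LF
open scoped RealInnerProductSpace ContDiff ENNReal NNReal

variable {m : ℕ}

/-- ROW KQE: `row_KQ` in the language of LEAF. -/
theorem kqe (hm : 1 ≤ m) {κ α : ℝ} {r : Fin m → ℝ} (hκ : 0 < κ) (hκ1 : κ ≤ 1) (h : Hyp α r)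
    {X : ℝ → ℝ × E m → E (m + 2)} {A : ℕ → ℝ} (hX : SF κ α r X A) :
    ∃ C c1 : ℝ, 0 < C ∧ 0 < c1 ∧ ∀ c0, 0 < c0 → c0 ≤ c1 →
    ∀ d, 0 ≤ d → d ≤ 1 → ∀ (t0 : ℝ) (z0 : E m), Rs κ α d r t0 z0.ofLp → (∀ i, z0 i ≠ 0) →
    ∀ R Λ, 1 ≤ R → (∀ i, 1 ≤ R * z0 i ^ 2) → √R ≤ Λ →
      ∀ (ι : Type) [Fintype ι] (t : ι → ℝ) (g : ι → ℝ → ℝ≥0∞), (∀ i, |t i - t0| ≤ c0) →
      (∀ i j, i ≠ j → 1 / √R ≤ |t i - t j|) → (∀ i, Measurable (g i)) →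
      (∀ i, ∫⁻ τ, g i τ ≤ ENNReal.ofReal (1 / √R)) →
      (∀ i τ, g i τ ≤ ENNReal.ofReal (1 / R)) →
      ∫⁻ ξ in {ξ : E (m + 2) | R / 2 ≤ ‖ξ‖ ∧ ‖ξ‖ ≤ 4 * R},
          (∑ i, ∫⁻ z in {z : E m | ∀ j, |z j - z0 j| ≤ c0 * |z0 j|},
            ({z | ‖Vw (X d) ξ (t i, z)‖ ≤ Λ}.indicator
              fun z => g i ⟪ξ, Xt (X d) (t i, z)⟫) z) ^ 2 ≤
        ENNReal.ofReal (C * (Λ / √R) ^ (2 * m + 1) * (1 + Real.log R) ^ (m + 2)) :=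
  kqe_of hκ hκ1 (row_KQ hm h (by positivity) (by linarith)) hX

end Pool.Agent.LQN
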