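import Pool.Agent.LQN.COREb
import Pool.Agent.LQN.KQE
import Pool.Agent.LQN.HMN

/-!
LQN: CORE, the `L^4` bound of a box.
-/

set_option autoImplicit false

namespace Pool.Agent.LQN

open MeasureTheory Set Metric Pool.Agent.MP_6cbfb8_an Pool.Agent.LF
open scoped RealInnerProductSpace ContDiff ENNReal NNReal ComplexConjugate

variable {m : ℕ}

/-- The `L^4` bound of a box. -/
theorem core (hm : 1 ≤ m) {κ α : ℝ} {r : Fin m → ℝ} (hκ : 0 < κ) (hκ1 : κ ≤ 1) (h : Hyp α r)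
    {X : ℝ → ℝ × E m → E (m + 2)} {A : ℕ → ℝ} (hX : SF κ α r X A) :
    ∃ c0 : ℝ, 0 < c0 ∧ c0 ≤ 1 / 8 ∧ ∀ (B : ℕ → ℝ) (ε : ℝ), 0 < ε →
      ∃ C : ℝ, ∀ d, 0 ≤ d → d ≤ 1 → ∀ (t0 : ℝ) (z0 : E m), Rs κ α d r t0 z0.ofLp →
      ∀ ν, 0 < ν → (∀ i, ν ≤ |z0 i|) → ∀ b : ℝ × E m → ℂ, Measurable b →
      (∀ t, ContDiff ℝ ∞ fun z => b (t, z)) →
      (∀ t k u, ‖iteratedFDeriv ℝ k (fun u => b (t, dl (fun i => |z0 i|) u)) u‖ ≤ B k) →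
      (∀ t z, (c0 < |t - t0| ∨ ∃ i, c0 * |z0 i| < |z i - z0 i|) → b (t, z) = 0) →
      ∀ R, 1 ≤ R → 1 ≤ R * ν ^ 2 →
        ∫⁻ ξ in {ξ : E (m + 2) | R ≤ ‖ξ‖ ∧ ‖ξ‖ ≤ 2 * R}, ‖Tb (X d) b ξ‖ₑ ^ (4 : ℝ) ≤
          ENNReal.ofReal (C * R ^ (-(m : ℝ) + ε) / ν ^ 2) :=
  core_of hm hX (m + 2) (kqe hm hκ hκ1 h hX) (hmn hm hκ hκ1 h hX)

end Pool.Agent.LQN
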