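import Mathlib.Analysis.SpecialFunctions.Pow.Asymptotics
import Mathlib.Analysis.SpecialFunctions.Pow.Real
import Mathlib.Tactic

/-!
LQN: the powers of `R` in CORE.
-/

set_option autoImplicit false

namespace Pool.Agent.LQN

/-- Powers of the logarithm. -/
theorem log_pow_le (q : ℕ) {ε R : ℝ} (hε : 0 < ε) (hR : 1 ≤ R) :
    (1 + Real.log R) ^ q ≤ (1 + 2 * (q + 1) / ε) ^ (q + 1) * R ^ (ε / 2) := by
  have hR0 : 0 < R := by linarith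
  have hlog0 : 0 ≤ Real.log R := Real.log_nonneg hR
  set a : ℝ := ε / (2 * (q + 1)) with ha
  have ha0 : 0 < a := by positivity
  have hlog : 1 + Real.log R ≤ (1 + 2 * (q + 1) / ε) * R ^ a := by
    have h0 : (1 : ℝ) ≤ R ^ a := Real.one_le_rpow hR ha0.le
    have h1 := Real.log_le_rpow_div hR0.le ha0
    have h2 : R ^ a / a = 2 * (q + 1) / ε * R ^ a := by
      rw [ha]
      field_simp
    rw [h2] at h1
    nlinarith
  calc (1 + Real.log R) ^ q ≤ (1 + Real.log R) ^ (q + 1) :=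
        pow_le_pow_right₀ (by linarith) (Nat.le_succ q)
    _ ≤ ((1 + 2 * (q + 1) / ε) * R ^ a) ^ (q + 1) := by gcongr
    _ = (1 + 2 * (q + 1) / ε) ^ (q + 1) * (R ^ a) ^ (q + 1) := mul_pow _ _ _
    _ = _ := by
        congr 1
        rw [← Real.rpow_natCast (R ^ a), ← Real.rpow_mul hR0.le]
        congr 1
        rw [ha]
        push_cast
        field_simp

theorem cn_num {m P q s N : ℕ} {ε σ R K ν : ℝ} (hε : 0 < ε) (hσ : 0 < σ) (hσ1 : σ ≤ 1)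
    (hσε : σ * (P + 2 * m + 1) ≤ ε / 2) (hN : (P : ℝ) + 6 * m + 8 ≤ σ * N) (hR : 1 ≤ R)
    (hK : K = R ^ σ) (hν : 0 < ν) (hν4 : ν ≤ 4)
    {Cm Cb Ck L Cκ Ce Cv Co S n0 e v ε2 : ℝ} (hCm : 0 ≤ Cm) (hCb : 0 ≤ Cb)
    (hCk : 0 ≤ Ck) (hL : 0 ≤ L) (hCκ : 0 ≤ Cκ) (hCe : 0 ≤ Ce) (hCv : 0 ≤ Cv) (hCo : 0 ≤ Co)
    (hS : 0 ≤ S) (hn00 : 0 ≤ n0) (he0 : 0 ≤ e) (hv0 : 0 ≤ v) (hε20 : 0 ≤ ε2)
    (hn0 : n0 ≤ Cκ * R ^ (m + 1)) (he : e ≤ Ce * (K ^ N)⁻¹) (hv : v ≤ Cv * R ^ (m + 2))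
    (hε2 : ε2 ≤ Co * R ^ (m + 2) * (K ^ N)⁻¹) :
    Cm * K ^ P / ν ^ s * (Cb * (1 / R) ^ m * (Ck * (L * K) ^ (2 * m + 1) * (1 + Real.log R) ^ q) +
      2 * (n0 * e ^ 2) ^ 2 * v) + n0 ^ 4 * (e * S ^ 3 * v + ε2) ≤
    (Cm * Cb * Ck * L ^ (2 * m + 1) * (1 + 2 * (q + 1) / ε) ^ (q + 1) +
      2 * Cm * Cκ ^ 2 * Ce ^ 4 * Cv + 4 ^ s * Cκ ^ 4 * (Ce * S ^ 3 * Cv + Co)) *
      R ^ (-(m : ℝ) + ε) / ν ^ s := by
  have hR0 : 0 < R := by linarith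
  have hK1 : 1 ≤ K := by rw [hK]; exact Real.one_le_rpow hR hσ.le
  have hK0 : 0 < K := by linarith
  have hKR : K ≤ R := by
    rw [hK]
    calc R ^ σ ≤ R ^ (1 : ℝ) := Real.rpow_le_rpow_of_exponent_le hR hσ1
      _ = R := Real.rpow_one R
  have hKN : (K ^ N)⁻¹ ≤ (R ^ (P + 6 * m + 8))⁻¹ := by
    refine inv_anti₀ (by positivity) ?_
    rw [hK, ← Real.rpow_natCast (R ^ σ), ← Real.rpow_mul hR0.le, ← Real.rpow_natCast R]
    refine Real.rpow_le_rpow_of_exponent_le hR ?_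
    push_cast
    exact hN
  have hKN0 : 0 ≤ (K ^ N)⁻¹ := by positivity
  have hKN1 : (K ^ N)⁻¹ ≤ 1 := inv_le_one_of_one_le₀ (one_le_pow₀ hK1)
  have hlog0 : 0 ≤ Real.log R := Real.log_nonneg hR
  set D : ℝ := (1 + 2 * (q + 1) / ε) ^ (q + 1) with hD
  have hD0 : 0 ≤ D := by positivity
  have hlog := log_pow_le q hε hR
  have hK15 : K ^ (P + 2 * m + 1) ≤ R ^ (ε / 2) := by
    rw [hK, ← Real.rpow_natCast (R ^ σ), ← Real.rpow_mul hR0.le]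
    refine Real.rpow_le_rpow_of_exponent_le hR ?_
    push_cast
    exact hσε
  have hνs : 0 < ν ^ s := by positivity
  set Q : ℝ := R ^ (-(m : ℝ) + ε) with hQ
  have hQ1 : Q = (1 / R) ^ m * (R ^ (ε / 2) * R ^ (ε / 2)) := by
    rw [hQ, ← Real.rpow_add hR0, add_halves, Real.rpow_add hR0, Real.rpow_neg hR0.le,
      Real.rpow_natCast, one_div, inv_pow]
  have hRQ : (1 / R) ^ m ≤ Q := by
    have h1 : (1 : ℝ) ≤ R ^ (ε / 2) := Real.one_le_rpow hR (by positivity)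
    rw [hQ1]
    refine le_mul_of_one_le_right (by positivity) ?_
    nlinarith
  have hQ0 : 0 ≤ Q := le_trans (by positivity) hRQ
  have hmain : Cm * K ^ P / ν ^ s * (Cb * (1 / R) ^ m * (Ck * (L * K) ^ (2 * m + 1) *
      (1 + Real.log R) ^ q)) ≤ Cm * Cb * Ck * L ^ (2 * m + 1) * D * (Q / ν ^ s) := by
    calc Cm * K ^ P / ν ^ s * (Cb * (1 / R) ^ m * (Ck * (L * K) ^ (2 * m + 1) *
          (1 + Real.log R) ^ q)) =
          Cm * Cb * Ck * L ^ (2 * m + 1) * (1 / R) ^ m / ν ^ s *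
            (K ^ (P + 2 * m + 1) * (1 + Real.log R) ^ q) := by
          rw [mul_pow L K, show P + 2 * m + 1 = P + (2 * m + 1) by ring, pow_add K P]
          ring
      _ ≤ Cm * Cb * Ck * L ^ (2 * m + 1) * (1 / R) ^ m / ν ^ s *
          (R ^ (ε / 2) * (D * R ^ (ε / 2))) := by gcongr
      _ = Cm * Cb * Ck * L ^ (2 * m + 1) * D *
          (((1 / R) ^ m * (R ^ (ε / 2) * R ^ (ε / 2))) / ν ^ s) := by ring
      _ = _ := by rw [← hQ1]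
  have he1 : e ≤ Ce * (R ^ (P + 6 * m + 8))⁻¹ := he.trans (by gcongr)
  have he4 : e ^ 4 ≤ Ce ^ 4 * (R ^ (P + 6 * m + 8))⁻¹ := by
    calc e ^ 4 ≤ (Ce * (K ^ N)⁻¹) ^ 4 := by gcongr
      _ = Ce ^ 4 * ((K ^ N)⁻¹ * (K ^ N)⁻¹ * (K ^ N)⁻¹ * (K ^ N)⁻¹) := by ring
      _ ≤ Ce ^ 4 * (1 * 1 * 1 * (R ^ (P + 6 * m + 8))⁻¹) := by gcongr
      _ = _ := by ring
  have hε21 : ε2 ≤ Co * R ^ (m + 2) * (R ^ (P + 6 * m + 8))⁻¹ := hε2.trans (by gcongr)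
  have hpw : ∀ k : ℕ, k + m ≤ P + 6 * m + 8 → R ^ k * (R ^ (P + 6 * m + 8))⁻¹ ≤ (1 / R) ^ m := by
    intro k hk
    rw [one_div, inv_pow, ← div_eq_mul_inv, div_le_iff₀ (by positivity), ← div_eq_inv_mul,
      le_div_iff₀ (by positivity), ← pow_add]
    exact pow_le_pow_right₀ hR hk
  have hE1 : Cm * K ^ P / ν ^ s * (2 * (n0 * e ^ 2) ^ 2 * v) ≤
      2 * Cm * Cκ ^ 2 * Ce ^ 4 * Cv * (Q / ν ^ s) := by
    calc Cm * K ^ P / ν ^ s * (2 * (n0 * e ^ 2) ^ 2 * v) =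
          2 * Cm * K ^ P / ν ^ s * (n0 ^ 2 * e ^ 4 * v) := by ring
      _ ≤ 2 * Cm * R ^ P / ν ^ s * ((Cκ * R ^ (m + 1)) ^ 2 *
          (Ce ^ 4 * (R ^ (P + 6 * m + 8))⁻¹) * (Cv * R ^ (m + 2))) := by
          gcongr
      _ = 2 * Cm * Cκ ^ 2 * Ce ^ 4 * Cv *
          ((R ^ (P + (m + 1) * 2 + (m + 2)) * (R ^ (P + 6 * m + 8))⁻¹) / ν ^ s) := by ring
      _ ≤ 2 * Cm * Cκ ^ 2 * Ce ^ 4 * Cv * (Q / ν ^ s) := by
          refine mul_le_mul_of_nonneg_left ?_ (by positivity)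
          refine div_le_div_of_nonneg_right ((hpw _ ?_).trans hRQ) hνs.le
          omega
  have hQν : Q ≤ 4 ^ s * (Q / ν ^ s) := by
    rw [← mul_div_assoc, le_div_iff₀ hνs, mul_comm Q]
    exact mul_le_mul_of_nonneg_right (pow_le_pow_left₀ hν.le hν4 s) hQ0
  have hE2 : n0 ^ 4 * (e * S ^ 3 * v + ε2) ≤
      4 ^ s * Cκ ^ 4 * (Ce * S ^ 3 * Cv + Co) * (Q / ν ^ s) := by
    calc n0 ^ 4 * (e * S ^ 3 * v + ε2) ≤ (Cκ * R ^ (m + 1)) ^ 4 *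
          (Ce * (R ^ (P + 6 * m + 8))⁻¹ * S ^ 3 * (Cv * R ^ (m + 2)) +
            Co * R ^ (m + 2) * (R ^ (P + 6 * m + 8))⁻¹) := by
          gcongr
      _ = Cκ ^ 4 * (Ce * S ^ 3 * Cv + Co) *
          (R ^ ((m + 1) * 4 + (m + 2)) * (R ^ (P + 6 * m + 8))⁻¹) := by ring
      _ ≤ Cκ ^ 4 * (Ce * S ^ 3 * Cv + Co) * (4 ^ s * (Q / ν ^ s)) := by
          refine mul_le_mul_of_nonneg_left (((hpw _ ?_).trans hRQ).trans hQν) (by positivity)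
          omega
      _ = _ := by ring
  calc _ = Cm * K ^ P / ν ^ s * (Cb * (1 / R) ^ m * (Ck * (L * K) ^ (2 * m + 1) *
        (1 + Real.log R) ^ q)) +
        Cm * K ^ P / ν ^ s * (2 * (n0 * e ^ 2) ^ 2 * v) + n0 ^ 4 * (e * S ^ 3 * v + ε2) := by ring
    _ ≤ _ := by
        refine (add_le_add (add_le_add hmain hE1) hE2).trans (le_of_eq ?_)
        ring

end Pool.Agent.LQN
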