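import Pool.Agent.LEAF.DOMW

/-!
Domination of the caps of a density which is rough in one variable and is, along the smooth
variables, the pull back of a bounded smooth family under an arbitrary map (anisotropic windows).
-/

set_option autoImplicit false

namespace Pool.Agent.LQN

open MeasureTheory Set Metric FourierTransform Pool.Agent.LF Pool.Agent.GNP Pool.Agent.LEAF
open Pool.Agent.MP_6cbfb8_an
open scoped ENNReal Real RealInnerProductSpace ContDiff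

/-- DOM for a pull back, on a window `Z`. -/
theorem dom_aff (n m : ℕ) (B : ℕ → ℝ) (A D C2 δ0 : ℝ) (hA : 0 ≤ A) (hD : 0 ≤ D) (hC2 : 0 ≤ C2) :
    ∃ C : ℝ, 0 < C ∧ ∀ (X : ℝ × E m → E n), ContDiff ℝ ∞ X →
    (∀ p, ‖iteratedFDeriv ℝ 2 X p‖ ≤ A) →
    ∀ θ : ℝ → ℝ, ContDiff ℝ 1 θ → (∀ u, 1 ≤ |u| → θ u = 0) → (∀ u, |θ u| ≤ 1) →
    (∀ u, |deriv θ u| ≤ D) →
    ∀ (b : ℝ × E m → ℂ) (b' : ℝ → E m → ℂ) (L : E m → E m) (u0 : E m) (β : ℝ → ℝ) (Mβ : ℝ)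
      (z0 : E m) (δ : ℝ) (Z : Set (E m)), Measurable b → (∀ t z, b (t, z) = b' t (L z)) →
    Measurable (Function.uncurry b') → Measurable β → (∀ t, 0 ≤ β t) → (∀ t, β t ≤ Mβ) →
    (∀ t, ContDiff ℝ ∞ (b' t)) → (∀ t k u, ‖iteratedFDeriv ℝ k (b' t) u‖ ≤ β t * B k) →
    (∀ t u, δ0 < ‖u - u0‖ → b' t u = 0) → MeasurableSet Z → Z ⊆ closedBall z0 δ →
    (∀ t z, z ∉ Z → b (t, z) = 0) →
    ∀ R t0 : ℝ, 1 ≤ R → ∃ GG : ℝ → ℝ≥0∞, Measurable GG ∧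
      (∫⁻ τ, GG τ ≤ ENNReal.ofReal C *
        ∫⁻ t in closedBall t0 (1 / √R), ENNReal.ofReal (β t ^ 2)) ∧
      (∀ τ, GG τ ≤ ENNReal.ofReal C *
        (∫⁻ t in closedBall t0 (1 / √R), ENNReal.ofReal (β t)) ^ 2) ∧
      ∀ (zc : E m) (χ : E m → ℝ), Measurable χ → (∀ z, |χ z| ≤ 1) →
        (∀ z, C2 / √R < ‖z - zc‖ → χ z = 0) → ∀ ξ : E n, ‖ξ‖ ≤ 4 * R →
        ‖∫ p : ℝ × E m, ((θ (√R * (p.1 - t0)) * χ p.2 : ℝ) : ℂ) * b p *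
          Complex.exp (((-⟪ξ, X p⟫ : ℝ) : ℂ) * Complex.I)‖ₑ ^ 2 ≤
          ENNReal.ofReal (C * (1 / √R) ^ m) *
            ∫⁻ z in closedBall zc (C2 / √R) ∩ Z, GG ⟪ξ, Xt X (t0, z)⟫ := by
  obtain ⟨C1, hC1, H⟩ := dom_one2 n m B δ0 A D hA hD
  set v1 : ℝ := (volume (ball (0 : E m) 1)).toReal with hv1
  have hv10 : 0 ≤ v1 := ENNReal.toReal_nonneg
  have hCC : 0 ≤ C2 ^ m * v1 := by positivity
  refine ⟨C1 + C2 ^ m * v1, by positivity, fun X hX hXA θ hθ hθs hθ0 hθ1 b b' L u0 β Mβ z0 δ Z hbm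
    hbb hb'm hβm hβ hβM hb's hb'B hb'0 hZm hZ hbZ R t0 hR => ?_⟩
  have hR0 : 0 < R := by linarith
  obtain ⟨GG, hGm, hG1, hG2, hG3⟩ := H θ hθ hθs hθ0 hθ1 b' u0 β Mβ R t0 hβm hβ hβM hb'm hb's hb'0
    hb'B hR
  refine ⟨GG, hGm, hG1.trans (mul_le_mul' (ENNReal.ofReal_le_ofReal (by linarith)) le_rfl),
    fun τ => (hG2 τ).trans (mul_le_mul' (ENNReal.ofReal_le_ofReal (by linarith)) le_rfl),
    fun zc χ hχm hχ1 hχ0 ξ hξ => ?_⟩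
  have hJ0 : ∀ z, ‖∫ t, b (t, z) * (θ (√R * (t - t0)) : ℂ) *
      Complex.exp (((-⟪ξ, X (t, z)⟫ : ℝ) : ℂ) * Complex.I)‖ₑ ^ 2 ≤ GG ⟪ξ, Xt X (t0, z)⟫ := by
    intro z
    simp only [hbb _ z]
    exact hG3 (L z) (fun t => X (t, z)) (fun t => Xt X (t, z)) ξ
      (fun t => hasDerivAt_Xt hX z t) ((continuous_Xt hX).comp (by fun_prop))
      (fun t _ => Xt_lip hX hXA z t t0) hξ
  have hGc0 : Measurable fun z : E m => GG ⟪ξ, Xt X (t0, z)⟫ := by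
    refine hGm.comp ?_
    have h1 : Continuous fun z : E m => ⟪ξ, Xt X (t0, z)⟫ :=
      continuous_const.inner ((continuous_Xt hX).comp (by fun_prop))
    exact h1.measurable
  have hGc : Measurable (Z.indicator fun z : E m => GG ⟪ξ, Xt X (t0, z)⟫) := hGc0.indicator hZm
  have hJ : ∀ z, ‖∫ t, b (t, z) * (θ (√R * (t - t0)) : ℂ) *
      Complex.exp (((-⟪ξ, X (t, z)⟫ : ℝ) : ℂ) * Complex.I)‖ₑ ^ 2 ≤
      Z.indicator (fun z : E m => GG ⟪ξ, Xt X (t0, z)⟫) z := by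
    intro z
    by_cases hz : z ∈ Z
    · rw [indicator_of_mem hz]
      exact hJ0 z
    · rw [indicator_of_notMem hz]
      simp [hbZ _ z hz]
  have hMβ : 0 ≤ Mβ := (hβ 0).trans (hβM 0)
  have hbd : ∀ p, ‖b p‖ ≤ Mβ * |B 0| := by
    intro p
    have h1 := hb'B p.1 0 (L p.2)
    rw [norm_iteratedFDeriv_zero, ← hbb] at h1
    refine le_trans (le_of_eq rfl) (h1.trans ?_)
    calc β p.1 * B 0 ≤ β p.1 * |B 0| := mul_le_mul_of_nonneg_left (le_abs_self _) (hβ _)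
      _ ≤ Mβ * |B 0| := mul_le_mul_of_nonneg_right (hβM _) (abs_nonneg _)
  have hb0 : ∀ t z, δ < ‖z - z0‖ → b (t, z) = 0 := by
    intro t z hz
    refine hbZ t z fun h => ?_
    have h1 := hZ h
    rw [mem_closedBall, dist_eq_norm] at h1
    linarith
  refine (dom_asm hX hθ hθs hθ0 hbm hbd hb0 hR0 hC2 (C1 := C1 + C2 ^ m * v1) (by linarith) hGc hJ
    hχm hχ1 hχ0).trans ?_
  refine mul_le_mul' le_rfl ?_
  rw [setLIntegral_indicator hZm]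
  exact lintegral_mono_set fun z hz => ⟨hz.2.1, hz.1⟩

/-- DOM for the caps of the grid, for a pull back, on a window `Z`. -/
theorem dom_caps_aff (n m : ℕ) (B : ℕ → ℝ) (A δ0 : ℝ) (hA : 0 ≤ A) :
    ∃ C : ℝ, 0 < C ∧ ∀ (X : ℝ × E m → E n), ContDiff ℝ ∞ X →
    (∀ p, ‖iteratedFDeriv ℝ 2 X p‖ ≤ A) →
    ∀ (b : ℝ × E m → ℂ) (b' : ℝ → E m → ℂ) (L : E m → E m) (u0 : E m) (β : ℝ → ℝ) (Mβ : ℝ)
      (z1 : E m) (δ : ℝ) (Z : Set (E m)), Measurable b → (∀ t z, b (t, z) = b' t (L z)) →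
    Measurable (Function.uncurry b') → Measurable β → (∀ t, 0 ≤ β t) → (∀ t, β t ≤ Mβ) →
    (∀ t, ContDiff ℝ ∞ (b' t)) → (∀ t k u, ‖iteratedFDeriv ℝ k (b' t) u‖ ≤ β t * B k) →
    (∀ t u, δ0 < ‖u - u0‖ → b' t u = 0) → MeasurableSet Z → Z ⊆ closedBall z1 δ →
    (∀ t z, z ∉ Z → b (t, z) = 0) →
    ∀ (R t0 : ℝ) (z0 : E m) (M i : ℕ), 1 ≤ R → ∃ GG : ℝ → ℝ≥0∞, Measurable GG ∧
      (∫⁻ τ, GG τ ≤ ENNReal.ofReal C *
        ∫⁻ t in closedBall (tc t0 (1 / √R) M i) (1 / √R), ENNReal.ofReal (β t ^ 2)) ∧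
      (∀ τ, GG τ ≤ ENNReal.ofReal C *
        (∫⁻ t in closedBall (tc t0 (1 / √R) M i) (1 / √R), ENNReal.ofReal (β t)) ^ 2) ∧
      ∀ (k : Fin m → ℕ) (ξ : E n), ‖ξ‖ ≤ 4 * R →
        ‖∫ p : ℝ × E m, ((chi1 t0 (1 / √R) M i p.1 * chi2 z0 (1 / √R) M k p.2 : ℝ) : ℂ) * b p *
          Complex.exp (((-⟪ξ, X p⟫ : ℝ) : ℂ) * Complex.I)‖ₑ ^ 2 ≤
          ENNReal.ofReal (C * (1 / √R) ^ m) *
            ∫⁻ z in closedBall (zc z0 (1 / √R) M k) (√m / √R) ∩ Z,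
              GG ⟪ξ, Xt X (tc t0 (1 / √R) M i, z)⟫ := by
  obtain ⟨D, hD0, hD⟩ := th_deriv_bound
  obtain ⟨C, hC, H⟩ := dom_aff n m B A D (√m) δ0 hA hD0 (Real.sqrt_nonneg _)
  refine ⟨C, hC, fun X hX hXA b b' L u0 β Mβ z1 δ Z hbm hbb hb'm hβm hβ hβM hb's hb'B hb'0 hZm hZ
    hbZ R t0 z0 M i hR => ?_⟩
  have hR0 : 0 < R := by linarith
  have hsR : 0 < √R := Real.sqrt_pos.2 hR0
  have hr : 0 < 1 / √R := by positivity
  obtain ⟨GG, hGm, hG1, hG2, hG3⟩ := H X hX hXA th (tr_contDiff_th.of_le (by norm_num))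
    (fun u hu => tr_th_zero hu)
    (fun u => by
      rw [abs_of_nonneg (caps_th_nonneg u)]
      exact caps_th_le_one u) hD b b' L u0 β Mβ z1 δ Z hbm hbb hb'm hβm hβ hβM hb's hb'B hb'0 hZm
    hZ hbZ R (tc t0 (1 / √R) M i) hR
  refine ⟨GG, hGm, hG1, hG2, fun k ξ hξ => ?_⟩
  have h1 : ∀ t, chi1 t0 (1 / √R) M i t = th (√R * (t - tc t0 (1 / √R) M i)) := by
    intro t
    unfold chi1
    congr 1
    field_simp
  have h2 := hG3 (zc z0 (1 / √R) M k) (chi2 z0 (1 / √R) M k)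
    (contDiff_chi2 z0 (1 / √R) M k).continuous.measurable
    (fun z => by
      rw [abs_of_nonneg (chi2_nonneg z0 (1 / √R) M k z)]
      exact chi2_le_one z0 (1 / √R) M k z)
    (fun z hz => chi2_zero hr (by rwa [mul_one_div])) ξ hξ
  simp only [h1]
  exact h2

end Pool.Agent.LQN
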