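import Pool.Agent.LF.COREA1

/-!
LQN, row ORTHA: orthogonality by the relation `x₁ + x₂ = x₃ + x₄` alone; the related quadruples are
counted at one frequency, among the caps which are active there.
-/

set_option autoImplicit false

namespace Pool.Agent.LQN

open MeasureTheory Set Finset
open scoped ENNReal Real ComplexConjugate

/-- **(ORTH), counted at one frequency.** -/
theorem orthA {κ α : Type*} [Fintype κ] [MeasurableSpace α] (μ : Measure α) [IsFiniteMeasure μ]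
    {A : Set α} (hA : ∀ᵐ x ∂μ, x ∈ A) (rel : κ → κ → κ → κ → Prop)
    (hsym : ∀ c1 c2 c3 c4, rel c1 c2 c3 c4 → rel c3 c4 c1 c2) (act : κ → α → Prop)
    {M B ε1 ε2 : ℝ} (hε1 : 0 ≤ ε1) (hε2 : 0 ≤ ε2)
    (hM : ∀ x ∈ A, ∀ c1 c2, ({q : κ × κ | (act c1 x ∧ act c2 x ∧ act q.1 x ∧ act q.2 x) ∧
      rel c1 c2 q.1 q.2}.ncard : ℝ) ≤ M)
    (f : κ → α → ℂ) (hf : ∀ c, Measurable (f c)) (hB : ∀ c x, ‖f c x‖ ≤ B)
    (hna : ∀ c, ∀ x ∈ A, ¬act c x → ‖f c x‖ ≤ ε1)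
    (h : ∀ c1 c2 c3 c4, ¬rel c1 c2 c3 c4 →
      ‖∫ x, f c1 x * f c2 x * conj (f c3 x) * conj (f c4 x) ∂μ‖ ≤ ε2) :
    ∫ x, ‖∑ c, f c x‖ ^ 4 ∂μ ≤
      M * ∫ x, (∑ c, ‖f c x‖ ^ 2) ^ 2 ∂μ +
        (Fintype.card κ : ℝ) ^ 4 * (ε1 * B ^ 3 * μ.real univ + ε2) := by
  classical
  -- the products
  set g : (κ × κ) × κ × κ → α → ℂ := fun q x =>
    f q.1.1 x * f q.1.2 x * conj (f q.2.1 x) * conj (f q.2.2 x) with hg
  set b : κ × κ → α → ℝ := fun p x => ‖f p.1 x‖ * ‖f p.2 x‖ with hb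
  have hga : ∀ q x, ‖g q x‖ = b q.1 x * b q.2 x := by
    intro q x
    simp only [hg, hb, norm_mul, RCLike.norm_conj]
    ring
  have hgm : ∀ q, Measurable (g q) := fun q =>
    (((hf _).mul (hf _)).mul (Complex.continuous_conj.measurable.comp (hf _))).mul
      (Complex.continuous_conj.measurable.comp (hf _))
  have hbm : ∀ p, Measurable (b p) := fun p => (hf _).norm.mul (hf _).norm
  have hb0 : ∀ p x, 0 ≤ b p x := fun p x => by simp only [hb]; positivity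
  have hb2 : ∀ p x, b p x ≤ B ^ 2 := by
    intro p x
    have hB0 : 0 ≤ B := (norm_nonneg _).trans (hB p.1 x)
    calc b p x ≤ B * B := by
          simp only [hb]
          gcongr <;> exact hB _ _
      _ = B ^ 2 := by ring
  have hgi : ∀ q, Integrable (g q) μ := fun q =>
    Integrable.of_bound (hgm q).aestronglyMeasurable (B ^ 2 * B ^ 2)
      (Filter.Eventually.of_forall fun x => (hga q x).le.trans
        (mul_le_mul (hb2 _ _) (hb2 _ _) (hb0 _ _) ((hb0 q.1 x).trans (hb2 q.1 x))))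
  have hbi : ∀ p, Integrable (fun x => b p x ^ 2) μ := fun p =>
    Integrable.of_bound ((hbm p).pow_const 2).aestronglyMeasurable ((B ^ 2) ^ 2)
      (Filter.Eventually.of_forall fun x => by
        rw [Real.norm_of_nonneg (by positivity)]
        exact pow_le_pow_left₀ (hb0 _ _) (hb2 _ _) 2)
  -- the expansion
  have hexp : ∀ x, ((‖∑ c, f c x‖ ^ 4 : ℝ) : ℂ) = ∑ q, g q x := by
    intro x
    have e1 : ((‖∑ c, f c x‖ ^ 4 : ℝ) : ℂ) =
        ((∑ c, f c x) * ∑ c, f c x) * ((∑ c, conj (f c x)) * ∑ c, conj (f c x)) := by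
      rw [← map_sum]
      set F := ∑ c, f c x
      have e2 : F * conj F = ((‖F‖ ^ 2 : ℝ) : ℂ) := by
        rw [Complex.mul_conj, Complex.normSq_eq_norm_sq]
      calc ((‖F‖ ^ 4 : ℝ) : ℂ) = ((‖F‖ ^ 2 : ℝ) : ℂ) * ((‖F‖ ^ 2 : ℝ) : ℂ) := by
            push_cast; ring
        _ = (F * conj F) * (F * conj F) := by rw [e2]
        _ = _ := by ring
    rw [e1, Finset.sum_mul_sum, Finset.sum_mul_sum]
    simp only [hg, Fintype.sum_prod_type]
    rw [Finset.sum_mul]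
    refine sum_congr rfl fun c1 _ => ?_
    rw [Finset.sum_mul]
    refine sum_congr rfl fun c2 _ => ?_
    rw [mul_sum]
    refine sum_congr rfl fun c3 _ => ?_
    rw [mul_sum]
    refine sum_congr rfl fun c4 _ => ?_
    ring
  have hI : ∫ x, ‖∑ c, f c x‖ ^ 4 ∂μ ≤ ∑ q, ‖∫ x, g q x ∂μ‖ := by
    have e1 : ((∫ x, ‖∑ c, f c x‖ ^ 4 ∂μ : ℝ) : ℂ) = ∑ q, ∫ x, g q x ∂μ := by
      rw [← integral_complex_ofReal, ← integral_finsetSum _ fun q _ => hgi q]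
      exact integral_congr_ae (Filter.Eventually.of_forall hexp)
    calc ∫ x, ‖∑ c, f c x‖ ^ 4 ∂μ ≤ ‖((∫ x, ‖∑ c, f c x‖ ^ 4 ∂μ : ℝ) : ℂ)‖ := by
          rw [Complex.norm_real]
          exact Real.le_norm_self _
      _ = ‖∑ q, ∫ x, g q x ∂μ‖ := by rw [e1]
      _ ≤ _ := norm_sum_le _ _
  -- the pointwise bound
  set n4 : ℝ := (Fintype.card κ : ℝ) ^ 4 with hn4
  have hn40 : 0 ≤ n4 := by positivity
  by_cases hκ : IsEmpty κ
  · have : IsEmpty κ := hκ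
    have h0 : ∫ x, ‖∑ c, f c x‖ ^ 4 ∂μ = 0 := by simp
    have h1 : ∫ x, (∑ c, ‖f c x‖ ^ 2) ^ 2 ∂μ = 0 := by simp
    rw [h0, h1, hn4]
    simp
  rw [not_isEmpty_iff] at hκ
  obtain ⟨a0⟩ := hκ
  by_cases hα : IsEmpty α
  · have h0 : μ = 0 := Measure.eq_zero_of_isEmpty μ
    rw [h0]
    simp only [integral_zero_measure, mul_zero, zero_add]
    have : 0 ≤ n4 * ε2 := by positivity
    simpa [Measure.real] using this
  rw [not_isEmpty_iff] at hα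
  obtain ⟨x0⟩ := hα
  have hB0 : 0 ≤ B := (norm_nonneg _).trans (hB a0 x0)
  have hcardq : ((univ : Finset ((κ × κ) × κ × κ)).card : ℝ) = n4 := by
    rw [card_univ, hn4]
    simp only [Fintype.card_prod]
    push_cast
    ring
  have hpt : ∀ x ∈ A, ∑ q : (κ × κ) × κ × κ,
      (if rel q.1.1 q.1.2 q.2.1 q.2.2 then b q.1 x * b q.2 x else 0) ≤
      M * (∑ c, ‖f c x‖ ^ 2) ^ 2 + n4 * (ε1 * B ^ 3) := by
    intro x hx
    have hs : ∑ p : κ × κ, b p x ^ 2 = (∑ c, ‖f c x‖ ^ 2) ^ 2 := by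
      simp only [hb, Fintype.sum_prod_type]
      rw [sq, sum_mul_sum]
      refine sum_congr rfl fun c1 _ => sum_congr rfl fun c2 _ => ?_
      ring
    set R1 : κ × κ → κ × κ → Prop := fun p q =>
      (act p.1 x ∧ act p.2 x ∧ act q.1 x ∧ act q.2 x) ∧ rel p.1 p.2 q.1 q.2 with hR1
    have hR1s : ∀ p q, R1 p q → R1 q p := fun p q h =>
      ⟨⟨h.1.2.2.1, h.1.2.2.2, h.1.1, h.1.2.1⟩, hsym _ _ _ _ h.2⟩
    have hcard : ∀ p : κ × κ, ((univ.filter fun q : κ × κ => R1 p q).card : ℝ) ≤ M := by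
      intro p
      refine le_trans (le_of_eq ?_) (hM x hx p.1 p.2)
      congr 1
      rw [← Set.ncard_coe_finset]
      congr 1
      ext c'
      simp [hR1]
    have hterm : ∀ q : (κ × κ) × κ × κ,
        (if rel q.1.1 q.1.2 q.2.1 q.2.2 then b q.1 x * b q.2 x else 0) ≤
        (if R1 q.1 q.2 then b q.1 x ^ 2 / 2 else 0) +
          (if R1 q.2 q.1 then b q.2 x ^ 2 / 2 else 0) + ε1 * B ^ 3 := by
      intro q
      have e0 : 0 ≤ ε1 * B ^ 3 := by positivity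
      by_cases h1 : R1 q.1 q.2
      · rw [if_pos h1, if_pos (hR1s _ _ h1), if_pos h1.2]
        nlinarith [sq_nonneg (b q.1 x - b q.2 x)]
      · have h2 : ¬ R1 q.2 q.1 := fun h => h1 (hR1s _ _ h)
        rw [if_neg h1, if_neg h2, zero_add, zero_add]
        split_ifs with hr
        · have h3 : ¬(act q.1.1 x ∧ act q.1.2 x ∧ act q.2.1 x ∧ act q.2.2 x) :=
            fun h => h1 ⟨h, hr⟩
          have n1 := norm_nonneg (f q.1.1 x)
          have n2 := norm_nonneg (f q.1.2 x)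
          have n3 := norm_nonneg (f q.2.1 x)
          have n4' := norm_nonneg (f q.2.2 x)
          have key : ‖f q.1.1 x‖ ≤ ε1 ∨ ‖f q.1.2 x‖ ≤ ε1 ∨ ‖f q.2.1 x‖ ≤ ε1 ∨
              ‖f q.2.2 x‖ ≤ ε1 := by
            by_contra hcon
            push Not at hcon
            refine h3 ⟨?_, ?_, ?_, ?_⟩
            · by_contra h4
              exact absurd (hna _ x hx h4) (not_le.2 hcon.1)
            · by_contra h4
              exact absurd (hna _ x hx h4) (not_le.2 hcon.2.1)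
            · by_contra h4
              exact absurd (hna _ x hx h4) (not_le.2 hcon.2.2.1)
            · by_contra h4
              exact absurd (hna _ x hx h4) (not_le.2 hcon.2.2.2)
          simp only [hb]
          rcases key with h5 | h5 | h5 | h5
          · calc ‖f q.1.1 x‖ * ‖f q.1.2 x‖ * (‖f q.2.1 x‖ * ‖f q.2.2 x‖) ≤
                  ε1 * B * (B * B) := by
                  gcongr
                  · exact hB _ _
                  · exact hB _ _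
                  · exact hB _ _
              _ = ε1 * B ^ 3 := by ring
          · calc ‖f q.1.1 x‖ * ‖f q.1.2 x‖ * (‖f q.2.1 x‖ * ‖f q.2.2 x‖) ≤
                  B * ε1 * (B * B) := by
                  gcongr
                  · exact hB _ _
                  · exact hB _ _
                  · exact hB _ _
              _ = ε1 * B ^ 3 := by ring
          · calc ‖f q.1.1 x‖ * ‖f q.1.2 x‖ * (‖f q.2.1 x‖ * ‖f q.2.2 x‖) ≤
                  B * B * (ε1 * B) := by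
                  gcongr
                  · exact hB _ _
                  · exact hB _ _
                  · exact hB _ _
              _ = ε1 * B ^ 3 := by ring
          · calc ‖f q.1.1 x‖ * ‖f q.1.2 x‖ * (‖f q.2.1 x‖ * ‖f q.2.2 x‖) ≤
                  B * B * (B * ε1) := by
                  gcongr
                  · exact hB _ _
                  · exact hB _ _
                  · exact hB _ _
              _ = ε1 * B ^ 3 := by ring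
        · exact e0
    have hhalf : ∑ p : κ × κ, ∑ q : κ × κ, (if R1 p q then b p x ^ 2 / 2 else 0) ≤
        M / 2 * ∑ p, b p x ^ 2 := by
      rw [mul_sum]
      refine sum_le_sum fun p _ => ?_
      rw [← sum_filter, sum_const, nsmul_eq_mul]
      have h3 := mul_le_mul_of_nonneg_right (hcard p) (by positivity : 0 ≤ b p x ^ 2 / 2)
      linarith
    have h1 := sum_le_sum fun q (_ : q ∈ (univ : Finset ((κ × κ) × κ × κ))) => hterm q
    refine h1.trans ?_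
    rw [sum_add_distrib, sum_add_distrib, sum_const, nsmul_eq_mul, hcardq]
    have h3 : ∑ q : (κ × κ) × κ × κ, (if R1 q.1 q.2 then b q.1 x ^ 2 / 2 else 0) ≤
        M / 2 * ∑ p, b p x ^ 2 := by
      rw [Fintype.sum_prod_type]
      exact hhalf
    have h4 : ∑ q : (κ × κ) × κ × κ, (if R1 q.2 q.1 then b q.2 x ^ 2 / 2 else 0) ≤
        M / 2 * ∑ p, b p x ^ 2 := by
      rw [Fintype.sum_prod_type, sum_comm]
      exact hhalf
    rw [hs] at h3 h4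
    linarith
  -- near and far
  have hbb : ∀ q : (κ × κ) × κ × κ, Integrable (fun x => b q.1 x * b q.2 x) μ := fun q => by
    have h1 := (hgi q).norm
    simpa only [hga] using h1
  have hterm2 : ∀ q, ‖∫ x, g q x ∂μ‖ ≤
      ∫ x, (if rel q.1.1 q.1.2 q.2.1 q.2.2 then b q.1 x * b q.2 x else 0) ∂μ + ε2 := by
    intro q
    by_cases hn : rel q.1.1 q.1.2 q.2.1 q.2.2
    · simp only [if_pos hn]
      have h1 : ‖∫ x, g q x ∂μ‖ ≤ ∫ x, b q.1 x * b q.2 x ∂μ := by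
        refine (norm_integral_le_integral_norm _).trans (le_of_eq ?_)
        exact integral_congr_ae (Filter.Eventually.of_forall (hga q))
      linarith
    · simp only [if_neg hn, integral_zero, zero_add]
      exact h _ _ _ _ hn
  have hint : ∀ q : (κ × κ) × κ × κ, Integrable (fun x =>
      (if rel q.1.1 q.1.2 q.2.1 q.2.2 then b q.1 x * b q.2 x else 0)) μ := by
    intro q
    split_ifs
    · exact hbb q
    · exact integrable_zero _ _ _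
  have hsq : Integrable (fun x => (∑ c, ‖f c x‖ ^ 2) ^ 2) μ := by
    refine Integrable.of_bound (C := (∑ _c : κ, B ^ 2) ^ 2) ?_
      (Filter.Eventually.of_forall fun x => ?_)
    · exact ((Finset.measurable_fun_sum _ fun c _ => (hf c).norm.pow_const 2).pow_const
        2).aestronglyMeasurable
    · rw [Real.norm_of_nonneg (by positivity)]
      gcongr with c
      exact hB c x
  have h1 := sum_le_sum fun q (_ : q ∈ (univ : Finset ((κ × κ) × κ × κ))) => hterm2 q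
  refine hI.trans (h1.trans ?_)
  rw [sum_add_distrib, sum_const, nsmul_eq_mul, hcardq, ← integral_finsetSum _ fun q _ => hint q]
  have h2 : ∫ x, ∑ q : (κ × κ) × κ × κ,
      (if rel q.1.1 q.1.2 q.2.1 q.2.2 then b q.1 x * b q.2 x else 0) ∂μ ≤
      ∫ x, (M * (∑ c, ‖f c x‖ ^ 2) ^ 2 + n4 * (ε1 * B ^ 3)) ∂μ := by
    refine integral_mono_ae (integrable_finsetSum _ fun q _ => hint q)
      ((hsq.const_mul _).add (integrable_const _)) ?_
    filter_upwards [hA] with x hx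
    exact hpt x hx
  rw [integral_add (hsq.const_mul _) (integrable_const _), integral_const_mul, integral_const,
    smul_eq_mul] at h2
  calc _ ≤ M * ∫ x, (∑ c, ‖f c x‖ ^ 2) ^ 2 ∂μ + μ.real univ * (n4 * (ε1 * B ^ 3)) + n4 * ε2 := by
        linarith
    _ = _ := by ring

/-- **(CORE-A)** in the annulus, the related quadruples counted at one frequency. -/
theorem coreAn {n : ℕ} {P W : Type*} [NormedAddCommGroup W] [NormedSpace ℝ W]
    (X : P → EuclideanSpace ℝ (Fin n)) (V : EuclideanSpace ℝ (Fin n) → P → W)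
    {R Λ e ε2 B M : ℝ} {η : EuclideanSpace ℝ (Fin n) → ℝ} (hR : 0 < R) (he : 0 ≤ e)
    (hε2 : 0 ≤ ε2)
    (hηc : Continuous η) (hη0 : ∀ x, 0 ≤ η x) (hη1 : ∀ x, η x ≤ 1)
    (hηo : ∀ x, 1 ≤ ‖x‖ → ‖x‖ ≤ 2 → η x = 1) (hηs : ∀ x, η x ≠ 0 → 1 / 2 ≤ ‖x‖ ∧ ‖x‖ ≤ 4)
    {κ : Type*} [Fintype κ] (pc : κ → P) (T : κ → Set P) (f : κ → EuclideanSpace ℝ (Fin n) → ℂ)
    (hM : ∀ ξ, R / 2 ≤ ‖ξ‖ → ‖ξ‖ ≤ 4 * R → ∀ a b, ({q : κ × κ | (‖V ξ (pc a)‖ ≤ Λ ∧
      ‖V ξ (pc b)‖ ≤ Λ ∧ ‖V ξ (pc q.1)‖ ≤ Λ ∧ ‖V ξ (pc q.2)‖ ≤ Λ) ∧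
      ∃ p1 ∈ T a, ∃ p2 ∈ T b, ∃ p3 ∈ T q.1, ∃ p4 ∈ T q.2,
        ‖X p1 + X p2 - X p3 - X p4‖ ≤ (Λ / R) ^ 2}.ncard : ℝ) ≤ M)
    (hf : ∀ a, Measurable (f a)) (hB : ∀ a ξ, ‖f a ξ‖ ≤ B)
    (hnsp : ∀ a ξ, R / 2 ≤ ‖ξ‖ → ‖ξ‖ ≤ 4 * R → Λ ≤ ‖V ξ (pc a)‖ → ‖f a ξ‖ ≤ e)
    (horth : ∀ a1 a2 a3 a4, (∀ p1 ∈ T a1, ∀ p2 ∈ T a2, ∀ p3 ∈ T a3, ∀ p4 ∈ T a4,
      (Λ / R) ^ 2 < ‖X p1 + X p2 - X p3 - X p4‖) →
      ‖∫ ξ, (η (R⁻¹ • ξ) : ℂ) * (f a1 ξ * f a2 ξ * conj (f a3 ξ) * conj (f a4 ξ))‖ ≤ ε2) :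
    ∫⁻ ξ in {ξ : EuclideanSpace ℝ (Fin n) | R ≤ ‖ξ‖ ∧ ‖ξ‖ ≤ 2 * R}, ‖∑ a, f a ξ‖ₑ ^ 4 ≤
      ENNReal.ofReal M *
        (∫⁻ ξ in {ξ : EuclideanSpace ℝ (Fin n) | R / 2 ≤ ‖ξ‖ ∧ ‖ξ‖ ≤ 4 * R},
          (∑ a, ‖f a ξ‖ₑ ^ 2) ^ 2) +
      ENNReal.ofReal ((Fintype.card κ : ℝ) ^ 4 * (e * B ^ 3 *
        (volume : Measure (EuclideanSpace ℝ (Fin n))).real
          {ξ : EuclideanSpace ℝ (Fin n) | R / 2 ≤ ‖ξ‖ ∧ ‖ξ‖ ≤ 4 * R} + ε2)) := by
  by_cases hκ : IsEmpty κ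
  · simp
  rw [not_isEmpty_iff] at hκ
  obtain ⟨a0⟩ := hκ
  have hB0 : 0 ≤ B := (norm_nonneg _).trans (hB a0 0)
  set μ := LF.ca_mu η R with hμ
  have hfin : μ univ ≤ volume (LF.ca_an n R) := LF.ca_mu_fin hR hη1 hηs hηc
  have : IsFiniteMeasure μ := ⟨hfin.trans_lt (LF.ca_an_fin n R).lt_top⟩
  by_cases hne : ∃ ξ : EuclideanSpace ℝ (Fin n), R / 2 ≤ ‖ξ‖ ∧ ‖ξ‖ ≤ 4 * R
  swap
  · have h0 : {ξ : EuclideanSpace ℝ (Fin n) | R ≤ ‖ξ‖ ∧ ‖ξ‖ ≤ 2 * R} = ∅ := by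
      ext ξ
      simp only [mem_setOf_eq, mem_empty_iff_false, iff_false]
      intro h
      exact hne ⟨ξ, by linarith [h.1], by linarith [h.2]⟩
    rw [h0]
    simp
  obtain ⟨ξ0, hξ0⟩ := hne
  have hM0 : 0 ≤ M := le_trans (Nat.cast_nonneg _) (hM ξ0 hξ0.1 hξ0.2 a0 a0)
  -- the estimate at one scale
  have key := orthA μ (A := LF.ca_an n R) (LF.ca_mu_ae hR hηs hηc)
    (fun a b c d => ∃ p1 ∈ T a, ∃ p2 ∈ T b, ∃ p3 ∈ T c, ∃ p4 ∈ T d,
      ‖X p1 + X p2 - X p3 - X p4‖ ≤ (Λ / R) ^ 2)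
    (by
      rintro a b c d ⟨p1, h1, p2, h2, p3, h3, p4, h4, h5⟩
      refine ⟨p3, h3, p4, h4, p1, h1, p2, h2, ?_⟩
      rw [← norm_neg]
      have e1 : -(X p3 + X p4 - X p1 - X p2) = X p1 + X p2 - X p3 - X p4 := by abel
      rw [e1]
      exact h5)
    (fun a ξ => ‖V ξ (pc a)‖ ≤ Λ) (M := M) (B := B) (ε1 := e) (ε2 := ε2) he hε2
    (fun ξ hξ a b => hM ξ hξ.1 hξ.2 a b) f hf hB
    (fun a ξ hξ h1 => hnsp a ξ hξ.1 hξ.2 (not_le.1 h1).le)
    (fun a1 a2 a3 a4 h => by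
      rw [hμ, LF.ca_mu_int hη0 hηc]
      refine horth a1 a2 a3 a4 fun p1 h1 p2 h2 p3 h3 p4 h4 => ?_
      by_contra h5
      exact h ⟨p1, h1, p2, h2, p3, h3, p4, h4, not_lt.1 h5⟩)
  -- measurability
  have hms : Measurable fun ξ => ∑ a, f a ξ := Finset.measurable_fun_sum _ fun a _ => hf a
  have hm1 : Measurable fun ξ => ‖∑ a, f a ξ‖ₑ ^ 4 := hms.enorm.pow_const 4
  have hm2 : Measurable fun ξ => (∑ a, ‖f a ξ‖ₑ ^ 2) ^ 2 :=
    (Finset.measurable_fun_sum _ fun a _ => (hf a).enorm.pow_const 2).pow_const 2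
  have hsum : ∀ ξ, ‖∑ a, f a ξ‖ ≤ ∑ _a : κ, B := fun ξ =>
    (norm_sum_le _ _).trans (Finset.sum_le_sum fun a _ => hB a ξ)
  have hsq : ∀ ξ, ∑ a, ‖f a ξ‖ ^ 2 ≤ ∑ _a : κ, B ^ 2 := fun ξ =>
    Finset.sum_le_sum fun a _ => pow_le_pow_left₀ (norm_nonneg _) (hB a ξ) 2
  have hi1 : Integrable (fun ξ => ‖∑ a, f a ξ‖ ^ 4) μ := by
    refine Integrable.of_bound (hms.norm.pow_const 4).aestronglyMeasurable ((∑ _a : κ, B) ^ 4)
      (Filter.Eventually.of_forall fun ξ => ?_)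
    rw [Real.norm_of_nonneg (by positivity)]
    exact pow_le_pow_left₀ (norm_nonneg _) (hsum ξ) 4
  have hi2 : Integrable (fun ξ => (∑ a, ‖f a ξ‖ ^ 2) ^ 2) μ := by
    refine Integrable.of_bound ((Finset.measurable_fun_sum _ fun a _ =>
      (hf a).norm.pow_const 2).pow_const 2).aestronglyMeasurable ((∑ _a : κ, B ^ 2) ^ 2)
      (Filter.Eventually.of_forall fun ξ => ?_)
    rw [Real.norm_of_nonneg (by positivity)]
    exact pow_le_pow_left₀ (by positivity) (hsq ξ) 2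
  have e1 : ∫⁻ ξ, ‖∑ a, f a ξ‖ₑ ^ 4 ∂μ = ENNReal.ofReal (∫ ξ, ‖∑ a, f a ξ‖ ^ 4 ∂μ) := by
    rw [ofReal_integral_eq_lintegral_ofReal hi1 (Filter.Eventually.of_forall fun ξ => by positivity)]
    refine lintegral_congr fun ξ => ?_
    rw [ENNReal.ofReal_pow (norm_nonneg _), ofReal_norm]
  have e2 : ENNReal.ofReal (∫ ξ, (∑ a, ‖f a ξ‖ ^ 2) ^ 2 ∂μ) =
      ∫⁻ ξ, (∑ a, ‖f a ξ‖ₑ ^ 2) ^ 2 ∂μ := by
    rw [ofReal_integral_eq_lintegral_ofReal hi2 (Filter.Eventually.of_forall fun ξ => by positivity)]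
    refine lintegral_congr fun ξ => ?_
    rw [ENNReal.ofReal_pow (by positivity), ENNReal.ofReal_sum_of_nonneg fun a _ => by positivity]
    congr 1
    refine Finset.sum_congr rfl fun a _ => ?_
    rw [ENNReal.ofReal_pow (norm_nonneg _), ofReal_norm]
  have hreal : μ.real univ ≤
      (volume : Measure (EuclideanSpace ℝ (Fin n))).real (LF.ca_an n R) := by
    unfold Measure.real
    exact ENNReal.toReal_mono (LF.ca_an_fin n R) hfin
  have hi0 : 0 ≤ ∫ ξ, (∑ a, ‖f a ξ‖ ^ 2) ^ 2 ∂μ := integral_nonneg fun ξ => by positivity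
  calc ∫⁻ ξ in {ξ : EuclideanSpace ℝ (Fin n) | R ≤ ‖ξ‖ ∧ ‖ξ‖ ≤ 2 * R}, ‖∑ a, f a ξ‖ₑ ^ 4
      ≤ ∫⁻ ξ, ‖∑ a, f a ξ‖ₑ ^ 4 ∂μ := LF.ca_mu_ge hR hηo hηc hm1
    _ = ENNReal.ofReal (∫ ξ, ‖∑ a, f a ξ‖ ^ 4 ∂μ) := e1
    _ ≤ ENNReal.ofReal (M * ∫ ξ, (∑ a, ‖f a ξ‖ ^ 2) ^ 2 ∂μ +
          (Fintype.card κ : ℝ) ^ 4 * (e * B ^ 3 * μ.real univ + ε2)) :=
        ENNReal.ofReal_le_ofReal key
    _ ≤ ENNReal.ofReal (M * ∫ ξ, (∑ a, ‖f a ξ‖ ^ 2) ^ 2 ∂μ +
          (Fintype.card κ : ℝ) ^ 4 * (e * B ^ 3 *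
            (volume : Measure (EuclideanSpace ℝ (Fin n))).real (LF.ca_an n R) + ε2)) := by
        refine ENNReal.ofReal_le_ofReal ?_
        have h1 : e * B ^ 3 * μ.real univ + ε2 ≤ e * B ^ 3 *
            (volume : Measure (EuclideanSpace ℝ (Fin n))).real (LF.ca_an n R) + ε2 := by
          have h2 : e * B ^ 3 * μ.real univ ≤ e * B ^ 3 *
              (volume : Measure (EuclideanSpace ℝ (Fin n))).real (LF.ca_an n R) :=
            mul_le_mul_of_nonneg_left hreal (by positivity)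
          linarith
        have h2 : (0 : ℝ) ≤ (Fintype.card κ : ℝ) ^ 4 := by positivity
        linarith [mul_le_mul_of_nonneg_left h1 h2]
    _ = ENNReal.ofReal M * ∫⁻ ξ, (∑ a, ‖f a ξ‖ₑ ^ 2) ^ 2 ∂μ +
          ENNReal.ofReal ((Fintype.card κ : ℝ) ^ 4 * (e * B ^ 3 *
            (volume : Measure (EuclideanSpace ℝ (Fin n))).real (LF.ca_an n R) + ε2)) := by
        rw [ENNReal.ofReal_add (by positivity) (by positivity), ENNReal.ofReal_mul hM0, e2]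
    _ ≤ ENNReal.ofReal M *
            (∫⁻ ξ in {ξ : EuclideanSpace ℝ (Fin n) | R / 2 ≤ ‖ξ‖ ∧ ‖ξ‖ ≤ 4 * R},
              (∑ a, ‖f a ξ‖ₑ ^ 2) ^ 2) +
          ENNReal.ofReal ((Fintype.card κ : ℝ) ^ 4 * (e * B ^ 3 *
            (volume : Measure (EuclideanSpace ℝ (Fin n))).real
              {ξ : EuclideanSpace ℝ (Fin n) | R / 2 ≤ ‖ξ‖ ∧ ‖ξ‖ ≤ 4 * R} + ε2)) := by
        have h1 : ∫⁻ ξ, (∑ a, ‖f a ξ‖ₑ ^ 2) ^ 2 ∂μ ≤
            ∫⁻ ξ in {ξ : EuclideanSpace ℝ (Fin n) | R / 2 ≤ ‖ξ‖ ∧ ‖ξ‖ ≤ 4 * R},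
              (∑ a, ‖f a ξ‖ₑ ^ 2) ^ 2 := LF.ca_mu_le hR hη1 hηs hηc hm2
        exact add_le_add (mul_le_mul' le_rfl h1) le_rfl

end Pool.Agent.LQN
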