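import Pool.Agent.LQ.COREBQ
import Pool.Agent.LQN.CORENUM
import Pool.Agent.LQN.ORTHA
import Pool.Agent.LQN.DOMA
import Pool.Agent.LF.CORE2

/-!
LQN: CORE, the `L^4` bound of a box, for one surface, over the counting of related quadruples and
the counting of KAK.
-/

set_option autoImplicit false

namespace Pool.Agent.LQN

open MeasureTheory Set Metric Pool.Agent.MP_6cbfb8_an Pool.Agent.LF
open scoped RealInnerProductSpace ContDiff ENNReal NNReal ComplexConjugate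

theorem cn_vol {m : ℕ} (p0 : ℝ × E m) (r : ℝ) :
    volume.real (closedBall p0 r) = volume.real (closedBall (0 : ℝ × E m) r) := by
  have h1 : (volume : Measure (ℝ × E m)).IsAddHaarMeasure :=
    Measure.prod.instIsAddHaarMeasure volume volume
  rw [measureReal_def, measureReal_def, Measure.addHaar_closedBall_center]

/-- Small `R`: the trivial bound. -/
theorem cn_small {m s : ℕ} {Cv S R1 R ε ν : ℝ} (_hS : 0 ≤ S) (hCv : 0 ≤ Cv) (hR1 : 0 < R1)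
    (hε : 0 < ε) (hν : 0 < ν) (hν4 : ν ≤ 4) (hR : 1 ≤ R) (hRR : R ≤ R1)
    (hvol : volume {ξ : E (m + 2) | R / 2 ≤ ‖ξ‖ ∧ ‖ξ‖ ≤ 4 * R} ≤
      ENNReal.ofReal (Cv * R ^ (m + 2))) (F : E (m + 2) → ℂ) (hF : ∀ ξ, ‖F ξ‖ ≤ S) :
    ∫⁻ ξ in {ξ : E (m + 2) | R ≤ ‖ξ‖ ∧ ‖ξ‖ ≤ 2 * R}, ‖F ξ‖ₑ ^ 4 ≤
      ENNReal.ofReal (4 ^ s * S ^ 4 * Cv * R1 ^ (m + 2) * R1 ^ m * R ^ (-(m : ℝ) + ε) /
        ν ^ s) := by
  have hR0 : 0 < R := by linarith
  have h3 : ∀ ξ, ‖F ξ‖ₑ ^ 4 ≤ ENNReal.ofReal (S ^ 4) := by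
    intro ξ
    rw [← ofReal_norm, ← ENNReal.ofReal_pow (norm_nonneg _)]
    exact ENNReal.ofReal_le_ofReal (pow_le_pow_left₀ (norm_nonneg _) (hF ξ) 4)
  calc ∫⁻ ξ in {ξ : E (m + 2) | R ≤ ‖ξ‖ ∧ ‖ξ‖ ≤ 2 * R}, ‖F ξ‖ₑ ^ 4 ≤
      ∫⁻ _ in {ξ : E (m + 2) | R ≤ ‖ξ‖ ∧ ‖ξ‖ ≤ 2 * R}, ENNReal.ofReal (S ^ 4) :=
        lintegral_mono fun ξ => h3 ξ
    _ = ENNReal.ofReal (S ^ 4) * volume {ξ : E (m + 2) | R ≤ ‖ξ‖ ∧ ‖ξ‖ ≤ 2 * R} := by
        rw [setLIntegral_const]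
    _ ≤ ENNReal.ofReal (S ^ 4) * ENNReal.ofReal (Cv * R ^ (m + 2)) := by
        gcongr
        refine (measure_mono ?_).trans hvol
        rintro ξ ⟨h4, h5⟩
        exact ⟨by linarith, by linarith⟩
    _ = ENNReal.ofReal (S ^ 4 * (Cv * R ^ (m + 2))) := by
        rw [← ENNReal.ofReal_mul (by positivity)]
    _ ≤ _ := by
        refine ENNReal.ofReal_le_ofReal ?_
        have h5 : (1 / R1) ^ m ≤ R ^ (-(m : ℝ) + ε) := by
          calc (1 / R1) ^ m ≤ (1 / R) ^ m := by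
                gcongr
            _ = R ^ (-(m : ℝ)) := by
                rw [Real.rpow_neg hR0.le, Real.rpow_natCast, one_div, inv_pow]
            _ ≤ R ^ (-(m : ℝ) + ε) := Real.rpow_le_rpow_of_exponent_le hR (by linarith)
        have h6 : (1 / 4 : ℝ) ^ s ≤ (1 / ν) ^ s := by
          refine pow_le_pow_left₀ (by norm_num) ?_ s
          exact one_div_le_one_div_of_le hν hν4
        have h7 : (1 : ℝ) ≤ 4 ^ s * R1 ^ m * (R ^ (-(m : ℝ) + ε) * (1 / ν) ^ s) := by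
          calc (1 : ℝ) = 4 ^ s * R1 ^ m * ((1 / R1) ^ m * (1 / 4) ^ s) := by
                rw [one_div, one_div, inv_pow, inv_pow]
                field_simp
            _ ≤ 4 ^ s * R1 ^ m * (R ^ (-(m : ℝ) + ε) * (1 / ν) ^ s) := by gcongr
        calc S ^ 4 * (Cv * R ^ (m + 2)) ≤ S ^ 4 * (Cv * R1 ^ (m + 2)) * 1 := by
              rw [mul_one]
              gcongr
          _ ≤ S ^ 4 * (Cv * R1 ^ (m + 2)) *
              (4 ^ s * R1 ^ m * (R ^ (-(m : ℝ) + ε) * (1 / ν) ^ s)) := by gcongr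
          _ = _ := by
              rw [one_div, inv_pow]
              ring

/-- CORE for one surface. -/
theorem coreN_abs {m : ℕ} (hm : 1 ≤ m) (A B : ℕ → ℝ) (P q s : ℕ) {Cm Ck c3 ε : ℝ}
    (hCm : 0 ≤ Cm) (hCk : 0 ≤ Ck) (hc3 : 0 < c3) (hc31 : c3 ≤ 1) (hε : 0 < ε) :
    ∃ C : ℝ, 0 ≤ C ∧ ∀ X : ℝ × E m → E (m + 2), ContDiff ℝ ∞ X →
      (∀ j p, ‖iteratedFDeriv ℝ j X p‖ ≤ A j) →
      ∀ (t0 : ℝ) (z0 : E m) (ν : ℝ), 0 < ν → (∀ i, ν ≤ |z0 i|) → (∀ i, |z0 i| ≤ 4) →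
      (∀ R Λ, 1 ≤ R → 1 ≤ R * ν ^ 2 → √R ≤ Λ →
        ∀ (ι : Type) [Fintype ι] (t : ι → ℝ) (g : ι → ℝ → ℝ≥0∞), (∀ i, |t i - t0| ≤ c3) →
        (∀ i j, i ≠ j → 1 / √R ≤ |t i - t j|) → (∀ i, Measurable (g i)) →
        (∀ i, ∫⁻ τ, g i τ ≤ ENNReal.ofReal (1 / √R)) →
        (∀ i τ, g i τ ≤ ENNReal.ofReal (1 / R)) →
        ∫⁻ ξ in {ξ : E (m + 2) | R / 2 ≤ ‖ξ‖ ∧ ‖ξ‖ ≤ 4 * R},
            (∑ i, ∫⁻ z in {z : E m | ∀ j, |z j - z0 j| ≤ c3 * |z0 j|},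
              ({z | ‖Vw X ξ (t i, z)‖ ≤ Λ}.indicator
                fun z => g i ⟪ξ, Xt X (t i, z)⟫) z) ^ 2 ≤
          ENNReal.ofReal (Ck * (Λ / √R) ^ (2 * m + 1) * (1 + Real.log R) ^ q)) →
      (∀ (R K : ℝ) (N : ℕ), 1 ≤ R → 1 ≤ K → 1 ≤ R * ν ^ 2 →
        ∀ T : ↥(gi N ×ˢ gk m N) → Set (ℝ × E m),
        (∀ a, ∀ p ∈ T a, ‖p - pcs (t0, z0) (1 / √R) N a.1‖ ≤ √m * (1 / √R) ∧
          |p.1 - t0| ≤ c3 / (8 * √m) ∧ ∀ i, |p.2 i - z0 i| ≤ c3 / (8 * √m) * |z0 i|) →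
        ∀ ξ : E (m + 2), R / 2 ≤ ‖ξ‖ → ‖ξ‖ ≤ 4 * R → ∀ a b,
        ({q : ↥(gi N ×ˢ gk m N) × ↥(gi N ×ˢ gk m N) |
          (‖Vw X ξ (pcs (t0, z0) (1 / √R) N a.1)‖ ≤ K * √R ∧
            ‖Vw X ξ (pcs (t0, z0) (1 / √R) N b.1)‖ ≤ K * √R ∧
            ‖Vw X ξ (pcs (t0, z0) (1 / √R) N q.1.1)‖ ≤ K * √R ∧
            ‖Vw X ξ (pcs (t0, z0) (1 / √R) N q.2.1)‖ ≤ K * √R) ∧
          ∃ p1 ∈ T a, ∃ p2 ∈ T b, ∃ p3 ∈ T q.1, ∃ p4 ∈ T q.2,
            ‖X p1 + X p2 - X p3 - X p4‖ ≤ (K * (1 / √R)) ^ 2}.ncard : ℝ) ≤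
          Cm * K ^ P / ν ^ s) →
      ∀ (b : ℝ × E m → ℂ) (b' : ℝ → E m → ℂ) (L : E m →L[ℝ] E m) (u0 : E m), Measurable b →
      (∀ t z, b (t, z) = b' t (L z)) → Measurable (Function.uncurry b') → ‖L‖ ≤ 1 / ν →
      (∀ t, ContDiff ℝ ∞ (b' t)) → (∀ t k u, ‖iteratedFDeriv ℝ k (b' t) u‖ ≤ B k) →
      (∀ t u, 1 < ‖u - u0‖ → b' t u = 0) →
      (∀ t (z : E m), (c3 / (8 * √m) < |t - t0| ∨ ∃ i, c3 / (8 * √m) * |z0 i| < |z i - z0 i|) →
        b (t, z) = 0) →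
      ∀ R : ℝ, 1 ≤ R → 1 ≤ R * ν ^ 2 →
        ∫⁻ ξ in {ξ : E (m + 2) | R ≤ ‖ξ‖ ∧ ‖ξ‖ ≤ 2 * R}, ‖Tb X b ξ‖ₑ ^ 4 ≤
          ENNReal.ofReal (C * R ^ (-(m : ℝ) + ε) / ν ^ s) := by
  classical
  by_cases hAex : ∃ X : ℝ × E m → E (m + 2), ∀ j p, ‖iteratedFDeriv ℝ j X p‖ ≤ A j
  swap
  · refine ⟨0, le_rfl, fun X hX hXA => ?_⟩
    exact absurd ⟨X, hXA⟩ hAex
  obtain ⟨X0, hX0⟩ := hAex
  have hA0 : ∀ j, 0 ≤ A j := fun j => (norm_nonneg _).trans (hX0 j 0)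
  set ρ : ℝ := √m with hρ
  have hρ1 : 1 ≤ ρ := by
    rw [hρ, Real.one_le_sqrt]
    exact_mod_cast hm
  have hρ0 : 0 < ρ := by linarith
  set c0 : ℝ := c3 / (8 * ρ) with hc0
  have hc00 : 0 < c0 := by positivity
  set δ1 : ℝ := c3 / 2 with hδ1
  have hδ10 : 0 < δ1 := by positivity
  have hc0δ : 4 * (c0 * ρ) = δ1 := by
    rw [hc0, hδ1]
    field_simp
    norm_num
  have hc0c : c0 ≤ c3 / 8 := by
    rw [hc0]
    refine div_le_div_of_nonneg_left hc3.le (by norm_num) ?_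
    linarith
  -- constants of the rows
  obtain ⟨Cw, hCw, hdomw⟩ := dom_caps_aff (m + 2) m B (A 2) 1 (hA0 2)
  set Cd : ℝ := 4 * Cw with hCd
  have hCd0 : 0 < Cd := by positivity
  set Mo : ℕ := (2 * ⌈2 * ρ⌉₊ + 1) ^ m with hMo
  set σ : ℝ := min 1 (ε / (2 * (P + 2 * m + 1))) with hσd
  have hσ : 0 < σ := lt_min one_pos (by positivity)
  have hσ1 : σ ≤ 1 := min_le_left _ _
  have hσε : σ * (P + 2 * m + 1) ≤ ε / 2 := by
    have h2 : σ ≤ ε / (2 * (P + 2 * m + 1)) := min_le_right _ _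
    calc σ * (P + 2 * m + 1) ≤ ε / (2 * (P + 2 * m + 1)) * (P + 2 * m + 1) := by gcongr
      _ = ε / 2 := by field_simp
  set N : ℕ := ⌈((P : ℝ) + 6 * m + 8) / σ⌉₊ with hNd
  have hN : (P : ℝ) + 6 * m + 8 ≤ σ * N := by
    have h2 : ((P : ℝ) + 6 * m + 8) / σ ≤ N := Nat.le_ceil _
    rw [div_le_iff₀ hσ] at h2
    linarith
  obtain ⟨Bd, hBd, hbcs⟩ := bcs_bound (m := m) N (fun k => |B k|)
  set AN : ℝ := ∑ j ∈ Finset.range (N + 3), A j with hAN
  obtain ⟨Cn, hCn, hnsp⟩ := nsp m (m + 2) N ρ AN 4 hρ1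
  obtain ⟨η, hη1, hη2, hη3, hη4, hη5, hη6⟩ := lff_eta (m + 2)
  obtain ⟨Co, hCo, horth⟩ := orthF_R m (m + 2) N η hη1 hη2 hη3
  obtain ⟨Cv, hCv, hvol⟩ := core_vol (m + 2)
  set S : ℝ := |B 0| * volume.real (closedBall (0 : ℝ × E m) δ1) with hS
  have hS0 : 0 ≤ S := by positivity
  set Lc : ℝ := 1 + 4 * A 2 * ρ with hLc
  have hA2 := hA0 2
  have hLc1 : 1 ≤ Lc := by
    have : 0 ≤ 4 * A 2 * ρ := by positivity
    linarith
  set R1 : ℝ := (1 / c0) ^ 2 with hR1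
  have hR10 : 0 < R1 := by positivity
  set C3 : ℝ := 4 ^ s * S ^ 4 * Cv * R1 ^ (m + 2) * R1 ^ m with hC3
  have hC30 : 0 ≤ C3 := by positivity
  set Cmain : ℝ := Cm * (2 * (Cd * (Cd + 1) * Mo) ^ 2) * Ck * Lc ^ (2 * m + 1) *
        (1 + 2 * (q + 1) / ε) ^ (q + 1) +
      2 * Cm * ((5 * δ1) ^ (m + 1)) ^ 2 * (Cn * Bd) ^ 4 * Cv +
      4 ^ s * ((5 * δ1) ^ (m + 1)) ^ 4 * ((Cn * Bd) * S ^ 3 * Cv + Co * S ^ 4) with hCmain
  have hCmain0 : 0 ≤ Cmain := by positivity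
  refine ⟨Cmain + C3, by positivity, ?_⟩
  intro X hXs hXA t0 z0 ν hν0 hνz hz4 hkq hcnt b b' L u0 hbm hbb hb'm hL hb's hb'B hb'0 hbsup R hR
    hRz
  set p0 : ℝ × E m := (t0, z0) with hp0
  have hν4 : ν ≤ 4 := (hνz ⟨0, hm⟩).trans (hz4 _)
  have hXc : Continuous X := hXs.continuous
  have hV2 : ∀ (ξ : E (m + 2)) (p p' : ℝ × E m),
      ‖Vw X ξ p - Vw X ξ p'‖ ≤ A 2 * ‖ξ‖ * ‖p - p'‖ :=
    fun ξ p p' => lf_Vw_lip (hXs.of_le (WithTop.coe_le_coe.2 (le_top : (2 : ℕ∞) ≤ ⊤))) (hXA 2) ξ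
      p p'
  have hXt : ∀ t : ℝ, Continuous fun z : E m => Xt X (t, z) := by
    intro t
    have h2 : Continuous (fderiv ℝ X) := hXs.continuous_fderiv (by simp)
    unfold Xt
    have h3 : Continuous fun z : E m => fderiv ℝ X (t, z) := h2.comp (by fun_prop)
    exact h3.clm_apply continuous_const
  have hAN1 : ∀ j ≤ N + 2, ∀ p, ‖iteratedFDeriv ℝ j X p‖ ≤ AN := fun j hj p =>
    (hXA j p).trans (Finset.single_le_sum (fun j _ => hA0 j) (Finset.mem_range.2 (by omega)))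
  have hR0 : 0 < R := by linarith
  have hs : 0 < √R := Real.sqrt_pos.2 hR0
  have hs1 : 1 ≤ √R := Real.one_le_sqrt.2 hR
  have hsR : √R * √R = R := Real.mul_self_sqrt hR0.le
  set r : ℝ := 1 / √R with hr
  have hr0 : 0 < r := by positivity
  have hr1 : r ≤ 1 := by
    rw [hr, div_le_one hs]
    exact hs1
  have hrν : r ≤ ν := by
    rw [hr, div_le_iff₀ hs]
    have h2 : 1 ≤ √(R * ν ^ 2) := Real.one_le_sqrt.2 hRz
    rw [Real.sqrt_mul hR0.le, Real.sqrt_sq hν0.le] at h2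
    linarith
  have hQ0 : 0 ≤ R ^ (-(m : ℝ) + ε) := Real.rpow_nonneg hR0.le _
  have hνs : 0 < ν ^ s := by positivity
  -- the density
  have hbs : ∀ t, ContDiff ℝ ∞ fun z => b (t, z) := by
    intro t
    simp only [hbb]
    exact (hb's t).comp L.contDiff
  have hbB0 : ∀ p, ‖b p‖ ≤ |B 0| := by
    intro p
    have h2 := hb'B p.1 0 (L p.2)
    rw [norm_iteratedFDeriv_zero, ← hbb] at h2
    exact le_trans (le_of_eq rfl) (h2.trans (le_abs_self _))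
  have hbbox : ∀ p : ℝ × E m, b p ≠ 0 → |p.1 - t0| ≤ c0 ∧
      ∀ i, |p.2 i - z0 i| ≤ c0 * |z0 i| := by
    intro p hp
    by_contra h2
    rw [not_and_or, not_le, not_forall] at h2
    simp only [not_le] at h2
    exact hp (hbsup p.1 p.2 h2)
  have hboxz : ∀ (a : ℝ), 0 ≤ a → ∀ z : E m, (∀ i, |z i - z0 i| ≤ a * |z0 i|) →
      ‖z - z0‖ ≤ 4 * (a * ρ) := by
    intro a ha z hz
    rw [EuclideanSpace.norm_eq]
    refine Real.sqrt_le_iff.2 ⟨by positivity, ?_⟩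
    calc ∑ i, ‖(z - z0) i‖ ^ 2 ≤ ∑ _i : Fin m, (4 * a) ^ 2 := by
          refine Finset.sum_le_sum fun i _ => ?_
          rw [Real.norm_eq_abs]
          refine pow_le_pow_left₀ (abs_nonneg _) ?_ 2
          calc |(z - z0) i| = |z i - z0 i| := rfl
            _ ≤ a * |z0 i| := hz i
            _ ≤ a * 4 := mul_le_mul_of_nonneg_left (hz4 i) ha
            _ = 4 * a := mul_comm _ _
      _ = m * (4 * a) ^ 2 := by
          rw [Finset.sum_const, Finset.card_univ, Fintype.card_fin, nsmul_eq_mul]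
      _ = (4 * (a * ρ)) ^ 2 := by
          have h3 : ρ ^ 2 = m := Real.sq_sqrt (Nat.cast_nonneg m)
          rw [← h3]
          ring
  have hb0 : ∀ p, δ1 < ‖p - p0‖ → b p = 0 := by
    intro p hp
    by_contra h2
    obtain ⟨h3, h4⟩ := hbbox p h2
    have h5 : ‖p - p0‖ ≤ δ1 := by
      rw [Prod.norm_def]
      refine max_le ?_ ?_
      · calc ‖(p - p0).1‖ = |p.1 - t0| := by rw [Prod.fst_sub, Real.norm_eq_abs]
          _ ≤ c0 := h3
          _ ≤ δ1 := by linarith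
      · calc ‖(p - p0).2‖ = ‖p.2 - z0‖ := by rw [Prod.snd_sub]
          _ ≤ 4 * (c0 * ρ) := hboxz c0 hc00.le p.2 h4
          _ = δ1 := hc0δ
    linarith
  have hbS : ∫ p, ‖b p‖ ≤ S := by
    have h2 := (core_int hbm hbB0 hb0).2
    rwa [cn_vol] at h2
  by_cases hsm : r ≤ c0
  swap
  · -- small `R`
    rw [not_le] at hsm
    have h1 : √R < 1 / c0 := by
      rw [lt_div_iff₀ hc00]
      rw [hr, lt_div_iff₀ hs] at hsm
      linarith
    have h2 : R ≤ R1 := by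
      rw [hR1, ← hsR, sq]
      gcongr
    refine (cn_small hS0 hCv hR10 hε hν0 hν4 hR h2 (hvol R hR) (Tb X b)
      (fun ξ => (Tb_norm_le X b ξ).trans hbS) (s := s)).trans ?_
    refine ENNReal.ofReal_le_ofReal ?_
    rw [← hC3]
    gcongr
    linarith
  -- large `R`
  have hrδ : r ≤ δ1 := by linarith
  set M : ℕ := ⌈δ1 / r⌉₊ with hM
  set K : ℝ := R ^ σ with hK
  have hK1 : 1 ≤ K := Real.one_le_rpow hR hσ.le
  have hK0 : 0 < K := by linarith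
  set Λ : ℝ := K * √R with hΛ
  have hΛ1 : √R ≤ Λ := le_mul_of_one_le_left hs.le hK1
  have hΛr : Λ / R = K * r := by
    rw [hΛ, hr]
    rw [div_eq_iff hR0.ne']
    calc K * √R = K * (1 / √R) * (√R * √R) := by field_simp
      _ = K * (1 / √R) * R := by rw [hsR]
  -- the pieces
  set κ := ↥(gi M ×ˢ gk m M) with hκ
  set ι := ↥(gi M) with hι
  set pr : κ → ι := fun a => ⟨a.1.1, (Finset.mem_product.1 a.2).1⟩ with hpr
  set pc : κ → ℝ × E m := fun a => pcs p0 r M a.1 with hpc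
  set bc : κ → ℝ × E m → ℂ := fun a => bcs p0 r M b a.1 with hbc
  set f : κ → E (m + 2) → ℂ := fun a => Tb X (bc a) with hf
  set T : κ → Set (ℝ × E m) := fun a => {p | bc a p ≠ 0} with hT
  have hbcm : ∀ a, Measurable (bc a) := fun a => bcs_meas p0 r M hbm a.1
  have hbcB : ∀ a p, ‖bc a p‖ ≤ |B 0| := fun a p => (bcs_norm_le p0 r M b a.1 p).trans (hbB0 p)
  have hbc0 : ∀ a p, δ1 < ‖p - p0‖ → bc a p = 0 := by
    intro a p hp
    simp only [hbc, bcs]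
    rw [hb0 p hp, mul_zero]
  have hbci : ∀ a, Integrable (bc a) ∧ ∫ p, ‖bc a p‖ ≤ S := fun a => by
    have h2 := core_int (hbcm a) (hbcB a) (hbc0 a)
    rwa [cn_vol] at h2
  have hfS : ∀ a ξ, ‖f a ξ‖ ≤ S := fun a ξ => (Tb_norm_le X (bc a) ξ).trans (hbci a).2
  have hfm : ∀ a, Measurable (f a) := by
    intro a
    have h3 := lff_continuous 1 volume X hXc.measurable (bc a) (hbci a).1
    have h4 : f a = lfT 1 volume X (bc a) := by
      funext ξ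
      simp only [hf, Tb, lfT, one_mul]
      refine integral_congr_ae (Filter.Eventually.of_forall fun p => ?_)
      simp only
      rw [real_inner_comm]
    rw [h4]
    exact h3.measurable
  have hsum : ∀ ξ, Tb X b ξ = ∑ a : κ, f a ξ := fun ξ =>
    Tb_sum hXc hbm hbB0 hb0 hr0 ξ
  have hsupp : ∀ a, ∀ p, bc a p ≠ 0 → ‖p - pc a‖ ≤ ρ * r ∧ b p ≠ 0 := by
    intro a p hp
    exact bcs_supp hm hr0 hp
  have hρr : ρ / √R = ρ * r := by rw [hr, mul_one_div]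
  set e : ℝ := Cn * Bd * (K ^ N)⁻¹ with he
  have he0 : 0 ≤ e := by positivity
  have hbB' : ∀ t k z, ‖iteratedFDeriv ℝ k (fun z => b (t, z)) z‖ ≤ |B k| * (1 / r) ^ k := by
    intro t k z
    have e1 : (fun z => b (t, z)) = b' t ∘ L := by
      funext z
      exact hbb t z
    have h2 : 1 / ν ≤ 1 / r := one_div_le_one_div_of_le hr0 hrν
    rw [e1, L.iteratedFDeriv_comp_right (hb's t) z (i := k) (by exact_mod_cast le_top)]
    refine (ContinuousMultilinearMap.norm_compContinuousLinearMap_le _ _).trans ?_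
    rw [Finset.prod_const, Finset.card_univ, Fintype.card_fin]
    exact mul_le_mul ((hb'B t k _).trans (le_abs_self _))
      (pow_le_pow_left₀ (norm_nonneg _) (hL.trans h2) k) (by positivity) (abs_nonneg _)
  have hNSP : ∀ a ξ, R / 2 ≤ ‖ξ‖ → ‖ξ‖ ≤ 4 * R → Λ ≤ ‖Vw X ξ (pc a)‖ → ‖f a ξ‖ ≤ e := by
    intro a ξ _ hξ hV
    have h2 := hnsp X hXs hAN1 (bc a) (pc a).1 (pc a).2 R Bd hR hBd
      (fun t => (bcs_smooth p0 r M hbs a.1 t).of_le (by exact_mod_cast le_top)) ?_ ?_ ?_ (-1) ξ ?_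
    · have e1 : f a ξ = ∫ p, bc a p *
          Complex.exp ((((-1) * ⟪ξ, X p⟫ : ℝ) : ℂ) * Complex.I) := by
        simp only [hf, Tb, neg_one_mul]
      rw [e1]
      refine h2.trans ?_
      have h3 : K ≤ |(-1 : ℝ)| * ‖Vw X ξ ((pc a).1, (pc a).2)‖ / √R := by
        rw [abs_neg, abs_one, one_mul, le_div_iff₀ hs]
        exact hV
      have h4 : 1 / (1 + |(-1 : ℝ)| * ‖Vw X ξ ((pc a).1, (pc a).2)‖ / √R) ≤ 1 / K := by
        refine one_div_le_one_div_of_le hK0 ?_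
        linarith
      have h5 : 0 ≤ 1 / (1 + |(-1 : ℝ)| * ‖Vw X ξ ((pc a).1, (pc a).2)‖ / √R) := by
        positivity
      calc Cn * Bd * (1 / √R) ^ (m + 1) *
            (1 / (1 + |(-1 : ℝ)| * ‖Vw X ξ ((pc a).1, (pc a).2)‖ / √R)) ^ N ≤
            Cn * Bd * 1 * (1 / K) ^ N := by
            gcongr
            exact pow_le_one₀ (by positivity) hr1
        _ = e := by rw [he, one_div, inv_pow, mul_one]
    · intro t z ht
      by_contra h3
      obtain ⟨h4, -⟩ := hsupp a (t, z) h3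
      rw [Prod.norm_def, ← hρr] at h4
      exact absurd ((le_max_left _ _).trans h4) (not_le.2 ht)
    · intro t z hz
      by_contra h3
      obtain ⟨h4, -⟩ := hsupp a (t, z) h3
      rw [Prod.norm_def, ← hρr] at h4
      exact absurd ((le_max_right _ _).trans h4) (not_le.2 hz)
    · intro j hj t z
      have h3 := hbcs p0 r M b a.1 hr0 hr1 hbs hbB' j hj t z
      rwa [hr, one_div_one_div] at h3
    · rw [abs_neg, abs_one, one_mul]
      exact hξ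
  -- CORE-A
  have hstepA := coreAn X (Vw X) (R := R) (Λ := Λ) (e := e)
    (ε2 := Co * R ^ (m + 2) * (K ^ N)⁻¹ * S ^ 4) (B := S) (M := Cm * K ^ P / ν ^ s) (η := η)
    hR0 he0 (by positivity) hη1.continuous hη3 hη4 hη5 hη6 pc T f ?_ hfm hfS hNSP ?_
  rotate_left
  · intro ξ hξ1 hξ2 a a'
    have h2 := hcnt R K M hR hK1 hRz T (fun a p hp => by
        obtain ⟨h3, h4⟩ := hsupp a p hp
        exact ⟨h3, hbbox p h4⟩) ξ hξ1 hξ2 a a'
    rw [hΛr]
    exact h2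
  · intro a1 a2 a3 a4 hfar
    have h2 := horth X hXc.measurable R ((Λ / R) ^ 2) hR0 (by positivity) (bc a1) (bc a2)
      (bc a3) (bc a4) (hbci a1).1 (hbci a2).1 (hbci a3).1 (hbci a4).1
      (fun p1 p2 p3 p4 g1 g2 g3 g4 => hfar p1 g1 p2 g2 p3 g3 p4 g4)
    refine h2.trans ?_
    have h3 : K ^ N ≤ (1 + R * (Λ / R) ^ 2) ^ N := by
      refine pow_le_pow_left₀ hK0.le ?_ N
      have h4 : R * (Λ / R) ^ 2 = K ^ 2 := by
        rw [hΛ, div_pow, mul_pow, Real.sq_sqrt hR0.le]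
        field_simp
      rw [h4]
      exact (le_self_pow₀ hK1 two_ne_zero).trans (le_add_of_nonneg_left zero_le_one)
    have h5 : ((1 + R * (Λ / R) ^ 2) ^ N)⁻¹ ≤ (K ^ N)⁻¹ := inv_anti₀ (by positivity) h3
    have h6 : ∀ a, 0 ≤ ∫ p, ‖bc a p‖ := fun a => integral_nonneg fun _ => norm_nonneg _
    calc Co * R ^ (m + 2) * ((1 + R * (Λ / R) ^ 2) ^ N)⁻¹ *
          ((∫ p, ‖bc a1 p‖) * (∫ p, ‖bc a2 p‖) * (∫ p, ‖bc a3 p‖) * (∫ p, ‖bc a4 p‖)) ≤
          Co * R ^ (m + 2) * (K ^ N)⁻¹ * (S * S * S * S) := by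
          gcongr
          · exact (hbci a1).2
          · exact (hbci a2).2
          · exact (hbci a3).2
          · exact (hbci a4).2
      _ = _ := by ring
  -- the window
  set Z : Set (E m) := {z : E m | ∀ j, |z j - z0 j| ≤ c3 * |z0 j|} with hZ
  have hZm : MeasurableSet Z := by
    have h1 : Z = ⋂ j, {z : E m | |z j - z0 j| ≤ c3 * |z0 j|} := by
      ext z
      simp [hZ]
    rw [h1]
    refine MeasurableSet.iInter fun j => ?_
    exact measurableSet_le (by fun_prop) measurable_const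
  have hZsub : Z ⊆ closedBall z0 (4 * (c3 * ρ)) := by
    intro z hz
    rw [mem_closedBall, dist_eq_norm]
    exact hboxz c3 hc3.le z hz
  have hbZ : ∀ t z, z ∉ Z → b (t, z) = 0 := by
    intro t z hz
    by_contra h2
    obtain ⟨-, h3⟩ := hbbox (t, z) h2
    apply hz
    intro j
    refine (h3 j).trans ?_
    have : c0 ≤ c3 := by linarith
    gcongr
  -- domination
  have hGGex := fun i : ℕ => hdomw X hXs (hXA 2) b b' L u0 (fun _ => 1) 1 z0 (4 * (c3 * ρ)) Z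
    hbm hbb hb'm measurable_const (fun _ => zero_le_one) (fun _ => le_rfl) hb's
    (fun t k u => by
      rw [one_mul]
      exact hb'B t k u) hb'0 hZm hZsub hbZ R t0 z0 M i hR
  choose GG hGm hG1 hG2 hG3 using hGGex
  have hvolI : ∀ i : ℕ, volume (closedBall (tc t0 r M i) r) = ENNReal.ofReal (2 * r) := fun i =>
    Real.volume_closedBall _ _
  have hr2 : r * r = 1 / R := by
    rw [hr, div_mul_div_comm, one_mul, hsR]
  have hstepB := Pool.Agent.LQ.coreBz (m := m) (n := m + 2) Mo (A := A 2) (C := Cd) (C2 := ρ)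
    (hA0 2) hCd0.le hρ0.le (V := Vw X) (T := Xt X) (R := R) (Λ0 := Λ) (e := e) (Z := Z)
    hZm hR ?_ hXt pr (fun i => tc t0 r M i.1) (fun a => zc z0 r M a.1.2)
    (fun i => GG i.1) f
    (ENNReal.ofReal (Ck * (Lc * K) ^ (2 * m + 1) * (1 + Real.log R) ^ q)) ?_
    (fun i => hGm i.1) ?_ ?_ ?_ ?_ ?_
  rotate_left
  · intro ξ t z z'
    refine (hV2 ξ (t, z) (t, z')).trans (le_of_eq ?_)
    congr 1
    rw [Prod.norm_def]
    simp
  · intro g hgm hg1 hg2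
    have h1 := hkq R (Lc * Λ) hR hRz
      (hΛ1.trans (le_mul_of_one_le_left (by positivity) hLc1)) ι (fun i => tc t0 r M i.1) g
      ?_ ?_ hgm hg1 hg2
    · have e1 : Lc * Λ / √R = Lc * K := by
        rw [hΛ]
        field_simp
      rw [e1] at h1
      refine le_trans ?_ h1
      refine lintegral_mono fun ξ => ?_
      simp only
      gcongr with i hi z
      have h3 : 4 * A 2 * ρ * √R ≤ 4 * A 2 * ρ * Λ := by
        gcongr
      rw [hLc]
      linarith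
    · intro i
      have h2 := core_tc (t0 := t0) hr0 hδ10.le i.2
      refine h2.trans ?_
      rw [hδ1]
      linarith
    · intro i j hij
      rw [abs_tc_sub hr0]
      have h2 : (1 : ℝ) ≤ |((i.1 : ℕ) : ℝ) - (j.1 : ℕ)| := by
        have h3 : ((i.1 : ℕ) : ℤ) - (j.1 : ℕ) ≠ 0 := by
          intro h4
          apply hij
          apply Subtype.ext
          omega
        have h5 := Int.one_le_abs h3
        exact_mod_cast h5
      calc 1 / √R = r * 1 := by rw [mul_one]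
        _ ≤ r * |((i.1 : ℕ) : ℝ) - (j.1 : ℕ)| := by gcongr
  · intro i
    calc ∫⁻ τ, GG i.1 τ ≤ ENNReal.ofReal Cw *
          ∫⁻ t in closedBall (tc t0 r M i.1) r, ENNReal.ofReal ((1 : ℝ) ^ 2) := hG1 i.1
      _ = ENNReal.ofReal (Cw * (2 * r)) := by
          rw [setLIntegral_const, hvolI, one_pow, ENNReal.ofReal_one, one_mul,
            ← ENNReal.ofReal_mul hCw.le]
      _ ≤ ENNReal.ofReal (Cd / √R) := by
          refine ENNReal.ofReal_le_ofReal ?_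
          calc Cw * (2 * r) ≤ Cw * (4 * r) := by gcongr; norm_num
            _ = Cd / √R := by rw [hCd, hr]; ring
  · intro i τ
    calc GG i.1 τ ≤ ENNReal.ofReal Cw *
          (∫⁻ t in closedBall (tc t0 r M i.1) r, ENNReal.ofReal (1 : ℝ)) ^ 2 := hG2 i.1 τ
      _ = ENNReal.ofReal (Cw * (4 * (r * r))) := by
          rw [setLIntegral_const, hvolI, ENNReal.ofReal_one, one_mul,
            ← ENNReal.ofReal_pow (by positivity), ← ENNReal.ofReal_mul hCw.le]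
          congr 1
          ring
      _ ≤ ENNReal.ofReal (Cd / R) := by
          refine ENNReal.ofReal_le_ofReal (le_of_eq ?_)
          rw [hr2, hCd]
          ring
  · intro i z
    set Z1 : Finset (Fin m → ℕ) :=
      (Set.toFinset {a : κ | pr a = i ∧ ‖z - zc z0 r M a.1.2‖ ≤ ρ / √R}).image
        (fun a => a.1.2) with hZ1
    have h2 : ({a : κ | pr a = i ∧ ‖z - zc z0 r M a.1.2‖ ≤ ρ / √R} : Set κ).ncard =
        Z1.card := by
      rw [Set.ncard_eq_toFinset_card', hZ1, Finset.card_image_of_injOn]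
      intro a ha a' ha' haa
      have h3 : pr a = i := (Set.mem_toFinset.1 ha).1
      have h4 : pr a' = i := (Set.mem_toFinset.1 ha').1
      have h5 : a.1.1 = a'.1.1 := by
        have h6 : pr a = pr a' := h3.trans h4.symm
        exact congrArg (fun i : ι => i.1) h6
      exact Subtype.ext (Prod.ext h5 haa)
    rw [h2]
    have h3 := card_zc hr0 z0 M z (ρ / √R) Z1 ?_
    · have h4 : ρ / √R / r = ρ := by
        rw [hr]
        field_simp
      rwa [h4] at h3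
    · intro k hk
      rw [hZ1, Finset.mem_image] at hk
      obtain ⟨a, ha, rfl⟩ := hk
      exact (Set.mem_toFinset.1 ha).2
  · intro a ξ hξ
    have h11 := hG3 a.1.1 a.1.2 ξ hξ
    refine le_trans ?_ (h11.trans ?_)
    · exact le_of_eq rfl
    · refine mul_le_mul' (ENNReal.ofReal_le_ofReal ?_) le_rfl
      gcongr
      linarith
  · intro a ξ hξ1 hξ2 hV
    exact hNSP a ξ hξ1 hξ2 hV
  -- assembly
  set An : Set (E (m + 2)) := {ξ | R / 2 ≤ ‖ξ‖ ∧ ‖ξ‖ ≤ 4 * R} with hAn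
  have hvf : volume An ≠ ⊤ := ne_top_of_le_ne_top ENNReal.ofReal_ne_top (hvol R hR)
  set v : ℝ := volume.real An with hv
  have hvv : volume An = ENNReal.ofReal v := by
    rw [hv, measureReal_def, ENNReal.ofReal_toReal hvf]
  have hv1 : v ≤ Cv * R ^ (m + 2) := by
    rw [hv, measureReal_def]
    exact ENNReal.toReal_le_of_le_ofReal (by positivity) (hvol R hR)
  have hv0 : 0 ≤ v := measureReal_nonneg
  set n0 : ℝ := ((Fintype.card κ : ℕ) : ℝ) with hn0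
  have hn00 : 0 ≤ n0 := Nat.cast_nonneg _
  have hn01 : n0 ≤ (5 * δ1) ^ (m + 1) * R ^ (m + 1) := by
    have h2 := caps_card_le m hr0 hrδ
    rw [hn0, Fintype.card_coe]
    refine h2.trans ?_
    rw [← mul_pow]
    refine pow_le_pow_left₀ (by positivity) ?_ _
    rw [mul_assoc]
    gcongr
    rw [hr, div_div_eq_mul_div, div_one]
    gcongr
    calc √R = 1 * √R := (one_mul _).symm
      _ ≤ √R * √R := by gcongr
      _ = R := hsR
  have hlog0 : 0 ≤ Real.log R := Real.log_nonneg hR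
  calc ∫⁻ ξ in {ξ : E (m + 2) | R ≤ ‖ξ‖ ∧ ‖ξ‖ ≤ 2 * R}, ‖Tb X b ξ‖ₑ ^ 4 =
      ∫⁻ ξ in {ξ : E (m + 2) | R ≤ ‖ξ‖ ∧ ‖ξ‖ ≤ 2 * R}, ‖∑ a, f a ξ‖ₑ ^ 4 := by
        simp_rw [hsum]
    _ ≤ ENNReal.ofReal (Cm * K ^ P / ν ^ s) *
          (∫⁻ ξ in An, (∑ a, ‖f a ξ‖ₑ ^ 2) ^ 2) +
          ENNReal.ofReal (n0 ^ 4 * (e * S ^ 3 * v + Co * R ^ (m + 2) * (K ^ N)⁻¹ * S ^ 4)) :=
        hstepA
    _ ≤ ENNReal.ofReal (Cm * K ^ P / ν ^ s) *
          (ENNReal.ofReal (2 * (Cd * (Cd + 1) * Mo) ^ 2 * (1 / R) ^ m *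
            (Ck * (Lc * K) ^ (2 * m + 1) * (1 + Real.log R) ^ q)) +
            ENNReal.ofReal (2 * (n0 * e ^ 2) ^ 2 * v)) +
          ENNReal.ofReal (n0 ^ 4 * (e * S ^ 3 * v + Co * R ^ (m + 2) * (K ^ N)⁻¹ * S ^ 4)) := by
        gcongr
        refine hstepB.trans (le_of_eq ?_)
        rw [← ENNReal.ofReal_mul (by positivity)]
        congr 1
        rw [hvv, ← ENNReal.ofReal_natCast, ← ENNReal.ofReal_mul (Nat.cast_nonneg _),
          ← ENNReal.ofReal_pow (by positivity),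
          show (2 : ℝ≥0∞) = ENNReal.ofReal 2 by norm_num, ← ENNReal.ofReal_mul (by norm_num),
          ← ENNReal.ofReal_mul (by positivity)]
    _ = ENNReal.ofReal (Cm * K ^ P / ν ^ s *
          ((2 * (Cd * (Cd + 1) * Mo) ^ 2) * (1 / R) ^ m * (Ck * (Lc * K) ^ (2 * m + 1) *
            (1 + Real.log R) ^ q) + 2 * (n0 * e ^ 2) ^ 2 * v) +
          n0 ^ 4 * (e * S ^ 3 * v + Co * R ^ (m + 2) * (K ^ N)⁻¹ * S ^ 4)) := by
        rw [← ENNReal.ofReal_add (by positivity) (by positivity),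
          ← ENNReal.ofReal_mul (by positivity), ← ENNReal.ofReal_add (by positivity)
          (by positivity)]
    _ ≤ ENNReal.ofReal (Cmain * R ^ (-(m : ℝ) + ε) / ν ^ s) := by
        refine ENNReal.ofReal_le_ofReal ?_
        exact cn_num (N := N) (Cm := Cm) (Cb := 2 * (Cd * (Cd + 1) * Mo) ^ 2)
          (Ck := Ck) (L := Lc) (Cκ := (5 * δ1) ^ (m + 1)) (Ce := Cn * Bd) (Cv := Cv)
          (Co := Co * S ^ 4) (S := S) (n0 := n0) (e := e) (v := v) hε hσ hσ1 hσε hN hR hK hν0 hν4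
          hCm (by positivity) hCk (by positivity) (by positivity) (by positivity)
          hCv (by positivity) hS0 hn00 he0 hv0 (by positivity) hn01 (le_of_eq he) hv1
          (le_of_eq (by ring))
    _ ≤ _ := by
        refine ENNReal.ofReal_le_ofReal ?_
        gcongr
        linarith

end Pool.Agent.LQN
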