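import Pool.Agent.LQ.MOD0

/-!
LEAFQ in all dimensions: dilations of the leaf coordinates.
-/

set_option autoImplicit false

namespace Pool.Agent.LQN

open MeasureTheory Set Metric Pool.Agent.MP_6cbfb8_an Pool.Agent.LF
open scoped RealInnerProductSpace ContDiff ENNReal NNReal

variable {m : ℕ}

/-- The dilation `(a i * u i)`. -/
noncomputable def dl (a : Fin m → ℝ) (u : E m) : E m := WithLp.toLp 2 fun i => a i * u i

@[simp] theorem dl_apply (a : Fin m → ℝ) (u : E m) (i : Fin m) : dl a u i = a i * u i := rfl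

theorem dl_dl (a b : Fin m → ℝ) (u : E m) : dl a (dl b u) = dl (fun i => a i * b i) u := by
  ext i
  simp [mul_assoc]

theorem dl_one (u : E m) : dl (fun _ => 1) u = u := by
  ext i
  simp

theorem dl_inv {a : Fin m → ℝ} (ha : ∀ i, a i ≠ 0) (u : E m) : dl a (dl (fun i => (a i)⁻¹) u) = u := by
  ext i
  simp [ha i]

theorem dl_inv' {a : Fin m → ℝ} (ha : ∀ i, a i ≠ 0) (u : E m) :
    dl (fun i => (a i)⁻¹) (dl a u) = u := by
  ext i
  simp [ha i]

/-- The dilation as a continuous linear map. -/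
noncomputable def dlL (a : Fin m → ℝ) : E m →L[ℝ] E m :=
  LinearMap.toContinuousLinearMap
    { toFun := dl a
      map_add' := fun u v => by
        ext i
        simp [mul_add]
      map_smul' := fun c u => by
        ext i
        simp
        ring }

theorem dlL_apply (a : Fin m → ℝ) (u : E m) : dlL a u = dl a u := rfl

theorem dl_contDiff (a : Fin m → ℝ) : ContDiff ℝ ∞ (dl a) := (dlL a).contDiff

theorem dl_continuous (a : Fin m → ℝ) : Continuous (dl a) := (dlL a).continuous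

theorem dl_norm {a : Fin m → ℝ} {K : ℝ} (hK0 : 0 ≤ K) (hK : ∀ i, |a i| ≤ K) (u : E m) :
    ‖dl a u‖ ≤ K * ‖u‖ := by
  rw [EuclideanSpace.norm_eq, EuclideanSpace.norm_eq]
  refine Real.sqrt_le_iff.2 ⟨by positivity, ?_⟩
  rw [mul_pow, Real.sq_sqrt (Finset.sum_nonneg fun i _ => by positivity), Finset.mul_sum]
  refine Finset.sum_le_sum fun i _ => ?_
  rw [dl_apply, norm_mul, mul_pow, Real.norm_eq_abs]
  gcongr
  exact hK i

theorem dlL_norm {a : Fin m → ℝ} {K : ℝ} (hK0 : 0 ≤ K) (hK : ∀ i, |a i| ≤ K) : ‖dlL a‖ ≤ K :=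
  ContinuousLinearMap.opNorm_le_bound _ hK0 (dl_norm hK0 hK)

/-- Derivatives of `f ∘ dl a`. -/
theorem dl_bd {F : Type*} [NormedAddCommGroup F] [NormedSpace ℝ F] {f : E m → F}
    (hf : ContDiff ℝ ∞ f) {B : ℝ} {k : ℕ} (hB : ∀ x, ‖iteratedFDeriv ℝ k f x‖ ≤ B)
    {a : Fin m → ℝ} {K : ℝ} (hK0 : 0 ≤ K) (hK : ∀ i, |a i| ≤ K) (u : E m) :
    ‖iteratedFDeriv ℝ k (fun u => f (dl a u)) u‖ ≤ B * K ^ k := by
  have e : (fun u => f (dl a u)) = f ∘ (dlL a) := rfl
  rw [e, (dlL a).iteratedFDeriv_comp_right hf u (i := k) (by exact_mod_cast le_top)]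
  refine (ContinuousMultilinearMap.norm_compContinuousLinearMap_le _ _).trans ?_
  have hB0 : 0 ≤ B := (norm_nonneg _).trans (hB u)
  rw [Finset.prod_const, Finset.card_univ, Fintype.card_fin]
  exact mul_le_mul (hB _) (pow_le_pow_left₀ (norm_nonneg _) (dlL_norm hK0 hK) k) (by positivity) hB0

/-- Smoothness of `f ∘ dl a`. -/
theorem dl_smooth {F : Type*} [NormedAddCommGroup F] [NormedSpace ℝ F] {f : E m → F}
    (hf : ContDiff ℝ ∞ f) (a : Fin m → ℝ) : ContDiff ℝ ∞ fun u => f (dl a u) :=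
  hf.comp (dl_contDiff a)

/-- Smoothness from the smoothness after a dilation. -/
theorem dl_smooth_inv {F : Type*} [NormedAddCommGroup F] [NormedSpace ℝ F] {f : E m → F}
    {a : Fin m → ℝ} (ha : ∀ i, a i ≠ 0) (hf : ContDiff ℝ ∞ fun u => f (dl a u)) :
    ContDiff ℝ ∞ f := by
  have h1 := dl_smooth hf fun i => (a i)⁻¹
  have h2 : (fun u => f (dl a (dl (fun i => (a i)⁻¹) u))) = f := by
    funext u
    rw [dl_inv ha]
  rwa [h2] at h1

theorem norm_le_sqrt_of {c : ℝ} (hc : 0 ≤ c) {u : E m} (hu : ∀ i, |u i| ≤ c) : ‖u‖ ≤ √m * c := by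
  rw [EuclideanSpace.norm_eq]
  refine Real.sqrt_le_iff.2 ⟨by positivity, ?_⟩
  rw [mul_pow, Real.sq_sqrt (Nat.cast_nonneg m)]
  calc ∑ i, ‖u i‖ ^ 2 ≤ ∑ _i : Fin m, c ^ 2 := by
        refine Finset.sum_le_sum fun i _ => ?_
        rw [Real.norm_eq_abs]
        gcongr
        exact hu i
    _ = m * c ^ 2 := by rw [Finset.sum_const, Finset.card_univ, Fintype.card_fin, nsmul_eq_mul]

theorem coord_le (u : E m) (i : Fin m) : |u i| ≤ ‖u‖ := by
  rw [← Real.norm_eq_abs]
  exact PiLp.norm_apply_le u i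

/-- A bounded density with bounded support is integrable. -/
theorem int_box {T ρ B0 : ℝ} {b : ℝ × E m → ℂ} (hb : Measurable b)
    (hB : ∀ p, ‖b p‖ ≤ B0) (hs : ∀ p : ℝ × E m, b p ≠ 0 → |p.1| ≤ T ∧ ‖p.2‖ ≤ ρ) :
    Integrable b := by
  set S : Set (ℝ × E m) := Icc (-T) T ×ˢ closedBall (0 : E m) ρ with hS
  have hSm : MeasurableSet S := measurableSet_Icc.prod measurableSet_closedBall
  have hv : volume S ≠ ⊤ :=
    ((isCompact_Icc.prod (isCompact_closedBall (0 : E m) ρ)).measure_lt_top).ne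
  have h1 : S.indicator b = b := by
    funext p
    by_cases hp : p ∈ S
    · rw [indicator_of_mem hp]
    · rw [indicator_of_notMem hp]
      by_contra h
      obtain ⟨h3, h4⟩ := hs p (Ne.symm h)
      refine hp ⟨abs_le.1 h3, ?_⟩
      rw [mem_closedBall_zero_iff]
      exact h4
  have h2 : IntegrableOn b S :=
    Measure.integrableOn_of_bounded (M := B0) hv hb.aestronglyMeasurable
      (Filter.Eventually.of_forall hB)
  rw [← h1, integrable_indicator_iff hSm]
  exact h2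

end Pool.Agent.LQN
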