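import Pool.Agent.LQN.COREa
import Pool.Agent.LQN.DL
import Pool.Agent.LQN.Df2

/-!
LQN: CORE, the `L^4` bound of a box, over the texts of KQE and of the count of related quadruples.
-/

set_option autoImplicit false

namespace Pool.Agent.LQN

open MeasureTheory Set Metric Pool.Agent.MP_6cbfb8_an Pool.Agent.LF
open scoped RealInnerProductSpace ContDiff ENNReal NNReal ComplexConjugate

variable {m : ℕ}

/-- CORE over the texts of KQE (with any power of the logarithm) and HMN. -/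
theorem core_of (hm : 1 ≤ m) {κ α : ℝ} {r : Fin m → ℝ}
    {X : ℝ → ℝ × E m → E (m + 2)} {A : ℕ → ℝ} (hX : SF κ α r X A) (q : ℕ)
    (hkqe : ∃ C c1 : ℝ, 0 < C ∧ 0 < c1 ∧ ∀ c0, 0 < c0 → c0 ≤ c1 →
      ∀ d, 0 ≤ d → d ≤ 1 → ∀ (t0 : ℝ) (z0 : E m), Rs κ α d r t0 z0.ofLp → (∀ i, z0 i ≠ 0) →
      ∀ R Λ, 1 ≤ R → (∀ i, 1 ≤ R * z0 i ^ 2) → √R ≤ Λ →
        ∀ (ι : Type) [Fintype ι] (t : ι → ℝ) (g : ι → ℝ → ℝ≥0∞), (∀ i, |t i - t0| ≤ c0) →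
        (∀ i j, i ≠ j → 1 / √R ≤ |t i - t j|) → (∀ i, Measurable (g i)) →
        (∀ i, ∫⁻ τ, g i τ ≤ ENNReal.ofReal (1 / √R)) →
        (∀ i τ, g i τ ≤ ENNReal.ofReal (1 / R)) →
        ∫⁻ ξ in {ξ : E (m + 2) | R / 2 ≤ ‖ξ‖ ∧ ‖ξ‖ ≤ 4 * R},
            (∑ i, ∫⁻ z in {z : E m | ∀ j, |z j - z0 j| ≤ c0 * |z0 j|},
              ({z | ‖Vw (X d) ξ (t i, z)‖ ≤ Λ}.indicator
                fun z => g i ⟪ξ, Xt (X d) (t i, z)⟫) z) ^ 2 ≤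
          ENNReal.ofReal (C * (Λ / √R) ^ (2 * m + 1) * (1 + Real.log R) ^ q))
    (hhmn : ∃ (N : ℕ) (C c1 : ℝ), 0 < C ∧ 0 < c1 ∧ ∀ c0, 0 < c0 → c0 ≤ c1 →
      ∀ d, 0 ≤ d → d ≤ 1 → ∀ (t0 : ℝ) (z0 : E m), Rs κ α d r t0 z0.ofLp →
      ∀ ν, 0 < ν → (∀ i, ν ≤ |z0 i|) →
      ∀ (s K : ℝ) (M : ℕ), 0 < s → s ≤ 1 → 1 ≤ K → s ≤ ν →
      ∀ T : ↥(gi M ×ˢ gk m M) → Set (ℝ × E m),
        (∀ a, ∀ p ∈ T a, ‖p - pcs (t0, z0) s M a.1‖ ≤ √(m : ℝ) * s ∧ |p.1 - t0| ≤ c0 ∧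
          ∀ i, |p.2 i - z0 i| ≤ c0 * |z0 i|) →
        ∀ w : E (m + 2), 1 / 2 ≤ ‖w‖ → ‖w‖ ≤ 4 → ∀ a b,
        ({q : ↥(gi M ×ˢ gk m M) × ↥(gi M ×ˢ gk m M) |
          ∃ p1 ∈ T a, ∃ p2 ∈ T b, ∃ p3 ∈ T q.1, ∃ p4 ∈ T q.2,
          (‖Vw (X d) w p1‖ ≤ K * s ∧ ‖Vw (X d) w p2‖ ≤ K * s ∧ ‖Vw (X d) w p3‖ ≤ K * s ∧
            ‖Vw (X d) w p4‖ ≤ K * s) ∧
            ‖X d p1 + X d p2 - X d p3 - X d p4‖ ≤ (K * s) ^ 2}.ncard : ℝ) ≤
          C * K ^ N / ν ^ 2) :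
    ∃ c0 : ℝ, 0 < c0 ∧ c0 ≤ 1 / 8 ∧ ∀ (B : ℕ → ℝ) (ε : ℝ), 0 < ε →
      ∃ C : ℝ, ∀ d, 0 ≤ d → d ≤ 1 → ∀ (t0 : ℝ) (z0 : E m), Rs κ α d r t0 z0.ofLp →
      ∀ ν, 0 < ν → (∀ i, ν ≤ |z0 i|) → ∀ b : ℝ × E m → ℂ, Measurable b →
      (∀ t, ContDiff ℝ ∞ fun z => b (t, z)) →
      (∀ t k u, ‖iteratedFDeriv ℝ k (fun u => b (t, dl (fun i => |z0 i|) u)) u‖ ≤ B k) →
      (∀ t z, (c0 < |t - t0| ∨ ∃ i, c0 * |z0 i| < |z i - z0 i|) → b (t, z) = 0) →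
      ∀ R, 1 ≤ R → 1 ≤ R * ν ^ 2 →
        ∫⁻ ξ in {ξ : E (m + 2) | R ≤ ‖ξ‖ ∧ ‖ξ‖ ≤ 2 * R}, ‖Tb (X d) b ξ‖ₑ ^ (4 : ℝ) ≤
          ENNReal.ofReal (C * R ^ (-(m : ℝ) + ε) / ν ^ 2) := by
  obtain ⟨Ck, c1, hCk, hc1, hkq⟩ := hkqe
  obtain ⟨P, Cm, c2, hCm, hc2, hhq⟩ := hhmn
  set c3 : ℝ := min 1 (min c1 c2) with hc3
  have hc30 : 0 < c3 := lt_min one_pos (lt_min hc1 hc2)
  have hc31 : c3 ≤ 1 := min_le_left _ _
  have hc3a : c3 ≤ c1 := (min_le_right _ _).trans (min_le_left _ _)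
  have hc3b : c3 ≤ c2 := (min_le_right _ _).trans (min_le_right _ _)
  have hρ1 : (1 : ℝ) ≤ √m := by
    rw [Real.one_le_sqrt]
    exact_mod_cast hm
  have hρ0 : (0 : ℝ) < √m := by linarith
  set c0 : ℝ := c3 / (8 * √m) with hc0
  have hc00 : 0 < c0 := by positivity
  have hc0c : c0 ≤ c3 / 8 := by
    rw [hc0]
    refine div_le_div_of_nonneg_left hc30.le (by norm_num) ?_
    linarith
  have hc0m : √m * c0 ≤ 1 := by
    have h1 : √m * c0 = c3 / 8 := by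
      rw [hc0]
      field_simp
    rw [h1]
    linarith
  have hA0 : ∀ j, 0 ≤ A j := fun j =>
    (norm_nonneg _).trans ((hX 0 le_rfl zero_le_one).2.1 j 0)
  have hA2 := hA0 2
  set Lc : ℝ := 1 + 4 * A 2 * √m with hLc
  have hLc1 : 1 ≤ Lc := by
    have : 0 ≤ 4 * A 2 * √m := by positivity
    linarith
  refine ⟨c0, hc00, by linarith, fun B ε hε => ?_⟩
  obtain ⟨C, hC, hmain⟩ := coreN_abs hm A B P q 2 (Cm := Cm * Lc ^ P) (Ck := Ck) (c3 := c3)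
    (by positivity) hCk.le hc30 hc31 hε
  refine ⟨C, ?_⟩
  intro d hd0 hd1 t0 z0 hRs ν hν hνz b hbm hbs hbB hbsup R hR hRν
  obtain ⟨hXs, hXA, -⟩ := hX d hd0 hd1
  have hz0 : ∀ i, z0 i ≠ 0 := fun i => abs_pos.1 (hν.trans_le (hνz i))
  have hz0' : ∀ i, |z0 i| ≠ 0 := fun i => abs_ne_zero.2 (hz0 i)
  have hfour : ∀ ξ, ‖Tb (X d) b ξ‖ₑ ^ (4 : ℝ) = ‖Tb (X d) b ξ‖ₑ ^ 4 := by
    intro ξ
    rw [show (4 : ℝ) = ((4 : ℕ) : ℝ) by norm_num, ENNReal.rpow_natCast]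
  simp_rw [hfour]
  refine hmain (X d) hXs hXA t0 z0 ν hν hνz (fun i => (hRs.1 i).trans (by norm_num)) ?_ ?_ b
    (fun t u => b (t, dl (fun i => |z0 i|) u)) (dlL fun i => |z0 i|⁻¹)
    (dl (fun i => |z0 i|⁻¹) z0) hbm ?_ ?_ ?_ ?_ hbB ?_ ?_ R hR hRν
  · intro R Λ hR hRν hΛ ι _ t g ht hsep hgm hg1 hg2
    refine hkq c3 hc30 hc3a d hd0 hd1 t0 z0 hRs hz0 R Λ hR (fun i => ?_) hΛ ι t g ht hsep hgm
      hg1 hg2
    refine hRν.trans ?_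
    rw [← sq_abs (z0 i)]
    have h1 := hνz i
    have h2 : 0 ≤ R := by linarith
    gcongr
  · intro R K N hR hK hRν T hT ξ hξ1 hξ2 a b
    have hR0 : 0 < R := by linarith
    have hs : 0 < √R := Real.sqrt_pos.2 hR0
    have hs1 : 1 ≤ √R := Real.one_le_sqrt.2 hR
    have hsR : √R * √R = R := Real.mul_self_sqrt hR0.le
    have hr0 : 0 < 1 / √R := by positivity
    have hr1 : 1 / √R ≤ 1 := by
      rw [div_le_one hs]
      exact hs1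
    have hrν : 1 / √R ≤ ν := by
      rw [div_le_iff₀ hs]
      have h2 : 1 ≤ √(R * ν ^ 2) := Real.one_le_sqrt.2 hRν
      rw [Real.sqrt_mul hR0.le, Real.sqrt_sq hν.le] at h2
      linarith
    have hw : ‖R⁻¹ • ξ‖ = R⁻¹ * ‖ξ‖ := by
      rw [norm_smul, norm_inv, Real.norm_of_nonneg hR0.le]
    have hw1 : 1 / 2 ≤ ‖R⁻¹ • ξ‖ := by
      rw [hw, le_inv_mul_iff₀ hR0]
      linarith
    have hw2 : ‖R⁻¹ • ξ‖ ≤ 4 := by
      rw [hw, inv_mul_le_iff₀ hR0]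
      linarith
    have h1 := hhq c0 hc00 (by linarith) d hd0 hd1 t0 z0 hRs ν hν hνz (1 / √R) (Lc * K) N hr0 hr1
      (one_le_mul_of_one_le_of_one_le hLc1 hK) hrν T hT (R⁻¹ • ξ) hw1 hw2 a b
    have hact : ∀ (a : ↥(gi N ×ˢ gk m N)) (p : ℝ × E m), p ∈ T a →
        ‖Vw (X d) ξ (pcs (t0, z0) (1 / √R) N a.1)‖ ≤ K * √R →
        ‖Vw (X d) (R⁻¹ • ξ) p‖ ≤ Lc * K * (1 / √R) := by
      intro a p hp hV
      have h2 := (hT a p hp).1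
      have h3 := lf_Vw_lip (hXs.of_le (WithTop.coe_le_coe.2 (le_top : (2 : ℕ∞) ≤ ⊤))) (hXA 2) ξ
        p (pcs (t0, z0) (1 / √R) N a.1)
      have h4 : A 2 * ‖ξ‖ * ‖p - pcs (t0, z0) (1 / √R) N a.1‖ ≤ 4 * A 2 * √m * √R := by
        calc A 2 * ‖ξ‖ * ‖p - pcs (t0, z0) (1 / √R) N a.1‖ ≤
              A 2 * (4 * R) * (√m * (1 / √R)) := by gcongr
          _ = 4 * A 2 * √m * √R := by
              have : R * (1 / √R) = √R := by rw [mul_one_div, Real.div_sqrt]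
              linear_combination 4 * A 2 * √m * this
      have h5 : ‖Vw (X d) ξ p‖ ≤ ‖Vw (X d) ξ (pcs (t0, z0) (1 / √R) N a.1)‖ +
          ‖Vw (X d) ξ p - Vw (X d) ξ (pcs (t0, z0) (1 / √R) N a.1)‖ := by
        have := norm_add_le (Vw (X d) ξ (pcs (t0, z0) (1 / √R) N a.1))
          (Vw (X d) ξ p - Vw (X d) ξ (pcs (t0, z0) (1 / √R) N a.1))
        simpa using this
      have h6 : ‖Vw (X d) ξ p‖ ≤ Lc * K * √R := by
        have h7 : 4 * A 2 * √m * √R ≤ 4 * A 2 * √m * (K * √R) := by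
          have : √R ≤ K * √R := le_mul_of_one_le_left hs.le hK
          gcongr
        calc ‖Vw (X d) ξ p‖ ≤ K * √R + 4 * A 2 * √m * √R := by linarith
          _ ≤ K * √R + 4 * A 2 * √m * (K * √R) := by linarith
          _ = Lc * K * √R := by rw [hLc]; ring
      rw [lf_Vw_smul, norm_smul, norm_inv, Real.norm_of_nonneg hR0.le, inv_mul_le_iff₀ hR0]
      refine h6.trans (le_of_eq ?_)
      have : R * (1 / √R) = √R := by rw [mul_one_div, Real.div_sqrt]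
      linear_combination -(Lc * K) * this
    have h2 : Cm * (Lc * K) ^ P / ν ^ 2 = Cm * Lc ^ P * K ^ P / ν ^ 2 := by
      rw [mul_pow, mul_assoc]
    rw [← h2]
    refine le_trans ?_ h1
    refine Nat.cast_le.2 (Set.ncard_le_ncard ?_ (Set.toFinite _))
    rintro q ⟨⟨v1, v2, v3, v4⟩, p1, g1, p2, g2, p3, g3, p4, g4, hE⟩
    refine ⟨p1, g1, p2, g2, p3, g3, p4, g4, ⟨hact a p1 g1 v1, hact b p2 g2 v2,
      hact q.1 p3 g3 v3, hact q.2 p4 g4 v4⟩, hE.trans ?_⟩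
    refine pow_le_pow_left₀ (by positivity) ?_ 2
    rw [mul_assoc Lc]
    exact le_mul_of_one_le_left (by positivity) hLc1
  · intro t z
    change b (t, z) = b (t, dl (fun i => |z0 i|) (dl (fun i => |z0 i|⁻¹) z))
    rw [dl_inv hz0']
  · have h1 : Measurable fun p : ℝ × E m => ((p.1, dl (fun i => |z0 i|) p.2) : ℝ × E m) :=
      measurable_fst.prodMk ((dl_continuous _).measurable.comp measurable_snd)
    exact hbm.comp h1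
  · refine dlL_norm (by positivity) fun i => ?_
    rw [abs_of_nonneg (by positivity), ← one_div]
    exact one_div_le_one_div_of_le hν (hνz i)
  · intro t
    exact dl_smooth (hbs t) _
  · intro t u hu
    by_contra h1
    have h2 : ∀ i, |(u - dl (fun i => |z0 i|⁻¹) z0) i| ≤ c0 := by
      intro i
      by_contra h3
      rw [not_le] at h3
      refine h1 (hbsup t _ (Or.inr ⟨i, ?_⟩))
      rw [dl_apply]
      have h4 : |z0 i| * u i - z0 i = |z0 i| * (u - dl (fun i => |z0 i|⁻¹) z0) i := by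
        have h5 : (u - dl (fun i => |z0 i|⁻¹) z0) i = u i - |z0 i|⁻¹ * z0 i := rfl
        rw [h5, mul_sub, ← mul_assoc, mul_inv_cancel₀ (hz0' i), one_mul]
      rw [h4, abs_mul, abs_abs, mul_comm c0]
      exact mul_lt_mul_of_pos_left h3 (abs_pos.2 (hz0 i))
    have h3 := norm_le_sqrt_of hc00.le h2
    linarith
  · intro t z hz
    exact hbsup t z hz

end Pool.Agent.LQN
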