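import Pool.Agent.LQN.Df

/-!
The exact finite differences.
-/

set_option autoImplicit false

namespace Pool.Agent.LQN

variable {m : ℕ}

/-- `Σ v i * Row i = Cot * Dt + Σ Coy k * D k`. -/
theorem row_cot {α : ℝ} (hα : α ≠ 0) (r L y' yb : Fin m → ℝ) (a3 c3 Dt : ℝ) (D v : Fin m → ℝ) :
    ∑ i, v i * Row α r L y' yb a3 c3 Dt D i =
      Cot α r y' a3 c3 v * Dt + ∑ k, Coy r L y' yb a3 c3 v k * D k := by
  unfold Row Cot Coy
  set G1 := ∑ i, r i * y' i * v i with hG1
  set G2 := ∑ i, (1 - r i) * y' i * v i with hG2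
  have e1 : ∑ i, v i * (L i * D i + y' i * (r i * a3 * PP α r yb Dt D +
      (1 - r i) * c3 * SS α r yb Dt D)) = ∑ i, v i * L i * D i + a3 * PP α r yb Dt D * G1 +
        c3 * SS α r yb Dt D * G2 := by
    rw [hG1, hG2, Finset.mul_sum, Finset.mul_sum, ← Finset.sum_add_distrib,
      ← Finset.sum_add_distrib]
    exact Finset.sum_congr rfl fun i _ => by ring
  have e2 : ∑ k, (v k * L k - r k * yb k * a3 * G1 + (1 - r k) * yb k * c3 * G2) * D k =
      ∑ i, v i * L i * D i - a3 * G1 * ∑ i, r i * yb i * D i +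
        c3 * G2 * ∑ i, (1 - r i) * yb i * D i := by
    rw [Finset.mul_sum (s := Finset.univ) (f := fun i => r i * yb i * D i) (a := a3 * G1),
      Finset.mul_sum (s := Finset.univ) (f := fun i => (1 - r i) * yb i * D i) (a := c3 * G2),
      ← Finset.sum_sub_distrib, ← Finset.sum_add_distrib]
    exact Finset.sum_congr rfl fun i _ => by ring
  rw [e1, e2]
  unfold PP SS
  field_simp
  ring

/-- The differences of `A²` and `s`. -/
theorem rr_diff {α : ℝ} (hα : α ≠ 0) (r : Fin m → ℝ) (t t' : ℝ) (y y' : Fin m → ℝ) :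
    rr α r t' y' - rr α r t y = 2 * PP α r (fun i => (y i + y' i) / 2) (t' - t) fun i => y' i - y i := by
  unfold rr PP
  rw [mul_sub, Finset.mul_sum]
  have : ∑ i, r i * y' i ^ 2 - ∑ i, r i * y i ^ 2 =
      ∑ i, 2 * (r i * ((y i + y' i) / 2) * (y' i - y i)) := by
    rw [← Finset.sum_sub_distrib]
    exact Finset.sum_congr rfl fun i _ => by ring
  have h2 : 2 * ((t' - t) / (2 * α)) = t' / α - t / α := by
    field_simp
  rw [h2, ← this]
  ring

theorem ss_diff {α : ℝ} (hα : α ≠ 0) (r : Fin m → ℝ) (t t' : ℝ) (y y' : Fin m → ℝ) :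
    ss α r t' y' - ss α r t y = 2 * SS α r (fun i => (y i + y' i) / 2) (t' - t) fun i => y' i - y i := by
  unfold ss SS
  rw [mul_add, Finset.mul_sum]
  have : ∑ i, (1 - r i) * y' i ^ 2 - ∑ i, (1 - r i) * y i ^ 2 =
      ∑ i, 2 * ((1 - r i) * ((y i + y' i) / 2) * (y' i - y i)) := by
    rw [← Finset.sum_sub_distrib]
    exact Finset.sum_congr rfl fun i _ => by ring
  have h2 : 2 * ((t' - t) / (2 * α)) = t' / α - t / α := by
    field_simp
  rw [h2, ← this]
  ring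

/-- `w₁ (1/A' - 1/A)`. -/
theorem inv_A_diff {α : ℝ} (hα : α ≠ 0) (r : Fin m → ℝ) (t t' : ℝ) (y y' : Fin m → ℝ)
    (h : 0 < rr α r t y) (h' : 0 < rr α r t' y') (w1 : ℝ) :
    w1 / AA α r t' y' - w1 / AA α r t y =
      -(2 * w1 / (AA α r t y * AA α r t' y' * (AA α r t y + AA α r t' y')) *
        PP α r (fun i => (y i + y' i) / 2) (t' - t) fun i => y' i - y i) := by
  have hA : 0 < AA α r t y := Real.sqrt_pos.2 h
  have hA' : 0 < AA α r t' y' := Real.sqrt_pos.2 h'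
  have h1 : AA α r t y ^ 2 = rr α r t y := Real.sq_sqrt h.le
  have h2 : AA α r t' y' ^ 2 = rr α r t' y' := Real.sq_sqrt h'.le
  have h3 := rr_diff hα r t t' y y'
  rw [← h1, ← h2] at h3
  set P := PP α r (fun i => (y i + y' i) / 2) (t' - t) fun i => y' i - y i
  set A := AA α r t y
  set A' := AA α r t' y'
  have h4 : P = (A' ^ 2 - A ^ 2) / 2 := by linarith
  rw [h4]
  field_simp
  ring

/-- `wₙ (1/H' - 1/H)`. -/
theorem inv_H_diff {α d : ℝ} (hα : α ≠ 0) (r : Fin m → ℝ) (t t' : ℝ) (y y' : Fin m → ℝ)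
    (h : 0 < 1 - d ^ 2 * ss α r t y) (h' : 0 < 1 - d ^ 2 * ss α r t' y') (wn : ℝ) :
    wn / HH α d r t' y' - wn / HH α d r t y =
      2 * d ^ 2 * wn / (HH α d r t y * HH α d r t' y' * (HH α d r t y + HH α d r t' y')) *
        SS α r (fun i => (y i + y' i) / 2) (t' - t) fun i => y' i - y i := by
  have hA : 0 < HH α d r t y := Real.sqrt_pos.2 h
  have hA' : 0 < HH α d r t' y' := Real.sqrt_pos.2 h'
  have h1 : HH α d r t y ^ 2 = 1 - d ^ 2 * ss α r t y := Real.sq_sqrt h.le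
  have h2 : HH α d r t' y' ^ 2 = 1 - d ^ 2 * ss α r t' y' := Real.sq_sqrt h'.le
  have h3 := ss_diff hα r t t' y y'
  set S := SS α r (fun i => (y i + y' i) / 2) (t' - t) fun i => y' i - y i
  set A := HH α d r t y
  set A' := HH α d r t' y'
  have h4 : d ^ 2 * S = (A ^ 2 - A' ^ 2) / 2 := by
    have : d ^ 2 * (ss α r t' y' - ss α r t y) = A ^ 2 - A' ^ 2 := by linarith
    rw [h3] at this
    linarith
  have h5 : 2 * d ^ 2 * wn / (A * A' * (A + A')) * S =
      2 * wn / (A * A' * (A + A')) * (d ^ 2 * S) := by ring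
  rw [h5, h4]
  field_simp
  ring

/-- The coefficients of the chord. -/
noncomputable def a3c (α : ℝ) (r : Fin m → ℝ) (w1 t : ℝ) (y : Fin m → ℝ) (t' : ℝ) (y' : Fin m → ℝ) :
    ℝ := 2 * w1 / (AA α r t y * AA α r t' y' * (AA α r t y + AA α r t' y'))
noncomputable def c3c (α d : ℝ) (r : Fin m → ℝ) (wn t : ℝ) (y : Fin m → ℝ) (t' : ℝ)
    (y' : Fin m → ℝ) : ℝ :=
  2 * d ^ 2 * wn / (HH α d r t y * HH α d r t' y' * (HH α d r t y + HH α d r t' y'))

/-- (D1): the difference of `U` is a row of the chord. -/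
theorem D1 {α d : ℝ} (hα : α ≠ 0) (r : Fin m → ℝ) (t t' : ℝ) (y y' : Fin m → ℝ)
    (h : 0 < rr α r t y) (h' : 0 < rr α r t' y') (g : 0 < 1 - d ^ 2 * ss α r t y)
    (g' : 0 < 1 - d ^ 2 * ss α r t' y') (w1 wn : ℝ) (w : Fin m → ℝ) (i : Fin m) :
    UU α d r w1 wn w t' y' i - UU α d r w1 wn w t y i =
      Row α r (LL α d r w1 wn t y) y' (fun i => (y i + y' i) / 2) (a3c α r w1 t y t' y')
        (c3c α d r wn t y t' y') (t' - t) (fun i => y' i - y i) i := by
  have h1 := inv_A_diff hα r t t' y y' h h' w1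
  have h2 := inv_H_diff hα r t t' y y' g g' wn
  unfold UU Row a3c c3c
  have h3 : LL α d r w1 wn t' y' i = LL α d r w1 wn t y i +
      (1 - r i) * (wn / HH α d r t' y' - wn / HH α d r t y) -
        r i * (w1 / AA α r t' y' - w1 / AA α r t y) := by
    unfold LL
    ring
  rw [h3, h1, h2]
  ring

/-- (D1) for `w · Y_t`. -/
theorem D1t {α d : ℝ} (hα : α ≠ 0) (r : Fin m → ℝ) (t t' : ℝ) (y y' : Fin m → ℝ)
    (h : 0 < rr α r t y) (h' : 0 < rr α r t' y') (g : 0 < 1 - d ^ 2 * ss α r t y)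
    (g' : 0 < 1 - d ^ 2 * ss α r t' y') (w1 wn : ℝ) :
    TT α d r w1 wn t' y' - TT α d r w1 wn t y =
      (-(a3c α r w1 t y t' y' * PP α r (fun i => (y i + y' i) / 2) (t' - t) fun i => y' i - y i) +
        c3c α d r wn t y t' y' * SS α r (fun i => (y i + y' i) / 2) (t' - t)
          fun i => y' i - y i) / (2 * α) := by
  have h1 := inv_A_diff hα r t t' y y' h h' w1
  have h2 := inv_H_diff hα r t t' y y' g g' wn
  unfold TT a3c c3c
  rw [← h2, ← h1]
  ring

end Pool.Agent.LQN
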