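import Pool.Agent.LQN.DL

/-!
LEAFQ for all `n`: the dyadic decomposition in the `m` leaf coordinates.
-/

set_option autoImplicit false

namespace Pool.Agent.LQN

open MeasureTheory Set Metric Pool.Agent.MP_6cbfb8_an Pool.Agent.LF Pool.Agent.GNP
open scoped RealInnerProductSpace ContDiff ENNReal

/-! ### Cut-offs in one real variable -/

/-- A smooth cut-off: `1` for `|y| ≤ 1/2`, `0` for `|y| ≥ 1`. -/
noncomputable def ph1 (y : ℝ) : ℝ := Real.smoothTransition (4 / 3 * (1 - y ^ 2))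

theorem ph1_smooth : ContDiff ℝ ∞ ph1 := by
  unfold ph1
  exact Real.smoothTransition.contDiff.comp
    (contDiff_const.mul (contDiff_const.sub (contDiff_id.pow 2)))

theorem ph1_one {y : ℝ} (h : |y| ≤ 1 / 2) : ph1 y = 1 := by
  unfold ph1
  refine Real.smoothTransition.one_of_one_le ?_
  have := sq_abs y
  nlinarith [abs_nonneg y]

theorem ph1_zero {y : ℝ} (h : 1 ≤ |y|) : ph1 y = 0 := by
  unfold ph1
  refine Real.smoothTransition.zero_of_nonpos ?_
  have := sq_abs y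
  nlinarith [abs_nonneg y]

theorem ph1_nonneg (y : ℝ) : 0 ≤ ph1 y := Real.smoothTransition.nonneg _

theorem ph1_le_one (y : ℝ) : ph1 y ≤ 1 := Real.smoothTransition.le_one _

/-- The cut-off to `1/4 ≤ |y| ≤ 1`. -/
noncomputable def ps1 (y : ℝ) : ℝ := ph1 y - ph1 (2 * y)

theorem ps1_smooth : ContDiff ℝ ∞ ps1 :=
  ph1_smooth.sub (ph1_smooth.comp (contDiff_const.mul contDiff_id))

theorem ps1_abs (y : ℝ) : |ps1 y| ≤ 1 := by
  unfold ps1
  rw [abs_le]
  constructor <;> linarith [ph1_nonneg y, ph1_nonneg (2 * y), ph1_le_one y, ph1_le_one (2 * y)]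

theorem ps1_supp {y : ℝ} (h : ps1 y ≠ 0) : 1 / 4 ≤ |y| ∧ |y| ≤ 1 := by
  constructor
  · by_contra h1
    rw [not_le] at h1
    refine h ?_
    unfold ps1
    rw [ph1_one (by linarith), ph1_one, sub_self]
    rw [abs_mul, abs_two]
    linarith
  · by_contra h1
    rw [not_le] at h1
    refine h ?_
    unfold ps1
    rw [ph1_zero h1.le, ph1_zero, sub_self]
    rw [abs_mul, abs_two]
    linarith

/-- The size of the coordinate in the piece `j`. -/
noncomputable def nuj (j : ℕ) : ℝ := 4 / 2 ^ j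

theorem nuj_pos (j : ℕ) : 0 < nuj j := by unfold nuj; positivity

theorem nuj_le (j : ℕ) : nuj j ≤ 4 := by
  unfold nuj
  rw [div_le_iff₀ (by positivity)]
  have : (1 : ℝ) ≤ 2 ^ j := one_le_pow₀ (by norm_num)
  linarith

/-- The dyadic cut-offs. -/
noncomputable def chi (j : ℕ) (y : ℝ) : ℝ := ps1 ((nuj j)⁻¹ * y)

theorem chi_smooth (j : ℕ) : ContDiff ℝ ∞ (chi j) :=
  ps1_smooth.comp (contDiff_const.mul contDiff_id)

theorem chi_abs (j : ℕ) (y : ℝ) : |chi j y| ≤ 1 := ps1_abs _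

theorem chi_supp {j : ℕ} {y : ℝ} (h : chi j y ≠ 0) : nuj j / 4 ≤ |y| ∧ |y| ≤ nuj j := by
  have h1 := ps1_supp h
  have hn := nuj_pos j
  rw [abs_mul, abs_of_pos (inv_pos.2 hn)] at h1
  constructor
  · have := h1.1
    rw [← div_eq_inv_mul, le_div_iff₀ hn] at this
    linarith
  · have := h1.2
    rw [inv_mul_le_iff₀ hn] at this
    linarith

theorem chi_scale (j : ℕ) (u : ℝ) : chi j (nuj j * u) = ps1 u := by
  unfold chi
  rw [inv_mul_cancel_left₀ (nuj_pos j).ne']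

theorem chi_sum {J : ℕ} {y : ℝ} (h : |y| ≤ 2) :
    ∑ j ∈ Finset.range J, chi j y = 1 - ph1 ((nuj J)⁻¹ * y) := by
  have h1 : ∀ j ∈ Finset.range J, chi j y =
      ph1 ((nuj j)⁻¹ * y) - ph1 ((nuj (j + 1))⁻¹ * y) := by
    intro j _
    unfold chi ps1
    congr 2
    unfold nuj
    rw [pow_succ]
    field_simp
  rw [Finset.sum_congr rfl h1, Finset.sum_range_sub' (fun j => ph1 ((nuj j)⁻¹ * y)), ph1_one]
  unfold nuj
  rw [abs_mul, pow_zero, div_one, abs_of_pos (by norm_num : (0 : ℝ) < (4 : ℝ)⁻¹)]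
  linarith

/-! ### Products over the coordinates -/

variable {m : ℕ}

/-- The product of the cut-offs in the scaled variables. -/
noncomputable def Phi (u : E m) : ℝ := ∏ i, ps1 (u i)

theorem Phi_smooth : ContDiff ℝ ∞ (Phi : E m → ℝ) := by
  unfold Phi
  refine contDiff_prod fun i _ => ?_
  exact ps1_smooth.comp (EuclideanSpace.proj (𝕜 := ℝ) i).contDiff

theorem Phi_supp {u : E m} (h : Phi u ≠ 0) (i : Fin m) : |u i| ≤ 1 :=
  (ps1_supp (Finset.prod_ne_zero_iff.1 h i (Finset.mem_univ i))).2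

theorem Phi_bound (m : ℕ) : ∃ P : ℕ → ℝ, ∀ k (u : E m), ‖iteratedFDeriv ℝ k Phi u‖ ≤ P k := by
  have h1 : ∀ k : ℕ, ∃ B : ℝ, ∀ u : E m, ‖iteratedFDeriv ℝ k Phi u‖ ≤ B := by
    intro k
    have hs : HasCompactSupport (Phi : E m → ℝ) := by
      refine HasCompactSupport.intro (isCompact_closedBall (0 : E m) √m) fun u hu => ?_
      by_contra hne
      refine hu ?_
      rw [mem_closedBall_zero_iff, EuclideanSpace.norm_eq]
      refine Real.sqrt_le_sqrt ?_
      calc ∑ i, ‖u i‖ ^ 2 ≤ ∑ _i : Fin m, (1 : ℝ) := by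
            refine Finset.sum_le_sum fun i _ => ?_
            have := Phi_supp hne i
            rw [Real.norm_eq_abs]
            nlinarith [abs_nonneg (u i)]
        _ = m := by simp
    exact (hs.iteratedFDeriv k).exists_bound_of_continuous
      (Phi_smooth.continuous_iteratedFDeriv (by exact_mod_cast le_top))
  choose B hB using h1
  exact ⟨B, hB⟩

/-- The cut-off of the piece `j`. -/
noncomputable def PX (j : Fin m → ℕ) (z : E m) : ℝ := ∏ i, chi (j i) (z i)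

theorem PX_smooth (j : Fin m → ℕ) : ContDiff ℝ ∞ (PX j) := by
  unfold PX
  refine contDiff_prod fun i _ => ?_
  exact (chi_smooth (j i)).comp (EuclideanSpace.proj (𝕜 := ℝ) i).contDiff

theorem PX_abs (j : Fin m → ℕ) (z : E m) : |PX j z| ≤ 1 := by
  unfold PX
  rw [Finset.abs_prod]
  exact Finset.prod_le_one (fun i _ => abs_nonneg _) fun i _ => chi_abs _ _

theorem PX_supp {j : Fin m → ℕ} {z : E m} (h : PX j z ≠ 0) (i : Fin m) :
    nuj (j i) / 4 ≤ |z i| ∧ |z i| ≤ nuj (j i) :=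
  chi_supp (Finset.prod_ne_zero_iff.1 h i (Finset.mem_univ i))

theorem PX_scale (j : Fin m → ℕ) (u : E m) : PX j (dl (fun i => nuj (j i)) u) = Phi u := by
  unfold PX Phi
  refine Finset.prod_congr rfl fun i _ => ?_
  rw [dl_apply, chi_scale]

/-- The multi-indices. -/
def jdx (m J : ℕ) : Finset (Fin m → ℕ) := Fintype.piFinset fun _ => Finset.range J

theorem mem_jdx {J : ℕ} {j : Fin m → ℕ} : j ∈ jdx m J ↔ ∀ i, j i < J := by
  simp [jdx, Fintype.mem_piFinset]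

theorem card_jdx (m J : ℕ) : (jdx m J).card = J ^ m := by
  simp [jdx, Fintype.card_piFinset]

theorem PX_sum {J : ℕ} {z : E m} (h : ∀ i, |z i| ≤ 2) :
    ∑ j ∈ jdx m J, PX j z = ∏ i, (1 - ph1 ((nuj J)⁻¹ * z i)) := by
  unfold PX jdx
  rw [← Finset.prod_univ_sum (fun _ => Finset.range J) fun i j => chi j (z i)]
  exact Finset.prod_congr rfl fun i _ => chi_sum (h i)

/-! ### The pieces of a density -/

/-- The pieces. -/
noncomputable def bN (b : ℝ × E m → ℂ) (j : Fin m → ℕ) (p : ℝ × E m) : ℂ :=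
  ((PX j p.2 : ℝ) : ℂ) * b p

/-- The last piece. -/
noncomputable def bL (b : ℝ × E m → ℂ) (J : ℕ) (p : ℝ × E m) : ℂ :=
  ((1 - ∑ j ∈ jdx m J, PX j p.2 : ℝ) : ℂ) * b p

theorem bN_meas {b : ℝ × E m → ℂ} (hb : Measurable b) (j : Fin m → ℕ) :
    Measurable (bN b j) :=
  (Complex.measurable_ofReal.comp ((PX_smooth j).continuous.measurable.comp
    measurable_snd)).mul hb

theorem bL_meas {b : ℝ × E m → ℂ} (hb : Measurable b) (J : ℕ) : Measurable (bL b J) := by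
  refine (Complex.measurable_ofReal.comp (Measurable.sub measurable_const ?_)).mul hb
  exact Finset.measurable_sum _ fun j _ => (PX_smooth j).continuous.measurable.comp measurable_snd

theorem bN_le (b : ℝ × E m → ℂ) (j : Fin m → ℕ) (p : ℝ × E m) : ‖bN b j p‖ ≤ ‖b p‖ := by
  unfold bN
  rw [norm_mul, Complex.norm_real, Real.norm_eq_abs]
  exact mul_le_of_le_one_left (norm_nonneg _) (PX_abs j p.2)

theorem bL_le {b : ℝ × E m → ℂ} (hb : ∀ p, b p ≠ 0 → ∀ i, |p.2 i| ≤ 2) (J : ℕ) (p : ℝ × E m) :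
    ‖bL b J p‖ ≤ ‖b p‖ := by
  unfold bL
  by_cases h : b p = 0
  · simp [h]
  · rw [norm_mul, Complex.norm_real, Real.norm_eq_abs, PX_sum (hb p h)]
    refine mul_le_of_le_one_left (norm_nonneg _) ?_
    have h1 : 0 ≤ ∏ i, (1 - ph1 ((nuj J)⁻¹ * p.2 i)) :=
      Finset.prod_nonneg fun i _ => by linarith [ph1_le_one ((nuj J)⁻¹ * p.2 i)]
    have h2 : ∏ i, (1 - ph1 ((nuj J)⁻¹ * p.2 i)) ≤ 1 :=
      Finset.prod_le_one (fun i _ => by linarith [ph1_le_one ((nuj J)⁻¹ * p.2 i)])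
        fun i _ => by linarith [ph1_nonneg ((nuj J)⁻¹ * p.2 i)]
    rw [abs_le]
    constructor <;> linarith

theorem bN_supp {b : ℝ × E m → ℂ} {j : Fin m → ℕ} {p : ℝ × E m} (h : bN b j p ≠ 0) :
    b p ≠ 0 ∧ ∀ i, nuj (j i) / 4 ≤ |p.2 i| ∧ |p.2 i| ≤ nuj (j i) := by
  unfold bN at h
  refine ⟨right_ne_zero_of_mul h, PX_supp ?_⟩
  intro h0
  rw [h0] at h
  simp at h

theorem bL_supp {b : ℝ × E m → ℂ} (hb : ∀ p, b p ≠ 0 → ∀ i, |p.2 i| ≤ 2) {J : ℕ} {p : ℝ × E m}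
    (h : bL b J p ≠ 0) : b p ≠ 0 ∧ ∃ i, |p.2 i| ≤ nuj J := by
  unfold bL at h
  have hb0 : b p ≠ 0 := right_ne_zero_of_mul h
  refine ⟨hb0, ?_⟩
  by_contra hcon
  push Not at hcon
  rw [PX_sum (hb p hb0)] at h
  have h1 : ∏ i, (1 - ph1 ((nuj J)⁻¹ * p.2 i)) = 1 := by
    refine Finset.prod_eq_one fun i _ => ?_
    rw [ph1_zero, sub_zero]
    rw [abs_mul, abs_of_pos (inv_pos.2 (nuj_pos J)), ← div_eq_inv_mul, le_div_iff₀ (nuj_pos J)]
    linarith [hcon i]
  rw [h1] at h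
  simp at h

theorem bN_smooth {b : ℝ × E m → ℂ} (hb : ∀ t, ContDiff ℝ ∞ fun z => b (t, z))
    (j : Fin m → ℕ) (t : ℝ) : ContDiff ℝ ∞ fun z => bN b j (t, z) := by
  have h1 : ContDiff ℝ ∞ fun z : E m => ((PX j z : ℝ) : ℂ) :=
    Complex.ofRealCLM.contDiff.comp (PX_smooth j)
  exact h1.mul (hb t)

theorem bN_sum (b : ℝ × E m → ℂ) (J : ℕ) (p : ℝ × E m) :
    b p = bL b J p + ∑ j ∈ jdx m J, bN b j p := by
  unfold bN bL
  rw [← Finset.sum_mul, ← Complex.ofReal_sum, ← add_mul, ← Complex.ofReal_add, sub_add_cancel,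
    Complex.ofReal_one, one_mul]

/-- **The bounds of the pieces in the scaled variable.** -/
theorem bN_bd (m : ℕ) (B : ℕ → ℝ) : ∃ B' : ℕ → ℝ, ∀ (b : ℝ × E m → ℂ) (j : Fin m → ℕ)
    (t : ℝ), ContDiff ℝ ∞ (fun z => b (t, z)) →
    (∀ k z, ‖iteratedFDeriv ℝ k (fun z => b (t, z)) z‖ ≤ B k) → ∀ k u,
      ‖iteratedFDeriv ℝ k (fun u => bN b j (t, dl (fun i => nuj (j i)) u)) u‖ ≤ B' k := by
  obtain ⟨P, hP⟩ := Phi_bound m
  refine ⟨fun k => ∑ i ∈ Finset.range (k + 1),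
    (k.choose i : ℝ) * |P i| * |(|B (k - i)| * 4 ^ (k - i))|, ?_⟩
  intro b j t hb hB k u
  have h1 : (fun u => bN b j (t, dl (fun i => nuj (j i)) u)) = fun u =>
      ((Phi u : ℝ) : ℂ) * (fun u => b (t, dl (fun i => nuj (j i)) u)) u := by
    funext u
    unfold bN
    simp only
    rw [PX_scale]
  rw [h1]
  have h2 := LQ.mul_bd (Phi_smooth (m := m))
    (f := fun u => b (t, dl (fun i => nuj (j i)) u))
    (dl_smooth hb _) (U := P) (B := fun k => |B k| * 4 ^ k)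
    (L := 1) zero_le_one (fun k z => by rw [one_pow, mul_one]; exact hP k z)
    (fun k z => by
      rw [one_pow, mul_one]
      refine dl_bd hb (fun x => (hB k x).trans (le_abs_self _)) (by norm_num)
        (fun i => ?_) z
      rw [abs_of_pos (nuj_pos _)]
      exact nuj_le _) k u
  rw [one_pow, mul_one] at h2
  exact h2

/-! ### The mass of a box -/

/-- The box. -/
def bxE (v : Fin m → ℝ) : Set (E m) := {z | ∀ i, |z i| ≤ v i}

theorem bxE_meas (v : Fin m → ℝ) : MeasurableSet (bxE v) := by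
  have h : bxE v = ⋂ i, {z : E m | |z i| ≤ v i} := by
    ext z
    simp [bxE]
  rw [h]
  refine MeasurableSet.iInter fun i => ?_
  exact measurableSet_le ((EuclideanSpace.proj (𝕜 := ℝ) i).continuous.measurable.abs)
    measurable_const

theorem bxE_vol {v : Fin m → ℝ} (hv : ∀ i, 0 ≤ v i) :
    volume (bxE v) = ENNReal.ofReal (2 ^ m * ∏ i, v i) := by
  have h1 : bxE v = (MeasurableEquiv.toLp 2 (Fin m → ℝ)).symm ⁻¹'
      (Set.pi univ fun i => Icc (-(v i)) (v i)) := by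
    ext z
    simp only [bxE, mem_ofPred_eq, mem_preimage, mem_pi, mem_univ, true_implies, mem_Icc, abs_le]
    rfl
  rw [h1, (EuclideanSpace.volume_preserving_symm_measurableEquiv_toLp (Fin m)).measure_preimage
    (MeasurableSet.univ_pi fun i => measurableSet_Icc).nullMeasurableSet, volume_pi_pi]
  have h2 : ∀ i, volume (Icc (-(v i)) (v i)) = ENNReal.ofReal (2 * v i) := by
    intro i
    rw [Real.volume_Icc]
    congr 1
    ring
  rw [Finset.prod_congr rfl fun i _ => h2 i, ← ENNReal.ofReal_prod_of_nonneg fun i _ => by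
    have := hv i
    positivity]
  congr 1
  rw [Finset.prod_mul_distrib, Finset.prod_const, Finset.card_univ, Fintype.card_fin]

/-- The mean square of a bounded density on a box. -/
theorem box_sq {T : ℝ} (hT : 0 ≤ T) (B0 : ℝ) {v : Fin m → ℝ} (hv : ∀ i, 0 ≤ v i) :
    ∫⁻ p : ℝ × E m, (Icc (-T) T ×ˢ bxE v).indicator (fun _ => ENNReal.ofReal (B0 ^ 2)) p =
      ENNReal.ofReal (B0 ^ 2 * (2 * T) * (2 ^ m * ∏ i, v i)) := by
  rw [lintegral_indicator (measurableSet_Icc.prod (bxE_meas v)), setLIntegral_const,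
    Measure.volume_eq_prod, Measure.prod_prod, bxE_vol hv, Real.volume_Icc,
    ← ENNReal.ofReal_mul (by linarith), ← ENNReal.ofReal_mul (by positivity)]
  congr 1
  ring

/-- The square of a bounded function. -/
theorem sq_bd {B0 : ℝ} (hB0 : 0 ≤ B0) {c : ℂ} (h : ‖c‖ ≤ B0) :
    ‖c‖ₑ ^ (2 : ℝ) ≤ ENNReal.ofReal (B0 ^ 2) := by
  have h2 : ‖c‖ₑ ≤ ENNReal.ofReal B0 := by
    rw [← ofReal_norm]
    exact ENNReal.ofReal_le_ofReal h
  refine (ENNReal.rpow_le_rpow h2 (by norm_num)).trans_eq ?_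
  rw [ENNReal.ofReal_rpow_of_nonneg hB0 (by norm_num)]
  congr 1
  exact Real.rpow_natCast B0 2

/-- The mean square of a main piece. -/
theorem bN_sq {T B0 : ℝ} (hT : 0 ≤ T) (hB0 : 0 ≤ B0) {b : ℝ × E m → ℂ} (hB : ∀ p, ‖b p‖ ≤ B0)
    (hs : ∀ p, b p ≠ 0 → |p.1| ≤ T) (j : Fin m → ℕ) :
    ∫⁻ p, ‖bN b j p‖ₑ ^ (2 : ℝ) ≤
      ENNReal.ofReal (B0 ^ 2 * (2 * T) * (2 ^ m * ∏ i, nuj (j i))) := by
  rw [← box_sq hT B0 (v := fun i => nuj (j i)) fun i => (nuj_pos _).le]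
  refine lintegral_mono fun p => ?_
  by_cases h : bN b j p = 0
  · rw [h]
    simp
  · obtain ⟨h1, h2⟩ := bN_supp h
    rw [indicator_of_mem (show p ∈ Icc (-T) T ×ˢ bxE fun i => nuj (j i) from
      ⟨abs_le.1 (hs p h1), fun i => (h2 i).2⟩)]
    exact sq_bd hB0 ((bN_le b j p).trans (hB p))

/-- The mean square of the last piece. -/
theorem bL_sq {T B0 : ℝ} (hT : 0 ≤ T) (hB0 : 0 ≤ B0) {b : ℝ × E m → ℂ} (hB : ∀ p, ‖b p‖ ≤ B0)
    (hs : ∀ p, b p ≠ 0 → |p.1| ≤ T) (hs2 : ∀ p, b p ≠ 0 → ∀ i, |p.2 i| ≤ 2) (J : ℕ) :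
    ∫⁻ p, ‖bL b J p‖ₑ ^ (2 : ℝ) ≤
      ENNReal.ofReal (m * (B0 ^ 2 * (2 * T) * (4 ^ m * nuj J))) := by
  have h0 : ∀ p : ℝ × E m, ‖bL b J p‖ₑ ^ (2 : ℝ) ≤ ∑ i : Fin m,
      (Icc (-T) T ×ˢ bxE (Function.update (fun _ => (2 : ℝ)) i (nuj J))).indicator
        (fun _ => ENNReal.ofReal (B0 ^ 2)) p := by
    intro p
    by_cases h : bL b J p = 0
    · rw [h]
      simp
    · obtain ⟨h1, i, h2⟩ := bL_supp hs2 h
      have hmem : p ∈ Icc (-T) T ×ˢ bxE (Function.update (fun _ => (2 : ℝ)) i (nuj J)) := by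
        refine ⟨abs_le.1 (hs p h1), fun k => ?_⟩
        rcases eq_or_ne k i with rfl | hk
        · rw [Function.update_self]
          exact h2
        · rw [Function.update_of_ne hk]
          exact hs2 p h1 k
      calc ‖bL b J p‖ₑ ^ (2 : ℝ) ≤ ENNReal.ofReal (B0 ^ 2) :=
            sq_bd hB0 ((bL_le hs2 J p).trans (hB p))
        _ = (Icc (-T) T ×ˢ bxE (Function.update (fun _ => (2 : ℝ)) i (nuj J))).indicator
              (fun _ => ENNReal.ofReal (B0 ^ 2)) p := by rw [indicator_of_mem hmem]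
        _ ≤ _ := Finset.single_le_sum (f := fun i : Fin m =>
              (Icc (-T) T ×ˢ bxE (Function.update (fun _ => (2 : ℝ)) i (nuj J))).indicator
                (fun _ => ENNReal.ofReal (B0 ^ 2)) p) (fun _ _ => zero_le) (Finset.mem_univ i)
  have hv : ∀ i k : Fin m, 0 ≤ Function.update (fun _ => (2 : ℝ)) i (nuj J) k := by
    intro i k
    rcases eq_or_ne k i with rfl | hk
    · rw [Function.update_self]
      exact (nuj_pos J).le
    · rw [Function.update_of_ne hk]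
      norm_num
  have hprod : ∀ i : Fin m, ∏ k, Function.update (fun _ => (2 : ℝ)) i (nuj J) k ≤
      2 ^ m * nuj J := by
    intro i
    rw [Finset.prod_update_of_mem (Finset.mem_univ i), Finset.prod_const, mul_comm]
    refine mul_le_mul_of_nonneg_right (pow_le_pow_right₀ (by norm_num) ?_) (nuj_pos J).le
    exact (Finset.card_le_univ _).trans (by rw [Fintype.card_fin])
  calc ∫⁻ p, ‖bL b J p‖ₑ ^ (2 : ℝ) ≤ ∫⁻ p, ∑ i : Fin m,
      (Icc (-T) T ×ˢ bxE (Function.update (fun _ => (2 : ℝ)) i (nuj J))).indicator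
        (fun _ => ENNReal.ofReal (B0 ^ 2)) p := lintegral_mono h0
    _ = ∑ i : Fin m, ENNReal.ofReal (B0 ^ 2 * (2 * T) *
          (2 ^ m * ∏ k, Function.update (fun _ => (2 : ℝ)) i (nuj J) k)) := by
        rw [lintegral_finsetSum _ fun i _ => measurable_const.indicator
          (measurableSet_Icc.prod (bxE_meas _))]
        exact Finset.sum_congr rfl fun i _ => box_sq hT B0 (hv i)
    _ ≤ ∑ _i : Fin m, ENNReal.ofReal (B0 ^ 2 * (2 * T) * (4 ^ m * nuj J)) := by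
        refine Finset.sum_le_sum fun i _ => ENNReal.ofReal_le_ofReal ?_
        refine mul_le_mul_of_nonneg_left ?_ (by positivity)
        have e : (4 : ℝ) ^ m * nuj J = 2 ^ m * (2 ^ m * nuj J) := by
          rw [← mul_assoc, ← mul_pow]
          norm_num
        rw [e]
        exact mul_le_mul_of_nonneg_left (hprod i) (by positivity)
    _ = _ := by
        rw [Finset.sum_const, Finset.card_univ, Fintype.card_fin, nsmul_eq_mul,
          ENNReal.ofReal_mul (Nat.cast_nonneg m), ENNReal.ofReal_natCast]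

/-- The pieces are integrable. -/
theorem bN_int {T B0 : ℝ} {b : ℝ × E m → ℂ} (hb : Measurable b) (hB : ∀ p, ‖b p‖ ≤ B0)
    (hs : ∀ p, b p ≠ 0 → |p.1| ≤ T) (hs2 : ∀ p, b p ≠ 0 → ∀ i, |p.2 i| ≤ 2) (j : Fin m → ℕ) :
    Integrable (bN b j) :=
  int_box (T := T) (ρ := √m * 2) (bN_meas hb j) (fun p => (bN_le b j p).trans (hB p))
    fun p hp => ⟨hs p (bN_supp hp).1, norm_le_sqrt_of (by norm_num) (hs2 p (bN_supp hp).1)⟩

theorem bL_int {T B0 : ℝ} {b : ℝ × E m → ℂ} (hb : Measurable b) (hB : ∀ p, ‖b p‖ ≤ B0)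
    (hs : ∀ p, b p ≠ 0 → |p.1| ≤ T) (hs2 : ∀ p, b p ≠ 0 → ∀ i, |p.2 i| ≤ 2) (J : ℕ) :
    Integrable (bL b J) :=
  int_box (T := T) (ρ := √m * 2) (bL_meas hb J) (fun p => (bL_le hs2 J p).trans (hB p))
    fun p hp => ⟨hs p (bL_supp hs2 hp).1,
      norm_le_sqrt_of (by norm_num) (hs2 p (bL_supp hs2 hp).1)⟩

/-- `Tb` of the decomposition. -/
theorem Tb_dyn {n : ℕ} {X : ℝ × E m → E n} (hX : Continuous X) {T B0 : ℝ} {b : ℝ × E m → ℂ}
    (hb : Measurable b) (hB : ∀ p, ‖b p‖ ≤ B0) (hs : ∀ p, b p ≠ 0 → |p.1| ≤ T)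
    (hs2 : ∀ p, b p ≠ 0 → ∀ i, |p.2 i| ≤ 2) (J : ℕ) (ξ : E n) :
    Tb X b ξ = Tb X (bL b J) ξ + ∑ j ∈ jdx m J, Tb X (bN b j) ξ := by
  have h1 := LQ.Tb_fin hX (insert none ((jdx m J).image some))
    (fun o : Option (Fin m → ℕ) => o.elim (bL b J) (bN b)) (b := b) (fun o _ => by
      cases o with
      | none => exact bL_int hb hB hs hs2 J
      | some j => exact bN_int hb hB hs hs2 j) (fun p => by
      rw [Finset.sum_insert (by simp), Finset.sum_image (by simp)]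
      exact bN_sum b J p) ξ
  rw [h1, Finset.sum_insert (by simp), Finset.sum_image (by simp)]
  rfl

end Pool.Agent.LQN
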