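import Mathlib

/-!
LEAFQ for every `n = m + 2`: the explicit surfaces `Y(t, y) = (A, y, h)` on the quadric
`Y₁² + |y|² + d² Yₙ² = 2 Yₙ`, leaf coordinates `y ∈ ℝ^m`, parameters `r i ≠ 0, 1` distinct:
`t = α (A² + Σ r i (y i)²)`.
-/

set_option autoImplicit false

namespace Pool.Agent.LQN

variable {m : ℕ}

/-- `A²`. -/
noncomputable def rr (α : ℝ) (r : Fin m → ℝ) (t : ℝ) (y : Fin m → ℝ) : ℝ :=
  t / α - ∑ i, r i * y i ^ 2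
/-- `s = A² + |y|²`. -/
noncomputable def ss (α : ℝ) (r : Fin m → ℝ) (t : ℝ) (y : Fin m → ℝ) : ℝ :=
  t / α + ∑ i, (1 - r i) * y i ^ 2
/-- The first coordinate. -/
noncomputable def AA (α : ℝ) (r : Fin m → ℝ) (t : ℝ) (y : Fin m → ℝ) : ℝ := √(rr α r t y)
/-- `H = 1 - d² h`. -/
noncomputable def HH (α d : ℝ) (r : Fin m → ℝ) (t : ℝ) (y : Fin m → ℝ) : ℝ :=
  √(1 - d ^ 2 * ss α r t y)
/-- The last coordinate. -/
noncomputable def hh (α d : ℝ) (r : Fin m → ℝ) (t : ℝ) (y : Fin m → ℝ) : ℝ :=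
  ss α r t y / (1 + HH α d r t y)

/-- The hypotheses on the parameters: `r i = (b i - b n) / (b 1 - b n)`. -/
structure Hyp (α : ℝ) (r : Fin m → ℝ) : Prop where
  α0 : α ≠ 0
  r0 : ∀ i, r i ≠ 0
  r1 : ∀ i, r i ≠ 1
  inj : Function.Injective r

/-- The region, `κ > 0`. -/
def Rg (κ α d : ℝ) (r : Fin m → ℝ) (t : ℝ) (y : Fin m → ℝ) : Prop :=
  (∀ i, |y i| ≤ κ⁻¹) ∧ κ ≤ rr α r t y ∧ rr α r t y ≤ κ⁻¹ ∧ κ ≤ 1 - d ^ 2 * ss α r t y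
/-- The box with centre `(t0, y0)`. -/
def Bx (c0 t0 : ℝ) (y0 : Fin m → ℝ) (t : ℝ) (y : Fin m → ℝ) : Prop :=
  |t - t0| ≤ c0 ∧ ∀ i, |y i - y0 i| ≤ c0 * |y0 i|
/-- The size of the parameter difference. -/
noncomputable def nn (t : ℝ) (y : Fin m → ℝ) (t' : ℝ) (y' : Fin m → ℝ) : ℝ :=
  |t' - t| + ∑ i, |y' i - y i|

/-- `U i = w i + y i * L i`. -/
noncomputable def LL (α d : ℝ) (r : Fin m → ℝ) (w1 wn : ℝ) (t : ℝ) (y : Fin m → ℝ) (i : Fin m) : ℝ :=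
  (1 - r i) * (wn / HH α d r t y) - r i * (w1 / AA α r t y)
/-- The gradient along the leaf. -/
noncomputable def UU (α d : ℝ) (r : Fin m → ℝ) (w1 wn : ℝ) (w : Fin m → ℝ) (t : ℝ) (y : Fin m → ℝ)
    (i : Fin m) : ℝ := w i + y i * LL α d r w1 wn t y i
/-- `w · Y_t`. -/
noncomputable def TT (α d : ℝ) (r : Fin m → ℝ) (w1 wn : ℝ) (t : ℝ) (y : Fin m → ℝ) : ℝ :=
  (w1 / AA α r t y + wn / HH α d r t y) / (2 * α)

/-- `(A'² - A²) / 2` as a linear form of the chord, `yb` = the mean. -/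
noncomputable def PP (α : ℝ) (r : Fin m → ℝ) (yb : Fin m → ℝ) (Dt : ℝ) (D : Fin m → ℝ) : ℝ :=
  Dt / (2 * α) - ∑ i, r i * yb i * D i
/-- `(s' - s) / 2` as a linear form of the chord. -/
noncomputable def SS (α : ℝ) (r : Fin m → ℝ) (yb : Fin m → ℝ) (Dt : ℝ) (D : Fin m → ℝ) : ℝ :=
  Dt / (2 * α) + ∑ i, (1 - r i) * yb i * D i

/-- The rows: `L i * D i + y' i * (r i * a3 * P + (1 - r i) * c3 * S)`. -/
noncomputable def Row (α : ℝ) (r L y' yb : Fin m → ℝ) (a3 c3 Dt : ℝ) (D : Fin m → ℝ) (i : Fin m) : ℝ :=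
  L i * D i + y' i * (r i * a3 * PP α r yb Dt D + (1 - r i) * c3 * SS α r yb Dt D)

/-- The transposed rows, coefficient of `Dt`. -/
noncomputable def Cot (α : ℝ) (r y' : Fin m → ℝ) (a3 c3 : ℝ) (v : Fin m → ℝ) : ℝ :=
  (a3 * ∑ i, r i * y' i * v i + c3 * ∑ i, (1 - r i) * y' i * v i) / (2 * α)
/-- The transposed rows, coefficient of `D k`. -/
noncomputable def Coy (r L y' yb : Fin m → ℝ) (a3 c3 : ℝ) (v : Fin m → ℝ) (k : Fin m) : ℝ :=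
  v k * L k - r k * yb k * a3 * (∑ i, r i * y' i * v i) +
    (1 - r k) * yb k * c3 * ∑ i, (1 - r i) * y' i * v i

/-- `ℓ i = |L i| + |y i|`. -/
noncomputable def el (α d : ℝ) (r : Fin m → ℝ) (w1 wn : ℝ) (t : ℝ) (y : Fin m → ℝ) (i : Fin m) : ℝ :=
  |LL α d r w1 wn t y i| + |y i|
/-- `|w|²`. -/
noncomputable def ww (w1 : ℝ) (w : Fin m → ℝ) (wn : ℝ) : ℝ := w1 ^ 2 + ∑ i, w i ^ 2 + wn ^ 2
/-- `N(p) · Y_t(p')`, `N = (A, y, -H)`. -/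
noncomputable def Nt (α d : ℝ) (r : Fin m → ℝ) (t : ℝ) (y : Fin m → ℝ) (t' : ℝ) (y' : Fin m → ℝ) :
    ℝ := TT α d r (AA α r t y) (-(HH α d r t y)) t' y'
/-- `N(p) · Y_{y i}(p')`. -/
noncomputable def Ny (α d : ℝ) (r : Fin m → ℝ) (t : ℝ) (y : Fin m → ℝ) (t' : ℝ) (y' : Fin m → ℝ)
    (i : Fin m) : ℝ := UU α d r (AA α r t y) (-(HH α d r t y)) y t' y' i
/-- The bilinear form of the quadric on two chords from `p = (t, y)`. -/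
noncomputable def BB (α d : ℝ) (r : Fin m → ℝ) (t : ℝ) (y : Fin m → ℝ) (t' : ℝ) (y' : Fin m → ℝ)
    (t'' : ℝ) (y'' : Fin m → ℝ) : ℝ :=
  (AA α r t' y' - AA α r t y) * (AA α r t'' y'' - AA α r t y) +
    ∑ i, (y' i - y i) * (y'' i - y i) +
    d ^ 2 * ((hh α d r t' y' - hh α d r t y) * (hh α d r t'' y'' - hh α d r t y))

/-- Rows, `η`-close to those of `M_w` at `(t, y)`. -/
def Near (η α d : ℝ) (r : Fin m → ℝ) (w1 wn t : ℝ) (y : Fin m → ℝ) (L y1 yb : Fin m → ℝ)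
    (a3 c3 : ℝ) : Prop :=
  (∀ i, |L i - LL α d r w1 wn t y i| ≤ η * el α d r w1 wn t y i) ∧
  (∀ i, |y1 i - y i| ≤ η * |y i|) ∧ (∀ i, |yb i - y i| ≤ η * |y i|) ∧
  |a3 - w1 / AA α r t y ^ 3| ≤ η ∧ |c3 - d ^ 2 * wn / HH α d r t y ^ 3| ≤ η

/-- The dyadic annulus. -/
def WA (R w1 : ℝ) (w : Fin m → ℝ) (wn : ℝ) : Prop :=
  R ^ 2 / 4 ≤ ww w1 w wn ∧ ww w1 w wn ≤ 16 * R ^ 2

end Pool.Agent.LQN
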