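import Pool.Agent.LQN.Df

/-!
LQN: the line of frequencies `x + s N(p)`, `p = (t, y)`.
-/

set_option autoImplicit false

namespace Pool.Agent.LQN

variable {m : ℕ}

/-- `w1` on the line. -/
noncomputable def g1 (α : ℝ) (r : Fin m → ℝ) (t : ℝ) (y : Fin m → ℝ) (x1 s : ℝ) : ℝ :=
  x1 + s * AA α r t y
/-- `w` on the line. -/
def gw (y x : Fin m → ℝ) (s : ℝ) : Fin m → ℝ := fun i => x i + s * y i
/-- `wn` on the line. -/
noncomputable def gn (α d : ℝ) (r : Fin m → ℝ) (t : ℝ) (y : Fin m → ℝ) (s : ℝ) : ℝ :=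
  -(s * HH α d r t y)
/-- `U` at `(t', y')` for the frequency `x + s N(t, y)`. -/
noncomputable def gU (α d : ℝ) (r : Fin m → ℝ) (t : ℝ) (y : Fin m → ℝ) (x1 : ℝ) (x : Fin m → ℝ)
    (s t' : ℝ) (y' : Fin m → ℝ) (i : Fin m) : ℝ :=
  UU α d r (g1 α r t y x1 s) (gn α d r t y s) (gw y x s) t' y' i
/-- `T` at `(t', y')` for the frequency `x + s N(t, y)`. -/
noncomputable def gT (α d : ℝ) (r : Fin m → ℝ) (t : ℝ) (y : Fin m → ℝ) (x1 s t' : ℝ)
    (y' : Fin m → ℝ) : ℝ :=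
  TT α d r (g1 α r t y x1 s) (gn α d r t y s) t' y'
/-- `L` at `(t', y')` for the frequency `x + s N(t, y)`. -/
noncomputable def gL (α d : ℝ) (r : Fin m → ℝ) (t : ℝ) (y : Fin m → ℝ) (x1 s t' : ℝ)
    (y' : Fin m → ℝ) (i : Fin m) : ℝ :=
  LL α d r (g1 α r t y x1 s) (gn α d r t y s) t' y' i

end Pool.Agent.LQN
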