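import Pool.Agent.LF.KS
import Pool.Agent.LQN.Df

/-!
LQN: two intervals (the outer integrals of row KQ).
-/

set_option autoImplicit false

namespace Pool.Agent.LQN

open MeasureTheory Set
open scoped ENNReal

variable {m : ℕ}

/-- Scaling of a line. -/
theorem kq_scale {a : ℝ} (ha : a ≠ 0) {f : ℝ → ℝ≥0∞} (hf : Measurable f) :
    ∫⁻ x, f x = ENNReal.ofReal |a| * ∫⁻ x, f (a * x) := by
  have h1 := Real.smul_map_volume_mul_left ha
  calc ∫⁻ x, f x = ∫⁻ x, f x ∂(ENNReal.ofReal |a| • Measure.map (a * ·) volume) := by rw [h1]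
    _ = ENNReal.ofReal |a| * ∫⁻ x, f x ∂(Measure.map (a * ·) volume) := by
        rw [lintegral_smul_measure, smul_eq_mul]
    _ = ENNReal.ofReal |a| * ∫⁻ x, f (a * x) := by
        rw [lintegral_map hf (measurable_const_mul a)]

/-- The shear coordinates. -/
theorem kq_shear (A : ℝ) (y : Fin m → ℝ) (H : ℝ) (hH : H ≠ 0)
    {f : ℝ × (Fin m → ℝ) × ℝ → ℝ≥0∞} (hf : Measurable f) :
    ∫⁻ w, f w = ENNReal.ofReal |H| *
      ∫⁻ x1 : ℝ, ∫⁻ x2 : Fin m → ℝ, ∫⁻ s : ℝ, f (x1 + s * A, x2 + s • y, -(s * H)) := by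
  -- iterated
  have m1 : ∀ w1 : ℝ, Measurable fun v : (Fin m → ℝ) × ℝ => f (w1, v) := fun w1 =>
    hf.comp measurable_prodMk_left
  have e1 : ∫⁻ w, f w = ∫⁻ w1 : ℝ, ∫⁻ w2 : Fin m → ℝ, ∫⁻ w3 : ℝ, f (w1, w2, w3) := by
    rw [Measure.volume_eq_prod, lintegral_prod _ hf.aemeasurable]
    refine lintegral_congr fun w1 => ?_
    rw [Measure.volume_eq_prod, lintegral_prod _ (m1 w1).aemeasurable]
  -- the third variable
  have e2 : ∀ (w1 : ℝ) (w2 : Fin m → ℝ), ∫⁻ w3 : ℝ, f (w1, w2, w3) =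
      ENNReal.ofReal |H| * ∫⁻ s : ℝ, f (w1, w2, -(s * H)) := by
    intro w1 w2
    have h1 := kq_scale (a := -H) (neg_ne_zero.2 hH) (f := fun w3 => f (w1, w2, w3))
      (hf.comp (by fun_prop : Measurable fun w3 : ℝ => (w1, w2, w3)))
    rw [h1, abs_neg]
    congr 1
    refine lintegral_congr fun s => ?_
    congr 3
    ring
  have m3 : Measurable fun q : (ℝ × (Fin m → ℝ)) × ℝ => f (q.1.1, q.1.2, -(q.2 * H)) :=
    hf.comp (by fun_prop)
  have m3' : Measurable fun q : (ℝ × ℝ) × (Fin m → ℝ) => f (q.1.1, q.2, -(q.1.2 * H)) :=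
    hf.comp (by fun_prop)
  have m3'' : Measurable fun q : (ℝ × ℝ) × (Fin m → ℝ) => f (q.1.2, q.2, -(q.1.1 * H)) :=
    hf.comp (by fun_prop)
  have e3 : ∫⁻ w, f w = ENNReal.ofReal |H| *
      ∫⁻ w1 : ℝ, ∫⁻ w2 : Fin m → ℝ, ∫⁻ s : ℝ, f (w1, w2, -(s * H)) := by
    rw [e1]
    simp only [e2]
    have n1 : Measurable fun q : ℝ × (Fin m → ℝ) => ∫⁻ s : ℝ, f (q.1, q.2, -(s * H)) :=
      m3.lintegral_prod_right'
    rw [← lintegral_const_mul _ n1.lintegral_prod_right']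
    refine lintegral_congr fun w1 => ?_
    exact lintegral_const_mul _ (n1.comp (measurable_prodMk_left (x := w1)))
  -- swap
  have e4 : ∫⁻ w1 : ℝ, ∫⁻ w2 : Fin m → ℝ, ∫⁻ s : ℝ, f (w1, w2, -(s * H)) =
      ∫⁻ s : ℝ, ∫⁻ w1 : ℝ, ∫⁻ w2 : Fin m → ℝ, f (w1, w2, -(s * H)) := by
    have a1 : ∀ w1 : ℝ, ∫⁻ w2 : Fin m → ℝ, ∫⁻ s : ℝ, f (w1, w2, -(s * H)) =
        ∫⁻ s : ℝ, ∫⁻ w2 : Fin m → ℝ, f (w1, w2, -(s * H)) := by
      intro w1
      refine lintegral_lintegral_swap (Measurable.aemeasurable ?_)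
      exact hf.comp (by fun_prop : Measurable fun q : (Fin m → ℝ) × ℝ => (w1, q.1, -(q.2 * H)))
    simp only [a1]
    refine lintegral_lintegral_swap (Measurable.aemeasurable ?_)
    exact m3'.lintegral_prod_right'
  -- shift
  have e5 : ∀ s : ℝ, ∫⁻ w1 : ℝ, ∫⁻ w2 : Fin m → ℝ, f (w1, w2, -(s * H)) =
      ∫⁻ x1 : ℝ, ∫⁻ x2 : Fin m → ℝ, f (x1 + s * A, x2 + s • y, -(s * H)) := by
    intro s
    rw [← lintegral_add_right_eq_self (fun w1 => ∫⁻ w2 : Fin m → ℝ, f (w1, w2, -(s * H))) (s * A)]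
    refine lintegral_congr fun x1 => ?_
    rw [← lintegral_add_right_eq_self (fun w2 => f (x1 + s * A, w2, -(s * H))) (s • y)]
  -- swap back
  have e6 : ∫⁻ s : ℝ, ∫⁻ x1 : ℝ, ∫⁻ x2 : Fin m → ℝ, f (x1 + s * A, x2 + s • y, -(s * H)) =
      ∫⁻ x1 : ℝ, ∫⁻ x2 : Fin m → ℝ, ∫⁻ s : ℝ, f (x1 + s * A, x2 + s • y, -(s * H)) := by
    have b0 : Measurable fun q : (ℝ × ℝ) × (Fin m → ℝ) => f (q.1.2 + q.1.1 * A, q.2 + q.1.1 • y,
        -(q.1.1 * H)) := hf.comp (by fun_prop)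
    rw [lintegral_lintegral_swap (Measurable.aemeasurable b0.lintegral_prod_right')]
    refine lintegral_congr fun x1 => ?_
    refine lintegral_lintegral_swap (Measurable.aemeasurable ?_)
    exact hf.comp (by fun_prop : Measurable fun q : ℝ × (Fin m → ℝ) =>
      (x1 + q.1 * A, q.2 + q.1 • y, -(q.1 * H)))
  rw [e3, e4]
  simp only [e5]
  rw [e6]

/-- The integrand of one interval. -/
noncomputable def kF (α d : ℝ) (r : Fin m → ℝ) (Λ t : ℝ) (g : ℝ → ℝ≥0∞)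
    (w : ℝ × (Fin m → ℝ) × ℝ) (y : Fin m → ℝ) : ℝ≥0∞ :=
  ({y | ∀ j, |UU α d r w.1 w.2.2 w.2.1 t y j| ≤ Λ}.indicator
    fun y => g (TT α d r w.1 w.2.2 t y)) y

theorem kq_mA (α : ℝ) (r : Fin m → ℝ) (t : ℝ) : Measurable fun y : Fin m → ℝ => AA α r t y := by
  unfold AA rr
  fun_prop

theorem kq_mH (α d : ℝ) (r : Fin m → ℝ) (t : ℝ) :
    Measurable fun y : Fin m → ℝ => HH α d r t y := by
  unfold HH ss
  fun_prop

theorem kq_mU (α d : ℝ) (r : Fin m → ℝ) (t : ℝ) (j : Fin m) :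
    Measurable fun x : (ℝ × (Fin m → ℝ) × ℝ) × (Fin m → ℝ) =>
      UU α d r x.1.1 x.1.2.2 x.1.2.1 t x.2 j := by
  have h1 := (kq_mA α r t).comp
    (measurable_snd : Measurable (Prod.snd : (ℝ × (Fin m → ℝ) × ℝ) × (Fin m → ℝ) → Fin m → ℝ))
  have h2 := (kq_mH α d r t).comp
    (measurable_snd : Measurable (Prod.snd : (ℝ × (Fin m → ℝ) × ℝ) × (Fin m → ℝ) → Fin m → ℝ))
  unfold UU LL
  simp only [Function.comp_def] at h1 h2
  fun_prop

theorem kq_mT (α d : ℝ) (r : Fin m → ℝ) (t : ℝ) :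
    Measurable fun x : (ℝ × (Fin m → ℝ) × ℝ) × (Fin m → ℝ) => TT α d r x.1.1 x.1.2.2 t x.2 := by
  have h1 := (kq_mA α r t).comp
    (measurable_snd : Measurable (Prod.snd : (ℝ × (Fin m → ℝ) × ℝ) × (Fin m → ℝ) → Fin m → ℝ))
  have h2 := (kq_mH α d r t).comp
    (measurable_snd : Measurable (Prod.snd : (ℝ × (Fin m → ℝ) × ℝ) × (Fin m → ℝ) → Fin m → ℝ))
  unfold TT
  simp only [Function.comp_def] at h1 h2
  fun_prop

theorem kF_meas (α d : ℝ) (r : Fin m → ℝ) (Λ t : ℝ) {g : ℝ → ℝ≥0∞} (hg : Measurable g) :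
    Measurable fun x : (ℝ × (Fin m → ℝ) × ℝ) × (Fin m → ℝ) => kF α d r Λ t g x.1 x.2 := by
  have h1 : MeasurableSet {x : (ℝ × (Fin m → ℝ) × ℝ) × (Fin m → ℝ) |
      ∀ j, |UU α d r x.1.1 x.1.2.2 x.1.2.1 t x.2 j| ≤ Λ} := by
    have : {x : (ℝ × (Fin m → ℝ) × ℝ) × (Fin m → ℝ) |
      ∀ j, |UU α d r x.1.1 x.1.2.2 x.1.2.1 t x.2 j| ≤ Λ} =
        ⋂ j, {x : (ℝ × (Fin m → ℝ) × ℝ) × (Fin m → ℝ) |
      |UU α d r x.1.1 x.1.2.2 x.1.2.1 t x.2 j| ≤ Λ} := by
      ext x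
      simp
    rw [this]
    exact MeasurableSet.iInter fun j => measurableSet_le (kq_mU α d r t j).abs measurable_const
  have h2 := (hg.comp (kq_mT α d r t)).indicator h1
  exact h2

theorem measurableSet_WA (R : ℝ) :
    MeasurableSet {w : ℝ × (Fin m → ℝ) × ℝ | WA R w.1 w.2.1 w.2.2} := by
  have h1 : Measurable fun w : ℝ × (Fin m → ℝ) × ℝ => ww w.1 w.2.1 w.2.2 := by
    unfold ww
    fun_prop
  unfold WA
  exact (measurableSet_le measurable_const h1).inter (measurableSet_le h1 measurable_const)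

theorem kq_T {α d : ℝ} {r : Fin m → ℝ} {t : ℝ} {y : Fin m → ℝ} (hα : α ≠ 0)
    (hA : AA α r t y ≠ 0) (hH : HH α d r t y ≠ 0) (x1 s : ℝ) :
    TT α d r (x1 + s * AA α r t y) (-(s * HH α d r t y)) t y = (1 / (2 * α * AA α r t y)) * x1 := by
  unfold TT
  set A := AA α r t y
  set H := HH α d r t y
  field_simp
  ring

theorem kq_U {α d : ℝ} {r : Fin m → ℝ} {t : ℝ} {y : Fin m → ℝ}
    (hA : AA α r t y ≠ 0) (hH : HH α d r t y ≠ 0)
    (x1 : ℝ) (x2 : Fin m → ℝ) (s : ℝ) (j : Fin m) :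
    UU α d r (x1 + s * AA α r t y) (-(s * HH α d r t y)) (x2 + s • y) t y j =
      x2 j - r j * y j / AA α r t y * x1 := by
  unfold UU LL
  set A := AA α r t y
  set H := HH α d r t y
  simp only [Pi.add_apply, Pi.smul_apply, smul_eq_mul]
  field_simp
  ring

theorem kq_A_pos {κ α d : ℝ} {r : Fin m → ℝ} {t : ℝ} {y : Fin m → ℝ} (hκ : 0 < κ)
    (h : Rg κ α d r t y) : 0 < AA α r t y := Real.sqrt_pos.2 (lt_of_lt_of_le hκ h.2.1)

theorem kq_H_pos {κ α d : ℝ} {r : Fin m → ℝ} {t : ℝ} {y : Fin m → ℝ} (hκ : 0 < κ)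
    (h : Rg κ α d r t y) : 0 < HH α d r t y := Real.sqrt_pos.2 (lt_of_lt_of_le hκ h.2.2.2)

theorem kq_A_le {κ α d : ℝ} {r : Fin m → ℝ} {t : ℝ} {y : Fin m → ℝ} (hκ : 0 < κ) (hκ1 : κ ≤ 1)
    (h : Rg κ α d r t y) : AA α r t y ≤ κ⁻¹ := by
  have h1 : 1 ≤ κ⁻¹ := (one_le_inv₀ hκ).2 hκ1
  unfold AA
  rw [Real.sqrt_le_left (by positivity)]
  refine h.2.2.1.trans ?_
  nlinarith

theorem kq_H_le {κ α d : ℝ} {r : Fin m → ℝ} {t : ℝ} {y : Fin m → ℝ} (hκ : 0 < κ)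
    (h : Rg κ α d r t y) : HH α d r t y ≤ 1 := by
  have h1 : ss α r t y = rr α r t y + ∑ i, y i ^ 2 := by
    unfold ss rr
    have : ∑ i, (1 - r i) * y i ^ 2 = ∑ i, y i ^ 2 - ∑ i, r i * y i ^ 2 := by
      rw [← Finset.sum_sub_distrib]
      exact Finset.sum_congr rfl fun i _ => by ring
    rw [this]
    ring
  have h2 : 0 ≤ ss α r t y := by
    rw [h1]
    have := h.2.1
    have : 0 ≤ ∑ i, y i ^ 2 := Finset.sum_nonneg fun i _ => sq_nonneg _
    linarith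
  unfold HH
  rw [Real.sqrt_le_one]
  nlinarith [sq_nonneg d, mul_nonneg (sq_nonneg d) h2]

/-- The volume of a box. -/
theorem kq_box (z : Fin m → ℝ) (l : Fin m → ℝ) (hl : ∀ j, 0 ≤ l j) :
    volume {y : Fin m → ℝ | ∀ j, |y j - z j| ≤ l j} = ENNReal.ofReal (2 ^ m * ∏ j, l j) := by
  have h1 : {y : Fin m → ℝ | ∀ j, |y j - z j| ≤ l j} =
      Set.univ.pi fun j => Icc (z j - l j) (z j + l j) := by
    ext y
    simp only [mem_ofPred_eq, mem_univ_pi, mem_Icc]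
    refine forall_congr' fun j => ?_
    rw [abs_le]
    constructor <;> rintro ⟨h1, h2⟩ <;> constructor <;> linarith
  rw [h1, volume_pi_pi]
  simp only [Real.volume_Icc]
  rw [← ENNReal.ofReal_prod_of_nonneg fun j _ => by linarith [hl j]]
  congr 1
  have h2 : ∀ j, z j + l j - (z j - l j) = 2 * l j := fun j => by ring
  simp only [h2]
  rw [Finset.prod_mul_distrib, Finset.prod_const, Finset.card_univ, Fintype.card_fin]

theorem kq_box_meas (z : Fin m → ℝ) (l : Fin m → ℝ) :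
    MeasurableSet {y : Fin m → ℝ | ∀ j, |y j - z j| ≤ l j} := by
  have : {y : Fin m → ℝ | ∀ j, |y j - z j| ≤ l j} = ⋂ j, {y : Fin m → ℝ | |y j - z j| ≤ l j} := by
    ext x
    simp
  rw [this]
  exact MeasurableSet.iInter fun j => measurableSet_le (by fun_prop) measurable_const

/-- The outer integrals: if the inner integral is at most `I`. -/
theorem kq_outer {κ α d : ℝ} {r : Fin m → ℝ} {y0 : Fin m → ℝ} {c0 R Λ t : ℝ} (hκ : 0 < κ)
    (hκ1 : κ ≤ 1) (hc0 : 0 ≤ c0) (hα : α ≠ 0) (hΛ : 0 ≤ Λ)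
    (hrg : ∀ y : Fin m → ℝ, (∀ j, |y j - y0 j| ≤ c0 * |y0 j|) → Rg κ α d r t y)
    {g : ℝ → ℝ≥0∞} (hg : Measurable g) (K : (Fin m → ℝ) → ℝ × (Fin m → ℝ) × ℝ → ℝ≥0∞)
    (mK : Measurable fun x : (ℝ × (Fin m → ℝ) × ℝ) × (Fin m → ℝ) => K x.2 x.1) (I : ℝ≥0∞)
    (hI : ∀ y : Fin m → ℝ, (∀ j, |y j - y0 j| ≤ c0 * |y0 j|) → ∀ (x1 : ℝ) (x2 : Fin m → ℝ),
      (∀ j, |x2 j - r j * y j / AA α r t y * x1| ≤ Λ) →
      ∫⁻ s : ℝ, ({w : ℝ × (Fin m → ℝ) × ℝ | WA R w.1 w.2.1 w.2.2}.indicator (K y))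
        (x1 + s * AA α r t y, x2 + s • y, -(s * HH α d r t y)) ≤ I) :
    ∫⁻ w in {w : ℝ × (Fin m → ℝ) × ℝ | WA R w.1 w.2.1 w.2.2},
      ∫⁻ y in {y : Fin m → ℝ | ∀ j, |y j - y0 j| ≤ c0 * |y0 j|}, kF α d r Λ t g w y * K y w ≤
      ENNReal.ofReal (2 * |α| * κ⁻¹ * (2 * Λ) ^ m * (2 ^ m * ∏ j, (c0 * |y0 j|))) *
        (∫⁻ τ, g τ) * I := by
  classical
  set Y : Set (Fin m → ℝ) := {y : Fin m → ℝ | ∀ j, |y j - y0 j| ≤ c0 * |y0 j|} with hY
  have mY : MeasurableSet Y := kq_box_meas y0 _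
  set W : Set (ℝ × (Fin m → ℝ) × ℝ) := {w : ℝ × (Fin m → ℝ) × ℝ | WA R w.1 w.2.1 w.2.2} with hW
  have mW : MeasurableSet W := measurableSet_WA R
  have m1 := kF_meas α d r Λ t hg
  have mm : Measurable fun x : (ℝ × (Fin m → ℝ) × ℝ) × (Fin m → ℝ) =>
      kF α d r Λ t g x.1 x.2 * K x.2 x.1 := m1.mul mK
  have e2 : ∫⁻ w in W, ∫⁻ y in Y, kF α d r Λ t g w y * K y w =
      ∫⁻ y in Y, ∫⁻ w in W, kF α d r Λ t g w y * K y w := by
    exact lintegral_lintegral_swap mm.aemeasurable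
  rw [e2]
  -- the volume of `Y`
  have vY : volume Y = ENNReal.ofReal (2 ^ m * ∏ j, (c0 * |y0 j|)) :=
    kq_box y0 _ fun j => by positivity
  -- one `y`
  have key : ∀ y ∈ Y, ∫⁻ w in W, kF α d r Λ t g w y * K y w ≤
      ENNReal.ofReal (2 * |α| * κ⁻¹ * (2 * Λ) ^ m) * (∫⁻ τ, g τ) * I := by
    intro y hy
    have rg := hrg y hy
    have hA := kq_A_pos hκ rg
    have hH := kq_H_pos hκ rg
    set A := AA α r t y with hAdef
    set H := HH α d r t y with hHdef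
    have mKy : Measurable (K y) := mK.comp (measurable_prodMk_right (y := y))
    have mf : Measurable (W.indicator fun w => kF α d r Λ t g w y * K y w) :=
      ((m1.comp (measurable_prodMk_right (y := y))).mul mKy).indicator mW
    rw [← lintegral_indicator mW, kq_shear A y H hH.ne' mf]
    -- the inner integral
    have h1 : ∀ (x1 : ℝ) (x2 : Fin m → ℝ), ∫⁻ s : ℝ, (W.indicator fun w => kF α d r Λ t g w y * K y w)
        (x1 + s * A, x2 + s • y, -(s * H)) ≤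
        ({x2 : Fin m → ℝ | ∀ j, |x2 j - r j * y j / A * x1| ≤ Λ}.indicator
          (fun _ => g ((1 / (2 * α * A)) * x1) * I)) x2 := by
      intro x1 x2
      by_cases hx : ∀ j, |x2 j - r j * y j / A * x1| ≤ Λ
      · rw [indicator_of_mem (show x2 ∈ {x2 : Fin m → ℝ | ∀ j, |x2 j - r j * y j / A * x1| ≤ Λ}
          from hx)]
        have h2 : ∀ s : ℝ, (W.indicator fun w => kF α d r Λ t g w y * K y w)
            (x1 + s * A, x2 + s • y, -(s * H)) = g ((1 / (2 * α * A)) * x1) *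
            (W.indicator (K y)) (x1 + s * A, x2 + s • y, -(s * H)) := by
          intro s
          by_cases hs : WA R (x1 + s * A) (x2 + s • y) (-(s * H))
          · rw [indicator_of_mem (show (x1 + s * A, x2 + s • y, -(s * H)) ∈ W from hs),
              indicator_of_mem (show (x1 + s * A, x2 + s • y, -(s * H)) ∈ W from hs)]
            have h3 : kF α d r Λ t g (x1 + s * A, x2 + s • y, -(s * H)) y =
                g ((1 / (2 * α * A)) * x1) := by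
              unfold kF
              rw [indicator_of_mem]
              · simp only
                rw [kq_T hα hA.ne' hH.ne']
              · simp only [mem_ofPred_eq]
                intro j
                rw [kq_U hA.ne' hH.ne']
                exact hx j
            simp only [h3]
          · rw [indicator_of_notMem (show (x1 + s * A, x2 + s • y, -(s * H)) ∉ W from hs),
              indicator_of_notMem (show (x1 + s * A, x2 + s • y, -(s * H)) ∉ W from hs), mul_zero]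
        simp only [h2]
        have mKs : Measurable fun s : ℝ => (W.indicator (K y)) (x1 + s * A, x2 + s • y, -(s * H)) :=
          (mKy.indicator mW).comp (by fun_prop)
        rw [lintegral_const_mul _ mKs]
        exact mul_le_mul_right (hI y hy x1 x2 hx) _
      · rw [indicator_of_notMem (show x2 ∉ {x2 : Fin m → ℝ | ∀ j, |x2 j - r j * y j / A * x1| ≤ Λ}
          from hx)]
        have h3 : ∀ s : ℝ, (W.indicator fun w => kF α d r Λ t g w y * K y w)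
            (x1 + s * A, x2 + s • y, -(s * H)) = 0 := by
          intro s
          have h4 : kF α d r Λ t g (x1 + s * A, x2 + s • y, -(s * H)) y = 0 := by
            unfold kF
            refine indicator_of_notMem ?_ _
            simp only [mem_ofPred_eq]
            intro h
            refine hx fun j => ?_
            have := h j
            rw [kq_U hA.ne' hH.ne'] at this
            exact this
          simp only [indicator, h4, zero_mul, ite_self]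
        simp only [h3, lintegral_zero, le_refl]
    have ha : 2 * α * A ≠ 0 := mul_ne_zero (mul_ne_zero two_ne_zero hα) hA.ne'
    -- the integral in `x2`
    have h2 : ∀ x1 : ℝ, ∫⁻ x2 : Fin m → ℝ, ({x2 : Fin m → ℝ | ∀ j, |x2 j - r j * y j / A * x1| ≤
          Λ}.indicator (fun _ => g ((1 / (2 * α * A)) * x1) * I)) x2 =
        g ((1 / (2 * α * A)) * x1) * I * ENNReal.ofReal ((2 * Λ) ^ m) := by
      intro x1
      rw [lintegral_indicator_const (kq_box_meas (fun j => r j * y j / A * x1) fun _ => Λ),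
        kq_box (fun j => r j * y j / A * x1) (fun _ => Λ) fun _ => hΛ]
      congr 2
      rw [Finset.prod_const, Finset.card_univ, Fintype.card_fin, mul_pow]
    -- the integral in `x1`
    have mg : Measurable fun x1 : ℝ => g ((1 / (2 * α * A)) * x1) :=
      hg.comp (measurable_const_mul _)
    have h3 : ∫⁻ x1 : ℝ, g ((1 / (2 * α * A)) * x1) = ENNReal.ofReal |2 * α * A| * ∫⁻ τ, g τ := by
      rw [kq_scale ha mg]
      congr 1
      refine lintegral_congr fun x => ?_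
      congr 1
      rw [← mul_assoc, one_div, inv_mul_cancel₀ ha, one_mul]
    have h4 : |H| * |2 * α * A| * (2 * Λ) ^ m ≤ 2 * |α| * κ⁻¹ * (2 * Λ) ^ m := by
      rw [abs_of_pos hH, abs_mul, abs_mul, abs_of_pos hA, abs_two]
      have hA3 : A ≤ κ⁻¹ := kq_A_le hκ hκ1 rg
      have hH1 : H ≤ 1 := kq_H_le hκ rg
      calc H * (2 * |α| * A) * (2 * Λ) ^ m ≤ 1 * (2 * |α| * κ⁻¹) * (2 * Λ) ^ m := by gcongr
        _ = 2 * |α| * κ⁻¹ * (2 * Λ) ^ m := by ring
    calc ENNReal.ofReal |H| * ∫⁻ x1 : ℝ, ∫⁻ x2 : Fin m → ℝ, ∫⁻ s : ℝ,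
          (W.indicator fun w => kF α d r Λ t g w y * K y w) (x1 + s * A, x2 + s • y, -(s * H))
        ≤ ENNReal.ofReal |H| * ∫⁻ x1 : ℝ, ∫⁻ x2 : Fin m → ℝ,
          ({x2 : Fin m → ℝ | ∀ j, |x2 j - r j * y j / A * x1| ≤ Λ}.indicator
          (fun _ => g ((1 / (2 * α * A)) * x1) * I)) x2 := by
          gcongr with x1 x2
          exact h1 x1 x2
      _ = ENNReal.ofReal |H| * (ENNReal.ofReal |2 * α * A| * (∫⁻ τ, g τ) *
          (I * ENNReal.ofReal ((2 * Λ) ^ m))) := by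
          simp only [h2]
          congr 1
          have h5 : ∀ x1 : ℝ, g ((1 / (2 * α * A)) * x1) * I * ENNReal.ofReal ((2 * Λ) ^ m) =
              g ((1 / (2 * α * A)) * x1) * (I * ENNReal.ofReal ((2 * Λ) ^ m)) :=
            fun x1 => mul_assoc _ _ _
          simp only [h5]
          rw [lintegral_mul_const _ mg, h3]
      _ = ENNReal.ofReal (|H| * |2 * α * A| * (2 * Λ) ^ m) * (∫⁻ τ, g τ) * I := by
          have h6 : ENNReal.ofReal (|H| * |2 * α * A| * (2 * Λ) ^ m) =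
              ENNReal.ofReal |H| * ENNReal.ofReal |2 * α * A| * ENNReal.ofReal ((2 * Λ) ^ m) := by
            rw [← ENNReal.ofReal_mul (abs_nonneg H), ← ENNReal.ofReal_mul (by positivity)]
          rw [h6]
          ring
      _ ≤ ENNReal.ofReal (2 * |α| * κ⁻¹ * (2 * Λ) ^ m) * (∫⁻ τ, g τ) * I := by gcongr
  calc ∫⁻ y in Y, ∫⁻ w in W, kF α d r Λ t g w y * K y w
      ≤ ∫⁻ _ in Y, ENNReal.ofReal (2 * |α| * κ⁻¹ * (2 * Λ) ^ m) * (∫⁻ τ, g τ) * I :=
        setLIntegral_mono measurable_const key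
    _ = ENNReal.ofReal (2 * |α| * κ⁻¹ * (2 * Λ) ^ m) * (∫⁻ τ, g τ) * I * volume Y :=
        setLIntegral_const _ _
    _ = ENNReal.ofReal (2 * |α| * κ⁻¹ * (2 * Λ) ^ m * (2 ^ m * ∏ j, (c0 * |y0 j|))) *
        (∫⁻ τ, g τ) * I := by
        have h1 : ENNReal.ofReal (2 * |α| * κ⁻¹ * (2 * Λ) ^ m * (2 ^ m * ∏ j, (c0 * |y0 j|))) =
            ENNReal.ofReal (2 * |α| * κ⁻¹ * (2 * Λ) ^ m) *
              ENNReal.ofReal (2 ^ m * ∏ j, (c0 * |y0 j|)) := by
          rw [← ENNReal.ofReal_mul (by positivity)]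
        rw [h1, vY]
        ring

/-- The inner function of a pair, on the annulus. -/
theorem kq_ind {α d : ℝ} {r : Fin m → ℝ} {y0 : Fin m → ℝ} {c0 R Λ t' : ℝ} {g' : ℝ → ℝ≥0∞}
    (S : Set ((Fin m → ℝ) × (Fin m → ℝ))) (y : Fin m → ℝ) (w : ℝ × (Fin m → ℝ) × ℝ) :
    ({w : ℝ × (Fin m → ℝ) × ℝ | WA R w.1 w.2.1 w.2.2}.indicator fun w =>
      ∫⁻ y' in {y : Fin m → ℝ | ∀ j, |y j - y0 j| ≤ c0 * |y0 j|},
        S.indicator 1 (y, y') * kF α d r Λ t' g' w y') w =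
      ∫⁻ y' : Fin m → ℝ, ({y' | (∀ j, |y' j - y0 j| ≤ c0 * |y0 j|) ∧ (y, y') ∈ S ∧
          WA R w.1 w.2.1 w.2.2 ∧ ∀ j, |UU α d r w.1 w.2.2 w.2.1 t' y' j| ≤ Λ}.indicator
          fun y' => g' (TT α d r w.1 w.2.2 t' y')) y' := by
  classical
  set Y : Set (Fin m → ℝ) := {y : Fin m → ℝ | ∀ j, |y j - y0 j| ≤ c0 * |y0 j|} with hY
  have mY : MeasurableSet Y := kq_box_meas y0 _
  by_cases hs : WA R w.1 w.2.1 w.2.2
  · rw [indicator_of_mem (show w ∈ {w : ℝ × (Fin m → ℝ) × ℝ | WA R w.1 w.2.1 w.2.2} from hs),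
      ← lintegral_indicator mY]
    refine lintegral_congr fun y' => ?_
    by_cases hy' : y' ∈ Y
    · rw [indicator_of_mem hy']
      unfold kF
      by_cases hyS : (y, y') ∈ S
      · rw [indicator_of_mem hyS, Pi.one_apply, one_mul]
        by_cases hu : ∀ j, |UU α d r w.1 w.2.2 w.2.1 t' y' j| ≤ Λ
        · rw [indicator_of_mem (show y' ∈ {z | ∀ j, |UU α d r w.1 w.2.2 w.2.1 t' z j| ≤ Λ}
            from hu), indicator_of_mem]
          exact ⟨hy', hyS, hs, hu⟩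
        · rw [indicator_of_notMem (show y' ∉ {z | ∀ j, |UU α d r w.1 w.2.2 w.2.1 t' z j| ≤ Λ}
            from hu), indicator_of_notMem]
          exact fun h => hu h.2.2.2
      · rw [indicator_of_notMem hyS, zero_mul, indicator_of_notMem]
        exact fun h => hyS h.2.1
    · rw [indicator_of_notMem hy', indicator_of_notMem]
      exact fun h => hy' h.1
  · rw [indicator_of_notMem (show w ∉ {w : ℝ × (Fin m → ℝ) × ℝ | WA R w.1 w.2.1 w.2.2} from hs)]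
    have h4 : ∀ y' : Fin m → ℝ, ({y' | (∀ j, |y' j - y0 j| ≤ c0 * |y0 j|) ∧ (y, y') ∈ S ∧
          WA R w.1 w.2.1 w.2.2 ∧ ∀ j, |UU α d r w.1 w.2.2 w.2.1 t' y' j| ≤ Λ}.indicator
          fun y' => g' (TT α d r w.1 w.2.2 t' y')) y' = 0 := fun y' =>
      indicator_of_notMem (fun h => hs h.2.2.1) _
    simp only [h4, lintegral_zero]

/-- The inner function of a pair is measurable. -/
theorem kq_K_meas {α d : ℝ} {r : Fin m → ℝ} {Y : Set (Fin m → ℝ)} {Λ t' : ℝ} {g' : ℝ → ℝ≥0∞}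
    (hg' : Measurable g') {S : Set ((Fin m → ℝ) × (Fin m → ℝ))} (hS : MeasurableSet S) :
    Measurable fun x : (ℝ × (Fin m → ℝ) × ℝ) × (Fin m → ℝ) =>
      ∫⁻ y' in Y, S.indicator 1 (x.2, y') * kF α d r Λ t' g' x.1 y' := by
  have mS : Measurable (S.indicator (1 : (Fin m → ℝ) × (Fin m → ℝ) → ℝ≥0∞)) :=
    measurable_one.indicator hS
  have m2 := kF_meas α d r Λ t' hg'
  have h1 : Measurable fun x : ((ℝ × (Fin m → ℝ) × ℝ) × (Fin m → ℝ)) × (Fin m → ℝ) =>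
      S.indicator 1 (x.1.2, x.2) * kF α d r Λ t' g' x.1.1 x.2 :=
    (mS.comp (measurable_fst.snd.prodMk measurable_snd)).mul
      (m2.comp (measurable_fst.fst.prodMk measurable_snd))
  exact h1.lintegral_prod_right'

end Pool.Agent.LQN
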