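import Pool.Agent.LQN.G1

/-!
LQN, rows NQ and PEL: `N(p) · DY(p')` for two points of the box; at most one `L i` is small.
-/

set_option autoImplicit false

namespace Pool.Agent.LQN

variable {m : ℕ}

/-- The distance in the order of `NQ`. -/
theorem nq_sym (t : ℝ) (y : Fin m → ℝ) (t' : ℝ) (y' : Fin m → ℝ) :
    |t - t'| + ∑ i, |y i - y' i| = nn t y t' y' := by
  unfold nn
  rw [abs_sub_comm t t']
  congr 1
  exact Finset.sum_congr rfl fun i _ => abs_sub_comm _ _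

/-- `A / A' - 1`. -/
theorem nq_a {κ α d : ℝ} {r : Fin m → ℝ} (hα : α ≠ 0) (hκ : 0 < κ) (hκ1 : κ ≤ 1) {t t' : ℝ}
    {y y' : Fin m → ℝ} (h : Rg κ α d r t y) (h' : Rg κ α d r t' y') :
    AA α r t y / AA α r t' y' - 1 = 2 / (AA α r t' y' * (AA α r t y + AA α r t' y')) *
      PP α r (fun i => (y' i + y i) / 2) (t - t') fun i => y i - y' i := by
  have hA := (rg_A hκ hκ1 h).1
  have hA' := (rg_A hκ hκ1 h').1
  have h1 : AA α r t y ^ 2 = rr α r t y := Real.sq_sqrt (hκ.le.trans h.2.1)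
  have h2 : AA α r t' y' ^ 2 = rr α r t' y' := Real.sq_sqrt (hκ.le.trans h'.2.1)
  have h3 := rr_diff hα r t' t y' y
  rw [← h1, ← h2] at h3
  set P := PP α r (fun i => (y' i + y i) / 2) (t - t') fun i => y i - y' i
  have p1 : 0 < AA α r t y := hκ.trans_le hA
  have p2 : 0 < AA α r t' y' := hκ.trans_le hA'
  field_simp
  linear_combination h3

/-- `1 - H / H'`. -/
theorem nq_b {κ α d : ℝ} {r : Fin m → ℝ} (hα : α ≠ 0) (hκ : 0 < κ) (hκ1 : κ ≤ 1) {t t' : ℝ}
    {y y' : Fin m → ℝ} (h : Rg κ α d r t y) (h' : Rg κ α d r t' y') :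
    1 - HH α d r t y / HH α d r t' y' =
      2 * d ^ 2 / (HH α d r t' y' * (HH α d r t y + HH α d r t' y')) *
      SS α r (fun i => (y' i + y i) / 2) (t - t') fun i => y i - y' i := by
  have hA := rg_H hκ hκ1 h
  have hA' := rg_H hκ hκ1 h'
  have h1 : HH α d r t y ^ 2 = 1 - d ^ 2 * ss α r t y := Real.sq_sqrt (hκ.le.trans h.2.2.2)
  have h2 : HH α d r t' y' ^ 2 = 1 - d ^ 2 * ss α r t' y' := Real.sq_sqrt (hκ.le.trans h'.2.2.2)
  have h3 := ss_diff hα r t' t y' y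
  set S := SS α r (fun i => (y' i + y i) / 2) (t - t') fun i => y i - y' i
  have h4 : HH α d r t' y' ^ 2 - HH α d r t y ^ 2 = 2 * (d ^ 2 * S) := by
    linear_combination h2 - h1 + d ^ 2 * h3
  have p1 : 0 < HH α d r t y := hκ.trans_le hA
  have p2 : 0 < HH α d r t' y' := hκ.trans_le hA'
  field_simp
  linear_combination h4

/-- `P` with the mean and `P` with `y'`. -/
theorem nq_P (α : ℝ) (r : Fin m → ℝ) (Dt : ℝ) (y y' : Fin m → ℝ) :
    PP α r (fun i => (y' i + y i) / 2) Dt (fun i => y i - y' i) =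
      PP α r y' Dt (fun i => y i - y' i) - (∑ i, r i * (y i - y' i) ^ 2) / 2 := by
  unfold PP
  rw [sub_sub, Finset.sum_div, ← Finset.sum_add_distrib]
  congr 1
  exact Finset.sum_congr rfl fun i _ => by ring

theorem nq_S (α : ℝ) (r : Fin m → ℝ) (Dt : ℝ) (y y' : Fin m → ℝ) :
    SS α r (fun i => (y' i + y i) / 2) Dt (fun i => y i - y' i) =
      SS α r y' Dt (fun i => y i - y' i) + (∑ i, (1 - r i) * (y i - y' i) ^ 2) / 2 := by
  unfold SS
  rw [add_assoc, Finset.sum_div, ← Finset.sum_add_distrib]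
  congr 1
  exact Finset.sum_congr rfl fun i _ => by ring

theorem nq_Nt (α d : ℝ) (r : Fin m → ℝ) (t : ℝ) (y : Fin m → ℝ) (t' : ℝ) (y' : Fin m → ℝ) :
    Nt α d r t y t' y' = ((AA α r t y / AA α r t' y' - 1) +
      (1 - HH α d r t y / HH α d r t' y')) / (2 * α) := by
  unfold Nt TT
  rw [neg_div]
  ring

theorem nq_LL (α d : ℝ) (r : Fin m → ℝ) (t : ℝ) (y : Fin m → ℝ) (t' : ℝ) (y' : Fin m → ℝ)
    (i : Fin m) :
    LL α d r (AA α r t y) (-(HH α d r t y)) t' y' i + 1 =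
      (1 - r i) * (1 - HH α d r t y / HH α d r t' y') - r i * (AA α r t y / AA α r t' y' - 1) := by
  unfold LL
  rw [neg_div]
  ring

theorem nq_Ny (α d : ℝ) (r : Fin m → ℝ) (t : ℝ) (y : Fin m → ℝ) (t' : ℝ) (y' : Fin m → ℝ)
    (i : Fin m) :
    Ny α d r t y t' y' i = (y i - y' i) + y' i *
      ((1 - r i) * (1 - HH α d r t y / HH α d r t' y') - r i * (AA α r t y / AA α r t' y' - 1)) := by
  rw [← nq_LL]
  unfold Ny UU
  ring

/-- The quadratic form. -/
theorem nq_Q (α d : ℝ) (r : Fin m → ℝ) (t : ℝ) (y : Fin m → ℝ) (t' : ℝ) (y' : Fin m → ℝ) :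
    Nt α d r t y t' y' * (t - t') + ∑ i, Ny α d r t y t' y' i * (y i - y' i) =
      ∑ i, (y i - y' i) ^ 2 +
        (AA α r t y / AA α r t' y' - 1) * PP α r y' (t - t') (fun i => y i - y' i) +
        (1 - HH α d r t y / HH α d r t' y') * SS α r y' (t - t') (fun i => y i - y' i) := by
  rw [nq_Nt, Finset.sum_congr rfl fun i _ => by rw [nq_Ny]]
  set a := AA α r t y / AA α r t' y' - 1
  set b := 1 - HH α d r t y / HH α d r t' y'
  have e : ∑ i, (y i - y' i + y' i * ((1 - r i) * b - r i * a)) * (y i - y' i) =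
      ∑ i, (y i - y' i) ^ 2 - a * (∑ i, r i * y' i * (y i - y' i)) +
        b * ∑ i, (1 - r i) * y' i * (y i - y' i) := by
    rw [Finset.mul_sum, Finset.mul_sum, ← Finset.sum_sub_distrib, ← Finset.sum_add_distrib]
    exact Finset.sum_congr rfl fun i _ => by ring
  unfold PP SS
  beta_reduce
  rw [e]
  ring

/-- The form is positive: the scalar inequality. -/
theorem nq_pos {P S k1 k2 E X Y q K δ k0 : ℝ} (hE : 0 ≤ E) (hX : |X| ≤ q * E) (hY : |Y| ≤ q * E)
    (h1 : k0 ≤ k1) (h0 : 0 ≤ k0) (h1' : k1 ≤ K) (h2 : 0 ≤ k2) (h2' : k2 ≤ K) (hP : |P| ≤ δ)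
    (hS : |S| ≤ δ) (hq : 0 ≤ q) (hδ : K * q * δ ≤ 1 / 2) :
    E / 2 + k0 * P ^ 2 ≤ E + k1 * (P - X / 2) * P + k2 * (S + Y / 2) * S := by
  have hK : 0 ≤ K := h2.trans h2'
  have hδ0 : 0 ≤ δ := (abs_nonneg P).trans hP
  have e1 : |k1 * X * P| ≤ E / 2 := by
    rw [abs_mul, abs_mul, abs_of_nonneg (h0.trans h1)]
    calc k1 * |X| * |P| ≤ K * (q * E) * δ := by gcongr
      _ = K * q * δ * E := by ring
      _ ≤ 1 / 2 * E := mul_le_mul_of_nonneg_right hδ hE
      _ = E / 2 := by ring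
  have e2 : |k2 * Y * S| ≤ E / 2 := by
    rw [abs_mul, abs_mul, abs_of_nonneg h2]
    calc k2 * |Y| * |S| ≤ K * (q * E) * δ := by gcongr
      _ = K * q * δ * E := by ring
      _ ≤ 1 / 2 * E := mul_le_mul_of_nonneg_right hδ hE
      _ = E / 2 := by ring
  have e3 : k0 * P ^ 2 ≤ k1 * P ^ 2 := mul_le_mul_of_nonneg_right h1 (sq_nonneg _)
  have e4 : 0 ≤ k2 * S ^ 2 := by positivity
  have e5 : k1 * (P - X / 2) * P = k1 * P ^ 2 - k1 * X * P / 2 := by ring
  have e6 : k2 * (S + Y / 2) * S = k2 * S ^ 2 + k2 * Y * S / 2 := by ring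
  rw [e5, e6]
  have := (abs_le.1 e1).2
  have := (abs_le.1 e2).1
  linarith

/-- The distance is controlled by `P` and `D`. -/
theorem nq_nn {α : ℝ} {r : Fin m → ℝ} (hα : α ≠ 0) {M : ℝ} (hM : 0 ≤ M) (Dt : ℝ)
    (y' D : Fin m → ℝ) (hy : ∀ i, |y' i| ≤ M) :
    (|Dt| + ∑ i, |D i|) ^ 2 ≤ (8 * α ^ 2 + 2 * (1 + 2 * |α| * (QQ α r * M)) ^ 2 * (m + 1)) *
      (PP α r y' Dt D ^ 2 + ∑ i, D i ^ 2) := by
  have hQ := QQ_nonneg α r
  set P := PP α r y' Dt D with hP
  set N := ∑ i, |D i| with hN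
  set E := ∑ i, D i ^ 2 with hE
  have hN0 : 0 ≤ N := by positivity
  have hE0 : 0 ≤ E := by positivity
  have h1 : Dt = 2 * α * (P + ∑ i, r i * y' i * D i) := by
    rw [hP]
    unfold PP
    field_simp
    ring
  have h2 : |∑ i, r i * y' i * D i| ≤ QQ α r * M * N := by
    rw [hN, Finset.mul_sum]
    refine (Finset.abs_sum_le_sum_abs _ _).trans (Finset.sum_le_sum fun i _ => ?_)
    rw [abs_mul, abs_mul]
    have h3 : |r i| ≤ QQ α r := by
      have := q_le α r i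
      have := abs_nonneg (1 - r i)
      linarith
    exact mul_le_mul_of_nonneg_right (mul_le_mul h3 (hy i) (abs_nonneg _) hQ) (abs_nonneg _)
  have h3 : |Dt| ≤ 2 * |α| * (|P| + QQ α r * M * N) := by
    rw [h1, abs_mul, abs_mul, abs_two]
    refine mul_le_mul_of_nonneg_left ((abs_add_le _ _).trans (by linarith)) (by positivity)
  set G := 1 + 2 * |α| * (QQ α r * M) with hG
  have hG0 : 0 ≤ G := by positivity
  have h4 : |Dt| + N ≤ 2 * |α| * |P| + G * N := by
    have : G * N = N + 2 * |α| * (QQ α r * M * N) := by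
      rw [hG]
      ring
    rw [this]
    linarith
  have h5 : N ^ 2 ≤ m * E := by
    have := sq_sum_le_card_mul_sum_sq (s := Finset.univ) (f := fun i => |D i|)
    rw [Finset.card_univ, Fintype.card_fin] at this
    simp only [sq_abs] at this
    exact this
  have h6 : (|Dt| + N) ^ 2 ≤ (2 * |α| * |P| + G * N) ^ 2 :=
    pow_le_pow_left₀ (by positivity) h4 2
  have h7 : (2 * |α| * |P| + G * N) ^ 2 ≤ 8 * (α ^ 2 * P ^ 2) + 2 * (G ^ 2 * N ^ 2) := by
    have e1 : α ^ 2 = |α| ^ 2 := (sq_abs α).symm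
    have e2 : P ^ 2 = |P| ^ 2 := (sq_abs P).symm
    rw [e1, e2]
    nlinarith [sq_nonneg (2 * |α| * |P| - G * N)]
  have h8 : G ^ 2 * N ^ 2 ≤ G ^ 2 * (m * E) := mul_le_mul_of_nonneg_left h5 (sq_nonneg _)
  have h9 : 0 ≤ G ^ 2 * E := by positivity
  have h10 : 0 ≤ α ^ 2 * E := by positivity
  have h11 : 0 ≤ G ^ 2 * (m + 1) * P ^ 2 := by positivity
  nlinarith

/- ROW NQ: `N(p) · DY(p')` for two points of the box. -/
theorem nq {α : ℝ} {r : Fin m → ℝ} (h : Hyp α r) {κ : ℝ} (hκ : 0 < κ) (hκ1 : κ ≤ 1) :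
    ∃ c C c1 : ℝ, 0 < c ∧ 0 < C ∧ 0 < c1 ∧ ∀ c0, 0 < c0 → c0 ≤ c1 → ∀ d, 0 ≤ d → d ≤ 1 →
      ∀ t0 y0, Rg κ α d r t0 y0 → ∀ t y t' y', Bx c0 t0 y0 t y → Bx c0 t0 y0 t' y' →
        |Nt α d r t y t' y'| ≤ C * nn t y t' y' ∧
        (∀ i, |Ny α d r t y t' y' i| ≤ C * nn t y t' y') ∧
        (∀ i, |Ny α d r t y t' y' i| ≤ C * c0 * |y0 i|) ∧
        (∀ i, |LL α d r (AA α r t y) (-(HH α d r t y)) t' y' i + 1| ≤ C * c0) ∧
        c * nn t y t' y' ^ 2 ≤
          Nt α d r t y t' y' * (t - t') + ∑ i, Ny α d r t y t' y' i * (y i - y' i) := by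
  have hα := h.α0
  have ha : 0 < |α| := abs_pos.2 hα
  have hQ := QQ_nonneg α r
  obtain ⟨c2, hc2, hc2', hbox⟩ := box_sub h hκ hκ1
  set Q := QQ α r with hQd
  set M : ℝ := 2 * κ⁻¹ with hM
  have hM0 : 0 < M := by positivity
  set K : ℝ := 16 / κ ^ 2 with hK
  have hK0 : 0 < K := by positivity
  set k0 : ℝ := κ ^ 2 / 16 with hk0
  have hk00 : 0 < k0 := by positivity
  set K1 : ℝ := K * (Q * (1 + M)) with hK1
  have hK10 : 0 ≤ K1 := by positivity
  set K2 : ℝ := 2 * (1 + m * κ⁻¹) with hK2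
  have hK20 : 0 < K2 := by positivity
  set δ0 : ℝ := Q * (1 + M) * K2 with hδ0
  have hδ00 : 0 ≤ δ0 := by positivity
  set G : ℝ := 8 * α ^ 2 + 2 * (1 + 2 * |α| * (Q * M)) ^ 2 * (m + 1) with hG
  have hG0 : 0 < G := by positivity
  set C : ℝ := 3 + K1 / |α| + M * (Q * K1) + 2 * (Q * K1 * K2) + Q * K1 * K2 with hC
  have z1 : 0 ≤ K1 / |α| := by positivity
  have z2 : 0 ≤ M * (Q * K1) := by positivity
  have z3 : 0 ≤ Q * K1 * K2 := by positivity
  set c3 : ℝ := min c2 (1 / (2 * (K * Q * δ0 + 1))) with hc3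
  refine ⟨min (1 / 2) k0 / G, C, c3, div_pos (lt_min (by norm_num) hk00) hG0, by positivity,
    lt_min hc2 (by positivity), ?_⟩
  intro c0 hc0 hc d hd0 hd1 t0 y0 hR t y t' y' hb hb'
  have hcc : c0 ≤ c2 := hc.trans (min_le_left _ _)
  have hcd : c0 ≤ 1 / (2 * (K * Q * δ0 + 1)) := hc.trans (min_le_right _ _)
  rw [le_div_iff₀ (by positivity)] at hcd
  have hg := hbox d hd0 hd1 t0 y0 t y hR (bx_mono hcc hb)
  have hg' := hbox d hd0 hd1 t0 y0 t' y' hR (bx_mono hcc hb')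
  have hκ4 : 0 < κ / 4 := by positivity
  have hκ41 : κ / 4 ≤ 1 := by linarith
  have hy : ∀ i, |y i| ≤ M := fun i => bx_abs hκ (by linarith) hR.1 hb i
  have hy' : ∀ i, |y' i| ≤ M := fun i => bx_abs hκ (by linarith) hR.1 hb' i
  have hyb : ∀ i, |(y' i + y i) / 2| ≤ M := fun i => by
    rw [abs_div, abs_two]
    have := abs_add_le (y' i) (y i)
    have := hy i
    have := hy' i
    linarith
  have hnn := nn_nonneg t y t' y'
  have hnn2 : nn t y t' y' ≤ K2 * c0 := bx_nn hκ hc0.le hR.1 hb hb'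
  have hsym := nq_sym t y t' y'
  -- the coefficients
  obtain ⟨A1, A2⟩ := rg_A hκ4 hκ41 hg
  obtain ⟨A1', A2'⟩ := rg_A hκ4 hκ41 hg'
  have H1 := rg_H hκ4 hκ41 hg
  have H1' := rg_H hκ4 hκ41 hg'
  have ea := nq_a (d := d) hα hκ4 hκ41 hg hg'
  have eb := nq_b hα hκ4 hκ41 hg hg'
  have eQ := nq_Q α d r t y t' y'
  have eNt := nq_Nt α d r t y t' y'
  have eLL := nq_LL α d r t y t' y'
  have eNy := nq_Ny α d r t y t' y'
  set a := AA α r t y / AA α r t' y' - 1
  set b := 1 - HH α d r t y / HH α d r t' y'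
  set κ1 : ℝ := 2 / (AA α r t' y' * (AA α r t y + AA α r t' y')) with hκ1d
  set κ2 : ℝ := 2 * d ^ 2 / (HH α d r t' y' * (HH α d r t y + HH α d r t' y')) with hκ2d
  have pA : 0 < AA α r t y := hκ4.trans_le A1
  have pA' : 0 < AA α r t' y' := hκ4.trans_le A1'
  have pH : 0 < HH α d r t y := hκ4.trans_le H1
  have pH' : 0 < HH α d r t' y' := hκ4.trans_le H1'
  have q1 : k0 ≤ κ1 := by
    rw [hk0, hκ1d, div_le_div_iff₀ (by norm_num) (by positivity)]
    have e1 : AA α r t' y' * (AA α r t y + AA α r t' y') ≤ (κ / 4)⁻¹ * ((κ / 4)⁻¹ + (κ / 4)⁻¹) :=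
      mul_le_mul A2' (add_le_add A2 A2') (by positivity) (by positivity)
    calc κ ^ 2 * (AA α r t' y' * (AA α r t y + AA α r t' y'))
        ≤ κ ^ 2 * ((κ / 4)⁻¹ * ((κ / 4)⁻¹ + (κ / 4)⁻¹)) := mul_le_mul_of_nonneg_left e1 (sq_nonneg _)
      _ = 2 * 16 := by
        field_simp
        norm_num
  have q2 : κ1 ≤ K := by
    rw [hK, hκ1d, div_le_div_iff₀ (by positivity) (by positivity)]
    have e1 : κ / 4 * (κ / 4 + κ / 4) ≤ AA α r t' y' * (AA α r t y + AA α r t' y') :=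
      mul_le_mul A1' (add_le_add A1 A1') (by positivity) pA'.le
    linarith
  have q3 : 0 ≤ κ2 := by positivity
  have q4 : κ2 ≤ K := by
    rw [hK, hκ2d, div_le_div_iff₀ (by positivity) (by positivity)]
    have e1 : κ / 4 * (κ / 4 + κ / 4) ≤ HH α d r t' y' * (HH α d r t y + HH α d r t' y') :=
      mul_le_mul H1' (add_le_add H1 H1') (by positivity) pH'.le
    have e2 : d ^ 2 ≤ 1 := pow_le_one₀ hd0 hd1
    have e3 : d ^ 2 * κ ^ 2 ≤ 1 * κ ^ 2 := mul_le_mul_of_nonneg_right e2 (sq_nonneg _)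
    linarith
  have q0 : 0 ≤ κ1 := hk00.le.trans q1
  have bP := PP_le α r (fun i => (y' i + y i) / 2) (t - t') (fun i => y i - y' i) hM0.le hyb
  have bS := SS_le α r (fun i => (y' i + y i) / 2) (t - t') (fun i => y i - y' i) hM0.le hyb
  have bP' := PP_le α r y' (t - t') (fun i => y i - y' i) hM0.le hy'
  have bS' := SS_le α r y' (t - t') (fun i => y i - y' i) hM0.le hy'
  rw [hsym] at bP bS bP' bS'
  have ba : |a| ≤ K1 * nn t y t' y' := by
    rw [ea, abs_mul, abs_of_nonneg q0, hK1, mul_assoc]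
    exact mul_le_mul q2 bP (abs_nonneg _) hK0.le
  have bb : |b| ≤ K1 * nn t y t' y' := by
    rw [eb, abs_mul, abs_of_nonneg q3, hK1, mul_assoc]
    exact mul_le_mul q4 bS (abs_nonneg _) hK0.le
  have bl : ∀ i, |(1 - r i) * b - r i * a| ≤ Q * (K1 * nn t y t' y') := fun i => by
    refine (abs_sub _ _).trans ?_
    rw [abs_mul, abs_mul]
    have e1 : |1 - r i| * |b| ≤ |1 - r i| * (K1 * nn t y t' y') :=
      mul_le_mul_of_nonneg_left bb (abs_nonneg _)
    have e2 : |r i| * |a| ≤ |r i| * (K1 * nn t y t' y') :=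
      mul_le_mul_of_nonneg_left ba (abs_nonneg _)
    have e3 := mul_le_mul_of_nonneg_right (q_le α r i)
      (show 0 ≤ K1 * nn t y t' y' by positivity)
    linarith
  have hDi : ∀ i, |y i - y' i| ≤ nn t y t' y' := fun i => by
    rw [← hsym]
    have := Finset.single_le_sum (f := fun i => |y i - y' i|) (fun i _ => abs_nonneg _)
      (Finset.mem_univ i)
    have := abs_nonneg (t - t')
    linarith
  refine ⟨?_, ?_, ?_, ?_, ?_⟩
  · rw [eNt, abs_div, abs_mul, abs_two]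
    have e1 : |a + b| ≤ 2 * (K1 * nn t y t' y') := (abs_add_le _ _).trans (by linarith)
    rw [div_le_iff₀ (by positivity)]
    have e2 : K1 / |α| * nn t y t' y' * (2 * |α|) = 2 * (K1 * nn t y t' y') := by
      field_simp
    have e3 : K1 / |α| * nn t y t' y' * (2 * |α|) ≤ C * nn t y t' y' * (2 * |α|) := by
      gcongr
      rw [hC]
      linarith
    linarith
  · intro i
    rw [eNy]
    refine (abs_add_le _ _).trans ?_
    rw [abs_mul]
    have e1 := mul_le_mul (hy' i) (bl i) (abs_nonneg _) hM0.le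
    have e2 := hDi i
    have e3 : (1 + M * (Q * K1)) * nn t y t' y' ≤ C * nn t y t' y' := by
      gcongr
      rw [hC]
      linarith
    linarith
  · intro i
    rw [eNy]
    refine (abs_add_le _ _).trans ?_
    rw [abs_mul]
    have f1 := hb.2 i
    have f2 := hb'.2 i
    have f3 : |y i - y' i| ≤ 2 * (c0 * |y0 i|) := by
      have : y i - y' i = (y i - y0 i) - (y' i - y0 i) := by ring
      rw [this]
      exact (abs_sub _ _).trans (by linarith)
    have f4 : |y' i| ≤ 2 * |y0 i| := by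
      have e1 : y' i = y0 i + (y' i - y0 i) := by ring
      rw [e1]
      refine (abs_add_le _ _).trans ?_
      have := mul_le_mul_of_nonneg_right (show c0 ≤ 1 by linarith) (abs_nonneg (y0 i))
      linarith
    have f5 : Q * (K1 * nn t y t' y') ≤ Q * (K1 * (K2 * c0)) := by gcongr
    have e1 := mul_le_mul f4 ((bl i).trans f5) (abs_nonneg _) (by positivity)
    have e3 : (2 + 2 * (Q * K1 * K2)) * (c0 * |y0 i|) ≤ C * (c0 * |y0 i|) := by
      gcongr
      rw [hC]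
      linarith
    linarith
  · intro i
    rw [eLL]
    have f5 : Q * (K1 * nn t y t' y') ≤ Q * (K1 * (K2 * c0)) := by gcongr
    have e3 : (Q * K1 * K2) * c0 ≤ C * c0 := by
      gcongr
      rw [hC]
      linarith
    have := bl i
    linarith
  · rw [eQ, ea, eb, nq_P, nq_S]
    set P := PP α r y' (t - t') (fun i => y i - y' i)
    set S := SS α r y' (t - t') (fun i => y i - y' i)
    set E := ∑ i, (y i - y' i) ^ 2 with hE
    set X := ∑ i, r i * (y i - y' i) ^ 2 with hX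
    set Y := ∑ i, (1 - r i) * (y i - y' i) ^ 2 with hY
    have hE0 : 0 ≤ E := Finset.sum_nonneg fun i _ => sq_nonneg _
    have bX : |X| ≤ Q * E := by
      rw [hX, hE, Finset.mul_sum]
      refine (Finset.abs_sum_le_sum_abs _ _).trans (Finset.sum_le_sum fun i _ => ?_)
      rw [abs_mul, abs_of_nonneg (sq_nonneg (y i - y' i))]
      have h3 : |r i| ≤ Q := by
        have := q_le α r i
        have := abs_nonneg (1 - r i)
        linarith
      exact mul_le_mul_of_nonneg_right h3 (sq_nonneg _)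
    have bY : |Y| ≤ Q * E := by
      rw [hY, hE, Finset.mul_sum]
      refine (Finset.abs_sum_le_sum_abs _ _).trans (Finset.sum_le_sum fun i _ => ?_)
      rw [abs_mul, abs_of_nonneg (sq_nonneg (y i - y' i))]
      have h3 : |1 - r i| ≤ Q := by
        have := q_le α r i
        have := abs_nonneg (r i)
        linarith
      exact mul_le_mul_of_nonneg_right h3 (sq_nonneg _)
    have hδP : |P| ≤ δ0 * c0 := by
      refine bP'.trans ?_
      have : Q * (1 + M) * nn t y t' y' ≤ Q * (1 + M) * (K2 * c0) := by gcongr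
      rw [hδ0]
      linarith
    have hδS : |S| ≤ δ0 * c0 := by
      refine bS'.trans ?_
      have : Q * (1 + M) * nn t y t' y' ≤ Q * (1 + M) * (K2 * c0) := by gcongr
      rw [hδ0]
      linarith
    have hδ1 : K * Q * (δ0 * c0) ≤ 1 / 2 := by
      have : K * Q * (δ0 * c0) = K * Q * δ0 * c0 := by ring
      linarith
    have hpos := nq_pos hE0 bX bY q1 hk00.le q2 q3 q4 hδP hδS hQ hδ1
    have hgeo := nq_nn (r := r) hα hM0.le (t - t') y' (fun i => y i - y' i) hy'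
    rw [hsym] at hgeo
    have e1 : min (1 / 2) k0 / G * nn t y t' y' ^ 2 ≤ min (1 / 2) k0 * (P ^ 2 + E) := by
      rw [div_mul_eq_mul_div, div_le_iff₀ hG0]
      have := mul_le_mul_of_nonneg_left hgeo
        (show 0 ≤ min (1 / 2) k0 from le_min (by norm_num) hk00.le)
      linarith
    have e2 : min (1 / 2) k0 * P ^ 2 ≤ k0 * P ^ 2 :=
      mul_le_mul_of_nonneg_right (min_le_right _ _) (sq_nonneg _)
    have e3 : min (1 / 2) k0 * E ≤ 1 / 2 * E := mul_le_mul_of_nonneg_right (min_le_left _ _) hE0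
    have e4 : κ1 * (P - X / 2) * P = κ1 * P * (P - X / 2) := by ring
    linarith

/- ROW PEL: at most one `L i` is small. -/
theorem pel {α : ℝ} {r : Fin m → ℝ} (hm : 1 ≤ m) (h : Hyp α r) {κ : ℝ} (hκ : 0 < κ)
    (hκ1 : κ ≤ 1) : ∃ c : ℝ, 0 < c ∧ c ≤ 1 ∧ ∀ d, 0 ≤ d → d ≤ 1 → ∀ t y w1 wn,
      Rg κ α d r t y → κ ≤ |w1| + |wn| → ∃ j, ∀ i, i ≠ j → c ≤ |LL α d r w1 wn t y i| := by
  have hQ := QQ_nonneg α r
  set Q := QQ α r with hQd
  set Δ : ℝ := ∑ i, ∑ j, 1 / |r i - r j| with hΔ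
  have hΔ0 : 0 ≤ Δ := by positivity
  have hΔi : ∀ i j, 1 / |r i - r j| ≤ Δ := fun i j => by
    have h1 := Finset.single_le_sum (f := fun j => 1 / |r i - r j|) (fun j _ => by positivity)
      (Finset.mem_univ j)
    have h2 := Finset.single_le_sum (f := fun i => ∑ j, 1 / |r i - r j|)
      (fun i _ => by positivity) (Finset.mem_univ i)
    exact h1.trans h2
  set T : ℝ := 2 + 2 * Δ * (2 * Q + 1) with hT
  have hT0 : 2 ≤ T := by
    have : 0 ≤ 2 * Δ * (2 * Q + 1) := by positivity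
    linarith
  set c : ℝ := κ ^ 2 / (2 * T) with hc
  have hc0 : 0 < c := by positivity
  have hκ2 : κ ^ 2 ≤ 1 := pow_le_one₀ hκ.le hκ1
  refine ⟨c, hc0, ?_, ?_⟩
  · rw [hc, div_le_one (by positivity)]
    linarith
  intro d hd0 hd1 t y w1 wn hR hw
  obtain ⟨A1, A2⟩ := rg_A hκ hκ1 hR
  have H1 := rg_H hκ hκ1 hR
  have pA : 0 < AA α r t y := hκ.trans_le A1
  have pH : 0 < HH α d r t y := hκ.trans_le H1
  have H2 : HH α d r t y ≤ κ⁻¹ := by
    refine Real.sqrt_le_iff.2 ⟨by positivity, ?_⟩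
    have e1 : ss α r t y = rr α r t y + ∑ i, y i ^ 2 := by
      unfold ss rr
      have : ∑ i, (1 - r i) * y i ^ 2 = ∑ i, y i ^ 2 - ∑ i, r i * y i ^ 2 := by
        rw [← Finset.sum_sub_distrib]
        exact Finset.sum_congr rfl fun i _ => by ring
      rw [this]
      ring
    have e2 : 0 ≤ ss α r t y := by
      rw [e1]
      have := hκ.le.trans hR.2.1
      positivity
    have e3 : 0 ≤ d ^ 2 * ss α r t y := by positivity
    have e4 : 1 ≤ κ⁻¹ := (one_le_inv₀ hκ).2 hκ1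
    have e5 : 1 ≤ κ⁻¹ ^ 2 := one_le_pow₀ e4
    linarith
  by_contra hcon
  push Not at hcon
  -- an index with small `L`
  obtain ⟨i1, -, hi1⟩ := hcon ⟨0, hm⟩
  obtain ⟨i2, hne, hi2⟩ := hcon i1
  set a1 := w1 / AA α r t y with ha1
  set cn := wn / HH α d r t y with hcn
  have eL : ∀ i, LL α d r w1 wn t y i = cn - r i * (cn + a1) := fun i => by
    unfold LL
    rw [← ha1, ← hcn]
    ring
  rw [eL] at hi1 hi2
  have hr : 0 < |r i1 - r i2| := abs_pos.2 (sub_ne_zero.2 fun e => hne (h.inj e).symm)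
  have g1 : |cn + a1| ≤ 2 * c * Δ := by
    have e1 : (r i1 - r i2) * (cn + a1) =
        (cn - r i2 * (cn + a1)) - (cn - r i1 * (cn + a1)) := by ring
    have e2 : |r i1 - r i2| * |cn + a1| ≤ 2 * c := by
      rw [← abs_mul, e1]
      exact (abs_sub _ _).trans (by linarith)
    have e3 : |cn + a1| ≤ 2 * c * (1 / |r i1 - r i2|) := by
      rw [mul_one_div, le_div_iff₀ hr]
      linarith
    exact e3.trans (mul_le_mul_of_nonneg_left (hΔi i1 i2) (by positivity))
  have g2 : |cn| ≤ c + Q * (2 * c * Δ) := by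
    have e1 : cn = (cn - r i1 * (cn + a1)) + r i1 * (cn + a1) := by ring
    have e2 : |cn| ≤ |cn - r i1 * (cn + a1)| + |r i1 * (cn + a1)| := by
      conv_lhs => rw [e1]
      exact abs_add_le _ _
    rw [abs_mul] at e2
    have e3 : |r i1| ≤ Q := by
      have := q_le α r i1
      have := abs_nonneg (1 - r i1)
      linarith
    have e4 := mul_le_mul e3 g1 (abs_nonneg _) hQ
    linarith
  have g3 : |a1| ≤ c + Q * (2 * c * Δ) + 2 * c * Δ := by
    have e1 : a1 = (cn + a1) - cn := by ring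
    have e2 : |a1| ≤ |cn + a1| + |cn| := by
      conv_lhs => rw [e1]
      exact abs_sub _ _
    linarith
  have g4 : |w1| ≤ κ⁻¹ * |a1| := by
    have e1 : w1 = AA α r t y * a1 := by
      rw [ha1]
      field_simp
    have e2 : |w1| = AA α r t y * |a1| := by
      conv_lhs => rw [e1]
      rw [abs_mul, abs_of_pos pA]
    rw [e2]
    exact mul_le_mul_of_nonneg_right A2 (abs_nonneg _)
  have g5 : |wn| ≤ κ⁻¹ * |cn| := by
    have e1 : wn = HH α d r t y * cn := by
      rw [hcn]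
      field_simp
    have e2 : |wn| = HH α d r t y * |cn| := by
      conv_lhs => rw [e1]
      rw [abs_mul, abs_of_pos pH]
    rw [e2]
    exact mul_le_mul_of_nonneg_right H2 (abs_nonneg _)
  have g6 : |a1| + |cn| ≤ c * T := by
    have : c * T = 2 * c + 2 * (Q * (2 * c * Δ)) + 2 * c * Δ := by
      rw [hT]
      ring
    linarith
  have g7 : c * T = κ ^ 2 / 2 := by
    rw [hc]
    field_simp
  have g8 : |w1| + |wn| ≤ κ⁻¹ * (κ ^ 2 / 2) := by
    have := mul_le_mul_of_nonneg_left (g6.trans g7.le) (show 0 ≤ κ⁻¹ by positivity)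
    linarith
  have g9 : κ⁻¹ * (κ ^ 2 / 2) = κ / 2 := by
    field_simp
  linarith

end Pool.Agent.LQN
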