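import Pool.Agent.LQN.G2
import Pool.Agent.LQN.SVR
import Pool.Agent.LQN.KD
import Pool.Agent.LQN.KQ0
import Pool.Agent.LQN.NQ

/-!
LQN: two points of one piece, far from `p` (row FARI).
-/

set_option autoImplicit false

namespace Pool.Agent.LQN

open MeasureTheory Set
open scoped ENNReal

variable {m : ℕ}

/-- `U` is affine along the line. -/
theorem fa_U (α d : ℝ) (r : Fin m → ℝ) (t : ℝ) (y : Fin m → ℝ) (x1 : ℝ) (x : Fin m → ℝ)
    (s1 s2 t' : ℝ) (y' : Fin m → ℝ) (i : Fin m) :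
    gU α d r t y x1 x s2 t' y' i - gU α d r t y x1 x s1 t' y' i =
      (s2 - s1) * Ny α d r t y t' y' i := by
  unfold gU UU LL Ny UU LL gw g1 gn
  ring

/-- `T` is affine along the line. -/
theorem fa_T (α d : ℝ) (r : Fin m → ℝ) (t : ℝ) (y : Fin m → ℝ) (x1 : ℝ)
    (s1 s2 t' : ℝ) (y' : Fin m → ℝ) :
    gT α d r t y x1 s2 t' y' - gT α d r t y x1 s1 t' y' = (s2 - s1) * Nt α d r t y t' y' := by
  unfold gT TT Nt TT g1 gn
  ring

/-- A row with `Dt = 0` is a transposed row. -/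
theorem fa_row (α : ℝ) (r L y' yb : Fin m → ℝ) (a3 c3 : ℝ) (D : Fin m → ℝ) (i : Fin m) :
    Row α r L y' yb a3 c3 0 D i = Coy r L yb y' a3 c3 D i := by
  unfold Row Coy PP SS
  ring

theorem fa_cot (α : ℝ) (r yb : Fin m → ℝ) (a3 c3 : ℝ) (D : Fin m → ℝ) :
    (-(a3 * PP α r yb 0 D) + c3 * SS α r yb 0 D) / (2 * α) = Cot α r yb a3 c3 D := by
  unfold Cot PP SS
  ring

theorem fa_coy_neg (r L y' yb : Fin m → ℝ) (a3 c3 : ℝ) (D : Fin m → ℝ) (k : Fin m) :
    Coy r L y' yb a3 c3 (fun i => -D i) k = -Coy r L y' yb a3 c3 D k := by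
  unfold Coy
  simp only [mul_neg, Finset.sum_neg_distrib, neg_mul]
  ring

theorem fa_cot_neg (α : ℝ) (r y' : Fin m → ℝ) (a3 c3 : ℝ) (D : Fin m → ℝ) :
    Cot α r y' a3 c3 (fun i => -D i) = -Cot α r y' a3 c3 D := by
  unfold Cot
  simp only [mul_neg, Finset.sum_neg_distrib]
  ring

/-- The differences of `U` and `T` between two points with the same `t`. -/
theorem fa_dU {α d : ℝ} (hα : α ≠ 0) (r : Fin m → ℝ) (t' : ℝ) (y1 y2 : Fin m → ℝ)
    (h : 0 < rr α r t' y1) (h' : 0 < rr α r t' y2) (g : 0 < 1 - d ^ 2 * ss α r t' y1)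
    (g' : 0 < 1 - d ^ 2 * ss α r t' y2) (w1 wn : ℝ) (w : Fin m → ℝ) (i : Fin m) :
    UU α d r w1 wn w t' y2 i - UU α d r w1 wn w t' y1 i =
      Coy r (LL α d r w1 wn t' y2) (fun i => (y2 i + y1 i) / 2) y1 (a3c α r w1 t' y2 t' y1)
        (c3c α d r wn t' y2 t' y1) (fun i => y2 i - y1 i) i := by
  have h1 := D1 hα r t' t' y2 y1 h' h g' g w1 wn w i
  rw [sub_self, fa_row] at h1
  have h2 : (fun i => y2 i - y1 i) = fun i => -((fun i => y1 i - y2 i) i) := by
    funext i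
    ring
  rw [h2, fa_coy_neg, ← h1]
  ring

theorem fa_dT {α d : ℝ} (hα : α ≠ 0) (r : Fin m → ℝ) (t' : ℝ) (y1 y2 : Fin m → ℝ)
    (h : 0 < rr α r t' y1) (h' : 0 < rr α r t' y2) (g : 0 < 1 - d ^ 2 * ss α r t' y1)
    (g' : 0 < 1 - d ^ 2 * ss α r t' y2) (w1 wn : ℝ) :
    TT α d r w1 wn t' y2 - TT α d r w1 wn t' y1 =
      Cot α r (fun i => (y2 i + y1 i) / 2) (a3c α r w1 t' y2 t' y1)
        (c3c α d r wn t' y2 t' y1) (fun i => y2 i - y1 i) := by
  have h1 := D1t hα r t' t' y2 y1 h' h g' g w1 wn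
  rw [sub_self, fa_cot] at h1
  have h2 : (fun i => y2 i - y1 i) = fun i => -((fun i => y1 i - y2 i) i) := by
    funext i
    ring
  rw [h2, fa_cot_neg, ← h1]
  ring

/-- The absorption. -/
theorem fa_alg {F S n δ c A1 A2 η : ℝ} (hc : 0 < c) (hn : 0 < n)
    (hA1 : 0 ≤ A1) (hA2 : 0 ≤ A2) (hη0 : 0 ≤ η)
    (h1 : S ≤ A1 * (F + A2 * (n * δ))) (h2 : c * n ^ 2 * δ ≤ F * n + η * n * S)
    (hη : η * (A1 * A2 / c) ≤ 1 / 2) (hS : 0 ≤ S) :
    S ≤ 2 * (A1 + A1 * A2 / c) * F ∧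
      n * δ ≤ (1 + η * (2 * (A1 + A1 * A2 / c))) / c * F := by
  have h3 : c * (n * δ) ≤ F + η * S := by
    have h4 : n * (c * (n * δ)) ≤ n * (F + η * S) := by nlinarith
    exact le_of_mul_le_mul_left h4 hn
  have h5 : n * δ ≤ (F + η * S) / c := by
    rw [le_div_iff₀ hc]
    linarith
  have h6 : S ≤ 2 * (A1 + A1 * A2 / c) * F := by
    have h7 : A1 * (F + A2 * (n * δ)) ≤ A1 * (F + A2 * ((F + η * S) / c)) := by gcongr
    have h8 : A1 * (F + A2 * ((F + η * S) / c)) =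
        (A1 + A1 * A2 / c) * F + η * (A1 * A2 / c) * S := by
      field_simp
      ring
    have h9 : η * (A1 * A2 / c) * S ≤ 1 / 2 * S := mul_le_mul_of_nonneg_right hη hS
    linarith
  refine ⟨h6, h5.trans ?_⟩
  rw [div_mul_eq_mul_div]
  gcongr
  have : η * S ≤ η * (2 * (A1 + A1 * A2 / c) * F) := by gcongr
  linarith

theorem fa_nn_comm (t : ℝ) (y : Fin m → ℝ) (t' : ℝ) (y' : Fin m → ℝ) :
    nn t y t' y' = nn t' y' t y := by
  unfold nn
  rw [abs_sub_comm]
  congr 1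
  exact Finset.sum_congr rfl fun i _ => abs_sub_comm _ _

/-- ROW FARI (from svr, near_pts, chord, nq): two points of one piece, far from `p`. -/
theorem fari {α : ℝ} {r : Fin m → ℝ} (h : Hyp α r) {κ : ℝ} (hκ : 0 < κ) (hκ1 : κ ≤ 1) :
    ∃ C M c1 : ℝ, 0 < C ∧ 1 ≤ M ∧ 0 < c1 ∧ ∀ c0, 0 < c0 → c0 ≤ c1 → ∀ d, 0 ≤ d → d ≤ 1 →
      ∀ t0 y0, Rg κ α d r t0 y0 → ∀ ν, 0 < ν → (∀ i, ν ≤ |y0 i|) → ∀ t y t' y1 y2,
      Bx c0 t0 y0 t y → Bx c0 t0 y0 t' y1 → Bx c0 t0 y0 t' y2 →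
      ∀ (x1 : ℝ) (x : Fin m → ℝ) (s1 s2 ε : ℝ), 0 < ε →
        κ ≤ |g1 α r t y x1 s1| + |gn α d r t y s1| →
        |g1 α r t y x1 s1| + |gn α d r t y s1| ≤ κ⁻¹ →
        (∀ i, |gU α d r t y x1 x s1 t y i| ≤ ε) → (∀ i, |gU α d r t y x1 x s1 t' y1 i| ≤ ε) →
        M * ε ≤ ν * nn t y t' y1 → |s2 - s1| ≤ c1 →
        (∀ i, |gL α d r t y x1 s2 t' y2 i - gL α d r t y x1 s1 t' y1 i| ≤
          c1 * (|gL α d r t y x1 s1 t' y1 i| + |y0 i|)) →
        nn t y t' y1 * |s2 - s1| + ∑ i, (|gL α d r t y x1 s1 t' y1 i| + |y0 i|) * |y2 i - y1 i| ≤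
          C * (|gT α d r t y x1 s2 t' y2 - gT α d r t y x1 s1 t' y1| +
            ∑ i, |gU α d r t y x1 x s2 t' y2 i - gU α d r t y x1 x s1 t' y1 i|) := by
  classical
  obtain ⟨k0, hk0, hk08, BX⟩ := box_sub h hκ hκ1
  obtain ⟨C1, k1, hC1, hk1, SV⟩ := svr h (κ := κ / 4) (by positivity) (by linarith)
  obtain ⟨C4', k4, hC4', hk4, NP⟩ := near_pts h hκ hκ1
  obtain ⟨C5, k5, hC5, hk5, CH⟩ := chord h hκ hκ1
  obtain ⟨c, C2, k2, hc, hC2, hk2, NQ⟩ := nq h hκ hκ1
  set C4 : ℝ := max C4' 1 with hC4def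
  have hC4 : 1 ≤ C4 := le_max_right _ _
  have hC40 : 0 < C4 := by linarith
  set A2 : ℝ := C2 * (m + 1) with hA2
  have hA20 : 0 < A2 := by rw [hA2]; positivity
  set G : ℝ := C1 * A2 / c with hG
  have hG0 : 0 < G := by rw [hG]; positivity
  set μ : ℝ := min k0 (min k4 (min k2 (min (k1 / C4) (min (k5 / C4) (1 / (4 * C5 * C4 * G)))))) with hμ
  have hμ0 : 0 < μ := by
    rw [hμ]
    refine lt_min hk0 (lt_min hk4 (lt_min hk2 (lt_min (by positivity) (lt_min (by positivity)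
      (by positivity)))))
  have m0 : μ ≤ k0 := min_le_left _ _
  have m4 : μ ≤ k4 := (min_le_right _ _).trans (min_le_left _ _)
  have m2 : μ ≤ k2 := (min_le_right _ _).trans ((min_le_right _ _).trans (min_le_left _ _))
  have m1 : μ ≤ k1 / C4 := (min_le_right _ _).trans ((min_le_right _ _).trans
    ((min_le_right _ _).trans (min_le_left _ _)))
  have m5 : μ ≤ k5 / C4 := (min_le_right _ _).trans ((min_le_right _ _).trans
    ((min_le_right _ _).trans ((min_le_right _ _).trans (min_le_left _ _))))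
  have m6 : μ ≤ 1 / (4 * C5 * C4 * G) := (min_le_right _ _).trans ((min_le_right _ _).trans
    ((min_le_right _ _).trans ((min_le_right _ _).trans (min_le_right _ _))))
  have hμ8 : μ ≤ 1 / 8 := m0.trans hk08
  set b : ℝ := C4 * μ with hb
  have hb0 : 0 < b := by positivity
  have hμb : μ ≤ b := by rw [hb]; nlinarith
  have hb1 : b ≤ k1 := by
    rw [hb, mul_comm, ← le_div_iff₀ hC40]
    exact m1
  have hb5 : b ≤ k5 := by
    rw [hb, mul_comm, ← le_div_iff₀ hC40]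
    exact m5
  set M : ℝ := 16 * G + 1 with hM
  have hM1 : 1 ≤ M := by rw [hM]; linarith
  set η : ℝ := 4 / M + C5 * b with hη
  have hη0 : 0 ≤ η := by rw [hη]; positivity
  have hηG : η * G ≤ 1 / 2 := by
    have e1 : 4 / M * G ≤ 1 / 4 := by
      rw [div_mul_eq_mul_div, div_le_iff₀ (by linarith), hM]
      linarith
    have e2 : C5 * b * G ≤ 1 / 4 := by
      have e3 : μ * (4 * C5 * C4 * G) ≤ 1 := by
        rwa [le_div_iff₀ (by positivity)] at m6
      rw [hb]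
      nlinarith
    rw [hη, add_mul]
    linarith
  set K3 : ℝ := 2 * (C1 + C1 * A2 / c) with hK3
  have hK30 : 0 < K3 := by rw [hK3]; positivity
  refine ⟨2 * K3 + (1 + η * K3) / c, M, μ * κ / 8, by positivity, hM1, by positivity, ?_⟩
  intro c0 hc0 hc01 d hd0 hd1 t0 y0 hs ν hν hνy t y t' y1 y2 hp hp1 hp2 x1 x s1 s2 ε hε hw1 hw2
    hU hU1 hfar hss hL
  have hc0μ : c0 ≤ μ := by
    refine hc01.trans ?_
    nlinarith
  have mono : ∀ {a b' : ℝ} {τ : ℝ} {z : Fin m → ℝ}, a ≤ b' → Bx a t0 y0 τ z →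
      Bx b' t0 y0 τ z := by
    intro a b' τ z hab hz
    exact ⟨hz.1.trans hab, fun i => (hz.2 i).trans (by gcongr)⟩
  have rp : Rg (κ / 4) α d r t y := BX d hd0 hd1 t0 y0 t y hs (mono (hc0μ.trans m0) hp)
  have rp1 : Rg (κ / 4) α d r t' y1 := BX d hd0 hd1 t0 y0 t' y1 hs (mono (hc0μ.trans m0) hp1)
  have rp2 : Rg (κ / 4) α d r t' y2 := BX d hd0 hd1 t0 y0 t' y2 hs (mono (hc0μ.trans m0) hp2)
  have hκ4 : 0 < κ / 4 := by positivity
  -- sizes
  have hA : AA α r t y ≤ (κ / 4)⁻¹ := kq_A_le hκ4 (by linarith) rp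
  have hA0 : 0 < AA α r t y := kq_A_pos hκ4 rp
  have hH : HH α d r t y ≤ 1 := kq_H_le hκ4 rp
  have hH0 : 0 < HH α d r t y := kq_H_pos hκ4 rp
  have hyy : ∀ i, |y0 i| ≤ 2 * |y1 i| := by
    intro i
    have e1 := hp1.2 i
    have e2 : |y0 i| ≤ |y1 i - y0 i| + |y1 i| := by
      have := abs_sub_abs_le_abs_sub (y0 i) (y1 i)
      rw [abs_sub_comm] at this
      linarith
    have e3 : c0 * |y0 i| ≤ 1 / 8 * |y0 i| := by
      have : c0 ≤ 1 / 8 := hc0μ.trans hμ8
      gcongr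
    have := abs_nonneg (y1 i)
    linarith
  -- the frequency
  set w1 := g1 α r t y x1 s1 with hw1d
  set wn := gn α d r t y s1 with hwnd
  have dw1 : |g1 α r t y x1 s2 - w1| ≤ μ := by
    have : g1 α r t y x1 s2 - w1 = (s2 - s1) * AA α r t y := by
      rw [hw1d]
      unfold g1
      ring
    rw [this, abs_mul, abs_of_pos hA0]
    calc |s2 - s1| * AA α r t y ≤ (μ * κ / 8) * (κ / 4)⁻¹ := by gcongr
      _ = μ / 2 := by field_simp; norm_num
      _ ≤ μ := by linarith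
  have dwn : |gn α d r t y s2 - wn| ≤ μ := by
    have : gn α d r t y s2 - wn = -((s2 - s1) * HH α d r t y) := by
      rw [hwnd]
      unfold gn
      ring
    rw [this, abs_neg, abs_mul, abs_of_pos hH0]
    calc |s2 - s1| * HH α d r t y ≤ (μ * κ / 8) * 1 := by gcongr
      _ ≤ μ := by nlinarith
  set L2 : Fin m → ℝ := gL α d r t y x1 s2 t' y2 with hL2
  set l : Fin m → ℝ := el α d r w1 wn t' y1 with hl
  have hl0 : ∀ i, 0 ≤ l i := fun i => by rw [hl]; unfold el; positivity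
  have hg1 : ∀ i, gL α d r t y x1 s1 t' y1 i = LL α d r w1 wn t' y1 i := fun i => rfl
  have hle : ∀ i, |gL α d r t y x1 s1 t' y1 i| + |y0 i| ≤ 2 * l i := by
    intro i
    have := hyy i
    rw [hl, hg1]
    unfold el
    have := abs_nonneg (LL α d r w1 wn t' y1 i)
    linarith
  have hνl : ∀ i, ν ≤ 2 * l i := by
    intro i
    have e1 := hνy i
    have e2 := hle i
    have := abs_nonneg (gL α d r t y x1 s1 t' y1 i)
    linarith
  have dL : ∀ i, |L2 i - LL α d r w1 wn t' y1 i| ≤ μ * l i := by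
    intro i
    have e1 := hL i
    rw [hg1] at e1
    refine e1.trans ?_
    have e2 := hle i
    rw [hg1] at e2
    calc μ * κ / 8 * (|LL α d r w1 wn t' y1 i| + |y0 i|) ≤ μ * κ / 8 * (2 * l i) := by gcongr
      _ = μ * l i * (κ / 4) := by ring
      _ ≤ μ * l i * 1 := by
          have := hl0 i
          gcongr
          linarith
      _ = μ * l i := by ring
  -- the rows
  set yb : Fin m → ℝ := fun i => (y2 i + y1 i) / 2 with hyb
  set a3 := a3c α r (g1 α r t y x1 s2) t' y2 t' y1 with ha3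
  set c3 := c3c α d r (gn α d r t y s2) t' y2 t' y1 with hc3
  have NE := NP μ hμ0 m4 d hd0 hd1 t0 y0 hs t' y1 t' y2 t' y1 (mono hc0μ hp1) (mono hc0μ hp2)
    (mono hc0μ hp1) w1 wn (g1 α r t y x1 s2) (gn α d r t y s2) hw2 dw1 dwn L2 dL
  have NE2 : ∀ q, b ≤ q → Near q α d r w1 wn t' y1 L2 yb y1 a3 c3 := by
    intro q hq
    have e0 : C4' * μ ≤ q := by
      refine le_trans ?_ hq
      rw [hb]
      have : C4' ≤ C4 := le_max_left _ _
      gcongr
    obtain ⟨e1, e2, e3, e4, e5⟩ := NE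
    refine ⟨fun i => (e1 i).trans ?_, fun i => (e3 i).trans ?_, fun i => (e2 i).trans ?_,
      e4.trans e0, e5.trans e0⟩
    · have := hl0 i
      rw [hl] at this
      gcongr
    · gcongr
    · gcongr
  set dy : Fin m → ℝ := fun i => y2 i - y1 i with hdy
  -- the differences
  set f0 := gT α d r t y x1 s2 t' y2 - gT α d r t y x1 s1 t' y1 with hf0
  set f : Fin m → ℝ := fun i => gU α d r t y x1 x s2 t' y2 i - gU α d r t y x1 x s1 t' y1 i with hf
  have q1 : ∀ {τ : ℝ} {z : Fin m → ℝ}, Rg (κ / 4) α d r τ z → 0 < rr α r τ z := fun hz =>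
    lt_of_lt_of_le hκ4 hz.2.1
  have q2 : ∀ {τ : ℝ} {z : Fin m → ℝ}, Rg (κ / 4) α d r τ z → 0 < 1 - d ^ 2 * ss α r τ z :=
    fun hz => lt_of_lt_of_le hκ4 hz.2.2.2
  have ef0 : f0 = (s2 - s1) * Nt α d r t y t' y1 + Cot α r yb a3 c3 dy := by
    have e1 := fa_dT (d := d) h.α0 r t' y1 y2 (q1 rp1) (q1 rp2) (q2 rp1) (q2 rp2)
      (g1 α r t y x1 s2) (gn α d r t y s2)
    have e2 := fa_T α d r t y x1 s1 s2 t' y1
    have e3 : f0 = (TT α d r (g1 α r t y x1 s2) (gn α d r t y s2) t' y2 -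
        TT α d r (g1 α r t y x1 s2) (gn α d r t y s2) t' y1) +
        (gT α d r t y x1 s2 t' y1 - gT α d r t y x1 s1 t' y1) := by
      rw [hf0]
      unfold gT
      ring
    rw [e3, e1, e2]
    ring
  have ef : ∀ i, f i = (s2 - s1) * Ny α d r t y t' y1 i + Coy r L2 yb y1 a3 c3 dy i := by
    intro i
    have e1 := fa_dU h.α0 r t' y1 y2 (q1 rp1) (q1 rp2) (q2 rp1) (q2 rp2)
      (g1 α r t y x1 s2) (gn α d r t y s2) (gw y x s2) i
    have e2 := fa_U α d r t y x1 x s1 s2 t' y1 i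
    have e3 : f i = (UU α d r (g1 α r t y x1 s2) (gn α d r t y s2) (gw y x s2) t' y2 i -
        UU α d r (g1 α r t y x1 s2) (gn α d r t y s2) (gw y x s2) t' y1 i) +
        (gU α d r t y x1 x s2 t' y1 i - gU α d r t y x1 x s1 t' y1 i) := by
      rw [hf]
      simp only
      unfold gU
      ring
    rw [e3, e1, e2]
    have e4 : L2 = LL α d r (g1 α r t y x1 s2) (gn α d r t y s2) t' y2 := rfl
    rw [e4]
    ring
  set n := nn t y t' y1 with hn
  have hn0 : 0 < n := by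
    have e1 : 0 < M * ε := by positivity
    by_contra hcon
    have e2 : ν * n ≤ 0 := mul_nonpos_of_nonneg_of_nonpos hν.le (not_lt.1 hcon)
    linarith
  set F := |f0| + ∑ i, |f i| with hF
  have hF0 : 0 ≤ F := by rw [hF]; positivity
  obtain ⟨N1, N2, -, -, N5⟩ := NQ c0 hc0 (hc0μ.trans m2) d hd0 hd1 t0 y0 hs t y t' y1 hp hp1
  set S := ∑ i, |dy i| * l i with hS
  have hS0 : 0 ≤ S := Finset.sum_nonneg fun i _ => mul_nonneg (abs_nonneg _) (hl0 i)
  -- (4)
  have I1 : S ≤ C1 * (F + A2 * (n * |s2 - s1|)) := by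
    have e1 := SV d hd0 hd1 t' y1 w1 wn rp1 (by linarith) (by
      refine hw2.trans ?_
      exact inv_anti₀ hκ4 (by linarith)) L2 yb y1 a3 c3 (NE2 k1 hb1) dy
    refine e1.trans (mul_le_mul_of_nonneg_left ?_ hC1.le)
    have e2 : |Cot α r yb a3 c3 dy| ≤ |f0| + |s2 - s1| * (C2 * n) := by
      have : Cot α r yb a3 c3 dy = f0 - (s2 - s1) * Nt α d r t y t' y1 := by
        rw [ef0]
        ring
      rw [this]
      refine (abs_sub _ _).trans ?_
      rw [abs_mul]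
      gcongr
    have e3 : ∀ k, |Coy r L2 yb y1 a3 c3 dy k| ≤ |f k| + |s2 - s1| * (C2 * n) := by
      intro k
      have : Coy r L2 yb y1 a3 c3 dy k = f k - (s2 - s1) * Ny α d r t y t' y1 k := by
        rw [ef]
        ring
      rw [this]
      refine (abs_sub _ _).trans ?_
      rw [abs_mul]
      have := N2 k
      gcongr
    calc |Cot α r yb a3 c3 dy| + ∑ k, |Coy r L2 yb y1 a3 c3 dy k|
        ≤ (|f0| + |s2 - s1| * (C2 * n)) + ∑ k, (|f k| + |s2 - s1| * (C2 * n)) :=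
          add_le_add e2 (Finset.sum_le_sum fun k _ => e3 k)
      _ = F + A2 * (n * |s2 - s1|) := by
          rw [Finset.sum_add_distrib, Finset.sum_const, Finset.card_univ, Fintype.card_fin,
            nsmul_eq_mul, hF, hA2]
          ring
  -- (5)
  have I2 : c * n ^ 2 * |s2 - s1| ≤ F * n + η * n * S := by
    set Q := Nt α d r t y t' y1 * (t - t') + ∑ i, Ny α d r t y t' y1 i * (y i - y1 i) with hQ
    have e1 := row_cot h.α0 r L2 yb y1 a3 c3 (t - t') (fun i => y i - y1 i) dy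
    have e2 : (s2 - s1) * Q = f0 * (t - t') + ∑ i, f i * (y i - y1 i) -
        ∑ i, dy i * Row α r L2 yb y1 a3 c3 (t - t') (fun i => y i - y1 i) i := by
      rw [e1, ef0]
      simp only [ef]
      rw [hQ]
      have e3 : ∑ i, ((s2 - s1) * Ny α d r t y t' y1 i + Coy r L2 yb y1 a3 c3 dy i) *
          (y i - y1 i) = (s2 - s1) * ∑ i, Ny α d r t y t' y1 i * (y i - y1 i) +
            ∑ i, Coy r L2 yb y1 a3 c3 dy i * (y i - y1 i) := by
        rw [Finset.mul_sum, ← Finset.sum_add_distrib]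
        exact Finset.sum_congr rfl fun i _ => by ring
      rw [e3]
      ring
    have e4 : |t - t'| ≤ n := by
      rw [hn]
      unfold nn
      rw [abs_sub_comm]
      have : 0 ≤ ∑ i, |y1 i - y i| := Finset.sum_nonneg fun i _ => abs_nonneg _
      linarith
    have e5 : ∀ i, |y i - y1 i| ≤ n := by
      intro i
      rw [hn]
      unfold nn
      rw [abs_sub_comm (y i)]
      have := Finset.single_le_sum (f := fun i => |y1 i - y i|) (fun i _ => abs_nonneg _)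
        (Finset.mem_univ i)
      have := abs_nonneg (t' - t)
      linarith
    have e6 : ∀ i, |Row α r L2 yb y1 a3 c3 (t - t') (fun i => y i - y1 i) i| ≤ η * n * l i := by
      intro i
      have c1 := CH b hb0 hb5 d hd0 hd1 t0 y0 hs t' y1 t y (mono (hc0μ.trans hμb) hp1)
        (mono (hc0μ.trans hμb) hp) w1 (gw y x s1) wn hw2 ε hU1 hU L2 yb y1 a3 c3
        (NE2 b le_rfl) i
      refine c1.trans ?_
      rw [fa_nn_comm, ← hn]
      have e7 : ε ≤ ν * n / M := by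
        rw [le_div_iff₀ (by linarith)]
        linarith
      have e8 : ν * n / M ≤ (2 * l i) * n / M := by
        have := hνl i
        gcongr
      have e9 : 2 * ε ≤ 4 / M * n * l i := by
        have : 4 / M * n * l i = 2 * ((2 * l i) * n / M) := by ring
        rw [this]
        linarith
      have e10 : el α d r w1 wn t' y1 i = l i := rfl
      rw [e10, hη]
      calc 2 * ε + C5 * b * l i * n ≤ 4 / M * n * l i + C5 * b * l i * n := by linarith
        _ = (4 / M + C5 * b) * n * l i := by ring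
    have e11 : c * n ^ 2 * |s2 - s1| ≤ |(s2 - s1) * Q| := by
      rw [abs_mul, mul_comm |s2 - s1|]
      have : |Q| = Q := abs_of_nonneg (le_trans (by positivity) N5)
      rw [this]
      gcongr
    refine e11.trans ?_
    rw [e2]
    have e12 : |f0 * (t - t') + ∑ i, f i * (y i - y1 i)| ≤ F * n := by
      refine (abs_add_le _ _).trans ?_
      rw [abs_mul, hF, add_mul, Finset.sum_mul]
      refine add_le_add (by gcongr) ((Finset.abs_sum_le_sum_abs _ _).trans ?_)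
      refine Finset.sum_le_sum fun i _ => ?_
      rw [abs_mul]
      have := e5 i
      gcongr
    have e13 : |∑ i, dy i * Row α r L2 yb y1 a3 c3 (t - t') (fun i => y i - y1 i) i| ≤
        η * n * S := by
      refine (Finset.abs_sum_le_sum_abs _ _).trans ?_
      rw [hS, Finset.mul_sum]
      refine Finset.sum_le_sum fun i _ => ?_
      rw [abs_mul]
      calc |dy i| * |Row α r L2 yb y1 a3 c3 (t - t') (fun i => y i - y1 i) i|
          ≤ |dy i| * (η * n * l i) := by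
            have := e6 i
            gcongr
        _ = η * n * (|dy i| * l i) := by ring
    exact (abs_sub _ _).trans (add_le_add e12 e13)
  obtain ⟨J1, J2⟩ := fa_alg hc hn0 hC1.le hA20.le hη0 I1 I2 hηG hS0
  have J3 : ∑ i, (|gL α d r t y x1 s1 t' y1 i| + |y0 i|) * |y2 i - y1 i| ≤ 2 * S := by
    rw [hS, Finset.mul_sum]
    refine Finset.sum_le_sum fun i _ => ?_
    have := hle i
    calc (|gL α d r t y x1 s1 t' y1 i| + |y0 i|) * |y2 i - y1 i| ≤ 2 * l i * |y2 i - y1 i| := by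
          gcongr
      _ = 2 * (|dy i| * l i) := by rw [hdy]; ring
  calc n * |s2 - s1| + ∑ i, (|gL α d r t y x1 s1 t' y1 i| + |y0 i|) * |y2 i - y1 i|
      ≤ (1 + η * K3) / c * F + 2 * (K3 * F) := by
        refine add_le_add J2 (J3.trans ?_)
        linarith
    _ = (2 * K3 + (1 + η * K3) / c) * F := by ring

end Pool.Agent.LQN
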