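import Pool.Agent.LQN.KB
import Pool.Agent.LQN.NQ
import Pool.Agent.LQN.FARI
import Pool.Agent.LQN.G1

/-!
LQN, row FARS: the inner integral, far from the diagonal.
-/

set_option autoImplicit false

namespace Pool.Agent.LQN

open MeasureTheory Set
open scoped ENNReal NNReal

variable {m : ℕ}

/-- The index of a piece. -/
noncomputable def ix (α d : ℝ) (r : Fin m → ℝ) (t : ℝ) (y : Fin m → ℝ) (y0 : Fin m → ℝ)
    (x1 R δ s t' : ℝ) (y' : Fin m → ℝ) : ℤ × (Fin m → ℤ) :=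
  (⌊s / R / δ⌋, fun i => ⌊Real.arsinh (gL α d r t y x1 s t' y' i / R / |y0 i|) / δ⌋)

theorem m_ix (α d : ℝ) (r : Fin m → ℝ) (t : ℝ) (y : Fin m → ℝ) (y0 : Fin m → ℝ) (x1 R δ : ℝ) :
    Measurable fun q : ℝ × (ℝ × (Fin m → ℝ)) => ix α d r t y y0 x1 R δ q.1 q.2.1 q.2.2 := by
  unfold ix
  refine Measurable.prodMk ?_ ?_
  · exact Int.measurable_floor.comp (by fun_prop)
  · refine measurable_pi_lambda _ fun i => ?_
    refine Int.measurable_floor.comp ?_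
    have h1 := m_gL α d r t y x1 i
    have h2 : Measurable fun q : ℝ × (ℝ × (Fin m → ℝ)) =>
        Real.arsinh (gL α d r t y x1 q.1 q.2.1 q.2.2 i / R / |y0 i|) :=
      Real.continuous_arsinh.measurable.comp (by fun_prop)
    fun_prop

/-- Two points of one piece. -/
theorem ix_close {α d : ℝ} {r : Fin m → ℝ} {t : ℝ} {y : Fin m → ℝ} {y0 : Fin m → ℝ}
    {x1 R δ s1 s2 t1 t2 : ℝ} {z1 z2 : Fin m → ℝ} (hδ : 0 < δ) (hδ1 : δ ≤ 1)
    (hy0 : ∀ i, y0 i ≠ 0)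
    (h : ix α d r t y y0 x1 R δ s1 t1 z1 = ix α d r t y y0 x1 R δ s2 t2 z2) :
    |s2 / R - s1 / R| ≤ δ ∧ ∀ i, |gL α d r t y x1 s2 t2 z2 i / R - gL α d r t y x1 s1 t1 z1 i / R| ≤
      2 * δ * (|gL α d r t y x1 s1 t1 z1 i / R| + |y0 i|) := by
  unfold ix at h
  rw [Prod.mk.injEq] at h
  refine ⟨floor_close hδ h.1.symm, fun i => ?_⟩
  have h1 := congrFun h.2 i
  have h2 := ars_close hδ1 (floor_close hδ h1.symm)
  have hy : 0 < |y0 i| := abs_pos.2 (hy0 i)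
  rw [← sub_div, abs_div, abs_abs, abs_div (gL α d r t y x1 s1 t1 z1 i / R), abs_abs,
    div_le_iff₀ hy] at h2
  calc _ ≤ _ := h2
    _ = _ := by field_simp; ring

/-- The number of pieces. -/
theorem ix_mem {K1 K2 δ : ℝ} (hδ : 0 < δ) (hK1 : 0 ≤ K1) (hK2 : 0 ≤ K2) :
    ∃ C : ℝ, 0 < C ∧ ∀ R : ℝ, 1 ≤ R → ∃ P : Finset (ℤ × (Fin m → ℤ)),
      (P.card : ℝ) ≤ C * (1 + Real.log R) ^ m ∧
      ∀ (α d : ℝ) (r : Fin m → ℝ) (t : ℝ) (y : Fin m → ℝ) (y0 : Fin m → ℝ) (x1 s t' : ℝ)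
        (y' : Fin m → ℝ), (∀ i, 1 ≤ R * y0 i ^ 2) → |s / R| ≤ K1 →
        (∀ i, |gL α d r t y x1 s t' y' i / R| ≤ K2) → ix α d r t y y0 x1 R δ s t' y' ∈ P := by
  set K3 : ℝ := Real.log (1 + 2 * K2) + 1 with hK3
  have hK3' : 0 ≤ Real.log (1 + 2 * K2) := Real.log_nonneg (by linarith)
  refine ⟨(2 * (K1 / δ) + 3) * (2 * (K3 / δ) + 3) ^ m, by positivity, fun R hR => ?_⟩
  have hl : 0 ≤ Real.log R := Real.log_nonneg hR
  have hR0 : 0 < R := by linarith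
  set K4 : ℝ := K3 * (1 + Real.log R) with hK4
  have hK30 : 0 ≤ K3 := by rw [hK3]; linarith
  have hK40 : 0 ≤ K4 := by rw [hK4]; positivity
  refine ⟨Finset.Icc (-(⌈K1 / δ⌉)) ⌈K1 / δ⌉ ×ˢ
    Fintype.piFinset fun _ => Finset.Icc (-(⌈K4 / δ⌉)) ⌈K4 / δ⌉, ?_, ?_⟩
  · rw [Finset.card_product, Fintype.card_piFinset]
    simp only [Finset.prod_const, Finset.card_univ, Fintype.card_fin]
    push_cast
    have h1 := icc_card hδ hK1
    have h2 := icc_card hδ hK40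
    have h3 : 2 * (K4 / δ) + 3 ≤ (2 * (K3 / δ) + 3) * (1 + Real.log R) := by
      rw [hK4]
      have : 2 * (K3 * (1 + Real.log R) / δ) = 2 * (K3 / δ) * (1 + Real.log R) := by ring
      rw [this, add_mul]
      linarith
    calc ((Finset.Icc (-(⌈K1 / δ⌉)) ⌈K1 / δ⌉).card : ℝ) *
          ((Finset.Icc (-(⌈K4 / δ⌉)) ⌈K4 / δ⌉).card : ℝ) ^ m
        ≤ (2 * (K1 / δ) + 3) * ((2 * (K3 / δ) + 3) * (1 + Real.log R)) ^ m := by
          gcongr
          exact h2.trans h3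
      _ = _ := by rw [mul_pow]; ring
  · intro α d r t y y0 x1 s t' y' hy0 hs hL
    rw [Finset.mem_product, Fintype.mem_piFinset]
    refine ⟨floor_mem hδ hs, fun i => floor_mem hδ ?_⟩
    have hy : 0 < |y0 i| := by
      refine abs_pos.2 fun h0 => ?_
      have := hy0 i
      rw [h0] at this
      norm_num at this
    have h1 : |y0 i|⁻¹ ≤ R := by
      have h2 := hy0 i
      rw [← sq_abs] at h2
      rw [inv_le_comm₀ hy hR0]
      have h3 : R⁻¹ ≤ |y0 i| ^ 2 := by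
        rw [inv_le_iff_one_le_mul₀ hR0]
        linarith
      by_contra h4
      push Not at h4
      have h5 : R⁻¹ ≤ 1 := inv_le_one_of_one_le₀ hR
      have h6 : |y0 i| ^ 2 < R⁻¹ * 1 := by
        rw [sq]
        exact mul_lt_mul'' h4 (h4.trans_le h5) hy.le hy.le
      linarith
    have h2 : abs (gL α d r t y x1 s t' y' i / R / |y0 i|) ≤ K2 * R := by
      rw [abs_div, abs_abs, div_eq_mul_inv]
      exact mul_le_mul (hL i) h1 (by positivity) hK2
    refine (ars_le h2).trans ?_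
    have h3 : 1 + 2 * (K2 * R) ≤ (1 + 2 * K2) * R := by nlinarith
    have h4 : Real.log (1 + 2 * (K2 * R)) ≤ Real.log ((1 + 2 * K2) * R) :=
      Real.log_le_log (by positivity) h3
    rw [Real.log_mul (by positivity) hR0.ne'] at h4
    rw [hK4, hK3]
    nlinarith [mul_nonneg hK3' hl]

/-- ROW FARS. -/
theorem fars {α : ℝ} {r : Fin m → ℝ} (hm : 1 ≤ m) (h : Hyp α r) {κ : ℝ} (hκ : 0 < κ)
    (hκ1 : κ ≤ 1) : ∃ C M c1 : ℝ, 0 < C ∧ 1 ≤ M ∧ 0 < c1 ∧ ∀ c0, 0 < c0 → c0 ≤ c1 →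
      ∀ d, 0 ≤ d → d ≤ 1 → ∀ t0 y0, Rg κ α d r t0 y0 → ∀ ν, 0 < ν → (∀ i, ν ≤ |y0 i|) →
      ∀ R Λ, 1 ≤ R → 1 ≤ R * ν ^ 2 → 0 < Λ → ∀ t y t', Bx c0 t0 y0 t y →
      |t' - t0| ≤ c0 → ∀ ρ, M * Λ ≤ R * ν * ρ → ∀ (x1 : ℝ) (x : Fin m → ℝ),
      (∀ i, |x i - y i * (r i * (x1 / AA α r t y))| ≤ Λ) → ∀ g : ℝ → ℝ≥0∞, Measurable g →
      ∫⁻ s : ℝ, ∫⁻ y' : Fin m → ℝ, ({y' | (∀ i, |y' i - y0 i| ≤ c0 * |y0 i|) ∧
          ρ ≤ nn t y t' y' ∧ WA R (g1 α r t y x1 s) (gw y x s) (gn α d r t y s) ∧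
          ∀ i, |gU α d r t y x1 x s t' y' i| ≤ Λ}.indicator
          fun y' => g (gT α d r t y x1 s t' y')) y' ≤
        ENNReal.ofReal (C * (1 + Real.log R) ^ m * Λ ^ m / (R ^ m * ν * ρ)) * ∫⁻ τ, g τ := by
  classical
  obtain ⟨cb, hcb, hcb8, BX⟩ := box_sub h hκ hκ1
  have hκ4 : 0 < κ / 4 := by positivity
  have hκ41 : κ / 4 ≤ 1 := by linarith
  obtain ⟨cw, hcw, W1⟩ := row_W1 (α := α) (r := r) hκ4 hκ41
  set κ2 : ℝ := min (κ / 4) (min cw (1 / 8)) with hκ2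
  have hκ2p : 0 < κ2 := lt_min hκ4 (lt_min hcw (by norm_num))
  have hκ24 : κ2 ≤ κ / 4 := min_le_left _ _
  have hκ2w : κ2 ≤ cw := (min_le_right _ _).trans (min_le_left _ _)
  have hκ28 : κ2 ≤ 1 / 8 := (min_le_right _ _).trans (min_le_right _ _)
  have hκ21 : κ2 ≤ 1 := by linarith
  have hκ2i : 8 ≤ κ2⁻¹ := by
    rw [le_inv_comm₀ (by norm_num) hκ2p]
    linarith
  obtain ⟨C0, M0, cf, hC0, hM0, hcf, FI⟩ := fari h hκ2p hκ21
  obtain ⟨cp, hcp, hcp1, PE⟩ := pel hm h hκ2p hκ21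
  set δ : ℝ := min (cf / 2) (1 / 4) with hδ
  have hδ0 : 0 < δ := lt_min (by positivity) (by norm_num)
  have hδf : 2 * δ ≤ cf := by
    have : δ ≤ cf / 2 := min_le_left _ _
    linarith
  have hδ4 : δ ≤ 1 / 4 := min_le_right _ _
  -- constants
  set KL : ℝ := ∑ i, (1 + |r i|) * κ2⁻¹ * 8 with hKL
  have hKLi : ∀ i, (1 + |r i|) * κ2⁻¹ * 8 ≤ KL := fun i =>
    Finset.single_le_sum (f := fun i => (1 + |r i|) * κ2⁻¹ * 8) (fun i _ => by positivity)
      (Finset.mem_univ i)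
  have hKL0 : 0 ≤ KL := Finset.sum_nonneg fun i _ => by positivity
  set Ks : ℝ := 4 * κ2⁻¹ with hKs
  obtain ⟨CP, hCP, IX⟩ := ix_mem (m := m) hδ0 (by positivity : 0 ≤ Ks) hKL0
  set Kn : ℝ := 2 + 2 * m * κ⁻¹ with hKn
  have hKn0 : 0 < Kn := by positivity
  set M : ℝ := max M0 (κ⁻¹ * Kn / cw) with hM
  have hMM0 : M0 ≤ M := le_max_left _ _
  have hM1 : 1 ≤ M := hM0.trans hMM0
  set c : ℝ := 1 / (2 * C0 * (m + 1)) with hc
  have hc0' : 0 < c := by positivity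
  refine ⟨CP * ((1 / c) ^ (m + 1) / cp ^ m * 2 ^ m), M, min cf (min cb 1), by positivity, hM1,
    lt_min hcf (lt_min hcb one_pos), ?_⟩
  intro c0 hc0 hc01 d hd0 hd1 t0 y0 hRg ν hν hνy R Λ hR hRν hΛ t y t' hp ht' ρ hρ x1 x hx g hg
  have hc0f : c0 ≤ cf := hc01.trans (min_le_left _ _)
  have hc0b : c0 ≤ cb := hc01.trans ((min_le_right _ _).trans (min_le_left _ _))
  have hc0one : c0 ≤ 1 := hc01.trans ((min_le_right _ _).trans (min_le_right _ _))
  have hR0 : 0 < R := by linarith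
  have hy0 : ∀ i, y0 i ≠ 0 := fun i h0 => by
    have := hνy i
    rw [h0, abs_zero] at this
    linarith
  have hρ0 : 0 < ρ := by
    by_contra h1
    push Not at h1
    have h2 : R * ν * ρ ≤ 0 := mul_nonpos_of_nonneg_of_nonpos (by positivity) h1
    have h3 : 0 < M * Λ := by positivity
    linarith
  have hl : 0 ≤ Real.log R := Real.log_nonneg hR
  obtain ⟨P, hPc, hPm⟩ := IX R hR
  -- regions
  have hbx : ∀ {τ z}, Bx c0 t0 y0 τ z → Bx cb t0 y0 τ z := fun {τ z} hz =>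
    ⟨hz.1.trans hc0b, fun i => (hz.2 i).trans (by gcongr)⟩
  have hrg : ∀ {τ z}, Bx c0 t0 y0 τ z → Rg (κ / 4) α d r τ z := fun {τ z} hz =>
    BX d hd0 hd1 t0 y0 τ z hRg (hbx hz)
  have hrg2 : ∀ {τ z}, Bx c0 t0 y0 τ z → Rg κ2 α d r τ z := fun {τ z} hz =>
    (hrg hz).mono hκ2p hκ24
  have hRg2 : Rg κ2 α d r t0 y0 := hRg.mono hκ2p (by linarith)
  have hA := (hrg hp).A_ge hκ4 hκ41
  have hH := (hrg hp).H_ge hκ4 hκ41
  have hA0 : 0 < AA α r t y := hκ4.trans_le hA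
  have hH0 : 0 < HH α d r t y := hκ4.trans_le hH
  -- the set
  set S : Set (ℝ × (Fin m → ℝ)) := {q | (∀ i, |q.2 i - y0 i| ≤ c0 * |y0 i|) ∧
    ρ ≤ nn t y t' q.2 ∧ WA R (g1 α r t y x1 q.1) (gw y x q.1) (gn α d r t y q.1) ∧
    ∀ i, |gU α d r t y x1 x q.1 t' q.2 i| ≤ Λ} with hS
  have mι : Measurable fun q : ℝ × (Fin m → ℝ) => ((q.1, (t', q.2)) : ℝ × (ℝ × (Fin m → ℝ))) := by
    fun_prop
  have mS : MeasurableSet S := by
    have h1 : MeasurableSet {q : ℝ × (Fin m → ℝ) | ∀ i, |q.2 i - y0 i| ≤ c0 * |y0 i|} :=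
      measurable_snd (m_box c0 y0)
    have h2 : MeasurableSet {q : ℝ × (Fin m → ℝ) | ρ ≤ nn t y t' q.2} :=
      measurableSet_le measurable_const
        ((m_nn t y).comp (by fun_prop : Measurable fun q : ℝ × (Fin m → ℝ) => (t', q.2)))
    have h3 : MeasurableSet {q : ℝ × (Fin m → ℝ) |
        WA R (g1 α r t y x1 q.1) (gw y x q.1) (gn α d r t y q.1)} :=
      measurable_fst (m_WA α d r t y x1 x R)
    have h4 : MeasurableSet {q : ℝ × (Fin m → ℝ) | ∀ i, |gU α d r t y x1 x q.1 t' q.2 i| ≤ Λ} := by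
      have : {q : ℝ × (Fin m → ℝ) | ∀ i, |gU α d r t y x1 x q.1 t' q.2 i| ≤ Λ} =
          ⋂ i, {q : ℝ × (Fin m → ℝ) | |gU α d r t y x1 x q.1 t' q.2 i| ≤ Λ} := by
        ext q
        simp
      rw [this]
      refine MeasurableSet.iInter fun i => ?_
      exact measurableSet_le (((m_gU α d r t y x1 x i).comp mι).abs) measurable_const
    exact h1.inter (h2.inter (h3.inter h4))
  -- facts at a point of `S`
  have hΛR : S.Nonempty → Λ / R ≤ cw := by
    rintro ⟨q, hq⟩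
    have h1 : nn t y t' q.2 ≤ Kn := by
      unfold nn
      have h2 : |t' - t| ≤ 2 := by
        have e1 := abs_le.1 ht'
        have e2 := abs_le.1 hp.1
        rw [abs_le]
        constructor <;> linarith
      have h3 : ∀ i, |q.2 i - y i| ≤ 2 * κ⁻¹ := by
        intro i
        have e1 := hq.1 i
        have e2 := hp.2 i
        have e3 : |y0 i| ≤ κ⁻¹ := hRg.1 i
        have e4 : c0 * |y0 i| ≤ 1 * κ⁻¹ := by gcongr
        have e5 := abs_le.1 e1
        have e6 := abs_le.1 e2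
        rw [abs_le]
        constructor <;> linarith
      have h4 : ∑ i, |q.2 i - y i| ≤ ∑ _i : Fin m, 2 * κ⁻¹ := Finset.sum_le_sum fun i _ => h3 i
      rw [Finset.sum_const, Finset.card_univ, Fintype.card_fin, nsmul_eq_mul] at h4
      rw [hKn]
      linarith
    have h2 : ν ≤ κ⁻¹ := (hνy ⟨0, hm⟩).trans (hRg.1 _)
    have h3 : M * Λ ≤ R * κ⁻¹ * Kn := by
      refine hρ.trans ?_
      have : ρ ≤ Kn := hq.2.1.trans h1
      gcongr
    have h4 : κ⁻¹ * Kn / cw ≤ M := le_max_right _ _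
    rw [div_le_iff₀ hR0]
    have h5 : κ⁻¹ * Kn / cw * Λ ≤ M * Λ := by gcongr
    have h6 : κ⁻¹ * Kn / cw * Λ ≤ R * κ⁻¹ * Kn := h5.trans h3
    rw [div_mul_eq_mul_div, div_le_iff₀ hcw] at h6
    have h7 : 0 < κ⁻¹ * Kn := by positivity
    have h8 : κ⁻¹ * Kn * Λ ≤ κ⁻¹ * Kn * (cw * R) := by linarith
    exact le_of_mul_le_mul_left h8 h7
  have hpt : ∀ q ∈ S, κ2 ≤ |g1 α r t y (x1 / R) (q.1 / R)| + |gn α d r t y (q.1 / R)| ∧
      |g1 α r t y (x1 / R) (q.1 / R)| + |gn α d r t y (q.1 / R)| ≤ 8 ∧ |q.1 / R| ≤ Ks ∧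
      ∀ i, |gL α d r t y x1 q.1 t' q.2 i / R| ≤ KL := by
    intro q hq
    have e1 := hΛR ⟨q, hq⟩
    have hqb : Bx c0 t0 y0 t' q.2 := ⟨ht', hq.1⟩
    have hw := ww_sc α d r t y x1 x q.1 R
    have hw1 : 1 / 16 ≤ ww (g1 α r t y (x1 / R) (q.1 / R)) (gw y (fun i => x i / R) (q.1 / R))
        (gn α d r t y (q.1 / R)) := by
      rw [hw, le_div_iff₀ (by positivity)]
      have := hq.2.2.1.1
      nlinarith [sq_nonneg R]
    have hw2 : ww (g1 α r t y (x1 / R) (q.1 / R)) (gw y (fun i => x i / R) (q.1 / R))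
        (gn α d r t y (q.1 / R)) ≤ 4 ^ 2 := by
      rw [hw, div_le_iff₀ (by positivity)]
      have := hq.2.2.1.2
      linarith
    obtain ⟨h5, h6⟩ := kb_ww_le (by norm_num) hw2
    have h1 := W1 d hd0 hd1 t' q.2 _ _ _ (hrg hqb) hw1 (fun i => by
      have := gU_sc α d r t y x1 x q.1 t' q.2 R i
      unfold gU at this
      rw [this, abs_div, abs_of_pos hR0]
      exact le_trans (div_le_div_of_nonneg_right (hq.2.2.2 i) hR0.le) e1)
    refine ⟨hκ2w.trans h1, by linarith, ?_, fun i => ?_⟩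
    · have h7 : |gn α d r t y (q.1 / R)| = |q.1 / R| * HH α d r t y := by
        unfold gn
        rw [abs_neg, abs_mul, abs_of_pos hH0]
      rw [h7] at h6
      have h8 : κ2 ≤ HH α d r t y := hκ24.trans hH
      rw [hKs, ← div_eq_mul_inv, le_div_iff₀ hκ2p]
      calc |q.1 / R| * κ2 ≤ |q.1 / R| * HH α d r t y := by gcongr
        _ ≤ 4 := h6
    · rw [← gL_sc]
      unfold gL
      refine (kb_LL_le hκ2p hκ21 (hrg2 hqb) _ _ i).trans ((mul_le_mul_of_nonneg_left ?_ (by positivity)).trans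
        (hKLi i))
      linarith
  -- the lower bound on one piece
  have low : ∀ q1 ∈ S, ∀ q2 ∈ S, ix α d r t y y0 x1 R δ q1.1 t' q1.2 =
      ix α d r t y y0 x1 R δ q2.1 t' q2.2 →
      ρ * |q2.1 - q1.1| + ∑ i, (|gL α d r t y x1 q1.1 t' q1.2 i| + R * |y0 i|) *
        |q2.2 i - q1.2 i| ≤ C0 * (|gT α d r t y x1 q2.1 t' q2.2 - gT α d r t y x1 q1.1 t' q1.2| +
          ∑ i, |gU α d r t y x1 x q2.1 t' q2.2 i - gU α d r t y x1 x q1.1 t' q1.2 i|) := by
    intro q1 hq1 q2 hq2 hq12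
    obtain ⟨i1, i2⟩ := ix_close hδ0 (by linarith) hy0 hq12
    obtain ⟨p1, p2, -, -⟩ := hpt q1 hq1
    have hb1 : Bx c0 t0 y0 t' q1.2 := ⟨ht', hq1.1⟩
    have hb2 : Bx c0 t0 y0 t' q2.2 := ⟨ht', hq2.1⟩
    have h1 := FI c0 hc0 hc0f d hd0 hd1 t0 y0 hRg2 ν hν hνy t y t' q1.2 q2.2 hp hb1 hb2 (x1 / R)
      (fun i => x i / R) (q1.1 / R) (q2.1 / R) (Λ / R) (by positivity) p1 (p2.trans hκ2i)
      (fun i => by
        rw [gU_sc, gU_self hA0.ne' hH0.ne', abs_div, abs_of_pos hR0]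
        exact div_le_div_of_nonneg_right (hx i) hR0.le)
      (fun i => by
        rw [gU_sc, abs_div, abs_of_pos hR0]
        exact div_le_div_of_nonneg_right (hq1.2.2.2 i) hR0.le)
      (by
        have h2 : M0 * Λ ≤ R * ν * nn t y t' q1.2 := by
          calc M0 * Λ ≤ M * Λ := by gcongr
            _ ≤ R * ν * ρ := hρ
            _ ≤ R * ν * nn t y t' q1.2 := by
                have := hq1.2.1
                gcongr
        rw [← mul_div_assoc, div_le_iff₀ hR0]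
        linarith)
      (i1.trans (by linarith))
      (fun i => by
        rw [gL_sc, gL_sc]
        refine (i2 i).trans ?_
        gcongr)
    simp only [gL_sc, gT_sc, gU_sc] at h1
    have e1 : ∀ a b : ℝ, |a / R - b / R| = |a - b| / R := fun a b => by
      rw [← sub_div, abs_div, abs_of_pos hR0]
    have e2 : ∀ a : ℝ, |a / R| = |a| / R := fun a => by rw [abs_div, abs_of_pos hR0]
    simp only [e1, e2] at h1
    rw [← Finset.sum_div, ← add_div, ← mul_div_assoc, ← mul_div_assoc] at h1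
    have e3 : ∑ i, (|gL α d r t y x1 q1.1 t' q1.2 i| / R + |y0 i|) * |q2.2 i - q1.2 i| =
        (∑ i, (|gL α d r t y x1 q1.1 t' q1.2 i| + R * |y0 i|) * |q2.2 i - q1.2 i|) / R := by
      rw [Finset.sum_div]
      refine Finset.sum_congr rfl fun i _ => ?_
      field_simp
    rw [e3, ← add_div, div_le_div_iff_of_pos_right hR0] at h1
    refine le_trans ?_ h1
    have h2 : ρ * |q2.1 - q1.1| ≤ nn t y t' q1.2 * |q2.1 - q1.1| := by
      have := hq1.2.1
      gcongr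
    linarith
  -- the map
  set Φ : ℝ × (Fin m → ℝ) → ℝ × (Fin m → ℝ) := fun q =>
    (gT α d r t y x1 q.1 t' q.2, fun i => gU α d r t y x1 x q.1 t' q.2 i) with hΦ
  have mT : Measurable fun q : ℝ × (Fin m → ℝ) => gT α d r t y x1 q.1 t' q.2 :=
    (m_gT α d r t y x1).comp mι
  have mΦ : Measurable Φ := mT.prodMk (measurable_pi_lambda _ fun i =>
    (m_gU α d r t y x1 x i).comp mι)
  have hΦn : ∀ q1 q2, |gT α d r t y x1 q2.1 t' q2.2 - gT α d r t y x1 q1.1 t' q1.2| +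
      ∑ i, |gU α d r t y x1 x q2.1 t' q2.2 i - gU α d r t y x1 x q1.1 t' q1.2 i| ≤
      (m + 1) * ‖Φ q1 - Φ q2‖ := by
    intro q1 q2
    have h1 : |gT α d r t y x1 q2.1 t' q2.2 - gT α d r t y x1 q1.1 t' q1.2| ≤ ‖Φ q1 - Φ q2‖ := by
      rw [abs_sub_comm]
      exact norm_fst_le (Φ q1 - Φ q2)
    have h2 : ∀ i, |gU α d r t y x1 x q2.1 t' q2.2 i - gU α d r t y x1 x q1.1 t' q1.2 i| ≤
        ‖Φ q1 - Φ q2‖ := by
      intro i
      rw [abs_sub_comm]
      exact (norm_le_pi_norm (Φ q1 - Φ q2).2 i).trans (norm_snd_le (Φ q1 - Φ q2))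
    have h3 : ∑ i, |gU α d r t y x1 x q2.1 t' q2.2 i - gU α d r t y x1 x q1.1 t' q1.2 i| ≤
        ∑ _i : Fin m, ‖Φ q1 - Φ q2‖ := Finset.sum_le_sum fun i _ => h2 i
    rw [Finset.sum_const, Finset.card_univ, Fintype.card_fin, nsmul_eq_mul] at h3
    linarith
  set G : ℝ × (Fin m → ℝ) → ℝ≥0∞ := fun u =>
    g u.1 * {v : Fin m → ℝ | ∀ i, |v i| ≤ Λ}.indicator 1 u.2 with hG
  have mcube : MeasurableSet {v : Fin m → ℝ | ∀ i, |v i| ≤ Λ} := by
    have : {v : Fin m → ℝ | ∀ i, |v i| ≤ Λ} = ⋂ i, {v : Fin m → ℝ | |v i| ≤ Λ} := by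
      ext v
      simp
    rw [this]
    exact MeasurableSet.iInter fun i => measurableSet_le (by fun_prop) measurable_const
  have mI : Measurable ({v : Fin m → ℝ | ∀ i, |v i| ≤ Λ}.indicator (1 : (Fin m → ℝ) → ℝ≥0∞)) :=
    measurable_one.indicator mcube
  have mG : Measurable G := (hg.comp measurable_fst).mul (mI.comp measurable_snd)
  have hGint : ∫⁻ u, G u = (∫⁻ τ, g τ) * ENNReal.ofReal ((2 * Λ) ^ m) := by
    rw [← vol_cube hΛ.le, ← lintegral_indicator_one mcube, Measure.volume_eq_prod]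
    exact lintegral_prod_mul hg.aemeasurable mI.aemeasurable
  -- the left side
  have hlhs : ∫⁻ s : ℝ, ∫⁻ y' : Fin m → ℝ, ({y' | (∀ i, |y' i - y0 i| ≤ c0 * |y0 i|) ∧
          ρ ≤ nn t y t' y' ∧ WA R (g1 α r t y x1 s) (gw y x s) (gn α d r t y s) ∧
          ∀ i, |gU α d r t y x1 x s t' y' i| ≤ Λ}.indicator
          fun y' => g (gT α d r t y x1 s t' y')) y' = ∫⁻ q in S, G (Φ q) := by
    have hpr := lintegral_prod (μ := (volume : Measure ℝ)) (ν := (volume : Measure (Fin m → ℝ)))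
      (S.indicator fun q => G (Φ q)) ((mG.comp mΦ).indicator mS).aemeasurable
    rw [← lintegral_indicator mS, Measure.volume_eq_prod, hpr]
    refine lintegral_congr fun s => lintegral_congr fun y' => ?_
    by_cases hq : (s, y') ∈ S
    · rw [indicator_of_mem hq, indicator_of_mem (show y' ∈ {y' | (∀ i, |y' i - y0 i| ≤ c0 * |y0 i|) ∧
          ρ ≤ nn t y t' y' ∧ WA R (g1 α r t y x1 s) (gw y x s) (gn α d r t y s) ∧
          ∀ i, |gU α d r t y x1 x s t' y' i| ≤ Λ} from hq), hG]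
      simp only [hΦ]
      rw [indicator_of_mem (show (fun i => gU α d r t y x1 x s t' y' i) ∈
        {v : Fin m → ℝ | ∀ i, |v i| ≤ Λ} from hq.2.2.2), Pi.one_apply, mul_one]
    · rw [indicator_of_notMem hq, indicator_of_notMem (show y' ∉ {y' |
          (∀ i, |y' i - y0 i| ≤ c0 * |y0 i|) ∧
          ρ ≤ nn t y t' y' ∧ WA R (g1 α r t y x1 s) (gw y x s) (gn α d r t y s) ∧
          ∀ i, |gU α d r t y x1 x s t' y' i| ≤ Λ} from hq)]
  rw [hlhs]
  -- the pieces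
  set f : ℝ × (Fin m → ℝ) → ℤ × (Fin m → ℤ) := fun q => ix α d r t y y0 x1 R δ q.1 t' q.2 with hf
  have mf : Measurable f := (m_ix α d r t y y0 x1 R δ).comp mι
  have hy0R : ∀ i, 1 ≤ R * y0 i ^ 2 := by
    intro i
    refine hRν.trans ?_
    rw [← sq_abs (y0 i)]
    have := hνy i
    gcongr
  set B : ℝ≥0∞ := ENNReal.ofReal ((1 / c) ^ (m + 1) / (cp ^ m * (R ^ m * ν * ρ))) *
    ((∫⁻ τ, g τ) * ENNReal.ofReal ((2 * Λ) ^ m)) with hB
  have hpieces := sum_pieces (μ := volume) S f (fun k => mS.inter (mf (measurableSet_singleton k))) P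
    (fun q hq => hPm α d r t y y0 x1 q.1 t' q.2 hy0R (hpt q hq).2.2.1 (hpt q hq).2.2.2)
    (fun q => G (Φ q)) B ?_
  · refine hpieces.trans ?_
    have h1 : (P.card : ℝ≥0∞) = ENNReal.ofReal (P.card : ℝ) := (ENNReal.ofReal_natCast _).symm
    rw [h1, hB]
    calc ENNReal.ofReal (P.card : ℝ) *
          (ENNReal.ofReal ((1 / c) ^ (m + 1) / (cp ^ m * (R ^ m * ν * ρ))) *
            ((∫⁻ τ, g τ) * ENNReal.ofReal ((2 * Λ) ^ m)))
        ≤ ENNReal.ofReal (CP * (1 + Real.log R) ^ m) *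
          (ENNReal.ofReal ((1 / c) ^ (m + 1) / (cp ^ m * (R ^ m * ν * ρ))) *
            ((∫⁻ τ, g τ) * ENNReal.ofReal ((2 * Λ) ^ m))) := by gcongr
      _ = ENNReal.ofReal (CP * (1 + Real.log R) ^ m) *
          (ENNReal.ofReal ((1 / c) ^ (m + 1) / (cp ^ m * (R ^ m * ν * ρ))) *
            ENNReal.ofReal ((2 * Λ) ^ m)) * ∫⁻ τ, g τ := by ring
      _ = _ := by
          rw [← ENNReal.ofReal_mul (by positivity), ← ENNReal.ofReal_mul (by positivity)]
          congr 2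
          rw [mul_pow]
          field_simp
  · intro k _
    rcases (S ∩ f ⁻¹' {k}).eq_empty_or_nonempty with he | ⟨q0, hq0, hk0⟩
    · rw [he, Measure.restrict_empty, lintegral_zero_measure]
      exact zero_le
    have hfk : ∀ q ∈ S ∩ f ⁻¹' {k}, f q = k := fun q hq => hq.2
    have hk0' : f q0 = k := hk0
    set D : Fin m → ℝ := fun i => |gL α d r t y x1 q0.1 t' q0.2 i| + R * |y0 i| with hD
    have hD0 : ∀ i, 0 < D i := fun i => by
      have : 0 < |y0 i| := abs_pos.2 (hy0 i)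
      simp only [hD]
      positivity
    -- comparison with the reference point
    have hcmp : ∀ q ∈ S ∩ f ⁻¹' {k}, ∀ i, D i ≤ 2 * (|gL α d r t y x1 q.1 t' q.2 i| +
        R * |y0 i|) := by
      intro q hq i
      have h1 : ix α d r t y y0 x1 R δ q.1 t' q.2 = ix α d r t y y0 x1 R δ q0.1 t' q0.2 := by
        have := (hfk q hq).trans hk0'.symm
        exact this
      have h2 := (ix_close hδ0 (by linarith) hy0 h1).2 i
      have e1 : ∀ a b : ℝ, |a / R - b / R| = |a - b| / R := fun a b => by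
        rw [← sub_div, abs_div, abs_of_pos hR0]
      rw [e1, abs_div, abs_of_pos hR0, div_le_iff₀ hR0] at h2
      have h3 : 2 * δ * (|gL α d r t y x1 q.1 t' q.2 i| / R + |y0 i|) * R =
          2 * δ * (|gL α d r t y x1 q.1 t' q.2 i| + R * |y0 i|) := by
        field_simp
      rw [h3] at h2
      have h4 : 0 ≤ |gL α d r t y x1 q.1 t' q.2 i| + R * |y0 i| := by positivity
      have h5 : 2 * δ * (|gL α d r t y x1 q.1 t' q.2 i| + R * |y0 i|) ≤
          1 / 2 * (|gL α d r t y x1 q.1 t' q.2 i| + R * |y0 i|) := by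
        refine mul_le_mul_of_nonneg_right ?_ h4
        linarith
      have h6 : |gL α d r t y x1 q0.1 t' q0.2 i| ≤ |gL α d r t y x1 q.1 t' q.2 i| +
          |gL α d r t y x1 q0.1 t' q0.2 i - gL α d r t y x1 q.1 t' q.2 i| := by
        have := abs_sub_abs_le_abs_sub (gL α d r t y x1 q0.1 t' q0.2 i)
          (gL α d r t y x1 q.1 t' q.2 i)
        linarith
      simp only [hD]
      have h7 : 0 ≤ R * |y0 i| := by positivity
      linarith
    have hlow : ∀ q1 ∈ S ∩ f ⁻¹' {k}, ∀ q2 ∈ S ∩ f ⁻¹' {k},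
        ρ * |q1.1 - q2.1| + ∑ i, D i * |q1.2 i - q2.2 i| ≤ 2 * C0 * (m + 1) * ‖Φ q1 - Φ q2‖ := by
      intro q1 hq1 q2 hq2
      have h1 := low q1 hq1.1 q2 hq2.1 ((hfk q1 hq1).trans (hfk q2 hq2).symm)
      have h2 := hΦn q1 q2
      have h3 : ∑ i, D i * |q1.2 i - q2.2 i| ≤
          2 * ∑ i, (|gL α d r t y x1 q1.1 t' q1.2 i| + R * |y0 i|) * |q2.2 i - q1.2 i| := by
        rw [Finset.mul_sum]
        refine Finset.sum_le_sum fun i _ => ?_
        rw [abs_sub_comm (q1.2 i), ← mul_assoc]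
        exact mul_le_mul_of_nonneg_right (hcmp q1 hq1 i) (abs_nonneg _)
      have h4 : 0 ≤ ρ * |q2.1 - q1.1| := by positivity
      rw [abs_sub_comm q1.1]
      have h5 := mul_le_mul_of_nonneg_left h2 hC0.le
      nlinarith
    have hcD : ∀ i : Fin m, ∀ q1 ∈ S ∩ f ⁻¹' {k}, ∀ q2 ∈ S ∩ f ⁻¹' {k},
        c * (D i * |q1.2 i - q2.2 i|) ≤ ‖Φ q1 - Φ q2‖ := by
      intro i q1 hq1 q2 hq2
      have h1 := hlow q1 hq1 q2 hq2
      have h2 : D i * |q1.2 i - q2.2 i| ≤ ∑ i, D i * |q1.2 i - q2.2 i| :=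
        Finset.single_le_sum (f := fun i => D i * |q1.2 i - q2.2 i|)
          (fun i _ => mul_nonneg (hD0 i).le (abs_nonneg _)) (Finset.mem_univ i)
      have h3 : 0 ≤ ρ * |q1.1 - q2.1| := by positivity
      rw [hc, one_div, inv_mul_le_iff₀ (by positivity)]
      linarith
    have hc0D : ∀ q1 ∈ S ∩ f ⁻¹' {k}, ∀ q2 ∈ S ∩ f ⁻¹' {k},
        c * (ρ * |q1.1 - q2.1|) ≤ ‖Φ q1 - Φ q2‖ := by
      intro q1 hq1 q2 hq2
      have h1 := hlow q1 hq1 q2 hq2
      have h2 : 0 ≤ ∑ i, D i * |q1.2 i - q2.2 i| :=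
        Finset.sum_nonneg fun i _ => mul_nonneg (hD0 i).le (abs_nonneg _)
      rw [hc, one_div, inv_mul_le_iff₀ (by positivity)]
      linarith
    have h1 := al_prod (mS.inter (mf (measurableSet_singleton k))) mΦ hρ0 D hD0 hc0' hc0D
      (fun q1 hq1 q2 hq2 i => hcD i q1 hq1 q2 hq2) mG
    refine h1.trans ?_
    rw [hGint, hB]
    -- the product
    have hb0 : Bx c0 t0 y0 t' q0.2 := ⟨ht', hq0.1⟩
    obtain ⟨j, hj⟩ := PE d hd0 hd1 t' q0.2 _ _ (hrg2 hb0) (hpt q0 hq0).1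
    have h2 : R * ν * (R * cp) ^ (m - 1) ≤ ∏ i, D i := by
      refine prod_low D j (by positivity) (by positivity) (fun i hi => ?_) ?_
      · have h3 := hj i hi
        have h4 : |gL α d r t y (x1 / R) (q0.1 / R) t' q0.2 i| =
            |gL α d r t y x1 q0.1 t' q0.2 i| / R := by
          rw [gL_sc, abs_div, abs_of_pos hR0]
        have h5 : cp ≤ |gL α d r t y x1 q0.1 t' q0.2 i| / R := by
          rw [← h4]
          exact h3
        rw [le_div_iff₀ hR0] at h5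
        simp only [hD]
        have : 0 ≤ R * |y0 i| := by positivity
        linarith
      · simp only [hD]
        have h3 := abs_nonneg (gL α d r t y x1 q0.1 t' q0.2 j)
        have h4 : R * ν ≤ R * |y0 j| := by
          have := hνy j
          gcongr
        linarith
    have h3 : cp ^ m * (R ^ m * ν) ≤ ∏ i, D i := by
      refine le_trans ?_ h2
      have h4 : ∀ l : ℕ, m = l + 1 → cp ^ m * (R ^ m * ν) ≤ R * ν * (R * cp) ^ (m - 1) := by
        intro l hl'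
        rw [hl', Nat.add_sub_cancel, mul_pow, pow_succ, pow_succ]
        have h4 : cp ^ l * cp ≤ cp ^ l * 1 := by gcongr
        calc cp ^ l * cp * (R ^ l * R * ν) ≤ cp ^ l * 1 * (R ^ l * R * ν) := by gcongr
          _ = R * ν * (R ^ l * cp ^ l) := by ring
      exact h4 (m - 1) (by omega)
    gcongr ENNReal.ofReal ?_ * _
    rw [div_le_div_iff_of_pos_left (by positivity) (mul_pos hρ0 (Finset.prod_pos fun i _ => hD0 i))
      (by positivity)]
    calc cp ^ m * (R ^ m * ν * ρ) = ρ * (cp ^ m * (R ^ m * ν)) := by ring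
      _ ≤ ρ * ∏ i, D i := by gcongr

end Pool.Agent.LQN
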