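import Pool.Agent.LQN.G1

/-!
LQN: perturbation of the rows, the chord of two active points.
-/

set_option autoImplicit false

namespace Pool.Agent.LQN

variable {m : ℕ}

theorem PP_sub_le (α : ℝ) (r yb yb' : Fin m → ℝ) (Dt : ℝ) (D : Fin m → ℝ) {δ : ℝ} (hδ : 0 ≤ δ)
    (hy : ∀ i, |yb i - yb' i| ≤ δ) :
    |PP α r yb Dt D - PP α r yb' Dt D| ≤ QQ α r * δ * (|Dt| + ∑ k, |D k|) := by
  have hQ := QQ_nonneg α r
  have e : PP α r yb Dt D - PP α r yb' Dt D = -∑ i, r i * (yb i - yb' i) * D i := by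
    unfold PP
    have : ∑ i, r i * (yb i - yb' i) * D i = ∑ i, r i * yb i * D i - ∑ i, r i * yb' i * D i := by
      rw [← Finset.sum_sub_distrib]
      exact Finset.sum_congr rfl fun i _ => by ring
    rw [this]
    ring
  rw [e, abs_neg, mul_add, Finset.mul_sum]
  have h0 : 0 ≤ QQ α r * δ * |Dt| := by positivity
  refine le_trans ?_ (le_add_of_nonneg_left h0)
  refine (Finset.abs_sum_le_sum_abs _ _).trans (Finset.sum_le_sum fun k _ => ?_)
  rw [abs_mul, abs_mul]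
  refine mul_le_mul_of_nonneg_right (mul_le_mul ?_ (hy k) (abs_nonneg _) hQ) (abs_nonneg _)
  have := q_le α r k
  have := abs_nonneg (1 - r k)
  linarith

theorem SS_sub_le (α : ℝ) (r yb yb' : Fin m → ℝ) (Dt : ℝ) (D : Fin m → ℝ) {δ : ℝ} (hδ : 0 ≤ δ)
    (hy : ∀ i, |yb i - yb' i| ≤ δ) :
    |SS α r yb Dt D - SS α r yb' Dt D| ≤ QQ α r * δ * (|Dt| + ∑ k, |D k|) := by
  have hQ := QQ_nonneg α r
  have e : SS α r yb Dt D - SS α r yb' Dt D = ∑ i, (1 - r i) * (yb i - yb' i) * D i := by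
    unfold SS
    have : ∑ i, (1 - r i) * (yb i - yb' i) * D i =
        ∑ i, (1 - r i) * yb i * D i - ∑ i, (1 - r i) * yb' i * D i := by
      rw [← Finset.sum_sub_distrib]
      exact Finset.sum_congr rfl fun i _ => by ring
    rw [this]
    ring
  rw [e, mul_add, Finset.mul_sum]
  have h0 : 0 ≤ QQ α r * δ * |Dt| := by positivity
  refine le_trans ?_ (le_add_of_nonneg_left h0)
  refine (Finset.abs_sum_le_sum_abs _ _).trans (Finset.sum_le_sum fun k _ => ?_)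
  rw [abs_mul, abs_mul]
  refine mul_le_mul_of_nonneg_right (mul_le_mul ?_ (hy k) (abs_nonneg _) hQ) (abs_nonneg _)
  have := q_le α r k
  have := abs_nonneg (r k)
  linarith

/-- The two coefficients are bounded. -/
theorem a3_le {κ α d t : ℝ} {r y : Fin m → ℝ} (hκ : 0 < κ) (hκ1 : κ ≤ 1)
    (h : Rg κ α d r t y) {w1 : ℝ} (hw : |w1| ≤ κ⁻¹) :
    |w1 / AA α r t y ^ 3| ≤ κ⁻¹ * κ⁻¹ ^ 3 := by
  have hA := (rg_A hκ hκ1 h).1
  have hAp : 0 < AA α r t y := hκ.trans_le hA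
  rw [abs_div, abs_of_pos (pow_pos hAp 3), div_eq_mul_inv, ← inv_pow]
  exact mul_le_mul hw (pow_le_pow_left₀ (inv_nonneg.2 hAp.le) (inv_anti₀ hκ hA) 3)
    (by positivity) (by positivity)

theorem c3_le {κ α d t : ℝ} {r y : Fin m → ℝ} (hκ : 0 < κ) (hκ1 : κ ≤ 1) (hd0 : 0 ≤ d)
    (hd1 : d ≤ 1) (h : Rg κ α d r t y) {wn : ℝ} (hw : |wn| ≤ κ⁻¹) :
    |d ^ 2 * wn / HH α d r t y ^ 3| ≤ κ⁻¹ * κ⁻¹ ^ 3 := by
  have hA := rg_H hκ hκ1 h
  have hAp : 0 < HH α d r t y := hκ.trans_le hA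
  rw [abs_div, abs_of_pos (pow_pos hAp 3), div_eq_mul_inv, ← inv_pow]
  refine mul_le_mul ?_ (pow_le_pow_left₀ (inv_nonneg.2 hAp.le) (inv_anti₀ hκ hA) 3)
    (by positivity) (by positivity)
  rw [abs_mul, abs_of_nonneg (sq_nonneg d)]
  have h7 : d ^ 2 ≤ 1 := by nlinarith
  calc d ^ 2 * |wn| ≤ 1 * |wn| := mul_le_mul_of_nonneg_right h7 (abs_nonneg _)
    _ ≤ κ⁻¹ := by rwa [one_mul]

theorem abs_le_of_near {a b η : ℝ} (h : |a - b| ≤ η * |b|) (hη : η ≤ 1) : |a| ≤ 2 * |b| := by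
  have e : a = b + (a - b) := by ring
  have h1 : |a| ≤ |b| + |a - b| := by
    conv_lhs => rw [e]
    exact abs_add_le _ _
  have h2 : η * |b| ≤ 1 * |b| := mul_le_mul_of_nonneg_right hη (abs_nonneg _)
  linarith

theorem abs_sub_of_near {a a' b η : ℝ} (h : |a - b| ≤ η) (h' : |a' - b| ≤ η) :
    |a - a'| ≤ 2 * η := by
  have e : a - a' = (a - b) - (a' - b) := by ring
  rw [e]
  refine (abs_sub _ _).trans ?_
  linarith

/- ROW PERT. -/
theorem row_pert {α : ℝ} {r : Fin m → ℝ} (_h : Hyp α r) {κ : ℝ} (hκ : 0 < κ) (hκ1 : κ ≤ 1) :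
    ∃ C : ℝ, 0 < C ∧ ∀ d, 0 ≤ d → d ≤ 1 → ∀ t y w1 wn, Rg κ α d r t y →
      |w1| + |wn| ≤ κ⁻¹ → ∀ η, 0 ≤ η → η ≤ 1 → ∀ (L y1 yb : Fin m → ℝ) (a3 c3 : ℝ)
      (L' y1' yb' : Fin m → ℝ) (a3' c3' : ℝ), Near η α d r w1 wn t y L y1 yb a3 c3 →
      Near η α d r w1 wn t y L' y1' yb' a3' c3' → ∀ (Dt : ℝ) (D : Fin m → ℝ) (i : Fin m),
        |Row α r L y1 yb a3 c3 Dt D i - Row α r L' y1' yb' a3' c3' Dt D i| ≤
          C * η * el α d r w1 wn t y i * (|Dt| + ∑ k, |D k|) := by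
  have hQ := QQ_nonneg α r
  set Q := QQ α r with hQd
  set A0 : ℝ := κ⁻¹ * κ⁻¹ ^ 3 + 1 with hA0
  have hA0p : 0 < A0 := by positivity
  set K : ℝ := Q * (1 + 2 * κ⁻¹) with hK
  have hK0 : 0 ≤ K := by positivity
  set P0 : ℝ := Q * (2 * κ⁻¹) with hP0
  have hP00 : 0 ≤ P0 := by positivity
  refine ⟨2 + 4 * (Q * A0 * K) + 4 * (Q * (2 * K + A0 * P0)), by positivity, ?_⟩
  intro d hd0 hd1 t y w1 wn hR hw η hη0 hη1 L y1 yb a3 c3 L' y1' yb' a3' c3' hN hN' Dt D i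
  obtain ⟨hL, hy1, hyb, ha, hc⟩ := hN
  obtain ⟨hL', hy1', hyb', ha', hc'⟩ := hN'
  set N : ℝ := |Dt| + ∑ k, |D k| with hN0
  have hNp : 0 ≤ N := by positivity
  have hDi : |D i| ≤ N := by
    have h1 : |D i| ≤ ∑ k, |D k| :=
      Finset.single_le_sum (f := fun k => |D k|) (fun k _ => abs_nonneg _) (Finset.mem_univ i)
    have := abs_nonneg Dt
    linarith
  have hri : |r i| ≤ Q := by
    have := q_le α r i
    have := abs_nonneg (1 - r i)
    linarith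
  have hri1 : |1 - r i| ≤ Q := by
    have := q_le α r i
    have := abs_nonneg (r i)
    linarith
  have hA3 : |a3| ≤ A0 := by
    have h1 := a3_le hκ hκ1 hR (w1 := w1) (by
      have := abs_nonneg wn
      linarith)
    have e : a3 = w1 / AA α r t y ^ 3 + (a3 - w1 / AA α r t y ^ 3) := by ring
    rw [e]
    refine (abs_add_le _ _).trans ?_
    linarith
  have hA3' : |a3'| ≤ A0 := by
    have h1 := a3_le hκ hκ1 hR (w1 := w1) (by
      have := abs_nonneg wn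
      linarith)
    have e : a3' = w1 / AA α r t y ^ 3 + (a3' - w1 / AA α r t y ^ 3) := by ring
    rw [e]
    refine (abs_add_le _ _).trans ?_
    linarith
  have hC3 : |c3| ≤ A0 := by
    have h1 := c3_le hκ hκ1 hd0 hd1 hR (wn := wn) (by
      have := abs_nonneg w1
      linarith)
    have e : c3 = d ^ 2 * wn / HH α d r t y ^ 3 + (c3 - d ^ 2 * wn / HH α d r t y ^ 3) := by ring
    rw [e]
    refine (abs_add_le _ _).trans ?_
    linarith
  have hC3' : |c3'| ≤ A0 := by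
    have h1 := c3_le hκ hκ1 hd0 hd1 hR (wn := wn) (by
      have := abs_nonneg w1
      linarith)
    have e : c3' = d ^ 2 * wn / HH α d r t y ^ 3 + (c3' - d ^ 2 * wn / HH α d r t y ^ 3) := by
      ring
    rw [e]
    refine (abs_add_le _ _).trans ?_
    linarith
  have hyb2 : ∀ k, |yb k| ≤ 2 * κ⁻¹ := fun k => by
    have h1 := abs_le_of_near (hyb k) hη1
    have h2 := hR.1 k
    linarith
  have hyb2' : ∀ k, |yb' k| ≤ 2 * κ⁻¹ := fun k => by
    have h1 := abs_le_of_near (hyb' k) hη1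
    have h2 := hR.1 k
    linarith
  have hP : |PP α r yb Dt D| ≤ K * N := PP_le α r yb Dt D (by positivity) hyb2
  have hS : |SS α r yb Dt D| ≤ K * N := SS_le α r yb Dt D (by positivity) hyb2
  have hybd : ∀ k, |yb k - yb' k| ≤ 2 * κ⁻¹ * η := fun k => by
    have h1 := abs_sub_of_near (hyb k) (hyb' k)
    have h2 := mul_le_mul_of_nonneg_left (hR.1 k) hη0
    linarith
  have hPd : |PP α r yb Dt D - PP α r yb' Dt D| ≤ P0 * η * N := by
    refine (PP_sub_le α r yb yb' Dt D (by positivity) hybd).trans (le_of_eq ?_)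
    rw [hP0]
    ring
  have hSd : |SS α r yb Dt D - SS α r yb' Dt D| ≤ P0 * η * N := by
    refine (SS_sub_le α r yb yb' Dt D (by positivity) hybd).trans (le_of_eq ?_)
    rw [hP0]
    ring
  set P := PP α r yb Dt D
  set P' := PP α r yb' Dt D
  set S := SS α r yb Dt D
  set S' := SS α r yb' Dt D
  have had : |a3 - a3'| ≤ 2 * η := abs_sub_of_near ha ha'
  have hcd : |c3 - c3'| ≤ 2 * η := abs_sub_of_near hc hc'
  set e := el α d r w1 wn t y i with he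
  have hye : |y i| ≤ e := by
    rw [he]
    unfold el
    have := abs_nonneg (LL α d r w1 wn t y i)
    linarith
  have he0 : 0 ≤ e := (abs_nonneg _).trans hye
  have hLd : |L i - L' i| ≤ 2 * (η * e) := abs_sub_of_near (hL i) (hL' i)
  have hy1d : |y1 i - y1' i| ≤ 2 * (η * |y i|) := abs_sub_of_near (hy1 i) (hy1' i)
  have hy1b : |y1' i| ≤ 2 * |y i| := abs_le_of_near (hy1' i) hη1
  have hX : |r i * a3 * P + (1 - r i) * c3 * S| ≤ 2 * (Q * A0 * K) * N := by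
    refine (abs_add_le _ _).trans ?_
    rw [abs_mul, abs_mul, abs_mul, abs_mul]
    have h1 := mul_le_mul (mul_le_mul hri hA3 (abs_nonneg _) hQ) hP (abs_nonneg _)
      (by positivity)
    have h2 := mul_le_mul (mul_le_mul hri1 hC3 (abs_nonneg _) hQ) hS (abs_nonneg _)
      (by positivity)
    calc _ ≤ _ := add_le_add h1 h2
      _ = _ := by ring
  have hXd : |(r i * a3 * P + (1 - r i) * c3 * S) - (r i * a3' * P' + (1 - r i) * c3' * S')| ≤
      2 * (Q * (2 * K + A0 * P0)) * η * N := by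
    have e1 : (r i * a3 * P + (1 - r i) * c3 * S) - (r i * a3' * P' + (1 - r i) * c3' * S') =
        r i * ((a3 - a3') * P + a3' * (P - P')) +
          (1 - r i) * ((c3 - c3') * S + c3' * (S - S')) := by ring
    rw [e1]
    refine (abs_add_le _ _).trans ?_
    rw [abs_mul, abs_mul]
    have h1 : |(a3 - a3') * P + a3' * (P - P')| ≤ 2 * η * (K * N) + A0 * (P0 * η * N) := by
      refine (abs_add_le _ _).trans ?_
      rw [abs_mul, abs_mul]
      exact add_le_add (mul_le_mul had hP (abs_nonneg _) (by positivity))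
        (mul_le_mul hA3' hPd (abs_nonneg _) (by positivity))
    have h2 : |(c3 - c3') * S + c3' * (S - S')| ≤ 2 * η * (K * N) + A0 * (P0 * η * N) := by
      refine (abs_add_le _ _).trans ?_
      rw [abs_mul, abs_mul]
      exact add_le_add (mul_le_mul hcd hS (abs_nonneg _) (by positivity))
        (mul_le_mul hC3' hSd (abs_nonneg _) (by positivity))
    have h3 := mul_le_mul hri h1 (abs_nonneg _) hQ
    have h4 := mul_le_mul hri1 h2 (abs_nonneg _) hQ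
    calc _ ≤ _ := add_le_add h3 h4
      _ = _ := by ring
  have e2 : Row α r L y1 yb a3 c3 Dt D i - Row α r L' y1' yb' a3' c3' Dt D i =
      (L i - L' i) * D i + (y1 i - y1' i) * (r i * a3 * P + (1 - r i) * c3 * S) +
        y1' i * ((r i * a3 * P + (1 - r i) * c3 * S) -
          (r i * a3' * P' + (1 - r i) * c3' * S')) := by
    unfold Row
    ring
  rw [e2]
  have b1 : |(L i - L' i) * D i| ≤ 2 * (η * e) * N := by
    rw [abs_mul]
    exact mul_le_mul hLd hDi (abs_nonneg _) (by positivity)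
  have b2 : |(y1 i - y1' i) * (r i * a3 * P + (1 - r i) * c3 * S)| ≤
      2 * (η * e) * (2 * (Q * A0 * K) * N) := by
    rw [abs_mul]
    refine mul_le_mul (hy1d.trans ?_) hX (abs_nonneg _) (by positivity)
    have := mul_le_mul_of_nonneg_left hye hη0
    linarith
  have b3 : |y1' i * ((r i * a3 * P + (1 - r i) * c3 * S) -
      (r i * a3' * P' + (1 - r i) * c3' * S'))| ≤
      2 * e * (2 * (Q * (2 * K + A0 * P0)) * η * N) := by
    rw [abs_mul]
    refine mul_le_mul (hy1b.trans ?_) hXd (abs_nonneg _) (by positivity)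
    linarith
  calc _ ≤ _ := (abs_add_le _ _).trans (add_le_add ((abs_add_le _ _).trans (add_le_add b1 b2)) b3)
    _ = _ := by ring

/-- The scalar computation. -/
theorem a3_near {a b δ δ' W A A1 A2 w w' : ℝ} (ha : 0 < a) (hab : a ≤ A) (hab1 : a ≤ A1)
    (hab2 : a ≤ A2) (hb : A ≤ b) (hb1 : A1 ≤ b) (hb2 : A2 ≤ b) (h1 : |A1 - A| ≤ δ)
    (h2 : |A2 - A| ≤ δ) (hw' : |w' - w| ≤ δ') (hw : |w| ≤ W) (hδ : 0 ≤ δ) :
    |2 * w' / (A1 * A2 * (A1 + A2)) - w / A ^ 3| ≤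
      δ' / a ^ 3 + W * (3 * b ^ 2 * δ) / (a ^ 3 * a ^ 3) := by
  have hA : 0 < A := ha.trans_le hab
  have hA1 : 0 < A1 := ha.trans_le hab1
  have hA2 : 0 < A2 := ha.trans_le hab2
  have hb0 : 0 < b := hA.trans_le hb
  have hW : 0 ≤ W := (abs_nonneg _).trans hw
  have hδ' : 0 ≤ δ' := (abs_nonneg _).trans hw'
  have hden : 2 * a ^ 3 ≤ A1 * A2 * (A1 + A2) := by
    have e1 : a * a ≤ A1 * A2 := mul_le_mul hab1 hab2 ha.le hA1.le
    have e2 : (a * a) * (a + a) ≤ (A1 * A2) * (A1 + A2) :=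
      mul_le_mul e1 (add_le_add hab1 hab2) (by positivity) (by positivity)
    calc 2 * a ^ 3 = (a * a) * (a + a) := by ring
      _ ≤ _ := e2
  have hA3 : a ^ 3 ≤ A ^ 3 := pow_le_pow_left₀ ha.le hab 3
  have hD : 0 < A1 * A2 * (A1 + A2) := by positivity
  have e : 2 * w' / (A1 * A2 * (A1 + A2)) - w / A ^ 3 =
      2 * (w' - w) / (A1 * A2 * (A1 + A2)) +
        w * (2 * A ^ 3 - A1 * A2 * (A1 + A2)) / (A1 * A2 * (A1 + A2) * A ^ 3) := by
    field_simp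
    ring
  rw [e]
  refine (abs_add_le _ _).trans (add_le_add ?_ ?_)
  · rw [abs_div, abs_mul, abs_two, abs_of_pos hD]
    calc 2 * |w' - w| / (A1 * A2 * (A1 + A2)) ≤ 2 * δ' / (2 * a ^ 3) :=
          div_le_div₀ (by positivity) (by linarith) (by positivity) hden
      _ = δ' / a ^ 3 := by
          field_simp
  · rw [abs_div, abs_mul, abs_of_pos (mul_pos hD (pow_pos hA 3))]
    have h3 : |2 * A ^ 3 - A1 * A2 * (A1 + A2)| ≤ 6 * b ^ 2 * δ := by
      have e3 : 2 * A ^ 3 - A1 * A2 * (A1 + A2) =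
          -((A1 - A) * A ^ 2 + A1 * (A * (A2 - A) + A2 * (A1 - A))) -
            ((A2 - A) * A ^ 2 + A2 * (A * (A1 - A) + A1 * (A2 - A))) := by ring
      rw [e3]
      have k1 : |(A1 - A) * A ^ 2| ≤ δ * b ^ 2 := by
        rw [abs_mul, abs_of_pos (pow_pos hA 2)]
        exact mul_le_mul h1 (pow_le_pow_left₀ hA.le hb 2) (by positivity) hδ
      have k1' : |(A2 - A) * A ^ 2| ≤ δ * b ^ 2 := by
        rw [abs_mul, abs_of_pos (pow_pos hA 2)]
        exact mul_le_mul h2 (pow_le_pow_left₀ hA.le hb 2) (by positivity) hδ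
      have k2 : |A * (A2 - A) + A2 * (A1 - A)| ≤ b * δ + b * δ := by
        refine (abs_add_le _ _).trans (add_le_add ?_ ?_)
        · rw [abs_mul, abs_of_pos hA]
          exact mul_le_mul hb h2 (abs_nonneg _) hb0.le
        · rw [abs_mul, abs_of_pos hA2]
          exact mul_le_mul hb2 h1 (abs_nonneg _) hb0.le
      have k2' : |A * (A1 - A) + A1 * (A2 - A)| ≤ b * δ + b * δ := by
        refine (abs_add_le _ _).trans (add_le_add ?_ ?_)
        · rw [abs_mul, abs_of_pos hA]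
          exact mul_le_mul hb h1 (abs_nonneg _) hb0.le
        · rw [abs_mul, abs_of_pos hA1]
          exact mul_le_mul hb1 h2 (abs_nonneg _) hb0.le
      have k3 : |A1 * (A * (A2 - A) + A2 * (A1 - A))| ≤ b * (b * δ + b * δ) := by
        rw [abs_mul, abs_of_pos hA1]
        exact mul_le_mul hb1 k2 (abs_nonneg _) hb0.le
      have k3' : |A2 * (A * (A1 - A) + A1 * (A2 - A))| ≤ b * (b * δ + b * δ) := by
        rw [abs_mul, abs_of_pos hA2]
        exact mul_le_mul hb2 k2' (abs_nonneg _) hb0.le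
      refine (abs_sub _ _).trans ?_
      rw [abs_neg]
      have k4 := (abs_add_le ((A1 - A) * A ^ 2) (A1 * (A * (A2 - A) + A2 * (A1 - A)))).trans
        (add_le_add k1 k3)
      have k4' := (abs_add_le ((A2 - A) * A ^ 2) (A2 * (A * (A1 - A) + A1 * (A2 - A)))).trans
        (add_le_add k1' k3')
      calc _ ≤ _ := add_le_add k4 k4'
        _ = _ := by ring
    have h4 : 2 * a ^ 3 * a ^ 3 ≤ A1 * A2 * (A1 + A2) * A ^ 3 :=
      mul_le_mul hden hA3 (by positivity) (by positivity)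
    calc |w| * |2 * A ^ 3 - A1 * A2 * (A1 + A2)| / (A1 * A2 * (A1 + A2) * A ^ 3) ≤
          W * (6 * b ^ 2 * δ) / (2 * a ^ 3 * a ^ 3) :=
          div_le_div₀ (by positivity) (mul_le_mul hw h3 (abs_nonneg _) hW) (by positivity) h4
      _ = _ := by
          field_simp
          ring

theorem ss_rr (α : ℝ) (r : Fin m → ℝ) (t : ℝ) (y : Fin m → ℝ) :
    ss α r t y = rr α r t y + ∑ i, y i ^ 2 := by
  unfold ss rr
  rw [sub_add, ← Finset.sum_sub_distrib, sub_eq_add_neg, ← Finset.sum_neg_distrib]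
  congr 1
  exact Finset.sum_congr rfl fun i _ => by ring

theorem rg_H1 {κ α d t : ℝ} {r y : Fin m → ℝ} (hκ : 0 < κ) (h : Rg κ α d r t y) :
    HH α d r t y ≤ 1 := by
  refine Real.sqrt_le_one.2 ?_
  have h1 := ss_rr α r t y
  have h2 : 0 ≤ ∑ i, y i ^ 2 := by positivity
  have h3 := h.2.1
  have h4 : 0 ≤ d ^ 2 * ss α r t y := by
    have : 0 ≤ ss α r t y := by linarith
    positivity
  linarith

theorem sqrt_near {x y κ δ : ℝ} (hκ : 0 < κ) (hx : κ ≤ √x) (hy : κ ≤ √y) (h : |x - y| ≤ δ) :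
    |√x - √y| ≤ δ / κ := by
  have hx0 : 0 ≤ x := by
    by_contra hc
    rw [Real.sqrt_eq_zero_of_nonpos (by linarith)] at hx
    linarith
  have hy0 : 0 ≤ y := by
    by_contra hc
    rw [Real.sqrt_eq_zero_of_nonpos (by linarith)] at hy
    linarith
  have e : x - y = (√x - √y) * (√x + √y) := by
    have h1 := Real.sq_sqrt hx0
    have h2 := Real.sq_sqrt hy0
    nlinarith
  rw [e, abs_mul, abs_of_pos (by linarith : 0 < √x + √y)] at h
  rw [le_div_iff₀ hκ]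
  have : |√x - √y| * κ ≤ |√x - √y| * (√x + √y) :=
    mul_le_mul_of_nonneg_left (by linarith) (abs_nonneg _)
  linarith

/- ROW NEARP. -/
theorem near_pts {α : ℝ} {r : Fin m → ℝ} (h : Hyp α r) {κ : ℝ} (hκ : 0 < κ) (hκ1 : κ ≤ 1) :
    ∃ C c1 : ℝ, 0 < C ∧ 0 < c1 ∧ ∀ c0, 0 < c0 → c0 ≤ c1 → ∀ d, 0 ≤ d → d ≤ 1 →
      ∀ t0 y0, Rg κ α d r t0 y0 → ∀ t y t1 y1 t2 y2, Bx c0 t0 y0 t y → Bx c0 t0 y0 t1 y1 →
      Bx c0 t0 y0 t2 y2 → ∀ w1 wn w1' wn', |w1| + |wn| ≤ κ⁻¹ → |w1' - w1| ≤ c0 →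
      |wn' - wn| ≤ c0 → ∀ L : Fin m → ℝ,
      (∀ i, |L i - LL α d r w1 wn t y i| ≤ c0 * el α d r w1 wn t y i) →
        Near (C * c0) α d r w1 wn t y L y2 (fun i => (y1 i + y2 i) / 2) (a3c α r w1' t1 y1 t2 y2)
          (c3c α d r wn' t1 y1 t2 y2) := by
  obtain ⟨c1, hc1, hc18, hbox⟩ := box_sub h hκ hκ1
  have hQ := QQ_nonneg α r
  have hκi : 1 ≤ κ⁻¹ := (one_le_inv₀ hκ).2 hκ1
  set κ' := κ / 4 with hκ'
  have hκp : 0 < κ' := by positivity
  have hκ'1 : κ' ≤ 1 := by linarith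
  set K : ℝ := 2 * (QQ α r * (1 + 2 * κ⁻¹)) * (2 * (1 + m * κ⁻¹)) with hK
  have hK0 : 0 ≤ K := by positivity
  set C : ℝ := 4 + (1 / κ' ^ 3 + κ⁻¹ * (3 * κ'⁻¹ ^ 2 * (K / κ')) / (κ' ^ 3 * κ' ^ 3)) with hC
  have hCp : 4 ≤ C := by
    have : 0 ≤ 1 / κ' ^ 3 + κ⁻¹ * (3 * κ'⁻¹ ^ 2 * (K / κ')) / (κ' ^ 3 * κ' ^ 3) := by positivity
    linarith
  refine ⟨C, c1, by linarith, hc1, ?_⟩
  intro c0 hc0 hc01 d hd0 hd1 t0 y0 hR t y t1 y1 t2 y2 hB hB1 hB2 w1 wn w1' wn' hw hw1 hwn L hL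
  have hR0 := hbox d hd0 hd1 t0 y0 t y hR (bx_mono hc01 hB)
  have hR1 := hbox d hd0 hd1 t0 y0 t1 y1 hR (bx_mono hc01 hB1)
  have hR2 := hbox d hd0 hd1 t0 y0 t2 y2 hR (bx_mono hc01 hB2)
  have hy : ∀ i, |y i| ≤ 2 * κ⁻¹ := bx_abs hκ (by linarith) hR.1 hB
  have hy1 : ∀ i, |y1 i| ≤ 2 * κ⁻¹ := bx_abs hκ (by linarith) hR.1 hB1
  have hy2 : ∀ i, |y2 i| ≤ 2 * κ⁻¹ := bx_abs hκ (by linarith) hR.1 hB2
  have hn1 := bx_nn hκ hc0.le hR.1 hB hB1
  have hn2 := bx_nn hκ hc0.le hR.1 hB hB2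
  have lip : ∀ t' y', (∀ i, |y' i| ≤ 2 * κ⁻¹) → nn t y t' y' ≤ 2 * (1 + m * κ⁻¹) * c0 →
      |rr α r t' y' - rr α r t y| ≤ K * c0 ∧
      |(1 - d ^ 2 * ss α r t' y') - (1 - d ^ 2 * ss α r t y)| ≤ K * c0 := by
    intro t' y' hy' hn
    have h1 := rr_lip h.α0 r (M := 2 * κ⁻¹) (by positivity) t t' y y' hy hy'
    have h2 := ss_lip h.α0 r (M := 2 * κ⁻¹) (by positivity) t t' y y' hy hy'
    have h3 : 2 * (QQ α r * (1 + 2 * κ⁻¹)) * nn t y t' y' ≤ K * c0 := by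
      refine (mul_le_mul_of_nonneg_left hn (by positivity)).trans (le_of_eq ?_)
      rw [hK]
      ring
    refine ⟨h1.trans h3, ?_⟩
    have e : (1 - d ^ 2 * ss α r t' y') - (1 - d ^ 2 * ss α r t y) =
        -(d ^ 2 * (ss α r t' y' - ss α r t y)) := by ring
    rw [e, abs_neg, abs_mul, abs_of_nonneg (sq_nonneg d)]
    have h7 : d ^ 2 ≤ 1 := by nlinarith
    calc d ^ 2 * |ss α r t' y' - ss α r t y| ≤ 1 * |ss α r t' y' - ss α r t y| :=
          mul_le_mul_of_nonneg_right h7 (abs_nonneg _)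
      _ ≤ K * c0 := by
          rw [one_mul]
          exact h2.trans h3
  have l1 := lip t1 y1 hy1 hn1
  have l2 := lip t2 y2 hy2 hn2
  have hA := rg_A hκp hκ'1 hR0
  have hA1 := rg_A hκp hκ'1 hR1
  have hA2 := rg_A hκp hκ'1 hR2
  have hH := rg_H hκp hκ'1 hR0
  have hH1 := rg_H hκp hκ'1 hR1
  have hH2 := rg_H hκp hκ'1 hR2
  have dA1 : |AA α r t1 y1 - AA α r t y| ≤ K * c0 / κ' := sqrt_near hκp hA1.1 hA.1 l1.1
  have dA2 : |AA α r t2 y2 - AA α r t y| ≤ K * c0 / κ' := sqrt_near hκp hA2.1 hA.1 l2.1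
  have dH1 : |HH α d r t1 y1 - HH α d r t y| ≤ K * c0 / κ' := sqrt_near hκp hH1 hH l1.2
  have dH2 : |HH α d r t2 y2 - HH α d r t y| ≤ K * c0 / κ' := sqrt_near hκp hH2 hH l2.2
  have ynear : ∀ i, ∀ z : ℝ, |z - y0 i| ≤ c0 * |y0 i| → |z - y i| ≤ 4 * c0 * |y i| := by
    intro i z hz
    have h1 := hB.2 i
    have h2 : |y0 i| ≤ 2 * |y i| := by
      have e : y0 i = y i - (y i - y0 i) := by ring
      have h3 : |y0 i| ≤ |y i| + |y i - y0 i| := by
        conv_lhs => rw [e]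
        exact abs_sub _ _
      have h4 : c0 * |y0 i| ≤ 1 / 8 * |y0 i| :=
        mul_le_mul_of_nonneg_right (hc01.trans hc18) (abs_nonneg _)
      have := abs_nonneg (y0 i)
      linarith
    have e : z - y i = (z - y0 i) - (y i - y0 i) := by ring
    rw [e]
    refine (abs_sub _ _).trans ?_
    have h5 : c0 * |y0 i| ≤ c0 * (2 * |y i|) := mul_le_mul_of_nonneg_left h2 hc0.le
    linarith
  refine ⟨fun i => ?_, fun i => ?_, fun i => ?_, ?_, ?_⟩
  · refine (hL i).trans (mul_le_mul_of_nonneg_right ?_ ?_)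
    · nlinarith
    · unfold el
      positivity
  · refine (ynear i _ (hB2.2 i)).trans (mul_le_mul_of_nonneg_right ?_ (abs_nonneg _))
    nlinarith
  · have k1 := ynear i _ (hB1.2 i)
    have k2 := ynear i _ (hB2.2 i)
    have e : (y1 i + y2 i) / 2 - y i = ((y1 i - y i) + (y2 i - y i)) / 2 := by ring
    rw [e, abs_div, abs_two]
    have k3 := abs_add_le (y1 i - y i) (y2 i - y i)
    have k4 : 4 * c0 * |y i| ≤ C * c0 * |y i| :=
      mul_le_mul_of_nonneg_right (by nlinarith) (abs_nonneg _)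
    linarith
  · unfold a3c
    refine (a3_near hκp hA.1 hA1.1 hA2.1 hA.2 hA1.2 hA2.2 dA1 dA2 hw1
      (by
        have := abs_nonneg wn
        linarith : |w1| ≤ κ⁻¹) (by positivity)).trans ?_
    have e : c0 / κ' ^ 3 + κ⁻¹ * (3 * κ'⁻¹ ^ 2 * (K * c0 / κ')) / (κ' ^ 3 * κ' ^ 3) =
        (C - 4) * c0 := by
      rw [hC]
      ring
    rw [e]
    nlinarith
  · have hκi' : 1 ≤ κ'⁻¹ := (one_le_inv₀ hκp).2 hκ'1
    have h7 : d ^ 2 ≤ 1 := by nlinarith
    unfold c3c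
    rw [mul_assoc 2 (d ^ 2) wn']
    refine (a3_near hκp hH hH1 hH2 ((rg_H1 hκp hR0).trans hκi') ((rg_H1 hκp hR1).trans hκi')
      ((rg_H1 hκp hR2).trans hκi') dH1 dH2 (δ' := c0) (W := κ⁻¹) ?_ ?_ (by positivity)).trans ?_
    · rw [← mul_sub, abs_mul, abs_of_nonneg (sq_nonneg d)]
      calc d ^ 2 * |wn' - wn| ≤ 1 * |wn' - wn| := mul_le_mul_of_nonneg_right h7 (abs_nonneg _)
        _ ≤ c0 := by rwa [one_mul]
    · rw [abs_mul, abs_of_nonneg (sq_nonneg d)]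
      calc d ^ 2 * |wn| ≤ 1 * |wn| := mul_le_mul_of_nonneg_right h7 (abs_nonneg _)
        _ ≤ κ⁻¹ := by
            rw [one_mul]
            have := abs_nonneg w1
            linarith
    have e : c0 / κ' ^ 3 + κ⁻¹ * (3 * κ'⁻¹ ^ 2 * (K * c0 / κ')) / (κ' ^ 3 * κ' ^ 3) =
        (C - 4) * c0 := by
      rw [hC]
      ring
    rw [e]
    nlinarith

/- ROW CHORD. -/
theorem chord {α : ℝ} {r : Fin m → ℝ} (h : Hyp α r) {κ : ℝ} (hκ : 0 < κ) (hκ1 : κ ≤ 1) :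
    ∃ C c1 : ℝ, 0 < C ∧ 0 < c1 ∧ ∀ c0, 0 < c0 → c0 ≤ c1 → ∀ d, 0 ≤ d → d ≤ 1 →
      ∀ t0 y0, Rg κ α d r t0 y0 → ∀ t y t' y', Bx c0 t0 y0 t y → Bx c0 t0 y0 t' y' →
      ∀ w1 w wn, |w1| + |wn| ≤ κ⁻¹ → ∀ ε, (∀ i, |UU α d r w1 wn w t y i| ≤ ε) →
      (∀ i, |UU α d r w1 wn w t' y' i| ≤ ε) → ∀ (L y1 yb : Fin m → ℝ) (a3 c3 : ℝ),
      Near c0 α d r w1 wn t y L y1 yb a3 c3 → ∀ i,
        |Row α r L y1 yb a3 c3 (t' - t) (fun i => y' i - y i) i| ≤
          2 * ε + C * c0 * el α d r w1 wn t y i * nn t y t' y' := by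
  obtain ⟨c1, hc1, hc18, hbox⟩ := box_sub h hκ hκ1
  obtain ⟨C2, c2, hC2, hc2, hnear⟩ := near_pts h hκ hκ1
  have hκp : 0 < κ / 4 := by positivity
  have hκ'1 : κ / 4 ≤ 1 := by linarith
  obtain ⟨C3, hC3, hpert⟩ := row_pert h hκp hκ'1
  set C4 := max 1 C2 with hC4
  have hC41 : 1 ≤ C4 := le_max_left _ _
  have hC42 : C2 ≤ C4 := le_max_right _ _
  refine ⟨C3 * C4, min (min c1 c2) (1 / C4), by positivity, by positivity, ?_⟩
  intro c0 hc0 hc01 d hd0 hd1 t0 y0 hR t y t' y' hB hB' w1 w wn hw ε hU hU' L y1 yb a3 c3 hN i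
  have h1 : c0 ≤ c1 := hc01.trans ((min_le_left _ _).trans (min_le_left _ _))
  have h2 : c0 ≤ c2 := hc01.trans ((min_le_left _ _).trans (min_le_right _ _))
  have h3 : C4 * c0 ≤ 1 := by
    have := hc01.trans (min_le_right _ _)
    rw [le_div_iff₀ (by positivity)] at this
    linarith
  have hR0 := hbox d hd0 hd1 t0 y0 t y hR (bx_mono h1 hB)
  have hR1 := hbox d hd0 hd1 t0 y0 t' y' hR (bx_mono h1 hB')
  have hwκ : |w1| + |wn| ≤ (κ / 4)⁻¹ := by
    refine hw.trans (inv_anti₀ hκp (by linarith))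
  have mono : ∀ {η η' : ℝ} {L y1 yb : Fin m → ℝ} {a3 c3 : ℝ}, η ≤ η' →
      Near η α d r w1 wn t y L y1 yb a3 c3 → Near η' α d r w1 wn t y L y1 yb a3 c3 := by
    intro η η' L y1 yb a3 c3 hη hN
    have he : ∀ i, 0 ≤ el α d r w1 wn t y i := fun i => by
      unfold el
      positivity
    exact ⟨fun i => (hN.1 i).trans (mul_le_mul_of_nonneg_right hη (he i)),
      fun i => (hN.2.1 i).trans (mul_le_mul_of_nonneg_right hη (abs_nonneg _)),
      fun i => (hN.2.2.1 i).trans (mul_le_mul_of_nonneg_right hη (abs_nonneg _)),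
      hN.2.2.2.1.trans hη, hN.2.2.2.2.trans hη⟩
  have hex : Near (C4 * c0) α d r w1 wn t y (LL α d r w1 wn t y) y'
      (fun i => (y i + y' i) / 2) (a3c α r w1 t y t' y') (c3c α d r wn t y t' y') := by
    refine mono (mul_le_mul_of_nonneg_right hC42 hc0.le)
      (hnear c0 hc0 h2 d hd0 hd1 t0 y0 hR t y t y t' y' hB hB hB' w1 wn w1 wn hw
        (by simpa using hc0.le) (by simpa using hc0.le) _ fun i => ?_)
    rw [sub_self, abs_zero]
    unfold el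
    positivity
  have hN' : Near (C4 * c0) α d r w1 wn t y L y1 yb a3 c3 :=
    mono (by nlinarith) hN
  have key := hpert d hd0 hd1 t y w1 wn hR0 hwκ (C4 * c0) (by positivity) h3 L y1 yb a3 c3 _ _ _ _
    _ hN' hex (t' - t) (fun i => y' i - y i) i
  have hD1 := D1 h.α0 r t t' y y' (lt_of_lt_of_le hκp hR0.2.1) (lt_of_lt_of_le hκp hR1.2.1)
    (lt_of_lt_of_le hκp hR0.2.2.2) (lt_of_lt_of_le hκp hR1.2.2.2) w1 wn w i
  rw [← hD1] at key
  have h5 : |UU α d r w1 wn w t' y' i - UU α d r w1 wn w t y i| ≤ 2 * ε := by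
    refine (abs_sub _ _).trans ?_
    have := hU i
    have := hU' i
    linarith
  have h6 := abs_sub_abs_le_abs_sub (Row α r L y1 yb a3 c3 (t' - t) (fun i => y' i - y i) i)
    (UU α d r w1 wn w t' y' i - UU α d r w1 wn w t y i)
  have h7 : C3 * (C4 * c0) * el α d r w1 wn t y i * (|t' - t| + ∑ k, |y' k - y k|) =
      C3 * C4 * c0 * el α d r w1 wn t y i * nn t y t' y' := by
    unfold nn
    ring
  rw [h7] at key
  linarith

end Pool.Agent.LQN
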