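import Pool.Agent.LQN.KQE3
import Pool.Agent.LF.CORE0

/-!
LQN, row HMN: the number of related quadruples of the caps of LEAF, from the count of points.
-/

set_option autoImplicit false

namespace Pool.Agent.LQN

open MeasureTheory Set Pool.Agent.MP_6cbfb8_an Pool.Agent.LF
open scoped RealInnerProductSpace ContDiff

variable {m : ℕ}

/-- The pointwise count of related quadruples (the text of `cntp`, with `CpRel` unfolded). -/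
def CNs (κ α : ℝ) (r : Fin m → ℝ) : Prop :=
  ∃ C c1 : ℝ, 0 < C ∧ 0 < c1 ∧ ∀ c0, 0 < c0 → c0 ≤ c1 → ∀ d, 0 ≤ d → d ≤ 1 →
      ∀ t0 y0, Rg κ α d r t0 y0 → ∀ ν, 0 < ν → (∀ i, ν ≤ |y0 i|) →
      ∀ s K A, 0 < s → s ≤ 1 → s ≤ ν → 1 ≤ K → 1 ≤ A →
      ∀ w1 w wn, 1 / 16 ≤ ww w1 w wn → ww w1 w wn ≤ 64 →
      ∀ (ι : Type) [Fintype ι] (P : ι → ℝ × (Fin m → ℝ)) (T : ι → Set (ℝ × (Fin m → ℝ))),
      (∀ a b, a ≠ b → s ≤ ‖P a - P b‖) →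
      (∀ a, ∀ p ∈ T a, ‖p - P a‖ ≤ A * s ∧ Bx c0 t0 y0 p.1 p.2) →
      ∀ a b, ({q : ι × ι | ∃ p1 ∈ T a, ∃ p2 ∈ T b, ∃ p3 ∈ T q.1, ∃ p4 ∈ T q.2,
        (∀ i, |UU α d r w1 wn w p1.1 p1.2 i| ≤ K * s) ∧
        (∀ i, |UU α d r w1 wn w p2.1 p2.2 i| ≤ K * s) ∧
        (∀ i, |UU α d r w1 wn w p3.1 p3.2 i| ≤ K * s) ∧
        (∀ i, |UU α d r w1 wn w p4.1 p4.2 i| ≤ K * s) ∧
        (|AA α r p1.1 p1.2 + AA α r p2.1 p2.2 - AA α r p3.1 p3.2 - AA α r p4.1 p4.2| ≤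
            (K * s) ^ 2 ∧
          (∀ i, |p1.2 i + p2.2 i - p3.2 i - p4.2 i| ≤ (K * s) ^ 2) ∧
          |hh α d r p1.1 p1.2 + hh α d r p2.1 p2.2 - hh α d r p3.1 p3.2 - hh α d r p4.1 p4.2| ≤
            (K * s) ^ 2)}.ncard : ℝ) ≤
          C * A ^ (2 * m + 3) * K ^ (3 * m + 3) / ν ^ 2

/-- Grid points of one line are separated. -/
theorem hmn_sep {r x : ℝ} (hr : 0 < r) {M i j : ℕ} (h : i ≠ j) :
    r ≤ |x + r * ((i : ℝ) - M) - (x + r * ((j : ℝ) - M))| := by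
  have e1 : x + r * ((i : ℝ) - M) - (x + r * ((j : ℝ) - M)) = r * ((i : ℝ) - j) := by ring
  rw [e1, abs_mul, abs_of_pos hr]
  have h2 : (1 : ℝ) ≤ |(i : ℝ) - (j : ℝ)| := by
    have h3 : ((i : ℕ) : ℤ) - (j : ℕ) ≠ 0 := by omega
    have h5 := Int.one_le_abs h3
    exact_mod_cast h5
  calc r = r * 1 := (mul_one r).symm
    _ ≤ r * |(i : ℝ) - (j : ℝ)| := by gcongr

theorem hmn_coord {n : ℕ} (v : E n) (i : Fin n) : |v i| ≤ ‖v‖ := by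
  rw [← Real.norm_eq_abs]
  exact PiLp.norm_apply_le v i

/-- The sup norm of the coordinates. -/
theorem hmn_norm (p q : ℝ × E m) :
    ‖((p.1, p.2.ofLp) : ℝ × (Fin m → ℝ)) - (q.1, q.2.ofLp)‖ ≤ ‖p - q‖ := by
  rw [Prod.norm_def, Prod.norm_def]
  refine max_le_max le_rfl ?_
  rw [pi_norm_le_iff_of_nonneg (norm_nonneg _)]
  intro i
  exact hmn_coord (p.2 - q.2) i

theorem hmn_zc (z0 : E m) (r : ℝ) (M : ℕ) (k : Fin m → ℕ) (i : Fin m) :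
    (zc z0 r M k).ofLp i = z0 i + r * ((k i : ℝ) - M) := by
  simp [zc, GNP.trp]

/-- The grid is separated. -/
theorem hmn_grid (t0 : ℝ) (z0 : E m) {s : ℝ} (hs : 0 < s) (M : ℕ)
    {a b : ℕ × (Fin m → ℕ)} (hab : a ≠ b) :
    s ≤ ‖(((pcs (t0, z0) s M a).1, (pcs (t0, z0) s M a).2.ofLp) : ℝ × (Fin m → ℝ)) -
      ((pcs (t0, z0) s M b).1, (pcs (t0, z0) s M b).2.ofLp)‖ := by
  rw [Prod.norm_def]
  by_cases h1 : a.1 = b.1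
  · have h2 : a.2 ≠ b.2 := fun h => hab (Prod.ext h1 h)
    obtain ⟨i, hi⟩ := Function.ne_iff.1 h2
    refine le_trans ?_ (le_max_right _ _)
    refine le_trans ?_ (norm_le_pi_norm _ i)
    rw [Real.norm_eq_abs]
    change s ≤ |(zc z0 s M a.2).ofLp i - (zc z0 s M b.2).ofLp i|
    rw [hmn_zc, hmn_zc]
    exact hmn_sep hs hi
  · refine le_trans ?_ (le_max_left _ _)
    rw [Real.norm_eq_abs]
    exact hmn_sep hs h1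

theorem hmn_ww (w : E (m + 2)) :
    ww (w 0) (fun i => w i.succ.castSucc) (w (Fin.last (m + 1))) = ‖w‖ ^ 2 := by
  rw [EuclideanSpace.real_norm_sq_eq, Fin.sum_univ_castSucc, Fin.sum_univ_succ]
  rfl

/-- ROW HMN over the count of points. -/
theorem hmn_of {κ α : ℝ} {r : Fin m → ℝ} (hm : 1 ≤ m) (hκ : 0 < κ) (hκ1 : κ ≤ 1)
    {X : ℝ → ℝ × E m → E (m + 2)} {A : ℕ → ℝ} (hX : SF κ α r X A) (hc : CNs (κ / 16) α r) :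
    ∃ (N : ℕ) (C c1 : ℝ), 0 < C ∧ 0 < c1 ∧ ∀ c0, 0 < c0 → c0 ≤ c1 →
    ∀ d, 0 ≤ d → d ≤ 1 → ∀ (t0 : ℝ) (z0 : E m), Rs κ α d r t0 z0.ofLp →
    ∀ ν, 0 < ν → (∀ i, ν ≤ |z0 i|) →
    ∀ (s K : ℝ) (M : ℕ), 0 < s → s ≤ 1 → 1 ≤ K → s ≤ ν →
    ∀ T : ↥(gi M ×ˢ gk m M) → Set (ℝ × E m),
      (∀ a, ∀ p ∈ T a, ‖p - pcs (t0, z0) s M a.1‖ ≤ √(m : ℝ) * s ∧ |p.1 - t0| ≤ c0 ∧
        ∀ i, |p.2 i - z0 i| ≤ c0 * |z0 i|) →
      ∀ w : E (m + 2), 1 / 2 ≤ ‖w‖ → ‖w‖ ≤ 4 → ∀ a b,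
      ({q : ↥(gi M ×ˢ gk m M) × ↥(gi M ×ˢ gk m M) |
        ∃ p1 ∈ T a, ∃ p2 ∈ T b, ∃ p3 ∈ T q.1, ∃ p4 ∈ T q.2,
        (‖Vw (X d) w p1‖ ≤ K * s ∧ ‖Vw (X d) w p2‖ ≤ K * s ∧ ‖Vw (X d) w p3‖ ≤ K * s ∧
          ‖Vw (X d) w p4‖ ≤ K * s) ∧
          ‖X d p1 + X d p2 - X d p3 - X d p4‖ ≤ (K * s) ^ 2}.ncard : ℝ) ≤
        C * K ^ N / ν ^ 2 := by
  obtain ⟨C, c1, hC, hc1, H⟩ := hc
  obtain ⟨c2, hc2, -, BX⟩ := rs_box (α := α) r hκ hκ1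
  have hm1 : (1 : ℝ) ≤ √m := by
    rw [Real.one_le_sqrt]
    exact_mod_cast hm
  refine ⟨3 * m + 3, C * √m ^ (2 * m + 3), min c1 c2, by positivity, lt_min hc1 hc2, ?_⟩
  intro c0 hc0 hc0' d hd0 hd1 t0 z0 hRs ν hν0 hν s K M hs0 hs1 hK hsν T hT w hw1 hw2 a b
  have key := H c0 hc0 (hc0'.trans (min_le_left _ _)) d hd0 hd1 t0 z0.ofLp
    (Rl_sub hκ hκ1 (Rs_sub hκ.le hRs)) ν hν0 hν s K (√m) hs0 hs1 hsν hK hm1 (w 0)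
    (fun i => w i.succ.castSucc) (w (Fin.last (m + 1)))
    (by
      rw [hmn_ww]
      nlinarith)
    (by
      rw [hmn_ww]
      nlinarith [norm_nonneg w]) ↥(gi M ×ˢ gk m M)
    (fun a => ((pcs (t0, z0) s M a.1).1, (pcs (t0, z0) s M a.1).2.ofLp))
    (fun a => (fun p : ℝ × E m => ((p.1, p.2.ofLp) : ℝ × (Fin m → ℝ))) '' T a)
    (fun a b hab => hmn_grid t0 z0 hs0 M fun h => hab (Subtype.ext h))
    (by
      rintro a _ ⟨p, hp, rfl⟩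
      obtain ⟨h1, h2, h3⟩ := hT a p hp
      exact ⟨(hmn_norm _ _).trans h1, h2, h3⟩) a b
  refine le_trans (Nat.cast_le.2 (Set.ncard_le_ncard ?_ (Set.toFinite _))) key
  rintro q ⟨p1, h1, p2, h2, p3, h3, p4, h4, ⟨v1, v2, v3, v4⟩, h5⟩
  have hRl : ∀ a, ∀ p ∈ T a, Rl κ α d r p.1 p.2.ofLp := fun a p hp =>
    BX c0 hc0.le (hc0'.trans (min_le_right _ _)) d hd0 hd1 t0 z0.ofLp p.1 p.2.ofLp hRs
      ⟨(hT a p hp).2.1, (hT a p hp).2.2⟩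
  have hU : ∀ a, ∀ p ∈ T a, ‖Vw (X d) w p‖ ≤ K * s → ∀ i,
      |UU α d r (w 0) (w (Fin.last (m + 1))) (fun i => w i.succ.castSucc) p.1 p.2.ofLp i| ≤
        K * s := by
    intro a p hp hv i
    have h6 := ((hX d hd0 hd1).2.2 p.1 p.2 (hRl a p hp)).2.2.2.2 w i
    rw [← h6]
    exact (hmn_coord _ i).trans hv
  have hXp : ∀ a, ∀ p ∈ T a, X d p 0 = AA α r p.1 p.2.ofLp ∧
      (∀ i : Fin m, X d p i.succ.castSucc = p.2 i) ∧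
      X d p (Fin.last (m + 1)) = hh α d r p.1 p.2.ofLp := by
    intro a p hp
    have h6 := (hX d hd0 hd1).2.2 p.1 p.2 (hRl a p hp)
    exact ⟨h6.1, h6.2.1, h6.2.2.1⟩
  have hcoord : ∀ i : Fin (m + 2), |X d p1 i + X d p2 i - X d p3 i - X d p4 i| ≤
      (K * s) ^ 2 := by
    intro i
    have h6 := hmn_coord (X d p1 + X d p2 - X d p3 - X d p4) i
    rw [PiLp.sub_apply, PiLp.sub_apply, PiLp.add_apply] at h6
    exact h6.trans h5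
  obtain ⟨x10, x11, x12⟩ := hXp a p1 h1
  obtain ⟨x20, x21, x22⟩ := hXp b p2 h2
  obtain ⟨x30, x31, x32⟩ := hXp q.1 p3 h3
  obtain ⟨x40, x41, x42⟩ := hXp q.2 p4 h4
  refine ⟨_, ⟨p1, h1, rfl⟩, _, ⟨p2, h2, rfl⟩, _, ⟨p3, h3, rfl⟩, _, ⟨p4, h4, rfl⟩,
    hU a p1 h1 v1, hU b p2 h2 v2, hU q.1 p3 h3 v3, hU q.2 p4 h4 v4, ?_, ?_, ?_⟩
  · have := hcoord 0
    rwa [x10, x20, x30, x40] at this
  · intro i
    have := hcoord i.succ.castSucc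
    rwa [x11, x21, x31, x41] at this
  · have := hcoord (Fin.last (m + 1))
    rwa [x12, x22, x32, x42] at this

end Pool.Agent.LQN
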