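import Pool.Agent.LQN.AL

/-!
LQN: pieces (logarithmic scale), the sum over the pieces, `AL` on `ℝ × (ℝ × ℝ^m)`.
-/

set_option autoImplicit false

namespace Pool.Agent.LQN

open MeasureTheory Set
open scoped ENNReal NNReal

/-- Two numbers with close `arsinh`. -/
theorem ars_close {a b δ : ℝ} (hδ1 : δ ≤ 1) (h : |Real.arsinh a - Real.arsinh b| ≤ δ) :
    |a - b| ≤ 2 * δ * (1 + |b|) := by
  set u := Real.arsinh a - Real.arsinh b with hu
  have hδ0 : 0 ≤ δ := (abs_nonneg _).trans h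
  have ha : a = b * Real.cosh u + √(1 + b ^ 2) * Real.sinh u := by
    have h1 : Real.arsinh a = u + Real.arsinh b := by rw [hu]; ring
    have h2 := congrArg Real.sinh h1
    rw [Real.sinh_arsinh, Real.sinh_add, Real.sinh_arsinh, Real.cosh_arsinh] at h2
    linarith
  have h3 : a - b = b * (Real.cosh u - 1) + √(1 + b ^ 2) * Real.sinh u := by
    rw [ha]
    ring
  have hs : √(1 + b ^ 2) ≤ 1 + |b| := by
    rw [Real.sqrt_le_left (by positivity)]
    nlinarith [sq_abs b, abs_nonneg b]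
  have hc : 0 ≤ Real.cosh u - 1 := by linarith [Real.one_le_cosh u]
  have hsh : |Real.sinh u| = Real.sinh |u| := Real.abs_sinh u
  have hsh0 : 0 ≤ Real.sinh |u| := by rw [← hsh]; exact abs_nonneg _
  have hexp : Real.cosh u - 1 + Real.sinh |u| = Real.exp |u| - 1 := by
    rw [← Real.cosh_abs u, ← Real.cosh_add_sinh |u|]
    ring
  have hexp2 : Real.exp |u| - 1 ≤ 2 * δ := by
    have hv0 : 0 ≤ |u| := abs_nonneg u
    generalize |u| = v at h hv0
    have h6 : |v| ≤ 1 := by rw [abs_of_nonneg hv0]; exact h.trans hδ1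
    have h7 := Real.abs_exp_sub_one_sub_id_le h6
    have h8 := (abs_le.1 h7).2
    have h9 : v ^ 2 ≤ δ * 1 := by nlinarith
    linarith
  calc |a - b| = |b * (Real.cosh u - 1) + √(1 + b ^ 2) * Real.sinh u| := by rw [h3]
    _ ≤ |b * (Real.cosh u - 1)| + |√(1 + b ^ 2) * Real.sinh u| := abs_add_le _ _
    _ = |b| * (Real.cosh u - 1) + √(1 + b ^ 2) * Real.sinh |u| := by
        rw [abs_mul, abs_mul, abs_of_nonneg hc, hsh, abs_of_nonneg (Real.sqrt_nonneg _)]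
    _ ≤ (1 + |b|) * (Real.cosh u - 1) + (1 + |b|) * Real.sinh |u| := by
        gcongr
        linarith
    _ = (Real.exp |u| - 1) * (1 + |b|) := by rw [← hexp]; ring
    _ ≤ 2 * δ * (1 + |b|) := by gcongr

/-- Size of `arsinh`. -/
theorem ars_le {x K : ℝ} (h : |x| ≤ K) : |Real.arsinh x| ≤ Real.log (1 + 2 * K) := by
  have hK : 0 ≤ K := (abs_nonneg _).trans h
  have h1 : ∀ z : ℝ, 0 ≤ z → z ≤ K → Real.arsinh z ≤ Real.log (1 + 2 * K) := by
    intro z hz hzK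
    unfold Real.arsinh
    have hs : √(1 + z ^ 2) ≤ 1 + z := by
      rw [Real.sqrt_le_left (by positivity)]
      nlinarith
    refine Real.log_le_log ?_ (by linarith)
    have := Real.sqrt_nonneg (1 + z ^ 2)
    have h2 : 0 < √(1 + z ^ 2) := Real.sqrt_pos.2 (by positivity)
    linarith
  rw [abs_le]
  constructor
  · have h2 := h1 (|x|) (abs_nonneg _) h
    have h3 : Real.arsinh (-x) ≤ Real.arsinh |x| := Real.arsinh_strictMono.monotone (neg_le_abs x)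
    rw [Real.arsinh_neg] at h3
    linarith
  · have h2 := h1 (|x|) (abs_nonneg _) h
    have h3 : Real.arsinh x ≤ Real.arsinh |x| := Real.arsinh_strictMono.monotone (le_abs_self x)
    linarith

/-- Equal floors. -/
theorem floor_close {a b δ : ℝ} (hδ : 0 < δ) (h : ⌊a / δ⌋ = ⌊b / δ⌋) : |a - b| ≤ δ := by
  have h1 := Int.floor_le (a / δ)
  have h2 := Int.lt_floor_add_one (a / δ)
  have h3 := Int.floor_le (b / δ)
  have h4 := Int.lt_floor_add_one (b / δ)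
  rw [h] at h1 h2
  have h5 : |a / δ - b / δ| ≤ 1 := by
    rw [abs_le]
    constructor <;> linarith
  rw [← sub_div, abs_div, abs_of_pos hδ, div_le_one hδ] at h5
  exact h5

theorem floor_mem {x K δ : ℝ} (hδ : 0 < δ) (h : |x| ≤ K) :
    ⌊x / δ⌋ ∈ Finset.Icc (-(⌈K / δ⌉)) ⌈K / δ⌉ := by
  rw [Finset.mem_Icc]
  have h1 := abs_le.1 h
  constructor
  · rw [Int.le_floor]
    push_cast
    have h2 := Int.le_ceil (K / δ)
    have h3 : -(K / δ) ≤ x / δ := by
      rw [← neg_div]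
      gcongr
      exact h1.1
    linarith
  · have h2 := Int.le_ceil (K / δ)
    have h3 : x / δ ≤ K / δ := by
      gcongr
      exact h1.2
    have h4 := Int.floor_le (x / δ)
    have h5 : ((⌊x / δ⌋ : ℤ) : ℝ) ≤ (⌈K / δ⌉ : ℤ) := by linarith
    exact_mod_cast h5

/-- The size of the index set. -/
theorem icc_card {K δ : ℝ} (hδ : 0 < δ) (hK : 0 ≤ K) :
    ((Finset.Icc (-(⌈K / δ⌉)) ⌈K / δ⌉).card : ℝ) ≤ 2 * (K / δ) + 3 := by
  have h0 : 0 ≤ K / δ := by positivity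
  have h1 : (0 : ℤ) ≤ ⌈K / δ⌉ := Int.ceil_nonneg h0
  rw [Int.card_Icc]
  have h2 : ((⌈K / δ⌉ + 1 - -⌈K / δ⌉).toNat : ℝ) = ((⌈K / δ⌉ + 1 - -⌈K / δ⌉ : ℤ) : ℝ) := by
    have : (0 : ℤ) ≤ ⌈K / δ⌉ + 1 - -⌈K / δ⌉ := by linarith
    exact_mod_cast congrArg (fun z : ℤ => (z : ℝ)) (Int.toNat_of_nonneg this)
  rw [h2]
  push_cast
  have h3 := Int.ceil_lt_add_one (K / δ)
  linarith

/-- The sum over the pieces. -/
theorem sum_pieces {X K : Type*} [MeasurableSpace X] {μ : Measure X} (S : Set X) (f : X → K)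
    (hf : ∀ k, MeasurableSet (S ∩ f ⁻¹' {k})) (P : Finset K) (hP : ∀ x ∈ S, f x ∈ P)
    (F : X → ℝ≥0∞) (B : ℝ≥0∞)
    (hB : ∀ k ∈ P, ∫⁻ x in S ∩ f ⁻¹' {k}, F x ∂μ ≤ B) : ∫⁻ x in S, F x ∂μ ≤ P.card * B := by
  classical
  have h1 : S = ⋃ k ∈ P, S ∩ f ⁻¹' {k} := by
    ext x
    constructor
    · intro hx
      rw [mem_iUnion₂]
      exact ⟨f x, hP x hx, hx, rfl⟩
    · intro hx
      rw [mem_iUnion₂] at hx
      obtain ⟨k, _, hk, _⟩ := hx
      exact hk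
  have h2 : ∫⁻ x in ⋃ k ∈ P, S ∩ f ⁻¹' {k}, F x ∂μ = ∑ k ∈ P, ∫⁻ x in S ∩ f ⁻¹' {k}, F x ∂μ := by
    refine lintegral_biUnion_finset ?_ (fun k _ => hf k) F
    intro k _ l _ hkl
    refine Set.disjoint_left.2 ?_
    rintro x ⟨_, hx1⟩ ⟨_, hx2⟩
    exact hkl (hx1.symm.trans hx2)
  calc ∫⁻ x in S, F x ∂μ = ∫⁻ x in ⋃ k ∈ P, S ∩ f ⁻¹' {k}, F x ∂μ := by rw [← h1]
    _ = ∑ k ∈ P, ∫⁻ x in S ∩ f ⁻¹' {k}, F x ∂μ := h2
    _ ≤ ∑ _k ∈ P, B := Finset.sum_le_sum hB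
    _ = P.card * B := by rw [Finset.sum_const, nsmul_eq_mul]

/-- **(AL)** for volumes on `ℝ × (ℝ × ℝ^m)`. -/
theorem al_vol2 {m : ℕ} (S : Set (ℝ × (ℝ × (Fin m → ℝ))))
    (Ψ : ℝ × (ℝ × (Fin m → ℝ)) → ℝ × (ℝ × (Fin m → ℝ))) {D0 : ℝ} (hD0 : 0 < D0)
    {c : ℝ} (hc : 0 < c)
    (h0 : ∀ x ∈ S, ∀ y ∈ S, c * (D0 * |x.1 - y.1|) ≤ ‖Ψ x - Ψ y‖)
    (h1 : ∀ x ∈ S, ∀ y ∈ S, c * |x.2.1 - y.2.1| ≤ ‖Ψ x - Ψ y‖)
    (h2 : ∀ x ∈ S, ∀ y ∈ S, ∀ i, c * |x.2.2 i - y.2.2 i| ≤ ‖Ψ x - Ψ y‖) :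
    volume S ≤ ENNReal.ofReal ((1 / c) ^ (m + 2) / D0) * volume (Ψ '' S) := by
  set E1 : (Fin (m + 2) → ℝ) ≃ᵐ ℝ × (Fin (m + 1) → ℝ) :=
    MeasurableEquiv.piFinSuccAbove (fun _ => ℝ) 0 with hE1
  set E2 : (Fin (m + 1) → ℝ) ≃ᵐ ℝ × (Fin m → ℝ) :=
    MeasurableEquiv.piFinSuccAbove (fun _ => ℝ) 0 with hE2
  have hE1p : MeasurePreserving E1 := volume_preserving_piFinSuccAbove (fun _ => ℝ) 0
  have hE2p : MeasurePreserving E2 := volume_preserving_piFinSuccAbove (fun _ => ℝ) 0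
  set E : (Fin (m + 2) → ℝ) ≃ᵐ ℝ × (ℝ × (Fin m → ℝ)) :=
    E1.trans (MeasurableEquiv.prodCongr (MeasurableEquiv.refl ℝ) E2) with hE
  have hEp : MeasurePreserving E := ((MeasurePreserving.id volume).prod hE2p).comp hE1p
  have a1 : ∀ x, (E x).1 = x 0 := fun x => rfl
  have a2 : ∀ x, (E x).2.1 = x 1 := fun x => rfl
  have a3 : ∀ x i, (E x).2.2 i = x i.succ.succ := fun x i => rfl
  have hEn : ∀ u v, ‖E.symm u - E.symm v‖ = ‖u - v‖ := by
    intro u v
    obtain ⟨x, rfl⟩ := E.surjective u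
    obtain ⟨y, rfl⟩ := E.surjective v
    rw [E.symm_apply_apply, E.symm_apply_apply]
    refine le_antisymm ?_ ?_
    · rw [pi_norm_le_iff_of_nonneg (norm_nonneg _)]
      intro i
      refine Fin.cases ?_ (fun j => ?_) i
      · exact norm_fst_le (E x - E y)
      · refine Fin.cases ?_ (fun k => ?_) j
        · exact (norm_fst_le (E x - E y).2).trans (norm_snd_le (E x - E y))
        · exact (norm_le_pi_norm (E x - E y).2.2 k).trans
            ((norm_snd_le (E x - E y).2).trans (norm_snd_le (E x - E y)))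
    · rw [Prod.norm_def, Prod.norm_def]
      refine max_le (norm_le_pi_norm (x - y) 0) (max_le (norm_le_pi_norm (x - y) 1) ?_)
      rw [pi_norm_le_iff_of_nonneg (norm_nonneg _)]
      intro j
      exact norm_le_pi_norm (x - y) j.succ.succ
  have key := al_vol (E ⁻¹' S) (fun x => E.symm (Ψ (E x)))
    (Fin.cons D0 fun _ => 1) (fun i => by
      refine Fin.cases ?_ (fun j => ?_) i
      · exact hD0
      · exact one_pos) hc (fun x hx y hy i => by
      rw [hEn]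
      refine Fin.cases ?_ (fun j => ?_) i
      · exact h0 _ hx _ hy
      · refine Fin.cases ?_ (fun k => ?_) j
        · have h3 := h1 _ hx _ hy
          rw [← one_mul |(E x).2.1 - (E y).2.1|] at h3
          exact h3
        · have h3 := h2 _ hx _ hy k
          rw [← one_mul |(E x).2.2 k - (E y).2.2 k|] at h3
          exact h3)
  rw [Fintype.card_fin, Fin.prod_univ_succ] at key
  simp only [Fin.cons_zero, Fin.cons_succ, Finset.prod_const_one, mul_one] at key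
  have e1 : volume (E ⁻¹' S) = volume S := hEp.measure_preimage_equiv S
  have e2 : volume ((fun x => E.symm (Ψ (E x))) '' (E ⁻¹' S)) = volume (Ψ '' S) := by
    have : (fun x => E.symm (Ψ (E x))) '' (E ⁻¹' S) = E ⁻¹' (Ψ '' S) := by
      ext u
      constructor
      · rintro ⟨x, hx, rfl⟩
        exact ⟨E x, hx, by simp⟩
      · rintro ⟨z, hz, hzu⟩
        refine ⟨E.symm z, ?_, ?_⟩
        · show E (E.symm z) ∈ S
          rwa [E.apply_symm_apply]
        · show E.symm (Ψ (E (E.symm z))) = u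
          rw [E.apply_symm_apply, hzu, E.symm_apply_apply]
    rw [this]
    exact hEp.measure_preimage_equiv _
  rwa [e1, e2] at key

end Pool.Agent.LQN
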