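import Pool.Agent.LQN.KD
import Pool.Agent.LQN.PC

/-!
LQN: scaling, measurability and simple bounds for the line of frequencies.
-/

set_option autoImplicit false

namespace Pool.Agent.LQN

open MeasureTheory Set
open scoped ENNReal NNReal

variable {m : ℕ}

theorem gL_sc (α d : ℝ) (r : Fin m → ℝ) (t : ℝ) (y : Fin m → ℝ) (x1 s t' : ℝ) (y' : Fin m → ℝ)
    (R : ℝ) (i : Fin m) :
    gL α d r t y (x1 / R) (s / R) t' y' i = gL α d r t y x1 s t' y' i / R := by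
  unfold gL LL g1 gn
  ring

theorem gT_sc (α d : ℝ) (r : Fin m → ℝ) (t : ℝ) (y : Fin m → ℝ) (x1 s t' : ℝ) (y' : Fin m → ℝ)
    (R : ℝ) :
    gT α d r t y (x1 / R) (s / R) t' y' = gT α d r t y x1 s t' y' / R := by
  unfold gT TT g1 gn
  ring

theorem gU_sc (α d : ℝ) (r : Fin m → ℝ) (t : ℝ) (y : Fin m → ℝ) (x1 : ℝ) (x : Fin m → ℝ)
    (s t' : ℝ) (y' : Fin m → ℝ) (R : ℝ) (i : Fin m) :
    gU α d r t y (x1 / R) (fun i => x i / R) (s / R) t' y' i =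
      gU α d r t y x1 x s t' y' i / R := by
  unfold gU UU LL g1 gn gw
  ring

theorem ww_sc (α d : ℝ) (r : Fin m → ℝ) (t : ℝ) (y : Fin m → ℝ) (x1 : ℝ) (x : Fin m → ℝ)
    (s R : ℝ) :
    ww (g1 α r t y (x1 / R) (s / R)) (gw y (fun i => x i / R) (s / R)) (gn α d r t y (s / R)) =
      ww (g1 α r t y x1 s) (gw y x s) (gn α d r t y s) / R ^ 2 := by
  unfold ww g1 gn gw
  have : ∀ i, (x i / R + s / R * y i) ^ 2 = (x i + s * y i) ^ 2 / R ^ 2 := fun i => by ring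
  simp only [this]
  rw [← Finset.sum_div]
  ring

/-- `U` at `p` does not depend on `s`. -/
theorem gU_self {α d : ℝ} {r : Fin m → ℝ} {t : ℝ} {y : Fin m → ℝ} (hA : AA α r t y ≠ 0)
    (hH : HH α d r t y ≠ 0) (x1 : ℝ) (x : Fin m → ℝ) (s : ℝ) (i : Fin m) :
    gU α d r t y x1 x s t y i = x i - y i * (r i * (x1 / AA α r t y)) := by
  unfold gU UU LL g1 gn gw
  field_simp
  ring

theorem Rg.A_ge {κ α d : ℝ} {r : Fin m → ℝ} {t : ℝ} {y : Fin m → ℝ} (hκ : 0 < κ) (hκ1 : κ ≤ 1)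
    (h : Rg κ α d r t y) : κ ≤ AA α r t y := by
  unfold AA
  refine Real.le_sqrt_of_sq_le ?_
  have := h.2.1
  nlinarith

theorem Rg.H_ge {κ α d : ℝ} {r : Fin m → ℝ} {t : ℝ} {y : Fin m → ℝ} (hκ : 0 < κ) (hκ1 : κ ≤ 1)
    (h : Rg κ α d r t y) : κ ≤ HH α d r t y := by
  unfold HH
  refine Real.le_sqrt_of_sq_le ?_
  have := h.2.2.2
  nlinarith

theorem Rg.mono {κ κ' α d : ℝ} {r : Fin m → ℝ} {t : ℝ} {y : Fin m → ℝ} (hκ : 0 < κ') (hκ1 : κ' ≤ κ)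
    (h : Rg κ α d r t y) : Rg κ' α d r t y := by
  have h1 : κ⁻¹ ≤ κ'⁻¹ := inv_anti₀ hκ hκ1
  exact ⟨fun i => (h.1 i).trans h1, hκ1.trans h.2.1, h.2.2.1.trans h1, hκ1.trans h.2.2.2⟩

theorem kb_LL_le {κ α d : ℝ} {r : Fin m → ℝ} {t : ℝ} {y : Fin m → ℝ} (hκ : 0 < κ) (hκ1 : κ ≤ 1)
    (h : Rg κ α d r t y) (w1 wn : ℝ) (i : Fin m) :
    |LL α d r w1 wn t y i| ≤ (1 + |r i|) * κ⁻¹ * (|w1| + |wn|) := by
  have hA := h.A_ge hκ hκ1
  have hH := h.H_ge hκ hκ1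
  have hA0 : 0 < AA α r t y := hκ.trans_le hA
  have hH0 : 0 < HH α d r t y := hκ.trans_le hH
  have h1 : |w1 / AA α r t y| ≤ κ⁻¹ * |w1| := by
    rw [abs_div, abs_of_pos hA0, div_eq_inv_mul]
    gcongr
  have h2 : |wn / HH α d r t y| ≤ κ⁻¹ * |wn| := by
    rw [abs_div, abs_of_pos hH0, div_eq_inv_mul]
    gcongr
  have h3 : |1 - r i| ≤ 1 + |r i| := by
    have := abs_sub (1 : ℝ) (r i)
    rwa [abs_one] at this
  unfold LL
  calc |(1 - r i) * (wn / HH α d r t y) - r i * (w1 / AA α r t y)|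
      ≤ |(1 - r i) * (wn / HH α d r t y)| + |r i * (w1 / AA α r t y)| := abs_sub _ _
    _ = |1 - r i| * |wn / HH α d r t y| + |r i| * |w1 / AA α r t y| := by rw [abs_mul, abs_mul]
    _ ≤ (1 + |r i|) * (κ⁻¹ * |wn|) + (1 + |r i|) * (κ⁻¹ * |w1|) := by
        gcongr
        linarith
    _ = (1 + |r i|) * κ⁻¹ * (|w1| + |wn|) := by ring

theorem kb_ww_le {w1 wn K : ℝ} {w : Fin m → ℝ} (hK : 0 ≤ K) (h : ww w1 w wn ≤ K ^ 2) :
    |w1| ≤ K ∧ |wn| ≤ K := by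
  unfold ww at h
  have h1 : 0 ≤ ∑ i, w i ^ 2 := Finset.sum_nonneg fun i _ => sq_nonneg _
  constructor
  · exact abs_le_of_sq_le_sq (by nlinarith [sq_nonneg wn]) hK
  · exact abs_le_of_sq_le_sq (by nlinarith [sq_nonneg w1]) hK

/-- Measurability. -/
theorem m_AA (α : ℝ) (r : Fin m → ℝ) : Measurable fun q : ℝ × (Fin m → ℝ) => AA α r q.1 q.2 := by
  unfold AA rr
  fun_prop

theorem m_HH (α d : ℝ) (r : Fin m → ℝ) :
    Measurable fun q : ℝ × (Fin m → ℝ) => HH α d r q.1 q.2 := by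
  unfold HH ss
  fun_prop

theorem m_gL (α d : ℝ) (r : Fin m → ℝ) (t : ℝ) (y : Fin m → ℝ) (x1 : ℝ) (i : Fin m) :
    Measurable fun q : ℝ × (ℝ × (Fin m → ℝ)) => gL α d r t y x1 q.1 q.2.1 q.2.2 i := by
  have h1 : Measurable fun q : ℝ × (ℝ × (Fin m → ℝ)) => AA α r q.2.1 q.2.2 :=
    (m_AA α r).comp measurable_snd
  have h2 : Measurable fun q : ℝ × (ℝ × (Fin m → ℝ)) => HH α d r q.2.1 q.2.2 :=
    (m_HH α d r).comp measurable_snd
  unfold gL LL g1 gn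
  fun_prop

theorem m_gT (α d : ℝ) (r : Fin m → ℝ) (t : ℝ) (y : Fin m → ℝ) (x1 : ℝ) :
    Measurable fun q : ℝ × (ℝ × (Fin m → ℝ)) => gT α d r t y x1 q.1 q.2.1 q.2.2 := by
  have h1 : Measurable fun q : ℝ × (ℝ × (Fin m → ℝ)) => AA α r q.2.1 q.2.2 :=
    (m_AA α r).comp measurable_snd
  have h2 : Measurable fun q : ℝ × (ℝ × (Fin m → ℝ)) => HH α d r q.2.1 q.2.2 :=
    (m_HH α d r).comp measurable_snd
  unfold gT TT g1 gn
  fun_prop

theorem m_gU (α d : ℝ) (r : Fin m → ℝ) (t : ℝ) (y : Fin m → ℝ) (x1 : ℝ) (x : Fin m → ℝ)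
    (i : Fin m) :
    Measurable fun q : ℝ × (ℝ × (Fin m → ℝ)) => gU α d r t y x1 x q.1 q.2.1 q.2.2 i := by
  have h1 := m_gL α d r t y x1 i
  unfold gL at h1
  unfold gU UU gw
  fun_prop

theorem m_WA (α d : ℝ) (r : Fin m → ℝ) (t : ℝ) (y : Fin m → ℝ) (x1 : ℝ) (x : Fin m → ℝ) (R : ℝ) :
    MeasurableSet {s : ℝ | WA R (g1 α r t y x1 s) (gw y x s) (gn α d r t y s)} := by
  have h1 : Measurable fun s : ℝ => ww (g1 α r t y x1 s) (gw y x s) (gn α d r t y s) := by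
    unfold ww g1 gn gw
    fun_prop
  unfold WA
  exact (measurableSet_le measurable_const h1).inter (measurableSet_le h1 measurable_const)

theorem m_nn (t : ℝ) (y : Fin m → ℝ) :
    Measurable fun q : ℝ × (Fin m → ℝ) => nn t y q.1 q.2 := by
  unfold nn
  fun_prop

theorem m_box (c0 : ℝ) (y0 : Fin m → ℝ) :
    MeasurableSet {y : Fin m → ℝ | ∀ i, |y i - y0 i| ≤ c0 * |y0 i|} := by
  have : {y : Fin m → ℝ | ∀ i, |y i - y0 i| ≤ c0 * |y0 i|} =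
      ⋂ i, {y : Fin m → ℝ | |y i - y0 i| ≤ c0 * |y0 i|} := by
    ext y
    simp
  rw [this]
  exact MeasurableSet.iInter fun i => measurableSet_le (by fun_prop) measurable_const

/-- A product with at most one small factor. -/
theorem prod_low (D : Fin m → ℝ) (j : Fin m) {a b : ℝ} (ha : 0 ≤ a) (hb : 0 ≤ b)
    (h : ∀ i, i ≠ j → a ≤ D i) (hj : b ≤ D j) : b * a ^ (m - 1) ≤ ∏ i, D i := by
  rw [← Finset.mul_prod_erase Finset.univ D (Finset.mem_univ j)]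
  have h1 : a ^ (m - 1) = ∏ _i ∈ Finset.univ.erase j, a := by
    rw [Finset.prod_const, Finset.card_erase_of_mem (Finset.mem_univ j), Finset.card_univ,
      Fintype.card_fin]
  rw [h1]
  refine mul_le_mul hj ?_ (Finset.prod_nonneg fun _ _ => ha) (hb.trans hj)
  exact Finset.prod_le_prod (fun _ _ => ha) fun i hi => h i (Finset.ne_of_mem_erase hi)

/-- The volume of a cube. -/
theorem vol_cube {L : ℝ} (hL : 0 ≤ L) :
    volume {u : Fin m → ℝ | ∀ i, |u i| ≤ L} = ENNReal.ofReal ((2 * L) ^ m) := by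
  have : {u : Fin m → ℝ | ∀ i, |u i| ≤ L} = Icc (fun _ => -L) fun _ => L := by
    ext u
    simp only [mem_ofPred_eq, mem_Icc, Pi.le_def, abs_le]
    exact forall_and
  rw [this, Real.volume_Icc_pi]
  simp only [Finset.prod_const, Finset.card_univ, Fintype.card_fin]
  rw [← ENNReal.ofReal_pow (by linarith)]
  congr 2
  ring

end Pool.Agent.LQN
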