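import Pool.Agent.LQN.KQ0
import Pool.Agent.LQN.KD
import Pool.Agent.LQN.G1

/-!
LQN, row KQ: the sum over pairs of intervals, from the far and the near inner integrals.
-/

set_option autoImplicit false

namespace Pool.Agent.LQN

open MeasureTheory Set
open scoped ENNReal

variable {m : ℕ}

theorem kq_nn_meas (t t' : ℝ) :
    Measurable fun q : (Fin m → ℝ) × (Fin m → ℝ) => nn t q.1 t' q.2 := by
  unfold nn
  fun_prop

/-- A sum over separated points. -/
theorem kq_sum {ι : Type*} [Fintype ι] (t : ι → ℝ) {h : ℝ} (hh : 0 < h)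
    (hsep : ∀ i j, i ≠ j → h ≤ |t i - t j|) (i : ι) (K : ℕ)
    (hK : ∀ j, |t j - t i| ≤ 2 ^ K * h) :
    ∑ j, 1 / max h |t j - t i| ≤ 6 * ((K : ℝ) + 1) / h := by
  classical
  have h1 : ∀ j, 1 / max h |t j - t i| ≤ ∑ k ∈ Finset.range (K + 1),
      (if |t j - t i| ≤ 2 ^ k * h then 2 / (2 ^ k * h) else 0) := by
    intro j
    have hex : ∃ k : ℕ, |t j - t i| ≤ 2 ^ k * h := ⟨K, hK j⟩
    have h2 := Nat.find_spec hex
    have h3 : Nat.find hex ≤ K := Nat.find_min' hex (hK j)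
    refine le_trans ?_ (Finset.single_le_sum
      (f := fun k => if |t j - t i| ≤ 2 ^ k * h then 2 / (2 ^ k * h) else 0)
      (fun k _ => ?_) (Finset.mem_range.2 (Nat.lt_succ_of_le h3)))
    · rw [if_pos h2]
      rcases Nat.eq_zero_or_pos (Nat.find hex) with h4 | h4
      · rw [h4, pow_zero, one_mul]
        have h5 : 1 / max h |t j - t i| ≤ 1 / h := one_div_le_one_div_of_le hh (le_max_left _ _)
        have h6 : 1 / h ≤ 2 / h := by gcongr; norm_num
        exact h5.trans h6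
      · obtain ⟨k, hk⟩ := Nat.exists_eq_succ_of_ne_zero h4.ne'
        have h5 : 2 ^ k * h < |t j - t i| := not_le.1 (Nat.find_min hex (by omega))
        rw [hk, pow_succ]
        have h6 : (0 : ℝ) < 2 ^ k * h := by positivity
        have h7 : 1 / max h |t j - t i| ≤ 1 / (2 ^ k * h) :=
          one_div_le_one_div_of_le h6 (h5.le.trans (le_max_right _ _))
        refine h7.trans (le_of_eq ?_)
        field_simp
    · split_ifs
      · positivity
      · exact le_rfl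
  calc ∑ j, 1 / max h |t j - t i| ≤ ∑ j, ∑ k ∈ Finset.range (K + 1),
        (if |t j - t i| ≤ 2 ^ k * h then 2 / (2 ^ k * h) else 0) :=
        Finset.sum_le_sum fun j _ => h1 j
    _ = ∑ k ∈ Finset.range (K + 1), ∑ j,
        (if |t j - t i| ≤ 2 ^ k * h then 2 / (2 ^ k * h) else 0) := Finset.sum_comm
    _ ≤ ∑ _k ∈ Finset.range (K + 1), 6 / h := by
        refine Finset.sum_le_sum fun k _ => ?_
        rw [← Finset.sum_filter, Finset.sum_const, nsmul_eq_mul]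
        have h2 := LF.ks_card_sep t hh hsep (t i) (2 ^ k * h) (by positivity)
          (Finset.univ.filter fun j => |t j - t i| ≤ 2 ^ k * h)
          (fun j hj => (Finset.mem_filter.1 hj).2)
        have h3 : 2 * (2 ^ k * h) / h + 1 = 2 * 2 ^ k + 1 := by
          field_simp
        rw [h3] at h2
        have h4 : (1 : ℝ) ≤ 2 ^ k := one_le_pow₀ (by norm_num)
        calc ((Finset.univ.filter fun j => |t j - t i| ≤ 2 ^ k * h).card : ℝ) * (2 / (2 ^ k * h))
            ≤ (2 * 2 ^ k + 1) * (2 / (2 ^ k * h)) := by gcongr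
          _ ≤ (3 * 2 ^ k) * (2 / (2 ^ k * h)) := by
              gcongr
              linarith
          _ = 6 / h := by
              field_simp
              norm_num
    _ = 6 * ((K : ℝ) + 1) / h := by
        rw [Finset.sum_const, Finset.card_range, nsmul_eq_mul]
        push_cast
        ring

/-- The number of dyadic scales. -/
theorem kq_K {R : ℝ} (hR : 1 ≤ R) : ∃ K : ℕ, 2 * √R ≤ 2 ^ K ∧ (K : ℝ) + 1 ≤ 4 * (1 + Real.log R) := by
  have hq : 1 ≤ √R := Real.one_le_sqrt.2 hR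
  have h0 : 0 < √R := by linarith
  have hlog : 0 ≤ Real.log R := Real.log_nonneg hR
  refine ⟨⌈Real.logb 2 (2 * √R)⌉₊, ?_, ?_⟩
  · have h2 : Real.logb 2 (2 * √R) ≤ (⌈Real.logb 2 (2 * √R)⌉₊ : ℝ) := Nat.le_ceil _
    rw [Real.logb_le_iff_le_rpow (by norm_num) (by positivity), Real.rpow_natCast] at h2
    exact h2
  · have h1 : Real.logb 2 (2 * √R) = 1 + Real.logb 2 (√R) := by
      rw [Real.logb_mul (by norm_num) h0.ne', Real.logb_self_eq_one (by norm_num)]
    have h2 : Real.logb 2 (√R) ≤ Real.log R := by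
      unfold Real.logb
      rw [Real.log_sqrt (by linarith), div_le_iff₀ (Real.log_pos (by norm_num))]
      nlinarith [Real.log_two_gt_d9]
    have h3 : (⌈Real.logb 2 (2 * √R)⌉₊ : ℝ) < Real.logb 2 (2 * √R) + 1 := by
      refine Nat.ceil_lt_add_one ?_
      rw [h1]
      have := Real.logb_nonneg (b := 2) (by norm_num) hq
      linarith
    linarith

/-- The arithmetic of row KQ. -/
theorem kq_arith {A Cn Cf q Λ ν κi M L c0 K P V N : ℝ} (m : ℕ) (hA : 0 ≤ A) (hCn : 0 < Cn)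
    (hCf : 0 < Cf) (hq : 1 ≤ q) (hΛ : q ≤ Λ) (hν : 0 < ν) (hκi : 1 ≤ κi) (hM : 1 ≤ M)
    (hL : 1 ≤ L) (hc0 : 0 < c0) (hc1 : c0 ≤ 1) (hK : K + 1 ≤ 4 * L) (hK0 : 0 ≤ K)
    (hP0 : 0 ≤ P) (hP : P ≤ ν * κi ^ m) (hV : V = A * (2 * Λ) ^ m * (2 ^ m * P))
    (hN : N ≤ 2 * c0 * q + 1) :
    N * (V * (1 / q) * (Cn * (κi * M * Λ / (q ^ 2 * ν)) * q * (Λ / q ^ 2) ^ m * L ^ m +
      Cf * L ^ m * Λ ^ m / ((q ^ 2) ^ m * ν) * (6 * (K + 1)))) ≤
      3 * (A * 4 ^ m * κi ^ m * (Cn * κi * M + 24 * Cf)) * (Λ / q) ^ (2 * m + 1) * L ^ (m + 2) := by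
  have hq0 : 0 < q := by linarith
  have hΛ0 : 0 < Λ := by linarith
  have h1 : N * (1 / q) ≤ 3 := by
    have h2 : N * (1 / q) ≤ (2 * c0 * q + 1) * (1 / q) := by gcongr
    have h3 : (2 * c0 * q + 1) * (1 / q) = 2 * c0 + 1 / q := by field_simp
    have h4 : 1 / q ≤ 1 := by
      rw [div_le_one hq0]
      exact hq
    linarith
  have hV1 : V ≤ A * 4 ^ m * κi ^ m * (Λ ^ m * ν) := by
    rw [hV]
    have e1 : A * (2 * Λ) ^ m * (2 ^ m * P) = A * 4 ^ m * Λ ^ m * P := by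
      have : (4 : ℝ) ^ m = 2 ^ m * 2 ^ m := by
        rw [← mul_pow]
        norm_num
      rw [mul_pow, this]
      ring
    rw [e1]
    calc A * 4 ^ m * Λ ^ m * P ≤ A * 4 ^ m * Λ ^ m * (ν * κi ^ m) := by gcongr
      _ = A * 4 ^ m * κi ^ m * (Λ ^ m * ν) := by ring
  have hV0 : 0 ≤ V := by
    rw [hV]
    positivity
  have h5 : (Λ / q) ^ (2 * m) ≤ (Λ / q) ^ (2 * m + 1) := by
    refine pow_le_pow_right₀ ?_ (Nat.le_succ _)
    rw [one_le_div hq0]
    exact hΛ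
  have e2 : Λ ^ m * ν * (Cn * (κi * M * Λ / (q ^ 2 * ν)) * q * (Λ / q ^ 2) ^ m * L ^ m) =
      Cn * κi * M * (Λ / q) ^ (2 * m + 1) * L ^ m := by
    rw [div_pow, div_pow]
    field_simp
    ring
  have e3 : Λ ^ m * ν * (Cf * L ^ m * Λ ^ m / ((q ^ 2) ^ m * ν) * (6 * (K + 1))) =
      6 * (K + 1) * Cf * (Λ / q) ^ (2 * m) * L ^ m := by
    rw [div_pow]
    field_simp
    ring
  have h6 : Λ ^ m * ν * (Cn * (κi * M * Λ / (q ^ 2 * ν)) * q * (Λ / q ^ 2) ^ m * L ^ m +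
      Cf * L ^ m * Λ ^ m / ((q ^ 2) ^ m * ν) * (6 * (K + 1))) ≤
      (Cn * κi * M + 24 * Cf) * (Λ / q) ^ (2 * m + 1) * L ^ (m + 2) := by
    rw [mul_add, e2, e3]
    have h7 : L ^ m ≤ L ^ (m + 2) := pow_le_pow_right₀ hL (by omega)
    have h8 : 6 * (K + 1) * L ^ m ≤ 24 * L ^ (m + 2) := by
      have h9 : L ^ (m + 1) ≤ L ^ (m + 2) := pow_le_pow_right₀ hL (by omega)
      calc 6 * (K + 1) * L ^ m ≤ 6 * (4 * L) * L ^ m := by gcongr
        _ = 24 * L ^ (m + 1) := by ring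
        _ ≤ 24 * L ^ (m + 2) := by gcongr
    have hLm : 0 < L ^ m := by positivity
    have h10 : 6 * (K + 1) * Cf * (Λ / q) ^ (2 * m) * L ^ m ≤
        24 * Cf * (Λ / q) ^ (2 * m + 1) * L ^ (m + 2) := by
      calc 6 * (K + 1) * Cf * (Λ / q) ^ (2 * m) * L ^ m
          = Cf * (Λ / q) ^ (2 * m) * (6 * (K + 1) * L ^ m) := by ring
        _ ≤ Cf * (Λ / q) ^ (2 * m + 1) * (24 * L ^ (m + 2)) := by gcongr
        _ = 24 * Cf * (Λ / q) ^ (2 * m + 1) * L ^ (m + 2) := by ring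
    have h11 : Cn * κi * M * (Λ / q) ^ (2 * m + 1) * L ^ m ≤
        Cn * κi * M * (Λ / q) ^ (2 * m + 1) * L ^ (m + 2) := by gcongr
    calc _ ≤ Cn * κi * M * (Λ / q) ^ (2 * m + 1) * L ^ (m + 2) +
          24 * Cf * (Λ / q) ^ (2 * m + 1) * L ^ (m + 2) := add_le_add h11 h10
      _ = _ := by ring
  set I : ℝ := Cn * (κi * M * Λ / (q ^ 2 * ν)) * q * (Λ / q ^ 2) ^ m * L ^ m +
      Cf * L ^ m * Λ ^ m / ((q ^ 2) ^ m * ν) * (6 * (K + 1)) with hI
  have hI0 : 0 ≤ I := by positivity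
  calc N * (V * (1 / q) * I) = (N * (1 / q)) * (V * I) := by ring
    _ ≤ 3 * (A * 4 ^ m * κi ^ m * (Λ ^ m * ν) * I) := by gcongr
    _ = 3 * (A * 4 ^ m * κi ^ m) * (Λ ^ m * ν * I) := by ring
    _ ≤ 3 * (A * 4 ^ m * κi ^ m) *
        ((Cn * κi * M + 24 * Cf) * (Λ / q) ^ (2 * m + 1) * L ^ (m + 2)) := by gcongr
    _ = _ := by ring

/-- The product of the sides of the box. -/
theorem kq_prod {κi : ℝ} (hκi : 1 ≤ κi) (y0 : Fin m → ℝ) (hy : ∀ i, |y0 i| ≤ κi) (i0 : Fin m) :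
    ∏ j, |y0 j| ≤ |y0 i0| * κi ^ m := by
  classical
  rw [← Finset.mul_prod_erase Finset.univ (fun j => |y0 j|) (Finset.mem_univ i0)]
  refine mul_le_mul_of_nonneg_left ?_ (abs_nonneg _)
  calc ∏ j ∈ Finset.univ.erase i0, |y0 j| ≤ ∏ _j ∈ Finset.univ.erase i0, κi :=
        Finset.prod_le_prod (fun j _ => abs_nonneg _) fun j _ => hy j
    _ = κi ^ (Finset.univ.erase i0).card := by rw [Finset.prod_const]
    _ ≤ κi ^ m := by
        refine pow_le_pow_right₀ hκi ?_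
        refine (Finset.card_le_univ _).trans ?_
        rw [Fintype.card_fin]

/-- ROW KQ from the two inner integrals. -/
theorem row_KQ_of (hm : 1 ≤ m) {α : ℝ} {r : Fin m → ℝ} (h : Hyp α r) {κ : ℝ} (hκ : 0 < κ)
    (hκ1 : κ ≤ 1)
    (hfars : ∃ C M c1 : ℝ, 0 < C ∧ 1 ≤ M ∧ 0 < c1 ∧ ∀ c0, 0 < c0 → c0 ≤ c1 →
      ∀ d, 0 ≤ d → d ≤ 1 → ∀ t0 y0, Rg κ α d r t0 y0 → ∀ ν, 0 < ν → (∀ i, ν ≤ |y0 i|) →
      ∀ R Λ, 1 ≤ R → 1 ≤ R * ν ^ 2 → 0 < Λ → ∀ t y t', Bx c0 t0 y0 t y →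
      |t' - t0| ≤ c0 → ∀ ρ, M * Λ ≤ R * ν * ρ → ∀ (x1 : ℝ) (x : Fin m → ℝ),
      (∀ i, |x i - y i * (r i * (x1 / AA α r t y))| ≤ Λ) → ∀ g : ℝ → ℝ≥0∞, Measurable g →
      ∫⁻ s : ℝ, ∫⁻ y' : Fin m → ℝ, ({y' | (∀ i, |y' i - y0 i| ≤ c0 * |y0 i|) ∧
          ρ ≤ nn t y t' y' ∧ WA R (g1 α r t y x1 s) (gw y x s) (gn α d r t y s) ∧
          ∀ i, |gU α d r t y x1 x s t' y' i| ≤ Λ}.indicator
          fun y' => g (gT α d r t y x1 s t' y')) y' ≤
        ENNReal.ofReal (C * (1 + Real.log R) ^ m * Λ ^ m / (R ^ m * ν * ρ)) * ∫⁻ τ, g τ)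
    (hnear : ∃ C c1 : ℝ, 0 < C ∧ 0 < c1 ∧ ∀ c0, 0 < c0 → c0 ≤ c1 → ∀ d, 0 ≤ d → d ≤ 1 →
      ∀ t0 y0, Rg κ α d r t0 y0 → ∀ ν, 0 < ν → (∀ i, ν ≤ |y0 i|) → ∀ R Λ, 1 ≤ R →
      1 ≤ R * ν ^ 2 → √R ≤ Λ → ∀ (ι : Type) [Fintype ι] (t' : ι → ℝ), (∀ i, |t' i - t0| ≤ c0) →
      (∀ i j, i ≠ j → 1 / √R ≤ |t' i - t' j|) → ∀ t y, Bx c0 t0 y0 t y → ∀ ρ, 1 / √R ≤ ρ →
      ∀ (x1 : ℝ) (x : Fin m → ℝ), (∀ i, |x i - y i * (r i * (x1 / AA α r t y))| ≤ Λ) →
      ∑ j, ∫⁻ s : ℝ, ∫⁻ y' : Fin m → ℝ,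
        ({y' | (∀ i, |y' i - y0 i| ≤ c0 * |y0 i|) ∧ nn t y (t' j) y' ≤ ρ ∧
          WA R (g1 α r t y x1 s) (gw y x s) (gn α d r t y s) ∧
          ∀ i, |gU α d r t y x1 x s (t' j) y' i| ≤ Λ}.indicator fun _ => (1 : ℝ≥0∞)) y' ≤
        ENNReal.ofReal (C * ρ * (√R * R) * (Λ / R) ^ m * (1 + Real.log R) ^ m)) :
    ∃ C c1 : ℝ, 0 < C ∧ 0 < c1 ∧ ∀ c0, 0 < c0 → c0 ≤ c1 → ∀ d, 0 ≤ d → d ≤ 1 →
      ∀ t0 y0, Rg κ α d r t0 y0 → (∀ i, y0 i ≠ 0) → ∀ R Λ, 1 ≤ R → (∀ i, 1 ≤ R * y0 i ^ 2) →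
      √R ≤ Λ → ∀ (ι : Type) [Fintype ι] (t : ι → ℝ) (g : ι → ℝ → ℝ≥0∞), (∀ i, |t i - t0| ≤ c0) →
      (∀ i j, i ≠ j → 1 / √R ≤ |t i - t j|) → (∀ i, Measurable (g i)) →
      (∀ i, ∫⁻ τ, g i τ ≤ ENNReal.ofReal (1 / √R)) →
      (∀ i τ, g i τ ≤ ENNReal.ofReal (1 / R)) →
      ∫⁻ w in {w : ℝ × (Fin m → ℝ) × ℝ | WA R w.1 w.2.1 w.2.2},
          (∑ i, ∫⁻ y in {y : Fin m → ℝ | ∀ j, |y j - y0 j| ≤ c0 * |y0 j|},
            ({y | ∀ j, |UU α d r w.1 w.2.2 w.2.1 (t i) y j| ≤ Λ}.indicator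
              fun y => g i (TT α d r w.1 w.2.2 (t i) y)) y) ^ 2 ≤
        ENNReal.ofReal (C * (Λ / √R) ^ (2 * m + 1) * (1 + Real.log R) ^ (m + 2)) := by
  classical
  obtain ⟨Cf, M, cf, hCf, hM, hcf, hF⟩ := hfars
  obtain ⟨Cn, cn, hCn, hcn, hN⟩ := hnear
  obtain ⟨cb, hcb, hcb8, hB⟩ := box_sub h hκ hκ1
  have hκi : 1 ≤ κ⁻¹ := (one_le_inv₀ hκ).2 hκ1
  set A : ℝ := 2 * |α| * (κ / 4)⁻¹ with hAdef
  have hA0 : 0 ≤ A := by positivity
  refine ⟨3 * (A * 4 ^ m * κ⁻¹ ^ m * (Cn * κ⁻¹ * M + 24 * Cf)) + 1, min (min cf cn) cb,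
    by positivity, by positivity, ?_⟩
  intro c0 hc0 hc0le d hd0 hd1 t0 y0 hRg hy0 R Λ hR hRy hΛ ι _ t g ht hsep hg hgi hgs
  have hcf' : c0 ≤ cf := hc0le.trans ((min_le_left _ _).trans (min_le_left _ _))
  have hcn' : c0 ≤ cn := hc0le.trans ((min_le_left _ _).trans (min_le_right _ _))
  have hcb' : c0 ≤ cb := hc0le.trans (min_le_right _ _)
  have hc1 : c0 ≤ 1 := by linarith
  have hR0 : 0 < R := by linarith
  have hq : 1 ≤ √R := Real.one_le_sqrt.2 hR
  have hq0 : 0 < √R := by linarith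
  have hqR : √R ^ 2 = R := Real.sq_sqrt hR0.le
  have hΛ0 : 0 < Λ := by linarith
  have hL : 1 ≤ 1 + Real.log R := by
    have := Real.log_nonneg hR
    linarith
  have : Nonempty (Fin m) := ⟨⟨0, by omega⟩⟩
  obtain ⟨i0, hi0⟩ := Finite.exists_min fun i => |y0 i|
  have hν : 0 < |y0 i0| := abs_pos.2 (hy0 i0)
  have hRν : 1 ≤ R * |y0 i0| ^ 2 := by
    rw [sq_abs]
    exact hRy i0
  have hνκ : |y0 i0| ≤ κ⁻¹ := hRg.1 i0
  obtain ⟨K, hK1, hK2⟩ := kq_K hR
  -- the threshold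
  set ρ0 : ℝ := κ⁻¹ * M * Λ / (R * |y0 i0|) with hρ0
  have hρ0R : R * |y0 i0| * ρ0 = κ⁻¹ * M * Λ := by
    rw [hρ0]
    field_simp
  have hρq : 1 / √R ≤ ρ0 := by
    rw [hρ0, div_le_div_iff₀ hq0 (by positivity), one_mul]
    calc R * |y0 i0| ≤ R * κ⁻¹ := by gcongr
      _ = κ⁻¹ * 1 * (√R * √R) := by
          rw [Real.mul_self_sqrt hR0.le]
          ring
      _ = κ⁻¹ * 1 * √R * √R := by ring
      _ ≤ κ⁻¹ * M * Λ * √R := by gcongr
  have hρ0p : 0 < ρ0 := by positivity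
  -- abbreviations
  set Y : Set (Fin m → ℝ) := {y : Fin m → ℝ | ∀ j, |y j - y0 j| ≤ c0 * |y0 j|} with hY
  have mY : MeasurableSet Y := kq_box_meas y0 _
  set W : Set (ℝ × (Fin m → ℝ) × ℝ) := {w : ℝ × (Fin m → ℝ) × ℝ | WA R w.1 w.2.1 w.2.2} with hW
  have mW : MeasurableSet W := measurableSet_WA R
  set a : ι → ℝ × (Fin m → ℝ) × ℝ → ℝ≥0∞ := fun i w => ∫⁻ y in Y, kF α d r Λ (t i) (g i) w y
    with ha
  have mkF : ∀ i, Measurable fun x : (ℝ × (Fin m → ℝ) × ℝ) × (Fin m → ℝ) =>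
      kF α d r Λ (t i) (g i) x.1 x.2 := fun i => kF_meas α d r Λ (t i) (hg i)
  have ma : ∀ i, Measurable (a i) := fun i => (mkF i).lintegral_prod_right'
  have hsum : ∀ w, (∑ i, a i w) ^ 2 = ∑ i, a i w * ∑ j, a j w := fun w => by
    rw [sq, Finset.sum_mul]
  change ∫⁻ w in W, (∑ i, a i w) ^ 2 ≤ _
  simp only [hsum]
  have mpi : ∀ i ∈ (Finset.univ : Finset ι), Measurable fun w => a i w * ∑ j, a j w :=
    fun i _ => (ma i).mul (Finset.measurable_sum _ fun j _ => ma j)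
  rw [lintegral_finsetSum _ mpi]
  -- the two parts
  set S : ι → ι → Set ((Fin m → ℝ) × (Fin m → ℝ)) := fun i j =>
    {q | nn (t i) q.1 (t j) q.2 ≤ ρ0} with hS
  have mS : ∀ i j, MeasurableSet (S i j) := fun i j =>
    measurableSet_le (kq_nn_meas (t i) (t j)) measurable_const
  set Kn : ι → ι → (Fin m → ℝ) → ℝ × (Fin m → ℝ) × ℝ → ℝ≥0∞ := fun i j y w =>
    ∫⁻ y' in Y, (S i j).indicator 1 (y, y') * kF α d r Λ (t j) (g j) w y' with hKn
  set Kf : ι → ι → (Fin m → ℝ) → ℝ × (Fin m → ℝ) × ℝ → ℝ≥0∞ := fun i j y w =>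
    ∫⁻ y' in Y, (S i j)ᶜ.indicator 1 (y, y') * kF α d r Λ (t j) (g j) w y' with hKf
  have mKn : ∀ i j, Measurable fun x : (ℝ × (Fin m → ℝ) × ℝ) × (Fin m → ℝ) => Kn i j x.2 x.1 :=
    fun i j => kq_K_meas (hg j) (mS i j)
  have mKf : ∀ i j, Measurable fun x : (ℝ × (Fin m → ℝ) × ℝ) × (Fin m → ℝ) => Kf i j x.2 x.1 :=
    fun i j => kq_K_meas (hg j) (mS i j).compl
  have hKsum : ∀ i j y w, Kn i j y w + Kf i j y w = a j w := by
    intro i j y w
    have m1 : Measurable fun y' : Fin m → ℝ =>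
        (S i j).indicator (1 : (Fin m → ℝ) × (Fin m → ℝ) → ℝ≥0∞) (y, y') *
          kF α d r Λ (t j) (g j) w y' :=
      ((measurable_one.indicator (mS i j)).comp measurable_prodMk_left).mul
        ((mkF j).comp measurable_prodMk_left)
    show (∫⁻ y' in Y, (S i j).indicator 1 (y, y') * kF α d r Λ (t j) (g j) w y') +
      (∫⁻ y' in Y, (S i j)ᶜ.indicator 1 (y, y') * kF α d r Λ (t j) (g j) w y') =
      ∫⁻ y' in Y, kF α d r Λ (t j) (g j) w y'
    rw [← lintegral_add_left m1]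
    refine lintegral_congr fun y' => ?_
    by_cases hy' : (y, y') ∈ S i j
    · have hc : (y, y') ∉ (S i j)ᶜ := fun hc => hc hy'
      rw [indicator_of_mem hy', indicator_of_notMem hc, Pi.one_apply, one_mul, zero_mul, add_zero]
    · rw [indicator_of_notMem hy', indicator_of_mem (show (y, y') ∈ (S i j)ᶜ from hy'),
        Pi.one_apply, one_mul, zero_mul, zero_add]
  -- the bound of the inner integrals
  set I : ℝ := Cn * ρ0 * √R * (Λ / R) ^ m * (1 + Real.log R) ^ m +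
    Cf * (1 + Real.log R) ^ m * Λ ^ m / (R ^ m * |y0 i0|) * (6 * ((K : ℝ) + 1)) with hI
  set V : ℝ := 2 * |α| * (κ / 4)⁻¹ * (2 * Λ) ^ m * (2 ^ m * ∏ j, (c0 * |y0 j|)) with hV
  have hV0 : 0 ≤ V := by positivity
  have hI0 : 0 ≤ I := by positivity
  have hone : ∀ i, ∫⁻ w in W, a i w * ∑ j, a j w ≤
      ENNReal.ofReal V * ENNReal.ofReal (1 / √R) * ENNReal.ofReal I := by
    intro i
    have e1 : ∀ w, a i w * ∑ j, a j w = ∫⁻ y in Y, kF α d r Λ (t i) (g i) w y *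
        (fun y w => ∑ j, (Kn i j y w + Kf i j y w)) y w := by
      intro w
      have m2 : Measurable fun y => kF α d r Λ (t i) (g i) w y :=
        (mkF i).comp (measurable_prodMk_left (x := w))
      simp only [hKsum]
      rw [lintegral_mul_const _ m2]
    simp only [e1]
    refine (kq_outer (κ := κ / 4) (t := t i) (by positivity) (by linarith) hc0.le h.α0 hΛ0.le
      (fun y hy => ?_) (hg i) (fun y w => ∑ j, (Kn i j y w + Kf i j y w)) ?_
      (ENNReal.ofReal I) ?_).trans ?_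
    · exact hB d hd0 hd1 t0 y0 (t i) y hRg (bx_mono hcb' ⟨ht i, hy⟩)
    · exact Finset.measurable_sum _ fun j _ => (mKn i j).add (mKf i j)
    · intro y hy x1 x2 hx
      have hbx : Bx c0 t0 y0 (t i) y := ⟨ht i, hy⟩
      have hx' : ∀ j, |x2 j - y j * (r j * (x1 / AA α r (t i) y))| ≤ Λ := by
        intro j
        have e2 : y j * (r j * (x1 / AA α r (t i) y)) = r j * y j / AA α r (t i) y * x1 := by ring
        rw [e2]
        exact hx j
      set ln : ℝ → ℝ × (Fin m → ℝ) × ℝ := fun s =>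
        (x1 + s * AA α r (t i) y, x2 + s • y, -(s * HH α d r (t i) y)) with hln
      have mln : Measurable ln := by fun_prop
      have mn : ∀ j, Measurable fun s => (W.indicator (Kn i j y)) (ln s) := fun j =>
        (((mKn i j).comp (measurable_prodMk_right (y := y))).indicator mW).comp mln
      have mf : ∀ j, Measurable fun s => (W.indicator (Kf i j y)) (ln s) := fun j =>
        (((mKf i j).comp (measurable_prodMk_right (y := y))).indicator mW).comp mln
      have e3 : ∀ s, (W.indicator fun w => ∑ j, (Kn i j y w + Kf i j y w)) (ln s) =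
          ∑ j, ((W.indicator (Kn i j y)) (ln s) + (W.indicator (Kf i j y)) (ln s)) := by
        intro s
        by_cases hs : ln s ∈ W
        · simp only [indicator_of_mem hs]
        · simp only [indicator_of_notMem hs, add_zero, Finset.sum_const_zero]
      have e4 : ∫⁻ s : ℝ, (W.indicator fun w => ∑ j, (Kn i j y w + Kf i j y w)) (ln s) =
          (∑ j, ∫⁻ s : ℝ, (W.indicator (Kn i j y)) (ln s)) +
            (∑ j, ∫⁻ s : ℝ, (W.indicator (Kf i j y)) (ln s)) := by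
        simp only [e3]
        have m3 : ∀ j ∈ (Finset.univ : Finset ι), Measurable fun s =>
            (W.indicator (Kn i j y)) (ln s) + (W.indicator (Kf i j y)) (ln s) :=
          fun j _ => (mn j).add (mf j)
        rw [lintegral_finsetSum _ m3, ← Finset.sum_add_distrib]
        refine Finset.sum_congr rfl fun j _ => ?_
        rw [lintegral_add_left (mn j)]
      show ∫⁻ s : ℝ, (W.indicator fun w => ∑ j, (Kn i j y w + Kf i j y w)) (ln s) ≤ _
      rw [e4]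
      -- near
      have b1 : ∑ j, ∫⁻ s : ℝ, (W.indicator (Kn i j y)) (ln s) ≤
          ENNReal.ofReal (Cn * ρ0 * √R * (Λ / R) ^ m * (1 + Real.log R) ^ m) := by
        have c1 : ∀ j, ∫⁻ s : ℝ, (W.indicator (Kn i j y)) (ln s) ≤ ENNReal.ofReal (1 / R) *
            ∫⁻ s : ℝ, ∫⁻ y' : Fin m → ℝ,
              ({y' | (∀ i, |y' i - y0 i| ≤ c0 * |y0 i|) ∧ nn (t i) y (t j) y' ≤ ρ0 ∧
                WA R (g1 α r (t i) y x1 s) (gw y x2 s) (gn α d r (t i) y s) ∧
                ∀ k, |gU α d r (t i) y x1 x2 s (t j) y' k| ≤ Λ}.indicator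
                  fun _ => (1 : ℝ≥0∞)) y' := by
          intro j
          rw [← lintegral_const_mul' _ _ ENNReal.ofReal_ne_top]
          refine lintegral_mono fun s => ?_
          rw [← lintegral_const_mul' _ _ ENNReal.ofReal_ne_top]
          refine (le_of_eq (kq_ind (S i j) y (ln s))).trans (lintegral_mono fun y' => ?_)
          by_cases hy' : y' ∈ {y' | (∀ j, |y' j - y0 j| ≤ c0 * |y0 j|) ∧ (y, y') ∈ S i j ∧
              WA R (ln s).1 (ln s).2.1 (ln s).2.2 ∧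
              ∀ k, |UU α d r (ln s).1 (ln s).2.2 (ln s).2.1 (t j) y' k| ≤ Λ}
          · rw [indicator_of_mem hy', indicator_of_mem (show y' ∈ {y' : Fin m → ℝ |
              (∀ i, |y' i - y0 i| ≤ c0 * |y0 i|) ∧ nn (t i) y (t j) y' ≤ ρ0 ∧
                WA R (g1 α r (t i) y x1 s) (gw y x2 s) (gn α d r (t i) y s) ∧
                ∀ k, |gU α d r (t i) y x1 x2 s (t j) y' k| ≤ Λ} from hy'), mul_one]
            exact hgs j _
          · rw [indicator_of_notMem hy']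
            exact zero_le
        have c2 := hN c0 hc0 hcn' d hd0 hd1 t0 y0 hRg |y0 i0| hν hi0 R Λ hR hRν hΛ ι t ht hsep
          (t i) y hbx ρ0 hρq x1 x2 hx'
        calc ∑ j, ∫⁻ s : ℝ, (W.indicator (Kn i j y)) (ln s)
            ≤ ∑ j, ENNReal.ofReal (1 / R) * ∫⁻ s : ℝ, ∫⁻ y' : Fin m → ℝ,
              ({y' | (∀ i, |y' i - y0 i| ≤ c0 * |y0 i|) ∧ nn (t i) y (t j) y' ≤ ρ0 ∧
                WA R (g1 α r (t i) y x1 s) (gw y x2 s) (gn α d r (t i) y s) ∧
                ∀ k, |gU α d r (t i) y x1 x2 s (t j) y' k| ≤ Λ}.indicator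
                  fun _ => (1 : ℝ≥0∞)) y' := Finset.sum_le_sum fun j _ => c1 j
          _ ≤ ENNReal.ofReal (1 / R) *
              ENNReal.ofReal (Cn * ρ0 * (√R * R) * (Λ / R) ^ m * (1 + Real.log R) ^ m) := by
              rw [← Finset.mul_sum]
              gcongr
          _ = ENNReal.ofReal (Cn * ρ0 * √R * (Λ / R) ^ m * (1 + Real.log R) ^ m) := by
              rw [← ENNReal.ofReal_mul (by positivity)]
              congr 1
              field_simp
      -- far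
      have b2 : ∑ j, ∫⁻ s : ℝ, (W.indicator (Kf i j y)) (ln s) ≤
          ENNReal.ofReal (Cf * (1 + Real.log R) ^ m * Λ ^ m / (R ^ m * |y0 i0|) *
            (6 * ((K : ℝ) + 1))) := by
        have c1 : ∀ j, ∫⁻ s : ℝ, (W.indicator (Kf i j y)) (ln s) ≤
            ENNReal.ofReal (Cf * (1 + Real.log R) ^ m * Λ ^ m / (R ^ m * |y0 i0|) *
              (1 / √R * (1 / max (1 / √R) |t j - t i|))) := by
          intro j
          have d1 : M * Λ ≤ R * |y0 i0| * max ρ0 |t j - t i| := by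
            calc M * Λ ≤ κ⁻¹ * M * Λ := by
                  have : 1 * (M * Λ) ≤ κ⁻¹ * (M * Λ) :=
                    mul_le_mul_of_nonneg_right hκi (by positivity)
                  linarith
              _ = R * |y0 i0| * ρ0 := hρ0R.symm
              _ ≤ R * |y0 i0| * max ρ0 |t j - t i| := by
                  gcongr
                  exact le_max_left _ _
          have d2 := hF c0 hc0 hcf' d hd0 hd1 t0 y0 hRg |y0 i0| hν hi0 R Λ hR hRν hΛ0 (t i) y (t j)
            hbx (ht j) (max ρ0 |t j - t i|) d1 x1 x2 hx' (g j) (hg j)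
          have d3 : ∫⁻ s : ℝ, (W.indicator (Kf i j y)) (ln s) ≤
              ∫⁻ s : ℝ, ∫⁻ y' : Fin m → ℝ, ({y' | (∀ i, |y' i - y0 i| ≤ c0 * |y0 i|) ∧
                max ρ0 |t j - t i| ≤ nn (t i) y (t j) y' ∧
                WA R (g1 α r (t i) y x1 s) (gw y x2 s) (gn α d r (t i) y s) ∧
                ∀ k, |gU α d r (t i) y x1 x2 s (t j) y' k| ≤ Λ}.indicator
                fun y' => g j (gT α d r (t i) y x1 s (t j) y')) y' := by
            refine lintegral_mono fun s => ?_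
            refine (le_of_eq (kq_ind (S i j)ᶜ y (ln s))).trans (lintegral_mono fun y' => ?_)
            refine indicator_le_indicator_of_subset ?_ (fun _ => zero_le) y'
            rintro z ⟨z1, z2, z3, z4⟩
            refine ⟨z1, ?_, z3, z4⟩
            have z5 : ρ0 < nn (t i) y (t j) z := not_le.1 z2
            refine max_le z5.le ?_
            unfold nn
            have : 0 ≤ ∑ i, |z i - y i| := Finset.sum_nonneg fun i _ => abs_nonneg _
            linarith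
          refine (d3.trans d2).trans ?_
          calc ENNReal.ofReal (Cf * (1 + Real.log R) ^ m * Λ ^ m /
                (R ^ m * |y0 i0| * max ρ0 |t j - t i|)) * ∫⁻ τ, g j τ
              ≤ ENNReal.ofReal (Cf * (1 + Real.log R) ^ m * Λ ^ m /
                (R ^ m * |y0 i0| * max ρ0 |t j - t i|)) * ENNReal.ofReal (1 / √R) := by
                gcongr
                exact hgi j
            _ = ENNReal.ofReal (Cf * (1 + Real.log R) ^ m * Λ ^ m /
                (R ^ m * |y0 i0| * max ρ0 |t j - t i|) * (1 / √R)) := by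
                rw [← ENNReal.ofReal_mul (by positivity)]
            _ ≤ _ := by
                refine ENNReal.ofReal_le_ofReal ?_
                have f1 : 0 < max (1 / √R) |t j - t i| :=
                  lt_of_lt_of_le (by positivity) (le_max_left _ _)
                have f2 : max (1 / √R) |t j - t i| ≤ max ρ0 |t j - t i| :=
                  max_le_max hρq le_rfl
                have f3 : 1 / max ρ0 |t j - t i| ≤ 1 / max (1 / √R) |t j - t i| :=
                  one_div_le_one_div_of_le f1 f2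
                calc Cf * (1 + Real.log R) ^ m * Λ ^ m /
                      (R ^ m * |y0 i0| * max ρ0 |t j - t i|) * (1 / √R)
                    = Cf * (1 + Real.log R) ^ m * Λ ^ m / (R ^ m * |y0 i0|) *
                      (1 / √R * (1 / max ρ0 |t j - t i|)) := by
                      have : 0 < max ρ0 |t j - t i| := lt_of_lt_of_le f1 f2
                      field_simp
                  _ ≤ _ := by gcongr
        have c2 : ∑ j, 1 / max (1 / √R) |t j - t i| ≤ 6 * ((K : ℝ) + 1) / (1 / √R) := by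
          refine kq_sum t (by positivity) hsep i K fun j => ?_
          have e5 : |t j - t i| ≤ 2 * c0 := by
            have f1 := abs_le.1 (ht i)
            have f2 := abs_le.1 (ht j)
            rw [abs_le]
            constructor <;> linarith
          have e6 : 2 ≤ 2 ^ K * (1 / √R) := by
            rw [mul_one_div, le_div_iff₀ hq0]
            exact hK1
          linarith
        calc ∑ j, ∫⁻ s : ℝ, (W.indicator (Kf i j y)) (ln s)
            ≤ ∑ j, ENNReal.ofReal (Cf * (1 + Real.log R) ^ m * Λ ^ m / (R ^ m * |y0 i0|) *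
              (1 / √R * (1 / max (1 / √R) |t j - t i|))) := Finset.sum_le_sum fun j _ => c1 j
          _ = ENNReal.ofReal (∑ j, Cf * (1 + Real.log R) ^ m * Λ ^ m / (R ^ m * |y0 i0|) *
              (1 / √R * (1 / max (1 / √R) |t j - t i|))) := by
              rw [ENNReal.ofReal_sum_of_nonneg fun j _ => by positivity]
          _ ≤ _ := by
              refine ENNReal.ofReal_le_ofReal ?_
              rw [← Finset.mul_sum, ← Finset.mul_sum]
              refine mul_le_mul_of_nonneg_left ?_ (by positivity)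
              calc 1 / √R * ∑ j, 1 / max (1 / √R) |t j - t i|
                  ≤ 1 / √R * (6 * ((K : ℝ) + 1) / (1 / √R)) := by gcongr
                _ = 6 * ((K : ℝ) + 1) := by field_simp
      calc _ ≤ ENNReal.ofReal (Cn * ρ0 * √R * (Λ / R) ^ m * (1 + Real.log R) ^ m) +
            ENNReal.ofReal (Cf * (1 + Real.log R) ^ m * Λ ^ m / (R ^ m * |y0 i0|) *
              (6 * ((K : ℝ) + 1))) := add_le_add b1 b2
        _ = ENNReal.ofReal I := by
            rw [← ENNReal.ofReal_add (by positivity) (by positivity)]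
    · gcongr
      exact hgi i
  -- the sum
  have hP0 : 0 ≤ ∏ j, (c0 * |y0 j|) := by positivity
  have hP : ∏ j, (c0 * |y0 j|) ≤ |y0 i0| * κ⁻¹ ^ m := by
    refine le_trans ?_ (kq_prod hκi y0 hRg.1 i0)
    refine Finset.prod_le_prod (fun j _ => by positivity) fun j _ => ?_
    have : c0 * |y0 j| ≤ 1 * |y0 j| := mul_le_mul_of_nonneg_right hc1 (abs_nonneg _)
    linarith
  have hcard : (Fintype.card ι : ℝ) ≤ 2 * c0 * √R + 1 := by
    have h1 := LF.ks_card_sep t (h := 1 / √R) (by positivity) hsep t0 c0 hc0.le Finset.univ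
      fun i _ => ht i
    rw [Finset.card_univ] at h1
    have h2 : 2 * c0 / (1 / √R) = 2 * c0 * √R := by field_simp
    rw [h2] at h1
    exact h1
  have hfin := kq_arith (A := A) (Cn := Cn) (Cf := Cf) (q := √R) (Λ := Λ) (ν := |y0 i0|)
    (κi := κ⁻¹) (M := M) (L := 1 + Real.log R) (c0 := c0) (K := K) (P := ∏ j, (c0 * |y0 j|))
    (V := V) (N := Fintype.card ι) m hA0 hCn hCf hq hΛ hν hκi hM hL hc0 hc1 hK2
    (Nat.cast_nonneg _) hP0 hP rfl hcard
  rw [hqR] at hfin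
  calc ∑ i, ∫⁻ w in W, a i w * ∑ j, a j w
      ≤ ∑ _i : ι, ENNReal.ofReal V * ENNReal.ofReal (1 / √R) * ENNReal.ofReal I :=
        Finset.sum_le_sum fun i _ => hone i
    _ = ENNReal.ofReal ((Fintype.card ι : ℝ) * (V * (1 / √R) * I)) := by
        have e7 : ENNReal.ofReal V * ENNReal.ofReal (1 / √R) * ENNReal.ofReal I =
            ENNReal.ofReal (V * (1 / √R) * I) := by
          have e8 : 0 ≤ V * (1 / √R) := by positivity
          rw [← ENNReal.ofReal_mul hV0, ← ENNReal.ofReal_mul e8]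
        have e9 : (0 : ℝ) ≤ (Fintype.card ι : ℝ) := Nat.cast_nonneg _
        rw [Finset.sum_const, nsmul_eq_mul, Finset.card_univ, e7, ENNReal.ofReal_mul e9,
          ENNReal.ofReal_natCast]
    _ ≤ _ := by
        refine ENNReal.ofReal_le_ofReal ?_
        have hI' : (Fintype.card ι : ℝ) * (V * (1 / √R) * I) =
            (Fintype.card ι : ℝ) * (V * (1 / √R) * (Cn * (κ⁻¹ * M * Λ / (R * |y0 i0|)) * √R *
            (Λ / R) ^ m * (1 + Real.log R) ^ m + Cf * (1 + Real.log R) ^ m * Λ ^ m /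
            (R ^ m * |y0 i0|) * (6 * ((K : ℝ) + 1)))) := rfl
        rw [hI']
        refine hfin.trans ?_
        gcongr
        linarith

end Pool.Agent.LQN
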