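import Pool.Agent.LF.Tb

/-!
LEAFQ for every `n`: the coordinates of `E m` and `E (m + 2)`.
-/

set_option autoImplicit false

namespace Pool.Agent.LQN

open MeasureTheory Set Metric Pool.Agent.MP_6cbfb8_an
open scoped ENNReal

/-- The coordinates of `E m`. -/
theorem int_m {m : ℕ} (F : (Fin m → ℝ) → ℝ≥0∞) : ∫⁻ z : E m, F (fun i => z i) = ∫⁻ y, F y :=
  (EuclideanSpace.volume_preserving_symm_measurableEquiv_toLp (Fin m)).lintegral_comp_emb
    (MeasurableEquiv.measurableEmbedding _) F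

/-- The same on a set. -/
theorem int_m_set {m : ℕ} (B : Set (Fin m → ℝ)) (hB : MeasurableSet B)
    (F : (Fin m → ℝ) → ℝ≥0∞) :
    ∫⁻ z in {z : E m | (fun i => z i) ∈ B}, F (fun i => z i) = ∫⁻ y in B, F y := by
  have h1 : MeasurableSet {z : E m | (fun i => z i) ∈ B} :=
    hB.preimage (by fun_prop : Measurable fun z : E m => fun i => z i)
  rw [← lintegral_indicator h1, ← lintegral_indicator hB, ← int_m]
  refine lintegral_congr fun z => ?_
  by_cases h : (fun i => z i) ∈ B
  · rw [indicator_of_mem (show z ∈ {z : E m | (fun i => z i) ∈ B} from h), indicator_of_mem h]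
  · rw [indicator_of_notMem (show z ∉ {z : E m | (fun i => z i) ∈ B} from h),
      indicator_of_notMem h]

/-- The coordinates `ξ_0, (ξ_1, ..., ξ_m), ξ_{m+1}` of `E (m + 2)`. -/
theorem int_m2 {m : ℕ} (F : ℝ × (Fin m → ℝ) × ℝ → ℝ≥0∞) :
    ∫⁻ ξ : E (m + 2), F (ξ 0, fun i => ξ i.succ.castSucc, ξ (Fin.last (m + 1))) =
      ∫⁻ w, F w := by
  have h1 := EuclideanSpace.volume_preserving_symm_measurableEquiv_toLp (Fin (m + 2))
  have h2 := volume_preserving_piFinSuccAbove (fun _ : Fin (m + 2) => ℝ) 0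
  have h3 := volume_preserving_piFinSuccAbove (fun _ : Fin (m + 1) => ℝ) (Fin.last m)
  have h4 : MeasurePreserving (MeasurableEquiv.prodComm (α := ℝ) (β := Fin m → ℝ)) volume volume :=
    Measure.measurePreserving_swap
  have h5 : MeasurePreserving (MeasurableEquiv.prodCongr (MeasurableEquiv.refl ℝ)
      ((MeasurableEquiv.piFinSuccAbove (fun _ : Fin (m + 1) => ℝ) (Fin.last m)).trans
        MeasurableEquiv.prodComm)) volume volume :=
    (MeasurePreserving.id volume).prod (h4.comp h3)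
  have e1 := h1.lintegral_comp_emb (MeasurableEquiv.measurableEmbedding _)
    fun f => F (MeasurableEquiv.prodCongr (MeasurableEquiv.refl ℝ)
      ((MeasurableEquiv.piFinSuccAbove (fun _ : Fin (m + 1) => ℝ) (Fin.last m)).trans
        MeasurableEquiv.prodComm) (MeasurableEquiv.piFinSuccAbove (fun _ : Fin (m + 2) => ℝ) 0 f))
  have e2 := h2.lintegral_comp_emb (MeasurableEquiv.measurableEmbedding _)
    fun f => F (MeasurableEquiv.prodCongr (MeasurableEquiv.refl ℝ)
      ((MeasurableEquiv.piFinSuccAbove (fun _ : Fin (m + 1) => ℝ) (Fin.last m)).trans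
        MeasurableEquiv.prodComm) f)
  have e3 := h5.lintegral_comp_emb (MeasurableEquiv.measurableEmbedding _) F
  refine Eq.trans (lintegral_congr fun ξ => ?_) (e1.trans (e2.trans e3))
  congr 1
  refine Prod.ext rfl (Prod.ext ?_ ?_)
  · funext i
    show ξ i.succ.castSucc = ξ ((0 : Fin (m + 2)).succAbove ((Fin.last m).succAbove i))
    rw [Fin.succAbove_last, Fin.zero_succAbove, Fin.succ_castSucc]
  · show ξ (Fin.last (m + 1)) = ξ ((0 : Fin (m + 2)).succAbove (Fin.last m))
    rw [Fin.zero_succAbove, Fin.succ_last]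

/-- The norm of `E (m + 2)` in these coordinates. -/
theorem norm_m2 {m : ℕ} (w : E (m + 2)) :
    ‖w‖ ^ 2 = w 0 ^ 2 + ∑ i : Fin m, w i.succ.castSucc ^ 2 + w (Fin.last (m + 1)) ^ 2 := by
  rw [EuclideanSpace.norm_sq_eq, Fin.sum_univ_castSucc, Fin.sum_univ_succ]
  simp [Fin.castSucc_zero]

theorem kq_coord_le {m : ℕ} (z : E m) (i : Fin m) : |z i| ≤ ‖z‖ := by
  rw [← Real.norm_eq_abs]
  exact PiLp.norm_apply_le z i

end Pool.Agent.LQN
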