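import Pool.Agent.LQN.KQE0

/-!
LEAFQ for every `n`: the transport of KAK, abstract form.
-/

set_option autoImplicit false

namespace Pool.Agent.LQN

open MeasureTheory Set Metric Pool.Agent.MP_6cbfb8_an
open scoped ENNReal

/-- The coordinates of a frequency. -/
def cw {m : ℕ} (ξ : E (m + 2)) : ℝ × (Fin m → ℝ) × ℝ :=
  (ξ 0, fun i => ξ i.succ.castSucc, ξ (Fin.last (m + 1)))

/-- The transport of an estimate over the coordinates. -/
theorem kqe_abs {m : ℕ} {ι : Type*} [Fintype ι] {A : Set (E (m + 2))} (hA : MeasurableSet A)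
    {W : Set (ℝ × (Fin m → ℝ) × ℝ)} (hW : ∀ ξ ∈ A, cw ξ ∈ W) {B : Set (Fin m → ℝ)}
    (hB : MeasurableSet B) {Λ : ℝ} {Vv : E (m + 2) → ι → E m → E m}
    {Tt : E (m + 2) → ι → E m → ℝ}
    {U : ℝ × (Fin m → ℝ) × ℝ → ι → (Fin m → ℝ) → Fin m → ℝ}
    {T : ℝ × (Fin m → ℝ) × ℝ → ι → (Fin m → ℝ) → ℝ}
    (hU : ∀ ξ i z, (fun j => z j) ∈ B → ∀ j, Vv ξ i z j = U (cw ξ) i (fun j => z j) j)
    (hT : ∀ ξ i z, (fun j => z j) ∈ B → Tt ξ i z = T (cw ξ) i (fun j => z j))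
    (g : ι → ℝ → ℝ≥0∞) :
    ∫⁻ ξ in A, (∑ i, ∫⁻ z in {z : E m | (fun j => z j) ∈ B},
        ({z | ‖Vv ξ i z‖ ≤ Λ}.indicator fun z => g i (Tt ξ i z)) z) ^ 2 ≤
      ∫⁻ w in W, (∑ i, ∫⁻ y in B,
        ({y | ∀ j, |U w i y j| ≤ Λ}.indicator fun y => g i (T w i y)) y) ^ 2 := by
  have hBm : MeasurableSet {z : E m | (fun j => z j) ∈ B} :=
    hB.preimage (by fun_prop : Measurable fun z : E m => fun i => z i)
  have hin : ∀ ξ i, ∫⁻ z in {z : E m | (fun j => z j) ∈ B},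
        ({z | ‖Vv ξ i z‖ ≤ Λ}.indicator fun z => g i (Tt ξ i z)) z ≤
      ∫⁻ y in B, ({y | ∀ j, |U (cw ξ) i y j| ≤ Λ}.indicator fun y => g i (T (cw ξ) i y)) y := by
    intro ξ i
    rw [← int_m_set B hB]
    refine setLIntegral_mono' hBm fun z hz => ?_
    by_cases h : ‖Vv ξ i z‖ ≤ Λ
    · have h1 : (fun j => z j) ∈ {y : Fin m → ℝ | ∀ j, |U (cw ξ) i y j| ≤ Λ} := by
        intro j
        rw [← hU ξ i z hz j]
        exact (kq_coord_le _ j).trans h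
      rw [indicator_of_mem (show z ∈ {z | ‖Vv ξ i z‖ ≤ Λ} from h), indicator_of_mem h1,
        hT ξ i z hz]
    · rw [indicator_of_notMem (show z ∉ {z | ‖Vv ξ i z‖ ≤ Λ} from h)]
      exact zero_le
  set G : ℝ × (Fin m → ℝ) × ℝ → ℝ≥0∞ := fun w => (∑ i, ∫⁻ y in B,
    ({y | ∀ j, |U w i y j| ≤ Λ}.indicator fun y => g i (T w i y)) y) ^ 2 with hG
  calc ∫⁻ ξ in A, (∑ i, ∫⁻ z in {z : E m | (fun j => z j) ∈ B},
        ({z | ‖Vv ξ i z‖ ≤ Λ}.indicator fun z => g i (Tt ξ i z)) z) ^ 2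
      ≤ ∫⁻ ξ in A, G (cw ξ) := by
        refine setLIntegral_mono' hA fun ξ _ => ?_
        simp only [hG]
        gcongr with i _
        exact hin ξ i
    _ = ∫⁻ ξ, A.indicator (fun ξ => G (cw ξ)) ξ := (lintegral_indicator hA _).symm
    _ ≤ ∫⁻ ξ, W.indicator G (cw ξ) := by
        refine lintegral_mono fun ξ => ?_
        by_cases h : ξ ∈ A
        · rw [indicator_of_mem h, indicator_of_mem (hW ξ h)]
        · rw [indicator_of_notMem h]
          exact zero_le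
    _ = ∫⁻ w, W.indicator G w := int_m2 (W.indicator G)
    _ ≤ ∫⁻ w in W, G w := lintegral_indicator_le _ _

end Pool.Agent.LQN
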