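import Pool.Agent.LQN.KQE1
import Pool.Agent.LQN.Df

/-!
LEAFQ for every `n`: the estimate KAK in the language of the charts, abstract form.
-/

set_option autoImplicit false

namespace Pool.Agent.LQN

open MeasureTheory Set Metric Pool.Agent.MP_6cbfb8_an Pool.Agent.LF
open scoped RealInnerProductSpace ContDiff ENNReal NNReal

variable {m : ℕ}

/-- The box of leaf coordinates is measurable. -/
theorem meas_bxy (c0 : ℝ) (y0 : Fin m → ℝ) :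
    MeasurableSet {y : Fin m → ℝ | ∀ j, |y j - y0 j| ≤ c0 * |y0 j|} := by
  have : {y : Fin m → ℝ | ∀ j, |y j - y0 j| ≤ c0 * |y0 j|} =
      ⋂ j, {y : Fin m → ℝ | |y j - y0 j| ≤ c0 * |y0 j|} := by
    ext y
    simp
  rw [this]
  exact MeasurableSet.iInter fun j => measurableSet_le (by fun_prop) measurable_const

theorem meas_annulus (a b : ℝ) : MeasurableSet {ξ : E (m + 2) | a ≤ ‖ξ‖ ∧ ‖ξ‖ ≤ b} :=
  (measurableSet_le measurable_const measurable_norm).inter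
    (measurableSet_le measurable_norm measurable_const)

/-- The annulus. -/
theorem cw_WA {R : ℝ} (hR : 0 ≤ R) {ξ : E (m + 2)} (h : R / 2 ≤ ‖ξ‖ ∧ ‖ξ‖ ≤ 4 * R) :
    WA R (cw ξ).1 (cw ξ).2.1 (cw ξ).2.2 := by
  have h4 : ‖ξ‖ ^ 2 = ww (cw ξ).1 (cw ξ).2.1 (cw ξ).2.2 := norm_m2 ξ
  have hξ := norm_nonneg ξ
  obtain ⟨a, b⟩ := h
  unfold WA
  rw [← h4]
  constructor <;> nlinarith

/-- The point estimate of one family of boxes. -/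
theorem kqe_pt {α : ℝ} {r : Fin m → ℝ} {c0 d t0 R Λ B0 : ℝ} {z0 : E m} (hR : 0 ≤ R)
    {X : ℝ × E m → E (m + 2)}
    (hX : ∀ t (z : E m), Bx c0 t0 z0.ofLp t z.ofLp →
      (∀ w : E (m + 2), ⟪w, Xt X (t, z)⟫ =
        TT α d r (w 0) (w (Fin.last (m + 1))) t z.ofLp) ∧
      ∀ (w : E (m + 2)) (i : Fin m), Vw X w (t, z) i =
        UU α d r (w 0) (w (Fin.last (m + 1))) (fun i => w i.succ.castSucc) t z.ofLp i)
    {ι : Type} [Fintype ι] {t : ι → ℝ} {g : ι → ℝ → ℝ≥0∞} (ht : ∀ i, |t i - t0| ≤ c0)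
    (h : ∫⁻ w in {w : ℝ × (Fin m → ℝ) × ℝ | WA R w.1 w.2.1 w.2.2},
          (∑ i, ∫⁻ y in {y : Fin m → ℝ | ∀ j, |y j - z0 j| ≤ c0 * |z0 j|},
            ({y | ∀ j, |UU α d r w.1 w.2.2 w.2.1 (t i) y j| ≤ Λ}.indicator
              fun y => g i (TT α d r w.1 w.2.2 (t i) y)) y) ^ 2 ≤ ENNReal.ofReal B0) :
    ∫⁻ ξ in {ξ : E (m + 2) | R / 2 ≤ ‖ξ‖ ∧ ‖ξ‖ ≤ 4 * R},
          (∑ i, ∫⁻ z in {z : E m | ∀ j, |z j - z0 j| ≤ c0 * |z0 j|},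
            ({z | ‖Vw X ξ (t i, z)‖ ≤ Λ}.indicator
              fun z => g i ⟪ξ, Xt X (t i, z)⟫) z) ^ 2 ≤ ENNReal.ofReal B0 := by
  refine le_trans ?_ h
  exact kqe_abs (m := m) (ι := ι) (A := {ξ : E (m + 2) | R / 2 ≤ ‖ξ‖ ∧ ‖ξ‖ ≤ 4 * R})
    (meas_annulus _ _) (W := {w : ℝ × (Fin m → ℝ) × ℝ | WA R w.1 w.2.1 w.2.2})
    (fun ξ hξ => cw_WA hR hξ)
    (B := {y : Fin m → ℝ | ∀ j, |y j - z0 j| ≤ c0 * |z0 j|}) (meas_bxy c0 fun i => z0 i)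
    (Λ := Λ) (Vv := fun ξ i z => Vw X ξ (t i, z)) (Tt := fun ξ i z => ⟪ξ, Xt X (t i, z)⟫)
    (U := fun w i y j => UU α d r w.1 w.2.2 w.2.1 (t i) y j)
    (T := fun w i y => TT α d r w.1 w.2.2 (t i) y)
    (fun ξ i z hz j => (hX (t i) z ⟨ht i, hz⟩).2 ξ j)
    (fun ξ i z hz => (hX (t i) z ⟨ht i, hz⟩).1 ξ) g

end Pool.Agent.LQN
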