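import Pool.Agent.LQN.NEARS
import Pool.Agent.LQN.KB
import Pool.Agent.LQN.G1

/-!
LQN: the near part, summed over separated times (thickening of the times).
-/

set_option autoImplicit false

namespace Pool.Agent.LQN

open MeasureTheory Set
open scoped ENNReal NNReal

variable {m : ℕ}

/-- The constant of `nrs_U`. -/
noncomputable def nrsK (κ α : ℝ) (r : Fin m → ℝ) : ℝ :=
  κ⁻¹ * (1 + 2 * ∑ i, |r i|) * (2 * κ⁻¹ ^ 3 / |α|)

theorem nrsK_pos {κ α : ℝ} (hκ : 0 < κ) (hα : α ≠ 0) (r : Fin m → ℝ) : 0 < nrsK κ α r := by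
  unfold nrsK
  have h1 : 0 < |α| := abs_pos.2 hα
  have h2 : 0 ≤ ∑ i, |r i| := Finset.sum_nonneg fun _ _ => abs_nonneg _
  positivity

/-- The gradient at two times. -/
theorem nrs_U {κ α d : ℝ} {r : Fin m → ℝ} (hα : α ≠ 0) (hκ : 0 < κ) (hκ1 : κ ≤ 1)
    (hd0 : 0 ≤ d) (hd1 : d ≤ 1) {t t' : ℝ} {y : Fin m → ℝ} (h : Rg κ α d r t y)
    (h' : Rg κ α d r t' y) {w1 wn R : ℝ} (hR : 0 ≤ R) (w : Fin m → ℝ) (h1 : |w1| ≤ 4 * R)
    (hn : |wn| ≤ 4 * R) (i : Fin m) :
    |UU α d r w1 wn w t' y i - UU α d r w1 wn w t y i| ≤ nrsK κ α r * R * |t' - t| := by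
  have hA := h.A_ge hκ hκ1
  have hA' := h'.A_ge hκ hκ1
  have hH := h.H_ge hκ hκ1
  have hH' := h'.H_ge hκ hκ1
  have ha : 0 < |α| := abs_pos.2 hα
  have e1 := inv_A_diff hα r t t' y y (lt_of_lt_of_le hκ h.2.1) (lt_of_lt_of_le hκ h'.2.1) w1
  have e2 := inv_H_diff hα r t t' y y (lt_of_lt_of_le hκ h.2.2.2) (lt_of_lt_of_le hκ h'.2.2.2) wn
  have p1 : PP α r (fun i => (y i + y i) / 2) (t' - t) (fun i => y i - y i) =
      (t' - t) / (2 * α) := by
    unfold PP
    simp
  have p2 : SS α r (fun i => (y i + y i) / 2) (t' - t) (fun i => y i - y i) =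
      (t' - t) / (2 * α) := by
    unfold SS
    simp
  rw [p1] at e1
  rw [p2] at e2
  set A := AA α r t y
  set A' := AA α r t' y
  set H := HH α d r t y
  set H' := HH α d r t' y
  have hc : ∀ x X X' : ℝ, κ ≤ X → κ ≤ X' → |2 * x / (X * X' * (X + X'))| ≤ κ⁻¹ ^ 3 * |x| := by
    intro x X X' hX hX'
    have h0 : 0 < X := lt_of_lt_of_le hκ hX
    have h0' : 0 < X' := lt_of_lt_of_le hκ hX'
    have h1 : κ * κ * (κ + κ) ≤ X * X' * (X + X') := by gcongr
    rw [abs_div, abs_mul, abs_two, abs_of_pos (show 0 < X * X' * (X + X') by positivity),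
      div_le_iff₀ (by positivity)]
    have h2 : κ⁻¹ ^ 3 * |x| * (κ * κ * (κ + κ)) = 2 * |x| := by
      field_simp
      ring
    rw [← h2]
    gcongr
  have ht : |(t' - t) / (2 * α)| = |t' - t| / (2 * |α|) := by
    rw [abs_div, abs_mul, abs_two]
  have c1 : |w1 / A' - w1 / A| ≤ 2 * κ⁻¹ ^ 3 / |α| * R * |t' - t| := by
    rw [e1, abs_neg, abs_mul, ht]
    calc _ ≤ κ⁻¹ ^ 3 * |w1| * (|t' - t| / (2 * |α|)) := by
          gcongr
          exact hc w1 A A' hA hA'
      _ ≤ κ⁻¹ ^ 3 * (4 * R) * (|t' - t| / (2 * |α|)) := by gcongr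
      _ = _ := by
          field_simp
          ring
  have c2 : |wn / H' - wn / H| ≤ 2 * κ⁻¹ ^ 3 / |α| * R * |t' - t| := by
    rw [e2, abs_mul, ht]
    have h3 : 2 * d ^ 2 * wn / (H * H' * (H + H')) = 2 * (d ^ 2 * wn) / (H * H' * (H + H')) := by
      ring
    have h4 : |d ^ 2 * wn| ≤ |wn| := by
      rw [abs_mul, abs_of_nonneg (sq_nonneg d)]
      have : d ^ 2 ≤ 1 := by nlinarith
      have := mul_le_mul_of_nonneg_right this (abs_nonneg wn)
      linarith
    rw [h3]
    calc _ ≤ κ⁻¹ ^ 3 * |d ^ 2 * wn| * (|t' - t| / (2 * |α|)) := by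
          gcongr
          exact hc (d ^ 2 * wn) H H' hH hH'
      _ ≤ κ⁻¹ ^ 3 * (4 * R) * (|t' - t| / (2 * |α|)) := by
          gcongr
          exact h4.trans hn
      _ = _ := by
          field_simp
          ring
  have e3 : UU α d r w1 wn w t' y i - UU α d r w1 wn w t y i =
      y i * ((1 - r i) * (wn / H' - wn / H) - r i * (w1 / A' - w1 / A)) := by
    unfold UU LL
    ring
  have hr : |r i| ≤ ∑ i, |r i| :=
    Finset.single_le_sum (f := fun i => |r i|) (fun _ _ => abs_nonneg _) (Finset.mem_univ i)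
  have hr' : |1 - r i| ≤ 1 + ∑ i, |r i| := by
    have := abs_sub (1 : ℝ) (r i)
    rw [abs_one] at this
    linarith
  set Q := 2 * κ⁻¹ ^ 3 / |α| * R * |t' - t| with hQ
  have hQ0 : 0 ≤ Q := by positivity
  rw [e3, abs_mul]
  have h5 : |(1 - r i) * (wn / H' - wn / H) - r i * (w1 / A' - w1 / A)| ≤
      (1 + 2 * ∑ i, |r i|) * Q := by
    refine (abs_sub _ _).trans ?_
    rw [abs_mul, abs_mul]
    calc _ ≤ (1 + ∑ i, |r i|) * Q + (∑ i, |r i|) * Q := by gcongr
      _ = _ := by ring
  calc |y i| * |(1 - r i) * (wn / H' - wn / H) - r i * (w1 / A' - w1 / A)| ≤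
      κ⁻¹ * ((1 + 2 * ∑ i, |r i|) * Q) := by
        have := h.1 i
        gcongr
    _ = _ := by
        rw [hQ]
        unfold nrsK
        ring

/-- Thickening of separated times. -/
theorem nrs_thick {ι : Type} [Fintype ι] (t : ι → ℝ) {e : ℝ}
    (hsep : ∀ i j, i ≠ j → e ≤ |t i - t j|) (S : ι → Set (ℝ × (Fin m → ℝ)))
    (hS : ∀ j, MeasurableSet (S j)) (T : Set (ℝ × (ℝ × (Fin m → ℝ))))
    (hT : ∀ j s u y, t j ≤ u → u < t j + e → (s, y) ∈ S j → (s, (u, y)) ∈ T) :
    ∑ j, ENNReal.ofReal e * volume (S j) ≤ volume T := by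
  classical
  set P : ι → Set (ℝ × (ℝ × (Fin m → ℝ))) := fun j =>
    {q | q.2.1 ∈ Ico (t j) (t j + e)} ∩ (fun q => (q.1, q.2.2)) ⁻¹' (S j) with hP
  have hPm : ∀ j, MeasurableSet (P j) := by
    intro j
    refine MeasurableSet.inter ?_ ?_
    · exact (measurable_fst.comp measurable_snd) measurableSet_Ico
    · exact (measurable_fst.prodMk (measurable_snd.comp measurable_snd)) (hS j)
  have hPv : ∀ j, volume (P j) = ENNReal.ofReal e * volume (S j) := by
    intro j
    have h1 : volume (P j) = ∫⁻ s : ℝ, volume (Prod.mk s ⁻¹' P j) :=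
      Measure.prod_apply (hPm j)
    have h2 : volume (S j) = ∫⁻ s : ℝ, volume (Prod.mk s ⁻¹' S j) :=
      Measure.prod_apply (hS j)
    have h3 : ∀ s : ℝ, Prod.mk s ⁻¹' P j = Ico (t j) (t j + e) ×ˢ (Prod.mk s ⁻¹' S j) := by
      intro s
      ext q
      rfl
    have h4 : Measurable fun s : ℝ => volume (Prod.mk s ⁻¹' S j) :=
      measurable_measure_prodMk_left (hS j)
    rw [h1, h2, ← lintegral_const_mul _ h4]
    refine lintegral_congr fun s => ?_
    rw [h3]
    rw [show (volume : Measure (ℝ × (Fin m → ℝ))) = (volume : Measure ℝ).prod volume from rfl,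
      Measure.prod_prod, Real.volume_Ico]
    congr 2
    ring
  have hdisj : Pairwise fun i j => Disjoint (P i) (P j) := by
    intro i j hij
    refine Set.disjoint_left.2 ?_
    rintro ⟨s, u, y⟩ ⟨h1, -⟩ ⟨h2, -⟩
    have h3 : t i ≤ u ∧ u < t i + e := h1
    have h4 : t j ≤ u ∧ u < t j + e := h2
    have h5 := hsep i j hij
    have h6 : |t i - t j| < e := by
      rw [abs_lt]
      constructor <;> linarith [h3.1, h3.2, h4.1, h4.2]
    linarith
  calc ∑ j, ENNReal.ofReal e * volume (S j) = ∑ j, volume (P j) := by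
        exact Finset.sum_congr rfl fun j _ => (hPv j).symm
    _ = ∑' j, volume (P j) := (tsum_fintype _).symm
    _ = volume (⋃ j, P j) := (measure_iUnion hdisj hPm).symm
    _ ≤ volume T := by
        refine measure_mono (iUnion_subset fun j => ?_)
        rintro ⟨s, u, y⟩ ⟨h1, h2⟩
        exact hT j s u y h1.1 h1.2 h2

/-- ROW near_sum. -/
theorem near_sum {α : ℝ} {r : Fin m → ℝ} (hm : 1 ≤ m) (h : Hyp α r) {κ : ℝ} (hκ : 0 < κ)
    (hκ1 : κ ≤ 1) : ∃ C c1 : ℝ, 0 < C ∧ 0 < c1 ∧ ∀ c0, 0 < c0 → c0 ≤ c1 →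
      ∀ d, 0 ≤ d → d ≤ 1 → ∀ t0 y0, Rg κ α d r t0 y0 → ∀ ν, 0 < ν → (∀ i, ν ≤ |y0 i|) →
      ∀ R Λ, 1 ≤ R → 1 ≤ R * ν ^ 2 → √R ≤ Λ → ∀ (ι : Type) [Fintype ι] (t' : ι → ℝ),
      (∀ i, |t' i - t0| ≤ c0) → (∀ i j, i ≠ j → 1 / √R ≤ |t' i - t' j|) →
      ∀ t y, Bx c0 t0 y0 t y → ∀ ρ, 1 / √R ≤ ρ → ∀ (x1 : ℝ) (x : Fin m → ℝ),
      ∑ j, ∫⁻ s : ℝ, ∫⁻ y' : Fin m → ℝ, ({y' | (∀ i, |y' i - y0 i| ≤ c0 * |y0 i|) ∧
          nn t y (t' j) y' ≤ ρ ∧ WA R (g1 α r t y x1 s) (gw y x s) (gn α d r t y s) ∧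
          ∀ i, |gU α d r t y x1 x s (t' j) y' i| ≤ Λ}.indicator fun _ => (1 : ℝ≥0∞)) y' ≤
        ENNReal.ofReal (C * ρ * (√R * R) * (Λ / R) ^ m * (1 + Real.log R) ^ m) := by
  obtain ⟨C, c1, hC, hc1, NS⟩ := nears hm h hκ hκ1
  obtain ⟨cb, hcb, hcb8, box⟩ := box_sub h hκ hκ1
  have hκ4 : 0 < κ / 4 := by positivity
  have hκ41 : κ / 4 ≤ 1 := by linarith
  have hα : 0 < |α| := abs_pos.2 h.α0
  set K : ℝ := nrsK (κ / 4) α r with hK
  have hK0 : 0 < K := nrsK_pos hκ4 h.α0 r
  set c : ℝ := min c1 cb with hc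
  have hc0 : 0 < c := lt_min hc1 hcb
  have hcc1 : c ≤ c1 := min_le_left _ _
  have hccb : c ≤ cb := min_le_right _ _
  have hc8 : c ≤ 1 / 8 := hccb.trans hcb8
  set c' : ℝ := min (c / 2) (1 / K) with hc'
  have hc'0 : 0 < c' := lt_min (by positivity) (by positivity)
  have hc'c : c' ≤ c / 2 := min_le_left _ _
  have hc'K : K * c' ≤ 1 := by
    have := mul_le_mul_of_nonneg_left (min_le_right (c / 2) (1 / K)) hK0.le
    rwa [mul_one_div_cancel hK0.ne'] at this
  have hc'1 : c' ≤ 1 := by linarith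
  set M : ℝ := 4 * (κ / 4)⁻¹ with hM
  have hM0 : 0 < M := by positivity
  set C3 : ℝ := C * 2 * 2 ^ m + 2 * M * 4 * (2 * κ⁻¹) ^ m * (2 / c1) ^ m with hC3
  have hC30 : 0 < C3 := by positivity
  refine ⟨C3 / c', c / 2, by positivity, by positivity, ?_⟩
  intro c0 hc00 hc0c d hd0 hd1 t0 y0 hRg ν hν hνy R Λ hR hRν hΛ ι _ t' ht' hsep t y hB ρ hρ x1 x
  have hR0 : 0 < R := by linarith
  have hsR : 1 ≤ √R := Real.one_le_sqrt.2 hR
  have hsR0 : 0 < √R := by linarith
  have hsR2 : √R * √R = R := Real.mul_self_sqrt hR0.le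
  have hΛ0 : 0 < Λ := by linarith
  have hρ0 : 0 < ρ := lt_of_lt_of_le (by positivity) hρ
  have hlog : 0 ≤ Real.log R := Real.log_nonneg hR
  set e : ℝ := c' / √R with he
  have he0 : 0 < e := by positivity
  have he1 : e ≤ 1 / √R := by rw [he]; gcongr
  have hec : e ≤ c' := div_le_self hc'0.le hsR
  -- the sets
  set S : ι → Set (ℝ × (Fin m → ℝ)) := fun j => {q | (∀ i, |q.2 i - y0 i| ≤ c0 * |y0 i|) ∧
    nn t y (t' j) q.2 ≤ ρ ∧ WA R (g1 α r t y x1 q.1) (gw y x q.1) (gn α d r t y q.1) ∧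
      ∀ i, |gU α d r t y x1 x q.1 (t' j) q.2 i| ≤ Λ} with hS
  set T : Set (ℝ × (ℝ × (Fin m → ℝ))) := {q | Bx c t0 y0 q.2.1 q.2.2 ∧
    nn t y q.2.1 q.2.2 ≤ 2 * ρ ∧ WA R (g1 α r t y x1 q.1) (gw y x q.1) (gn α d r t y q.1) ∧
      ∀ i, |gU α d r t y x1 x q.1 q.2.1 q.2.2 i| ≤ 2 * Λ} with hT
  have hSm : ∀ j, MeasurableSet (S j) := by
    intro j
    refine MeasurableSet.inter (measurable_snd (m_box c0 y0)) (MeasurableSet.inter ?_
      (MeasurableSet.inter (measurable_fst (m_WA α d r t y x1 x R)) ?_))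
    · exact measurableSet_le ((m_nn t y).comp (measurable_const.prodMk measurable_snd))
        measurable_const
    · have h1 : {q : ℝ × (Fin m → ℝ) | ∀ i, |gU α d r t y x1 x q.1 (t' j) q.2 i| ≤ Λ} =
          ⋂ i, {q : ℝ × (Fin m → ℝ) | |gU α d r t y x1 x q.1 (t' j) q.2 i| ≤ Λ} := by
        ext q
        simp
      show MeasurableSet {q : ℝ × (Fin m → ℝ) | ∀ i, |gU α d r t y x1 x q.1 (t' j) q.2 i| ≤ Λ}
      rw [h1]
      refine MeasurableSet.iInter fun i => measurableSet_le ?_ measurable_const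
      have h2 : Measurable fun q : ℝ × (Fin m → ℝ) => gU α d r t y x1 x q.1 (t' j) q.2 i :=
        (m_gU α d r t y x1 x i).comp
          (measurable_fst.prodMk (measurable_const.prodMk measurable_snd))
      exact continuous_abs.measurable.comp h2
  have hSv : ∀ j, ∫⁻ s : ℝ, ∫⁻ y' : Fin m → ℝ, ({y' | (∀ i, |y' i - y0 i| ≤ c0 * |y0 i|) ∧
      nn t y (t' j) y' ≤ ρ ∧ WA R (g1 α r t y x1 s) (gw y x s) (gn α d r t y s) ∧
      ∀ i, |gU α d r t y x1 x s (t' j) y' i| ≤ Λ}.indicator fun _ => (1 : ℝ≥0∞)) y' =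
      volume (S j) := by
    intro j
    have h1 : volume (S j) = ∫⁻ s : ℝ, volume (Prod.mk s ⁻¹' S j) :=
      Measure.prod_apply (hSm j)
    rw [h1]
    refine lintegral_congr fun s => ?_
    have h2 : MeasurableSet (Prod.mk s ⁻¹' S j) := measurable_prodMk_left (hSm j)
    have h3 := lintegral_indicator_const (μ := (volume : Measure (Fin m → ℝ))) h2 (1 : ℝ≥0∞)
    rw [one_mul] at h3
    exact h3
  have hthick := nrs_thick t' (e := e) (fun i j hij => he1.trans (hsep i j hij)) S hSm T ?_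
  · -- the volume of `T`
    have hTv : volume T ≤
        ENNReal.ofReal (C3 * ρ * R * (Λ / R) ^ m * (1 + Real.log R) ^ m) := by
      have hl1 : 1 ≤ (1 + Real.log R) ^ m := one_le_pow₀ (by linarith)
      have hy0 : ∀ i, y0 i ≠ 0 := fun i hi => by
        have := hνy i
        rw [hi, abs_zero] at this
        linarith
      rcases le_or_gt (2 * Λ) (c1 * R) with hcase | hcase
      · have h1 := NS c hc0 hcc1 d hd0 hd1 t0 y0 hRg hy0 R (2 * Λ) hR (fun i => by
          have h2 : ν ^ 2 ≤ y0 i ^ 2 := by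
            rw [← sq_abs (y0 i)]
            have := hνy i
            gcongr
          nlinarith) (by positivity) hcase t y
          ⟨hB.1.trans (by linarith), fun i => (hB.2 i).trans (by
            have := abs_nonneg (y0 i)
            nlinarith)⟩ (2 * ρ) (by positivity) x1 x
        refine h1.trans (ENNReal.ofReal_le_ofReal ?_)
        have h3 : (2 * Λ / R) ^ m = 2 ^ m * (Λ / R) ^ m := by
          rw [← mul_pow]
          congr 1
          ring
        rw [h3]
        have h4 : C * (2 * ρ) * R * (2 ^ m * (Λ / R) ^ m) * (1 + Real.log R) ^ m =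
            (C * 2 * 2 ^ m) * (ρ * R * (Λ / R) ^ m * (1 + Real.log R) ^ m) := by ring
        have h5 : C3 * ρ * R * (Λ / R) ^ m * (1 + Real.log R) ^ m =
            C3 * (ρ * R * (Λ / R) ^ m * (1 + Real.log R) ^ m) := by ring
        rw [h4, h5]
        refine mul_le_mul_of_nonneg_right ?_ (by positivity)
        rw [hC3]
        have : 0 ≤ 2 * M * 4 * (2 * κ⁻¹) ^ m * (2 / c1) ^ m := by positivity
        linarith
      · have hsub : T ⊆ Icc (-(M * R)) (M * R) ×ˢ (Icc (t - 2 * ρ) (t + 2 * ρ) ×ˢ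
            Icc (fun i => y0 i - κ⁻¹) (fun i => y0 i + κ⁻¹)) := by
          rintro ⟨s, u, z⟩ ⟨q1, q2, q3, -⟩
          have hp := box d hd0 hd1 t0 y0 t y hRg ⟨hB.1.trans (by linarith), fun i =>
            (hB.2 i).trans (by
              have := abs_nonneg (y0 i)
              nlinarith)⟩
          have hH := hp.H_ge hκ4 hκ41
          have hH0 : 0 < HH α d r t y := hκ4.trans_le hH
          refine ⟨?_, ?_, ?_⟩
          · have h1 : ww (g1 α r t y x1 s) (gw y x s) (gn α d r t y s) ≤ (4 * R) ^ 2 := by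
              refine q3.2.trans (le_of_eq ?_)
              ring
            have h2 := (kb_ww_le (by positivity) h1).2
            have h3 : |s| * HH α d r t y ≤ 4 * R := by
              have h4 : |gn α d r t y s| = |s| * HH α d r t y := by
                unfold gn
                rw [abs_neg, abs_mul, abs_of_pos hH0]
              rw [← h4]
              exact h2
            have h4 : |s| * (κ / 4) ≤ 4 * R := by
              refine le_trans ?_ h3
              gcongr
            have h5 : |s| ≤ M * R := by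
              rw [hM]
              have h6 : |s| ≤ 4 * R / (κ / 4) := by
                rw [le_div_iff₀ hκ4]
                exact h4
              refine h6.trans (le_of_eq ?_)
              field_simp
            exact abs_le.1 h5
          · have h1 : |u - t| ≤ nn t y u z := by
              unfold nn
              have : 0 ≤ ∑ i, |z i - y i| := Finset.sum_nonneg fun _ _ => abs_nonneg _
              linarith
            have h2 := abs_le.1 (h1.trans q2)
            exact ⟨by linarith [h2.1], by linarith [h2.2]⟩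
          · have h1 : ∀ i, |z i - y0 i| ≤ κ⁻¹ := fun i => by
              have h2 : |z i - y0 i| ≤ c * |y0 i| := q1.2 i
              have h3 := hRg.1 i
              have := abs_nonneg (y0 i)
              nlinarith
            exact ⟨fun i => by linarith [(abs_le.1 (h1 i)).1],
              fun i => by linarith [(abs_le.1 (h1 i)).2]⟩
        refine (measure_mono hsub).trans ?_
        rw [show (volume : Measure (ℝ × (ℝ × (Fin m → ℝ)))) =
          (volume : Measure ℝ).prod ((volume : Measure ℝ).prod volume) from rfl,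
          Measure.prod_prod, Measure.prod_prod, Real.volume_Icc, Real.volume_Icc,
          Real.volume_Icc_pi]
        have h1 : ∀ i : Fin m, ENNReal.ofReal (y0 i + κ⁻¹ - (y0 i - κ⁻¹)) =
            ENNReal.ofReal (2 * κ⁻¹) := fun i => by
          congr 1
          ring
        rw [Finset.prod_congr rfl fun i _ => h1 i, Finset.prod_const, Finset.card_univ,
          Fintype.card_fin, ← ENNReal.ofReal_pow (by positivity),
          ← ENNReal.ofReal_mul (by linarith), ← ENNReal.ofReal_mul (by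
            have : 0 < M * R := by positivity
            linarith)]
        refine ENNReal.ofReal_le_ofReal ?_
        have h2 : 1 ≤ (2 / c1) ^ m * (Λ / R) ^ m := by
          rw [← mul_pow]
          refine one_le_pow₀ ?_
          rw [div_mul_div_comm, le_div_iff₀ (by positivity)]
          linarith
        have h3 : (M * R - -(M * R)) * ((t + 2 * ρ - (t - 2 * ρ)) * (2 * κ⁻¹) ^ m) =
            2 * M * 4 * (2 * κ⁻¹) ^ m * (ρ * R) * 1 * 1 := by ring
        rw [h3]
        calc 2 * M * 4 * (2 * κ⁻¹) ^ m * (ρ * R) * 1 * 1 ≤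
            2 * M * 4 * (2 * κ⁻¹) ^ m * (ρ * R) * ((2 / c1) ^ m * (Λ / R) ^ m) *
              (1 + Real.log R) ^ m := by gcongr
          _ = 2 * M * 4 * (2 * κ⁻¹) ^ m * (2 / c1) ^ m *
              (ρ * R * (Λ / R) ^ m * (1 + Real.log R) ^ m) := by ring
          _ ≤ C3 * (ρ * R * (Λ / R) ^ m * (1 + Real.log R) ^ m) := by
              refine mul_le_mul_of_nonneg_right ?_ (by positivity)
              rw [hC3]
              have : 0 ≤ C * 2 * 2 ^ m := by positivity
              linarith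
          _ = _ := by ring
    simp only [hSv]
    rw [← Finset.mul_sum] at hthick
    have h1 : ∑ j, volume (S j) ≤ ENNReal.ofReal (1 / e) * volume T := by
      have h2 : ENNReal.ofReal (1 / e) * (ENNReal.ofReal e * ∑ j, volume (S j)) =
          ∑ j, volume (S j) := by
        rw [← mul_assoc, ← ENNReal.ofReal_mul (by positivity), one_div_mul_cancel he0.ne',
          ENNReal.ofReal_one, one_mul]
      rw [← h2]
      gcongr
    refine h1.trans ?_
    calc ENNReal.ofReal (1 / e) * volume T ≤ ENNReal.ofReal (1 / e) *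
        ENNReal.ofReal (C3 * ρ * R * (Λ / R) ^ m * (1 + Real.log R) ^ m) := by gcongr
      _ = _ := by
        rw [← ENNReal.ofReal_mul (by positivity)]
        congr 1
        rw [he]
        field_simp
  · -- the thickened points
    intro j s u z hu1 hu2 hz
    obtain ⟨z1, z2, z3, z4⟩ := hz
    have hut : |u - t' j| ≤ e := by
      rw [abs_le]
      constructor <;> linarith
    have hzc : ∀ i, |z i - y0 i| ≤ c * |y0 i| := fun i => (z1 i).trans (by
      have := abs_nonneg (y0 i)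
      nlinarith)
    have hB' : Bx c t0 y0 u z := by
      refine ⟨?_, hzc⟩
      have h1 : |u - t0| ≤ |u - t' j| + |t' j - t0| := abs_sub_le _ _ _
      have := ht' j
      linarith
    have hB1 : Bx c t0 y0 (t' j) z := ⟨(ht' j).trans (by linarith), hzc⟩
    have hbx : ∀ {v w}, Bx c t0 y0 v w → Rg (κ / 4) α d r v w := fun {v w} hv =>
      box d hd0 hd1 t0 y0 v w hRg ⟨hv.1.trans hccb, fun i => (hv.2 i).trans (by
        have := abs_nonneg (y0 i)
        nlinarith)⟩
    refine ⟨hB', ?_, z3, ?_⟩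
    · have h1 : nn t y u z ≤ nn t y (t' j) z + |u - t' j| := by
        unfold nn
        have := abs_sub_le u (t' j) t
        linarith
      have h2 : e ≤ ρ := he1.trans hρ
      show nn t y u z ≤ 2 * ρ
      linarith
    · intro i
      have h1 : ww (g1 α r t y x1 s) (gw y x s) (gn α d r t y s) ≤ (4 * R) ^ 2 := by
        refine z3.2.trans (le_of_eq ?_)
        ring
      obtain ⟨h2, h3⟩ := kb_ww_le (by positivity) h1
      have h4 := nrs_U h.α0 hκ4 hκ41 hd0 hd1 (hbx hB1) (hbx hB') hR0.le (gw y x s) h2 h3 i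
      have h5 : nrsK (κ / 4) α r * R * |u - t' j| ≤ Λ := by
        calc nrsK (κ / 4) α r * R * |u - t' j| ≤ K * R * e := by gcongr
          _ = (K * c') * √R := by
              rw [he]
              nth_rewrite 1 [← hsR2]
              field_simp
          _ ≤ 1 * √R := by gcongr
          _ ≤ Λ := by linarith
      have h6 := z4 i
      show |gU α d r t y x1 x s u z i| ≤ 2 * Λ
      have h7 : |gU α d r t y x1 x s u z i| ≤ |gU α d r t y x1 x s u z i -
          gU α d r t y x1 x s (t' j) z i| + |gU α d r t y x1 x s (t' j) z i| := by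
        have := abs_add_le (gU α d r t y x1 x s u z i - gU α d r t y x1 x s (t' j) z i)
          (gU α d r t y x1 x s (t' j) z i)
        rwa [sub_add_cancel] at this
      have h8 : |gU α d r t y x1 x s u z i - gU α d r t y x1 x s (t' j) z i| ≤ Λ := h4.trans h5
      have h9 : |gU α d r t y x1 x s (t' j) z i| ≤ Λ := h6
      linarith

end Pool.Agent.LQN
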