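import Pool.Agent.LQN.KQ
import Pool.Agent.LQN.FARS
import Pool.Agent.LQN.NRS

/-!
LEAFQ for every `n`, row KQ.
-/

set_option autoImplicit false

namespace Pool.Agent.LQN

open MeasureTheory Set
open scoped ENNReal

variable {m : ℕ}

/-- ROW KQ: the sum over pairs of intervals. -/
theorem row_KQ (hm : 1 ≤ m) {α : ℝ} {r : Fin m → ℝ} (h : Hyp α r) {κ : ℝ} (hκ : 0 < κ)
    (hκ1 : κ ≤ 1) :
    ∃ C c1 : ℝ, 0 < C ∧ 0 < c1 ∧ ∀ c0, 0 < c0 → c0 ≤ c1 → ∀ d, 0 ≤ d → d ≤ 1 →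
      ∀ t0 y0, Rg κ α d r t0 y0 → (∀ i, y0 i ≠ 0) → ∀ R Λ, 1 ≤ R → (∀ i, 1 ≤ R * y0 i ^ 2) →
      √R ≤ Λ → ∀ (ι : Type) [Fintype ι] (t : ι → ℝ) (g : ι → ℝ → ℝ≥0∞), (∀ i, |t i - t0| ≤ c0) →
      (∀ i j, i ≠ j → 1 / √R ≤ |t i - t j|) → (∀ i, Measurable (g i)) →
      (∀ i, ∫⁻ τ, g i τ ≤ ENNReal.ofReal (1 / √R)) →
      (∀ i τ, g i τ ≤ ENNReal.ofReal (1 / R)) →
      ∫⁻ w in {w : ℝ × (Fin m → ℝ) × ℝ | WA R w.1 w.2.1 w.2.2},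
          (∑ i, ∫⁻ y in {y : Fin m → ℝ | ∀ j, |y j - y0 j| ≤ c0 * |y0 j|},
            ({y | ∀ j, |UU α d r w.1 w.2.2 w.2.1 (t i) y j| ≤ Λ}.indicator
              fun y => g i (TT α d r w.1 w.2.2 (t i) y)) y) ^ 2 ≤
        ENNReal.ofReal (C * (Λ / √R) ^ (2 * m + 1) * (1 + Real.log R) ^ (m + 2)) := by
  refine row_KQ_of hm h hκ hκ1 (fars hm h hκ hκ1) ?_
  obtain ⟨C, c1, hC, hc1, H⟩ := near_sum hm h hκ hκ1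
  exact ⟨C, c1, hC, hc1, fun c0 h1 h2 d h3 h4 t0 y0 h5 ν h6 h7 R Λ h8 h9 h10 ι _ t' h11 h12 t y
    h13 ρ h14 x1 x _ => H c0 h1 h2 d h3 h4 t0 y0 h5 ν h6 h7 R Λ h8 h9 h10 ι t' h11 h12 t y h13 ρ
    h14 x1 x⟩

end Pool.Agent.LQN
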