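import Pool.Agent.LQN.L2N1
import Pool.Agent.LQN.Df2

/-!
LQN, row L2N: the mean square over a ball of frequencies, for a density in a box.
-/

set_option autoImplicit false

namespace Pool.Agent.LQN

open MeasureTheory Set Metric Pool.Agent.MP_6cbfb8_an Pool.Agent.LF
open scoped RealInnerProductSpace ContDiff ENNReal NNReal ComplexConjugate

variable {m : ℕ}

/-- Facts on `AA` in the small region. -/
theorem l2n_AA {κ α d : ℝ} {r : Fin m → ℝ} (hκ : 0 ≤ κ) {t : ℝ} {y : Fin m → ℝ}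
    (h : Rs κ α d r t y) : 0 ≤ AA α r t y ∧ AA α r t y ≤ 2 ∧
      AA α r t y ^ 2 = t / α - ∑ i, r i * y i ^ 2 := by
  obtain ⟨-, h1, h2, -⟩ := h
  refine ⟨Real.sqrt_nonneg _, ?_, ?_⟩
  · unfold AA
    rw [Real.sqrt_le_left (by norm_num)]
    linarith
  · unfold AA
    rw [Real.sq_sqrt (by linarith)]
    rfl

/-- **ROW L2N**, a box with centre `z0` and half sides `ν i`. -/
theorem l2n_box {κ α : ℝ} {r : Fin m → ℝ} (hκ : 0 ≤ κ) (hα : α ≠ 0) : ∃ C : ℝ, 0 < C ∧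
    ∀ (d : ℝ) (X : ℝ × E m → E (m + 2)), Measurable X →
      (∀ t (z : E m), Rs κ α d r t z.ofLp → X (t, z) 0 = AA α r t z.ofLp ∧
        ∀ i : Fin m, X (t, z) i.succ.castSucc = z i) →
      ∀ (b : ℝ × E m → ℂ) (B0 : ℝ) (z0 : E m) (ν : Fin m → ℝ), 0 ≤ B0 → (∀ i, 0 ≤ ν i) →
      Measurable b → (∀ p, ‖b p‖ ≤ B0) →
      (∀ t (z : E m), ¬ (Rs κ α d r t z.ofLp ∧ ∀ i, |z i - z0 i| ≤ ν i) →
        b (t, z) = 0) →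
      ∀ R : ℝ, 1 ≤ R →
        ∫⁻ ξ in {ξ : E (m + 2) | ‖ξ‖ ≤ 2 * R}, ‖Tb X b ξ‖ₑ ^ (2 : ℝ) ≤
          ENNReal.ofReal (C * B0 ^ 2 * R * ∏ i, ν i) := by
  have hK := l2nK_pos α r
  obtain ⟨C, hC, hM⟩ := l2n_abs m (K := l2nK α r) (by linarith)
  refine ⟨C, hC, ?_⟩
  intro d X hX hXr b B0 z0 ν hB0 hν hbm hb hs R hR
  have hsupp : ∀ t (z : E m), b (t, z) ≠ 0 → Rs κ α d r t z.ofLp ∧
      ∀ i, |z i - z0 i| ≤ ν i := by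
    intro t z hp
    by_contra h
    exact hp (hs t z h)
  refine hM X hX b B0 z0 ν hB0 hν hbm hb ?_ ?_ R hR
  · rintro ⟨t, z⟩ hp
    obtain ⟨h1, h2⟩ := hsupp t z hp
    obtain ⟨a0, a1, a2⟩ := l2n_AA hκ h1
    refine ⟨?_, h2⟩
    have h3 := l2n_t_le hα r t (fun i => z i) a2 a0 a1 h1.1
    unfold l2nK
    show |t| ≤ _
    linarith
  · rintro ⟨t, z⟩ ⟨t', z'⟩ hp hp'
    obtain ⟨h1, -⟩ := hsupp t z hp
    obtain ⟨h2, -⟩ := hsupp t' z' hp'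
    obtain ⟨x0, x1⟩ := hXr t z h1
    obtain ⟨y0, y1⟩ := hXr t' z' h2
    obtain ⟨a0, a1, a2⟩ := l2n_AA hκ h1
    obtain ⟨b0, b1, b2⟩ := l2n_AA hκ h2
    exact l2n_sep hα r (by rw [x0]; exact a0) (by rw [y0]; exact b0) (by rw [x0]; exact a1)
      (by rw [y0]; exact b1) (by rw [x0]; exact a2) (by rw [y0]; exact b2) h1.1 h2.1 x1 y1

/-- **ROW L2N**, a box around `0`. -/
theorem l2n_zero {κ α : ℝ} {r : Fin m → ℝ} (hκ : 0 ≤ κ) (hα : α ≠ 0) : ∃ C : ℝ, 0 < C ∧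
    ∀ (d : ℝ) (X : ℝ × E m → E (m + 2)), Measurable X →
      (∀ t (z : E m), Rs κ α d r t z.ofLp → X (t, z) 0 = AA α r t z.ofLp ∧
        ∀ i : Fin m, X (t, z) i.succ.castSucc = z i) →
      ∀ (b : ℝ × E m → ℂ) (B0 : ℝ) (ν : Fin m → ℝ), 0 ≤ B0 → (∀ i, 0 ≤ ν i) →
      Measurable b → (∀ p, ‖b p‖ ≤ B0) →
      (∀ t (z : E m), ¬ (Rs κ α d r t z.ofLp ∧ ∀ i, |z i| ≤ ν i) → b (t, z) = 0) →
      ∀ R : ℝ, 1 ≤ R →
        ∫⁻ ξ in {ξ : E (m + 2) | ‖ξ‖ ≤ 2 * R}, ‖Tb X b ξ‖ₑ ^ (2 : ℝ) ≤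
          ENNReal.ofReal (C * B0 ^ 2 * R * ∏ i, ν i) := by
  obtain ⟨C, hC, hM⟩ := l2n_box (κ := κ) (r := r) hκ hα
  refine ⟨C, hC, ?_⟩
  intro d X hX hXr b B0 ν hB0 hν hbm hb hs R hR
  refine hM d X hX hXr b B0 0 ν hB0 hν hbm hb (fun t z h => hs t z fun h' => h ⟨h'.1, ?_⟩) R hR
  intro i
  rw [PiLp.zero_apply, sub_zero]
  exact h'.2 i

/-- **ROW L2N**, general densities: `C R ∫ |b|²`. -/
theorem l2n_mass {κ α : ℝ} {r : Fin m → ℝ} (hκ : 0 ≤ κ) (hα : α ≠ 0) : ∃ C : ℝ, 0 < C ∧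
    ∀ (d : ℝ) (X : ℝ × E m → E (m + 2)), Measurable X →
      (∀ t (z : E m), Rs κ α d r t z.ofLp → X (t, z) 0 = AA α r t z.ofLp ∧
        ∀ i : Fin m, X (t, z) i.succ.castSucc = z i) →
      ∀ b : ℝ × E m → ℂ, Measurable b → Integrable b →
      (∀ t (z : E m), ¬ Rs κ α d r t z.ofLp → b (t, z) = 0) → ∀ R : ℝ, 1 ≤ R →
        ∫⁻ ξ in {ξ : E (m + 2) | ‖ξ‖ ≤ 2 * R}, ‖Tb X b ξ‖ₑ ^ (2 : ℝ) ≤
          ENNReal.ofReal (C * R) * ∫⁻ p, ‖b p‖ₑ ^ 2 := by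
  have hK := l2nK_pos α r
  obtain ⟨C, hC, hM⟩ := lf_mass m (m + 2) (l2nK α r)⁻¹ (by positivity)
  refine ⟨C, hC, ?_⟩
  intro d X hX hXr b hbm hbi hs R hR
  have hsupp : ∀ t (z : E m), b (t, z) ≠ 0 → Rs κ α d r t z.ofLp := by
    intro t z hp
    by_contra h
    exact hp (hs t z h)
  have h := hM X hX b hbm hbi (fun p p' hp hp' => ?_) R (by linarith)
  · have e2 : ∀ ξ, ‖Tb X b ξ‖ₑ ^ (2 : ℝ) = ‖Tb X b ξ‖ₑ ^ 2 := fun ξ => by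
      rw [← ENNReal.rpow_natCast]
      norm_num
    simp only [e2]
    have e3 : R ^ (m + 2) / R ^ (m + 1) = R := by
      rw [pow_succ R (m + 1)]
      field_simp
    rw [e3] at h
    exact h
  · obtain ⟨t, z⟩ := p
    obtain ⟨t', z'⟩ := p'
    have h1 := hsupp t z hp
    have h2 := hsupp t' z' hp'
    obtain ⟨x0, x1⟩ := hXr t z h1
    obtain ⟨y0, y1⟩ := hXr t' z' h2
    obtain ⟨a0, a1, a2⟩ := l2n_AA hκ h1
    obtain ⟨b0, b1, b2⟩ := l2n_AA hκ h2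
    exact l2n_sep hα r (by rw [x0]; exact a0) (by rw [y0]; exact b0) (by rw [x0]; exact a1)
      (by rw [y0]; exact b1) (by rw [x0]; exact a2) (by rw [y0]; exact b2) h1.1 h2.1 x1 y1

/-- **ROW L2N** for a surface with uniform bounds: densities in a box around `0`. -/
theorem l2n {κ α : ℝ} {r : Fin m → ℝ} (hκ : 0 ≤ κ) (hα : α ≠ 0)
    {X : ℝ → ℝ × E m → E (m + 2)} {A : ℕ → ℝ} (hX : SF κ α r X A) : ∃ C : ℝ, 0 < C ∧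
    ∀ d, 0 ≤ d → d ≤ 1 → ∀ (b : ℝ × E m → ℂ) (B0 : ℝ) (ν : Fin m → ℝ), 0 ≤ B0 →
      (∀ i, 0 ≤ ν i) → Measurable b → (∀ p, ‖b p‖ ≤ B0) →
      (∀ t (z : E m), ¬ (Rs κ α d r t z.ofLp ∧ ∀ i, |z i| ≤ ν i) → b (t, z) = 0) →
      ∀ R : ℝ, 1 ≤ R →
        ∫⁻ ξ in {ξ : E (m + 2) | ‖ξ‖ ≤ 2 * R}, ‖Tb (X d) b ξ‖ₑ ^ (2 : ℝ) ≤
          ENNReal.ofReal (C * B0 ^ 2 * R * ∏ i, ν i) := by
  obtain ⟨C, hC, hM⟩ := l2n_zero (κ := κ) (r := r) hκ hα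
  refine ⟨C, hC, ?_⟩
  intro d hd0 hd1
  obtain ⟨hXs, -, hXr⟩ := hX d hd0 hd1
  refine hM d (X d) hXs.continuous.measurable fun t z h => ?_
  obtain ⟨x0, x1, -⟩ := hXr t z (Rs_sub hκ h)
  exact ⟨x0, x1⟩

/-- **ROW L2N** for a surface with uniform bounds, with the mass of the density. -/
theorem l2n_int {κ α : ℝ} {r : Fin m → ℝ} (hκ : 0 ≤ κ) (hα : α ≠ 0)
    {X : ℝ → ℝ × E m → E (m + 2)} {A : ℕ → ℝ} (hX : SF κ α r X A) : ∃ C : ℝ, 0 < C ∧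
    ∀ d, 0 ≤ d → d ≤ 1 → ∀ b : ℝ × E m → ℂ, Measurable b → Integrable b →
      (∀ t (z : E m), ¬ Rs κ α d r t z.ofLp → b (t, z) = 0) → ∀ R : ℝ, 1 ≤ R →
        ∫⁻ ξ in {ξ : E (m + 2) | ‖ξ‖ ≤ 2 * R}, ‖Tb (X d) b ξ‖ₑ ^ (2 : ℝ) ≤
          ENNReal.ofReal (C * R) * ∫⁻ p, ‖b p‖ₑ ^ 2 := by
  obtain ⟨C, hC, hM⟩ := l2n_mass (κ := κ) (r := r) hκ hα
  refine ⟨C, hC, ?_⟩
  intro d hd0 hd1
  obtain ⟨hXs, -, hXr⟩ := hX d hd0 hd1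
  refine hM d (X d) hXs.continuous.measurable fun t z h => ?_
  obtain ⟨x0, x1, -⟩ := hXr t z (Rs_sub hκ h)
  exact ⟨x0, x1⟩

/-- Bounded measurable densities on the small region are integrable. -/
theorem l2n_integrable {κ α d : ℝ} {r : Fin m → ℝ} (hκ : 0 ≤ κ) (hα : α ≠ 0)
    {b : ℝ × E m → ℂ} {B0 : ℝ} (hbm : Measurable b) (hb : ∀ p, ‖b p‖ ≤ B0)
    (hs : ∀ t (z : E m), ¬ Rs κ α d r t z.ofLp → b (t, z) = 0) : Integrable b := by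
  have hS : ∀ p : ℝ × E m, b p ≠ 0 →
      p ∈ Icc (-l2nK α r) (l2nK α r) ×ˢ l2nBox (0 : E m) fun _ => 2 := by
    rintro ⟨t, z⟩ hp
    have h1 : Rs κ α d r t z.ofLp := by
      by_contra h
      exact hp (hs t z h)
    obtain ⟨a0, a1, a2⟩ := l2n_AA hκ h1
    have h3 := l2n_t_le hα r t (fun i => z i) a2 a0 a1 h1.1
    refine ⟨abs_le.1 ?_, fun i => ?_⟩
    · unfold l2nK
      show |t| ≤ _
      linarith
    · show |z i - (0 : E m) i| ≤ 2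
      rw [PiLp.zero_apply, sub_zero]
      exact h1.1 i
  have hSm : MeasurableSet (Icc (-l2nK α r) (l2nK α r) ×ˢ l2nBox (0 : E m) fun _ => 2) :=
    measurableSet_Icc.prod (l2nBox_meas _ _)
  have hpt : ∀ p, ‖b p‖ₑ ≤ (Icc (-l2nK α r) (l2nK α r) ×ˢ l2nBox (0 : E m) fun _ => 2).indicator
      (fun _ => ENNReal.ofReal B0) p := by
    intro p
    by_cases hp : b p = 0
    · rw [hp, enorm_zero]
      exact zero_le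
    · rw [indicator_of_mem (hS p hp), ← ofReal_norm]
      exact ENNReal.ofReal_le_ofReal (hb p)
  refine ⟨hbm.aestronglyMeasurable, ?_⟩
  refine lt_of_le_of_lt (lintegral_mono hpt) ?_
  rw [lintegral_indicator_const hSm, Measure.volume_eq_prod, Measure.prod_prod, Real.volume_Icc,
    l2nBox_vol _ fun _ => by norm_num]
  exact ENNReal.mul_lt_top ENNReal.ofReal_lt_top
    (ENNReal.mul_lt_top ENNReal.ofReal_lt_top ENNReal.ofReal_lt_top)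

/-- **ROW L2N**, bounded densities on the small region, with the mass of the density. -/
theorem l2n_bdd {κ α : ℝ} {r : Fin m → ℝ} (hκ : 0 ≤ κ) (hα : α ≠ 0)
    {X : ℝ → ℝ × E m → E (m + 2)} {A : ℕ → ℝ} (hX : SF κ α r X A) : ∃ C : ℝ, 0 < C ∧
    ∀ d, 0 ≤ d → d ≤ 1 → ∀ (b : ℝ × E m → ℂ) (B0 : ℝ), Measurable b → (∀ p, ‖b p‖ ≤ B0) →
      (∀ t (z : E m), ¬ Rs κ α d r t z.ofLp → b (t, z) = 0) → ∀ R : ℝ, 1 ≤ R →
        ∫⁻ ξ in {ξ : E (m + 2) | ‖ξ‖ ≤ 2 * R}, ‖Tb (X d) b ξ‖ₑ ^ (2 : ℝ) ≤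
          ENNReal.ofReal (C * R) * ∫⁻ p, ‖b p‖ₑ ^ 2 := by
  obtain ⟨C, hC, hM⟩ := l2n_int hκ hα hX
  exact ⟨C, hC, fun d hd0 hd1 b B0 hbm hb hs R hR =>
    hM d hd0 hd1 b hbm (l2n_integrable hκ hα hbm hb hs) hs R hR⟩

end Pool.Agent.LQN
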