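import Pool.Agent.LF.L2M

/-!
LQN, row L2N, abstract form: the mean square over a ball of frequencies of a density in a box.
-/

set_option autoImplicit false

namespace Pool.Agent.LQN

open MeasureTheory Set Metric Pool.Agent.MP_6cbfb8_an Pool.Agent.LF
open scoped RealInnerProductSpace ContDiff ENNReal NNReal ComplexConjugate

/-- The box. -/
def l2nBox {m : ℕ} (z0 : E m) (ν : Fin m → ℝ) : Set (E m) := {z | ∀ i, |z i - z0 i| ≤ ν i}

theorem l2nBox_pre {m : ℕ} (z0 : E m) (ν : Fin m → ℝ) : l2nBox z0 ν =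
    (@WithLp.ofLp 2 (Fin m → ℝ)) ⁻¹' (Set.pi univ fun i => Icc (z0 i - ν i) (z0 i + ν i)) := by
  ext z
  simp only [l2nBox, mem_preimage, mem_pi, mem_univ, true_imp_iff, mem_Icc, mem_ofPred_eq]
  refine forall_congr' fun i => ?_
  rw [abs_le]
  constructor
  · rintro ⟨h1, h2⟩
    exact ⟨by linarith, by linarith⟩
  · rintro ⟨h1, h2⟩
    exact ⟨by linarith, by linarith⟩

theorem l2nBox_meas {m : ℕ} (z0 : E m) (ν : Fin m → ℝ) : MeasurableSet (l2nBox z0 ν) := by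
  rw [l2nBox_pre]
  exact (PiLp.volume_preserving_ofLp (Fin m)).measurable
    (MeasurableSet.univ_pi fun i => measurableSet_Icc)

theorem l2nBox_vol {m : ℕ} (z0 : E m) {ν : Fin m → ℝ} (hν : ∀ i, 0 ≤ ν i) :
    volume (l2nBox z0 ν) = ENNReal.ofReal (2 ^ m * ∏ i, ν i) := by
  rw [l2nBox_pre, (PiLp.volume_preserving_ofLp (Fin m)).measure_preimage
    (MeasurableSet.univ_pi fun i => measurableSet_Icc).nullMeasurableSet, volume_pi_pi]
  simp only [Real.volume_Icc]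
  rw [← ENNReal.ofReal_prod_of_nonneg fun i _ => by linarith [hν i]]
  congr 1
  have h1 : ∀ i : Fin m, z0 i + ν i - (z0 i - ν i) = 2 * ν i := fun i => by ring
  simp only [h1]
  rw [Finset.prod_mul_distrib, Finset.prod_const, Finset.card_univ, Fintype.card_fin]

/-- The mean square over a ball of frequencies of a density in a box. -/
theorem l2n_abs (m : ℕ) {K : ℝ} (hK0 : 0 < K) : ∃ C : ℝ, 0 < C ∧ ∀ X : ℝ × E m → E (m + 2),
    Measurable X → ∀ (b : ℝ × E m → ℂ) (B0 : ℝ) (z0 : E m) (ν : Fin m → ℝ), 0 ≤ B0 →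
      (∀ i, 0 ≤ ν i) → Measurable b → (∀ p, ‖b p‖ ≤ B0) →
      (∀ p, b p ≠ 0 → |p.1| ≤ K ∧ ∀ i, |p.2 i - z0 i| ≤ ν i) →
      (∀ p p', b p ≠ 0 → b p' ≠ 0 → K⁻¹ * ‖p - p'‖ ≤ ‖X p - X p'‖) → ∀ R : ℝ, 1 ≤ R →
        ∫⁻ ξ in {ξ : E (m + 2) | ‖ξ‖ ≤ 2 * R}, ‖Tb X b ξ‖ₑ ^ (2 : ℝ) ≤
          ENNReal.ofReal (C * B0 ^ 2 * R * ∏ i, ν i) := by
  obtain ⟨C1, hC1, hM⟩ := lf_mass m (m + 2) K⁻¹ (by positivity)
  refine ⟨C1 * (2 * K) * 2 ^ m, by positivity, ?_⟩
  intro X hX b B0 z0 ν hB0 hν hbm hb hs hsep R hR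
  have hR0 : 0 < R := by linarith
  set P : ℝ := ∏ i, ν i with hP
  have hP0 : 0 ≤ P := Finset.prod_nonneg fun i _ => hν i
  have hS : ∀ p : ℝ × E m, b p ≠ 0 → p ∈ Icc (-K) K ×ˢ l2nBox z0 ν := by
    intro p hp
    obtain ⟨h1, h2⟩ := hs p hp
    exact ⟨abs_le.1 h1, h2⟩
  have hSm : MeasurableSet (Icc (-K) K ×ˢ l2nBox z0 ν) :=
    measurableSet_Icc.prod (l2nBox_meas z0 ν)
  have hvol : (volume : Measure (ℝ × E m)) (Icc (-K) K ×ˢ l2nBox z0 ν) =
      ENNReal.ofReal (2 * K) * ENNReal.ofReal (2 ^ m * P) := by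
    rw [Measure.volume_eq_prod, Measure.prod_prod, Real.volume_Icc, l2nBox_vol z0 hν]
    congr 2
    ring
  have hpt : ∀ p, ‖b p‖ₑ ≤ (Icc (-K) K ×ˢ l2nBox z0 ν).indicator
      (fun _ => ENNReal.ofReal B0) p := by
    intro p
    by_cases hp : b p = 0
    · rw [hp, enorm_zero]
      exact zero_le
    · rw [indicator_of_mem (hS p hp), ← ofReal_norm]
      exact ENNReal.ofReal_le_ofReal (hb p)
  have hint : Integrable b := by
    refine ⟨hbm.aestronglyMeasurable, ?_⟩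
    refine lt_of_le_of_lt (lintegral_mono hpt) ?_
    rw [lintegral_indicator_const hSm, hvol]
    exact ENNReal.mul_lt_top ENNReal.ofReal_lt_top
      (ENNReal.mul_lt_top ENNReal.ofReal_lt_top ENNReal.ofReal_lt_top)
  have hmass : ∫⁻ p, ‖b p‖ₑ ^ 2 ≤ ENNReal.ofReal (B0 ^ 2) *
      (ENNReal.ofReal (2 * K) * ENNReal.ofReal (2 ^ m * P)) := by
    rw [← hvol, ← lintegral_indicator_const hSm]
    refine lintegral_mono fun p => ?_
    by_cases hp : b p = 0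
    · rw [hp, enorm_zero]
      simp
    · rw [indicator_of_mem (hS p hp), ENNReal.ofReal_pow hB0, ← ofReal_norm]
      exact pow_le_pow_left' (ENNReal.ofReal_le_ofReal (hb p)) 2
  have h := hM X hX b hbm hint hsep R hR0
  have e2 : ∀ ξ, ‖Tb X b ξ‖ₑ ^ (2 : ℝ) = ‖Tb X b ξ‖ₑ ^ 2 := fun ξ => by
    rw [← ENNReal.rpow_natCast]
    norm_num
  simp only [e2]
  refine h.trans ((mul_le_mul_right hmass _).trans (le_of_eq ?_))
  have e3 : R ^ (m + 2) / R ^ (m + 1) = R := by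
    rw [pow_succ R (m + 1)]
    field_simp
  rw [e3, ← ENNReal.ofReal_mul (by positivity), ← ENNReal.ofReal_mul (by positivity),
    ← ENNReal.ofReal_mul (by positivity)]
  congr 1
  ring

end Pool.Agent.LQN
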