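import Pool.Agent.LQN.L2N0

/-!
LQN, row L2N: the separation of the surface.
-/

set_option autoImplicit false

namespace Pool.Agent.LQN

open MeasureTheory Set Metric Pool.Agent.MP_6cbfb8_an Pool.Agent.LF
open scoped RealInnerProductSpace ContDiff ENNReal NNReal ComplexConjugate

theorem l2n_norm_mid {m : ℕ} (x : E (m + 2)) (z : E m)
    (h : ∀ i : Fin m, x i.succ.castSucc = z i) : ‖z‖ ≤ ‖x‖ := by
  rw [EuclideanSpace.norm_eq, EuclideanSpace.norm_eq]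
  apply Real.sqrt_le_sqrt
  rw [Fin.sum_univ_castSucc, Fin.sum_univ_succ]
  have h1 : ∀ i : Fin m, ‖x i.succ.castSucc‖ ^ 2 = ‖z i‖ ^ 2 := fun i => by rw [h i]
  simp only [h1]
  have h2 : 0 ≤ ‖x (Fin.castSucc 0)‖ ^ 2 := by positivity
  have h3 : 0 ≤ ‖x (Fin.last (m + 1))‖ ^ 2 := by positivity
  linarith

theorem l2n_coord {n : ℕ} (x : E n) (i : Fin n) : |x i| ≤ ‖x‖ := by
  have := PiLp.norm_apply_le x i
  simpa using this

/-- The parameter `t` from the coordinates. -/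
theorem l2n_t_eq {m : ℕ} {α : ℝ} (hα : α ≠ 0) (r : Fin m → ℝ) (t : ℝ) (y : Fin m → ℝ) {a : ℝ}
    (ha : a ^ 2 = t / α - ∑ i, r i * y i ^ 2) : t = α * (a ^ 2 + ∑ i, r i * y i ^ 2) := by
  rw [ha]
  field_simp
  ring

/-- Bound of `t`. -/
theorem l2n_t_le {m : ℕ} {α : ℝ} (hα : α ≠ 0) (r : Fin m → ℝ) (t : ℝ) (y : Fin m → ℝ) {a : ℝ}
    (ha : a ^ 2 = t / α - ∑ i, r i * y i ^ 2) (ha0 : 0 ≤ a) (ha1 : a ≤ 2) (hy : ∀ i, |y i| ≤ 2) :
    |t| ≤ |α| * (4 + ∑ i, |r i| * 4) := by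
  rw [l2n_t_eq hα r t y ha, abs_mul]
  refine mul_le_mul_of_nonneg_left ?_ (abs_nonneg α)
  refine (abs_add_le _ _).trans (add_le_add ?_ ?_)
  · rw [abs_of_nonneg (by positivity)]
    nlinarith
  · refine (Finset.abs_sum_le_sum_abs _ _).trans (Finset.sum_le_sum fun i _ => ?_)
    rw [abs_mul, abs_pow]
    have h1 := hy i
    have h2 : |y i| ^ 2 ≤ 4 := by nlinarith [abs_nonneg (y i)]
    exact mul_le_mul_of_nonneg_left h2 (abs_nonneg _)

/-- Difference of `t`. -/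
theorem l2n_t_lip {m : ℕ} {α : ℝ} (hα : α ≠ 0) (r : Fin m → ℝ) {t t' : ℝ} {y y' : Fin m → ℝ}
    {a a' δ : ℝ} (ha : a ^ 2 = t / α - ∑ i, r i * y i ^ 2)
    (ha' : a' ^ 2 = t' / α - ∑ i, r i * y' i ^ 2) (ha0 : 0 ≤ a) (ha1 : a ≤ 2) (ha0' : 0 ≤ a')
    (ha1' : a' ≤ 2) (hy : ∀ i, |y i| ≤ 2) (hy' : ∀ i, |y' i| ≤ 2) (hd : |a - a'| ≤ δ)
    (hdy : ∀ i, |y i - y' i| ≤ δ) : |t - t'| ≤ |α| * (4 + ∑ i, |r i| * 4) * δ := by
  have hδ : 0 ≤ δ := (abs_nonneg _).trans hd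
  have e1 := l2n_t_eq hα r t y ha
  have e2 := l2n_t_eq hα r t' y' ha'
  have e3 : t - t' = α * ((a - a') * (a + a') + ∑ i, r i * ((y i - y' i) * (y i + y' i))) := by
    have h1 : ∑ i, r i * ((y i - y' i) * (y i + y' i)) =
        (∑ i, r i * y i ^ 2) - ∑ i, r i * y' i ^ 2 := by
      rw [← Finset.sum_sub_distrib]
      exact Finset.sum_congr rfl fun i _ => by ring
    rw [h1]
    linear_combination e1 - e2
  rw [e3, abs_mul, mul_assoc]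
  refine mul_le_mul_of_nonneg_left ?_ (abs_nonneg α)
  rw [add_mul, Finset.sum_mul]
  refine (abs_add_le _ _).trans (add_le_add ?_ ?_)
  · rw [abs_mul, abs_of_nonneg (show 0 ≤ a + a' by linarith), mul_comm]
    exact mul_le_mul (by linarith) hd (abs_nonneg _) (by norm_num)
  · refine (Finset.abs_sum_le_sum_abs _ _).trans (Finset.sum_le_sum fun i _ => ?_)
    rw [abs_mul, abs_mul, mul_assoc]
    refine mul_le_mul_of_nonneg_left ?_ (abs_nonneg _)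
    rw [mul_comm]
    have h1 : |y i + y' i| ≤ 4 := (abs_add_le _ _).trans (by linarith [hy i, hy' i])
    exact mul_le_mul h1 (hdy i) (abs_nonneg _) (by norm_num)

/-- The separation constant. -/
noncomputable def l2nK {m : ℕ} (α : ℝ) (r : Fin m → ℝ) : ℝ := |α| * (4 + ∑ i, |r i| * 4) + 1

theorem l2nK_pos {m : ℕ} (α : ℝ) (r : Fin m → ℝ) : 1 ≤ l2nK α r := by
  unfold l2nK
  have : 0 ≤ |α| * (4 + ∑ i, |r i| * 4) := by
    have : 0 ≤ ∑ i, |r i| * 4 := Finset.sum_nonneg fun i _ => by positivity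
    positivity
  linarith

/-- The separation of the surface. -/
theorem l2n_sep {m : ℕ} {α : ℝ} (hα : α ≠ 0) (r : Fin m → ℝ) {x x' : E (m + 2)} {t t' : ℝ}
    {z z' : E m} (h0 : 0 ≤ x 0) (h0' : 0 ≤ x' 0) (h1 : x 0 ≤ 2) (h1' : x' 0 ≤ 2)
    (ha : x 0 ^ 2 = t / α - ∑ i, r i * z i ^ 2) (ha' : x' 0 ^ 2 = t' / α - ∑ i, r i * z' i ^ 2)
    (hz : ∀ i, |z i| ≤ 2) (hz' : ∀ i, |z' i| ≤ 2) (hx : ∀ i : Fin m, x i.succ.castSucc = z i)
    (hx' : ∀ i : Fin m, x' i.succ.castSucc = z' i) :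
    (l2nK α r)⁻¹ * ‖(t, z) - (t', z')‖ ≤ ‖x - x'‖ := by
  have hK := l2nK_pos α r
  have hK0 : 0 < l2nK α r := by linarith
  have hN : 0 ≤ ‖x - x'‖ := norm_nonneg _
  rw [inv_mul_le_iff₀ hK0, Prod.mk_sub_mk, Prod.norm_mk]
  refine max_le ?_ ?_
  · rw [Real.norm_eq_abs]
    have hd : |x 0 - x' 0| ≤ ‖x - x'‖ := l2n_coord (x - x') 0
    have hdy : ∀ i, |z i - z' i| ≤ ‖x - x'‖ := fun i => by
      have := l2n_coord (x - x') i.succ.castSucc
      rw [PiLp.sub_apply, hx, hx'] at this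
      exact this
    have h2 := l2n_t_lip hα r (y := fun i => z i) (y' := fun i => z' i) ha ha' h0 h1 h0' h1'
      hz hz' hd hdy
    refine h2.trans ?_
    unfold l2nK
    nlinarith
  · have h2 : ‖z - z'‖ ≤ ‖x - x'‖ := l2n_norm_mid (x - x') (z - z') fun i => by
      rw [PiLp.sub_apply, PiLp.sub_apply, hx, hx']
    calc ‖z - z'‖ ≤ 1 * ‖x - x'‖ := by linarith
      _ ≤ l2nK α r * ‖x - x'‖ := by gcongr

end Pool.Agent.LQN
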