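import Pool.Agent.LQN.MOD1a
import Pool.Agent.LQN.Df2

/-!
LEAFQ in all dimensions, row MOD1: one dyadic piece `|z i| ~ ν i`.
-/

set_option autoImplicit false

namespace Pool.Agent.LQN

open MeasureTheory Set Metric Pool.Agent.MP_6cbfb8_an Pool.Agent.LF
open scoped RealInnerProductSpace ContDiff ENNReal NNReal

/-- The size of the region. -/
theorem Rs_t {m : ℕ} {κ α d : ℝ} {r : Fin m → ℝ} (hα : α ≠ 0) {t : ℝ} {y : Fin m → ℝ}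
    (hκ : 0 ≤ κ) (h : Rs κ α d r t y) : |t| ≤ |α| * (4 + 4 * ∑ i, |r i|) := by
  obtain ⟨h1, h2, h3, -⟩ := h
  have e : t = α * (rr α r t y + ∑ i, r i * y i ^ 2) := by
    unfold rr
    field_simp
    ring
  have h4 : |∑ i, r i * y i ^ 2| ≤ 4 * ∑ i, |r i| := by
    rw [Finset.mul_sum]
    refine (Finset.abs_sum_le_sum_abs _ _).trans (Finset.sum_le_sum fun i _ => ?_)
    have h5 := abs_le.1 (h1 i)
    have h6 : y i ^ 2 ≤ 4 := by nlinarith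
    rw [abs_mul, abs_of_nonneg (sq_nonneg (y i)), mul_comm]
    exact mul_le_mul_of_nonneg_right h6 (abs_nonneg _)
  rw [e, abs_mul]
  refine mul_le_mul_of_nonneg_left ?_ (abs_nonneg _)
  refine (abs_add_le _ _).trans (add_le_add ?_ h4)
  rw [abs_of_nonneg (hκ.trans h2)]
  exact h3

/-- ROW MOD1 over the text of CORE. -/
theorem mod1_of {m : ℕ} {κ α : ℝ} {r : Fin m → ℝ} (hα : α ≠ 0) (hκ : 0 < κ)
    {X : ℝ → ℝ × E m → E (m + 2)} {A : ℕ → ℝ} (hX : SF κ α r X A)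
    (hcore : ∃ c0 : ℝ, 0 < c0 ∧ c0 ≤ 1 / 8 ∧ ∀ (B : ℕ → ℝ) (ε : ℝ), 0 < ε →
      ∃ C : ℝ, ∀ d, 0 ≤ d → d ≤ 1 → ∀ (t0 : ℝ) (z0 : E m), Rs κ α d r t0 z0.ofLp →
      ∀ ν, 0 < ν → (∀ i, ν ≤ |z0 i|) → ∀ b : ℝ × E m → ℂ, Measurable b →
      (∀ t, ContDiff ℝ ∞ fun z => b (t, z)) →
      (∀ t k u, ‖iteratedFDeriv ℝ k (fun u => b (t, dl (fun i => |z0 i|) u)) u‖ ≤ B k) →
      (∀ t z, (c0 < |t - t0| ∨ ∃ i, c0 * |z0 i| < |z i - z0 i|) → b (t, z) = 0) →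
      ∀ R, 1 ≤ R → 1 ≤ R * ν ^ 2 →
        ∫⁻ ξ in {ξ : E (m + 2) | R ≤ ‖ξ‖ ∧ ‖ξ‖ ≤ 2 * R}, ‖Tb (X d) b ξ‖ₑ ^ (4 : ℝ) ≤
          ENNReal.ofReal (C * R ^ (-(m : ℝ) + ε) / ν ^ 2)) :
    ∀ (B : ℕ → ℝ) (ε : ℝ), 0 < ε → ∃ C : ℝ, 0 ≤ C ∧ ∀ d, 0 ≤ d → d ≤ 1 →
      ∀ (ν : Fin m → ℝ) (ν0 : ℝ), 0 < ν0 → (∀ i, ν0 ≤ ν i) → ∀ b : ℝ × E m → ℂ, Measurable b →
      (∀ t, ContDiff ℝ ∞ fun z => b (t, z)) →
      (∀ t k u, ‖iteratedFDeriv ℝ k (fun u => b (t, dl ν u)) u‖ ≤ B k) →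
      (∀ t (z : E m), ¬ (Rs κ α d r t z.ofLp ∧ ∀ i, ν i / 4 ≤ |z i| ∧ |z i| ≤ ν i) →
        b (t, z) = 0) →
      ∀ R : ℝ, 1 ≤ R → 16 ≤ R * ν0 ^ 2 →
        ∫⁻ ξ in {ξ : E (m + 2) | R ≤ ‖ξ‖ ∧ ‖ξ‖ ≤ 2 * R}, ‖Tb (X d) b ξ‖ₑ ^ (4 : ℝ) ≤
          ENNReal.ofReal (C * R ^ (-(m : ℝ) + ε) / ν0 ^ 2) := by
  obtain ⟨c0, hc0, -, hcore⟩ := hcore
  intro B ε hε
  obtain ⟨K, Φ, hK, hmod⟩ := mod1_abs m (m + 2) hc0 (|α| * (4 + 4 * ∑ i, |r i|))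
  obtain ⟨C, hC⟩ := hcore (Φ B) ε hε
  refine ⟨K * (16 * |C|), by positivity, ?_⟩
  intro d hd0 hd1 ν ν0 hν0 hνν b hbm hbs hbB hsupp R hR hRν
  have hR0 : 0 < R := by linarith
  have hRp : 0 < R ^ (-(m : ℝ) + ε) := Real.rpow_pos_of_pos hR0 _
  have h1 := hmod B (X d) (hX d hd0 hd1).1.continuous (fun t z => Rs κ α d r t z.ofLp)
    (fun t z h => Rs_t hα hκ.le h) {ξ : E (m + 2) | R ≤ ‖ξ‖ ∧ ‖ξ‖ ≤ 2 * R}
    (ENNReal.ofReal (16 * |C| * R ^ (-(m : ℝ) + ε) / ν0 ^ 2)) ν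
    (fun i => lt_of_lt_of_le hν0 (hνν i)) (by
      intro t0 z0 hs hz b hbm hbs hbB hsupp
      refine (hC d hd0 hd1 t0 z0 hs (ν0 / 4) (by positivity) (fun i => ?_) b hbm hbs hbB hsupp R hR
        ?_).trans (ENNReal.ofReal_le_ofReal ?_)
      · exact le_trans (by linarith [hνν i]) (hz i).1
      · rw [div_pow]
        linarith
      · calc C * R ^ (-(m : ℝ) + ε) / (ν0 / 4) ^ 2 ≤ |C| * R ^ (-(m : ℝ) + ε) / (ν0 / 4) ^ 2 := by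
              gcongr
              exact le_abs_self C
          _ = 16 * |C| * R ^ (-(m : ℝ) + ε) / ν0 ^ 2 := by
              field_simp
              ring) b hbm hbs hbB hsupp
  refine h1.trans ?_
  rw [← ENNReal.ofReal_mul hK]
  refine ENNReal.ofReal_le_ofReal (le_of_eq ?_)
  ring

end Pool.Agent.LQN
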