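import Pool.Agent.LQN.DL

/-!
LEAFQ in all dimensions: one dyadic piece is a finite sum of boxes (abstract form).
-/

set_option autoImplicit false

namespace Pool.Agent.LQN

open MeasureTheory Set Metric Pool.Agent.MP_6cbfb8_an Pool.Agent.LF Pool.Agent.LQ
open scoped RealInnerProductSpace ContDiff ENNReal NNReal

variable {m : ℕ}

/-- The piece of `b` on a box. -/
noncomputable def bxn (rt κ : ℝ) (Mt M : ℕ) (ν : Fin m → ℝ) (b : ℝ × E m → ℂ)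
    (c : ℕ × (Fin m → ℕ)) (p : ℝ × E m) : ℂ :=
  ((chi1 0 rt Mt c.1 p.1 * chi2 (0 : E m) κ M c.2 (dl (fun i => (ν i)⁻¹) p.2) : ℝ) : ℂ) * b p

theorem bxn_meas {rt κ : ℝ} {Mt M : ℕ} {ν : Fin m → ℝ} {b : ℝ × E m → ℂ} (hb : Measurable b)
    (c : ℕ × (Fin m → ℕ)) : Measurable (bxn rt κ Mt M ν b c) := by
  unfold bxn
  have h1 : Measurable fun p : ℝ × E m => chi1 0 rt Mt c.1 p.1 :=
    (contDiff_chi1 0 rt Mt c.1).continuous.measurable.comp measurable_fst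
  have h2 : Measurable fun p : ℝ × E m => chi2 (0 : E m) κ M c.2 (dl (fun i => (ν i)⁻¹) p.2) :=
    (contDiff_chi2 (0 : E m) κ M c.2).continuous.measurable.comp
      ((dl_continuous _).measurable.comp measurable_snd)
  exact (Complex.measurable_ofReal.comp (h1.mul h2)).mul hb

theorem bxn_norm_le {rt κ : ℝ} {Mt M : ℕ} {ν : Fin m → ℝ} {b : ℝ × E m → ℂ}
    (c : ℕ × (Fin m → ℕ)) (p : ℝ × E m) : ‖bxn rt κ Mt M ν b c p‖ ≤ ‖b p‖ := by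
  unfold bxn
  rw [norm_mul, Complex.norm_real, Real.norm_eq_abs]
  have h : |chi1 0 rt Mt c.1 p.1 * chi2 (0 : E m) κ M c.2 (dl (fun i => (ν i)⁻¹) p.2)| ≤ 1 := by
    rw [abs_mul, abs_of_nonneg (chi1_nonneg _ _ _ _ _), abs_of_nonneg (chi2_nonneg _ _ _ _ _)]
    exact mul_le_one₀ (chi1_le_one _ _ _ _ _) (chi2_nonneg _ _ _ _ _) (chi2_le_one _ _ _ _ _)
  calc _ ≤ 1 * ‖b p‖ := by gcongr
    _ = ‖b p‖ := one_mul _

theorem bxn_supp {rt κ : ℝ} (hrt : 0 < rt) (hκ : 0 < κ) {Mt M : ℕ} {ν : Fin m → ℝ}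
    {b : ℝ × E m → ℂ} {c : ℕ × (Fin m → ℕ)} {p : ℝ × E m} (h : bxn rt κ Mt M ν b c p ≠ 0) :
    |p.1 - tc 0 rt Mt c.1| < rt ∧
      ‖dl (fun i => (ν i)⁻¹) p.2 - zc (0 : E m) κ M c.2‖ ≤ √m * κ ∧ b p ≠ 0 := by
  unfold bxn at h
  have hb : b p ≠ 0 := right_ne_zero_of_mul h
  have hc : ((chi1 0 rt Mt c.1 p.1 * chi2 (0 : E m) κ M c.2 (dl (fun i => (ν i)⁻¹) p.2) : ℝ) : ℂ) ≠
      0 := left_ne_zero_of_mul h
  have hc' : chi1 0 rt Mt c.1 p.1 * chi2 (0 : E m) κ M c.2 (dl (fun i => (ν i)⁻¹) p.2) ≠ 0 := by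
    intro h0
    exact hc (by rw [h0]; simp)
  exact ⟨chi1_supp hrt (left_ne_zero_of_mul hc'), chi2_supp hκ (right_ne_zero_of_mul hc'), hb⟩

theorem bxn_smooth {rt κ : ℝ} {Mt M : ℕ} {ν : Fin m → ℝ} {b : ℝ × E m → ℂ}
    (hb : ∀ t, ContDiff ℝ ∞ fun z => b (t, z)) (c : ℕ × (Fin m → ℕ)) (t : ℝ) :
    ContDiff ℝ ∞ fun z => bxn rt κ Mt M ν b c (t, z) := by
  unfold bxn
  simp only
  have h1 : ContDiff ℝ ∞ fun z : E m =>
      chi1 0 rt Mt c.1 t * chi2 (0 : E m) κ M c.2 (dl (fun i => (ν i)⁻¹) z) :=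
    contDiff_const.mul (dl_smooth (contDiff_chi2 (0 : E m) κ M c.2) _)
  have h2 : ContDiff ℝ ∞ fun z : E m =>
      ((chi1 0 rt Mt c.1 t * chi2 (0 : E m) κ M c.2 (dl (fun i => (ν i)⁻¹) z) : ℝ) : ℂ) :=
    Complex.ofRealCLM.contDiff.comp h1
  exact h2.mul (hb t)

theorem bxn_sum {rt κ T : ℝ} (hrt : 0 < rt) (hκ : 0 < κ) {Mt M : ℕ} (hT : T ≤ rt * Mt)
    (hM : √m * 1 ≤ κ * M) {ν : Fin m → ℝ} (hν : ∀ i, 0 < ν i) {b : ℝ × E m → ℂ}
    (hs : ∀ p, b p ≠ 0 → |p.1| ≤ T ∧ ∀ i, |p.2 i| ≤ ν i)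
    (p : ℝ × E m) : b p = ∑ c ∈ gi Mt ×ˢ gk m M, bxn rt κ Mt M ν b c p := by
  by_cases h : b p = 0
  · unfold bxn
    simp [h]
  · obtain ⟨h1, h2⟩ := hs p h
    have h3 : ‖dl (fun i => (ν i)⁻¹) p.2 - 0‖ ≤ κ * M := by
      rw [sub_zero]
      refine (norm_le_sqrt_of zero_le_one fun i => ?_).trans hM
      rw [dl_apply, abs_mul, abs_inv, abs_of_pos (hν i), inv_mul_le_iff₀ (hν i), mul_one]
      exact h2 i
    have e : ∑ c ∈ gi Mt ×ˢ gk m M,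
        chi1 0 rt Mt c.1 p.1 * chi2 (0 : E m) κ M c.2 (dl (fun i => (ν i)⁻¹) p.2) = 1 := by
      rw [Finset.sum_product]
      simp only
      rw [← Finset.sum_mul_sum, sum_chi1 hrt (by rw [sub_zero]; exact h1.trans hT),
        sum_chi2 hκ h3, one_mul]
    unfold bxn
    rw [← Finset.sum_mul, ← Complex.ofReal_sum, e, Complex.ofReal_one, one_mul]

theorem bxn_bd {rt κ : ℝ} (hκ : 0 < κ) {Mt M : ℕ} {Bc : ℕ → ℝ}
    (hBc : ∀ (z0 : E m) (r : ℝ) (M : ℕ) (k : Fin m → ℕ), 0 < r →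
      ∀ j z, ‖iteratedFDeriv ℝ j (chi2 z0 r M k) z‖ ≤ Bc j / r ^ j)
    {ν a : Fin m → ℝ} (hν : ∀ i, 0 < ν i) (ha : ∀ i, |a i| ≤ ν i)
    {b : ℝ × E m → ℂ} (hb : ∀ t, ContDiff ℝ ∞ fun z => b (t, z)) {B : ℕ → ℝ}
    (hB : ∀ t k u, ‖iteratedFDeriv ℝ k (fun u => b (t, dl ν u)) u‖ ≤ B k)
    (c : ℕ × (Fin m → ℕ)) (t : ℝ) (k : ℕ) (u : E m) :
    ‖iteratedFDeriv ℝ k (fun u => bxn rt κ Mt M ν b c (t, dl a u)) u‖ ≤
      ∑ i ∈ Finset.range (k + 1), (k.choose i : ℝ) * |Bc i / κ ^ i| * |B (k - i)| := by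
  -- the dilation `a / ν`
  set q : Fin m → ℝ := fun i => (ν i)⁻¹ * a i with hq
  have hq1 : ∀ i, |q i| ≤ 1 := by
    intro i
    rw [hq]
    simp only
    rw [abs_mul, abs_inv, abs_of_pos (hν i), inv_mul_le_iff₀ (hν i), mul_one]
    exact ha i
  have hνq : ∀ v : E m, dl ν (dl q v) = dl a v := by
    intro v
    rw [dl_dl]
    congr 1
    funext i
    rw [hq]
    simp only
    rw [← mul_assoc, mul_inv_cancel₀ (hν i).ne', one_mul]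
  have hinv : ∀ v : E m, dl (fun i => (ν i)⁻¹) (dl a v) = dl q v := fun v => dl_dl _ _ _
  have h0 : ∀ v : E m, bxn rt κ Mt M ν b c (t, dl a v) =
      ((chi1 0 rt Mt c.1 t * chi2 (0 : E m) κ M c.2 (dl q v) : ℝ) : ℂ) * b (t, dl ν (dl q v)) := by
    intro v
    unfold bxn
    simp only
    rw [hinv, hνq]
  simp only [h0]
  set w : E m → ℝ := fun v => chi1 0 rt Mt c.1 t * chi2 (0 : E m) κ M c.2 (dl q v) with hw
  have hwc : ContDiff ℝ ∞ w := contDiff_const.mul (dl_smooth (contDiff_chi2 (0 : E m) κ M c.2) _)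
  have hwb : ∀ i x, ‖iteratedFDeriv ℝ i w x‖ ≤ Bc i / κ ^ i * 1 ^ i := by
    intro i x
    have h2 : ContDiff ℝ ∞ fun v : E m => chi2 (0 : E m) κ M c.2 (dl q v) :=
      dl_smooth (contDiff_chi2 (0 : E m) κ M c.2) _
    have h3 := iteratedFDeriv_const_smul_apply (𝕜 := ℝ) (i := i) (a := chi1 0 rt Mt c.1 t)
      (f := fun v : E m => chi2 (0 : E m) κ M c.2 (dl q v)) (x := x)
      (h2.contDiffAt.of_le (by exact_mod_cast le_top))
    have h4 : w = chi1 0 rt Mt c.1 t • fun v : E m => chi2 (0 : E m) κ M c.2 (dl q v) := by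
      funext z; simp [hw]
    rw [h4, h3, norm_smul, Real.norm_eq_abs, abs_of_nonneg (chi1_nonneg _ _ _ _ _)]
    have h5 := dl_bd (contDiff_chi2 (0 : E m) κ M c.2) (k := i)
      (fun x => hBc (0 : E m) κ M c.2 hκ i x) zero_le_one hq1 x
    calc chi1 0 rt Mt c.1 t * ‖iteratedFDeriv ℝ i (fun v : E m => chi2 (0 : E m) κ M c.2 (dl q v))
          x‖ ≤ 1 * (Bc i / κ ^ i * 1 ^ i) := by
          gcongr
          exact chi1_le_one _ _ _ _ _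
      _ = Bc i / κ ^ i * 1 ^ i := one_mul _
  have hbc : ContDiff ℝ ∞ fun v : E m => b (t, dl ν (dl q v)) :=
    dl_smooth (f := fun v => b (t, dl ν v)) (dl_smooth (hb t) ν) q
  have hbb : ∀ i x, ‖iteratedFDeriv ℝ i (fun v : E m => b (t, dl ν (dl q v))) x‖ ≤ B i * 1 ^ i :=
    fun i x => dl_bd (f := fun v => b (t, dl ν v)) (dl_smooth (hb t) ν) (k := i)
      (fun x => hB t i x) zero_le_one hq1 x
  have h6 := mul_bd hwc hbc zero_le_one hwb hbb k u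
  rw [one_pow, mul_one] at h6
  exact h6

/-- One dyadic piece. -/
theorem mod1_abs (m n : ℕ) {c0 : ℝ} (hc0 : 0 < c0) (T : ℝ) :
    ∃ (K : ℝ) (Φ : (ℕ → ℝ) → ℕ → ℝ), 0 ≤ K ∧ ∀ (B : ℕ → ℝ) (X : ℝ × E m → E n), Continuous X →
      ∀ (Q : ℝ → E m → Prop), (∀ t z, Q t z → |t| ≤ T) →
      ∀ (A : Set (E n)) (V : ℝ≥0∞) (ν : Fin m → ℝ), (∀ i, 0 < ν i) →
      (∀ t0 z0, Q t0 z0 → (∀ i, ν i / 4 ≤ |z0 i| ∧ |z0 i| ≤ ν i) → ∀ b : ℝ × E m → ℂ,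
        Measurable b → (∀ t, ContDiff ℝ ∞ fun z => b (t, z)) →
        (∀ t k u, ‖iteratedFDeriv ℝ k (fun u => b (t, dl (fun i => |z0 i|) u)) u‖ ≤ Φ B k) →
        (∀ t z, (c0 < |t - t0| ∨ ∃ i, c0 * |z0 i| < |z i - z0 i|) → b (t, z) = 0) →
        ∫⁻ ξ in A, ‖Tb X b ξ‖ₑ ^ (4 : ℝ) ≤ V) →
      ∀ b : ℝ × E m → ℂ, Measurable b → (∀ t, ContDiff ℝ ∞ fun z => b (t, z)) →
        (∀ t k u, ‖iteratedFDeriv ℝ k (fun u => b (t, dl ν u)) u‖ ≤ B k) →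
        (∀ t z, ¬ (Q t z ∧ ∀ i, ν i / 4 ≤ |z i| ∧ |z i| ≤ ν i) → b (t, z) = 0) →
        ∫⁻ ξ in A, ‖Tb X b ξ‖ₑ ^ (4 : ℝ) ≤ ENNReal.ofReal K * V := by
  obtain ⟨Bc, hBc0, -, hBc⟩ := caps_bounds m
  set κ : ℝ := c0 / (8 * (√m + 1)) with hκ
  have hsm : 0 ≤ √(m : ℝ) := Real.sqrt_nonneg _
  have hκ0 : 0 < κ := by rw [hκ]; positivity
  set rt : ℝ := c0 / 2 with hrt
  have hrt0 : 0 < rt := by rw [hrt]; positivity
  set M : ℕ := ⌈√m * 1 / κ⌉₊ with hM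
  set Mt : ℕ := ⌈T / rt⌉₊ with hMt
  set S : Finset (ℕ × (Fin m → ℕ)) := gi Mt ×ˢ gk m M with hS
  refine ⟨(S.card : ℝ) ^ 4, fun B k => ∑ i ∈ Finset.range (k + 1),
    (k.choose i : ℝ) * |Bc i / κ ^ i| * |B (k - i)|, by positivity, ?_⟩
  intro B X hXc Q hQT A V ν hν hcore b hbm hbs hbB hsupp
  have hMν : √m * 1 ≤ κ * M := caps_le_ceil hκ0
  have hMT : T ≤ rt * Mt := caps_le_ceil hrt0
  have hs : ∀ t (z : E m), b (t, z) ≠ 0 → Q t z ∧ ∀ i, ν i / 4 ≤ |z i| ∧ |z i| ≤ ν i := by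
    intro t z h
    by_contra h1
    exact h (hsupp t z h1)
  have hs1 : ∀ p : ℝ × E m, b p ≠ 0 → |p.1| ≤ T ∧ ∀ i, |p.2 i| ≤ ν i := by
    intro p hp
    obtain ⟨h1, h2⟩ := hs p.1 p.2 hp
    exact ⟨hQT _ _ h1, fun i => (h2 i).2⟩
  have hνne : ∀ i, ν i ≠ 0 := fun i => (hν i).ne'
  have hb0 : ∀ p, ‖b p‖ ≤ B 0 := by
    intro p
    have h1 := hbB p.1 0 (dl (fun i => (ν i)⁻¹) p.2)
    rw [norm_iteratedFDeriv_zero, dl_inv hνne] at h1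
    exact h1
  obtain ⟨ρ, hρ⟩ : ∃ ρ : ℝ, ∀ z : E m, (∀ i, |z i| ≤ ν i) → ‖z‖ ≤ ρ := by
    refine ⟨√m * ∑ i, ν i, fun z hz => ?_⟩
    refine norm_le_sqrt_of (Finset.sum_nonneg fun i _ => (hν i).le) fun i => ?_
    exact (hz i).trans (Finset.single_le_sum (fun i _ => (hν i).le) (Finset.mem_univ i))
  -- integrability of the pieces
  have hint : ∀ c, Integrable (bxn rt κ Mt M ν b c) := by
    intro c
    refine int_box (T := T) (ρ := ρ) (B0 := B 0) (bxn_meas hbm c)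
      (fun p => (bxn_norm_le c p).trans (hb0 p)) ?_
    intro p h
    obtain ⟨-, -, h3⟩ := bxn_supp hrt0 hκ0 h
    exact ⟨(hs1 _ h3).1, hρ _ (hs1 _ h3).2⟩
  -- one piece
  have hone : ∀ c, ∫⁻ ξ in A, ‖Tb X (bxn rt κ Mt M ν b c) ξ‖ₑ ^ (4 : ℝ) ≤ V := by
    intro c
    by_cases h : ∃ p, bxn rt κ Mt M ν b c p ≠ 0
    · obtain ⟨⟨t0, z0⟩, hp⟩ := h
      obtain ⟨h1, h2, h3⟩ := bxn_supp hrt0 hκ0 hp
      obtain ⟨h4, h5⟩ := hs t0 z0 h3
      refine hcore t0 z0 h4 h5 (bxn rt κ Mt M ν b c) (bxn_meas hbm c) (bxn_smooth hbs c) ?_ ?_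
      · intro t k u
        exact bxn_bd hκ0 hBc hν (a := fun i => |z0 i|)
          (fun i => by rw [abs_abs]; exact (h5 i).2) hbs hbB c t k u
      · intro t z hz
        by_contra hne
        obtain ⟨g1, g2, -⟩ := bxn_supp hrt0 hκ0 hne
        simp only at g1 g2 h1 h2
        rcases hz with hz | ⟨i, hz⟩
        · have : |t - t0| ≤ |t - tc 0 rt Mt c.1| + |t0 - tc 0 rt Mt c.1| := by
            rw [abs_sub_comm t0]
            exact abs_sub_le _ _ _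
          rw [hrt] at g1 h1
          linarith
        · have e1 : ‖dl (fun i => (ν i)⁻¹) z - dl (fun i => (ν i)⁻¹) z0‖ ≤ √m * κ + √m * κ := by
            have e2 : dl (fun i => (ν i)⁻¹) z - dl (fun i => (ν i)⁻¹) z0 =
                (dl (fun i => (ν i)⁻¹) z - zc (0 : E m) κ M c.2) -
                (dl (fun i => (ν i)⁻¹) z0 - zc (0 : E m) κ M c.2) := by abel
            rw [e2]
            exact (norm_sub_le _ _).trans (add_le_add g2 h2)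
          have e3 : |(ν i)⁻¹ * z i - (ν i)⁻¹ * z0 i| ≤ √m * κ + √m * κ :=
            (coord_le (dl (fun i => (ν i)⁻¹) z - dl (fun i => (ν i)⁻¹) z0) i).trans e1
          rw [← mul_sub, abs_mul, abs_inv, abs_of_pos (hν i), inv_mul_le_iff₀ (hν i)] at e3
          have e4 : √m * κ ≤ c0 / 8 := by
            rw [hκ, ← mul_div_assoc, div_le_div_iff₀ (by positivity) (by norm_num)]
            nlinarith
          have e5 := (h5 i).1
          have e6 := hν i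
          nlinarith
    · have h0 : bxn rt κ Mt M ν b c = fun _ => 0 := by
        funext p
        by_contra hp
        exact h ⟨p, hp⟩
      have h1 : ∀ ξ, Tb X (bxn rt κ Mt M ν b c) ξ = 0 := by
        intro ξ
        unfold Tb
        rw [h0]
        simp
      simp only [h1]
      simp
  -- the sum
  have hsum : ∀ ξ, Tb X b ξ = ∑ c ∈ S, Tb X (bxn rt κ Mt M ν b c) ξ := fun ξ =>
    Tb_fin hXc S _ (fun c _ => hint c) (bxn_sum hrt0 hκ0 hMT hMν hν hs1) ξ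
  have hmeas : ∀ c, Measurable fun ξ => ‖Tb X (bxn rt κ Mt M ν b c) ξ‖ₑ ^ (4 : ℝ) := fun c =>
    (Tb_measurable hXc (hint c)).enorm.pow_const _
  calc ∫⁻ ξ in A, ‖Tb X b ξ‖ₑ ^ (4 : ℝ)
      ≤ ∫⁻ ξ in A, (S.card : ℝ≥0∞) ^ ((4 : ℝ) - 1) *
          ∑ c ∈ S, ‖Tb X (bxn rt κ Mt M ν b c) ξ‖ₑ ^ (4 : ℝ) := by
        refine lintegral_mono fun ξ => ?_
        simp only
        rw [hsum ξ]
        refine (ENNReal.rpow_le_rpow (enorm_sum_le _ _) (by norm_num)).trans ?_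
        exact ENNReal.rpow_sum_le_const_mul_sum_rpow _ _ (by norm_num)
    _ = (S.card : ℝ≥0∞) ^ ((4 : ℝ) - 1) * ∑ c ∈ S,
          ∫⁻ ξ in A, ‖Tb X (bxn rt κ Mt M ν b c) ξ‖ₑ ^ (4 : ℝ) := by
        rw [lintegral_const_mul _ (Finset.measurable_sum _ fun c _ => hmeas c),
          lintegral_finsetSum _ fun c _ => hmeas c]
    _ ≤ (S.card : ℝ≥0∞) ^ ((4 : ℝ) - 1) * ∑ _c ∈ S, V := by
        gcongr with c hc
        exact hone c
    _ = ENNReal.ofReal ((S.card : ℝ) ^ 4) * V := by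
        rw [Finset.sum_const, nsmul_eq_mul, ← mul_assoc]
        congr 1
        have e1 : (S.card : ℝ≥0∞) ^ ((4 : ℝ) - 1) = ENNReal.ofReal ((S.card : ℝ) ^ 3) := by
          rw [ENNReal.ofReal_pow (by positivity), ENNReal.ofReal_natCast]
          norm_num
        rw [e1, ← ENNReal.ofReal_natCast, ← ENNReal.ofReal_mul (by positivity)]
        congr 1

end Pool.Agent.LQN
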