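import Pool.Agent.LQN.MOD2a
import Pool.Agent.LQN.CORE

/-!
LEAFQ for every dimension: one dyadic annulus.
-/

set_option autoImplicit false

namespace Pool.Agent.LQN

open MeasureTheory Set Metric Pool.Agent.MP_6cbfb8_an Pool.Agent.LF
open scoped RealInnerProductSpace ContDiff ENNReal NNReal

variable {m : ℕ}

/-- ROW MOD2: one dyadic annulus. -/
theorem mod2 (hm : 2 ≤ m) {κ α : ℝ} {r : Fin m → ℝ} (hκ : 0 < κ) (hκ1 : κ ≤ 1) (h : Hyp α r)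
    {X : ℝ → ℝ × E m → E (m + 2)} {A : ℕ → ℝ} (hX : SF κ α r X A) {p : ℝ}
    (hp : 2 * ((m : ℝ) + 2) / (m + 1) < p) (hp' : p < 2 + 8 / (2 * (m : ℝ) + 1)) :
    ∃ η : ℝ, 0 < η ∧ ∀ B : ℕ → ℝ, ∃ C : ℝ, ∀ d, 0 < d → d ≤ 1 → ∀ b : ℝ × E m → ℂ,
      DC κ α d r B b → ∀ R : ℝ, 1 ≤ R →
        ∫⁻ ξ in {ξ : E (m + 2) | R ≤ ‖ξ‖ ∧ ‖ξ‖ ≤ 2 * R}, ‖Tb (X d) b ξ‖ₑ ^ p ≤
          ENNReal.ofReal (C * d⁻¹ * R ^ (-η)) :=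
  mod2_of hm h.α0 hκ hX (mod1_of h.α0 hκ hX (core (by omega) hκ hκ1 h hX)) hp hp'

end Pool.Agent.LQN
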