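import Mathlib

/-!
LEAFQ for every dimension: the sum over the pieces of one annulus, exponents `p > 2 n / (n - 1)`,
`n = m + 2`.
-/

set_option autoImplicit false

namespace Pool.Agent.LQN

open MeasureTheory Set
open scoped ENNReal

/-- Interpolation between the second and the `q`-th moment. -/
theorem interp2q {X : Type*} [MeasurableSpace X] (μ : Measure X) (f : X → ℝ≥0∞)
    (hf : Measurable f) {p q : ℝ} (h2p : 2 < p) (hpq : p < q) :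
    ∫⁻ x, f x ^ p ∂μ ≤ (∫⁻ x, f x ^ (2 : ℝ) ∂μ) ^ ((q - p) / (q - 2)) *
      (∫⁻ x, f x ^ q ∂μ) ^ ((p - 2) / (q - 2)) := by
  have h1 : 0 < q - p := by linarith
  have h2 : 0 < p - 2 := by linarith
  have h3 : 0 < q - 2 := by linarith
  have hqp : q - p ≠ 0 := h1.ne'
  have hp2 : p - 2 ≠ 0 := h2.ne'
  have hq2 : q - 2 ≠ 0 := h3.ne'
  have hh : ((q - 2) / (q - p)).HolderConjugate ((q - 2) / (p - 2)) := by
    rw [Real.holderConjugate_iff]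
    refine ⟨by rw [lt_div_iff₀ h1]; linarith, ?_⟩
    field_simp
    ring
  have h := ENNReal.lintegral_mul_le_Lp_mul_Lq μ hh
    (f := fun x => f x ^ (2 * (q - p) / (q - 2))) (g := fun x => f x ^ (q * (p - 2) / (q - 2)))
    (hf.pow_const _).aemeasurable (hf.pow_const _).aemeasurable
  have e0 : ∀ x, ((fun x => f x ^ (2 * (q - p) / (q - 2))) *
      fun x => f x ^ (q * (p - 2) / (q - 2))) x = f x ^ p := by
    intro x
    simp only [Pi.mul_apply]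
    rw [← ENNReal.rpow_add_of_nonneg _ _ (by positivity) (by
      have : 0 < q := by linarith
      positivity)]
    congr 1
    field_simp
    ring
  have e1 : ∀ x, (f x ^ (2 * (q - p) / (q - 2))) ^ ((q - 2) / (q - p)) = f x ^ (2 : ℝ) := by
    intro x
    rw [← ENNReal.rpow_mul]
    congr 1
    field_simp
  have e2 : ∀ x, (f x ^ (q * (p - 2) / (q - 2))) ^ ((q - 2) / (p - 2)) = f x ^ q := by
    intro x
    rw [← ENNReal.rpow_mul]
    congr 1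
    field_simp
  simp only [e0, e1, e2, one_div_div] at h
  exact h

/-- The `p`-th moment of a finite sum. -/
theorem sum_pow {X ι : Type*} [MeasurableSpace X] (μ : Measure X) (S : Finset ι)
    (f : ι → X → ℝ≥0∞) (hf : ∀ j ∈ S, Measurable (f j)) {p : ℝ} (hp : 1 ≤ p) {B : ℝ}
    (h : ∀ j ∈ S, ∫⁻ x, f j x ^ p ∂μ ≤ ENNReal.ofReal B) :
    ∫⁻ x, (∑ j ∈ S, f j x) ^ p ∂μ ≤ ENNReal.ofReal ((S.card : ℝ) ^ p * B) := by
  have a1 : ∀ x, (∑ j ∈ S, f j x) ^ p ≤ (S.card : ℝ≥0∞) ^ (p - 1) * ∑ j ∈ S, f j x ^ p :=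
    fun x => ENNReal.rpow_sum_le_const_mul_sum_rpow S (fun j => f j x) hp
  calc ∫⁻ x, (∑ j ∈ S, f j x) ^ p ∂μ
      ≤ ∫⁻ x, (S.card : ℝ≥0∞) ^ (p - 1) * ∑ j ∈ S, f j x ^ p ∂μ := lintegral_mono a1
    _ = (S.card : ℝ≥0∞) ^ (p - 1) * ∑ j ∈ S, ∫⁻ x, f j x ^ p ∂μ := by
        rw [lintegral_const_mul _ (Finset.measurable_fun_sum _ fun j hj => (hf j hj).pow_const _),
          lintegral_finsetSum _ fun j hj => (hf j hj).pow_const _]
    _ ≤ (S.card : ℝ≥0∞) ^ (p - 1) * ∑ j ∈ S, ENNReal.ofReal B := by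
        gcongr with j hj
        exact h j hj
    _ = ENNReal.ofReal ((S.card : ℝ) ^ p * B) := by
        rw [Finset.sum_const, nsmul_eq_mul, ← mul_assoc]
        have e2 : (S.card : ℝ≥0∞) ^ p = (S.card : ℝ≥0∞) ^ (p - 1) * S.card := by
          have : (S.card : ℝ≥0∞) ^ p = (S.card : ℝ≥0∞) ^ ((p - 1) + 1) := by
            congr 1
            ring
          rw [this, ENNReal.rpow_add_of_nonneg _ _ (by linarith) (by norm_num), ENNReal.rpow_one]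
        rw [← e2, ENNReal.ofReal_mul (by positivity),
          ← ENNReal.ofReal_rpow_of_nonneg (by positivity) (by linarith), ENNReal.ofReal_natCast]

/-- One good piece, in real numbers. -/
theorem piece_real {m : ℕ} {p ε C0 R P ν : ℝ} (hp2 : 2 < p) (hp4 : p < 4)
    (hC0 : 1 ≤ C0) (hR : 1 ≤ R) (hν : 0 < ν) (hνC : ν ≤ C0) (hνR : 1 ≤ R * ν ^ 2) (hP : 0 ≤ P)
    (hPν : P ≤ C0 * ν) {x : ℝ}
    (h1 : (4 - p) / 2 + (-m + ε) * ((p - 2) / 2) ≤ -x)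
    (h2 : (4 - p) / 2 + (-m + ε) * ((p - 2) / 2) + (3 * p - 8) / 4 ≤ -x) :
    (C0 * (R * P)) ^ ((4 - p) / 2) * (C0 * (R ^ (-m + ε) / ν ^ 2)) ^ ((p - 2) / 2) ≤
      C0 ^ (4 : ℝ) * R ^ (-x) := by
  have hR0 : 0 < R := by linarith
  have hC00 : 0 < C0 := by linarith
  have a : 0 < (4 - p) / 2 := by linarith
  have b : 0 < (p - 2) / 2 := by linarith
  have hRm : 0 < R ^ (-m + ε) := Real.rpow_pos_of_pos hR0 _
  have e1 : (C0 * (R * P)) ^ ((4 - p) / 2) ≤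
      C0 ^ (4 - p) * (R ^ ((4 - p) / 2) * ν ^ ((4 - p) / 2)) := by
    calc (C0 * (R * P)) ^ ((4 - p) / 2) ≤ (C0 ^ (2 : ℝ) * (R * ν)) ^ ((4 - p) / 2) := by
          refine Real.rpow_le_rpow (by positivity) ?_ a.le
          rw [Real.rpow_two]
          nlinarith [mul_le_mul_of_nonneg_left hPν (by positivity : 0 ≤ C0 * R)]
      _ = _ := by
          rw [Real.mul_rpow (by positivity) (by positivity), Real.mul_rpow hR0.le hν.le,
            ← Real.rpow_mul hC00.le]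
          congr 2
          ring
  have e2 : (C0 * (R ^ (-m + ε) / ν ^ 2)) ^ ((p - 2) / 2) =
      C0 ^ ((p - 2) / 2) * (R ^ ((-m + ε) * ((p - 2) / 2)) * ν ^ (-(p - 2))) := by
    have k1 : (ν ^ 2) ^ ((p - 2) / 2) = ν ^ (p - 2) := by
      rw [← Real.rpow_natCast ν 2, ← Real.rpow_mul hν.le]
      congr 1
      push_cast
      ring
    rw [Real.mul_rpow hC00.le (by positivity), Real.div_rpow hRm.le (by positivity),
      ← Real.rpow_mul hR0.le, k1, Real.rpow_neg hν.le]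
    ring
  have e3 : ν ^ ((8 - 3 * p) / 2) * R ^ ((4 - p) / 2 + (-m + ε) * ((p - 2) / 2)) ≤
      C0 * R ^ (-x) := by
    rcases le_or_gt 0 ((8 - 3 * p) / 2) with h | h
    · have f1 : ν ^ ((8 - 3 * p) / 2) ≤ C0 := by
        calc ν ^ ((8 - 3 * p) / 2) ≤ C0 ^ ((8 - 3 * p) / 2) := Real.rpow_le_rpow hν.le hνC h
          _ ≤ C0 ^ (1 : ℝ) := Real.rpow_le_rpow_of_exponent_le hC0 (by linarith)
          _ = C0 := Real.rpow_one _
      exact mul_le_mul f1 (Real.rpow_le_rpow_of_exponent_le hR h1) (by positivity) hC00.le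
    · have f1 : ν ^ ((8 - 3 * p) / 2) ≤ R ^ ((3 * p - 8) / 4) := by
        have g1 : R⁻¹ ≤ ν ^ 2 := by
          rw [inv_le_iff_one_le_mul₀ hR0, mul_comm]
          exact hνR
        have g2 : ν ^ ((8 - 3 * p) / 2) = (ν ^ 2) ^ ((8 - 3 * p) / 4) := by
          rw [← Real.rpow_natCast ν 2, ← Real.rpow_mul hν.le]
          congr 1
          push_cast
          ring
        have g3 : R ^ ((3 * p - 8) / 4) = (R⁻¹) ^ ((8 - 3 * p) / 4) := by
          rw [Real.inv_rpow hR0.le, ← Real.rpow_neg hR0.le]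
          congr 1
          ring
        rw [g2, g3]
        exact Real.rpow_le_rpow_of_nonpos (by positivity) g1 (by linarith)
      calc _ ≤ R ^ ((3 * p - 8) / 4) * R ^ ((4 - p) / 2 + (-m + ε) * ((p - 2) / 2)) := by
            gcongr
        _ = R ^ ((4 - p) / 2 + (-m + ε) * ((p - 2) / 2) + (3 * p - 8) / 4) := by
            rw [← Real.rpow_add hR0]
            congr 1
            ring
        _ ≤ R ^ (-x) := Real.rpow_le_rpow_of_exponent_le hR h2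
        _ = 1 * R ^ (-x) := (one_mul _).symm
        _ ≤ C0 * R ^ (-x) := by gcongr
  calc (C0 * (R * P)) ^ ((4 - p) / 2) * (C0 * (R ^ (-m + ε) / ν ^ 2)) ^ ((p - 2) / 2)
      ≤ (C0 ^ (4 - p) * (R ^ ((4 - p) / 2) * ν ^ ((4 - p) / 2))) *
        (C0 ^ ((p - 2) / 2) * (R ^ ((-m + ε) * ((p - 2) / 2)) * ν ^ (-(p - 2)))) := by
        rw [e2]
        gcongr
    _ = (C0 ^ (4 - p) * C0 ^ ((p - 2) / 2)) * ((ν ^ ((4 - p) / 2) * ν ^ (-(p - 2))) *
          (R ^ ((4 - p) / 2) * R ^ ((-m + ε) * ((p - 2) / 2)))) := by ring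
    _ = C0 ^ ((4 - p) + (p - 2) / 2) * (ν ^ ((8 - 3 * p) / 2) *
          R ^ ((4 - p) / 2 + (-m + ε) * ((p - 2) / 2))) := by
        rw [← Real.rpow_add hC00, ← Real.rpow_add hν, ← Real.rpow_add hR0]
        congr 3
        ring
    _ ≤ C0 ^ ((4 - p) + (p - 2) / 2) * (C0 * R ^ (-x)) := by gcongr
    _ = C0 ^ ((4 - p) + (p - 2) / 2 + 1) * R ^ (-x) := by
        rw [Real.rpow_add_one hC00.ne']
        ring
    _ ≤ C0 ^ (4 : ℝ) * R ^ (-x) := by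
        gcongr
        linarith

/-- One last piece, in real numbers. -/
theorem last_real {p q C0 R D Q : ℝ} (hp2 : 2 < p) (hpq : p < q) (hq4 : q ≤ 4) (hC0 : 1 ≤ C0)
    (hR : 1 ≤ R) (hD : 1 ≤ D) (hQ : 0 ≤ Q) (hQR : Q ≤ C0 * R ^ (-(1 / 2) : ℝ)) {x : ℝ}
    (h1 : (q - p) / (q - 2) - p / 4 ≤ -x) :
    (C0 * (R * Q)) ^ ((q - p) / (q - 2)) * (C0 * (D * Q ^ (q / 2))) ^ ((p - 2) / (q - 2)) ≤
      C0 ^ (4 : ℝ) * (D * R ^ (-x)) := by
  have hR0 : 0 < R := by linarith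
  have hC00 : 0 < C0 := by linarith
  have hD0 : 0 < D := by linarith
  have h3 : 0 < q - 2 := by linarith
  have a : 0 < (q - p) / (q - 2) := div_pos (by linarith) h3
  have b : 0 < (p - 2) / (q - 2) := div_pos (by linarith) h3
  have hab : (q - p) / (q - 2) + (p - 2) / (q - 2) = 1 := by
    field_simp
    ring
  have hb1 : (p - 2) / (q - 2) ≤ 1 := by linarith
  have e1 : (C0 * (R * Q)) ^ ((q - p) / (q - 2)) =
      C0 ^ ((q - p) / (q - 2)) * (R ^ ((q - p) / (q - 2)) * Q ^ ((q - p) / (q - 2))) := by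
    rw [Real.mul_rpow hC00.le (by positivity), Real.mul_rpow hR0.le hQ]
  have e2 : (C0 * (D * Q ^ (q / 2))) ^ ((p - 2) / (q - 2)) =
      C0 ^ ((p - 2) / (q - 2)) * (D ^ ((p - 2) / (q - 2)) *
        Q ^ (q / 2 * ((p - 2) / (q - 2)))) := by
    rw [Real.mul_rpow hC00.le (by positivity), Real.mul_rpow hD0.le (by positivity),
      ← Real.rpow_mul hQ]
  have e3 : Q ^ ((q - p) / (q - 2)) * Q ^ (q / 2 * ((p - 2) / (q - 2))) = Q ^ (p / 2) := by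
    rw [← Real.rpow_add_of_nonneg hQ a.le (by
      have : 0 < q := by linarith
      positivity)]
    congr 1
    field_simp
    ring
  have e4 : Q ^ (p / 2) ≤ C0 ^ (p / 2) * R ^ (-(p / 4)) := by
    calc Q ^ (p / 2) ≤ (C0 * R ^ (-(1 / 2) : ℝ)) ^ (p / 2) :=
          Real.rpow_le_rpow hQ hQR (by linarith)
      _ = C0 ^ (p / 2) * R ^ (-(p / 4)) := by
          rw [Real.mul_rpow hC00.le (by positivity), ← Real.rpow_mul hR0.le]
          congr 2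
          ring
  have e5 : D ^ ((p - 2) / (q - 2)) ≤ D := by
    calc D ^ ((p - 2) / (q - 2)) ≤ D ^ (1 : ℝ) := Real.rpow_le_rpow_of_exponent_le hD hb1
      _ = D := Real.rpow_one _
  rw [e1, e2]
  calc C0 ^ ((q - p) / (q - 2)) * (R ^ ((q - p) / (q - 2)) * Q ^ ((q - p) / (q - 2))) *
        (C0 ^ ((p - 2) / (q - 2)) * (D ^ ((p - 2) / (q - 2)) *
          Q ^ (q / 2 * ((p - 2) / (q - 2)))))
      = (C0 ^ ((q - p) / (q - 2)) * C0 ^ ((p - 2) / (q - 2))) * (D ^ ((p - 2) / (q - 2)) *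
          (R ^ ((q - p) / (q - 2)) * (Q ^ ((q - p) / (q - 2)) *
            Q ^ (q / 2 * ((p - 2) / (q - 2)))))) := by ring
    _ = C0 * (D ^ ((p - 2) / (q - 2)) * (R ^ ((q - p) / (q - 2)) * Q ^ (p / 2))) := by
        rw [e3, ← Real.rpow_add hC00, hab, Real.rpow_one]
    _ ≤ C0 * (D * (R ^ ((q - p) / (q - 2)) * (C0 ^ (p / 2) * R ^ (-(p / 4))))) := by
        gcongr
    _ = (C0 ^ (1 : ℝ) * C0 ^ (p / 2)) * (D * (R ^ ((q - p) / (q - 2)) * R ^ (-(p / 4)))) := by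
        rw [Real.rpow_one]
        ring
    _ = C0 ^ (1 + p / 2) * (D * R ^ ((q - p) / (q - 2) - p / 4)) := by
        rw [← Real.rpow_add hC00, ← Real.rpow_add hR0, ← sub_eq_add_neg]
    _ ≤ C0 ^ (4 : ℝ) * (D * R ^ (-x)) := by
        gcongr
        linarith

/-- One annulus: good pieces with an `L^2` and an `L^4` bound, last pieces with an `L^2` and an
`L^q` bound. -/
theorem annulusN (N m : ℕ) (hm : 2 ≤ m) {p q : ℝ} (hp : 2 * (m + 2) / (m + 1) < p)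
    (hpq : p < q) (hq : q < 2 + 4 / m) : ∃ η ε : ℝ, 0 < η ∧ 0 < ε ∧ ∀ C0' : ℝ, ∃ C1 : ℝ,
      ∀ (R D : ℝ), 1 ≤ R → 1 ≤ D → ∀ (F : EuclideanSpace ℝ (Fin N) → ℂ)
        (ι κ : Type) (S : Finset ι) (S' : Finset κ) (H : ι → EuclideanSpace ℝ (Fin N) → ℂ)
        (G : κ → EuclideanSpace ℝ (Fin N) → ℂ) (P ν : ι → ℝ) (Q : κ → ℝ),
        (∀ j ∈ S, Measurable (H j)) → (∀ k ∈ S', Measurable (G k)) →
        (∀ ξ, R ≤ ‖ξ‖ → ‖ξ‖ ≤ 2 * R → F ξ = ∑ j ∈ S, H j ξ + ∑ k ∈ S', G k ξ) →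
        ((S.card : ℝ) ≤ C0' * R ^ ε) → ((S'.card : ℝ) ≤ C0' * R ^ ε) →
        (∀ j ∈ S, 0 < ν j ∧ ν j ≤ C0' ∧ 1 ≤ R * ν j ^ 2 ∧ 0 ≤ P j ∧ P j ≤ C0' * ν j) →
        (∀ j ∈ S, ∫⁻ ξ in {ξ | R ≤ ‖ξ‖ ∧ ‖ξ‖ ≤ 2 * R}, ‖H j ξ‖ₑ ^ (2 : ℝ) ≤
          ENNReal.ofReal (C0' * (R * P j))) →
        (∀ j ∈ S, ∫⁻ ξ in {ξ | R ≤ ‖ξ‖ ∧ ‖ξ‖ ≤ 2 * R}, ‖H j ξ‖ₑ ^ (4 : ℝ) ≤
          ENNReal.ofReal (C0' * (R ^ (-m + ε) / ν j ^ 2))) →
        (∀ k ∈ S', 0 ≤ Q k ∧ Q k ≤ C0' * R ^ (-(1 / 2) : ℝ)) →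
        (∀ k ∈ S', ∫⁻ ξ in {ξ | R ≤ ‖ξ‖ ∧ ‖ξ‖ ≤ 2 * R}, ‖G k ξ‖ₑ ^ (2 : ℝ) ≤
          ENNReal.ofReal (C0' * (R * Q k))) →
        (∀ k ∈ S', ∫⁻ ξ in {ξ | R ≤ ‖ξ‖ ∧ ‖ξ‖ ≤ 2 * R}, ‖G k ξ‖ₑ ^ q ≤
          ENNReal.ofReal (C0' * (D * Q k ^ (q / 2)))) →
        ∫⁻ ξ in {ξ | R ≤ ‖ξ‖ ∧ ‖ξ‖ ≤ 2 * R}, ‖F ξ‖ₑ ^ p ≤
          ENNReal.ofReal (C1 * D * R ^ (-η)) := by
  have hmr : (2 : ℝ) ≤ m := by exact_mod_cast hm
  have hm0 : (0 : ℝ) < m := by linarith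
  have hp' : 2 * ((m : ℝ) + 2) < p * (m + 1) := by
    rwa [div_lt_iff₀ (by linarith)] at hp
  have hq' : (q - 2) * m < 4 := by
    have : q - 2 < 4 / m := by linarith
    rwa [lt_div_iff₀ hm0] at this
  have hp2 : 2 < p := by nlinarith
  have hq2 : 2 < q := by linarith
  have hq4 : q ≤ 4 := by nlinarith
  have hp4 : p < 4 := by linarith
  set x : ℝ := (m + 1) * p - 2 * (m + 2) with hx
  have hx0 : 0 < x := by rw [hx]; linarith
  set y : ℝ := p / 4 - (q - p) / (q - 2) with hy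
  have hy0 : 0 < y := by
    rw [hy, sub_pos, div_lt_div_iff₀ (by linarith) (by norm_num)]
    -- (q - p) * 4 < p * (q - 2)
    nlinarith
  obtain ⟨ε, hε0, hε1, hε2⟩ : ∃ ε : ℝ, 0 < ε ∧ 5 * ε ≤ x / 12 ∧ 4 * ε ≤ y / 2 := by
    refine ⟨min (x / 60) (y / 8), lt_min (by positivity) (by positivity), ?_, ?_⟩
    · have := min_le_left (x / 60) (y / 8)
      linarith
    · have := min_le_right (x / 60) (y / 8)
      linarith
  obtain ⟨η, hη0, hη1, hη2⟩ : ∃ η : ℝ, 0 < η ∧ η ≤ x / 12 ∧ η ≤ y / 2 :=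
    ⟨min (x / 12) (y / 2), lt_min (by positivity) (by positivity), min_le_left _ _,
      min_le_right _ _⟩
  refine ⟨η, ε, hη0, hε0, fun C0' => ?_⟩
  set C0 : ℝ := |C0'| + 1 with hC0
  have hC01 : 1 ≤ C0 := by
    rw [hC0]
    linarith [abs_nonneg C0']
  have hC0' : C0' ≤ C0 := by
    rw [hC0]
    linarith [le_abs_self C0']
  have hC00 : 0 < C0 := by linarith
  refine ⟨2 ^ p * (C0 ^ p * C0 ^ (4 : ℝ)), ?_⟩
  intro R D hR hD F ι κ S S' H G P ν Q hH hG hF hcS hcS' hν hL2 hL4 hQ hG2 hGq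
  have hR0 : 0 < R := by linarith
  have hD0 : 0 < D := by linarith
  set A : Set (EuclideanSpace ℝ (Fin N)) := {ξ | R ≤ ‖ξ‖ ∧ ‖ξ‖ ≤ 2 * R} with hA
  have hAm : MeasurableSet A :=
    (measurableSet_le measurable_const measurable_norm).inter
      (measurableSet_le measurable_norm measurable_const)
  have hRp : ∀ s : ℝ, 0 < R ^ s := fun s => Real.rpow_pos_of_pos hR0 s
  have hcard : ∀ c : ℝ, 0 ≤ c → c ≤ C0' * R ^ ε → c ^ p ≤ C0 ^ p * R ^ (4 * ε) := by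
    intro c hc h
    have h1 : c ≤ C0 * R ^ ε := h.trans (mul_le_mul_of_nonneg_right hC0' (hRp ε).le)
    calc c ^ p ≤ (C0 * R ^ ε) ^ p := Real.rpow_le_rpow hc h1 (by linarith)
      _ = C0 ^ p * R ^ (ε * p) := by
          rw [Real.mul_rpow hC00.le (hRp ε).le, ← Real.rpow_mul hR0.le]
      _ ≤ C0 ^ p * R ^ (4 * ε) :=
          mul_le_mul_of_nonneg_left (Real.rpow_le_rpow_of_exponent_le hR (by nlinarith))
            (by positivity)
  -- the good pieces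
  have hg : ∀ j ∈ S, ∫⁻ ξ in A, ‖H j ξ‖ₑ ^ p ≤
      ENNReal.ofReal (C0 ^ (4 : ℝ) * R ^ (-(x / 6))) := by
    intro j hj
    obtain ⟨v1, v2, v3, v4, v5⟩ := hν j hj
    have b2 : ∫⁻ ξ in A, ‖H j ξ‖ₑ ^ (2 : ℝ) ≤ ENNReal.ofReal (C0 * (R * P j)) := by
      refine (hL2 j hj).trans (ENNReal.ofReal_le_ofReal ?_)
      gcongr
    have b4 : ∫⁻ ξ in A, ‖H j ξ‖ₑ ^ (4 : ℝ) ≤
        ENNReal.ofReal (C0 * (R ^ (-m + ε) / ν j ^ 2)) := by
      refine (hL4 j hj).trans (ENNReal.ofReal_le_ofReal ?_)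
      gcongr
    have h := interp2q (volume.restrict A) (fun ξ => ‖H j ξ‖ₑ) (hH j hj).enorm hp2 hp4
    have e1 : (4 - p) / (4 - 2) = (4 - p) / 2 := by norm_num
    have e2 : (p - 2) / (4 - 2) = (p - 2) / 2 := by norm_num
    rw [e1, e2] at h
    refine h.trans ((mul_le_mul' (ENNReal.rpow_le_rpow b2 (by linarith))
      (ENNReal.rpow_le_rpow b4 (by linarith))).trans ?_)
    have hRP : 0 ≤ R * P j := by positivity
    rw [ENNReal.ofReal_rpow_of_nonneg (by positivity) (by linarith),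
      ENNReal.ofReal_rpow_of_nonneg (by positivity) (by linarith),
      ← ENNReal.ofReal_mul (by positivity)]
    refine ENNReal.ofReal_le_ofReal (piece_real hp2 hp4 hC01 hR v1 (v2.trans hC0') v3 v4
      (v5.trans (mul_le_mul_of_nonneg_right hC0' v1.le)) ?_ ?_)
    · have e3 : (4 - p) / 2 + (-m + ε) * ((p - 2) / 2) = -(x / 2) + ε * ((p - 2) / 2) := by
        rw [hx]
        ring
      rw [e3]
      nlinarith
    · have e3 : (4 - p) / 2 + (-m + ε) * ((p - 2) / 2) = -(x / 2) + ε * ((p - 2) / 2) := by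
        rw [hx]
        ring
      have e4 : (3 * p - 8) / 4 ≤ x / 4 := by
        rw [hx]
        nlinarith
      rw [e3]
      nlinarith
  -- the last pieces
  have hl : ∀ k ∈ S', ∫⁻ ξ in A, ‖G k ξ‖ₑ ^ p ≤
      ENNReal.ofReal (C0 ^ (4 : ℝ) * (D * R ^ (-y))) := by
    intro k hk
    obtain ⟨v1, v2⟩ := hQ k hk
    have b2 : ∫⁻ ξ in A, ‖G k ξ‖ₑ ^ (2 : ℝ) ≤ ENNReal.ofReal (C0 * (R * Q k)) := by
      refine (hG2 k hk).trans (ENNReal.ofReal_le_ofReal ?_)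
      gcongr
    have b4 : ∫⁻ ξ in A, ‖G k ξ‖ₑ ^ q ≤ ENNReal.ofReal (C0 * (D * Q k ^ (q / 2))) := by
      refine (hGq k hk).trans (ENNReal.ofReal_le_ofReal ?_)
      gcongr
    refine (interp2q (volume.restrict A) (fun ξ => ‖G k ξ‖ₑ) (hG k hk).enorm hp2 hpq).trans
      ((mul_le_mul' (ENNReal.rpow_le_rpow b2 (div_nonneg (by linarith) (by linarith)))
      (ENNReal.rpow_le_rpow b4 (div_nonneg (by linarith) (by linarith)))).trans ?_)
    rw [ENNReal.ofReal_rpow_of_nonneg (by positivity) (div_nonneg (by linarith) (by linarith)),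
      ENNReal.ofReal_rpow_of_nonneg (by positivity) (div_nonneg (by linarith) (by linarith)),
      ← ENNReal.ofReal_mul (by positivity)]
    refine ENNReal.ofReal_le_ofReal (last_real hp2 hpq hq4 hC01 hR hD v1
      (v2.trans (mul_le_mul_of_nonneg_right hC0' (hRp _).le)) ?_)
    rw [hy]
    linarith
  have hS := sum_pow (volume.restrict A) S (fun j ξ => ‖H j ξ‖ₑ) (fun j hj => (hH j hj).enorm)
    (p := p) (by linarith) (B := C0 ^ (4 : ℝ) * R ^ (-(x / 6))) hg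
  have hS' := sum_pow (volume.restrict A) S' (fun j ξ => ‖G j ξ‖ₑ) (fun j hj => (hG j hj).enorm)
    (p := p) (by linarith) (B := C0 ^ (4 : ℝ) * (D * R ^ (-y))) hl
  have r1 : (S.card : ℝ) ^ p * (C0 ^ (4 : ℝ) * R ^ (-(x / 6))) ≤
      C0 ^ p * C0 ^ (4 : ℝ) * (D * R ^ (-η)) := by
    calc (S.card : ℝ) ^ p * (C0 ^ (4 : ℝ) * R ^ (-(x / 6)))
        ≤ (C0 ^ p * R ^ (4 * ε)) * (C0 ^ (4 : ℝ) * R ^ (-(x / 6))) := by
          gcongr
          exact hcard _ (Nat.cast_nonneg _) hcS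
      _ = C0 ^ p * C0 ^ (4 : ℝ) * (1 * R ^ (4 * ε + -(x / 6))) := by
          rw [Real.rpow_add hR0]
          ring
      _ ≤ C0 ^ p * C0 ^ (4 : ℝ) * (D * R ^ (-η)) := by
          gcongr
          linarith
  have r2 : (S'.card : ℝ) ^ p * (C0 ^ (4 : ℝ) * (D * R ^ (-y))) ≤
      C0 ^ p * C0 ^ (4 : ℝ) * (D * R ^ (-η)) := by
    calc (S'.card : ℝ) ^ p * (C0 ^ (4 : ℝ) * (D * R ^ (-y)))
        ≤ (C0 ^ p * R ^ (4 * ε)) * (C0 ^ (4 : ℝ) * (D * R ^ (-y))) := by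
          gcongr
          exact hcard _ (Nat.cast_nonneg _) hcS'
      _ = C0 ^ p * C0 ^ (4 : ℝ) * (D * R ^ (4 * ε + -y)) := by
          rw [Real.rpow_add hR0]
          ring
      _ ≤ C0 ^ p * C0 ^ (4 : ℝ) * (D * R ^ (-η)) := by
          gcongr
          linarith
  set E : ℝ := C0 ^ p * C0 ^ (4 : ℝ) * (D * R ^ (-η)) with hE
  have hE0 : 0 ≤ E := by positivity
  have hpt : ∀ ξ ∈ A, ‖F ξ‖ₑ ^ p ≤ 2 ^ (p - 1) * ((∑ j ∈ S, ‖H j ξ‖ₑ) ^ p +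
      (∑ k ∈ S', ‖G k ξ‖ₑ) ^ p) := by
    intro ξ hξ
    have h1 : ‖F ξ‖ₑ ≤ ∑ j ∈ S, ‖H j ξ‖ₑ + ∑ k ∈ S', ‖G k ξ‖ₑ := by
      rw [hF ξ hξ.1 hξ.2]
      exact (enorm_add_le _ _).trans (add_le_add (enorm_sum_le _ _) (enorm_sum_le _ _))
    refine (ENNReal.rpow_le_rpow h1 (by linarith)).trans ?_
    exact ENNReal.rpow_add_le_mul_rpow_add_rpow _ _ (by linarith)
  have hmS : Measurable fun ξ => (∑ j ∈ S, ‖H j ξ‖ₑ) ^ p :=
    (Finset.measurable_fun_sum _ fun j hj => (hH j hj).enorm).pow_const _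
  calc ∫⁻ ξ in A, ‖F ξ‖ₑ ^ p
      ≤ ∫⁻ ξ in A, 2 ^ (p - 1) * ((∑ j ∈ S, ‖H j ξ‖ₑ) ^ p + (∑ k ∈ S', ‖G k ξ‖ₑ) ^ p) :=
        setLIntegral_mono' hAm hpt
    _ = 2 ^ (p - 1) * ((∫⁻ ξ in A, (∑ j ∈ S, ‖H j ξ‖ₑ) ^ p) +
          ∫⁻ ξ in A, (∑ k ∈ S', ‖G k ξ‖ₑ) ^ p) := by
        rw [lintegral_const_mul' _ _ (ENNReal.rpow_ne_top_of_nonneg (by linarith) (by norm_num)),
          lintegral_add_left hmS]
    _ ≤ 2 ^ (p - 1) * (ENNReal.ofReal E + ENNReal.ofReal E) := by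
        gcongr
        · exact hS.trans (ENNReal.ofReal_le_ofReal r1)
        · exact hS'.trans (ENNReal.ofReal_le_ofReal r2)
    _ = ENNReal.ofReal (2 ^ p * (C0 ^ p * C0 ^ (4 : ℝ)) * D * R ^ (-η)) := by
        rw [← ENNReal.ofReal_add hE0 hE0]
        have e2 : (2 : ℝ≥0∞) ^ (p - 1) = ENNReal.ofReal ((2 : ℝ) ^ (p - 1)) := by
          rw [← ENNReal.ofReal_rpow_of_nonneg (by norm_num) (by linarith)]
          norm_num
        rw [e2, ← ENNReal.ofReal_mul (by positivity)]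
        congr 1
        have e3 : (2 : ℝ) ^ p = 2 ^ (p - 1) * 2 := by
          rw [← Real.rpow_add_one (by norm_num)]
          congr 1
          ring
        rw [e3, hE]
        ring

end Pool.Agent.LQN
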