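import Pool.Agent.LQN.Df2
import Pool.Agent.MST.CH
import Pool.Agent.MP_6cbfb8_an.SteinTomas

/-!
LEAFQ for every `n`, row STN: the Stein–Tomas bound for the explicit surfaces.
-/

set_option autoImplicit false

namespace Pool.Agent.LQN

open MeasureTheory Set Filter Pool.Agent.MP_6cbfb8_an Pool.Agent.LF
open scoped RealInnerProductSpace ContDiff ENNReal Real

variable {m : ℕ}

/-- The point of `E (m + 1)` with first coordinate `q.1`. -/
noncomputable def cj (m : ℕ) : ℝ × E m ≃ᵐ E (m + 1) :=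
  ((MeasurableEquiv.prodCongr (MeasurableEquiv.refl ℝ)
    (MeasurableEquiv.toLp 2 (Fin m → ℝ)).symm).trans
      (MeasurableEquiv.piFinSuccAbove (fun _ : Fin (m + 1) => ℝ) 0).symm).trans
        (MeasurableEquiv.toLp 2 (Fin (m + 1) → ℝ))

theorem cj_zero (q : ℝ × E m) : cj m q 0 = q.1 := rfl

theorem cj_succ (q : ℝ × E m) (i : Fin m) : cj m q i.succ = q.2 i := rfl

theorem cj_mp : MeasurePreserving (cj m) volume volume := by
  unfold cj
  refine MeasurePreserving.trans (MeasurePreserving.trans ?_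
    ((volume_preserving_piFinSuccAbove (fun _ : Fin (m + 1) => ℝ) 0).symm _))
    (PiLp.volume_preserving_toLp (Fin (m + 1)))
  exact (MeasurePreserving.id volume).prod (PiLp.volume_preserving_ofLp (Fin m))

theorem stn_rr_ss (α : ℝ) (r : Fin m → ℝ) (t : ℝ) (y : Fin m → ℝ) :
    ss α r t y = rr α r t y + ∑ i, y i ^ 2 := by
  unfold ss rr
  simp_rw [sub_mul, one_mul, Finset.sum_sub_distrib]
  ring

theorem stn_t_eq {α : ℝ} (hα : α ≠ 0) (r : Fin m → ℝ) (t : ℝ) (y : Fin m → ℝ) :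
    t = α * (rr α r t y + ∑ i, r i * y i ^ 2) := by
  unfold rr
  field_simp
  ring

theorem stn_norm_cj (q : ℝ × E m) : ‖cj m q‖ ^ 2 = q.1 ^ 2 + ∑ i, q.2 i ^ 2 := by
  rw [EuclideanSpace.norm_sq_eq, Fin.sum_univ_succ]
  simp only [cj_zero, cj_succ, Real.norm_eq_abs, sq_abs]

theorem stn_AA_hasDeriv {α : ℝ} (hα : α ≠ 0) (r : Fin m → ℝ) {t : ℝ} (y : Fin m → ℝ)
    (h : 0 < rr α r t y) :
    HasDerivAt (fun t => AA α r t y) (1 / (2 * α * AA α r t y)) t := by
  unfold AA
  have h1 : HasDerivAt (fun t => rr α r t y) (1 / α) t := by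
    unfold rr
    exact ((hasDerivAt_id t).div_const α).sub_const _
  have h2 := h1.sqrt h.ne'
  convert h2 using 1
  field_simp

theorem stn_AA_pos {α : ℝ} {r : Fin m → ℝ} {t : ℝ} {y : Fin m → ℝ} (h : 0 < rr α r t y) :
    0 < AA α r t y := Real.sqrt_pos.2 h

theorem stn_AA_sq {α : ℝ} {r : Fin m → ℝ} {t : ℝ} {y : Fin m → ℝ} (h : 0 ≤ rr α r t y) :
    AA α r t y ^ 2 = rr α r t y := Real.sq_sqrt h

/-- The substitution `u = A(t, y)`. -/
theorem stn_cov0 {α : ℝ} (hα : α ≠ 0) (r : Fin m → ℝ) (y : Fin m → ℝ) (F : ℝ → ℝ≥0∞) :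
    ∫⁻ u in Ioi (0 : ℝ), F u = ∫⁻ t in {t | 0 < rr α r t y},
      ENNReal.ofReal (1 / (2 * |α| * AA α r t y)) * F (AA α r t y) := by
  set s : Set ℝ := {t | 0 < rr α r t y} with hs
  have hsm : MeasurableSet s := by
    rw [hs]
    unfold rr
    exact measurableSet_lt measurable_const (by fun_prop)
  have himg : (fun t => AA α r t y) '' s = Ioi 0 := by
    ext u
    constructor
    · rintro ⟨t, ht, rfl⟩
      exact stn_AA_pos ht
    · intro hu
      have hu' : (0 : ℝ) < u := hu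
      have h1 : rr α r (α * (u ^ 2 + ∑ i, r i * y i ^ 2)) y = u ^ 2 := by
        unfold rr
        field_simp
        ring
      refine ⟨α * (u ^ 2 + ∑ i, r i * y i ^ 2), ?_, ?_⟩
      · show 0 < rr α r (α * (u ^ 2 + ∑ i, r i * y i ^ 2)) y
        rw [h1]
        positivity
      · simp only
        unfold AA
        rw [h1, Real.sqrt_sq hu'.le]
  have hinj : InjOn (fun t => AA α r t y) s := by
    intro t ht t' ht' h
    have h2 : rr α r t y = rr α r t' y := by
      rw [← stn_AA_sq (le_of_lt ht), ← stn_AA_sq (le_of_lt ht')]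
      exact congrArg (· ^ 2) h
    rw [stn_t_eq hα r t y, h2, ← stn_t_eq hα]
  rw [← himg, lintegral_image_eq_lintegral_abs_deriv_mul hsm
    (f' := fun t => 1 / (2 * α * AA α r t y))
    (fun t ht => (stn_AA_hasDeriv hα r y ht).hasDerivWithinAt) hinj]
  refine setLIntegral_congr_fun hsm fun t ht => ?_
  congr 2
  rw [abs_div, abs_one, abs_mul, abs_mul, abs_of_pos (stn_AA_pos ht)]
  norm_num

theorem stn_meas_rr (α : ℝ) (r : Fin m → ℝ) : Measurable fun p : ℝ × E m => rr α r p.1 p.2 := by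
  unfold rr
  fun_prop

theorem stn_meas_AA (α : ℝ) (r : Fin m → ℝ) : Measurable fun p : ℝ × E m => AA α r p.1 p.2 :=
  (stn_meas_rr α r).sqrt

theorem stn_meas_ss (α : ℝ) (r : Fin m → ℝ) : Measurable fun p : ℝ × E m => ss α r p.1 p.2 := by
  unfold ss
  fun_prop

theorem stn_meas_HH (α d : ℝ) (r : Fin m → ℝ) : Measurable fun p : ℝ × E m => HH α d r p.1 p.2 := by
  unfold HH
  exact ((stn_meas_ss α r).const_mul _).const_sub _ |>.sqrt

/-- The substitution, joint version. -/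
theorem stn_cov2 {α : ℝ} (hα : α ≠ 0) (r : Fin m → ℝ) (F : ℝ × E m → ℝ≥0∞) (hF : Measurable F) :
    ∫⁻ q in {q : ℝ × E m | 0 < q.1}, F q = ∫⁻ p in {p : ℝ × E m | 0 < rr α r p.1 p.2},
      ENNReal.ofReal (1 / (2 * |α| * AA α r p.1 p.2)) * F (AA α r p.1 p.2, p.2) := by
  have hm1 : MeasurableSet {q : ℝ × E m | 0 < q.1} := measurableSet_lt measurable_const measurable_fst
  have hm2 : MeasurableSet {p : ℝ × E m | 0 < rr α r p.1 p.2} :=
    measurableSet_lt measurable_const (stn_meas_rr α r)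
  have hF2 : Measurable fun p : ℝ × E m => ENNReal.ofReal (1 / (2 * |α| * AA α r p.1 p.2)) *
      F (AA α r p.1 p.2, p.2) := by
    refine Measurable.mul ?_ (hF.comp ((stn_meas_AA α r).prodMk measurable_snd))
    exact ENNReal.measurable_ofReal.comp (((stn_meas_AA α r).const_mul _).const_div _)
  rw [← lintegral_indicator hm1, ← lintegral_indicator hm2, Measure.volume_eq_prod,
    lintegral_prod_symm _ (hF.indicator hm1).aemeasurable,
    lintegral_prod_symm _ (hF2.indicator hm2).aemeasurable]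
  refine lintegral_congr fun z => ?_
  have e1 : ∀ u : ℝ, ({q : ℝ × E m | 0 < q.1}.indicator F) (u, z) =
      (Ioi (0 : ℝ)).indicator (fun u => F (u, z)) u := fun u => rfl
  have e2 : ∀ t : ℝ, ({p : ℝ × E m | 0 < rr α r p.1 p.2}.indicator (fun p : ℝ × E m =>
      ENNReal.ofReal (1 / (2 * |α| * AA α r p.1 p.2)) * F (AA α r p.1 p.2, p.2))) (t, z) =
      {t : ℝ | 0 < rr α r t z}.indicator (fun t => ENNReal.ofReal (1 / (2 * |α| * AA α r t z)) *
        F (AA α r t z, z)) t := fun t => rfl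
  simp_rw [e1, e2]
  have hm3 : MeasurableSet {t : ℝ | 0 < rr α r t z} := by
    unfold rr
    exact measurableSet_lt measurable_const (by fun_prop)
  rw [lintegral_indicator measurableSet_Ioi, lintegral_indicator hm3, stn_cov0 hα r z]

/-- The point of the sphere. -/
noncomputable def Ph (α d : ℝ) (r : Fin m → ℝ) (p : ℝ × E m) : E (m + 2) :=
  join (d • cj m (AA α r p.1 p.2, p.2)) (HH α d r p.1 p.2)

/-- The domain of the chart. -/
def Dm (α d : ℝ) (r : Fin m → ℝ) : Set (ℝ × E m) :=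
  {p | 0 < rr α r p.1 p.2 ∧ 0 < 1 - d ^ 2 * ss α r p.1 p.2}

theorem meas_Ph (α d : ℝ) (r : Fin m → ℝ) : Measurable (Ph α d r) := by
  unfold Ph
  refine measurable_join.comp (f := fun p : ℝ × E m =>
    (d • cj m (AA α r p.1 p.2, p.2), HH α d r p.1 p.2)) ?_
  refine Measurable.prodMk ?_ (stn_meas_HH α d r)
  exact ((cj m).measurable.comp ((stn_meas_AA α r).prodMk measurable_snd)).const_smul d

theorem meas_Dm (α d : ℝ) (r : Fin m → ℝ) : MeasurableSet (Dm α d r) := by
  unfold Dm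
  exact (measurableSet_lt measurable_const (stn_meas_rr α r)).inter
    (measurableSet_lt measurable_const (((stn_meas_ss α r).const_mul _).const_sub _))

theorem stn_lintegral_smul {n : ℕ} {d : ℝ} (hd : 0 < d) (F : E n → ℝ≥0∞) (hF : Measurable F) :
    ∫⁻ u, F u = ENNReal.ofReal (d ^ n) * ∫⁻ v, F (d • v) := by
  have h1 := Measure.map_addHaar_smul (volume : Measure (E n)) hd.ne'
  have h2 : ∫⁻ v, F (d • v) = ∫⁻ u, F u ∂(Measure.map (fun v : E n => d • v) volume) := by
    rw [lintegral_map hF (by fun_prop)]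
  rw [h2, h1, lintegral_smul_measure, finrank_euclideanSpace, Fintype.card_fin, smul_eq_mul,
    ← mul_assoc, ← ENNReal.ofReal_mul (by positivity), abs_of_pos (by positivity),
    mul_inv_cancel₀ (by positivity), ENNReal.ofReal_one, one_mul]

/-- The surface measure in the chart. -/
theorem lint_chart {α : ℝ} (hα : α ≠ 0) (r : Fin m → ℝ) {d : ℝ} (hd : 0 < d)
    (φ : E (m + 2) → ℝ≥0∞) (hφ : Measurable φ) :
    ∫⁻ x : S (m + 2), (if 0 < (x : E (m + 2)) (Fin.last (m + 1)) ∧ 0 < (x : E (m + 2)) 0 then φ x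
      else 0) ∂(sm (m + 2)) =
      ∫⁻ p in Dm α d r, ENNReal.ofReal (d ^ (m + 1) / (2 * |α| * AA α r p.1 p.2 * HH α d r p.1 p.2)) *
        φ (Ph α d r p) := by
  have hm0 : MeasurableSet {x : E (m + 2) | 0 < x 0} :=
    measurableSet_lt measurable_const (by fun_prop)
  set φ' : E (m + 2) → ℝ≥0∞ := fun x => if 0 < x 0 then φ x else 0 with hφ'
  have hφm : Measurable φ' := Measurable.ite hm0 hφ measurable_const
  have h1 : ∫⁻ x : S (m + 2), (if 0 < (x : E (m + 2)) (Fin.last (m + 1)) ∧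
      0 < (x : E (m + 2)) 0 then φ x else 0) ∂(sm (m + 2)) =
      ∫⁻ x : S (m + 2), (if 0 < (x : E (m + 2)) (Fin.last (m + 1)) then φ' x else 0)
        ∂(sm (m + 2)) := by
    refine lintegral_congr fun x => ?_
    simp only [hφ']
    by_cases h : 0 < (x : E (m + 2)) (Fin.last (m + 1))
    · simp [h]
    · simp [h]
  rw [h1, MST.chart_lintegral m φ' hφm]
  set Ψ : E (m + 1) → ℝ≥0∞ := (Metric.ball (0 : E (m + 1)) 1).indicator fun u =>
    φ' (join u √(1 - ‖u‖ ^ 2)) * ENNReal.ofReal (1 / √(1 - ‖u‖ ^ 2)) with hΨ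
  have hΨm : Measurable Ψ := by
    refine Measurable.indicator ?_ Metric.isOpen_ball.measurableSet
    exact (hφm.comp (MST.hch_measurable_graph m)).mul (by fun_prop)
  rw [← lintegral_indicator Metric.isOpen_ball.measurableSet]
  change ∫⁻ u, Ψ u = _
  rw [stn_lintegral_smul hd Ψ hΨm]
  have h2 : ∫⁻ v : E (m + 1), Ψ (d • v) = ∫⁻ q : ℝ × E m, Ψ (d • cj m q) :=
    (cj_mp.lintegral_comp (hΨm.comp (measurable_const_smul d))).symm
  have h3 : ∫⁻ q : ℝ × E m, Ψ (d • cj m q) = ∫⁻ q in {q : ℝ × E m | 0 < q.1}, Ψ (d • cj m q) := by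
    have hm1 : MeasurableSet {q : ℝ × E m | 0 < q.1} :=
      measurableSet_lt measurable_const measurable_fst
    rw [← lintegral_indicator hm1]
    refine lintegral_congr fun q => ?_
    by_cases hq : 0 < q.1
    · rw [indicator_of_mem (show q ∈ {q : ℝ × E m | 0 < q.1} from hq)]
    · rw [indicator_of_notMem (show q ∉ {q : ℝ × E m | 0 < q.1} from hq)]
      rw [hΨ]
      by_cases hb : d • cj m q ∈ Metric.ball (0 : E (m + 1)) 1
      · rw [indicator_of_mem hb]
        have h4 : φ' (join (d • cj m q) √(1 - ‖d • cj m q‖ ^ 2)) = 0 := by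
          simp only [hφ']
          rw [if_neg]
          have h5 : (join (d • cj m q) √(1 - ‖d • cj m q‖ ^ 2) : E (m + 2)) 0 = d * q.1 := rfl
          rw [h5]
          nlinarith
        rw [h4, zero_mul]
      · rw [indicator_of_notMem hb]
  rw [h2, h3, stn_cov2 hα r (fun q => Ψ (d • cj m q)) (hΨm.comp ((cj m).measurable.const_smul d)),
    ← lintegral_const_mul' _ _ ENNReal.ofReal_ne_top,
    ← lintegral_indicator (measurableSet_lt measurable_const (stn_meas_rr α r)),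
    ← lintegral_indicator (meas_Dm α d r)]
  refine lintegral_congr fun p => ?_
  by_cases hr : 0 < rr α r p.1 p.2
  · rw [indicator_of_mem (show p ∈ {p : ℝ × E m | 0 < rr α r p.1 p.2} from hr)]
    have hn : ‖d • cj m (AA α r p.1 p.2, p.2)‖ ^ 2 = d ^ 2 * ss α r p.1 p.2 := by
      rw [norm_smul, mul_pow, stn_norm_cj, Real.norm_of_nonneg hd.le, stn_rr_ss]
      simp only
      rw [stn_AA_sq hr.le]
    by_cases hs : 0 < 1 - d ^ 2 * ss α r p.1 p.2
    · rw [indicator_of_mem (show p ∈ Dm α d r from ⟨hr, hs⟩), hΨ, indicator_of_mem, hn]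
      · have h6 : √(1 - d ^ 2 * ss α r p.1 p.2) = HH α d r p.1 p.2 := rfl
        rw [h6]
        have h7 : (join (d • cj m (AA α r p.1 p.2, p.2)) (HH α d r p.1 p.2) : E (m + 2)) =
          Ph α d r p := rfl
        rw [h7]
        have h8 : φ' (Ph α d r p) = φ (Ph α d r p) := by
          simp only [hφ']
          rw [if_pos]
          have h9 : (Ph α d r p : E (m + 2)) 0 = d * AA α r p.1 p.2 := rfl
          rw [h9]
          exact mul_pos hd (stn_AA_pos hr)
        rw [h8]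
        have hA := stn_AA_pos hr
        have hH : 0 < HH α d r p.1 p.2 := Real.sqrt_pos.2 hs
        have hα' := abs_pos.2 hα
        calc ENNReal.ofReal (d ^ (m + 1)) * (ENNReal.ofReal (1 / (2 * |α| * AA α r p.1 p.2)) *
              (φ (Ph α d r p) * ENNReal.ofReal (1 / HH α d r p.1 p.2))) =
              (ENNReal.ofReal (d ^ (m + 1)) * ENNReal.ofReal (1 / (2 * |α| * AA α r p.1 p.2)) *
                ENNReal.ofReal (1 / HH α d r p.1 p.2)) * φ (Ph α d r p) := by ring
          _ = _ := by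
            rw [← ENNReal.ofReal_mul (by positivity), ← ENNReal.ofReal_mul (by positivity)]
            congr 2
            field_simp
      · rw [mem_ball_zero_iff]
        have : ‖d • cj m (AA α r p.1 p.2, p.2)‖ ^ 2 < 1 := by rw [hn]; linarith
        nlinarith [norm_nonneg (d • cj m (AA α r p.1 p.2, p.2))]
    · rw [indicator_of_notMem (show p ∉ Dm α d r from fun h => hs h.2), hΨ, indicator_of_notMem]
      · ring
      · rw [mem_ball_zero_iff]
        intro h
        have : ‖d • cj m (AA α r p.1 p.2, p.2)‖ ^ 2 < 1 := by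
          nlinarith [norm_nonneg (d • cj m (AA α r p.1 p.2, p.2))]
        rw [hn] at this
        linarith
  · rw [indicator_of_notMem (show p ∉ {p : ℝ × E m | 0 < rr α r p.1 p.2} from hr),
      indicator_of_notMem (show p ∉ Dm α d r from fun h => hr h.1)]

theorem stn_measure_eq {α : ℝ} (hα : α ≠ 0) (r : Fin m → ℝ) {d : ℝ} (hd : 0 < d) :
    ((sm (m + 2)).restrict {x : S (m + 2) | 0 < (x : E (m + 2)) (Fin.last (m + 1)) ∧
      0 < (x : E (m + 2)) 0}).map (fun x : S (m + 2) => (x : E (m + 2))) =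
    (((volume : Measure (ℝ × E m)).restrict (Dm α d r)).withDensity
      (fun p => ENNReal.ofReal (d ^ (m + 1) / (2 * |α| * AA α r p.1 p.2 * HH α d r p.1 p.2)))).map
      (Ph α d r) := by
  classical
  have hms : MeasurableSet {x : S (m + 2) | 0 < (x : E (m + 2)) (Fin.last (m + 1)) ∧
      0 < (x : E (m + 2)) 0} := by
    have h1 : Measurable fun x : S (m + 2) => (x : E (m + 2)) (Fin.last (m + 1)) := by
      have h1 : Measurable fun x : E (m + 2) => x (Fin.last (m + 1)) := by fun_prop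
      exact h1.comp measurable_subtype_coe
    have h2 : Measurable fun x : S (m + 2) => (x : E (m + 2)) 0 := by
      have h1 : Measurable fun x : E (m + 2) => x 0 := by fun_prop
      exact h1.comp measurable_subtype_coe
    exact (measurableSet_lt measurable_const h1).inter (measurableSet_lt measurable_const h2)
  have hJ : Measurable fun p : ℝ × E m =>
      ENNReal.ofReal (d ^ (m + 1) / (2 * |α| * AA α r p.1 p.2 * HH α d r p.1 p.2)) :=
    ENNReal.measurable_ofReal.comp ((((stn_meas_AA α r).const_mul _).mul (stn_meas_HH α d r)).const_div _)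
  refine Measure.ext fun s hs => ?_
  have h := lint_chart hα r hd (s.indicator 1) (measurable_one.indicator hs)
  have h1 : ((sm (m + 2)).restrict {x : S (m + 2) | 0 < (x : E (m + 2)) (Fin.last (m + 1)) ∧
      0 < (x : E (m + 2)) 0}).map (fun x : S (m + 2) => (x : E (m + 2))) s = ∫⁻ x : S (m + 2),
        (if 0 < (x : E (m + 2)) (Fin.last (m + 1)) ∧ 0 < (x : E (m + 2)) 0 then
          (s.indicator 1 (x : E (m + 2))) else 0) ∂(sm (m + 2)) := by
    rw [← lintegral_indicator_one hs, lintegral_map (measurable_one.indicator hs)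
      measurable_subtype_coe, ← lintegral_indicator hms]
    refine lintegral_congr fun x => ?_
    by_cases hx : 0 < (x : E (m + 2)) (Fin.last (m + 1)) ∧ 0 < (x : E (m + 2)) 0
    · rw [if_pos hx, indicator_of_mem (show x ∈ {x : S (m + 2) |
        0 < (x : E (m + 2)) (Fin.last (m + 1)) ∧ 0 < (x : E (m + 2)) 0} from hx)]
    · rw [if_neg hx, indicator_of_notMem (show x ∉ {x : S (m + 2) |
        0 < (x : E (m + 2)) (Fin.last (m + 1)) ∧ 0 < (x : E (m + 2)) 0} from hx)]
  have hm : Measurable fun p : ℝ × E m => s.indicator (1 : E (m + 2) → ℝ≥0∞) (Ph α d r p) :=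
    (measurable_one.indicator hs).comp (meas_Ph α d r)
  rw [h1, h, ← lintegral_indicator_one hs, lintegral_map (measurable_one.indicator hs)
      (meas_Ph α d r), lintegral_withDensity_eq_lintegral_mul _ hJ hm]
  rfl

/-- The surface integral in the chart. -/
theorem int_chart {α : ℝ} (hα : α ≠ 0) (r : Fin m → ℝ) {d : ℝ} (hd : 0 < d)
    (f : E (m + 2) → ℂ) (hf : Measurable f)
    (h0 : ∀ x : E (m + 2), ¬ (0 < x (Fin.last (m + 1)) ∧ 0 < x 0) → f x = 0) :
    ∫ x : S (m + 2), f x ∂(sm (m + 2)) = ∫ p in Dm α d r,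
      ((d ^ (m + 1) / (2 * |α| * AA α r p.1 p.2 * HH α d r p.1 p.2) : ℝ) : ℂ) *
        f (Ph α d r p) := by
  have hms : MeasurableSet {x : S (m + 2) | 0 < (x : E (m + 2)) (Fin.last (m + 1)) ∧
      0 < (x : E (m + 2)) 0} := by
    have h1 : Measurable fun x : S (m + 2) => (x : E (m + 2)) (Fin.last (m + 1)) := by
      have h1 : Measurable fun x : E (m + 2) => x (Fin.last (m + 1)) := by fun_prop
      exact h1.comp measurable_subtype_coe
    have h2 : Measurable fun x : S (m + 2) => (x : E (m + 2)) 0 := by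
      have h1 : Measurable fun x : E (m + 2) => x 0 := by fun_prop
      exact h1.comp measurable_subtype_coe
    exact (measurableSet_lt measurable_const h1).inter (measurableSet_lt measurable_const h2)
  have hJ : Measurable fun p : ℝ × E m =>
      ENNReal.ofReal (d ^ (m + 1) / (2 * |α| * AA α r p.1 p.2 * HH α d r p.1 p.2)) :=
    ENNReal.measurable_ofReal.comp ((((stn_meas_AA α r).const_mul _).mul (stn_meas_HH α d r)).const_div _)
  have h1 : ∫ x : S (m + 2), f x ∂(sm (m + 2)) =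
      ∫ x in {x : S (m + 2) | 0 < (x : E (m + 2)) (Fin.last (m + 1)) ∧
      0 < (x : E (m + 2)) 0}, f x ∂(sm (m + 2)) := by
    rw [setIntegral_eq_integral_of_forall_compl_eq_zero]
    intro x hx
    exact h0 x hx
  have h2 : ∫ x in {x : S (m + 2) | 0 < (x : E (m + 2)) (Fin.last (m + 1)) ∧
      0 < (x : E (m + 2)) 0}, f x ∂(sm (m + 2)) = ∫ z : E (m + 2), f z
        ∂(((sm (m + 2)).restrict {x : S (m + 2) | 0 < (x : E (m + 2)) (Fin.last (m + 1)) ∧
      0 < (x : E (m + 2)) 0}).map (fun x : S (m + 2) => (x : E (m + 2)))) := by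
    rw [integral_map measurable_subtype_coe.aemeasurable hf.aestronglyMeasurable]
  rw [h1, h2, stn_measure_eq hα r hd, integral_map (meas_Ph α d r).aemeasurable
    hf.aestronglyMeasurable, integral_withDensity_eq_integral_toReal_smul₀ hJ.aemeasurable]
  · refine integral_congr_ae (Eventually.of_forall fun p => ?_)
    have h3 : 0 ≤ d ^ (m + 1) / (2 * |α| * AA α r p.1 p.2 * HH α d r p.1 p.2) := by
      have h4 : 0 ≤ AA α r p.1 p.2 := Real.sqrt_nonneg _
      have h5 : 0 ≤ HH α d r p.1 p.2 := Real.sqrt_nonneg _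
      positivity
    simp only
    rw [ENNReal.toReal_ofReal h3, Complex.real_smul]
  · exact Eventually.of_forall fun u => ENNReal.ofReal_lt_top

/-- The density on the sphere. -/
noncomputable def gd (α d : ℝ) (r : Fin m → ℝ) (b : ℝ × E m → ℂ) (x : E (m + 2)) : ℂ :=
  if 0 < x (Fin.last (m + 1)) ∧ 0 < x 0 then
    b (α * ((x 0 / d) ^ 2 + ∑ i : Fin m, r i * (x i.succ.castSucc / d) ^ 2),
      WithLp.toLp 2 fun i : Fin m => x i.succ.castSucc / d) *
        ((2 * |α| * (x 0 / d) * min (x (Fin.last (m + 1))) 1 : ℝ) : ℂ)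
  else 0

theorem meas_gd (α d : ℝ) (r : Fin m → ℝ) {b : ℝ × E m → ℂ} (hb : Measurable b) :
    Measurable (gd α d r b) := by
  unfold gd
  refine Measurable.ite ?_ ?_ measurable_const
  · have h1 : Measurable fun x : E (m + 2) => x (Fin.last (m + 1)) := by fun_prop
    have h2 : Measurable fun x : E (m + 2) => x 0 := by fun_prop
    exact (measurableSet_lt measurable_const h1).inter (measurableSet_lt measurable_const h2)
  · refine Measurable.mul (hb.comp (Measurable.prodMk ?_ ?_)) ?_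
    · fun_prop
    · refine (MeasurableEquiv.toLp 2 (Fin m → ℝ)).measurable.comp ?_
      rw [measurable_pi_iff]
      intro i
      fun_prop
    · refine Complex.measurable_ofReal.comp ?_
      fun_prop

/-- The linear change of the frequencies. -/
noncomputable def sw (d : ℝ) (ξ : E (m + 2)) : E (m + 2) :=
  WithLp.toLp 2 fun i => (if i = Fin.last (m + 1) then -(2 * π * d ^ 2) else 2 * π * d) * ξ i

theorem lintegral_wd {d : ℝ} (hd : 0 < d) (F : E (m + 2) → ℝ≥0∞) (hF : Measurable F) :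
    ∫⁻ ξ, F ξ = ENNReal.ofReal ((2 * π) ^ (m + 2) * d ^ (m + 3)) * ∫⁻ ξ, F (sw d ξ) := by
  set D : Fin (m + 2) → ℝ := fun i => if i = Fin.last (m + 1) then -(2 * π * d ^ 2) else 2 * π * d
    with hD
  have hdet : (Matrix.diagonal D).det = -((2 * π) ^ (m + 2) * d ^ (m + 3)) := by
    rw [Matrix.det_diagonal, Fin.prod_univ_castSucc]
    have h1 : ∀ i : Fin (m + 1), D i.castSucc = 2 * π * d := by
      intro i
      simp only [hD]
      rw [if_neg (Fin.castSucc_lt_last i).ne]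
    have h2 : D (Fin.last (m + 1)) = -(2 * π * d ^ 2) := by simp [hD]
    simp_rw [h1, h2]
    rw [Finset.prod_const, Finset.card_univ, Fintype.card_fin]
    ring
  have hpos : 0 < (2 * π) ^ (m + 2) * d ^ (m + 3) := by positivity
  have h0 : (Matrix.diagonal D).det ≠ 0 := by
    rw [hdet]
    exact neg_ne_zero.2 hpos.ne'
  have h1 := Real.smul_map_diagonal_volume_pi h0
  rw [hdet, abs_neg, abs_of_pos hpos] at h1
  have hG : Measurable fun y : Fin (m + 2) → ℝ => F (WithLp.toLp 2 y) :=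
    hF.comp (MeasurableEquiv.toLp 2 (Fin (m + 2) → ℝ)).measurable
  have h2 : ∫⁻ ξ : E (m + 2), F ξ = ∫⁻ y : Fin (m + 2) → ℝ, F (WithLp.toLp 2 y) :=
    ((PiLp.volume_preserving_toLp (Fin (m + 2))).lintegral_comp hF).symm
  have h3 : ∫⁻ ξ : E (m + 2), F (sw d ξ) = ∫⁻ y : Fin (m + 2) → ℝ,
      F (WithLp.toLp 2 (Matrix.toLin' (Matrix.diagonal D) y)) := by
    have h4 : ∀ y : Fin (m + 2) → ℝ, (WithLp.toLp 2 (Matrix.toLin' (Matrix.diagonal D) y) :
        E (m + 2)) = sw d (WithLp.toLp 2 y) := by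
      intro y
      unfold sw
      congr 1
      funext i
      rw [Matrix.toLin'_apply, Matrix.mulVec_diagonal]
    simp_rw [h4]
    have hw : Measurable fun ξ : E (m + 2) => F (sw d ξ) := by
      refine hF.comp ?_
      unfold sw
      refine (MeasurableEquiv.toLp 2 (Fin (m + 2) → ℝ)).measurable.comp ?_
      rw [measurable_pi_iff]
      intro i
      fun_prop
    exact ((PiLp.volume_preserving_toLp (Fin (m + 2))).lintegral_comp hw).symm
  rw [h2, h3]
  nth_rewrite 1 [← h1]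
  rw [lintegral_smul_measure, lintegral_map hG (by fun_prop), smul_eq_mul]

theorem Ph_zero (α d : ℝ) (r : Fin m → ℝ) (p : ℝ × E m) :
    Ph α d r p 0 = d * AA α r p.1 p.2.ofLp := rfl

theorem Ph_last (α d : ℝ) (r : Fin m → ℝ) (p : ℝ × E m) :
    Ph α d r p (Fin.last (m + 1)) = HH α d r p.1 p.2.ofLp := by
  unfold Ph
  exact join_last _ _

theorem Ph_mid (α d : ℝ) (r : Fin m → ℝ) (p : ℝ × E m) (i : Fin m) :
    Ph α d r p i.succ.castSucc = d * p.2 i := by
  unfold Ph
  rw [join_castSucc]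
  rfl

theorem stn_HH_le_one {α d : ℝ} {r : Fin m → ℝ} {t : ℝ} {y : Fin m → ℝ} (h : 0 ≤ rr α r t y) :
    HH α d r t y ≤ 1 := by
  unfold HH
  rw [Real.sqrt_le_left (by norm_num)]
  have : 0 ≤ ss α r t y := by
    rw [stn_rr_ss]
    positivity
  nlinarith [mul_nonneg (sq_nonneg d) this]

theorem gd_Ph {α d : ℝ} (hα : α ≠ 0) (hd : 0 < d) (r : Fin m → ℝ) (b : ℝ × E m → ℂ)
    {p : ℝ × E m} (hp : p ∈ Dm α d r) : gd α d r b (Ph α d r p) =
      b p * ((2 * |α| * AA α r p.1 p.2.ofLp * HH α d r p.1 p.2.ofLp : ℝ) : ℂ) := by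
  obtain ⟨hr, hs⟩ := hp
  have hA := stn_AA_pos hr
  have hH : 0 < HH α d r p.1 p.2.ofLp := Real.sqrt_pos.2 hs
  unfold gd
  rw [Ph_last, Ph_zero, if_pos ⟨hH, mul_pos hd hA⟩]
  have h1 : d * AA α r p.1 p.2.ofLp / d = AA α r p.1 p.2.ofLp := by field_simp
  have h2 : ∀ i : Fin m, Ph α d r p i.succ.castSucc / d = p.2 i := by
    intro i
    rw [Ph_mid]
    field_simp
  simp_rw [h2]
  rw [h1, stn_AA_sq hr.le, ← stn_t_eq hα, min_eq_left (stn_HH_le_one hr.le)]

theorem stn_measurable_Tb {n : ℕ} {X : ℝ × E m → E n} (hX : Continuous X) {b : ℝ × E m → ℂ}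
    (hb : Measurable b) : Measurable (Tb X b) := by
  unfold Tb
  have h1 : Measurable fun q : E n × (ℝ × E m) =>
      b q.2 * Complex.exp (((-⟪q.1, X q.2⟫ : ℝ) : ℂ) * Complex.I) := by
    have h2 : Continuous fun q : E n × (ℝ × E m) =>
        Complex.exp (((-⟪q.1, X q.2⟫ : ℝ) : ℂ) * Complex.I) := by fun_prop
    exact (hb.comp measurable_snd).mul h2.measurable
  exact (StronglyMeasurable.integral_prod_right h1.stronglyMeasurable).measurable

theorem stn_d_hh {α d : ℝ} {r : Fin m → ℝ} {t : ℝ} {y : Fin m → ℝ}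
    (h : 0 ≤ 1 - d ^ 2 * ss α r t y) : d ^ 2 * hh α d r t y = 1 - HH α d r t y := by
  have h1 : HH α d r t y ^ 2 = 1 - d ^ 2 * ss α r t y := Real.sq_sqrt h
  have h2 : 0 ≤ HH α d r t y := Real.sqrt_nonneg _
  unfold hh
  have h3 : 1 + HH α d r t y ≠ 0 := by positivity
  field_simp
  nlinarith

/-- The phases. -/
theorem stn_phase {κ α : ℝ} {r : Fin m → ℝ} {X : ℝ → ℝ × E m → E (m + 2)} {A : ℕ → ℝ}
    (hX : SF κ α r X A) (hκ : 0 < κ) {d : ℝ} (hd0 : 0 ≤ d) (hd1 : d ≤ 1) (ξ : E (m + 2))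
    {p : ℝ × E m} (hp : Rs κ α d r p.1 p.2.ofLp) :
    2 * π * inner ℝ (Ph α d r p) ξ = ⟪sw d ξ, X d p⟫ + 2 * π * ξ (Fin.last (m + 1)) := by
  obtain ⟨-, -, hX3⟩ := hX d hd0 hd1
  obtain ⟨X0, X1, X2, -, -⟩ := hX3 p.1 p.2 (Rs_sub hκ.le hp)
  have e0 : X d p 0 = AA α r p.1 p.2.ofLp := X0
  have e1 : ∀ i : Fin m, X d p i.succ.castSucc = p.2 i := X1
  have e2 : X d p (Fin.last (m + 1)) = hh α d r p.1 p.2.ofLp := X2
  have hq := stn_d_hh (d := d) (α := α) (r := r) (t := p.1) (y := p.2.ofLp)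
    (by linarith [hp.2.2.2])
  rw [PiLp.inner_apply, PiLp.inner_apply, Fin.sum_univ_castSucc, Fin.sum_univ_succ,
    Fin.sum_univ_castSucc, Fin.sum_univ_succ]
  have c0 : (Fin.castSucc (0 : Fin (m + 1))) = (0 : Fin (m + 2)) := rfl
  simp only [RCLike.inner_apply, conj_trivial, c0, Ph_zero, Ph_mid, Ph_last, e0, e1, e2]
  have w0 : sw d ξ 0 = 2 * π * d * ξ 0 := by
    show (if (0 : Fin (m + 2)) = Fin.last (m + 1) then -(2 * π * d ^ 2) else 2 * π * d) * ξ 0 = _
    rw [if_neg]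
    intro h
    have := congrArg Fin.val h
    simp at this
  have w1 : ∀ i : Fin m, sw d ξ i.succ.castSucc = 2 * π * d * ξ i.succ.castSucc := by
    intro i
    show (if i.succ.castSucc = Fin.last (m + 1) then -(2 * π * d ^ 2) else 2 * π * d) * _ = _
    rw [if_neg (Fin.castSucc_lt_last _).ne]
  have w2 : sw d ξ (Fin.last (m + 1)) = -(2 * π * d ^ 2) * ξ (Fin.last (m + 1)) := by
    show (if Fin.last (m + 1) = Fin.last (m + 1) then -(2 * π * d ^ 2) else 2 * π * d) * _ = _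
    rw [if_pos rfl]
  rw [w0, w2]
  simp_rw [w1]
  have h9 : HH α d r p.1 p.2.ofLp = 1 - d ^ 2 * hh α d r p.1 p.2.ofLp := by linarith
  rw [h9]
  have h10 : ∑ i : Fin m, p.2 i * (2 * π * d * ξ i.succ.castSucc) =
      2 * π * ∑ i : Fin m, ξ i.succ.castSucc * (d * p.2 i) := by
    rw [Finset.mul_sum]
    exact Finset.sum_congr rfl fun i _ => by ring
  rw [h10]
  ring

/-- The operator of the chart and the sphere. -/
theorem norm_extn_gd {κ α : ℝ} (hα : α ≠ 0) {r : Fin m → ℝ} {X : ℝ → ℝ × E m → E (m + 2)}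
    {A : ℕ → ℝ} (hX : SF κ α r X A) (hκ : 0 < κ) {d : ℝ} (hd0 : 0 < d) (hd1 : d ≤ 1)
    {b : ℝ × E m → ℂ} (hb : Measurable b) (hs : ∀ t (z : E m), ¬ Rs κ α d r t z.ofLp → b (t, z) = 0)
    (ξ : E (m + 2)) : ‖extn (gd α d r b) ξ‖ = d ^ (m + 1) * ‖Tb (X d) b (sw d ξ)‖ := by
  have hsub : ∀ p : ℝ × E m, b p ≠ 0 → Rs κ α d r p.1 p.2.ofLp := by
    intro p hp
    by_contra h
    exact hp (hs p.1 p.2 h)
  have h1 : extn (gd α d r b) ξ = ∫ p in Dm α d r,
      ((d ^ (m + 1) / (2 * |α| * AA α r p.1 p.2 * HH α d r p.1 p.2) : ℝ) : ℂ) *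
        (gd α d r b (Ph α d r p) *
          Complex.exp (((-(2 * π * inner ℝ (Ph α d r p) ξ) : ℝ) : ℂ) * Complex.I)) := by
    unfold extn
    refine int_chart hα r hd0 (fun x => gd α d r b x *
      Complex.exp (((-(2 * π * inner ℝ x ξ) : ℝ) : ℂ) * Complex.I)) ?_ ?_
    · refine (meas_gd α d r hb).mul ?_
      fun_prop
    · intro x hx
      unfold gd
      simp only
      rw [if_neg hx, zero_mul]
  have h2 : ∫ p in Dm α d r,
      ((d ^ (m + 1) / (2 * |α| * AA α r p.1 p.2 * HH α d r p.1 p.2) : ℝ) : ℂ) *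
        (gd α d r b (Ph α d r p) *
          Complex.exp (((-(2 * π * inner ℝ (Ph α d r p) ξ) : ℝ) : ℂ) * Complex.I)) =
      ∫ p, (((d ^ (m + 1) : ℝ) : ℂ) *
        Complex.exp (((-(2 * π * ξ (Fin.last (m + 1))) : ℝ) : ℂ) * Complex.I)) *
        (b p * Complex.exp (((-⟪sw d ξ, X d p⟫ : ℝ) : ℂ) * Complex.I)) := by
    rw [← integral_indicator (meas_Dm α d r)]
    refine integral_congr_ae (Eventually.of_forall fun p => ?_)
    simp only
    by_cases hp : p ∈ Dm α d r
    · rw [indicator_of_mem hp, gd_Ph hα hd0 r b hp]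
      by_cases hb0 : b p = 0
      · rw [hb0]; ring
      · rw [stn_phase hX hκ hd0.le hd1 ξ (hsub p hb0)]
        have e1 : Complex.exp (((-(⟪sw d ξ, X d p⟫ + 2 * π * ξ (Fin.last (m + 1))) : ℝ) : ℂ) *
            Complex.I) = Complex.exp (((-⟪sw d ξ, X d p⟫ : ℝ) : ℂ) * Complex.I) *
              Complex.exp (((-(2 * π * ξ (Fin.last (m + 1))) : ℝ) : ℂ) * Complex.I) := by
          rw [← Complex.exp_add, ← add_mul, ← Complex.ofReal_add]
          congr 3
          ring
        rw [e1]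
        have hA := stn_AA_pos hp.1
        have hH : 0 < HH α d r p.1 p.2.ofLp := Real.sqrt_pos.2 hp.2
        have hA' : ((AA α r p.1 p.2.ofLp : ℝ) : ℂ) ≠ 0 := by exact_mod_cast hA.ne'
        have hH' : ((HH α d r p.1 p.2.ofLp : ℝ) : ℂ) ≠ 0 := by exact_mod_cast hH.ne'
        have hα' : ((|α| : ℝ) : ℂ) ≠ 0 := by exact_mod_cast abs_ne_zero.2 hα
        push_cast
        field_simp
    · rw [indicator_of_notMem hp]
      have hb0 : b p = 0 := by
        by_contra h
        have h3 := hsub p h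
        exact hp ⟨by linarith [h3.2.1], by linarith [h3.2.2.2]⟩
      rw [hb0]
      ring
  rw [h1, h2, integral_const_mul, norm_mul, norm_mul, Complex.norm_exp_ofReal_mul_I, mul_one,
    Complex.norm_real, Real.norm_of_nonneg (by positivity)]
  rfl

theorem gd_bdd {κ α : ℝ} (hα : α ≠ 0) {r : Fin m → ℝ} {d : ℝ}
    {b : ℝ × E m → ℂ} {B0 : ℝ} (hB : ∀ p, ‖b p‖ ≤ B0)
    (hs : ∀ t (z : E m), ¬ Rs κ α d r t z.ofLp → b (t, z) = 0) (hd : 0 < d)
    (x : E (m + 2)) : ‖gd α d r b x‖ ≤ B0 * (4 * |α|) := by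
  have hB0 : 0 ≤ B0 := (norm_nonneg _).trans (hB 0)
  unfold gd
  split_ifs with h
  · set t := α * ((x 0 / d) ^ 2 + ∑ i : Fin m, r i * (x i.succ.castSucc / d) ^ 2) with ht
    set z : E m := WithLp.toLp 2 fun i : Fin m => x i.succ.castSucc / d with hz
    by_cases hR : Rs κ α d r t z.ofLp
    · have h1 : rr α r t z.ofLp = (x 0 / d) ^ 2 := by
        unfold rr
        rw [ht, hz]
        field_simp
        ring
      have h2 : x 0 / d ≤ 2 := by
        have := hR.2.2.1
        rw [h1] at this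
        nlinarith [div_pos h.2 hd]
      have h3 : 0 < x 0 / d := div_pos h.2 hd
      have h4 : 0 < min (x (Fin.last (m + 1))) 1 := lt_min h.1 one_pos
      have h5 : min (x (Fin.last (m + 1))) 1 ≤ 1 := min_le_right _ _
      have hα' := abs_pos.2 hα
      rw [norm_mul, Complex.norm_real, Real.norm_of_nonneg (by positivity)]
      calc ‖b (t, z)‖ * (2 * |α| * (x 0 / d) * min (x (Fin.last (m + 1))) 1)
          ≤ B0 * (2 * |α| * 2 * 1) := by
            gcongr
            exact hB _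
        _ = _ := by ring
    · rw [hs t z hR, zero_mul, norm_zero]
      positivity
  · rw [norm_zero]
    positivity

theorem gd_L2 {κ α : ℝ} (hα : α ≠ 0) {r : Fin m → ℝ} {d : ℝ} (hd : 0 < d)
    {b : ℝ × E m → ℂ} (hb : Measurable b)
    (hs : ∀ t (z : E m), ¬ Rs κ α d r t z.ofLp → b (t, z) = 0) :
    ∫⁻ x : S (m + 2), ‖gd α d r b x‖ₑ ^ (2 : ℝ) ∂(sm (m + 2)) ≤
      ENNReal.ofReal (d ^ (m + 1) * (4 * |α|)) * ∫⁻ p, ‖b p‖ₑ ^ (2 : ℝ) := by
  have h1 : ∫⁻ x : S (m + 2), ‖gd α d r b x‖ₑ ^ (2 : ℝ) ∂(sm (m + 2)) =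
      ∫⁻ x : S (m + 2), (if 0 < (x : E (m + 2)) (Fin.last (m + 1)) ∧ 0 < (x : E (m + 2)) 0 then
        ‖gd α d r b x‖ₑ ^ (2 : ℝ) else 0) ∂(sm (m + 2)) := by
    refine lintegral_congr fun x => ?_
    split_ifs with h
    · rfl
    · unfold gd
      rw [if_neg h, enorm_zero, ENNReal.zero_rpow_of_pos (by norm_num)]
  rw [h1, lint_chart hα r hd (fun x => ‖gd α d r b x‖ₑ ^ (2 : ℝ))
    ((meas_gd α d r hb).enorm.pow_const _), ← lintegral_const_mul' _ _ ENNReal.ofReal_ne_top,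
    ← lintegral_indicator (meas_Dm α d r)]
  refine lintegral_mono fun p => ?_
  by_cases hp : p ∈ Dm α d r
  · rw [indicator_of_mem hp, gd_Ph hα hd r b hp]
    by_cases hb0 : b p = 0
    · rw [hb0, zero_mul, enorm_zero, ENNReal.zero_rpow_of_pos (by norm_num), mul_zero]
      exact zero_le
    · have hR : Rs κ α d r p.1 p.2.ofLp := by
        by_contra h
        exact hb0 (hs p.1 p.2 h)
      have hA := stn_AA_pos hp.1
      have hH : 0 < HH α d r p.1 p.2.ofLp := Real.sqrt_pos.2 hp.2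
      have hA2 : AA α r p.1 p.2.ofLp ≤ 2 := by
        unfold AA
        rw [Real.sqrt_le_left (by norm_num)]
        linarith [hR.2.2.1]
      have hH1 := stn_HH_le_one (d := d) hp.1.le
      have hα' := abs_pos.2 hα
      set a := AA α r p.1 p.2.ofLp with ha
      set H := HH α d r p.1 p.2.ofLp with hHH
      rw [enorm_mul, ENNReal.mul_rpow_of_nonneg _ _ (by norm_num : (0 : ℝ) ≤ 2),
        mul_comm (‖b p‖ₑ ^ (2 : ℝ)), ← mul_assoc]
      gcongr
      rw [← ofReal_norm, Complex.norm_real, Real.norm_of_nonneg (by positivity),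
        ENNReal.ofReal_rpow_of_nonneg (by positivity) (by norm_num),
        ← ENNReal.ofReal_mul (by positivity)]
      refine ENNReal.ofReal_le_ofReal ?_
      rw [Real.rpow_two]
      calc d ^ (m + 1) / (2 * |α| * a * H) * (2 * |α| * a * H) ^ 2
          = d ^ (m + 1) * (2 * |α| * a * H) := by field_simp
        _ ≤ d ^ (m + 1) * (2 * |α| * 2 * 1) := by gcongr
        _ = _ := by ring
  · rw [indicator_of_notMem hp]
    exact zero_le

/-- ROW STN: Stein–Tomas. -/
theorem stn {m : ℕ} {κ α : ℝ} {r : Fin m → ℝ} (hκ : 0 < κ) (hα : α ≠ 0)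
    {X : ℝ → ℝ × E m → E (m + 2)} {A : ℕ → ℝ} (hX : SF κ α r X A) {q : ℝ}
    (hq : 2 * ((m : ℝ) + 3) / (m + 1) < q) :
    ∃ C : ℝ, 0 ≤ C ∧ ∀ d, 0 < d → d ≤ 1 → ∀ (b : ℝ × E m → ℂ) (B0 : ℝ), Measurable b →
      (∀ p, ‖b p‖ ≤ B0) → (∀ t (z : E m), ¬ Rs κ α d r t z.ofLp → b (t, z) = 0) →
      ∫⁻ ξ, ‖Tb (X d) b ξ‖ₑ ^ q ≤
        ENNReal.ofReal (C * d ^ (-(((m : ℝ) + 1) * q / 2 - (m + 3)))) *
          (∫⁻ p, ‖b p‖ₑ ^ (2 : ℝ)) ^ (q / 2) := by
  obtain ⟨C, hC, hST⟩ := stein_tomas m q hq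
  have hq0 : 0 < q := lt_trans (by positivity) hq
  have hα' := abs_pos.2 hα
  refine ⟨(2 * π) ^ (m + 2) * C.toReal * (4 * |α|) ^ (q / 2), by positivity, ?_⟩
  intro d hd0 hd1 b B0 hb hB hs
  have hB0 : 0 ≤ B0 := (norm_nonneg _).trans (hB 0)
  set M : ℝ := (B0 + 1) * (4 * |α|) with hM
  have hM0 : 0 < M := by positivity
  set T := ∫⁻ p, ‖b p‖ₑ ^ (2 : ℝ) with hT
  have hgm := meas_gd α d r hb
  -- Stein–Tomas for the density on the sphere
  have h1 : ∫⁻ ξ, ‖extn (gd α d r b) ξ‖ₑ ^ q ≤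
      C * (∫⁻ x : S (m + 2), ‖gd α d r b x‖ₑ ^ (2 : ℝ) ∂(sm (m + 2))) ^ (q / 2) := by
    have h2 := hST (fun x => ((M⁻¹ : ℝ) : ℂ) * gd α d r b x) (hgm.const_mul _) (fun x => by
      rw [norm_mul, Complex.norm_real, Real.norm_of_nonneg (by positivity)]
      have h3 := gd_bdd (r := r) hα hB hs hd0 x
      calc M⁻¹ * ‖gd α d r b x‖ ≤ M⁻¹ * (B0 * (4 * |α|)) := by gcongr
        _ ≤ M⁻¹ * M := by
          gcongr
          rw [hM]
          nlinarith
        _ = 1 := inv_mul_cancel₀ hM0.ne'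
        _ ≤ 2 := by norm_num)
    have h4 : ∀ ξ, extn (fun x => ((M⁻¹ : ℝ) : ℂ) * gd α d r b x) ξ =
        ((M⁻¹ : ℝ) : ℂ) * extn (gd α d r b) ξ := by
      intro ξ
      unfold extn
      rw [← integral_const_mul]
      refine integral_congr_ae (Eventually.of_forall fun x => ?_)
      simp only
      ring
    simp_rw [h4, enorm_mul] at h2
    have h5 : ‖((M⁻¹ : ℝ) : ℂ)‖ₑ = ENNReal.ofReal M⁻¹ := by
      rw [← ofReal_norm, Complex.norm_real, Real.norm_of_nonneg (by positivity)]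
    simp_rw [h5, ENNReal.mul_rpow_of_nonneg _ _ hq0.le,
      ENNReal.mul_rpow_of_nonneg _ _ (by norm_num : (0 : ℝ) ≤ 2)] at h2
    have hc0 : ENNReal.ofReal M⁻¹ ≠ 0 := by
      rw [ne_eq, ENNReal.ofReal_eq_zero, not_le]
      positivity
    have hc1 : ENNReal.ofReal M⁻¹ ^ q ≠ 0 := by
      rw [ne_eq, ENNReal.rpow_eq_zero_iff]
      rintro (h | h)
      · exact hc0 h.1
      · linarith [h.2]
    have hc2 : ENNReal.ofReal M⁻¹ ^ q ≠ ⊤ :=
      ENNReal.rpow_ne_top_of_nonneg hq0.le ENNReal.ofReal_ne_top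
    rw [lintegral_const_mul' _ _ hc2, lintegral_const_mul' _ _
      (ENNReal.rpow_ne_top_of_nonneg (by norm_num) ENNReal.ofReal_ne_top),
      ENNReal.mul_rpow_of_nonneg _ _ (by positivity : (0 : ℝ) ≤ q / 2), ← ENNReal.rpow_mul,
      show (2 : ℝ) * (q / 2) = q by ring, mul_left_comm] at h2
    exact (ENNReal.mul_le_mul_iff_right hc1 hc2).1 h2
  -- the operators
  have h6 : ∀ ξ, ‖Tb (X d) b (sw d ξ)‖ₑ = ENNReal.ofReal (d ^ (-((m : ℝ) + 1))) *
      ‖extn (gd α d r b) ξ‖ₑ := by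
    intro ξ
    rw [← ofReal_norm, ← ofReal_norm, norm_extn_gd hα hX hκ hd0 hd1 hb hs ξ,
      ← ENNReal.ofReal_mul (by positivity)]
    congr 1
    rw [← mul_assoc, ← Real.rpow_natCast, ← Real.rpow_add hd0]
    push_cast
    rw [neg_add_cancel, Real.rpow_zero, one_mul]
  have hXc : Continuous (X d) := (hX d hd0.le hd1).1.continuous
  rw [lintegral_wd hd0 (fun ξ => ‖Tb (X d) b ξ‖ₑ ^ q)
    ((stn_measurable_Tb hXc hb).enorm.pow_const _)]
  simp_rw [h6, ENNReal.mul_rpow_of_nonneg _ _ hq0.le]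
  rw [lintegral_const_mul' _ _ (ENNReal.rpow_ne_top_of_nonneg hq0.le ENNReal.ofReal_ne_top)]
  calc ENNReal.ofReal ((2 * π) ^ (m + 2) * d ^ (m + 3)) *
        (ENNReal.ofReal (d ^ (-((m : ℝ) + 1))) ^ q * ∫⁻ ξ, ‖extn (gd α d r b) ξ‖ₑ ^ q)
      ≤ ENNReal.ofReal ((2 * π) ^ (m + 2) * d ^ (m + 3)) *
        (ENNReal.ofReal (d ^ (-((m : ℝ) + 1))) ^ q *
          (C * (ENNReal.ofReal (d ^ (m + 1) * (4 * |α|)) * T) ^ (q / 2))) := by
        gcongr
        refine h1.trans ?_
        gcongr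
        exact gd_L2 hα hd0 hb hs
    _ = (ENNReal.ofReal ((2 * π) ^ (m + 2) * d ^ (m + 3)) *
        (ENNReal.ofReal (d ^ (-((m : ℝ) + 1))) ^ q * (ENNReal.ofReal C.toReal *
          ENNReal.ofReal (d ^ (m + 1) * (4 * |α|)) ^ (q / 2)))) * T ^ (q / 2) := by
        rw [ENNReal.mul_rpow_of_nonneg _ _ (by positivity : (0 : ℝ) ≤ q / 2),
          ENNReal.ofReal_toReal hC]
        ring
    _ = _ := by
        congr 1
        rw [ENNReal.ofReal_rpow_of_nonneg (by positivity) hq0.le,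
          ENNReal.ofReal_rpow_of_nonneg (by positivity) (by positivity),
          ← ENNReal.ofReal_mul (by positivity), ← ENNReal.ofReal_mul (by positivity),
          ← ENNReal.ofReal_mul (by positivity)]
        congr 1
        rw [Real.mul_rpow (by positivity) (by positivity), ← Real.rpow_mul hd0.le]
        have e1 : (d : ℝ) ^ (m + 3) = d ^ ((m : ℝ) + 3) := by
          rw [← Real.rpow_natCast]
          push_cast
          rfl
        have e2 : ((d : ℝ) ^ (m + 1)) ^ (q / 2) = d ^ (((m : ℝ) + 1) * (q / 2)) := by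
          rw [← Real.rpow_natCast, ← Real.rpow_mul hd0.le]
          push_cast
          rfl
        have e3 : d ^ (-(((m : ℝ) + 1) * q / 2 - (m + 3))) = d ^ ((m : ℝ) + 3) *
            (d ^ (-((m : ℝ) + 1) * q) * d ^ (((m : ℝ) + 1) * (q / 2))) := by
          rw [← Real.rpow_add hd0, ← Real.rpow_add hd0]
          congr 1
          ring
        rw [e1, e2, e3]
        ring

end Pool.Agent.LQN
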