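import Pool.Agent.LQN.MOD1
import Pool.Agent.LQN.L2N
import Pool.Agent.LQN.MODA
import Pool.Agent.LQN.DYN
import Pool.Agent.LQN.STN

/-!
LEAFQ for all `n`: one dyadic annulus.
-/

set_option autoImplicit false

namespace Pool.Agent.LQN

open MeasureTheory Set Metric Pool.Agent.MP_6cbfb8_an Pool.Agent.LF Pool.Agent.GNP
open scoped RealInnerProductSpace ContDiff ENNReal NNReal

/-- `J` is at most a small power of `2 ^ J`. -/
theorem dyn_pow_card {δ : ℝ} (hδ : 0 < δ) (J : ℕ) : (J : ℝ) ≤ 2 / δ * ((2 : ℝ) ^ J) ^ δ := by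
  have h1 : ((2 : ℝ) ^ J) ^ δ = Real.exp (J * δ * Real.log 2) := by
    rw [← Real.rpow_natCast, ← Real.rpow_mul (by norm_num), Real.rpow_def_of_pos (by norm_num)]
    congr 1
    ring
  have h2 : 1 / 2 ≤ Real.log 2 := by
    have := Real.log_two_gt_d9
    linarith
  have h3 : (J : ℝ) * δ * Real.log 2 + 1 ≤ Real.exp (J * δ * Real.log 2) :=
    Real.add_one_le_exp _
  have h4 : (J : ℝ) * δ / 2 ≤ (J : ℝ) * δ * Real.log 2 := by
    have : 0 ≤ (J : ℝ) * δ := by positivity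
    nlinarith
  rw [h1, div_mul_eq_mul_div, le_div_iff₀ hδ]
  nlinarith

/-- The number of multi-indices. -/
theorem dyn_card_le {m : ℕ} {ε : ℝ} (hm : 0 < m) (hε : 0 < ε) : ∃ C : ℝ, 0 ≤ C ∧ ∀ (R : ℝ) (J : ℕ),
    1 ≤ R → (2 : ℝ) ^ J ≤ 2 * √R → ((jdx m J).card : ℝ) ≤ C * R ^ ε := by
  have hm0 : (0 : ℝ) < m := by exact_mod_cast hm
  set δ : ℝ := 2 * ε / m with hδ
  have hδ0 : 0 < δ := by positivity
  refine ⟨(2 / δ * 2 ^ δ) ^ m, by positivity, ?_⟩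
  intro R J hR hJ
  have hR0 : 0 < R := by linarith
  rw [card_jdx, Nat.cast_pow]
  have h1 : (J : ℝ) ≤ 2 / δ * 2 ^ δ * R ^ (δ / 2) := by
    refine (dyn_pow_card hδ0 J).trans ?_
    have h2 : ((2 : ℝ) ^ J) ^ δ ≤ (2 * √R) ^ δ := Real.rpow_le_rpow (by positivity) hJ hδ0.le
    have h3 : (2 * √R) ^ δ = 2 ^ δ * R ^ (δ / 2) := by
      rw [Real.mul_rpow (by norm_num) (Real.sqrt_nonneg R), Real.sqrt_eq_rpow,
        ← Real.rpow_mul hR0.le]
      congr 2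
      ring
    rw [h3] at h2
    calc 2 / δ * ((2 : ℝ) ^ J) ^ δ ≤ 2 / δ * (2 ^ δ * R ^ (δ / 2)) :=
          mul_le_mul_of_nonneg_left h2 (by positivity)
      _ = _ := by ring
  calc (J : ℝ) ^ m ≤ (2 / δ * 2 ^ δ * R ^ (δ / 2)) ^ m :=
        pow_le_pow_left₀ (Nat.cast_nonneg J) h1 m
    _ = (2 / δ * 2 ^ δ) ^ m * R ^ ε := by
        rw [mul_pow]
        congr 1
        rw [← Real.rpow_natCast, ← Real.rpow_mul hR0.le]
        congr 1
        rw [hδ]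
        field_simp

/-- The smallest size of a coordinate. -/
noncomputable def nmin {m : ℕ} (j : Fin m → ℕ) : ℝ := nuj (Finset.univ.sup j)

theorem nuj_anti {i j : ℕ} (h : i ≤ j) : nuj j ≤ nuj i := by
  unfold nuj
  exact div_le_div_of_nonneg_left (by norm_num) (by positivity)
    (pow_le_pow_right₀ (by norm_num) h)

theorem nmin_le {m : ℕ} (j : Fin m → ℕ) (i : Fin m) : nmin j ≤ nuj (j i) :=
  nuj_anti (Finset.le_sup (Finset.mem_univ i))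

theorem prod_le_nmin {m : ℕ} (hm : 0 < m) (j : Fin m → ℕ) : ∏ i, nuj (j i) ≤ 4 ^ m * nmin j := by
  have : Nonempty (Fin m) := ⟨⟨0, hm⟩⟩
  obtain ⟨i0, -, hi0⟩ := Finset.exists_mem_eq_sup Finset.univ Finset.univ_nonempty j
  rw [← Finset.mul_prod_erase Finset.univ _ (Finset.mem_univ i0)]
  have h1 : nuj (j i0) = nmin j := by
    unfold nmin
    rw [hi0]
  have h2 : ∏ i ∈ Finset.univ.erase i0, nuj (j i) ≤ 4 ^ m := by
    calc ∏ i ∈ Finset.univ.erase i0, nuj (j i) ≤ ∏ _i ∈ (Finset.univ : Finset (Fin m)).erase i0, (4 : ℝ) :=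
          Finset.prod_le_prod (fun i _ => (nuj_pos _).le) fun i _ => nuj_le _
      _ = 4 ^ (((Finset.univ : Finset (Fin m)).erase i0).card) := by rw [Finset.prod_const]
      _ ≤ 4 ^ m := by
          refine pow_le_pow_right₀ (by norm_num) ?_
          exact (Finset.card_le_univ _).trans (by rw [Fintype.card_fin])
  rw [h1, mul_comm]
  exact mul_le_mul_of_nonneg_right h2 (nuj_pos _).le

/-- ROW MOD2 over the text of MOD1. -/
theorem mod2_of {m : ℕ} (hm : 2 ≤ m) {κ α : ℝ} {r : Fin m → ℝ} (hα : α ≠ 0) (hκ : 0 < κ)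
    {X : ℝ → ℝ × E m → E (m + 2)} {A : ℕ → ℝ} (hX : SF κ α r X A)
    (hmod1 : ∀ (B : ℕ → ℝ) (ε : ℝ), 0 < ε → ∃ C : ℝ, 0 ≤ C ∧ ∀ d, 0 ≤ d → d ≤ 1 →
      ∀ (ν : Fin m → ℝ) (ν0 : ℝ), 0 < ν0 → (∀ i, ν0 ≤ ν i) → ∀ b : ℝ × E m → ℂ, Measurable b →
      (∀ t, ContDiff ℝ ∞ fun z => b (t, z)) →
      (∀ t k u, ‖iteratedFDeriv ℝ k (fun u => b (t, dl ν u)) u‖ ≤ B k) →
      (∀ t (z : E m), ¬ (Rs κ α d r t z.ofLp ∧ ∀ i, ν i / 4 ≤ |z i| ∧ |z i| ≤ ν i) →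
        b (t, z) = 0) →
      ∀ R : ℝ, 1 ≤ R → 16 ≤ R * ν0 ^ 2 →
        ∫⁻ ξ in {ξ : E (m + 2) | R ≤ ‖ξ‖ ∧ ‖ξ‖ ≤ 2 * R}, ‖Tb (X d) b ξ‖ₑ ^ (4 : ℝ) ≤
          ENNReal.ofReal (C * R ^ (-(m : ℝ) + ε) / ν0 ^ 2))
    {p : ℝ} (hp : 2 * ((m : ℝ) + 2) / (m + 1) < p) (hp' : p < 2 + 8 / (2 * (m : ℝ) + 1)) :
    ∃ η : ℝ, 0 < η ∧ ∀ B : ℕ → ℝ, ∃ C : ℝ, ∀ d, 0 < d → d ≤ 1 → ∀ b : ℝ × E m → ℂ,
      DC κ α d r B b → ∀ R : ℝ, 1 ≤ R →
        ∫⁻ ξ in {ξ : E (m + 2) | R ≤ ‖ξ‖ ∧ ‖ξ‖ ≤ 2 * R}, ‖Tb (X d) b ξ‖ₑ ^ p ≤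
          ENNReal.ofReal (C * d⁻¹ * R ^ (-η)) := by
  have hmr : (2 : ℝ) ≤ m := by exact_mod_cast hm
  have hm0 : (0 : ℝ) < m := by linarith
  have hmp : 0 < m := by omega
  set q : ℝ := 2 + 8 / (2 * m + 1) with hq
  have hq1 : 2 * ((m : ℝ) + 3) / (m + 1) < q := by
    rw [hq, div_lt_iff₀ (by linarith), add_mul, div_mul_eq_mul_div]
    have : 4 < 8 * ((m : ℝ) + 1) / (2 * m + 1) := by
      rw [lt_div_iff₀ (by linarith)]
      linarith
    linarith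
  have hq2 : q < 2 + 4 / m := by
    rw [hq]
    have : 8 / (2 * (m : ℝ) + 1) < 4 / m := by
      rw [div_lt_div_iff₀ (by linarith) hm0]
      linarith
    linarith
  have hq0 : 0 < q := by rw [hq]; positivity
  have hkap : ((m : ℝ) + 1) * q / 2 - (m + 3) ≤ 1 := by
    have h1 : ((m : ℝ) + 1) * q / 2 - (m + 3) = 2 / (2 * m + 1) := by
      rw [hq]
      field_simp
      ring
    rw [h1, div_le_one (by linarith)]
    linarith
  obtain ⟨η, ε, hη, hε, hann⟩ := annulusN (m + 2) m hm hp hp' hq2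
  refine ⟨η, hη, ?_⟩
  intro B
  obtain ⟨B', hB'⟩ := bN_bd m B
  obtain ⟨C4, hC40, hC4⟩ := hmod1 B' ε hε
  obtain ⟨C2, hC20, hC2⟩ := l2n hκ.le hα hX
  obtain ⟨C2', hC20', hC2'⟩ := l2n_int hκ.le hα hX
  obtain ⟨CS, -, hCS⟩ := stn hκ hα hX hq1
  obtain ⟨CN, hCN0, hCN⟩ := dyn_card_le hmp hε
  set T : ℝ := |α| * (4 + 4 * ∑ i, |r i|) with hT
  have hT0 : 0 ≤ T := by
    have : 0 ≤ ∑ i, |r i| := Finset.sum_nonneg fun i _ => abs_nonneg _
    rw [hT]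
    positivity
  set B0 : ℝ := |B 0| with hB0
  have hB00 : 0 ≤ B0 := abs_nonneg _
  set V : ℝ := B0 ^ 2 * (2 * T) with hV
  have hV0 : 0 ≤ V := by positivity
  set C0 : ℝ := 4 + 4 ^ m + CN + C2 * B0 ^ 2 + C4 + C2' * V + |CS| * V ^ (q / 2) +
    m * 4 ^ m * 4 with hC0
  have e1 : (0 : ℝ) ≤ 4 ^ m := by positivity
  have e2 : 0 ≤ C2 * B0 ^ 2 := by positivity
  have e3 : 0 ≤ C2' * V := by positivity
  have e4 : 0 ≤ |CS| * V ^ (q / 2) := by positivity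
  have e5 : (0 : ℝ) ≤ m * 4 ^ m * 4 := by positivity
  obtain ⟨C1, hC1⟩ := hann C0
  refine ⟨C1, ?_⟩
  intro d hd0 hd1 b hb R hR
  obtain ⟨hbm, hbs, hbB, hsupp⟩ := hb
  have hXc : Continuous (X d) := (hX d hd0.le hd1).1.continuous
  have hR0 : 0 < R := by linarith
  have hRs : 1 ≤ √R := by rwa [Real.one_le_sqrt]
  have hRs0 : 0 < √R := by linarith
  have hRε : 1 ≤ R ^ ε := Real.one_le_rpow hR hε.le
  obtain ⟨n, hn1, hn2⟩ := exists_nat_pow_near (y := (2 : ℝ)) hRs (by norm_num)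
  have hJ1 : (2 : ℝ) ^ (n + 1) ≤ 2 * √R := by
    rw [pow_succ]
    linarith
  have hJ2 : nuj (n + 1) ≤ 4 * R ^ (-(1 / 2) : ℝ) := by
    unfold nuj
    rw [Real.rpow_neg hR0.le, ← Real.sqrt_eq_rpow, div_eq_mul_inv]
    gcongr
  have hs : ∀ t (z : E m), b (t, z) ≠ 0 → Rs κ α d r t z.ofLp := by
    intro t z h
    by_contra h1
    exact h (hsupp t z h1)
  have hsT : ∀ p : ℝ × E m, b p ≠ 0 → |p.1| ≤ T := fun p hp => Rs_t hα hκ.le (hs p.1 p.2 hp)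
  have hs2 : ∀ p : ℝ × E m, b p ≠ 0 → ∀ i, |p.2 i| ≤ 2 := fun p hp => (hs p.1 p.2 hp).1
  have hb0 : ∀ p, ‖b p‖ ≤ B0 := by
    intro p
    have := hbB p.1 0 p.2
    rw [norm_iteratedFDeriv_zero] at this
    exact this.trans (le_abs_self _)
  have hsub : {ξ : E (m + 2) | R ≤ ‖ξ‖ ∧ ‖ξ‖ ≤ 2 * R} ⊆ {ξ : E (m + 2) | ‖ξ‖ ≤ 2 * R} :=
    fun ξ h => h.2
  have hjn : ∀ j ∈ jdx m (n + 1), nmin j ≤ 4 ∧ 16 ≤ R * nmin j ^ 2 := by
    intro j hj
    refine ⟨nuj_le _, ?_⟩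
    have h1 : Finset.univ.sup j ≤ n := Finset.sup_le fun i _ => Nat.lt_succ_iff.1 (mem_jdx.1 hj i)
    have h2 : (2 : ℝ) ^ Finset.univ.sup j ≤ √R :=
      (pow_le_pow_right₀ (by norm_num) h1).trans hn1
    have h3 : ((2 : ℝ) ^ Finset.univ.sup j) ^ 2 ≤ R := by
      calc ((2 : ℝ) ^ Finset.univ.sup j) ^ 2 ≤ √R ^ 2 := by gcongr
        _ = R := Real.sq_sqrt hR0.le
    unfold nmin nuj
    rw [div_pow, ← mul_div_assoc, le_div_iff₀ (by positivity)]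
    nlinarith
  set Q0 : ℝ := m * (4 ^ m * nuj (n + 1)) with hQ0
  have hQ00 : 0 ≤ Q0 := by
    have := (nuj_pos (n + 1)).le
    positivity
  have hbL2 : ∫⁻ p, ‖bL b (n + 1) p‖ₑ ^ (2 : ℝ) ≤ ENNReal.ofReal (V * Q0) := by
    refine (bL_sq hT0 hB00 hb0 hsT hs2 (n + 1)).trans_eq ?_
    congr 1
    rw [hV, hQ0]
    ring
  have hbLs : ∀ t (z : E m), ¬ Rs κ α d r t z.ofLp → bL b (n + 1) (t, z) = 0 := by
    intro t z h
    by_contra h1
    exact h (hs t z (bL_supp hs2 h1).1)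
  have hd1' : (1 : ℝ) ≤ d⁻¹ := (one_le_inv₀ hd0).2 hd1
  have hfin := hC1 R d⁻¹ hR hd1' (Tb (X d) b) (Fin m → ℕ) Unit (jdx m (n + 1)) Finset.univ
    (fun j => Tb (X d) (bN b j)) (fun _ => Tb (X d) (bL b (n + 1)))
    (fun j => ∏ i, nuj (j i)) nmin (fun _ => Q0)
    (fun j _ => LQ.Tb_measurable hXc (bN_int hbm hb0 hsT hs2 j))
    (fun _ _ => LQ.Tb_measurable hXc (bL_int hbm hb0 hsT hs2 (n + 1)))
    (fun ξ _ _ => by
      rw [Tb_dyn hXc hbm hb0 hsT hs2 (n + 1) ξ, Finset.univ_unique, Finset.sum_singleton, add_comm])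
    ((hCN R (n + 1) hR hJ1).trans (mul_le_mul_of_nonneg_right (by rw [hC0]; linarith)
      (by positivity)))
    (by
      rw [Finset.card_univ, Fintype.card_unit, Nat.cast_one]
      have h1 : 1 ≤ C0 := by rw [hC0]; linarith
      nlinarith)
    (fun j hj => by
      obtain ⟨h1, h2⟩ := hjn j hj
      refine ⟨nuj_pos _, h1.trans (by rw [hC0]; linarith), by linarith,
        Finset.prod_nonneg fun i _ => (nuj_pos _).le, ?_⟩
      refine (prod_le_nmin hmp j).trans (mul_le_mul_of_nonneg_right ?_ (nuj_pos _).le)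
      rw [hC0]
      linarith)
    (fun j hj => by
      refine (lintegral_mono_set hsub).trans ?_
      refine (hC2 d hd0.le hd1 (bN b j) B0 (fun i => nuj (j i)) hB00 (fun i => (nuj_pos _).le)
        (bN_meas hbm j) (fun p => (bN_le b j p).trans (hb0 p)) ?_ R hR).trans ?_
      · intro t z h
        by_contra h1
        obtain ⟨h2, h3⟩ := bN_supp h1
        exact h ⟨hs t z h2, fun i => (h3 i).2⟩
      · refine ENNReal.ofReal_le_ofReal ?_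
        have h1 : 0 ≤ R * ∏ i, nuj (j i) :=
          mul_nonneg hR0.le (Finset.prod_nonneg fun i _ => (nuj_pos _).le)
        have h2 : C2 * B0 ^ 2 ≤ C0 := by rw [hC0]; linarith
        calc C2 * B0 ^ 2 * R * ∏ i, nuj (j i) = C2 * B0 ^ 2 * (R * ∏ i, nuj (j i)) := by ring
          _ ≤ C0 * (R * ∏ i, nuj (j i)) := mul_le_mul_of_nonneg_right h2 h1)
    (fun j hj => by
      obtain ⟨h1, h2⟩ := hjn j hj
      refine (hC4 d hd0.le hd1 (fun i => nuj (j i)) (nmin j) (nuj_pos _) (nmin_le j) (bN b j)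
        (bN_meas hbm j) (bN_smooth hbs j) (fun t k u => hB' b j t (hbs t) (fun k z => hbB t k z) k u)
        ?_ R hR h2).trans ?_
      · intro t z h
        by_contra h1
        obtain ⟨h2, h3⟩ := bN_supp h1
        exact h ⟨hs t z h2, h3⟩
      · refine ENNReal.ofReal_le_ofReal ?_
        have h3 : 0 ≤ R ^ (-(m : ℝ) + ε) / nmin j ^ 2 := by positivity
        have h4 : C4 ≤ C0 := by rw [hC0]; linarith
        calc C4 * R ^ (-(m : ℝ) + ε) / nmin j ^ 2 = C4 * (R ^ (-(m : ℝ) + ε) / nmin j ^ 2) := by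
              ring
          _ ≤ C0 * (R ^ (-(m : ℝ) + ε) / nmin j ^ 2) := mul_le_mul_of_nonneg_right h4 h3)
    (fun _ _ => by
      refine ⟨hQ00, ?_⟩
      have h1 : 0 ≤ R ^ (-(1 / 2) : ℝ) := by positivity
      have h2 : (m : ℝ) * 4 ^ m * 4 ≤ C0 := by rw [hC0]; linarith
      calc Q0 = m * 4 ^ m * nuj (n + 1) := by rw [hQ0]; ring
        _ ≤ m * 4 ^ m * (4 * R ^ (-(1 / 2) : ℝ)) := mul_le_mul_of_nonneg_left hJ2 (by positivity)
        _ = m * 4 ^ m * 4 * R ^ (-(1 / 2) : ℝ) := by ring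
        _ ≤ C0 * R ^ (-(1 / 2) : ℝ) := mul_le_mul_of_nonneg_right h2 h1)
    (fun _ _ => by
      refine (lintegral_mono_set hsub).trans ?_
      refine (hC2' d hd0.le hd1 (bL b (n + 1)) (bL_meas hbm _) (bL_int hbm hb0 hsT hs2 _) hbLs R
        hR).trans ?_
      have h1 : ∫⁻ p, ‖bL b (n + 1) p‖ₑ ^ 2 ≤ ENNReal.ofReal (V * Q0) := by
        refine le_trans (le_of_eq ?_) hbL2
        refine lintegral_congr fun p => ?_
        exact (ENNReal.rpow_natCast _ 2).symm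
      refine (mul_le_mul_right h1 _).trans ?_
      rw [← ENNReal.ofReal_mul (by positivity)]
      refine ENNReal.ofReal_le_ofReal ?_
      have h2 : C2' * V ≤ C0 := by rw [hC0]; linarith
      calc C2' * R * (V * Q0) = C2' * V * (R * Q0) := by ring
        _ ≤ C0 * (R * Q0) := mul_le_mul_of_nonneg_right h2 (by positivity))
    (fun _ _ => by
      refine (setLIntegral_le_lintegral _ _).trans ?_
      refine (hCS d hd0 hd1 (bL b (n + 1)) B0 (bL_meas hbm _)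
        (fun p => (bL_le hs2 _ p).trans (hb0 p)) hbLs).trans ?_
      have h1 : (∫⁻ p, ‖bL b (n + 1) p‖ₑ ^ (2 : ℝ)) ^ (q / 2) ≤
          ENNReal.ofReal ((V * Q0) ^ (q / 2)) := by
        refine (ENNReal.rpow_le_rpow hbL2 (by positivity)).trans_eq ?_
        rw [ENNReal.ofReal_rpow_of_nonneg (by positivity) (by positivity)]
      refine (mul_le_mul_right h1 _).trans ?_
      have h2 : CS * d ^ (-(((m : ℝ) + 1) * q / 2 - (m + 3))) ≤ |CS| * d⁻¹ := by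
        have h3 : d ^ (-(((m : ℝ) + 1) * q / 2 - (m + 3))) ≤ d⁻¹ := by
          rw [← Real.rpow_neg_one]
          exact Real.rpow_le_rpow_of_exponent_ge hd0 hd1 (by linarith)
        exact mul_le_mul (le_abs_self _) h3 (by positivity) (abs_nonneg _)
      refine (mul_le_mul_left (ENNReal.ofReal_le_ofReal h2) _).trans ?_
      rw [← ENNReal.ofReal_mul (by positivity)]
      refine ENNReal.ofReal_le_ofReal ?_
      rw [Real.mul_rpow hV0 hQ00]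
      have h4 : |CS| * V ^ (q / 2) ≤ C0 := by rw [hC0]; linarith
      calc |CS| * d⁻¹ * (V ^ (q / 2) * Q0 ^ (q / 2)) =
            |CS| * V ^ (q / 2) * (d⁻¹ * Q0 ^ (q / 2)) := by ring
        _ ≤ C0 * (d⁻¹ * Q0 ^ (q / 2)) := mul_le_mul_of_nonneg_right h4 (by positivity))
  exact hfin

end Pool.Agent.LQN
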