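import Pool.Agent.LQN.MODEL0
import Pool.Agent.LQN.MOD2

/-!
LEAFQ for every dimension: the model theorem, with tails.
-/

set_option autoImplicit false

namespace Pool.Agent.LQN

open MeasureTheory Set Metric Pool.Agent.MP_6cbfb8_an Pool.Agent.LF
open scoped RealInnerProductSpace ContDiff ENNReal

variable {m : ℕ}

/-- ROW MODEL, with tails. -/
theorem model (hm : 2 ≤ m) {κ α : ℝ} {r : Fin m → ℝ} (hκ : 0 < κ) (hκ1 : κ ≤ 1) (h : Hyp α r)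
    {X : ℝ → ℝ × E m → E (m + 2)} {A : ℕ → ℝ} (hX : SF κ α r X A) {p : ℝ}
    (hp : 2 * ((m : ℝ) + 2) / (m + 1) < p) :
    ∃ η : ℝ, 0 < η ∧ ∀ B : ℕ → ℝ, ∃ C : ℝ, ∀ d, 0 < d → d ≤ 1 → ∀ b : ℝ × E m → ℂ,
      DC κ α d r B b →
      (∫⁻ ξ, ‖Tb (X d) b ξ‖ₑ ^ p ≤ ENNReal.ofReal (C * d⁻¹)) ∧ ∀ R : ℝ, 1 ≤ R →
        ∫⁻ ξ in {ξ : E (m + 2) | R ≤ ‖ξ‖}, ‖Tb (X d) b ξ‖ₑ ^ p ≤
          ENNReal.ofReal (C * d⁻¹ * R ^ (-η)) :=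
  model_of h.α0 hκ hX (fun _ h1 h2 => mod2 hm hκ hκ1 h hX h1 h2) hp

end Pool.Agent.LQN
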