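import Pool.Agent.LQN.Df2
import Pool.Agent.LF.CORE0

/-!
LEAFQ for every dimension: from the dyadic annuli to the model theorem, with tails.
-/

set_option autoImplicit false

namespace Pool.Agent.LQN

open MeasureTheory Set Metric Pool.Agent.MP_6cbfb8_an Pool.Agent.LF
open scoped RealInnerProductSpace ContDiff ENNReal NNReal

theorem pow_le_sup {x b : ℝ≥0∞} (h : x ≤ b) {p q : ℝ} (hq : 0 ≤ q) (hqp : q ≤ p) :
    x ^ p ≤ b ^ (p - q) * x ^ q := by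
  have e : p = (p - q) + q := by ring
  calc x ^ p = x ^ (p - q) * x ^ q := by
        rw [← ENNReal.rpow_add_of_nonneg _ _ (by linarith) hq, ← e]
    _ ≤ b ^ (p - q) * x ^ q :=
        mul_le_mul_left (ENNReal.rpow_le_rpow h (by linarith)) _

/-- From the `q`-th moments on the annuli to the `L^p` norm and its tails, linear in `D`. -/
theorem annuliD (n : ℕ) {p q : ℝ} (hq0 : 0 < q) (hqp : q ≤ p) {γ : ℝ} (hγ : 0 < γ)
    (C1 B : ℝ) : ∃ C : ℝ, 0 ≤ C ∧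
      ∀ (F : EuclideanSpace ℝ (Fin n) → ℂ) (D : ℝ), 1 ≤ D → Measurable F → (∀ ξ, ‖F ξ‖ ≤ B) →
        (∀ R : ℝ, 1 ≤ R → ∫⁻ ξ in {ξ | R ≤ ‖ξ‖ ∧ ‖ξ‖ ≤ 2 * R}, ‖F ξ‖ₑ ^ q ≤
          ENNReal.ofReal (C1 * D * R ^ (-γ))) →
        (∫⁻ ξ, ‖F ξ‖ₑ ^ p ≤ ENNReal.ofReal (C * D)) ∧
        ∀ R : ℝ, 1 ≤ R → ∫⁻ ξ in {ξ | R ≤ ‖ξ‖}, ‖F ξ‖ₑ ^ p ≤
          ENNReal.ofReal (C * D * R ^ (-γ)) := by
  set r : ℝ := (2 : ℝ) ^ (-γ) with hr
  have hr0 : 0 < r := by rw [hr]; positivity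
  have hr1 : r < 1 := by
    rw [hr]
    exact Real.rpow_lt_one_of_one_lt_of_neg (by norm_num) (by linarith)
  have h1r : 0 < 1 - r := by linarith
  set K : ℝ := |B| ^ (p - q) * |C1| * (1 - r)⁻¹ with hK
  have hK0 : 0 ≤ K := by positivity
  set V : ℝ := |B| ^ p * volume.real (closedBall (0 : EuclideanSpace ℝ (Fin n)) 1) with hV
  have hV0 : 0 ≤ V := by positivity
  refine ⟨V + K, by positivity, ?_⟩
  intro F D hD hF hFB hR
  have hD0 : 0 < D := by linarith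
  set b : ℝ≥0∞ := ENNReal.ofReal |B| with hb
  have hFb : ∀ ξ, ‖F ξ‖ₑ ≤ b := by
    intro ξ
    rw [hb, ← ofReal_norm]
    exact ENNReal.ofReal_le_ofReal ((hFB ξ).trans (le_abs_self B))
  have htail : ∀ R : ℝ, 1 ≤ R → ∫⁻ ξ in {ξ | R ≤ ‖ξ‖}, ‖F ξ‖ₑ ^ p ≤
      ENNReal.ofReal (K * D * R ^ (-γ)) := by
    intro R hR1
    have hR0 : 0 < R := by linarith
    set A : ℕ → Set (EuclideanSpace ℝ (Fin n)) := fun k =>
      {ξ | 2 ^ k * R ≤ ‖ξ‖ ∧ ‖ξ‖ ≤ 2 * (2 ^ k * R)} with hA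
    have hcover : {ξ : EuclideanSpace ℝ (Fin n) | R ≤ ‖ξ‖} ⊆ ⋃ k, A k := by
      intro ξ hξ
      have h1 : (1 : ℝ) ≤ ‖ξ‖ / R := by
        rw [le_div_iff₀ hR0, one_mul]
        exact hξ
      obtain ⟨k, hk1, hk2⟩ := exists_nat_pow_near (y := (2 : ℝ)) h1 (by norm_num)
      rw [mem_iUnion]
      refine ⟨k, ?_, ?_⟩
      · rwa [le_div_iff₀ hR0] at hk1
      · rw [div_lt_iff₀ hR0] at hk2
        calc ‖ξ‖ ≤ 2 ^ (k + 1) * R := hk2.le
          _ = 2 * (2 ^ k * R) := by ring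
    have hA4 : ∀ k, ∫⁻ ξ in A k, ‖F ξ‖ₑ ^ p ≤
        ENNReal.ofReal (|B| ^ (p - q) * |C1| * D * R ^ (-γ)) * ENNReal.ofReal r ^ k := by
      intro k
      have h1 : ∫⁻ ξ in A k, ‖F ξ‖ₑ ^ p ≤ b ^ (p - q) * ∫⁻ ξ in A k, ‖F ξ‖ₑ ^ q := by
        rw [← lintegral_const_mul _ (hF.enorm.pow_const q)]
        exact lintegral_mono fun ξ => pow_le_sup (hFb ξ) hq0.le hqp
      have h2k : (1 : ℝ) ≤ 2 ^ k := one_le_pow₀ (by norm_num)
      have h3 := hR (2 ^ k * R) (by nlinarith)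
      refine h1.trans ((mul_le_mul_right h3 _).trans ?_)
      rw [hb, ENNReal.ofReal_rpow_of_nonneg (abs_nonneg _) (by linarith),
        ← ENNReal.ofReal_mul (by positivity), ← ENNReal.ofReal_pow hr0.le,
        ← ENNReal.ofReal_mul (by positivity)]
      refine ENNReal.ofReal_le_ofReal ?_
      have e : (2 ^ k * R) ^ (-γ) = r ^ k * R ^ (-γ) := by
        rw [Real.mul_rpow (by positivity) hR0.le]
        congr 1
        rw [hr, ← Real.rpow_natCast, ← Real.rpow_natCast, ← Real.rpow_mul (by norm_num),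
          ← Real.rpow_mul (by norm_num), mul_comm]
      rw [e]
      calc |B| ^ (p - q) * (C1 * D * (r ^ k * R ^ (-γ)))
          ≤ |B| ^ (p - q) * (|C1| * D * (r ^ k * R ^ (-γ))) := by
            gcongr
            exact le_abs_self C1
        _ = |B| ^ (p - q) * |C1| * D * R ^ (-γ) * r ^ k := by ring
    calc ∫⁻ ξ in {ξ | R ≤ ‖ξ‖}, ‖F ξ‖ₑ ^ p
        ≤ ∫⁻ ξ in ⋃ k, A k, ‖F ξ‖ₑ ^ p := lintegral_mono_set hcover
      _ ≤ ∑' k, ∫⁻ ξ in A k, ‖F ξ‖ₑ ^ p := lintegral_iUnion_le _ _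
      _ ≤ ∑' k, ENNReal.ofReal (|B| ^ (p - q) * |C1| * D * R ^ (-γ)) * ENNReal.ofReal r ^ k :=
          ENNReal.tsum_le_tsum hA4
      _ = ENNReal.ofReal (|B| ^ (p - q) * |C1| * D * R ^ (-γ)) * (1 - ENNReal.ofReal r)⁻¹ := by
          rw [ENNReal.tsum_mul_left, ENNReal.tsum_geometric]
      _ = ENNReal.ofReal (K * D * R ^ (-γ)) := by
          rw [← ENNReal.ofReal_one, ← ENNReal.ofReal_sub 1 hr0.le,
            ← ENNReal.ofReal_inv_of_pos h1r, ← ENNReal.ofReal_mul (by positivity), hK]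
          congr 1
          ring
  refine ⟨?_, fun R hR1 => (htail R hR1).trans (ENNReal.ofReal_le_ofReal ?_)⟩
  · have hcov : (univ : Set (EuclideanSpace ℝ (Fin n))) ⊆ closedBall 0 1 ∪ {ξ | 1 ≤ ‖ξ‖} := by
      intro ξ _
      rcases le_total ‖ξ‖ 1 with h | h
      · left
        simpa using h
      · exact Or.inr h
    have h1 := htail 1 le_rfl
    rw [Real.one_rpow, mul_one] at h1
    calc ∫⁻ ξ, ‖F ξ‖ₑ ^ p = ∫⁻ ξ in univ, ‖F ξ‖ₑ ^ p := by rw [setLIntegral_univ]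
      _ ≤ ∫⁻ ξ in closedBall 0 1 ∪ {ξ | 1 ≤ ‖ξ‖}, ‖F ξ‖ₑ ^ p := lintegral_mono_set hcov
      _ ≤ (∫⁻ ξ in closedBall 0 1, ‖F ξ‖ₑ ^ p) + ∫⁻ ξ in {ξ | 1 ≤ ‖ξ‖}, ‖F ξ‖ₑ ^ p :=
          lintegral_union_le _ _ _
      _ ≤ ENNReal.ofReal (V * D) + ENNReal.ofReal (K * D) := by
          refine add_le_add ?_ h1
          calc ∫⁻ ξ in closedBall 0 1, ‖F ξ‖ₑ ^ p
              ≤ ∫⁻ _ in closedBall (0 : EuclideanSpace ℝ (Fin n)) 1, b ^ p :=
                lintegral_mono fun ξ => ENNReal.rpow_le_rpow (hFb ξ) (by linarith)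
            _ = ENNReal.ofReal V := by
                rw [setLIntegral_const, hb,
                  ENNReal.ofReal_rpow_of_nonneg (abs_nonneg _) (by linarith), hV,
                  ENNReal.ofReal_mul (by positivity), ofReal_measureReal measure_closedBall_lt_top.ne]
            _ ≤ ENNReal.ofReal (V * D) := ENNReal.ofReal_le_ofReal (by nlinarith)
      _ = ENNReal.ofReal ((V + K) * D) := by
          rw [← ENNReal.ofReal_add (by positivity) (by positivity)]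
          congr 1
          ring
  · have : 0 ≤ R ^ (-γ) := Real.rpow_nonneg (by linarith) _
    refine mul_le_mul_of_nonneg_right ?_ this
    exact mul_le_mul_of_nonneg_right (by linarith) hD0.le

variable {m : ℕ}

/-- The size of the region. -/
theorem Rs_tm {κ α d : ℝ} {r : Fin m → ℝ} {t : ℝ} {y : Fin m → ℝ} (hα : α ≠ 0) (hκ : 0 ≤ κ)
    (h : Rs κ α d r t y) : |t| ≤ |α| * (4 + 4 * ∑ i, |r i|) := by
  obtain ⟨h1, h2, h3, -⟩ := h
  have e : t = α * (rr α r t y + ∑ i, r i * y i ^ 2) := by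
    unfold rr
    field_simp
    ring
  have h4 : |rr α r t y + ∑ i, r i * y i ^ 2| ≤ 4 + 4 * ∑ i, |r i| := by
    refine (abs_add_le _ _).trans (add_le_add ?_ ?_)
    · rw [abs_of_nonneg (by linarith)]
      exact h3
    · refine (Finset.abs_sum_le_sum_abs _ _).trans ?_
      rw [Finset.mul_sum]
      refine Finset.sum_le_sum fun i _ => ?_
      rw [abs_mul, abs_of_nonneg (sq_nonneg (y i)), mul_comm]
      refine mul_le_mul_of_nonneg_right ?_ (abs_nonneg _)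
      have := abs_le.1 (h1 i)
      nlinarith
  calc |t| = |α| * |rr α r t y + ∑ i, r i * y i ^ 2| := by rw [← abs_mul, ← e]
    _ ≤ _ := mul_le_mul_of_nonneg_left h4 (abs_nonneg _)

/-- The norm of a vector with small coordinates. -/
theorem norm_le_coord {z : E m} {c : ℝ} (h : ∀ i, |z i| ≤ c) : ‖z‖ ≤ m * c := by
  have h1 : ‖z‖ ≤ ∑ i, |z i| := by
    rw [EuclideanSpace.norm_eq]
    refine Real.sqrt_le_iff.2 ⟨Finset.sum_nonneg fun i _ => abs_nonneg _, ?_⟩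
    simp only [Real.norm_eq_abs]
    exact Finset.sum_sq_le_sq_sum_of_nonneg fun i _ => abs_nonneg _
  refine h1.trans ((Finset.sum_le_card_nsmul _ _ c fun i _ => h i).trans (le_of_eq ?_))
  simp

/-- The mass of a bounded density with bounded support. -/
theorem mass {T B0 c : ℝ} (b : ℝ × E m → ℂ) (hb : Measurable b)
    (hB : ∀ p, ‖b p‖ ≤ B0) (hs : ∀ t (z : E m), b (t, z) ≠ 0 → |t| ≤ T ∧ ∀ i, |z i| ≤ c) :
    Integrable b ∧ ∫ p, ‖b p‖ ≤
      B0 * volume.real (Icc (-T) T ×ˢ closedBall (0 : E m) (m * c)) := by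
  set S : Set (ℝ × E m) := Icc (-T) T ×ˢ closedBall (0 : E m) (m * c) with hS
  have hSm : MeasurableSet S := measurableSet_Icc.prod measurableSet_closedBall
  have hv : volume S ≠ ⊤ := by
    rw [hS, Measure.volume_eq_prod, Measure.prod_prod]
    exact ENNReal.mul_ne_top (by rw [Real.volume_Icc]; exact ENNReal.ofReal_ne_top)
      (isCompact_closedBall (0 : E m) (m * c)).measure_lt_top.ne
  have h1 : S.indicator b = b := by
    funext p
    by_cases hp : p ∈ S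
    · rw [indicator_of_mem hp]
    · rw [indicator_of_notMem hp]
      by_contra h
      obtain ⟨h3, h4⟩ := hs p.1 p.2 (Ne.symm h)
      refine hp ⟨abs_le.1 h3, ?_⟩
      rw [mem_closedBall_zero_iff]
      exact norm_le_coord h4
  have h2 : IntegrableOn b S :=
    Measure.integrableOn_of_bounded (M := B0) hv hb.aestronglyMeasurable
      (Filter.Eventually.of_forall hB)
  refine ⟨?_, ?_⟩
  · rw [← h1, integrable_indicator_iff hSm]
    exact h2
  · have h3 : ∫ p, ‖b p‖ = ∫ p in S, ‖b p‖ := by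
      rw [← integral_indicator hSm]
      refine integral_congr_ae (Filter.Eventually.of_forall fun p => ?_)
      simp only
      conv_lhs => rw [← h1]
      rw [norm_indicator_eq_indicator_norm]
    rw [h3]
    calc ∫ p in S, ‖b p‖ ≤ ∫ _ in S, B0 := by
          refine integral_mono_of_nonneg (Filter.Eventually.of_forall fun _ => norm_nonneg _)
            ?_ (Filter.Eventually.of_forall hB)
          exact integrableOn_const hv
      _ = B0 * volume.real S := by rw [setIntegral_const, smul_eq_mul, mul_comm]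

/-- `Tb` is measurable. -/
theorem Tb_meas {n : ℕ} {X : ℝ × E m → E n} (hX : Continuous X) {b : ℝ × E m → ℂ}
    (hb : Integrable b) : Measurable fun ξ => Tb X b ξ := by
  refine Continuous.measurable ?_
  unfold Tb
  refine continuous_of_dominated (bound := fun p => ‖b p‖) (fun ξ => ?_) (fun ξ => ?_) hb.norm ?_
  · exact (Tb_integrable hX hb ξ).aestronglyMeasurable
  · refine Filter.Eventually.of_forall fun p => ?_
    rw [norm_mul, Complex.norm_exp_ofReal_mul_I, mul_one]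
  · refine Filter.Eventually.of_forall fun p => ?_
    fun_prop

/-- ROW MODEL over the text of MOD2. -/
theorem model_of {κ α : ℝ} {r : Fin m → ℝ} (hα : α ≠ 0) (hκ : 0 < κ)
    {X : ℝ → ℝ × E m → E (m + 2)} {A : ℕ → ℝ} (hX : SF κ α r X A)
    (hmod : ∀ p : ℝ, 2 * ((m : ℝ) + 2) / (m + 1) < p → p < 2 + 8 / (2 * (m : ℝ) + 1) →
      ∃ η : ℝ, 0 < η ∧ ∀ B : ℕ → ℝ, ∃ C : ℝ, ∀ d, 0 < d → d ≤ 1 → ∀ b : ℝ × E m → ℂ,
        DC κ α d r B b → ∀ R : ℝ, 1 ≤ R →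
          ∫⁻ ξ in {ξ : E (m + 2) | R ≤ ‖ξ‖ ∧ ‖ξ‖ ≤ 2 * R}, ‖Tb (X d) b ξ‖ₑ ^ p ≤
            ENNReal.ofReal (C * d⁻¹ * R ^ (-η)))
    {p : ℝ} (hp : 2 * ((m : ℝ) + 2) / (m + 1) < p) : ∃ η : ℝ, 0 < η ∧
    ∀ B : ℕ → ℝ, ∃ C : ℝ, ∀ d, 0 < d → d ≤ 1 → ∀ b : ℝ × E m → ℂ, DC κ α d r B b →
      (∫⁻ ξ, ‖Tb (X d) b ξ‖ₑ ^ p ≤ ENNReal.ofReal (C * d⁻¹)) ∧ ∀ R : ℝ, 1 ≤ R →
        ∫⁻ ξ in {ξ : E (m + 2) | R ≤ ‖ξ‖}, ‖Tb (X d) b ξ‖ₑ ^ p ≤
          ENNReal.ofReal (C * d⁻¹ * R ^ (-η)) := by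
  have hm0 : (0 : ℝ) ≤ m := Nat.cast_nonneg m
  have hpc : 2 * ((m : ℝ) + 2) / (m + 1) < 2 + 8 / (2 * (m : ℝ) + 1) := by
    have e : 2 + 8 / (2 * (m : ℝ) + 1) = (4 * m + 10) / (2 * m + 1) := by
      field_simp
      ring
    rw [e, div_lt_div_iff₀ (by linarith) (by linarith)]
    nlinarith
  obtain ⟨q, hq1, hq2⟩ := exists_between (lt_min hp hpc)
  have hqp : q ≤ p := (lt_min_iff.1 hq2).1.le
  have hq0 : 0 < q := lt_trans (by positivity) hq1
  obtain ⟨η, hη, h2⟩ := hmod q hq1 (lt_min_iff.1 hq2).2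
  refine ⟨η, hη, fun B => ?_⟩
  obtain ⟨C1, hC1⟩ := h2 B
  set T : ℝ := |α| * (4 + 4 * ∑ i, |r i|) with hT
  obtain ⟨C, hC, h⟩ := annuliD (m + 2) hq0 hqp hη C1
    (|B 0| * volume.real (Icc (-T) T ×ˢ closedBall (0 : E m) (m * 2)))
  refine ⟨C, fun d hd0 hd1 b hb => ?_⟩
  have hXc : Continuous (X d) := (hX d hd0.le hd1).1.continuous
  obtain ⟨hbi, hbn⟩ := mass (T := T) (B0 := |B 0|) (c := 2) b hb.1 (by
      intro p
      have := hb.2.2.1 p.1 0 p.2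
      rw [norm_iteratedFDeriv_zero] at this
      exact this.trans (le_abs_self _)) (by
      intro t z hne
      by_contra h1
      refine hne (hb.2.2.2 t z fun h3 => h1 ⟨Rs_tm hα hκ.le h3, h3.1⟩))
  exact h (Tb (X d) b) d⁻¹ ((one_le_inv₀ hd0).2 hd1) (Tb_meas hXc hbi)
    (fun ξ => (Tb_norm_le _ _ _).trans hbn) (fun R hR => hC1 d hd0 hd1 b hb R hR)

end Pool.Agent.LQN
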