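import Pool.Agent.LQN.TP

/-!
LQN: bounds for `A`, `H`, `L i`; at most one `L i` is small.
-/

set_option autoImplicit false

namespace Pool.Agent.LQN.NR

variable {m : ℕ}

theorem ss_eq_rr (α : ℝ) (r : Fin m → ℝ) (t : ℝ) (y : Fin m → ℝ) :
    ss α r t y = rr α r t y + ∑ i, y i ^ 2 := by
  unfold ss rr
  have : ∑ i, (1 - r i) * y i ^ 2 = ∑ i, y i ^ 2 - ∑ i, r i * y i ^ 2 := by
    rw [← Finset.sum_sub_distrib]
    exact Finset.sum_congr rfl fun i _ => by ring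
  rw [this]
  ring

theorem a_ge {κ α d : ℝ} {r : Fin m → ℝ} {t : ℝ} {y : Fin m → ℝ} (h : Rg κ α d r t y)
    (hκ : 0 < κ) (hκ1 : κ ≤ 1) : κ ≤ AA α r t y := by
  unfold AA
  refine Real.le_sqrt_of_sq_le ?_
  have := h.2.1
  nlinarith

theorem a_le {κ α d : ℝ} {r : Fin m → ℝ} {t : ℝ} {y : Fin m → ℝ} (h : Rg κ α d r t y)
    (hκ : 0 < κ) (hκ1 : κ ≤ 1) : AA α r t y ≤ κ⁻¹ := by
  unfold AA
  refine Real.sqrt_le_iff.2 ⟨by positivity, ?_⟩
  have h1 : 1 ≤ κ⁻¹ := (one_le_inv₀ hκ).2 hκ1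
  have := h.2.2.1
  nlinarith

theorem h_ge {κ α d : ℝ} {r : Fin m → ℝ} {t : ℝ} {y : Fin m → ℝ} (h : Rg κ α d r t y)
    (hκ : 0 < κ) (hκ1 : κ ≤ 1) : κ ≤ HH α d r t y := by
  unfold HH
  refine Real.le_sqrt_of_sq_le ?_
  have := h.2.2.2
  nlinarith

theorem h_le {κ α d : ℝ} {r : Fin m → ℝ} {t : ℝ} {y : Fin m → ℝ} (h : Rg κ α d r t y)
    (hκ : 0 < κ) : HH α d r t y ≤ 1 := by
  unfold HH
  refine Real.sqrt_le_one.2 ?_
  have h1 := ss_eq_rr α r t y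
  have h2 : 0 ≤ ∑ i, y i ^ 2 := Finset.sum_nonneg fun _ _ => sq_nonneg _
  have h3 := h.2.1
  have h4 : 0 ≤ d ^ 2 * ss α r t y := by
    rw [h1]
    have : 0 ≤ rr α r t y + ∑ i, y i ^ 2 := by linarith
    positivity
  linarith

/-- `max |r i|, |1 - r i|`. -/
noncomputable def Kr (r : Fin m → ℝ) : ℝ := 1 + ∑ i, |r i|

theorem Kr_ge1 (r : Fin m → ℝ) : 1 ≤ Kr r := by
  unfold Kr
  have : 0 ≤ ∑ i, |r i| := Finset.sum_nonneg fun _ _ => abs_nonneg _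
  linarith

theorem le_Kr (r : Fin m → ℝ) (i : Fin m) : |r i| ≤ Kr r := by
  unfold Kr
  have : |r i| ≤ ∑ i, |r i| :=
    Finset.single_le_sum (f := fun i => |r i|) (fun _ _ => abs_nonneg _) (Finset.mem_univ i)
  linarith

theorem le_Kr' (r : Fin m → ℝ) (i : Fin m) : |1 - r i| ≤ Kr r := by
  unfold Kr
  have h1 : |r i| ≤ ∑ i, |r i| :=
    Finset.single_le_sum (f := fun i => |r i|) (fun _ _ => abs_nonneg _) (Finset.mem_univ i)
  have h2 := abs_sub (1 : ℝ) (r i)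
  rw [abs_one] at h2
  linarith

/-- The constant of `PP`, `SS`. -/
noncomputable def K1 (κ α : ℝ) (r : Fin m → ℝ) : ℝ := 1 / (2 * |α|) + Kr r * κ⁻¹

theorem K1_pos {κ α : ℝ} (hκ : 0 < κ) (r : Fin m → ℝ) : 0 < K1 κ α r := by
  unfold K1
  have := Kr_ge1 r
  positivity

theorem PP_le {κ α : ℝ} (hα : α ≠ 0) (hκ : 0 < κ) (r yb : Fin m → ℝ) (hy : ∀ i, |yb i| ≤ κ⁻¹)
    (Dt : ℝ) (D : Fin m → ℝ) : |PP α r yb Dt D| ≤ K1 κ α r * (|Dt| + ∑ i, |D i|) := by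
  unfold PP K1
  have ha : 0 < |α| := abs_pos.2 hα
  have h0 : 0 ≤ ∑ i, |D i| := Finset.sum_nonneg fun _ _ => abs_nonneg _
  have h1 : |Dt / (2 * α)| = 1 / (2 * |α|) * |Dt| := by
    rw [abs_div, abs_mul, abs_two]
    ring
  have hK := Kr_ge1 r
  have h2 : |∑ i, r i * yb i * D i| ≤ Kr r * κ⁻¹ * ∑ i, |D i| := by
    rw [Finset.mul_sum]
    refine (Finset.abs_sum_le_sum_abs _ _).trans (Finset.sum_le_sum fun i _ => ?_)
    rw [abs_mul, abs_mul]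
    have := le_Kr r i
    have := hy i
    gcongr
  have h3 := abs_sub (Dt / (2 * α)) (∑ i, r i * yb i * D i)
  have h4 : 0 ≤ 1 / (2 * |α|) * ∑ i, |D i| := by positivity
  have h5 : 0 ≤ Kr r * κ⁻¹ * |Dt| := by positivity
  nlinarith

theorem SS_le {κ α : ℝ} (hα : α ≠ 0) (hκ : 0 < κ) (r yb : Fin m → ℝ) (hy : ∀ i, |yb i| ≤ κ⁻¹)
    (Dt : ℝ) (D : Fin m → ℝ) : |SS α r yb Dt D| ≤ K1 κ α r * (|Dt| + ∑ i, |D i|) := by
  unfold SS K1
  have ha : 0 < |α| := abs_pos.2 hα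
  have h0 : 0 ≤ ∑ i, |D i| := Finset.sum_nonneg fun _ _ => abs_nonneg _
  have h1 : |Dt / (2 * α)| = 1 / (2 * |α|) * |Dt| := by
    rw [abs_div, abs_mul, abs_two]
    ring
  have hK := Kr_ge1 r
  have h2 : |∑ i, (1 - r i) * yb i * D i| ≤ Kr r * κ⁻¹ * ∑ i, |D i| := by
    rw [Finset.mul_sum]
    refine (Finset.abs_sum_le_sum_abs _ _).trans (Finset.sum_le_sum fun i _ => ?_)
    rw [abs_mul, abs_mul]
    have := le_Kr' r i
    have := hy i
    gcongr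
  have h3 := abs_add_le (Dt / (2 * α)) (∑ i, (1 - r i) * yb i * D i)
  have h4 : 0 ≤ 1 / (2 * |α|) * ∑ i, |D i| := by positivity
  have h5 : 0 ≤ Kr r * κ⁻¹ * |Dt| := by positivity
  nlinarith

theorem mean_le {κ : ℝ} {y y' : Fin m → ℝ} (h : ∀ i, |y i| ≤ κ⁻¹) (h' : ∀ i, |y' i| ≤ κ⁻¹) :
    ∀ i, |(y i + y' i) / 2| ≤ κ⁻¹ := by
  intro i
  rw [abs_div, abs_two, div_le_iff₀ (by norm_num)]
  have := abs_add_le (y i) (y' i)
  linarith [h i, h' i]

/-- `L` at two points, the same `w`. -/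
theorem ll_lip0 {κ α d : ℝ} {r : Fin m → ℝ} (hα : α ≠ 0) (hκ : 0 < κ) (hκ1 : κ ≤ 1)
    (hd0 : 0 ≤ d) (hd1 : d ≤ 1) {t : ℝ} {y : Fin m → ℝ} {t' : ℝ} {y' : Fin m → ℝ}
    (h : Rg κ α d r t y) (h' : Rg κ α d r t' y') (w1 wn : ℝ) (i : Fin m) :
    |LL α d r w1 wn t' y' i - LL α d r w1 wn t y i| ≤
      Kr r * κ⁻¹ ^ 3 * K1 κ α r * (|w1| + |wn|) * nn t y t' y' := by
  have hA := a_ge h hκ hκ1
  have hA' := a_ge h' hκ hκ1
  have hH := h_ge h hκ hκ1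
  have hH' := h_ge h' hκ hκ1
  have hK := Kr_ge1 r
  have hK1 := K1_pos (α := α) hκ r
  have hn := nn_nonneg t y t' y'
  have e1 := inv_A_diff hα r t t' y y' (lt_of_lt_of_le hκ h.2.1) (lt_of_lt_of_le hκ h'.2.1) w1
  have e2 := inv_H_diff hα r t t' y y' (lt_of_lt_of_le hκ h.2.2.2) (lt_of_lt_of_le hκ h'.2.2.2) wn
  have p1 := PP_le hα hκ r (fun i => (y i + y' i) / 2) (mean_le h.1 h'.1) (t' - t)
    fun i => y' i - y i
  have p2 := SS_le hα hκ r (fun i => (y i + y' i) / 2) (mean_le h.1 h'.1) (t' - t)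
    fun i => y' i - y i
  have hnn : |t' - t| + ∑ i, |y' i - y i| = nn t y t' y' := rfl
  rw [hnn] at p1 p2
  set P := PP α r (fun i => (y i + y' i) / 2) (t' - t) fun i => y' i - y i
  set S := SS α r (fun i => (y i + y' i) / 2) (t' - t) fun i => y' i - y i
  set A := AA α r t y
  set A' := AA α r t' y'
  set H := HH α d r t y
  set H' := HH α d r t' y'
  set N := nn t y t' y'
  have hc : ∀ x X X' : ℝ, κ ≤ X → κ ≤ X' → |2 * x / (X * X' * (X + X'))| ≤ κ⁻¹ ^ 3 * |x| := by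
    intro x X X' hX hX'
    have h0 : 0 < X := lt_of_lt_of_le hκ hX
    have h0' : 0 < X' := lt_of_lt_of_le hκ hX'
    have h1 : κ * κ * (κ + κ) ≤ X * X' * (X + X') := by gcongr
    rw [abs_div, abs_mul, abs_two, abs_of_pos (show 0 < X * X' * (X + X') by positivity),
      div_le_iff₀ (by positivity)]
    have h2 : κ⁻¹ ^ 3 * |x| * (κ * κ * (κ + κ)) = 2 * |x| := by
      field_simp
      ring
    rw [← h2]
    gcongr
  have c1 := hc w1 A A' hA hA'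
  have c2 : |2 * d ^ 2 * wn / (H * H' * (H + H'))| ≤ κ⁻¹ ^ 3 * |wn| := by
    have h1 := hc (d ^ 2 * wn) H H' hH hH'
    have h2 : 2 * d ^ 2 * wn / (H * H' * (H + H')) = 2 * (d ^ 2 * wn) / (H * H' * (H + H')) := by
      ring
    rw [h2]
    refine h1.trans ?_
    rw [abs_mul, abs_of_nonneg (sq_nonneg d)]
    have : d ^ 2 ≤ 1 := by nlinarith
    have h3 : d ^ 2 * |wn| ≤ 1 * |wn| := mul_le_mul_of_nonneg_right this (abs_nonneg _)
    rw [one_mul] at h3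
    gcongr
  have e3 : LL α d r w1 wn t' y' i - LL α d r w1 wn t y i =
      (1 - r i) * (wn / H' - wn / H) - r i * (w1 / A' - w1 / A) := by
    unfold LL
    ring
  rw [e3, e1, e2]
  refine (abs_sub _ _).trans ?_
  rw [abs_mul, abs_mul, abs_mul, abs_neg, abs_mul]
  have q1 : |1 - r i| * (|2 * d ^ 2 * wn / (H * H' * (H + H'))| * |S|) ≤
      Kr r * (κ⁻¹ ^ 3 * |wn| * (K1 κ α r * N)) := by
    have := le_Kr' r i
    gcongr
  have q2 : |r i| * (|2 * w1 / (A * A' * (A + A'))| * |P|) ≤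
      Kr r * (κ⁻¹ ^ 3 * |w1| * (K1 κ α r * N)) := by
    have := le_Kr r i
    gcongr
  refine (add_le_add q1 q2).trans (le_of_eq ?_)
  ring

/-- The constant of `ll_lip`. -/
noncomputable def K2 (κ α : ℝ) (r : Fin m → ℝ) : ℝ := Kr r * κ⁻¹ + Kr r * κ⁻¹ ^ 3 * K1 κ α r

theorem K2_pos {κ α : ℝ} (hκ : 0 < κ) (r : Fin m → ℝ) : 0 < K2 κ α r := by
  unfold K2
  have := Kr_ge1 r
  have := K1_pos (α := α) hκ r
  positivity

/-- `L` at two points with two `w`. -/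
theorem ll_lip {κ α d : ℝ} {r : Fin m → ℝ} (hα : α ≠ 0) (hκ : 0 < κ) (hκ1 : κ ≤ 1)
    (hd0 : 0 ≤ d) (hd1 : d ≤ 1) {t : ℝ} {y : Fin m → ℝ} {t' : ℝ} {y' : Fin m → ℝ}
    (h : Rg κ α d r t y) (h' : Rg κ α d r t' y') (w1 wn w1' wn' : ℝ) (i : Fin m) :
    |LL α d r w1' wn' t' y' i - LL α d r w1 wn t y i| ≤
      K2 κ α r * (|w1' - w1| + |wn' - wn| + (|w1| + |wn|) * nn t y t' y') := by
  have h1 := ll_lip0 hα hκ hκ1 hd0 hd1 h h' w1 wn i
  have hA' := a_ge h' hκ hκ1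
  have hH' := h_ge h' hκ hκ1
  have hA0 : 0 < AA α r t' y' := lt_of_lt_of_le hκ hA'
  have hH0 : 0 < HH α d r t' y' := lt_of_lt_of_le hκ hH'
  have hK := Kr_ge1 r
  have hK1 := K1_pos (α := α) hκ r
  have hn := nn_nonneg t y t' y'
  have e1 : LL α d r w1' wn' t' y' i - LL α d r w1 wn t y i =
      (1 - r i) * ((wn' - wn) / HH α d r t' y') - r i * ((w1' - w1) / AA α r t' y') +
        (LL α d r w1 wn t' y' i - LL α d r w1 wn t y i) := by
    unfold LL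
    ring
  rw [e1]
  refine (abs_add_le _ _).trans ?_
  have h2 : |(1 - r i) * ((wn' - wn) / HH α d r t' y') - r i * ((w1' - w1) / AA α r t' y')| ≤
      Kr r * κ⁻¹ * (|w1' - w1| + |wn' - wn|) := by
    refine (abs_sub _ _).trans ?_
    rw [abs_mul, abs_mul, abs_div, abs_div, abs_of_pos hA0, abs_of_pos hH0]
    have g1 : |wn' - wn| / HH α d r t' y' ≤ κ⁻¹ * |wn' - wn| := by
      rw [div_eq_inv_mul]
      gcongr
    have g2 : |w1' - w1| / AA α r t' y' ≤ κ⁻¹ * |w1' - w1| := by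
      rw [div_eq_inv_mul]
      gcongr
    have q1 : |1 - r i| * (|wn' - wn| / HH α d r t' y') ≤ Kr r * (κ⁻¹ * |wn' - wn|) := by
      have := le_Kr' r i
      gcongr
    have q2 : |r i| * (|w1' - w1| / AA α r t' y') ≤ Kr r * (κ⁻¹ * |w1' - w1|) := by
      have := le_Kr r i
      gcongr
    linarith
  unfold K2
  have h3 : 0 ≤ Kr r * κ⁻¹ * ((|w1| + |wn|) * nn t y t' y') := by positivity
  have h4 : 0 ≤ Kr r * κ⁻¹ ^ 3 * K1 κ α r * (|w1' - w1| + |wn' - wn|) := by positivity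
  nlinarith

/-- The parameters `r i` are separated. -/
theorem gap {r : Fin m → ℝ} (h : Function.Injective r) : ∃ g : ℝ, 0 < g ∧ g ≤ 1 ∧
    ∀ i j, i ≠ j → g ≤ |r i - r j| := by
  classical
  set s : Finset (Fin m × Fin m) := Finset.univ.filter fun p => p.1 ≠ p.2 with hs
  rcases s.eq_empty_or_nonempty with h0 | h0
  · refine ⟨1, one_pos, le_rfl, fun i j hij => ?_⟩
    have : (i, j) ∈ s := by rw [hs, Finset.mem_filter]; exact ⟨Finset.mem_univ _, hij⟩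
    rw [h0] at this
    simp at this
  · obtain ⟨p, hp, hmin⟩ := s.exists_min_image (fun p => |r p.1 - r p.2|) h0
    rw [hs, Finset.mem_filter] at hp
    have h1 : 0 < |r p.1 - r p.2| := abs_pos.2 (sub_ne_zero.2 fun h2 => hp.2 (h h2))
    refine ⟨min 1 |r p.1 - r p.2|, lt_min one_pos h1, min_le_left _ _, fun i j hij => ?_⟩
    refine (min_le_right _ _).trans (hmin (i, j) ?_)
    rw [hs, Finset.mem_filter]
    exact ⟨Finset.mem_univ _, hij⟩

/-- Two `L i` are not both small. -/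
theorem two_ll {κ α d g : ℝ} {r : Fin m → ℝ} (hκ : 0 < κ) (hκ1 : κ ≤ 1) {t : ℝ}
    {y : Fin m → ℝ} (h : Rg κ α d r t y) (hg : 0 < g) (hg1 : g ≤ 1) {i j : Fin m}
    (hij : g ≤ |r i - r j|) (w1 wn : ℝ) :
    |w1| + |wn| ≤ 5 * Kr r * κ⁻¹ / g * (|LL α d r w1 wn t y i| + |LL α d r w1 wn t y j|) := by
  have hA := a_ge h hκ hκ1
  have hH := h_ge h hκ hκ1
  have hA' := a_le h hκ hκ1
  have hH' : HH α d r t y ≤ κ⁻¹ := (h_le h hκ).trans ((one_le_inv₀ hκ).2 hκ1)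
  have hA0 : 0 < AA α r t y := lt_of_lt_of_le hκ hA
  have hH0 : 0 < HH α d r t y := lt_of_lt_of_le hκ hH
  have hK := Kr_ge1 r
  have hKi := le_Kr r i
  unfold LL
  set a := w1 / AA α r t y with ha
  set c := wn / HH α d r t y with hc
  have e1 : |w1| ≤ κ⁻¹ * |a| := by
    have : w1 = AA α r t y * a := by rw [ha]; field_simp
    rw [this, abs_mul, abs_of_pos hA0]
    gcongr
  have e2 : |wn| ≤ κ⁻¹ * |c| := by
    have : wn = HH α d r t y * c := by rw [hc]; field_simp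
    rw [this, abs_mul, abs_of_pos hH0]
    gcongr
  set Li := (1 - r i) * c - r i * a with hLi
  set Lj := (1 - r j) * c - r j * a with hLj
  set M := |Li| + |Lj| with hM
  have hM0 : 0 ≤ M := by positivity
  have e3 : |a + c| ≤ M / g := by
    rw [le_div_iff₀ hg]
    have h1 : (r i - r j) * (a + c) = Lj - Li := by rw [hLi, hLj]; ring
    calc |a + c| * g ≤ |a + c| * |r i - r j| := by gcongr
      _ = |(r i - r j) * (a + c)| := by rw [abs_mul, mul_comm]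
      _ = |Lj - Li| := by rw [h1]
      _ ≤ |Lj| + |Li| := abs_sub _ _
      _ = M := by rw [hM]; ring
  have e4 : |c| ≤ M + Kr r * (M / g) := by
    have h1 : c = Li + r i * (a + c) := by rw [hLi]; ring
    calc |c| = |Li + r i * (a + c)| := by rw [← h1]
      _ ≤ |Li| + |r i| * |a + c| := by
          refine (abs_add_le _ _).trans ?_
          rw [abs_mul]
      _ ≤ M + Kr r * (M / g) := by
          have : |Li| ≤ M := by rw [hM]; linarith [abs_nonneg Lj]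
          gcongr
  have e5 : |a| ≤ |a + c| + |c| := by
    have : a = (a + c) - c := by ring
    calc |a| = |(a + c) - c| := by rw [← this]
      _ ≤ _ := abs_sub _ _
  have e6 : M ≤ Kr r * (M / g) := by
    have : M ≤ M / g := le_div_self hM0 hg hg1
    nlinarith [div_nonneg hM0 hg.le]
  have e7 : M / g ≤ Kr r * (M / g) := by nlinarith [div_nonneg hM0 hg.le]
  have hκ0 : 0 < κ⁻¹ := by positivity
  calc |w1| + |wn| ≤ κ⁻¹ * |a| + κ⁻¹ * |c| := add_le_add e1 e2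
    _ = κ⁻¹ * (|a| + |c|) := by ring
    _ ≤ κ⁻¹ * (5 * (Kr r * (M / g))) := by
        refine mul_le_mul_of_nonneg_left ?_ hκ0.le
        linarith
    _ = _ := by ring

/-- The coordinate `L` of the normal. -/
theorem ll_N {κ α d : ℝ} {r : Fin m → ℝ} (hκ : 0 < κ) (hκ1 : κ ≤ 1) {t : ℝ}
    {y : Fin m → ℝ} (h : Rg κ α d r t y) (i : Fin m) :
    LL α d r (AA α r t y) (-(HH α d r t y)) t y i = -1 := by
  have hA0 : 0 < AA α r t y := lt_of_lt_of_le hκ (a_ge h hκ hκ1)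
  have hH0 : 0 < HH α d r t y := lt_of_lt_of_le hκ (h_ge h hκ hκ1)
  unfold LL
  rw [neg_div, div_self hA0.ne', div_self hH0.ne']
  ring

theorem ll_N_near {κ α d : ℝ} {r : Fin m → ℝ} (hα : α ≠ 0) (hκ : 0 < κ) (hκ1 : κ ≤ 1)
    (hd0 : 0 ≤ d) (hd1 : d ≤ 1) {t : ℝ} {y : Fin m → ℝ} {t' : ℝ} {y' : Fin m → ℝ}
    (h : Rg κ α d r t y) (h' : Rg κ α d r t' y') (i : Fin m) :
    |LL α d r (AA α r t y) (-(HH α d r t y)) t' y' i + 1| ≤
      K2 κ α r * (2 * κ⁻¹) * nn t y t' y' := by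
  have h1 := ll_lip hα hκ hκ1 hd0 hd1 h h' (AA α r t y) (-(HH α d r t y)) (AA α r t y)
    (-(HH α d r t y)) i
  rw [ll_N hκ hκ1 h, sub_neg_eq_add, sub_self, sub_self, abs_zero, zero_add, zero_add, abs_neg]
    at h1
  refine h1.trans ?_
  have hA0 : 0 < AA α r t y := lt_of_lt_of_le hκ (a_ge h hκ hκ1)
  have hH0 : 0 < HH α d r t y := lt_of_lt_of_le hκ (h_ge h hκ hκ1)
  rw [abs_of_pos hA0, abs_of_pos hH0, mul_assoc]
  have hK := K2_pos (α := α) hκ r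
  refine mul_le_mul_of_nonneg_left ?_ hK.le
  refine mul_le_mul_of_nonneg_right ?_ (nn_nonneg _ _ _ _)
  have := a_le h hκ hκ1
  have := (h_le h hκ).trans ((one_le_inv₀ hκ).2 hκ1)
  linarith

/-- The chord of two points of the box. -/
theorem nn_box {c0 t0 κ α d : ℝ} {r y0 : Fin m → ℝ} (hc : 0 ≤ c0)
    (h : Rg κ α d r t0 y0) {t : ℝ} {y : Fin m → ℝ} {t' : ℝ} {y' : Fin m → ℝ}
    (hB : Bx c0 t0 y0 t y) (hB' : Bx c0 t0 y0 t' y') :
    nn t y t' y' ≤ 2 * c0 * (1 + m * κ⁻¹) := by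
  unfold nn
  have h1 : |t' - t| ≤ 2 * c0 := by
    have := abs_sub_le t' t0 t
    have h2 := hB.1
    rw [abs_sub_comm] at h2
    linarith [hB'.1]
  have h3 : ∀ i, |y' i - y i| ≤ 2 * c0 * κ⁻¹ := by
    intro i
    have h4 := abs_sub_le (y' i) (y0 i) (y i)
    have h5 := hB.2 i
    rw [abs_sub_comm] at h5
    have h6 := hB'.2 i
    have h7 : c0 * |y0 i| ≤ c0 * κ⁻¹ := mul_le_mul_of_nonneg_left (h.1 i) hc
    linarith
  calc |t' - t| + ∑ i, |y' i - y i| ≤ 2 * c0 + ∑ _i : Fin m, 2 * c0 * κ⁻¹ :=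
        add_le_add h1 (Finset.sum_le_sum fun i _ => h3 i)
    _ = _ := by
        rw [Finset.sum_const, Finset.card_univ, Fintype.card_fin, nsmul_eq_mul]
        ring

end Pool.Agent.LQN.NR
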