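import Pool.Agent.LQN.FARS
import Pool.Agent.LQN.NG

/-!
LQN, rows NEARI and NEARS: the volume of the near part.
-/

set_option autoImplicit false

namespace Pool.Agent.LQN

open MeasureTheory Set
open scoped ENNReal NNReal

variable {m : ℕ}

/-- ROW NEARI. -/
theorem neari {α : ℝ} {r : Fin m → ℝ} (h : Hyp α r) {κ : ℝ} (hκ : 0 < κ) (hκ1 : κ ≤ 1) :
    ∃ C c1 : ℝ, 0 < C ∧ 0 < c1 ∧ ∀ c0, 0 < c0 → c0 ≤ c1 → ∀ d, 0 ≤ d → d ≤ 1 →
      ∀ t0 y0, Rg κ α d r t0 y0 → (∀ i, y0 i ≠ 0) → ∀ t y, Bx c0 t0 y0 t y →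
      ∀ (x1 : ℝ) (x : Fin m → ℝ) (s0 τ0 : ℝ) (z0 : Fin m → ℝ), Bx c0 t0 y0 τ0 z0 →
        κ ≤ |g1 α r t y x1 s0| + |gn α d r t y s0| →
        |g1 α r t y x1 s0| + |gn α d r t y s0| ≤ κ⁻¹ →
        ∃ (e0 : ℝ) (e : Fin m → ℝ), |e0| ≤ 1 ∧ (∀ k, |e k| ≤ 1) ∧ ∀ s1 s2 τ1 τ2 z1 z2,
          Bx c0 t0 y0 τ1 z1 → Bx c0 t0 y0 τ2 z2 → |s1 - s0| ≤ c1 →
          (∀ i, |gL α d r t y x1 s1 τ1 z1 i - gL α d r t y x1 s0 τ0 z0 i| ≤
            c1 * (|gL α d r t y x1 s0 τ0 z0 i| + |y0 i|)) →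
          ∀ j, |s2 - s1| + nn τ1 z1 τ2 z2 ≤
            C * (|gL α d r t y x1 s2 τ2 z2 j - gL α d r t y x1 s1 τ1 z1 j| +
              |e0 * (τ2 - τ1) + ∑ k, e k * (z2 k - z1 k)| +
              ∑ i, |gU α d r t y x1 x s2 τ2 z2 i - gU α d r t y x1 x s1 τ1 z1 i| /
                (|gL α d r t y x1 s0 τ0 z0 i| + |y0 i|)) := by
  obtain ⟨cb, hcb, hcb8, BX⟩ := box_sub h hκ hκ1
  have hκ4 : 0 < κ / 4 := by positivity
  have hκ41 : κ / 4 ≤ 1 := by linarith
  obtain ⟨Ct, ct, hCt, hct, hct8, TP⟩ := NR.tp h hκ hκ1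
  obtain ⟨cN, CN, kN, hcN, hCN, hkN, NQ⟩ := nq h hκ hκ1
  set K2 : ℝ := NR.K2 (κ / 4) α r with hK2
  have hK20 : 0 < K2 := NR.K2_pos hκ4 r
  -- the size of `w(s1)`
  set K : ℝ := K2 * (κ⁻¹ + 2) with hK
  have hK0 : 0 < K := by rw [hK]; positivity
  set c1 : ℝ := min (min cb ct) (min kN (min (1 / (2 * CN)) (min (ct / (4 * (2 + 2 * K) * CN))
    (min (ct / 4) (ct * (κ / 4) / 2))))) with hc1
  have hc10 : 0 < c1 := by rw [hc1]; positivity
  have hcb' : c1 ≤ cb := (min_le_left _ _).trans (min_le_left _ _)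
  have hct' : c1 ≤ ct := (min_le_left _ _).trans (min_le_right _ _)
  have hkN' : c1 ≤ kN := (min_le_right _ _).trans (min_le_left _ _)
  have h2N : c1 ≤ 1 / (2 * CN) :=
    (min_le_right _ _).trans ((min_le_right _ _).trans (min_le_left _ _))
  have h3N : c1 ≤ ct / (4 * (2 + 2 * K) * CN) :=
    (min_le_right _ _).trans ((min_le_right _ _).trans ((min_le_right _ _).trans (min_le_left _ _)))
  have h4N : c1 ≤ ct / 4 := (min_le_right _ _).trans ((min_le_right _ _).trans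
    ((min_le_right _ _).trans ((min_le_right _ _).trans (min_le_left _ _))))
  have h5N : c1 ≤ ct * (κ / 4) / 2 := (min_le_right _ _).trans ((min_le_right _ _).trans
    ((min_le_right _ _).trans ((min_le_right _ _).trans (min_le_right _ _))))
  refine ⟨max (3 + 2 * K) ((3 + 2 * K) * (Ct * 2)), c1, by positivity, hc10, ?_⟩
  intro c0 hc0 hc01 d hd0 hd1 t0 y0 hRg hy0 t y hp x1 x s0 τ0 z0 hz0 hw hw'
  have hbx : ∀ {τ z}, Bx c0 t0 y0 τ z → Bx ct t0 y0 τ z := fun {τ z} hz =>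
    NR.bx_mono hz (hc01.trans hct')
  have hrg : ∀ {τ z}, Bx c0 t0 y0 τ z → Rg (κ / 4) α d r τ z := fun {τ z} hz =>
    BX d hd0 hd1 t0 y0 τ z hRg (NR.bx_mono hz (hc01.trans hcb'))
  obtain ⟨e0, e, he0, he, TP⟩ := TP d hd0 hd1 t0 y0 hRg hy0 τ0 z0 (hbx hz0) _ _ hw hw'
  refine ⟨e0, e, he0, he, ?_⟩
  intro s1 s2 τ1 τ2 z1 z2 hz1 hz2 hs1 hL1 j
  obtain ⟨-, -, n3, n4, -⟩ := NQ c0 hc0 (hc01.trans hkN') d hd0 hd1 t0 y0 hRg t y τ2 z2 hp hz2
  set N : ℝ := nn τ1 z1 τ2 z2 with hN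
  have hN0 : 0 ≤ N := NR.nn_nonneg _ _ _ _
  set hj : ℝ := |gL α d r t y x1 s2 τ2 z2 j - gL α d r t y x1 s1 τ1 z1 j| with hhj
  have hhj0 : 0 ≤ hj := abs_nonneg _
  have hA := (hrg hp).A_ge hκ4 hκ41
  have hH := (hrg hp).H_ge hκ4 hκ41
  have hA0 : 0 < AA α r t y := hκ4.trans_le hA
  have hH0 : 0 < HH α d r t y := hκ4.trans_le hH
  have hAi : AA α r t y ≤ (κ / 4)⁻¹ := NR.a_le (hrg hp) hκ4 hκ41
  have hHi : HH α d r t y ≤ 1 := NR.h_le (hrg hp) hκ4
  have hκi : 1 ≤ (κ / 4)⁻¹ := (one_le_inv₀ hκ4).2 hκ41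
  -- |s1 - s0| times A, H
  have hsA : |s1 - s0| * AA α r t y ≤ ct / 2 := by
    calc |s1 - s0| * AA α r t y ≤ (ct * (κ / 4) / 2) * (κ / 4)⁻¹ :=
          mul_le_mul (hs1.trans h5N) hAi hA0.le (by positivity)
      _ = ct / 2 := by field_simp
  have hsH : |s1 - s0| * HH α d r t y ≤ ct / 2 := by
    calc |s1 - s0| * HH α d r t y ≤ (ct * (κ / 4) / 2) * (κ / 4)⁻¹ :=
          mul_le_mul (hs1.trans h5N) (hHi.trans hκi) hH0.le (by positivity)
      _ = ct / 2 := by field_simp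
  have hg1 : |g1 α r t y x1 s1 - g1 α r t y x1 s0| ≤ ct := by
    have : g1 α r t y x1 s1 - g1 α r t y x1 s0 = (s1 - s0) * AA α r t y := by unfold g1; ring
    rw [this, abs_mul, abs_of_pos hA0]
    linarith
  have hgn : |gn α d r t y s1 - gn α d r t y s0| ≤ ct := by
    have : gn α d r t y s1 - gn α d r t y s0 = -((s1 - s0) * HH α d r t y) := by unfold gn; ring
    rw [this, abs_neg, abs_mul, abs_of_pos hH0]
    linarith
  have hws1 : |g1 α r t y x1 s1| + |gn α d r t y s1| ≤ κ⁻¹ + 2 := by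
    have e1 := abs_sub_abs_le_abs_sub (g1 α r t y x1 s1) (g1 α r t y x1 s0)
    have e2 := abs_sub_abs_le_abs_sub (gn α d r t y s1) (gn α d r t y s0)
    linarith
  -- the difference of `L j`
  have hLs : gL α d r t y x1 s2 τ2 z2 j - gL α d r t y x1 s1 τ1 z1 j =
      (s2 - s1) * LL α d r (AA α r t y) (-(HH α d r t y)) τ2 z2 j +
        (LL α d r (g1 α r t y x1 s1) (gn α d r t y s1) τ2 z2 j -
          LL α d r (g1 α r t y x1 s1) (gn α d r t y s1) τ1 z1 j) := by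
    unfold gL LL g1 gn
    ring
  have hLip := NR.ll_lip h.α0 hκ4 hκ41 hd0 hd1 (hrg hz1) (hrg hz2) (g1 α r t y x1 s1)
    (gn α d r t y s1) (g1 α r t y x1 s1) (gn α d r t y s1) j
  rw [sub_self, sub_self, abs_zero, zero_add, zero_add] at hLip
  have hLip2 : |LL α d r (g1 α r t y x1 s1) (gn α d r t y s1) τ2 z2 j -
      LL α d r (g1 α r t y x1 s1) (gn α d r t y s1) τ1 z1 j| ≤ K * N := by
    refine hLip.trans ?_
    rw [hK, mul_assoc]
    gcongr
  have hds : |s2 - s1| ≤ 2 * hj + 2 * K * N := by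
    have e1 := n4 j
    have e2 : CN * c0 ≤ 1 / 2 := by
      calc CN * c0 ≤ CN * (1 / (2 * CN)) := by gcongr; exact hc01.trans h2N
        _ = 1 / 2 := by field_simp
    set l := LL α d r (AA α r t y) (-(HH α d r t y)) τ2 z2 j with hl
    set B := LL α d r (g1 α r t y x1 s1) (gn α d r t y s1) τ2 z2 j -
      LL α d r (g1 α r t y x1 s1) (gn α d r t y s1) τ1 z1 j with hB
    have e3 : (s2 - s1) = (s2 - s1) * (l + 1) - ((s2 - s1) * l + B) + B := by ring
    have e4 : |s2 - s1| ≤ |s2 - s1| * |l + 1| + hj + |B| := by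
      calc |s2 - s1| = |(s2 - s1) * (l + 1) - ((s2 - s1) * l + B) + B| := by rw [← e3]
        _ ≤ |(s2 - s1) * (l + 1) - ((s2 - s1) * l + B)| + |B| := abs_add_le _ _
        _ ≤ |(s2 - s1) * (l + 1)| + |(s2 - s1) * l + B| + |B| := by
            gcongr
            exact abs_sub _ _
        _ = |s2 - s1| * |l + 1| + hj + |B| := by
            rw [abs_mul, hhj, hLs]
    have e5 : |s2 - s1| * |l + 1| ≤ |s2 - s1| * (1 / 2) := by
      gcongr
      exact e1.trans e2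
    linarith
  -- the weights
  have hW : ∀ i, 0 < |gL α d r t y x1 s0 τ0 z0 i| + |y0 i| := fun i => by
    have := abs_pos.2 (hy0 i)
    positivity
  have hc08 : c0 ≤ 1 / 8 := (hc01.trans hct').trans hct8
  have hel : ∀ i, (|gL α d r t y x1 s0 τ0 z0 i| + |y0 i|) ≤
      2 * el α d r (g1 α r t y x1 s0) (gn α d r t y s0) τ0 z0 i := by
    intro i
    have e1 := hz0.2 i
    have e2 := abs_sub_abs_le_abs_sub (y0 i) (z0 i)
    rw [abs_sub_comm] at e2
    have e3 : c0 * |y0 i| ≤ 1 / 8 * |y0 i| := by gcongr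
    have e4 := abs_nonneg (gL α d r t y x1 s0 τ0 z0 i)
    have e5 := abs_nonneg (y0 i)
    unfold el
    unfold gL at e4 ⊢
    linarith
  have hfin0 : 0 ≤ |e0 * (τ2 - τ1) + ∑ k, e k * (z2 k - z1 k)| := abs_nonneg _
  have hfin1 : 0 ≤ ∑ i, |gU α d r t y x1 x s2 τ2 z2 i - gU α d r t y x1 x s1 τ1 z1 i| /
      (|gL α d r t y x1 s0 τ0 z0 i| + |y0 i|) :=
    Finset.sum_nonneg fun i _ => div_nonneg (abs_nonneg _) (hW i).le
  rcases le_or_gt N hj with hcase | hcase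
  · -- `h` dominates
    have e1 : |s2 - s1| + N ≤ (3 + 2 * K) * hj := by
      have : 2 * K * N ≤ 2 * K * hj := by gcongr
      linarith
    calc |s2 - s1| + N ≤ (3 + 2 * K) * hj := e1
      _ ≤ max (3 + 2 * K) ((3 + 2 * K) * (Ct * 2)) * hj := by
          gcongr
          exact le_max_left _ _
      _ ≤ _ := by
          gcongr
          linarith
  · -- the two-point lemma
    have e1 : |s2 - s1| ≤ (2 + 2 * K) * N := by
      linarith
    have e2 : N ≤ Ct * (∑ i, |UU α d r (g1 α r t y x1 s1) (gn α d r t y s1) (gw y x s1) τ2 z2 i -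
            UU α d r (g1 α r t y x1 s1) (gn α d r t y s1) (gw y x s1) τ1 z1 i +
            (s2 - s1) * Ny α d r t y τ2 z2 i| /
              el α d r (g1 α r t y x1 s0) (gn α d r t y s0) τ0 z0 i +
              |e0 * (τ2 - τ1) + ∑ k, e k * (z2 k - z1 k)|) := by
      refine TP τ1 z1 τ2 z2 (hbx hz1) (hbx hz2) _ _ _ hg1 hgn (fun i => ?_) _ (fun i => ?_)
      · refine (hL1 i).trans ?_
        have e3 := hel i
        have e4 := (hW i).le
        calc c1 * (|gL α d r t y x1 s0 τ0 z0 i| + |y0 i|)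
            ≤ ct / 4 * (2 * el α d r (g1 α r t y x1 s0) (gn α d r t y s0) τ0 z0 i) :=
              mul_le_mul h4N e3 e4 (by positivity)
          _ ≤ ct * el α d r (g1 α r t y x1 s0) (gn α d r t y s0) τ0 z0 i := by
              have : 0 ≤ el α d r (g1 α r t y x1 s0) (gn α d r t y s0) τ0 z0 i := by linarith
              nlinarith
      · rw [abs_mul]
        have e3 := hel i
        have e5 := abs_nonneg (gL α d r t y x1 s0 τ0 z0 i)
        have e6 : |y0 i| ≤ 2 * el α d r (g1 α r t y x1 s0) (gn α d r t y s0) τ0 z0 i := by linarith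
        have e7 : 0 < 4 * (2 + 2 * K) * CN := by positivity
        have e8 : c0 * (4 * (2 + 2 * K) * CN) ≤ ct := by
          have := hc01.trans h3N
          rwa [le_div_iff₀ e7] at this
        calc |s2 - s1| * |Ny α d r t y τ2 z2 i| ≤ (2 + 2 * K) * N * (CN * c0 * |y0 i|) :=
              mul_le_mul e1 (n3 i) (abs_nonneg _) (by positivity)
          _ ≤ (2 + 2 * K) * N * (CN * c0 *
                (2 * el α d r (g1 α r t y x1 s0) (gn α d r t y s0) τ0 z0 i)) := by gcongr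
          _ = (c0 * (4 * (2 + 2 * K) * CN)) / 2 *
                el α d r (g1 α r t y x1 s0) (gn α d r t y s0) τ0 z0 i * N := by ring
          _ ≤ ct * el α d r (g1 α r t y x1 s0) (gn α d r t y s0) τ0 z0 i * N := by
              have : 0 ≤ el α d r (g1 α r t y x1 s0) (gn α d r t y s0) τ0 z0 i := by
                have := (hW i).le
                linarith
              gcongr
              linarith
    have e3 : ∀ i, |UU α d r (g1 α r t y x1 s1) (gn α d r t y s1) (gw y x s1) τ2 z2 i -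
            UU α d r (g1 α r t y x1 s1) (gn α d r t y s1) (gw y x s1) τ1 z1 i +
            (s2 - s1) * Ny α d r t y τ2 z2 i| /
              el α d r (g1 α r t y x1 s0) (gn α d r t y s0) τ0 z0 i ≤
        2 * (|gU α d r t y x1 x s2 τ2 z2 i - gU α d r t y x1 x s1 τ1 z1 i| /
              (|gL α d r t y x1 s0 τ0 z0 i| + |y0 i|)) := by
      intro i
      have e4 : UU α d r (g1 α r t y x1 s1) (gn α d r t y s1) (gw y x s1) τ2 z2 i -
            UU α d r (g1 α r t y x1 s1) (gn α d r t y s1) (gw y x s1) τ1 z1 i +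
            (s2 - s1) * Ny α d r t y τ2 z2 i =
          gU α d r t y x1 x s2 τ2 z2 i - gU α d r t y x1 x s1 τ1 z1 i := by
        unfold gU Ny UU LL g1 gn gw
        ring
      rw [e4, ← mul_div_assoc, div_le_div_iff₀ (by have := hW i; have := hel i; linarith) (hW i)]
      have e5 := hel i
      calc |gU α d r t y x1 x s2 τ2 z2 i - gU α d r t y x1 x s1 τ1 z1 i| *
            (|gL α d r t y x1 s0 τ0 z0 i| + |y0 i|)
          ≤ |gU α d r t y x1 x s2 τ2 z2 i - gU α d r t y x1 x s1 τ1 z1 i| *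
            (2 * el α d r (g1 α r t y x1 s0) (gn α d r t y s0) τ0 z0 i) := by gcongr
        _ = _ := by ring
    have e4 := Finset.sum_le_sum fun i (_ : i ∈ Finset.univ) => e3 i
    rw [← Finset.mul_sum] at e4
    set q := |e0 * (τ2 - τ1) + ∑ k, e k * (z2 k - z1 k)| with hq
    set G := ∑ i, |gU α d r t y x1 x s2 τ2 z2 i - gU α d r t y x1 x s1 τ1 z1 i| /
      (|gL α d r t y x1 s0 τ0 z0 i| + |y0 i|) with hG
    have e5 : N ≤ Ct * 2 * (hj + q + G) := by
      calc N ≤ _ := e2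
        _ ≤ Ct * (2 * G + q) := by gcongr
        _ ≤ Ct * (2 * (hj + q + G)) := by
            gcongr
            linarith
        _ = _ := by ring
    calc |s2 - s1| + N ≤ (3 + 2 * K) * N := by linarith
      _ ≤ (3 + 2 * K) * (Ct * 2 * (hj + q + G)) := by gcongr
      _ = (3 + 2 * K) * (Ct * 2) * (hj + q + G) := by ring
      _ ≤ _ := by
          gcongr
          exact le_max_right _ _

end Pool.Agent.LQN
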