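import Pool.Agent.LQN.NEARI

/-!
LQN, row NEARS: the volume of the near part.
-/

set_option autoImplicit false

namespace Pool.Agent.LQN

open MeasureTheory Set
open scoped ENNReal NNReal

variable {m : ℕ}

/-- The volume of a box of `ℝ × (ℝ × ℝ^m)`. -/
theorem vol_box3 (a b L0 L1 : ℝ) (L : Fin m → ℝ) (hL0 : 0 ≤ L0) (hL1 : 0 ≤ L1)
    (hL : ∀ i, 0 ≤ L i) :
    volume {u : ℝ × (ℝ × (Fin m → ℝ)) | |u.1 - a| ≤ L0 ∧ |u.2.1 - b| ≤ L1 ∧
      ∀ i, |u.2.2 i| ≤ L i} = ENNReal.ofReal ((2 * L0) * ((2 * L1) * ∏ i, (2 * L i))) := by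
  have h1 : {u : ℝ × (ℝ × (Fin m → ℝ)) | |u.1 - a| ≤ L0 ∧ |u.2.1 - b| ≤ L1 ∧
      ∀ i, |u.2.2 i| ≤ L i} = Icc (a - L0) (a + L0) ×ˢ (Icc (b - L1) (b + L1) ×ˢ
        Icc (fun i => -L i) fun i => L i) := by
    ext u
    simp only [mem_ofPred_eq, mem_prod, mem_Icc, abs_le, Pi.le_def]
    constructor
    · rintro ⟨⟨h1, h2⟩, ⟨h3, h4⟩, h5⟩
      exact ⟨⟨by linarith, by linarith⟩, ⟨by linarith, by linarith⟩, fun i => (h5 i).1,
        fun i => (h5 i).2⟩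
    · rintro ⟨⟨h1, h2⟩, ⟨h3, h4⟩, h5, h6⟩
      exact ⟨⟨by linarith, by linarith⟩, ⟨by linarith, by linarith⟩, fun i => ⟨h5 i, h6 i⟩⟩
  rw [h1, Measure.volume_eq_prod, Measure.prod_prod, Measure.volume_eq_prod, Measure.prod_prod,
    Real.volume_Icc, Real.volume_Icc, Real.volume_Icc_pi, ← ENNReal.ofReal_prod_of_nonneg
      (fun i _ => by have := hL i; linarith), ← ENNReal.ofReal_mul (by linarith),
    ← ENNReal.ofReal_mul (by linarith)]
  congr 2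
  · ring
  congr 1
  · ring
  refine Finset.prod_congr rfl fun i _ => ?_
  ring

/-- ROW NEARS. -/
theorem nears {α : ℝ} {r : Fin m → ℝ} (hm : 1 ≤ m) (h : Hyp α r) {κ : ℝ} (hκ : 0 < κ)
    (hκ1 : κ ≤ 1) : ∃ C c1 : ℝ, 0 < C ∧ 0 < c1 ∧ ∀ c0, 0 < c0 → c0 ≤ c1 →
      ∀ d, 0 ≤ d → d ≤ 1 → ∀ t0 y0, Rg κ α d r t0 y0 → (∀ i, y0 i ≠ 0) → ∀ R Λ, 1 ≤ R →
      (∀ i, 1 ≤ R * y0 i ^ 2) → 0 < Λ → Λ ≤ c1 * R → ∀ t y, Bx c0 t0 y0 t y → ∀ ρ, 0 < ρ →
      ∀ (x1 : ℝ) (x : Fin m → ℝ),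
      volume {q : ℝ × (ℝ × (Fin m → ℝ)) | Bx c0 t0 y0 q.2.1 q.2.2 ∧ nn t y q.2.1 q.2.2 ≤ ρ ∧
          WA R (g1 α r t y x1 q.1) (gw y x q.1) (gn α d r t y q.1) ∧
          ∀ i, |gU α d r t y x1 x q.1 q.2.1 q.2.2 i| ≤ Λ} ≤
        ENNReal.ofReal (C * ρ * R * (Λ / R) ^ m * (1 + Real.log R) ^ m) := by
  classical
  obtain ⟨cb, hcb, hcb8, BX⟩ := box_sub h hκ hκ1
  have hκ4 : 0 < κ / 4 := by positivity
  have hκ41 : κ / 4 ≤ 1 := by linarith
  obtain ⟨cw, hcw, W1⟩ := row_W1 (α := α) (r := r) hκ4 hκ41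
  set κ2 : ℝ := min (κ / 4) (min cw (1 / 8)) with hκ2
  have hκ2p : 0 < κ2 := lt_min hκ4 (lt_min hcw (by norm_num))
  have hκ24 : κ2 ≤ κ / 4 := min_le_left _ _
  have hκ2w : κ2 ≤ cw := (min_le_right _ _).trans (min_le_left _ _)
  have hκ28 : κ2 ≤ 1 / 8 := (min_le_right _ _).trans (min_le_right _ _)
  have hκ21 : κ2 ≤ 1 := by linarith
  have hκ2i : 8 ≤ κ2⁻¹ := by
    rw [le_inv_comm₀ (by norm_num) hκ2p]
    linarith
  obtain ⟨C0, cf, hC0, hcf, NI⟩ := neari h hκ2p hκ21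
  obtain ⟨cp, hcp, hcp1, PE⟩ := pel hm h hκ2p hκ21
  set δ : ℝ := min (cf / 2) (1 / 4) with hδ
  have hδ0 : 0 < δ := lt_min (by positivity) (by norm_num)
  have hδf : 2 * δ ≤ cf := by
    have : δ ≤ cf / 2 := min_le_left _ _
    linarith
  have hδ4 : δ ≤ 1 / 4 := min_le_right _ _
  -- constants
  set KL : ℝ := ∑ i, (1 + |r i|) * κ2⁻¹ * 8 with hKL
  have hKLi : ∀ i, (1 + |r i|) * κ2⁻¹ * 8 ≤ KL := fun i =>
    Finset.single_le_sum (f := fun i => (1 + |r i|) * κ2⁻¹ * 8) (fun i _ => by positivity)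
      (Finset.mem_univ i)
  have hKL0 : 0 ≤ KL := Finset.sum_nonneg fun i _ => by positivity
  set Ks : ℝ := 4 * κ2⁻¹ with hKs
  obtain ⟨CP, hCP, IX⟩ := ix_mem (m := m) hδ0 (by positivity : 0 ≤ Ks) hKL0
  set c : ℝ := 1 / (C0 * (m + 2)) with hc
  have hc0' : 0 < c := by positivity
  refine ⟨CP * ((1 / c) ^ (m + 2) * (4 * 2 ^ m / cp ^ m)), min cf (min cb (min 1 cw)),
    by positivity, lt_min hcf (lt_min hcb (lt_min one_pos hcw)), ?_⟩
  intro c0 hc0 hc01 d hd0 hd1 t0 y0 hRg hy0 R Λ hR hRν hΛ hΛR t y hp ρ hρ0 x1 x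
  have hc0f : c0 ≤ cf := hc01.trans (min_le_left _ _)
  have hc0b : c0 ≤ cb := hc01.trans ((min_le_right _ _).trans (min_le_left _ _))
  have hR0 : 0 < R := by linarith
  have hΛw : Λ / R ≤ cw := by
    rw [div_le_iff₀ hR0]
    refine hΛR.trans ?_
    have : min cf (min cb (min 1 cw)) ≤ cw := (min_le_right _ _).trans
      ((min_le_right _ _).trans (min_le_right _ _))
    gcongr
  have hl : 0 ≤ Real.log R := Real.log_nonneg hR
  obtain ⟨P, hPc, hPm⟩ := IX R hR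
  -- regions
  have hbx : ∀ {τ z}, Bx c0 t0 y0 τ z → Bx cb t0 y0 τ z := fun {τ z} hz =>
    ⟨hz.1.trans hc0b, fun i => (hz.2 i).trans (by gcongr)⟩
  have hrg : ∀ {τ z}, Bx c0 t0 y0 τ z → Rg (κ / 4) α d r τ z := fun {τ z} hz =>
    BX d hd0 hd1 t0 y0 τ z hRg (hbx hz)
  have hrg2 : ∀ {τ z}, Bx c0 t0 y0 τ z → Rg κ2 α d r τ z := fun {τ z} hz =>
    (hrg hz).mono hκ2p hκ24
  have hRg2 : Rg κ2 α d r t0 y0 := hRg.mono hκ2p (by linarith)
  have hA := (hrg hp).A_ge hκ4 hκ41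
  have hH := (hrg hp).H_ge hκ4 hκ41
  have hA0 : 0 < AA α r t y := hκ4.trans_le hA
  have hH0 : 0 < HH α d r t y := hκ4.trans_le hH
  -- the set
  set S : Set (ℝ × (ℝ × (Fin m → ℝ))) := {q | Bx c0 t0 y0 q.2.1 q.2.2 ∧
    nn t y q.2.1 q.2.2 ≤ ρ ∧ WA R (g1 α r t y x1 q.1) (gw y x q.1) (gn α d r t y q.1) ∧
    ∀ i, |gU α d r t y x1 x q.1 q.2.1 q.2.2 i| ≤ Λ} with hS
  have mS : MeasurableSet S := by
    have h1 : MeasurableSet {q : ℝ × (ℝ × (Fin m → ℝ)) | Bx c0 t0 y0 q.2.1 q.2.2} := by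
      have e1 : MeasurableSet {q : ℝ × (Fin m → ℝ) | Bx c0 t0 y0 q.1 q.2} := by
        have e2 : Measurable fun q : ℝ × (Fin m → ℝ) => |q.1 - t0| := by fun_prop
        unfold Bx
        exact (measurableSet_le e2 measurable_const).inter (measurable_snd (m_box c0 y0))
      exact measurable_snd e1
    have h2 : MeasurableSet {q : ℝ × (ℝ × (Fin m → ℝ)) | nn t y q.2.1 q.2.2 ≤ ρ} :=
      measurableSet_le ((m_nn t y).comp measurable_snd) measurable_const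
    have h3 : MeasurableSet {q : ℝ × (ℝ × (Fin m → ℝ)) |
        WA R (g1 α r t y x1 q.1) (gw y x q.1) (gn α d r t y q.1)} :=
      measurable_fst (m_WA α d r t y x1 x R)
    have h4 : MeasurableSet {q : ℝ × (ℝ × (Fin m → ℝ)) |
        ∀ i, |gU α d r t y x1 x q.1 q.2.1 q.2.2 i| ≤ Λ} := by
      have : {q : ℝ × (ℝ × (Fin m → ℝ)) | ∀ i, |gU α d r t y x1 x q.1 q.2.1 q.2.2 i| ≤ Λ} =
          ⋂ i, {q : ℝ × (ℝ × (Fin m → ℝ)) | |gU α d r t y x1 x q.1 q.2.1 q.2.2 i| ≤ Λ} := by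
        ext q
        simp
      rw [this]
      refine MeasurableSet.iInter fun i => ?_
      exact measurableSet_le ((m_gU α d r t y x1 x i).abs) measurable_const
    exact h1.inter (h2.inter (h3.inter h4))
  -- facts at a point of `S`
  have hpt : ∀ q ∈ S, κ2 ≤ |g1 α r t y (x1 / R) (q.1 / R)| + |gn α d r t y (q.1 / R)| ∧
      |g1 α r t y (x1 / R) (q.1 / R)| + |gn α d r t y (q.1 / R)| ≤ 8 ∧ |q.1 / R| ≤ Ks ∧
      ∀ i, |gL α d r t y x1 q.1 q.2.1 q.2.2 i / R| ≤ KL := by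
    intro q hq
    have hqb : Bx c0 t0 y0 q.2.1 q.2.2 := hq.1
    have hw := ww_sc α d r t y x1 x q.1 R
    have hw1 : 1 / 16 ≤ ww (g1 α r t y (x1 / R) (q.1 / R)) (gw y (fun i => x i / R) (q.1 / R))
        (gn α d r t y (q.1 / R)) := by
      rw [hw, le_div_iff₀ (by positivity)]
      have := hq.2.2.1.1
      nlinarith [sq_nonneg R]
    have hw2 : ww (g1 α r t y (x1 / R) (q.1 / R)) (gw y (fun i => x i / R) (q.1 / R))
        (gn α d r t y (q.1 / R)) ≤ 4 ^ 2 := by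
      rw [hw, div_le_iff₀ (by positivity)]
      have := hq.2.2.1.2
      linarith
    obtain ⟨h5, h6⟩ := kb_ww_le (by norm_num) hw2
    have h1 := W1 d hd0 hd1 q.2.1 q.2.2 _ _ _ (hrg hqb) hw1 (fun i => by
      have := gU_sc α d r t y x1 x q.1 q.2.1 q.2.2 R i
      unfold gU at this
      rw [this, abs_div, abs_of_pos hR0]
      exact le_trans (div_le_div_of_nonneg_right (hq.2.2.2 i) hR0.le) hΛw)
    refine ⟨hκ2w.trans h1, by linarith, ?_, fun i => ?_⟩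
    · have h7 : |gn α d r t y (q.1 / R)| = |q.1 / R| * HH α d r t y := by
        unfold gn
        rw [abs_neg, abs_mul, abs_of_pos hH0]
      rw [h7] at h6
      have h8 : κ2 ≤ HH α d r t y := hκ24.trans hH
      rw [hKs, ← div_eq_mul_inv, le_div_iff₀ hκ2p]
      calc |q.1 / R| * κ2 ≤ |q.1 / R| * HH α d r t y := by gcongr
        _ ≤ 4 := h6
    · rw [← gL_sc]
      unfold gL
      refine (kb_LL_le hκ2p hκ21 (hrg2 hqb) _ _ i).trans
        ((mul_le_mul_of_nonneg_left ?_ (by positivity)).trans (hKLi i))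
      linarith
  -- the pieces
  set f : ℝ × (ℝ × (Fin m → ℝ)) → ℤ × (Fin m → ℤ) := fun q =>
    ix α d r t y y0 x1 R δ q.1 q.2.1 q.2.2 with hf
  have mf : Measurable f := m_ix α d r t y y0 x1 R δ
  set B : ℝ≥0∞ := ENNReal.ofReal ((1 / c) ^ (m + 2) * (4 * 2 ^ m / cp ^ m) *
    (ρ * R * (Λ / R) ^ m)) with hB
  have hpieces := sum_pieces (μ := volume) S f (fun k => mS.inter (mf (measurableSet_singleton k))) P
    (fun q hq => hPm α d r t y y0 x1 q.1 q.2.1 q.2.2 hRν (hpt q hq).2.2.1 (hpt q hq).2.2.2)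
    (fun _ => 1) B ?_
  · rw [setLIntegral_one] at hpieces
    refine hpieces.trans ?_
    have h1 : (P.card : ℝ≥0∞) = ENNReal.ofReal (P.card : ℝ) := (ENNReal.ofReal_natCast _).symm
    rw [h1, hB, ← ENNReal.ofReal_mul (by positivity)]
    refine ENNReal.ofReal_le_ofReal ?_
    calc (P.card : ℝ) * ((1 / c) ^ (m + 2) * (4 * 2 ^ m / cp ^ m) * (ρ * R * (Λ / R) ^ m))
        ≤ CP * (1 + Real.log R) ^ m *
          ((1 / c) ^ (m + 2) * (4 * 2 ^ m / cp ^ m) * (ρ * R * (Λ / R) ^ m)) := by gcongr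
      _ = _ := by ring
  · intro k _
    rw [setLIntegral_one]
    rcases (S ∩ f ⁻¹' {k}).eq_empty_or_nonempty with he | ⟨q0, hq0, hk0⟩
    · rw [he, measure_empty]
      exact zero_le
    have hk0' : f q0 = k := hk0
    obtain ⟨p1, p2, p3, p4⟩ := hpt q0 hq0
    obtain ⟨e0, e, he0, he, NI⟩ := NI c0 hc0 hc0f d hd0 hd1 t0 y0 hRg2 hy0 t y hp (x1 / R)
      (fun i => x i / R) (q0.1 / R) q0.2.1 q0.2.2 hq0.1 p1 (p2.trans hκ2i)
    obtain ⟨j, hj⟩ := PE d hd0 hd1 q0.2.1 q0.2.2 _ _ (hrg2 hq0.1) p1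
    set W : Fin m → ℝ := fun i => |gL α d r t y x1 q0.1 q0.2.1 q0.2.2 i / R| + |y0 i| with hW
    have hW0 : ∀ i, 0 < W i := fun i => by
      have : 0 < |y0 i| := abs_pos.2 (hy0 i)
      simp only [hW]
      positivity
    set Ψ : ℝ × (ℝ × (Fin m → ℝ)) → ℝ × (ℝ × (Fin m → ℝ)) := fun q =>
      (gL α d r t y x1 q.1 q.2.1 q.2.2 j / R, (e0 * q.2.1 + ∑ k, e k * q.2.2 k,
        fun i => gU α d r t y x1 x q.1 q.2.1 q.2.2 i / R / W i)) with hΨ
    have hcl : ∀ q ∈ S ∩ f ⁻¹' {k}, |q.1 / R - q0.1 / R| ≤ δ ∧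
        ∀ i, |gL α d r t y x1 q.1 q.2.1 q.2.2 i / R - gL α d r t y x1 q0.1 q0.2.1 q0.2.2 i / R| ≤
          2 * δ * W i := by
      intro q hq
      have h1 : ix α d r t y y0 x1 R δ q0.1 q0.2.1 q0.2.2 = ix α d r t y y0 x1 R δ q.1 q.2.1 q.2.2 := by
        have h2 : f q = k := hq.2
        exact hk0'.trans h2.symm
      exact ix_close hδ0 (by linarith) hy0 h1
    have hlow : ∀ q1 ∈ S ∩ f ⁻¹' {k}, ∀ q2 ∈ S ∩ f ⁻¹' {k},
        |q1.1 - q2.1| / R + nn q2.2.1 q2.2.2 q1.2.1 q1.2.2 ≤ C0 * (m + 2) * ‖Ψ q1 - Ψ q2‖ := by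
      intro q1 hq1 q2 hq2
      have h1 := NI (q2.1 / R) (q1.1 / R) q2.2.1 q1.2.1 q2.2.2 q1.2.2 hq2.1.1 hq1.1.1
        ((hcl q2 hq2).1.trans (by linarith)) (fun i => by
          rw [gL_sc, gL_sc]
          refine ((hcl q2 hq2).2 i).trans ?_
          have := (hW0 i).le
          simp only [hW] at this ⊢
          gcongr) j
      simp only [gL_sc, gU_sc] at h1
      rw [← sub_div, abs_div, abs_of_pos hR0] at h1
      have a1 : |gL α d r t y x1 q1.1 q1.2.1 q1.2.2 j / R - gL α d r t y x1 q2.1 q2.2.1 q2.2.2 j / R| ≤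
          ‖Ψ q1 - Ψ q2‖ := norm_fst_le (Ψ q1 - Ψ q2)
      have a2 : |e0 * (q1.2.1 - q2.2.1) + ∑ k, e k * (q1.2.2 k - q2.2.2 k)| ≤ ‖Ψ q1 - Ψ q2‖ := by
        have : e0 * (q1.2.1 - q2.2.1) + ∑ k, e k * (q1.2.2 k - q2.2.2 k) =
            (e0 * q1.2.1 + ∑ k, e k * q1.2.2 k) - (e0 * q2.2.1 + ∑ k, e k * q2.2.2 k) := by
          simp only [mul_sub, Finset.sum_sub_distrib]
          ring
        rw [this]
        exact (norm_fst_le (Ψ q1 - Ψ q2).2).trans (norm_snd_le (Ψ q1 - Ψ q2))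
      have a3 : ∀ i, |gU α d r t y x1 x q1.1 q1.2.1 q1.2.2 i / R -
          gU α d r t y x1 x q2.1 q2.2.1 q2.2.2 i / R| / W i ≤ ‖Ψ q1 - Ψ q2‖ := by
        intro i
        have : |gU α d r t y x1 x q1.1 q1.2.1 q1.2.2 i / R -
          gU α d r t y x1 x q2.1 q2.2.1 q2.2.2 i / R| / W i =
          ‖(Ψ q1 - Ψ q2).2.2 i‖ := by
          show _ = ‖gU α d r t y x1 x q1.1 q1.2.1 q1.2.2 i / R / W i -
            gU α d r t y x1 x q2.1 q2.2.1 q2.2.2 i / R / W i‖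
          rw [← sub_div _ _ (W i), Real.norm_eq_abs, abs_div _ (W i), abs_of_pos (hW0 i)]
        rw [this]
        exact (norm_le_pi_norm _ i).trans ((norm_snd_le _).trans (norm_snd_le _))
      have a4 : ∑ i, |gU α d r t y x1 x q1.1 q1.2.1 q1.2.2 i / R -
          gU α d r t y x1 x q2.1 q2.2.1 q2.2.2 i / R| / W i ≤ ∑ _i : Fin m, ‖Ψ q1 - Ψ q2‖ :=
        Finset.sum_le_sum fun i _ => a3 i
      rw [Finset.sum_const, Finset.card_univ, Fintype.card_fin, nsmul_eq_mul] at a4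
      refine h1.trans ?_
      rw [mul_assoc]
      refine mul_le_mul_of_nonneg_left ?_ hC0.le
      simp only [hW] at a4
      linarith
    have key := al_vol2 (S ∩ f ⁻¹' {k}) Ψ (D0 := 1 / R) (by positivity) hc0' (fun q1 hq1 q2 hq2 => by
        have h1 := hlow q1 hq1 q2 hq2
        have h2 := NR.nn_nonneg q2.2.1 q2.2.2 q1.2.1 q1.2.2
        rw [hc, one_div (C0 * _), inv_mul_le_iff₀ (by positivity), one_div_mul_eq_div]
        linarith)
      (fun q1 hq1 q2 hq2 => by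
        have h1 := hlow q1 hq1 q2 hq2
        have h2 : |q1.2.1 - q2.2.1| ≤ nn q2.2.1 q2.2.2 q1.2.1 q1.2.2 := by
          unfold nn
          have : 0 ≤ ∑ i, |q1.2.2 i - q2.2.2 i| := Finset.sum_nonneg fun _ _ => abs_nonneg _
          linarith
        have h3 : 0 ≤ |q1.1 - q2.1| / R := by positivity
        rw [hc, one_div, inv_mul_le_iff₀ (by positivity)]
        linarith)
      (fun q1 hq1 q2 hq2 i => by
        have h1 := hlow q1 hq1 q2 hq2
        have h2 : |q1.2.2 i - q2.2.2 i| ≤ nn q2.2.1 q2.2.2 q1.2.1 q1.2.2 := by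
          unfold nn
          have e1 : |q1.2.2 i - q2.2.2 i| ≤ ∑ i, |q1.2.2 i - q2.2.2 i| :=
            Finset.single_le_sum (f := fun i => |q1.2.2 i - q2.2.2 i|)
              (fun i _ => abs_nonneg _) (Finset.mem_univ i)
          have e2 := abs_nonneg (q1.2.1 - q2.2.1)
          linarith
        have h3 : 0 ≤ |q1.1 - q2.1| / R := by positivity
        rw [hc, one_div, inv_mul_le_iff₀ (by positivity)]
        linarith)
    -- the image
    have himg : Ψ '' (S ∩ f ⁻¹' {k}) ⊆ {u : ℝ × (ℝ × (Fin m → ℝ)) |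
        |u.1 - gL α d r t y x1 q0.1 q0.2.1 q0.2.2 j / R| ≤ W j ∧
        |u.2.1 - (e0 * t + ∑ k, e k * y k)| ≤ ρ ∧ ∀ i, |u.2.2 i| ≤ Λ / R / W i} := by
      rintro _ ⟨q, hq, rfl⟩
      refine ⟨?_, ?_, fun i => ?_⟩
      · refine ((hcl q hq).2 j).trans ?_
        have := hW0 j
        nlinarith
      · have h1 : (Ψ q).2.1 - (e0 * t + ∑ k, e k * y k) =
            e0 * (q.2.1 - t) + ∑ k, e k * (q.2.2 k - y k) := by
          show (e0 * q.2.1 + ∑ k, e k * q.2.2 k) - _ = _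
          simp only [mul_sub, Finset.sum_sub_distrib]
          ring
        rw [h1]
        have h2 : |∑ k, e k * (q.2.2 k - y k)| ≤ ∑ k, |q.2.2 k - y k| := by
          refine (Finset.abs_sum_le_sum_abs _ _).trans (Finset.sum_le_sum fun k _ => ?_)
          rw [abs_mul]
          exact mul_le_of_le_one_left (abs_nonneg _) (he k)
        have h3 : |e0 * (q.2.1 - t)| ≤ |q.2.1 - t| := by
          rw [abs_mul]
          exact mul_le_of_le_one_left (abs_nonneg _) he0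
        have h4 := hq.1.2.1
        unfold nn at h4
        exact (abs_add_le _ _).trans (by linarith)
      · show |gU α d r t y x1 x q.1 q.2.1 q.2.2 i / R / W i| ≤ _
        rw [abs_div, abs_div, abs_of_pos hR0, abs_of_pos (hW0 i)]
        have h1 := hq.1.2.2.2 i
        have h2 := hW0 i
        gcongr
    have hvol := measure_mono (μ := (volume : Measure (ℝ × (ℝ × (Fin m → ℝ))))) himg
    rw [vol_box3 _ _ _ _ _ (hW0 j).le hρ0.le (fun i => by have := hW0 i; positivity)] at hvol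
    refine (key.trans (mul_le_mul_right hvol _)).trans ?_
    rw [hB, ← ENNReal.ofReal_mul (by positivity)]
    refine ENNReal.ofReal_le_ofReal ?_
    -- the product
    have h2 : W j * cp ^ (m - 1) ≤ ∏ i, W i := by
      refine prod_low W j hcp.le (hW0 j).le (fun i hi => ?_) le_rfl
      have h3 := hj i hi
      have h4 : |LL α d r (g1 α r t y (x1 / R) (q0.1 / R)) (gn α d r t y (q0.1 / R)) q0.2.1 q0.2.2 i| =
          |gL α d r t y x1 q0.1 q0.2.1 q0.2.2 i / R| := by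
        rw [← gL_sc]
        rfl
      rw [h4] at h3
      simp only [hW]
      have := abs_nonneg (y0 i)
      linarith
    have h3 : W j * cp ^ m ≤ ∏ i, W i := by
      refine le_trans ?_ h2
      have := (hW0 j).le
      refine mul_le_mul_of_nonneg_left ?_ this
      exact pow_le_pow_of_le_one hcp.le hcp1 (by omega)
    have hPW : 0 < ∏ i, W i := Finset.prod_pos fun i _ => hW0 i
    have h4 : ∏ i, (2 * (Λ / R / W i)) = (2 * (Λ / R)) ^ m / ∏ i, W i := by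
      have : ∀ i, 2 * (Λ / R / W i) = 2 * (Λ / R) / W i := fun i => by ring
      simp only [this]
      rw [Finset.prod_div_distrib, Finset.prod_const, Finset.card_univ, Fintype.card_fin]
    rw [h4, div_div_eq_mul_div, div_one]
    have h5 : 2 * W j * (2 * ρ * ((2 * (Λ / R)) ^ m / ∏ i, W i)) ≤
        4 * 2 ^ m / cp ^ m * (ρ * (Λ / R) ^ m) := by
      have e1 : 2 * W j * (2 * ρ * ((2 * (Λ / R)) ^ m / ∏ i, W i)) =
          4 * 2 ^ m * (ρ * (Λ / R) ^ m) * (W j / ∏ i, W i) := by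
        rw [mul_pow]
        ring
      have e2 : W j / ∏ i, W i ≤ 1 / cp ^ m := by
        rw [div_le_div_iff₀ hPW (by positivity)]
        linarith
      rw [e1]
      calc 4 * 2 ^ m * (ρ * (Λ / R) ^ m) * (W j / ∏ i, W i)
          ≤ 4 * 2 ^ m * (ρ * (Λ / R) ^ m) * (1 / cp ^ m) := by gcongr
        _ = _ := by ring
    calc (1 / c) ^ (m + 2) * R * (2 * W j * (2 * ρ * ((2 * (Λ / R)) ^ m / ∏ i, W i)))
        ≤ (1 / c) ^ (m + 2) * R * (4 * 2 ^ m / cp ^ m * (ρ * (Λ / R) ^ m)) := by gcongr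
      _ = _ := by ring

end Pool.Agent.LQN
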