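import Pool.Agent.LQN.PIECE1

/-!
LEAFQ for every `n = m + 2`, row PIECE, part 2b: from the iterated integral to the operator of the
chart.
-/

set_option autoImplicit false

namespace Pool.Agent.LQN

open MeasureTheory Set Filter Topology Pool.Agent.MP_6cbfb8_an Pool.Agent.LF
open Pool.Agent.LQ (kc kc_smooth kc_eq kc_zero psd psd_smooth psd_zero psd_le)
open scoped RealInnerProductSpace ContDiff Real

variable {m : ℕ}

/-- The integrand over the disc. -/
noncomputable def Fg (g : E (m + 2) → ℂ) (ξ : E (m + 2)) (u : ℝ) (y : E m) : ℂ :=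
  g (pt u y.ofLp √(1 - u ^ 2 - ∑ i, y i ^ 2)) *
    ((1 / √(1 - u ^ 2 - ∑ i, y i ^ 2) : ℝ) : ℂ) *
    Complex.exp (((-(2 * π * (u * ξ 0 + ∑ i : Fin m, y i * ξ i.succ.castSucc +
      √(1 - u ^ 2 - ∑ i, y i ^ 2) * ξ (Fin.last (m + 1)))) : ℝ) : ℂ) * Complex.I)

/-- The density of `piece`. -/
noncomputable def fp (b : Fin (m + 2) → ℝ) (g0 : ℝ → ℝ) (G : ℝ → E (m + 2) → ℂ)
    (x : E (m + 2)) : ℂ :=
  if 0 < x 0 then (g0 (x 0 ^ 2 / ∑ j : Fin (m + 1), x j.castSucc ^ 2) : ℂ) *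
    G (∑ i, b i * x i ^ 2) x else 0

/-- The dyadic piece. -/
noncomputable def fl (b : Fin (m + 2) → ℝ) (g0 : ℝ → ℝ) (G : ℝ → E (m + 2) → ℂ) (l : ℕ)
    (x : E (m + 2)) : ℂ :=
  (psd (4 ^ l * ∑ j : Fin (m + 1), x j.castSucc ^ 2) : ℂ) * fp b g0 G x

theorem p2_sum_cs {M : Type*} [AddCommMonoid M] (f : Fin (m + 2) → M) :
    ∑ j : Fin (m + 1), f j.castSucc = f 0 + ∑ i : Fin m, f i.succ.castSucc := by
  rw [Fin.sum_univ_succ]
  rfl

theorem p2_sum3 {M : Type*} [AddCommMonoid M] (f : Fin (m + 2) → M) :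
    ∑ i, f i = f 0 + ∑ i : Fin m, f i.succ.castSucc + f (Fin.last (m + 1)) := by
  rw [Fin.sum_univ_castSucc, p2_sum_cs]

/-- The value of the amplitude. -/
theorem cf_val {κ k0 α : ℝ} {r : Fin m → ℝ} (hα : α ≠ 0) (hκ : 0 < κ) (hk0 : 0 < k0)
    (hk : κ ≤ k0 / 4) (hk2 : κ ≤ k0 ^ 2) {g0 : ℝ → ℝ} (hg0 : ∀ v ≤ k0, g0 v = 0) {d t : ℝ}
    {y : E m} (hH : k0 < HH α d r t y.ofLp) :
    cf κ α r g0 (d, (t, y)) = g0 (rr α r t y.ofLp / ss α r t y.ofLp) * psd (ss α r t y.ofLp) *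
      (1 / (2 * |α| * AA α r t y.ofLp * HH α d r t y.ofLp)) := by
  unfold cf
  simp only
  have h1 : κ < 1 - d ^ 2 * ss α r t y.ofLp := by
    by_contra h
    have h2 : HH α d r t y.ofLp ≤ k0 := by
      unfold HH
      rw [Real.sqrt_le_left hk0.le]
      linarith [not_lt.1 h]
    linarith
  have h40 : (0 : ℝ) < 4 / κ := by positivity
  have hkk : 4 / κ * κ = 4 := by field_simp
  set r1 := rr α r t y.ofLp with hr
  set s := ss α r t y.ofLp with hs
  by_cases hp : psd s = 0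
  · rw [hp]; ring
  have hs1 : 1 / 4 < s := by
    by_contra h4
    exact hp (psd_zero (Or.inl (not_lt.1 h4)))
  rw [kc_eq (by linarith : (4 : ℝ) ≤ 16 * s), mul_one_div]
  by_cases hg : g0 (r1 / s) = 0
  · rw [hg]; ring
  have hr1 : k0 < r1 / s := by
    by_contra h4
    exact hg (hg0 _ (not_lt.1 h4))
  have hr2 : κ < r1 := by
    rw [lt_div_iff₀ (by linarith)] at hr1
    nlinarith
  rw [kc_eq (hkk.symm.le.trans (mul_le_mul_of_nonneg_left hr2.le h40.le)),
    kc_eq (hkk.symm.le.trans (mul_le_mul_of_nonneg_left h1.le h40.le))]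
  have e1 : AA α r t y.ofLp = √r1 := rfl
  have e2 : HH α d r t y.ofLp = √(1 - d ^ 2 * s) := rfl
  rw [e1, e2]
  have h3 : √r1 ≠ 0 := Real.sqrt_ne_zero'.2 (by linarith)
  have h4 : √(1 - d ^ 2 * s) ≠ 0 := Real.sqrt_ne_zero'.2 (by linarith)
  have h5 : |α| ≠ 0 := abs_ne_zero.2 hα
  field_simp

/-- Pointwise identity of the integrands. -/
theorem pw {κ k0 : ℝ} {b : Fin (m + 2) → ℝ} {α : ℝ} {r : Fin m → ℝ} (hα : α ≠ 0) (hκ : 0 < κ)
    (hk0 : 0 < k0) (hk : κ ≤ k0 / 4) (hk2 : κ ≤ k0 ^ 2)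
    (hαb : α = b 0 - b (Fin.last (m + 1)))
    (hrb : ∀ i : Fin m, α * r i = b i.succ.castSucc - b (Fin.last (m + 1)))
    {g0 : ℝ → ℝ} (hg0 : ∀ v ≤ k0, g0 v = 0) {X : ℝ → ℝ × E m → E (m + 2)} {A : ℕ → ℝ}
    (hX : SF κ α r X A) {G : ℝ → E (m + 2) → ℂ}
    (hG : ∀ t x, x (Fin.last (m + 1)) ≤ k0 → G t x = 0) {d : ℝ} {l : ℕ}
    (hd0 : 0 < d) (hd1 : d ≤ 1) (hdl : 4 ^ l * d ^ 2 = 1) {ξ w : E (m + 2)}
    (hw0 : w 0 = 2 * π * d * ξ 0)
    (hw1 : ∀ i : Fin m, w i.succ.castSucc = 2 * π * d * ξ i.succ.castSucc)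
    (hw2 : w (Fin.last (m + 1)) = -(2 * π * d ^ 2) * ξ (Fin.last (m + 1))) (t : ℝ) (y : E m)
    (hr : 0 < rr α r t y.ofLp) :
    ((d * (1 / (2 * |α| * AA α r t y.ofLp)) : ℝ) : ℂ) *
        Fg (fl b g0 G l) ξ (d * AA α r t y.ofLp) (d • y) =
      (d : ℂ) * (bl κ α r (b (Fin.last (m + 1))) g0 X d G (t, y) *
        Complex.exp (((-⟪w, X d (t, y)⟫ : ℝ) : ℂ) * Complex.I)) *
        Complex.exp (((-(2 * π * ξ (Fin.last (m + 1))) : ℝ) : ℂ) * Complex.I) := by
  have hA : 0 < AA α r t y.ofLp := p1_A_pos hr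
  have hAsq : AA α r t y.ofLp ^ 2 = rr α r t y.ofLp := p1_A_sq hr.le
  have hs : ss α r t y.ofLp = rr α r t y.ofLp + ∑ i, y i ^ 2 := p1_ss
  have hdy : ∀ i, (d • y) i = d * y i := fun i => rfl
  have hdy2 : ∑ i, (d • y) i ^ 2 = d ^ 2 * ∑ i, y i ^ 2 := by
    rw [Finset.mul_sum]
    exact Finset.sum_congr rfl fun i _ => by rw [hdy]; ring
  have e1' : 1 - (d * AA α r t y.ofLp) ^ 2 - ∑ i, (d • y) i ^ 2 =
      1 - d ^ 2 * ss α r t y.ofLp := by
    rw [mul_pow, hAsq, hdy2, hs]; ring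
  have e2 : √(1 - (d * AA α r t y.ofLp) ^ 2 - ∑ i, (d • y) i ^ 2) = HH α d r t y.ofLp := by
    rw [e1']; rfl
  unfold Fg
  rw [e2]
  set x : E (m + 2) := pt (d * AA α r t y.ofLp) (d • y).ofLp (HH α d r t y.ofLp) with hx
  have x0 : x 0 = d * AA α r t y.ofLp := pt_zero _ _ _
  have x1 : ∀ i : Fin m, x i.succ.castSucc = d * y i := fun i => pt_mid _ _ _ i
  have x2 : x (Fin.last (m + 1)) = HH α d r t y.ofLp := pt_last _ _ _
  rcases le_or_gt (HH α d r t y.ofLp) k0 with hH | hH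
  · -- both sides vanish
    have h1 : fl b g0 G l x = 0 := by
      unfold fl fp
      rw [hG _ x (by rw [x2]; exact hH)]
      simp
    have h2 : bl κ α r (b (Fin.last (m + 1))) g0 X d G (t, y) = 0 := by
      by_contra h0
      have h3 : cf κ α r g0 (d, (t, y)) ≠ 0 := by
        intro h4
        refine h0 ?_
        unfold bl
        rw [h4, Complex.ofReal_zero, mul_zero]
      obtain ⟨h4, h5, h6, -, -, h7⟩ := cf_supp hκ hk hg0 h3
      have hRg : Rl κ α d r t y.ofLp :=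
        ⟨fun i => (h4 i).trans (by norm_num), by linarith, by linarith, h7.le⟩
      refine h0 ?_
      unfold bl
      rw [hG, zero_mul]
      rw [xt_eq hκ hX hd0.le hd1 hRg, pt_last]
      exact hH
    rw [h1, h2]
    ring
  · have hval := cf_val (r := r) hα hκ hk0 hk hk2 hg0 (y := y) hH
    have hpos : 0 < 1 - d ^ 2 * ss α r t y.ofLp := by
      by_contra h
      have h2 : HH α d r t y.ofLp = 0 := Real.sqrt_eq_zero_of_nonpos (not_lt.1 h)
      linarith
    have hH0 : HH α d r t y.ofLp ≠ 0 := by linarith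
    have hsum : ∑ j : Fin (m + 1), x j.castSucc ^ 2 = d ^ 2 * ss α r t y.ofLp := by
      rw [p2_sum_cs (fun i => x i ^ 2)]
      simp only [x0, x1]
      rw [mul_pow, hAsq, hs, mul_add, Finset.mul_sum]
      congr 1
      exact Finset.sum_congr rfl fun i _ => by ring
    have hsq0 : 0 ≤ ∑ i, y i ^ 2 := Finset.sum_nonneg fun i _ => sq_nonneg _
    have hs0 : 0 < ss α r t y.ofLp := by rw [hs]; linarith
    have hrat : x 0 ^ 2 / ∑ j : Fin (m + 1), x j.castSucc ^ 2 =
        rr α r t y.ofLp / ss α r t y.ofLp := by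
      rw [hsum, x0, mul_pow, hAsq, mul_div_mul_left _ _ (by positivity)]
    have hQ : ∑ i, b i * x i ^ 2 = b (Fin.last (m + 1)) + d ^ 2 * t := by
      rw [p2_sum3 (fun i => b i * x i ^ 2)]
      simp only [x0, x1, x2]
      rw [p1_H_sq hpos.le, mul_pow, hAsq]
      have h1 : t = α * (rr α r t y.ofLp + ∑ i, r i * y i ^ 2) := p1_t hα
      rw [hs]
      conv_rhs => rw [h1]
      have h2 : α * ∑ i, r i * y i ^ 2 =
          ∑ i : Fin m, (b i.succ.castSucc - b (Fin.last (m + 1))) * y i ^ 2 := by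
        rw [Finset.mul_sum]
        exact Finset.sum_congr rfl fun i _ => by rw [← mul_assoc, hrb]
      have h3 : ∑ i : Fin m, b i.succ.castSucc * (d * y i) ^ 2 =
          d ^ 2 * (∑ i : Fin m, (b i.succ.castSucc - b (Fin.last (m + 1))) * y i ^ 2) +
            d ^ 2 * b (Fin.last (m + 1)) * ∑ i, y i ^ 2 := by
        rw [Finset.mul_sum, Finset.mul_sum, ← Finset.sum_add_distrib]
        exact Finset.sum_congr rfl fun i _ => by ring
      rw [mul_add α, h2, h3, hαb]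
      ring
    have hfl : fl b g0 G l x = ((psd (ss α r t y.ofLp) : ℝ) : ℂ) *
        (((g0 (rr α r t y.ofLp / ss α r t y.ofLp) : ℝ) : ℂ) *
          G (b (Fin.last (m + 1)) + d ^ 2 * t) x) := by
      unfold fl fp
      have h0 : 0 < x 0 := by rw [x0]; positivity
      rw [if_pos h0, hrat, hQ, hsum, ← mul_assoc (4 ^ l : ℝ), hdl, one_mul]
    by_cases hc : cf κ α r g0 (d, (t, y)) = 0
    · have h1 : g0 (rr α r t y.ofLp / ss α r t y.ofLp) * psd (ss α r t y.ofLp) = 0 := by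
        rw [hval] at hc
        rcases mul_eq_zero.1 hc with h | h
        · exact h
        · exfalso
          have : 0 < 1 / (2 * |α| * AA α r t y.ofLp * HH α d r t y.ofLp) := by
            have := abs_pos.2 hα
            have h3 : 0 < HH α d r t y.ofLp := by linarith
            positivity
          linarith
      have h2 : fl b g0 G l x = 0 := by
        rw [hfl, ← mul_assoc, ← Complex.ofReal_mul, mul_comm (psd _), h1, Complex.ofReal_zero,
          zero_mul]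
      have h3 : bl κ α r (b (Fin.last (m + 1))) g0 X d G (t, y) = 0 := by
        unfold bl
        rw [hc, Complex.ofReal_zero, mul_zero]
      rw [h2, h3]
      ring
    · obtain ⟨h4, h5, h6, -, -, h7⟩ := cf_supp hκ hk hg0 hc
      have hRg : Rl κ α d r t y.ofLp :=
        ⟨fun i => (h4 i).trans (by norm_num), by linarith, by linarith, h7.le⟩
      obtain ⟨-, -, h8⟩ := hX d hd0.le hd1
      obtain ⟨X0, X1, X2, -, -⟩ := h8 t y hRg
      have hxt : xt X d (t, y) = x := xt_eq hκ hX hd0.le hd1 hRg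
      have hbl : bl κ α r (b (Fin.last (m + 1))) g0 X d G (t, y) =
          G (b (Fin.last (m + 1)) + d ^ 2 * t) x *
          ((g0 (rr α r t y.ofLp / ss α r t y.ofLp) * psd (ss α r t y.ofLp) *
            (1 / (2 * |α| * AA α r t y.ofLp * HH α d r t y.ofLp)) : ℝ) : ℂ) := by
        unfold bl
        simp only
        rw [hxt, hval]
      have hin : ⟪w, X d (t, y)⟫ = 2 * π * d * ξ 0 * AA α r t y.ofLp +
          2 * π * d * (∑ i : Fin m, ξ i.succ.castSucc * y i) -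
          2 * π * d ^ 2 * ξ (Fin.last (m + 1)) * hh α d r t y.ofLp := by
        rw [PiLp.inner_apply, p2_sum3]
        simp only [X0, X1, X2, hw0, hw1, hw2, RCLike.inner_apply, conj_trivial]
        have h1 : ∑ i : Fin m, y i * (2 * π * d * ξ i.succ.castSucc) =
            2 * π * d * ∑ i : Fin m, ξ i.succ.castSucc * y i := by
          rw [Finset.mul_sum]
          exact Finset.sum_congr rfl fun i _ => by ring
        rw [h1]
        ring
      have hq : d ^ 2 * hh α d r t y.ofLp = 1 - HH α d r t y.ofLp := p1_h hpos.le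
      have hexp : Complex.exp (((-(2 * π * (d * AA α r t y.ofLp * ξ 0 +
          ∑ i : Fin m, (d • y) i * ξ i.succ.castSucc +
          HH α d r t y.ofLp * ξ (Fin.last (m + 1)))) : ℝ) : ℂ) * Complex.I) =
          Complex.exp (((-⟪w, X d (t, y)⟫ : ℝ) : ℂ) * Complex.I) *
            Complex.exp (((-(2 * π * ξ (Fin.last (m + 1))) : ℝ) : ℂ) * Complex.I) := by
        rw [← Complex.exp_add, ← add_mul, ← Complex.ofReal_add]
        congr 3
        rw [hin]
        have h9 : HH α d r t y.ofLp = 1 - d ^ 2 * hh α d r t y.ofLp := by linarith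
        have h10 : ∑ i : Fin m, (d • y) i * ξ i.succ.castSucc =
            d * ∑ i : Fin m, ξ i.succ.castSucc * y i := by
          rw [Finset.mul_sum]
          exact Finset.sum_congr rfl fun i _ => by rw [hdy]; ring
        rw [h9, h10]
        ring
      rw [hexp, hfl, hbl]
      push_cast
      have hα' : ((|α| : ℝ) : ℂ) ≠ 0 := by exact_mod_cast abs_ne_zero.2 hα
      have hA' : ((AA α r t y.ofLp : ℝ) : ℂ) ≠ 0 := by exact_mod_cast hA.ne'
      have hH' : ((HH α d r t y.ofLp : ℝ) : ℂ) ≠ 0 := by exact_mod_cast hH0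
      field_simp

theorem hasDerivAt_A {α : ℝ} {r : Fin m → ℝ} {t : ℝ} {y : Fin m → ℝ} (hr : 0 < rr α r t y) :
    HasDerivAt (fun t => AA α r t y) (1 / (2 * α * AA α r t y)) t := by
  have h1 : HasDerivAt (fun t => rr α r t y) (1 / α) t := by
    unfold rr
    exact ((hasDerivAt_id t).div_const α).sub_const _
  have h2 := h1.sqrt hr.ne'
  have h3 : HasDerivAt (fun t => AA α r t y) (1 / α / (2 * √(rr α r t y))) t := h2
  have h4 : 1 / (2 * α * AA α r t y) = 1 / α / (2 * √(rr α r t y)) := by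
    have : AA α r t y = √(rr α r t y) := rfl
    rw [this, div_div]
    congr 1
    ring
  rw [h4]
  exact h3

/-- The substitution `u = d A(t, y)`. -/
theorem cov1 {α : ℝ} {r : Fin m → ℝ} (hα : α ≠ 0) {d : ℝ} (hd : 0 < d) (y : Fin m → ℝ)
    (F : ℝ → ℂ) (hF : ∀ u ≤ 0, F u = 0) :
    ∫ u, F u = ∫ t, (if 0 < rr α r t y then
      ((d * (1 / (2 * |α| * AA α r t y)) : ℝ) : ℂ) * F (d * AA α r t y) else 0) := by
  set s : Set ℝ := {t | 0 < rr α r t y} with hs
  have hsm : MeasurableSet s := by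
    rw [hs]
    unfold rr
    exact measurableSet_lt measurable_const (by fun_prop)
  have himg : (fun t => d * AA α r t y) '' s = Ioi 0 := by
    ext u
    constructor
    · rintro ⟨t, ht, rfl⟩
      exact mul_pos hd (p1_A_pos ht)
    · intro hu
      have hu' : (0 : ℝ) < u := hu
      have h1 : rr α r (α * ((u / d) ^ 2 + ∑ i, r i * y i ^ 2)) y = (u / d) ^ 2 := by
        unfold rr
        rw [mul_div_cancel_left₀ _ hα]
        ring
      refine ⟨α * ((u / d) ^ 2 + ∑ i, r i * y i ^ 2), ?_, ?_⟩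
      · show 0 < rr α r (α * ((u / d) ^ 2 + ∑ i, r i * y i ^ 2)) y
        rw [h1]
        positivity
      · simp only
        unfold AA
        rw [h1, Real.sqrt_sq (by positivity)]
        field_simp
  have hinj : InjOn (fun t => d * AA α r t y) s := by
    intro t ht t' ht' h
    have h1 : AA α r t y = AA α r t' y := mul_left_cancel₀ hd.ne' h
    have h2 : rr α r t y = rr α r t' y := by
      rw [← p1_A_sq (le_of_lt ht), ← p1_A_sq (le_of_lt ht'), h1]
    rw [p1_t (α := α) (r := r) (t := t) (y := y) hα, h2, ← p1_t hα]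
  have h1 : ∫ u, F u = ∫ u in Ioi 0, F u := by
    rw [setIntegral_eq_integral_of_forall_compl_eq_zero]
    intro u hu
    exact hF u (not_lt.1 hu)
  rw [h1, ← himg, integral_image_eq_integral_abs_deriv_smul hsm
    (f' := fun t => d * (1 / (2 * α * AA α r t y)))
    (fun t ht => ((hasDerivAt_A ht).const_mul d).hasDerivWithinAt) hinj,
    ← integral_indicator hsm]
  refine integral_congr_ae (Eventually.of_forall fun t => ?_)
  simp only
  by_cases ht : 0 < rr α r t y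
  · rw [indicator_of_mem (show t ∈ s from ht), if_pos ht, Complex.real_smul]
    congr 2
    rw [abs_mul, abs_of_pos hd, abs_div, abs_one, abs_mul, abs_mul, abs_of_pos (p1_A_pos ht)]
    norm_num
  · rw [indicator_of_notMem (show t ∉ s from ht), if_neg ht]

theorem p2_measurable_Tb {n : ℕ} {X : ℝ × E m → E n} (hX : Continuous X) {b : ℝ × E m → ℂ}
    (hb : Measurable b) : Measurable (Tb X b) := by
  unfold Tb
  have h1 : Measurable fun q : E n × (ℝ × E m) =>
      b q.2 * Complex.exp (((-⟪q.1, X q.2⟫ : ℝ) : ℂ) * Complex.I) := by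
    have h2 : Continuous fun q : E n × (ℝ × E m) =>
        Complex.exp (((-⟪q.1, X q.2⟫ : ℝ) : ℂ) * Complex.I) := by fun_prop
    exact (hb.comp measurable_snd).mul h2.measurable
  exact (StronglyMeasurable.integral_prod_right h1.stronglyMeasurable).measurable

/-- The operator of the chart as an iterated integral. -/
theorem Tb_iter {κ α d : ℝ} {r : Fin m → ℝ} (hα : α ≠ 0) (hκ : 0 < κ) {B : ℕ → ℝ} {n : ℕ}
    {X : ℝ × E m → E n} (hX : Continuous X)
    {b : ℝ × E m → ℂ} (hb : DC κ α d r B b) (w : E n) :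
    Tb X b w = ∫ y : E m, ∫ t : ℝ, b (t, y) *
      Complex.exp (((-⟪w, X (t, y)⟫ : ℝ) : ℂ) * Complex.I) := by
  obtain ⟨h1, h2, h3, h4⟩ := hb
  have hc : Continuous fun p : ℝ × E m =>
      Complex.exp (((-⟪w, X p⟫ : ℝ) : ℂ) * Complex.I) := by fun_prop
  set H : ℝ × E m → ℂ := fun p => b p *
    Complex.exp (((-⟪w, X p⟫ : ℝ) : ℂ) * Complex.I) with hH
  have hHm : Measurable H := h1.mul hc.measurable
  set K : Set (ℝ × E m) := Icc (-(|α| * (4 + ∑ i, |r i| * 4))) (|α| * (4 + ∑ i, |r i| * 4)) ×ˢ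
    Metric.closedBall 0 √(4 * m) with hK
  have hKc : IsCompact K := isCompact_Icc.prod (isCompact_closedBall _ _)
  have hsupp : ∀ p, p ∉ K → H p = 0 := by
    rintro ⟨t, z⟩ hp
    simp only [hH]
    rw [h4 t z, zero_mul]
    intro hR
    refine hp ⟨?_, ?_⟩
    · exact abs_le.1 (p1_t_le hα hR.1 (by linarith [hR.2.1]) hR.2.2.1)
    · rw [mem_closedBall_zero_iff]
      exact p1_z_le hR.1
  have hHb : ∀ p, ‖H p‖ ≤ B 0 := by
    rintro ⟨t, z⟩
    simp only [hH]
    rw [norm_mul, Complex.norm_exp_ofReal_mul_I, mul_one]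
    have := h3 t 0 z
    rwa [norm_iteratedFDeriv_zero] at this
  have hHi : Integrable H := by
    have h5 : IntegrableOn H K := Measure.integrableOn_of_bounded (M := B 0)
      hKc.measure_lt_top.ne hHm.aestronglyMeasurable (Eventually.of_forall fun p => hHb p)
    rwa [integrableOn_iff_integrable_of_support_subset] at h5
    intro p hp
    by_contra h6
    exact hp (hsupp p h6)
  have e2 : Tb X b w = ∫ p, H p := rfl
  rw [e2, Measure.volume_eq_prod, integral_prod_symm _ (by rwa [Measure.volume_eq_prod] at hHi)]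

theorem extn_fl_of {κ k0 : ℝ} {b : Fin (m + 2) → ℝ} {α : ℝ} {r : Fin m → ℝ} (hα : α ≠ 0)
    (hκ : 0 < κ) (hk0 : 0 < k0) (hk : κ ≤ k0 / 4) (hk2 : κ ≤ k0 ^ 2)
    (hαb : α = b 0 - b (Fin.last (m + 1)))
    (hrb : ∀ i : Fin m, α * r i = b i.succ.castSucc - b (Fin.last (m + 1)))
    {g0 : ℝ → ℝ} (hg : ContDiff ℝ ∞ g0) (hg0 : ∀ v ≤ k0, g0 v = 0)
    {X : ℝ → ℝ × E m → E (m + 2)} {A : ℕ → ℝ} (hX : SF κ α r X A) {B : ℕ → ℝ}
    {G : ℝ → E (m + 2) → ℂ} (hGC : GC B G)
    (hG : ∀ t x, x (Fin.last (m + 1)) ≤ k0 → G t x = 0) {d : ℝ} {l : ℕ}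
    (hd0 : 0 < d) (hd1 : d ≤ 1) (hdl : 4 ^ l * d ^ 2 = 1) {ξ w : E (m + 2)}
    (hw0 : w 0 = 2 * π * d * ξ 0)
    (hw1 : ∀ i : Fin m, w i.succ.castSucc = 2 * π * d * ξ i.succ.castSucc)
    (hw2 : w (Fin.last (m + 1)) = -(2 * π * d ^ 2) * ξ (Fin.last (m + 1)))
    (hchart : extn (fl b g0 G l) ξ = ∫ y : E m, ∫ u : ℝ, Fg (fl b g0 G l) ξ u y) :
    ‖extn (fl b g0 G l) ξ‖ =
      d ^ (m + 1) * ‖Tb (X d) (bl κ α r (b (Fin.last (m + 1))) g0 X d G) w‖ := by
  obtain ⟨B', hB'⟩ := bl_DC hα hκ hk0 hk hk2 hg hg0 hX (b (Fin.last (m + 1))) B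
  have hDC := hB' d hd0.le hd1 G hGC hG
  have hXc : Continuous (X d) := (hX d hd0.le hd1).1.continuous
  set c0 : ℂ := Complex.exp (((-(2 * π * ξ (Fin.last (m + 1))) : ℝ) : ℂ) * Complex.I) with hc0
  have hin : ∀ y : E m, ∫ u : ℝ, Fg (fl b g0 G l) ξ u (d • y) = (d : ℂ) * c0 *
      ∫ t : ℝ, bl κ α r (b (Fin.last (m + 1))) g0 X d G (t, y) *
        Complex.exp (((-⟪w, X d (t, y)⟫ : ℝ) : ℂ) * Complex.I) := by
    intro y
    rw [cov1 (r := r) hα hd0 y.ofLp _ (fun u hu => ?_), ← integral_const_mul]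
    · refine integral_congr_ae (Eventually.of_forall fun t => ?_)
      simp only
      by_cases hr : 0 < rr α r t y.ofLp
      · rw [if_pos hr, pw hα hκ hk0 hk hk2 hαb hrb hg0 hX hG hd0 hd1 hdl hw0 hw1 hw2 t y hr]
        ring
      · rw [if_neg hr]
        have h1 : bl κ α r (b (Fin.last (m + 1))) g0 X d G (t, y) = 0 := by
          refine hDC.2.2.2 t y fun h => hr ?_
          linarith [h.2.1]
        rw [h1]
        ring
    · unfold Fg fl fp
      rw [if_neg (by rw [pt_zero]; exact not_lt.2 hu)]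
      simp
  have h2 : ∫ y : E m, ∫ u : ℝ, Fg (fl b g0 G l) ξ u y =
      (d : ℂ) ^ m * ∫ y : E m, ∫ u : ℝ, Fg (fl b g0 G l) ξ u (d • y) := by
    have h3 := Measure.integral_comp_smul (volume : Measure (E m))
      (fun y : E m => ∫ u : ℝ, Fg (fl b g0 G l) ξ u y) d
    rw [h3, finrank_euclideanSpace_fin, abs_of_pos (by positivity), Complex.real_smul, ← mul_assoc]
    push_cast
    rw [mul_inv_cancel₀ (pow_ne_zero _ (by exact_mod_cast hd0.ne')), one_mul]
  rw [hchart, h2]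
  simp_rw [hin]
  rw [integral_const_mul, ← Tb_iter hα hκ hXc hDC w, norm_mul, norm_mul, norm_mul, hc0,
    Complex.norm_exp_ofReal_mul_I, norm_pow, Complex.norm_real, Real.norm_of_nonneg hd0.le,
    pow_succ]
  ring

end Pool.Agent.LQN
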