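import Pool.Agent.LQ.RED
import Pool.Agent.HSL.H
import Pool.Agent.LQN.GC

/-!
[LQN] row RED: from a smooth piece of the sphere of `ℝ^(m+2)` to the whole sphere. The cells are the
chambers `x_last > x_0 > x_1 > ... > x_m > 0` and their images under the signed permutations of the
coordinates; a chamber is cut out of a smooth piece by half-spaces.
-/

set_option autoImplicit false

namespace Pool.Agent.LQN

open MeasureTheory Set Pool.Agent.MP_6cbfb8_an
open scoped RealInnerProductSpace ContDiff ENNReal NNReal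

/-- The density of a piece. -/
noncomputable def pc {m : ℕ} (g0 : ℝ → ℝ) (b : Fin (m + 2) → ℝ) (G : ℝ → E (m + 2) → ℂ)
    (x : E (m + 2)) : ℂ :=
  if 0 < x 0 then (g0 (x 0 ^ 2 / ∑ j : Fin (m + 1), x j.castSucc ^ 2) : ℂ) *
    G (∑ i, b i * x i ^ 2) x else 0

/-! ### Classes of functions -/

section Classes

variable {n : ℕ}

theorem GC.mono {B B' : ℕ → ℝ} (h : ∀ k, B k ≤ B' k) {G : ℝ → E n → ℂ} (hG : GC B G) : GC B' G :=
  ⟨hG.1, hG.2.1, fun k t x => (hG.2.2 k t x).trans (h k)⟩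

theorem GC.norm_le {B : ℕ → ℝ} {G : ℝ → E n → ℂ} (hG : GC B G) (t : ℝ) (x : E n) :
    ‖G t x‖ ≤ B 0 := by
  have h := hG.2.2 0 t x
  rwa [norm_iteratedFDeriv_zero] at h

theorem GC.mul_bd {B : ℕ → ℝ} {G : ℝ → E n → ℂ} (hG : GC B G) {V : E n → ℝ} {Cv : ℕ → ℝ}
    (hV : ContDiff ℝ ∞ V) (hC : ∀ k x, ‖iteratedFDeriv ℝ k V x‖ ≤ Cv k) :
    GC (fun k => ∑ i ∈ Finset.range (k + 1), (k.choose i : ℝ) * Cv i * B (k - i))
      fun t x => (V x : ℂ) * G t x := by
  have hV' : ContDiff ℝ ∞ fun x => (V x : ℂ) := Complex.ofRealCLM.contDiff.comp hV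
  refine ⟨?_, fun t => hV'.mul (hG.2.1 t), fun k t x => ?_⟩
  · have h1 : Measurable fun q : ℝ × E n => (V q.2 : ℂ) :=
      (hV'.continuous.comp continuous_snd).measurable
    exact h1.mul hG.1
  refine (norm_iteratedFDeriv_mul_le hV' (hG.2.1 t) x (n := k)
    (by exact_mod_cast le_top)).trans ?_
  refine Finset.sum_le_sum fun i _ => ?_
  have h2 : ‖iteratedFDeriv ℝ i (fun x => (V x : ℂ)) x‖ ≤ Cv i := by
    have h3 : (fun x => (V x : ℂ)) = Complex.ofRealLI ∘ V := rfl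
    rw [h3, LinearIsometry.norm_iteratedFDeriv_comp_left _ hV.contDiffAt
      (by exact_mod_cast le_top)]
    exact hC i x
  have h0 : 0 ≤ Cv i := (norm_nonneg _).trans (hC i x)
  exact mul_le_mul (mul_le_mul_of_nonneg_left h2 (by positivity)) (hG.2.2 _ t x)
    (norm_nonneg _) (by positivity)

theorem GC.comp_iso {B : ℕ → ℝ} {G : ℝ → E n → ℂ} (hG : GC B G) (R : E n ≃ₗᵢ[ℝ] E n) :
    GC B fun t x => G t (R x) := by
  refine ⟨?_, fun t => (hG.2.1 t).comp R.contDiff, fun k t x => ?_⟩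
  · exact hG.1.comp (measurable_fst.prodMk (R.continuous.measurable.comp measurable_snd))
  · have h := R.norm_iteratedFDeriv_comp_right (G t) x k
    have h1 : ‖iteratedFDeriv ℝ k (G t ∘ R) x‖ ≤ B k := by
      rw [h]
      exact hG.2.2 k t _
    exact h1

/-- Modulation in `t`. -/
theorem GC.mod {B : ℕ → ℝ} {G : ℝ → E n → ℂ} (hG : GC B G) {F : ℝ → ℂ} (hF : Measurable F)
    (hF1 : ∀ t, ‖F t‖ = 1) : GC B fun t x => F t * G t x := by
  refine ⟨?_, fun t => contDiff_const.mul (hG.2.1 t), fun k t x => ?_⟩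
  · exact (hF.comp measurable_fst).mul hG.1
  · have h1 : (fun x => F t * G t x) = fun x => F t • G t x := rfl
    show ‖iteratedFDeriv ℝ k (fun x => F t * G t x) x‖ ≤ B k
    rw [h1, iteratedFDeriv_const_smul_apply' ((hG.2.1 t).of_le (by exact_mod_cast le_top)).contDiffAt,
      norm_smul, hF1, one_mul]
    exact hG.2.2 k t x

theorem meas_coord (i : Fin n) : Measurable fun x : E n => x i :=
  (by fun_prop : Continuous fun x : E n => x i).measurable

theorem meas_quad (b : Fin n → ℝ) : Measurable fun x : E n => ∑ i, b i * x i ^ 2 :=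
  (by fun_prop : Continuous fun x : E n => ∑ i, b i * x i ^ 2).measurable

theorem meas_comp {B : ℕ → ℝ} {G : ℝ → E n → ℂ} (hG : GC B G) (b : Fin n → ℝ) :
    Measurable fun x : E n => G (∑ i, b i * x i ^ 2) x :=
  hG.1.comp ((meas_quad b).prodMk measurable_id)

theorem bd_coord {u : ℝ → ℝ} (hu : LQ.Bd u) (i : Fin n) : LQ.Bd fun x : E n => u (x i) := by
  have h0 : (fun x : E n => u (x i)) = u ∘ (EuclideanSpace.proj i : E n →L[ℝ] ℝ) := by
    funext x; rfl
  refine ⟨?_, fun k => ?_⟩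
  · rw [h0]
    exact hu.1.comp (ContinuousLinearMap.contDiff _)
  obtain ⟨C, hC⟩ := hu.2 k
  refine ⟨C * ‖(EuclideanSpace.proj i : E n →L[ℝ] ℝ)‖ ^ k, fun x => ?_⟩
  rw [h0, ContinuousLinearMap.iteratedFDeriv_comp_right _ (hu.1.of_le (by exact_mod_cast le_top)) _
    le_rfl]
  refine (ContinuousMultilinearMap.norm_compContinuousLinearMap_le _ _).trans ?_
  rw [Finset.prod_const, Finset.card_univ, Fintype.card_fin]
  exact mul_le_mul_of_nonneg_right (hC _) (by positivity)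

/-! ### Signed permutations -/

/-- The signed permutations of the coordinates. -/
noncomputable def sg (σ : Equiv.Perm (Fin n)) (e : Fin n → ℝ) (he : ∀ i, e i ^ 2 = 1) :
    E n ≃ₗᵢ[ℝ] E n :=
  LinearIsometry.toLinearIsometryEquiv
    { toFun := fun x => WithLp.toLp 2 fun i => e i * x (σ i)
      map_add' := fun x y => by ext i; simp [mul_add]
      map_smul' := fun c x => by ext i; simp; ring
      norm_map' := fun x => by
        rw [EuclideanSpace.norm_eq, EuclideanSpace.norm_eq]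
        congr 1
        simp only [Real.norm_eq_abs, sq_abs, LinearMap.coe_mk, AddHom.coe_mk, mul_pow, he, one_mul]
        exact Equiv.sum_comp σ fun i => x i ^ 2 } rfl

theorem sg_apply (σ : Equiv.Perm (Fin n)) (e : Fin n → ℝ) (he : ∀ i, e i ^ 2 = 1) (x : E n)
    (i : Fin n) : sg σ e he x i = e i * x (σ i) := rfl

open scoped Pointwise in
/-- Hyperplanes through the origin are null sets on the sphere. -/
theorem sm_hyper {v : E n} (hv : v ≠ 0) : sm n {x : S n | inner ℝ v (x : E n) = 0} = 0 := by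
  have hm : MeasurableSet {x : S n | inner ℝ v (x : E n) = 0} := by
    have h1 : Continuous fun x : S n => inner ℝ v (x : E n) := by fun_prop
    exact h1.measurable (measurableSet_singleton 0)
  rw [Measure.toSphere_apply' _ hm]
  have h2 : volume (Ioo (0 : ℝ) 1 •
      ((↑) '' {x : S n | inner ℝ v (x : E n) = 0} : Set (E n))) = 0 := by
    refine measure_mono_null (t := {x : E n | inner ℝ v x = 0}) ?_ ?_
    · rintro x ⟨a, ha, _, ⟨y, hy, rfl⟩, rfl⟩
      have hy' : inner ℝ v (y : E n) = 0 := hy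
      show inner ℝ v (a • (y : E n)) = 0
      rw [inner_smul_right, hy', mul_zero]
    · have h3 : {x : E n | inner ℝ v x = 0} =
          ((LinearMap.ker (innerSL ℝ v).toLinearMap : Submodule ℝ (E n)) : Set (E n)) := by
        ext x
        simp
      rw [h3]
      refine Measure.addHaar_submodule volume _ fun h4 => ?_
      have h5 : v ∈ LinearMap.ker (innerSL ℝ v).toLinearMap := by
        rw [h4]; trivial
      rw [LinearMap.mem_ker] at h5
      have h6 : inner ℝ v v = (0 : ℝ) := h5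
      rw [inner_self_eq_zero] at h6
      exact hv h6
  rw [h2, mul_zero]

/-- The absolute values of the coordinates of almost every point of the sphere are positive and
distinct. -/
theorem ae_generic : ∀ᵐ x : S n ∂(sm n), (∀ i, (x : E n) i ≠ 0) ∧
    ∀ i j, i ≠ j → |(x : E n) i| ≠ |(x : E n) j| := by
  have h1 : ∀ i : Fin n, ∀ᵐ x : S n ∂(sm n), (x : E n) i ≠ 0 := by
    intro i
    have h2 : (EuclideanSpace.single i (1 : ℝ) : E n) ≠ 0 := by
      intro h
      have := congrArg (fun z : E n => z i) h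
      simp at this
    have h3 := sm_hyper h2
    rw [ae_iff]
    refine measure_mono_null (fun x hx => ?_) h3
    have hx' : (x : E n) i = 0 := by simpa using hx
    show inner ℝ (EuclideanSpace.single i (1 : ℝ)) (x : E n) = 0
    rw [EuclideanSpace.inner_single_left]
    simp [hx']
  have h4 : ∀ i j : Fin n, ∀ᵐ x : S n ∂(sm n), i ≠ j → |(x : E n) i| ≠ |(x : E n) j| := by
    intro i j
    by_cases hij : i = j
    · exact Filter.Eventually.of_forall fun x h => absurd hij h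
    have h5 : ∀ c : ℝ, (EuclideanSpace.single i (1 : ℝ) + c • EuclideanSpace.single j (1 : ℝ) :
        E n) ≠ 0 := by
      intro c h
      have := congrArg (fun z : E n => z i) h
      simp [hij] at this
    have h6 : ∀ c : ℝ, ∀ᵐ x : S n ∂(sm n), (x : E n) i + c * (x : E n) j ≠ 0 := by
      intro c
      rw [ae_iff]
      refine measure_mono_null (fun x hx => ?_) (sm_hyper (h5 c))
      have hx' : (x : E n) i + c * (x : E n) j = 0 := by simpa using hx
      show inner ℝ (EuclideanSpace.single i (1 : ℝ) + c • EuclideanSpace.single j (1 : ℝ))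
        (x : E n) = 0
      rw [inner_add_left, inner_smul_left, EuclideanSpace.inner_single_left,
        EuclideanSpace.inner_single_left]
      simpa using hx'
    filter_upwards [h6 1, h6 (-1)] with x hx1 hx2 _ h7
    rcases abs_eq_abs.1 h7 with h8 | h8
    · exact hx2 (by rw [h8]; ring)
    · exact hx1 (by rw [h8]; ring)
  have h7 : ∀ᵐ x : S n ∂(sm n), ∀ i, (x : E n) i ≠ 0 := ae_all_iff.2 h1
  have h8 : ∀ᵐ x : S n ∂(sm n), ∀ i j, i ≠ j → |(x : E n) i| ≠ |(x : E n) j| :=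
    ae_all_iff.2 fun i => ae_all_iff.2 fun j => h4 i j
  filter_upwards [h7, h8] with x a b using ⟨a, b⟩

end Classes

/-! ### The chambers -/

variable {m : ℕ}

/-- The order of the coordinates: the last one, then `0, 1, ..., m`. -/
def od (m : ℕ) : Equiv.Perm (Fin (m + 2)) := (finRotate (m + 2)).symm

theorem od_zero : od m 0 = Fin.last (m + 1) := by
  unfold od
  rw [Equiv.symm_apply_eq, finRotate_last]

theorem od_succ (j : Fin (m + 1)) : od m j.succ = j.castSucc := by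
  unfold od
  rw [Equiv.symm_apply_eq, finRotate_apply]
  exact (Fin.coeSucc_eq_succ).symm

/-- The chamber. -/
def Ch (m : ℕ) : Set (E (m + 2)) :=
  {y | StrictAnti (fun j => y (od m j)) ∧ 0 < y (od m (Fin.last (m + 1)))}

/-- The walls of the chamber. -/
noncomputable def wl (m : ℕ) (j : Fin (m + 2)) : E (m + 2) :=
  Fin.lastCases (motive := fun _ => E (m + 2)) (EuclideanSpace.single (od m (Fin.last (m + 1))) 1)
    (fun j => (√2)⁻¹ • (EuclideanSpace.single (od m j.castSucc) (1 : ℝ) -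
      EuclideanSpace.single (od m j.succ) (1 : ℝ))) j

theorem wl_norm (j : Fin (m + 2)) : ‖wl m j‖ = 1 := by
  refine Fin.lastCases ?_ (fun j => ?_) j
  · unfold wl
    rw [Fin.lastCases_last]
    simp
  · unfold wl
    rw [Fin.lastCases_castSucc, norm_smul]
    have hne : od m j.castSucc ≠ od m j.succ := fun h =>
      absurd ((od m).injective h) (Fin.castSucc_lt_succ).ne
    have h1 : ‖(EuclideanSpace.single (od m j.castSucc) (1 : ℝ) -
        EuclideanSpace.single (od m j.succ) (1 : ℝ) : E (m + 2))‖ ^ 2 = 2 := by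
      rw [@norm_sub_sq_real, EuclideanSpace.inner_single_left]
      simp [hne]
      norm_num
    have h2 : ‖(EuclideanSpace.single (od m j.castSucc) (1 : ℝ) -
        EuclideanSpace.single (od m j.succ) (1 : ℝ) : E (m + 2))‖ = √2 := by
      rw [← h1, Real.sqrt_sq (norm_nonneg _)]
    rw [h2, Real.norm_of_nonneg (by positivity), inv_mul_cancel₀ (by positivity)]

theorem ch_iff (y : E (m + 2)) : y ∈ Ch m ↔ ∀ j, (0 : ℝ) < inner ℝ (wl m j) y := by
  rw [Fin.forall_fin_succ']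
  unfold Ch
  rw [mem_ofPred_eq, Fin.strictAnti_iff_succ_lt]
  refine and_congr (forall_congr' fun j => ?_) ?_
  · unfold wl
    rw [Fin.lastCases_castSucc, inner_smul_left, inner_sub_left, EuclideanSpace.inner_single_left,
      EuclideanSpace.inner_single_left]
    have h2 : (0 : ℝ) < (√2)⁻¹ := by positivity
    simp only [map_one, one_mul, conj_trivial]
    rw [mul_pos_iff_of_pos_left h2, sub_pos]
  · unfold wl
    rw [Fin.lastCases_last, EuclideanSpace.inner_single_left]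
    simp

/-- The facts on the chamber. -/
theorem ch_pos {y : E (m + 2)} (hy : y ∈ Ch m) (i : Fin (m + 2)) : 0 < y i := by
  obtain ⟨j, rfl⟩ := (od m).surjective i
  exact lt_of_lt_of_le hy.2 (hy.1.antitone (Fin.le_last j))

theorem ch_last {y : E (m + 2)} (hy : y ∈ Ch m) (i : Fin (m + 2)) : y i ≤ y (Fin.last (m + 1)) := by
  obtain ⟨j, rfl⟩ := (od m).surjective i
  rw [← od_zero]
  exact hy.1.antitone (Fin.zero_le j)

theorem ch_zero {y : E (m + 2)} (hy : y ∈ Ch m) (j : Fin (m + 1)) : y j.castSucc ≤ y 0 := by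
  have h1 := hy.1.antitone (show (Fin.succ 0 : Fin (m + 2)) ≤ j.succ from
    Fin.succ_le_succ_iff.2 (Fin.zero_le j))
  simp only [od_succ] at h1
  exact h1

/-- The isometry of an index. -/
noncomputable def Rc (c : Equiv.Perm (Fin (m + 2)) × (Fin (m + 2) → Bool)) :
    E (m + 2) ≃ₗᵢ[ℝ] E (m + 2) := sg c.1 (fun i => LQ.sb (c.2 i)) fun _ => LQ.sb_sq _

theorem Rc_apply (c : Equiv.Perm (Fin (m + 2)) × (Fin (m + 2) → Bool)) (x : E (m + 2))
    (i : Fin (m + 2)) : Rc c x i = LQ.sb (c.2 i) * x (c.1 i) := rfl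

/-- Almost every point is in exactly one of the chambers. -/
theorem ch_sum {x : E (m + 2)} (h0 : ∀ i, x i ≠ 0) (h1 : ∀ i j, i ≠ j → |x i| ≠ |x j|) :
    ∑ c, (Ch m).indicator (fun _ => (1 : ℂ)) (Rc c x) = 1 := by
  classical
  obtain ⟨f, hf⟩ : ∃ f : Fin (m + 2) → ℝ, f = fun i => -|x i| := ⟨_, rfl⟩
  have hinj : Function.Injective f := by
    intro i j hij
    by_contra hne
    rw [hf] at hij
    exact h1 i j hne (neg_injective hij)
  obtain ⟨τ, hτ⟩ : ∃ τ : Equiv.Perm (Fin (m + 2)), Monotone (f ∘ τ) :=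
    ⟨Tuple.sort f, Tuple.monotone_sort f⟩
  have hsign : ∀ (s : Bool) (i : Fin (m + 2)), 0 < LQ.sb s * x i ↔ s = decide (0 < x i) := by
    intro s i
    rcases lt_or_gt_of_ne (h0 i) with h | h
    · have h2 : ¬ 0 < x i := not_lt.2 h.le
      cases s <;> simp [LQ.sb, h, h2]
    · have h2 : ¬ x i < 0 := not_lt.2 h.le
      cases s <;> simp [LQ.sb, h, h2]
  have habs : ∀ i, LQ.sb (decide (0 < x i)) * x i = |x i| := by
    intro i
    have h2 := (hsign _ i).2 rfl
    rw [← abs_of_pos h2, abs_mul]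
    have h3 : |LQ.sb (decide (0 < x i))| = 1 := by
      cases decide (0 < x i) <;> simp [LQ.sb]
    rw [h3, one_mul]
  obtain ⟨c0, hc0⟩ : ∃ c0 : Equiv.Perm (Fin (m + 2)) × (Fin (m + 2) → Bool),
      c0 = (τ * (od m)⁻¹, fun i => decide (0 < x ((τ * (od m)⁻¹) i))) := ⟨_, rfl⟩
  have hmem : Rc c0 x ∈ Ch m := by
    have h2 : ∀ j, Rc c0 x (od m j) = |x (τ j)| := by
      intro j
      rw [Rc_apply, hc0]
      simp only
      rw [habs]
      show |x ((τ * (od m)⁻¹) (od m j))| = _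
      simp
    refine ⟨?_, ?_⟩
    · intro i j hij
      simp only
      rw [h2, h2]
      have h3 := hτ hij.le
      rw [hf] at h3
      simp only [Function.comp_apply, neg_le_neg_iff] at h3
      exact lt_of_le_of_ne h3 (h1 _ _ fun h => hij.ne (τ.injective h).symm)
    · rw [h2]
      exact abs_pos.2 (h0 _)
  rw [Finset.sum_eq_single c0]
  · rw [indicator_of_mem hmem]
  · intro c _ hne
    refine indicator_of_notMem (fun hc => hne ?_) _
    have hpos : ∀ i, c.2 i = decide (0 < x (c.1 i)) := fun i =>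
      (hsign _ _).1 (by have := ch_pos hc i; rwa [Rc_apply] at this)
    have h2 : ∀ i, Rc c x i = |x (c.1 i)| := by
      intro i
      rw [Rc_apply, hpos i, habs]
    have h3 : Monotone (f ∘ (c.1 * od m : Equiv.Perm (Fin (m + 2)))) := by
      intro i j hij
      have h4 := hc.1.antitone hij
      simp only [h2] at h4
      rw [hf]
      simpa using h4
    have h5 := Tuple.unique_monotone h3 hτ
    have h6 : c.1 * od m = τ := by
      ext1 i
      exact hinj (congrFun h5 i)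
    have h7 : c.1 = τ * (od m)⁻¹ := by rw [← h6, mul_inv_cancel_right]
    rw [hc0]
    refine Prod.ext h7 (funext fun i => ?_)
    simp only
    rw [← h7]
    exact hpos i
  · intro h
    exact absurd (Finset.mem_univ _) h

/-! ### The cut-offs -/

/-- The angular cut-off. -/
noncomputable def gN (m : ℕ) (r : ℝ) : ℝ := Real.smoothTransition (4 * (m + 2) * r - 1)

theorem gN_smooth : ContDiff ℝ ∞ (gN m) := Real.smoothTransition.contDiff.comp (by fun_prop)

theorem gN_zero {r : ℝ} (h : r ≤ 1 / (4 * (m + 2))) : gN m r = 0 := by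
  refine Real.smoothTransition.zero_of_nonpos ?_
  have h1 : (0 : ℝ) < 4 * (m + 2) := by positivity
  rw [le_div_iff₀ h1] at h
  linarith

theorem gN_one {r : ℝ} (h : 1 / (m + 1) ≤ r) : gN m r = 1 := by
  refine Real.smoothTransition.one_of_one_le ?_
  have h1 : (0 : ℝ) < m + 1 := by positivity
  rw [div_le_iff₀ h1] at h
  nlinarith

theorem gN_abs (r : ℝ) : |gN m r| ≤ 1 := by
  unfold gN
  rw [abs_of_nonneg (Real.smoothTransition.nonneg _)]
  exact Real.smoothTransition.le_one _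

/-- The cut-off of the pole. -/
noncomputable def tN (m : ℕ) (s : ℝ) : ℝ :=
  Real.smoothTransition (4 * (m + 2) * s - 1) * Real.smoothTransition (3 - 2 * s)

theorem tN_zero {s : ℝ} (h : s ≤ 1 / (4 * (m + 2))) : tN m s = 0 := by
  have h2 := gN_zero h
  unfold gN at h2
  unfold tN
  rw [h2, zero_mul]

theorem tN_one {s : ℝ} (h : 1 ≤ (m + 2) * s ^ 2) (h0 : 0 ≤ s) (h1 : s ≤ 1) : tN m s = 1 := by
  unfold tN
  have hm : (0 : ℝ) ≤ m := Nat.cast_nonneg m
  rw [Real.smoothTransition.one_of_one_le, Real.smoothTransition.one_of_one_le (by linarith),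
    one_mul]
  have h2 : (m + 2) * s ^ 2 ≤ (m + 2) * s := by
    have : s ^ 2 ≤ s := by nlinarith
    exact mul_le_mul_of_nonneg_left this (by positivity)
  linarith

theorem tN_bd : LQ.Bd (tN m) := by
  refine LQ.Bd.of_supp ?_ ?_
  · exact (Real.smoothTransition.contDiff.comp (by fun_prop)).mul
      (Real.smoothTransition.contDiff.comp (by fun_prop))
  · refine HasCompactSupport.intro (isCompact_closedBall (0 : ℝ) 2) fun y hy => ?_
    rw [Metric.mem_closedBall, dist_zero_right, not_le, Real.norm_eq_abs] at hy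
    rcases le_total 0 y with h | h
    · rw [abs_of_nonneg h] at hy
      unfold tN
      rw [Real.smoothTransition.zero_of_nonpos (x := 3 - 2 * y) (by linarith), mul_zero]
    · exact tN_zero (h.trans (by positivity))

/-! ### Densities of pieces -/

theorem pc_meas {B : ℕ → ℝ} {G : ℝ → E (m + 2) → ℂ} (hG : GC B G) (b : Fin (m + 2) → ℝ)
    {g0 : ℝ → ℝ} (hg : Measurable g0) : Measurable (pc g0 b G) := by
  unfold pc
  refine Measurable.ite (measurableSet_lt measurable_const (meas_coord 0)) ?_ measurable_const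
  refine Measurable.mul ?_ (meas_comp hG b)
  refine Complex.measurable_ofReal.comp (hg.comp (((meas_coord 0).pow_const 2).div ?_))
  exact Finset.measurable_sum _ fun j _ => (meas_coord _).pow_const 2

theorem pc_le {B : ℕ → ℝ} {G : ℝ → E (m + 2) → ℂ} (hG : GC B G) (b : Fin (m + 2) → ℝ)
    {g0 : ℝ → ℝ} (hg : ∀ r, |g0 r| ≤ 1) (x : E (m + 2)) : ‖pc g0 b G x‖ ≤ B 0 := by
  have h0 : 0 ≤ B 0 := (norm_nonneg _).trans (hG.norm_le 0 x)
  unfold pc
  split_ifs
  · rw [norm_mul, Complex.norm_real, Real.norm_eq_abs]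
    calc _ ≤ 1 * B 0 := mul_le_mul (hg _) (hG.norm_le _ _) (norm_nonneg _) zero_le_one
      _ = B 0 := one_mul _
  · rw [norm_zero]; exact h0

/-- On the chamber the cut-offs are equal to one. -/
theorem pc_chamber {y : E (m + 2)} (hy : y ∈ Ch m) (h1 : ‖y‖ = 1) (b : Fin (m + 2) → ℝ)
    (G : ℝ → E (m + 2) → ℂ) :
    pc (gN m) b (fun t y => (tN m (y (Fin.last (m + 1))) : ℂ) * G t y) y =
      G (∑ i, b i * y i ^ 2) y := by
  have h0 : 0 < y 0 := ch_pos hy 0
  have hsq : ∑ i, y i ^ 2 = 1 := by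
    have h2 := EuclideanSpace.real_norm_sq_eq y
    rw [h1] at h2
    linarith
  have e1 : gN m (y 0 ^ 2 / ∑ j : Fin (m + 1), y j.castSucc ^ 2) = 1 := by
    refine gN_one ?_
    have h3 : ∑ j : Fin (m + 1), y j.castSucc ^ 2 ≤ (m + 1) * y 0 ^ 2 := by
      calc ∑ j : Fin (m + 1), y j.castSucc ^ 2 ≤ ∑ _j : Fin (m + 1), y 0 ^ 2 := by
            refine Finset.sum_le_sum fun j _ => ?_
            exact pow_le_pow_left₀ (ch_pos hy _).le (ch_zero hy j) 2
        _ = (m + 1) * y 0 ^ 2 := by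
            rw [Finset.sum_const, Finset.card_univ, Fintype.card_fin, nsmul_eq_mul]
            push_cast
            ring
    have h4 : 0 < ∑ j : Fin (m + 1), y j.castSucc ^ 2 := by
      have h5 : y (Fin.castSucc 0) ^ 2 ≤ ∑ j : Fin (m + 1), y j.castSucc ^ 2 :=
        Finset.single_le_sum (f := fun j : Fin (m + 1) => y j.castSucc ^ 2)
          (fun _ _ => by positivity) (Finset.mem_univ 0)
      have h6 : 0 < y (Fin.castSucc 0) ^ 2 := pow_pos (ch_pos hy _) 2
      linarith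
    rw [div_le_div_iff₀ (by positivity) h4]
    linarith
  have e2 : tN m (y (Fin.last (m + 1))) = 1 := by
    refine tN_one ?_ (ch_pos hy _).le ?_
    · calc (1 : ℝ) = ∑ i, y i ^ 2 := hsq.symm
        _ ≤ ∑ _i : Fin (m + 2), y (Fin.last (m + 1)) ^ 2 := by
            refine Finset.sum_le_sum fun i _ => ?_
            exact pow_le_pow_left₀ (ch_pos hy _).le (ch_last hy i) 2
        _ = (m + 2) * y (Fin.last (m + 1)) ^ 2 := by
            rw [Finset.sum_const, Finset.card_univ, Fintype.card_fin, nsmul_eq_mul]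
            push_cast
            ring
    · have h2 := PiLp.norm_apply_le y (Fin.last (m + 1))
      rw [h1, Real.norm_eq_abs] at h2
      exact (le_abs_self _).trans h2
  unfold pc
  rw [if_pos h0, e1]
  simp only [e2, Complex.ofReal_one, one_mul]

/-! ### A chamber of a piece -/

theorem extn_const_mul {n : ℕ} (c : ℂ) (g : E n → ℂ) (ξ : E n) :
    extn (fun x => c * g x) ξ = c * extn g ξ := by
  unfold extn
  rw [← integral_const_mul]
  refine integral_congr_ae (Filter.Eventually.of_forall fun x => ?_)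
  simp only
  ring

/-- The chamber of a piece, from the piece. -/
theorem pc_cut {b : Fin (m + 2) → ℝ} {p : ℝ} (hp : 1 < p) {g0 : ℝ → ℝ} (hg : Measurable g0)
    (hg1 : ∀ r, |g0 r| ≤ 1) {k0 : ℝ}
    (h : ∃ η : ℝ, 0 < η ∧ ∀ B : ℕ → ℝ, ∃ C : ℝ, ∀ G : ℝ → E (m + 2) → ℂ, GC B G →
      (∀ t x, x (Fin.last (m + 1)) ≤ k0 → G t x = 0) → ∀ R : ℝ, 1 ≤ R →
      ∫⁻ ξ in {ξ : E (m + 2) | R ≤ ‖ξ‖}, ‖extn (pc g0 b G) ξ‖ₑ ^ p ≤
        ENNReal.ofReal (C * R ^ (-η))) :
    ∃ η : ℝ, 0 < η ∧ ∀ B : ℕ → ℝ, ∃ C : ℝ, ∀ G : ℝ → E (m + 2) → ℂ, GC B G →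
      (∀ t x, x (Fin.last (m + 1)) ≤ k0 → G t x = 0) → ∀ R : ℝ, 1 ≤ R →
      ∫⁻ ξ in {ξ : E (m + 2) | R ≤ ‖ξ‖}, ‖extn ((Ch m).indicator (pc g0 b G)) ξ‖ₑ ^ p ≤
        ENNReal.ofReal (C * R ^ (-η)) := by
  obtain ⟨η, hη, h⟩ := h
  obtain ⟨C1, η1, hη1, h1⟩ := HSL.halfspaces (m + 2) (m + 2) (C := 1) hp hη
  refine ⟨η1, hη1, fun B => ?_⟩
  obtain ⟨C, hC⟩ := h B
  have hp0 : 0 < p := by linarith
  obtain ⟨K, hK1, hKB, hKC⟩ : ∃ K : ℝ, 1 ≤ K ∧ |B 0| ≤ K ∧ |C| ≤ K ^ p := by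
    refine ⟨max 1 (max |B 0| |C|), le_max_left _ _, (le_max_left _ _).trans (le_max_right _ _), ?_⟩
    have h2 : |C| ≤ max 1 (max |B 0| |C|) := (le_max_right _ _).trans (le_max_right _ _)
    refine h2.trans ?_
    have h3 := Real.rpow_le_rpow_of_exponent_le (le_max_left 1 (max |B 0| |C|)) hp.le
    rwa [Real.rpow_one] at h3
  have hK0 : 0 < K := by linarith
  refine ⟨K ^ p * |C1|, fun G hG hz R hR => ?_⟩
  have hR0 : 0 < R := by linarith
  have hKe : ∀ c : ℂ, ‖(K : ℂ) * c‖ₑ ^ p = ENNReal.ofReal (K ^ p) * ‖c‖ₑ ^ p := by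
    intro c
    rw [enorm_mul, ENNReal.mul_rpow_of_nonneg _ _ hp0.le]
    congr 1
    rw [← ofReal_norm, Complex.norm_real, Real.norm_of_nonneg hK0.le,
      ENNReal.ofReal_rpow_of_pos hK0]
  have hKi : ∀ c : ℂ, ‖((K : ℂ)⁻¹) * c‖ₑ ^ p = ENNReal.ofReal ((K ^ p)⁻¹) * ‖c‖ₑ ^ p := by
    intro c
    rw [enorm_mul, ENNReal.mul_rpow_of_nonneg _ _ hp0.le]
    congr 1
    rw [← ofReal_norm, norm_inv, Complex.norm_real, Real.norm_of_nonneg hK0.le,
      ENNReal.ofReal_rpow_of_pos (by positivity), Real.inv_rpow hK0.le]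
  have h2 := h1 (T := ℝ) (fun x : E (m + 2) => ∑ i, b i * x i ^ 2)
    (fun f => ∃ G : ℝ → E (m + 2) → ℂ, GC B G ∧
      (∀ t x, x (Fin.last (m + 1)) ≤ k0 → G t x = 0) ∧ f = fun x => (K : ℂ)⁻¹ * pc g0 b G x)
    (meas_quad b) ?_ ?_ ?_ ?_ (fun x => (K : ℂ)⁻¹ * pc g0 b G x) ⟨G, hG, hz, rfl⟩ (wl m) wl_norm
    (fun _ _ => 0) (fun _ => measurable_const) R hR
  · have h3 : (Ch m).indicator (pc g0 b G) = fun x => (K : ℂ) *
        ({x : E (m + 2) | ∀ j, (fun _ _ => 0 : Fin (m + 2) → ℝ → ℝ) j (∑ i, b i * x i ^ 2) <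
          inner ℝ (wl m j) x}.indicator (fun x => (K : ℂ)⁻¹ * pc g0 b G x)) x := by
      funext x
      by_cases hx : x ∈ Ch m
      · have hx' := (ch_iff x).1 hx
        rw [indicator_of_mem hx, indicator_of_mem (by exact hx'), ← mul_assoc,
          mul_inv_cancel₀ (by exact_mod_cast hK0.ne'), one_mul]
      · have hx' : ¬ ∀ j, (0 : ℝ) < inner ℝ (wl m j) x := fun h => hx ((ch_iff x).2 h)
        rw [indicator_of_notMem hx, indicator_of_notMem (by exact hx'), mul_zero]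
    rw [h3]
    simp_rw [extn_const_mul, hKe]
    rw [lintegral_const_mul' _ _ ENNReal.ofReal_ne_top]
    calc _ ≤ ENNReal.ofReal (K ^ p) * ENNReal.ofReal (C1 * R ^ (-η1)) := by gcongr
      _ = ENNReal.ofReal (K ^ p * (C1 * R ^ (-η1))) := (ENNReal.ofReal_mul (by positivity)).symm
      _ ≤ _ := by
          refine ENNReal.ofReal_le_ofReal ?_
          rw [mul_assoc]
          gcongr
          exact le_abs_self _
  · rintro f ⟨G, hG, -, rfl⟩
    exact (pc_meas hG b hg).const_mul _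
  · rintro f ⟨G, hG, -, rfl⟩ x
    rw [norm_mul, norm_inv, Complex.norm_real, Real.norm_of_nonneg hK0.le]
    have h3 := pc_le hG b hg1 x
    rw [inv_mul_le_iff₀ hK0, mul_one]
    exact h3.trans ((le_abs_self _).trans hKB)
  · rintro f ⟨G, hG, hz, rfl⟩ F hF hF1
    refine ⟨fun t x => F t * G t x, hG.mod hF hF1, fun t x hx => ?_, ?_⟩
    · show F t * G t x = 0
      rw [hz t x hx, mul_zero]
    · funext x
      simp only [pc]
      split_ifs
      · ring
      · simp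
  · rintro f ⟨G, hG, hz, rfl⟩ R hR
    have hR0 : 0 < R := by linarith
    simp_rw [extn_const_mul, hKi]
    rw [lintegral_const_mul' _ _ ENNReal.ofReal_ne_top]
    calc _ ≤ ENNReal.ofReal ((K ^ p)⁻¹) * ENNReal.ofReal (C * R ^ (-η)) := by
          gcongr
          exact hC G hG hz R hR
      _ = ENNReal.ofReal ((K ^ p)⁻¹ * (C * R ^ (-η))) := (ENNReal.ofReal_mul (by positivity)).symm
      _ ≤ _ := by
          refine ENNReal.ofReal_le_ofReal ?_
          rw [← mul_assoc]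
          gcongr
          rw [inv_mul_le_iff₀ (by positivity), mul_one]
          exact (le_abs_self _).trans hKC

/-! ### The whole sphere -/

/-- The row PIECE for the exponent `p`. -/
def PieceAt (m : ℕ) (p : ℝ) : Prop :=
  ∀ b : Fin (m + 2) → ℝ, Function.Injective b → ∀ k0 : ℝ, 0 < k0 → ∀ g0 : ℝ → ℝ,
    ContDiff ℝ ∞ g0 → (∀ r ≤ k0, g0 r = 0) → ∃ η : ℝ, 0 < η ∧ ∀ B : ℕ → ℝ, ∃ C : ℝ,
    ∀ G : ℝ → E (m + 2) → ℂ, GC B G → (∀ t x, x (Fin.last (m + 1)) ≤ k0 → G t x = 0) →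
      ∀ R : ℝ, 1 ≤ R → ∫⁻ ξ in {ξ : E (m + 2) | R ≤ ‖ξ‖}, ‖extn (fun x => if 0 < x 0 then
        (g0 (x 0 ^ 2 / ∑ j : Fin (m + 1), x j.castSucc ^ 2) : ℂ) *
          G (∑ i, b i * x i ^ 2) x else 0) ξ‖ₑ ^ p ≤ ENNReal.ofReal (C * R ^ (-η))

/-- The density of a chamber of `G`. -/
noncomputable def Gc (c : Equiv.Perm (Fin (m + 2)) × (Fin (m + 2) → Bool))
    (G : ℝ → E (m + 2) → ℂ) (t : ℝ) (y : E (m + 2)) : ℂ :=
  (tN m (y (Fin.last (m + 1))) : ℂ) * G t ((Rc c).symm y)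

theorem sb_abs (s : Bool) : |LQ.sb s| = 1 := by cases s <;> simp [LQ.sb]

theorem quad_Rc (b : Fin (m + 2) → ℝ) (c : Equiv.Perm (Fin (m + 2)) × (Fin (m + 2) → Bool))
    (x : E (m + 2)) : ∑ i, b (c.1 i) * (Rc c x) i ^ 2 = ∑ i, b i * x i ^ 2 := by
  have h2 : ∀ i, b (c.1 i) * (Rc c x) i ^ 2 = (fun j => b j * x j ^ 2) (c.1 i) := by
    intro i
    rw [Rc_apply, mul_pow, LQ.sb_sq, one_mul]
  simp_rw [h2]
  exact Equiv.sum_comp c.1 fun j => b j * x j ^ 2

/-- The sum over the chambers. -/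
theorem sum_ch {x : E (m + 2)} (hx : ‖x‖ = 1) (h0 : ∀ i, x i ≠ 0)
    (h1 : ∀ i j, i ≠ j → |x i| ≠ |x j|) (b : Fin (m + 2) → ℝ) (G : ℝ → E (m + 2) → ℂ) :
    ∑ c, (Ch m).indicator (pc (gN m) (fun i => b (c.1 i)) (Gc c G)) (Rc c x) =
      G (∑ i, b i * x i ^ 2) x := by
  have h2 : ∀ c, (Ch m).indicator (pc (gN m) (fun i => b (c.1 i)) (Gc c G)) (Rc c x) =
      (Ch m).indicator (fun _ => (1 : ℂ)) (Rc c x) * G (∑ i, b i * x i ^ 2) x := by
    intro c
    by_cases hc : Rc c x ∈ Ch m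
    · rw [indicator_of_mem hc, indicator_of_mem hc, one_mul]
      have h3 := pc_chamber hc (by rw [LinearIsometryEquiv.norm_map, hx]) (fun i => b (c.1 i))
        (fun t y => G t ((Rc c).symm y))
      rw [quad_Rc, LinearIsometryEquiv.symm_apply_apply] at h3
      exact h3
    · rw [indicator_of_notMem hc, indicator_of_notMem hc, zero_mul]
  simp_rw [h2]
  rw [← Finset.sum_mul, ch_sum h0 h1, one_mul]

theorem meas_ch : MeasurableSet (Ch m) := by
  have h1 : Ch m = ⋂ j, {y : E (m + 2) | (0 : ℝ) < inner ℝ (wl m j) y} := by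
    ext y
    rw [ch_iff, mem_iInter]
    exact Iff.rfl
  rw [h1]
  exact MeasurableSet.iInter fun j => measurableSet_lt measurable_const
    (Measurable.inner measurable_const measurable_id)

/-- ROW RESQ over PIECE: the whole sphere, with tails. -/
theorem quadQ_of {b : Fin (m + 2) → ℝ} (hb : Function.Injective b) {p : ℝ} (hp : 1 < p)
    (hpc : PieceAt m p) :
    ∃ η : ℝ, 0 < η ∧ ∀ B : ℕ → ℝ, ∃ C : ℝ, ∀ G : ℝ → E (m + 2) → ℂ, GC B G → ∀ R : ℝ, 1 ≤ R →
      ∫⁻ ξ in {ξ : E (m + 2) | R ≤ ‖ξ‖}, ‖extn (fun x => G (∑ i, b i * x i ^ 2) x) ξ‖ₑ ^ p ≤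
        ENNReal.ofReal (C * R ^ (-η)) := by
  have hcut := fun σ : Equiv.Perm (Fin (m + 2)) =>
    pc_cut hp (gN_smooth (m := m)).continuous.measurable gN_abs
      (hpc (fun i => b (σ i)) (hb.comp σ.injective) (1 / (4 * (m + 2))) (by positivity) (gN m)
        gN_smooth fun r hr => gN_zero hr)
  choose η hη hC using hcut
  obtain ⟨σ0, -, hσ0⟩ := Finset.exists_min_image
    (Finset.univ : Finset (Equiv.Perm (Fin (m + 2)))) η ⟨1, Finset.mem_univ 1⟩
  obtain ⟨N, hN⟩ : ∃ N : ℝ, N = ((Finset.univ : Finset (Equiv.Perm (Fin (m + 2)) ×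
      (Fin (m + 2) → Bool))).card : ℝ) := ⟨_, rfl⟩
  have hN0 : 0 ≤ N := by rw [hN]; positivity
  refine ⟨η σ0, hη σ0, fun B => ?_⟩
  have hbd : LQ.Bd fun x : E (m + 2) => tN m (x (Fin.last (m + 1))) := bd_coord tN_bd _
  obtain ⟨hV, hbd⟩ := hbd
  choose Cv hCv using hbd
  choose C hC using fun σ => hC σ
    (fun k => ∑ i ∈ Finset.range (k + 1), (k.choose i : ℝ) * Cv i * B (k - i))
  refine ⟨N ^ (p - 1) * (N * ∑ σ, |C σ|), fun G hG R hR => ?_⟩
  have hR0 : 0 < R := by linarith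
  have hGc : ∀ c, GC (fun k => ∑ i ∈ Finset.range (k + 1), (k.choose i : ℝ) * Cv i * B (k - i))
      (Gc c G) := fun c => (hG.comp_iso (Rc c).symm).mul_bd hV hCv
  have hGz : ∀ c (t : ℝ) (y : E (m + 2)), y (Fin.last (m + 1)) ≤ 1 / (4 * ((m : ℝ) + 2)) →
      Gc c G t y = 0 := by
    intro c t y hy
    unfold Gc
    rw [tN_zero hy, Complex.ofReal_zero, zero_mul]
  obtain ⟨f, hf⟩ : ∃ f : Equiv.Perm (Fin (m + 2)) × (Fin (m + 2) → Bool) → E (m + 2) → ℂ,
      f = fun c => (Ch m).indicator (pc (gN m) (fun i => b (c.1 i)) (Gc c G)) := ⟨_, rfl⟩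
  have hfm : ∀ c, Measurable (f c) := by
    intro c
    rw [hf]
    exact (pc_meas (hGc c) _ gN_smooth.continuous.measurable).indicator meas_ch
  have hfb : ∀ c x, ‖f c x‖ ≤ (fun k => ∑ i ∈ Finset.range (k + 1),
      (k.choose i : ℝ) * Cv i * B (k - i)) 0 := by
    intro c x
    rw [hf]
    exact (norm_indicator_le_norm_self _ _).trans (pc_le (hGc c) _ gN_abs x)
  have hsum : ∀ ξ, extn (fun x => G (∑ i, b i * x i ^ 2) x) ξ = ∑ c, extn (f c) (Rc c ξ) := by
    intro ξ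
    have h1 : ∀ c, extn (f c) (Rc c ξ) = extn (fun x => f c (Rc c x)) ξ := fun c =>
      (LQ.extn_iso (Rc c) (hfm c) ξ).symm
    simp_rw [h1]
    unfold extn
    rw [← integral_finsetSum]
    · refine integral_congr_ae ?_
      filter_upwards [ae_generic] with x hx
      have h4 : ‖(x : E (m + 2))‖ = 1 := mem_sphere_zero_iff_norm.mp x.2
      rw [← Finset.sum_mul, hf]
      simp only
      rw [sum_ch h4 hx.1 hx.2]
    · intro c _
      exact LQ.extn_integrable ((hfm c).comp (Rc c).continuous.measurable) (fun x => hfb c _) ξ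
  calc ∫⁻ ξ in {ξ : E (m + 2) | R ≤ ‖ξ‖}, ‖extn (fun x => G (∑ i, b i * x i ^ 2) x) ξ‖ₑ ^ p
      ≤ ∫⁻ ξ in {ξ : E (m + 2) | R ≤ ‖ξ‖}, ENNReal.ofReal (N ^ (p - 1)) *
        ∑ c, ‖extn (f c) (Rc c ξ)‖ₑ ^ p := by
        refine lintegral_mono fun ξ => ?_
        simp only
        rw [hsum]
        refine (ENNReal.rpow_le_rpow (enorm_sum_le _ _) (by linarith)).trans ?_
        refine (ENNReal.rpow_sum_le_const_mul_sum_rpow _ _ hp.le).trans (le_of_eq ?_)
        congr 1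
        rw [← ENNReal.ofReal_rpow_of_nonneg hN0 (by linarith), hN, ENNReal.ofReal_natCast]
    _ = ENNReal.ofReal (N ^ (p - 1)) * ∑ c, ∫⁻ ξ in {ξ : E (m + 2) | R ≤ ‖ξ‖},
        ‖extn (f c) (Rc c ξ)‖ₑ ^ p := by
        rw [lintegral_const_mul, lintegral_finsetSum]
        · intro c _
          exact ((measurable_extn _ (hfm c)).comp (Rc c).continuous.measurable).enorm.pow_const p
        · refine Finset.measurable_sum _ fun c _ => ?_
          exact ((measurable_extn _ (hfm c)).comp (Rc c).continuous.measurable).enorm.pow_const p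
    _ ≤ ENNReal.ofReal (N ^ (p - 1)) *
        ∑ _c : Equiv.Perm (Fin (m + 2)) × (Fin (m + 2) → Bool),
          ENNReal.ofReal ((∑ σ, |C σ|) * R ^ (-(η σ0))) := by
        gcongr with c _
        have h1 := (Rc c).measurePreserving.setLIntegral_comp_preimage_emb
          (Rc c).toHomeomorph.measurableEmbedding
          (fun ξ => ‖extn (f c) ξ‖ₑ ^ p) {ξ : E (m + 2) | R ≤ ‖ξ‖}
        have h2 : (Rc c) ⁻¹' {ξ : E (m + 2) | R ≤ ‖ξ‖} = {ξ : E (m + 2) | R ≤ ‖ξ‖} := by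
          ext ξ; simp
        rw [h2] at h1
        rw [h1, hf]
        refine (hC c.1 (Gc c G) (hGc c) (hGz c) R hR).trans (ENNReal.ofReal_le_ofReal ?_)
        have h3 : R ^ (-(η c.1)) ≤ R ^ (-(η σ0)) :=
          Real.rpow_le_rpow_of_exponent_le hR (neg_le_neg (hσ0 c.1 (Finset.mem_univ _)))
        have h4 : |C c.1| ≤ ∑ σ, |C σ| :=
          Finset.single_le_sum (f := fun σ => |C σ|) (fun _ _ => abs_nonneg _) (Finset.mem_univ _)
        calc C c.1 * R ^ (-(η c.1)) ≤ |C c.1| * R ^ (-(η c.1)) := by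
              gcongr
              exact le_abs_self _
          _ ≤ (∑ σ, |C σ|) * R ^ (-(η σ0)) := by gcongr
    _ = ENNReal.ofReal (N ^ (p - 1) * (N * ∑ σ, |C σ|) * R ^ (-(η σ0))) := by
        rw [Finset.sum_const, nsmul_eq_mul, ← ENNReal.ofReal_natCast, ← hN,
          ← ENNReal.ofReal_mul hN0, ← ENNReal.ofReal_mul (by positivity)]
        congr 1
        ring

/-- Tails give the whole space. -/
theorem all_of_tail {n : ℕ} {p : ℝ} (hp : 0 ≤ p) {C η B0 : ℝ} : ∃ C' : ℝ≥0, ∀ f : E n → ℂ,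
    (∀ x, ‖f x‖ ≤ B0) →
    (∀ R : ℝ, 1 ≤ R → ∫⁻ ξ in {ξ : E n | R ≤ ‖ξ‖}, ‖extn f ξ‖ₑ ^ p ≤
      ENNReal.ofReal (C * R ^ (-η))) → ∫⁻ ξ, ‖extn f ξ‖ₑ ^ p ≤ C' := by
  obtain ⟨D, hD⟩ : ∃ D : ℝ≥0∞, D = ENNReal.ofReal (C * 1 ^ (-η)) +
      ENNReal.ofReal (B0 * (sm n).real univ) ^ p * volume (Metric.closedBall (0 : E n) 1) :=
    ⟨_, rfl⟩
  have hDtop : D ≠ ⊤ := by
    rw [hD]
    exact ENNReal.add_ne_top.2 ⟨ENNReal.ofReal_ne_top, ENNReal.mul_ne_top
      (ENNReal.rpow_ne_top_of_nonneg hp ENNReal.ofReal_ne_top) measure_closedBall_lt_top.ne⟩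
  refine ⟨D.toNNReal, fun f hf h => ?_⟩
  rw [ENNReal.coe_toNNReal hDtop]
  have hb : ∀ ξ, ‖extn f ξ‖ₑ ≤ ENNReal.ofReal (B0 * (sm n).real univ) := by
    intro ξ
    rw [← ofReal_norm]
    refine ENNReal.ofReal_le_ofReal ?_
    unfold extn
    refine norm_integral_le_of_norm_le_const (Filter.Eventually.of_forall fun x => ?_)
    rw [norm_mul, Complex.norm_exp_ofReal_mul_I, mul_one]
    exact hf _
  calc ∫⁻ ξ, ‖extn f ξ‖ₑ ^ p = ∫⁻ ξ in univ, ‖extn f ξ‖ₑ ^ p := by rw [setLIntegral_univ]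
    _ ≤ ∫⁻ ξ in {ξ : E n | 1 ≤ ‖ξ‖} ∪ Metric.closedBall 0 1, ‖extn f ξ‖ₑ ^ p := by
        refine lintegral_mono_set fun ξ _ => ?_
        rcases le_total 1 ‖ξ‖ with h1 | h1
        · exact Or.inl h1
        · exact Or.inr (mem_closedBall_zero_iff.2 h1)
    _ ≤ (∫⁻ ξ in {ξ : E n | 1 ≤ ‖ξ‖}, ‖extn f ξ‖ₑ ^ p) +
        ∫⁻ ξ in Metric.closedBall 0 1, ‖extn f ξ‖ₑ ^ p := lintegral_union_le _ _ _
    _ ≤ D := by
        rw [hD]
        refine add_le_add (h 1 le_rfl) ?_
        refine (lintegral_mono fun ξ => ENNReal.rpow_le_rpow (hb ξ) hp).trans ?_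
        rw [setLIntegral_const]

/-- The whole space, from the tails. -/
theorem quadQ_all {n : ℕ} {b : Fin n → ℝ} {p : ℝ} (hp : 0 ≤ p)
    (h : ∃ η : ℝ, 0 < η ∧ ∀ B : ℕ → ℝ, ∃ C : ℝ, ∀ G : ℝ → E n → ℂ, GC B G → ∀ R : ℝ, 1 ≤ R →
      ∫⁻ ξ in {ξ : E n | R ≤ ‖ξ‖}, ‖extn (fun x => G (∑ i, b i * x i ^ 2) x) ξ‖ₑ ^ p ≤
        ENNReal.ofReal (C * R ^ (-η))) (B : ℕ → ℝ) :
    ∃ C : ℝ≥0, ∀ G : ℝ → E n → ℂ, GC B G →
      ∫⁻ ξ : E n, ‖extn (fun x => G (∑ i, b i * x i ^ 2) x) ξ‖ₑ ^ p ≤ C := by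
  obtain ⟨η, -, h⟩ := h
  obtain ⟨C, h⟩ := h B
  obtain ⟨C', hC'⟩ := all_of_tail hp (C := C) (η := η) (B0 := B 0)
  exact ⟨C', fun G hG => hC' _ (fun x => hG.norm_le _ _) (h G hG)⟩

end Pool.Agent.LQN
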