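import Pool.Agent.LQ.PIECE3
import Pool.Agent.LQN.RED
import Pool.Agent.LQN.PIECE2b

/-!
[LQN] row PIECE, part 3, for every `n = m + 2`: the density of `piece` is the sum of its dyadic
pieces.
-/

set_option autoImplicit false

namespace Pool.Agent.LQN

open MeasureTheory Set Filter Topology Pool.Agent.MP_6cbfb8_an
open scoped RealInnerProductSpace ContDiff Real

variable {m : ℕ}

theorem fp_eq (b : Fin (m + 2) → ℝ) (g0 : ℝ → ℝ) (G : ℝ → E (m + 2) → ℂ) :
    fp b g0 G = pc g0 b G := rfl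

/-- The square of the distance to the axis. -/
theorem p3_meas_nn : Measurable fun x : E (m + 2) => ∑ j : Fin (m + 1), x j.castSucc ^ 2 :=
  (by fun_prop : Continuous fun x : E (m + 2) => ∑ j : Fin (m + 1), x j.castSucc ^ 2).measurable

theorem p3_nn_nonneg (x : E (m + 2)) : 0 ≤ ∑ j : Fin (m + 1), x j.castSucc ^ 2 := by positivity

theorem p3_sq_le_nn (x : E (m + 2)) : x 0 ^ 2 ≤ ∑ j : Fin (m + 1), x j.castSucc ^ 2 :=
  Finset.single_le_sum (f := fun j : Fin (m + 1) => x j.castSucc ^ 2)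
    (fun _ _ => by positivity) (Finset.mem_univ 0)

theorem p3_nn_le_one {x : E (m + 2)} (hx : ‖x‖ = 1) :
    ∑ j : Fin (m + 1), x j.castSucc ^ 2 ≤ 1 := by
  have h1 := EuclideanSpace.real_norm_sq_eq x
  rw [hx, Fin.sum_univ_castSucc] at h1
  nlinarith [sq_nonneg (x (Fin.last (m + 1)))]

theorem measurable_fp {B : ℕ → ℝ} {G : ℝ → E (m + 2) → ℂ} (hG : GC B G) (b : Fin (m + 2) → ℝ)
    {g0 : ℝ → ℝ} (hg : Measurable g0) : Measurable (fp b g0 G) := by
  rw [fp_eq]
  exact pc_meas hG b hg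

theorem measurable_fl {B : ℕ → ℝ} {G : ℝ → E (m + 2) → ℂ} (hG : GC B G) (b : Fin (m + 2) → ℝ)
    {g0 : ℝ → ℝ} (hg : Measurable g0) (l : ℕ) : Measurable (fl b g0 G l) := by
  unfold fl
  refine Measurable.mul ?_ (measurable_fp hG b hg)
  refine Complex.measurable_ofReal.comp (LQ.psd_smooth.continuous.measurable.comp ?_)
  exact measurable_const.mul p3_meas_nn

/-- The densities are bounded. -/
theorem fp_bound {g0 : ℝ → ℝ} (hg : Continuous g0) (B : ℕ → ℝ) : ∃ M : ℝ, 0 ≤ M ∧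
    ∀ (b : Fin (m + 2) → ℝ) (G : ℝ → E (m + 2) → ℂ), GC B G → (∀ x, ‖fp b g0 G x‖ ≤ M) ∧
      ∀ l x, ‖fl b g0 G l x‖ ≤ M := by
  obtain ⟨M0, hM0⟩ := (isCompact_Icc (a := (0 : ℝ)) (b := 1)).exists_bound_of_continuousOn
    hg.continuousOn
  have hM00 : 0 ≤ M0 := (norm_nonneg _).trans (hM0 0 (by simp))
  refine ⟨M0 * |B 0|, by positivity, fun b G hG => ?_⟩
  have h1 : ∀ x, ‖fp b g0 G x‖ ≤ M0 * |B 0| := by
    intro x
    unfold fp
    split_ifs
    · rw [norm_mul, Complex.norm_real]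
      refine mul_le_mul (hM0 _ ⟨div_nonneg (by positivity) (p3_nn_nonneg x), ?_⟩)
        ((hG.norm_le _ _).trans (le_abs_self _)) (norm_nonneg _) hM00
      exact div_le_one_of_le₀ (p3_sq_le_nn x) (p3_nn_nonneg x)
    · rw [norm_zero]; positivity
  refine ⟨h1, fun l x => ?_⟩
  unfold fl
  rw [norm_mul, Complex.norm_real, Real.norm_eq_abs]
  calc |LQ.psd (4 ^ l * ∑ j : Fin (m + 1), x j.castSucc ^ 2)| * ‖fp b g0 G x‖ ≤
      1 * (M0 * |B 0|) := mul_le_mul (LQ.psd_le _) (h1 x) (norm_nonneg _) zero_le_one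
    _ = _ := one_mul _

/-- The density is the sum of its pieces. -/
theorem fl_hasSum_pt (b : Fin (m + 2) → ℝ) (g0 : ℝ → ℝ) (G : ℝ → E (m + 2) → ℂ) {x : E (m + 2)}
    (hx : ‖x‖ = 1) : HasSum (fun l => fl b g0 G l x) (fp b g0 G x) := by
  by_cases h0 : 0 < x 0
  · have hp : 0 < ∑ j : Fin (m + 1), x j.castSucc ^ 2 := lt_of_lt_of_le (by positivity) (p3_sq_le_nn x)
    have h2 := (Complex.hasSum_ofReal.2 (LQ.psd_hasSum hp (p3_nn_le_one hx))).mul_right (fp b g0 G x)
    rw [Complex.ofReal_one, one_mul] at h2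
    exact h2
  · have h1 : fp b g0 G x = 0 := by
      unfold fp
      rw [if_neg h0]
    have h2 : ∀ l, fl b g0 G l x = 0 := fun l => by
      unfold fl
      rw [h1, mul_zero]
    rw [h1]
    simp_rw [h2]
    exact hasSum_zero

/-- The transform is the sum of the transforms of the pieces. -/
theorem fl_hasSum {B : ℕ → ℝ} {G : ℝ → E (m + 2) → ℂ} (hG : GC B G) (b : Fin (m + 2) → ℝ)
    {g0 : ℝ → ℝ} (hg : Continuous g0) (ξ : E (m + 2)) :
    HasSum (fun l => extn (fl b g0 G l) ξ) (extn (fp b g0 G) ξ) := by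
  obtain ⟨M, hM0, hM⟩ := fp_bound (m := m) hg B
  obtain ⟨hM1, -⟩ := hM b G hG
  have hexp : ∀ x : S (m + 2), ‖Complex.exp (((-(2 * π * inner ℝ (x : E (m + 2)) ξ) : ℝ) : ℂ) *
      Complex.I)‖ = 1 := fun x => Complex.norm_exp_ofReal_mul_I _
  have hx1 : ∀ x : S (m + 2), ‖(x : E (m + 2))‖ = 1 := fun x => mem_sphere_zero_iff_norm.mp x.2
  have hsum : ∀ x : S (m + 2), ∀ v : ℝ, v = ∑ j : Fin (m + 1), (x : E (m + 2)) j.castSucc ^ 2 →
      Summable (fun l : ℕ => LQ.psd (4 ^ l * v)) ∧ ∑' l : ℕ, LQ.psd (4 ^ l * v) ≤ 1 := by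
    intro x v hv
    have hn : v ≤ 1 := hv ▸ p3_nn_le_one (hx1 x)
    have h0 : 0 ≤ v := hv ▸ p3_nn_nonneg _
    rcases h0.lt_or_eq with h2 | h2
    · have h3 := LQ.psd_hasSum h2 hn
      exact ⟨h3.summable, h3.tsum_eq.le⟩
    · have h3 : ∀ l : ℕ, LQ.psd (4 ^ l * v) = 0 := fun l => by
        rw [← h2, mul_zero]
        exact LQ.psd_zero (Or.inl (by norm_num))
      simp_rw [h3]
      refine ⟨summable_zero, ?_⟩
      rw [tsum_zero]
      norm_num
  unfold extn
  refine hasSum_integral_of_dominated_convergence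
    (fun l x => LQ.psd (4 ^ l * ∑ j : Fin (m + 1), (x : E (m + 2)) j.castSucc ^ 2) * M)
    ?_ ?_ ?_ ?_ ?_
  · intro l
    exact (LQ.extn_integrable (measurable_fl hG b hg.measurable l) (hM b G hG |>.2 l)
      ξ).aestronglyMeasurable
  · intro l
    refine Eventually.of_forall fun x => ?_
    rw [norm_mul, hexp, mul_one]
    unfold fl
    rw [norm_mul, Complex.norm_real, Real.norm_of_nonneg (LQ.psd_nonneg _)]
    exact mul_le_mul_of_nonneg_left (hM1 _) (LQ.psd_nonneg _)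
  · exact Eventually.of_forall fun x => ((hsum x _ rfl).1.mul_right M)
  · have hm : Measurable fun x : S (m + 2) =>
        ∑' l : ℕ, LQ.psd (4 ^ l * ∑ j : Fin (m + 1), (x : E (m + 2)) j.castSucc ^ 2) * M := by
      refine Measurable.tsum fun l => ?_
      refine Measurable.mul_const ?_ M
      have h1 : Continuous fun x : S (m + 2) =>
          LQ.psd (4 ^ l * ∑ j : Fin (m + 1), (x : E (m + 2)) j.castSucc ^ 2) :=
        LQ.psd_smooth.continuous.comp (by fun_prop)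
      exact h1.measurable
    refine Integrable.mono' (integrable_const M) hm.aestronglyMeasurable
      (Eventually.of_forall fun x => ?_)
    rw [tsum_mul_right, Real.norm_of_nonneg (mul_nonneg (tsum_nonneg fun l => LQ.psd_nonneg _) hM0)]
    exact mul_le_of_le_one_left hM0 (hsum x _ rfl).2
  · refine Eventually.of_forall fun x => ?_
    exact (fl_hasSum_pt b g0 G (hx1 x)).mul_right _

end Pool.Agent.LQN
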