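import Pool.Agent.LQ.SUML

/-!
[LQN] row PIECE, part (iii), for every `n = m + 2`: the scaling `w = 2π (d ξ', -d² ξₙ)` and the sum
over the dyadic pieces, with tails.
-/

set_option autoImplicit false

namespace Pool.Agent.LQN

open MeasureTheory Set Metric Pool.Agent.MP_6cbfb8_an
open scoped RealInnerProductSpace ContDiff ENNReal NNReal

/-- The sum over the dyadic pieces. -/
theorem suml {n : ℕ} {p a η : ℝ} (hp : 1 < p) (ha : 1 < a) (hη : 0 < η) :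
    ∃ η' : ℝ, 0 < η' ∧ ∀ K : ℝ, 0 ≤ K → ∃ C : ℝ,
      ∀ (f : ℕ → E n → ℂ) (F : E n → ℂ), (∀ l, Measurable (f l)) →
      (∀ ξ, HasSum (fun l => f l ξ) (F ξ)) →
      (∀ (l : ℕ) (R : ℝ), 1 ≤ R → ∫⁻ ξ in {ξ : E n | R ≤ ‖ξ‖}, ‖f l ξ‖ₑ ^ p ≤
        ENNReal.ofReal (K * ((1 / 4 : ℝ) ^ l) ^ a *
          min 1 (((1 / 4 : ℝ) ^ l * R) ^ (-η)))) →
      ∀ R : ℝ, 1 ≤ R → ∫⁻ ξ in {ξ : E n | R ≤ ‖ξ‖}, ‖F ξ‖ₑ ^ p ≤
        ENNReal.ofReal (C * R ^ (-η')) := by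
  obtain ⟨D, hD, hpt⟩ := LQ.suml_pt (p := p) hp
  obtain ⟨e, he⟩ : ∃ e : ℝ, e = min η (1 / 2) := ⟨_, rfl⟩
  have he0 : 0 < e := by rw [he]; exact lt_min hη (by norm_num)
  have heη : e ≤ η := he ▸ min_le_left _ _
  have he2 : e ≤ 1 / 2 := he ▸ min_le_right _ _
  -- the series
  have hx0 : 0 < (2 : ℝ) ^ (-(1 / 2) : ℝ) := by positivity
  have hx : (2 : ℝ) ^ (-(1 / 2) : ℝ) < 1 :=
    Real.rpow_lt_one_of_one_lt_of_neg (by norm_num) (by norm_num)
  obtain ⟨S, hS⟩ : ∃ S : ℝ≥0∞, S = ∑' l : ℕ, ENNReal.ofReal ((2 : ℝ) ^ (-(1 / 2) : ℝ)) ^ l :=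
    ⟨_, rfl⟩
  have hStop : S ≠ ⊤ := by
    rw [hS, ENNReal.tsum_geometric]
    refine ENNReal.inv_ne_top.2 ?_
    rw [Ne, tsub_eq_zero_iff_le, not_le]
    rw [← ENNReal.ofReal_one]
    exact (ENNReal.ofReal_lt_ofReal_iff (by norm_num)).2 hx
  refine ⟨e, he0, fun K hK => ⟨(D * S).toReal * K, fun f F hf hF h R hR => ?_⟩⟩
  have hR0 : 0 < R := by linarith
  -- one piece
  have h1 : ∀ l : ℕ, ENNReal.ofReal ((2 : ℝ) ^ ((l : ℝ) / 2)) *
      ∫⁻ ξ in {ξ : E n | R ≤ ‖ξ‖}, ‖f l ξ‖ₑ ^ p ≤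
      ENNReal.ofReal (K * R ^ (-e)) * ENNReal.ofReal ((2 : ℝ) ^ (-(1 / 2) : ℝ)) ^ l := by
    intro l
    have hd0 : 0 < (1 / 4 : ℝ) ^ l := by positivity
    have hd1 : (1 / 4 : ℝ) ^ l ≤ 1 := pow_le_one₀ (by norm_num) (by norm_num)
    have h2 : min 1 (((1 / 4 : ℝ) ^ l * R) ^ (-η)) ≤ ((1 / 4 : ℝ) ^ l * R) ^ (-e) := by
      rcases le_total 1 ((1 / 4 : ℝ) ^ l * R) with h3 | h3
      · exact (min_le_right _ _).trans
          (Real.rpow_le_rpow_of_exponent_le h3 (neg_le_neg heη))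
      · exact (min_le_left _ _).trans
          (Real.one_le_rpow_of_pos_of_le_one_of_nonpos (by positivity) h3 (by linarith))
    calc ENNReal.ofReal ((2 : ℝ) ^ ((l : ℝ) / 2)) *
          ∫⁻ ξ in {ξ : E n | R ≤ ‖ξ‖}, ‖f l ξ‖ₑ ^ p
        ≤ ENNReal.ofReal ((2 : ℝ) ^ ((l : ℝ) / 2)) * ENNReal.ofReal
          (K * ((1 / 4 : ℝ) ^ l) ^ a * ((1 / 4 : ℝ) ^ l * R) ^ (-e)) := by
          gcongr
          refine (h l R hR).trans (ENNReal.ofReal_le_ofReal ?_)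
          gcongr
      _ ≤ _ := by
          rw [← ENNReal.ofReal_mul (by positivity), ← ENNReal.ofReal_pow hx0.le,
            ← ENNReal.ofReal_mul (by positivity)]
          refine ENNReal.ofReal_le_ofReal ?_
          rw [Real.mul_rpow hd0.le hR0.le]
          have h4 : ((1 / 4 : ℝ) ^ l) ^ a * ((1 / 4 : ℝ) ^ l) ^ (-e) ≤
              ((1 / 4 : ℝ) ^ l) ^ (1 / 2 : ℝ) := by
            rw [← Real.rpow_add hd0]
            exact Real.rpow_le_rpow_of_exponent_ge hd0 hd1 (by linarith)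
          have h5 : ((1 / 4 : ℝ) ^ l) ^ (1 / 2 : ℝ) = (2 : ℝ) ^ (-(l : ℝ)) := by
            have h6 : (1 / 4 : ℝ) = 2 ^ (-2 : ℝ) := by
              rw [Real.rpow_neg (by norm_num)]
              norm_num
            rw [h6, ← Real.rpow_natCast, ← Real.rpow_mul (by norm_num),
              ← Real.rpow_mul (by norm_num)]
            congr 1
            ring
          have h7 : (2 : ℝ) ^ ((l : ℝ) / 2) * (2 : ℝ) ^ (-(l : ℝ)) =
              ((2 : ℝ) ^ (-(1 / 2) : ℝ)) ^ l := by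
            rw [← Real.rpow_add (by norm_num), ← Real.rpow_natCast, ← Real.rpow_mul (by norm_num)]
            congr 1
            ring
          calc (2 : ℝ) ^ ((l : ℝ) / 2) * (K * ((1 / 4 : ℝ) ^ l) ^ a *
                (((1 / 4 : ℝ) ^ l) ^ (-e) * R ^ (-e)))
              = K * R ^ (-e) * ((2 : ℝ) ^ ((l : ℝ) / 2) *
                (((1 / 4 : ℝ) ^ l) ^ a * ((1 / 4 : ℝ) ^ l) ^ (-e))) := by ring
            _ ≤ K * R ^ (-e) * ((2 : ℝ) ^ ((l : ℝ) / 2) * (2 : ℝ) ^ (-(l : ℝ))) := by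
                rw [← h5]
                gcongr
            _ = _ := by rw [h7]
  calc ∫⁻ ξ in {ξ : E n | R ≤ ‖ξ‖}, ‖F ξ‖ₑ ^ p
      ≤ ∫⁻ ξ in {ξ : E n | R ≤ ‖ξ‖}, D *
        ∑' l : ℕ, ENNReal.ofReal ((2 : ℝ) ^ ((l : ℝ) / 2)) * ‖f l ξ‖ₑ ^ p := by
        refine lintegral_mono fun ξ => ?_
        simp only
        refine le_trans ?_ (hpt fun l => ‖f l ξ‖ₑ)
        rw [← (hF ξ).tsum_eq]
        exact ENNReal.rpow_le_rpow enorm_tsum_le_tsum_enorm (by linarith)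
    _ = D * ∑' l : ℕ, ENNReal.ofReal ((2 : ℝ) ^ ((l : ℝ) / 2)) *
        ∫⁻ ξ in {ξ : E n | R ≤ ‖ξ‖}, ‖f l ξ‖ₑ ^ p := by
        have hm : ∀ l : ℕ, Measurable fun ξ : E n =>
            ENNReal.ofReal ((2 : ℝ) ^ ((l : ℝ) / 2)) * ‖f l ξ‖ₑ ^ p := fun l =>
          ((hf l).enorm.pow_const p).const_mul _
        rw [lintegral_const_mul' _ _ hD, lintegral_tsum fun l => (hm l).aemeasurable]
        congr 2
        funext l
        exact lintegral_const_mul' _ _ ENNReal.ofReal_ne_top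
    _ ≤ D * ∑' l : ℕ, ENNReal.ofReal (K * R ^ (-e)) *
        ENNReal.ofReal ((2 : ℝ) ^ (-(1 / 2) : ℝ)) ^ l := by
        refine mul_le_mul_right (ENNReal.tsum_le_tsum fun l => h1 l) _
    _ = ENNReal.ofReal ((D * S).toReal * K * R ^ (-e)) := by
        rw [ENNReal.tsum_mul_left, ← hS, mul_assoc, ENNReal.ofReal_mul ENNReal.toReal_nonneg,
          ENNReal.ofReal_toReal (ENNReal.mul_ne_top hD hStop)]
        ring

/-- The diagonal map. -/
noncomputable def dgn {n : ℕ} (c : Fin n → ℝ) : E n →ₗ[ℝ] E n where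
  toFun := fun x => WithLp.toLp 2 fun i => c i * x i
  map_add' := fun x y => by ext i; simp [mul_add]
  map_smul' := fun a x => by ext i; simp; ring

theorem dgn_apply {n : ℕ} (c : Fin n → ℝ) (x : E n) (i : Fin n) : dgn c x i = c i * x i := rfl

theorem dgn_det {n : ℕ} (c : Fin n → ℝ) : LinearMap.det (dgn c) = ∏ i, c i := by
  rw [← LinearMap.det_toMatrix (EuclideanSpace.basisFun (Fin n) ℝ).toBasis]
  have h1 : LinearMap.toMatrix (EuclideanSpace.basisFun (Fin n) ℝ).toBasis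
      (EuclideanSpace.basisFun (Fin n) ℝ).toBasis (dgn c) = Matrix.diagonal c := by
    ext i j
    rw [LinearMap.toMatrix_apply]
    simp only [OrthonormalBasis.coe_toBasis, EuclideanSpace.basisFun_apply,
      OrthonormalBasis.coe_toBasis_repr_apply, EuclideanSpace.basisFun_repr, dgn_apply]
    rw [Matrix.diagonal_apply]
    by_cases h : i = j
    · subst h; simp
    · simp [h]
  rw [h1, Matrix.det_diagonal]

theorem dgn_lintegral {n : ℕ} {c : Fin n → ℝ} (hc : ∏ i, c i ≠ 0) {f : E n → ℝ≥0∞}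
    (hf : Measurable f) :
    ∫⁻ x, f (dgn c x) = ENNReal.ofReal |(∏ i, c i)⁻¹| * ∫⁻ x, f x := by
  have h1 := Measure.map_linearMap_addHaar_eq_smul_addHaar (volume : Measure (E n))
    (f := dgn c) (by rw [dgn_det]; exact hc)
  rw [dgn_det] at h1
  have h2 : Measurable (dgn c) := (dgn c).continuous_of_finiteDimensional.measurable
  rw [← lintegral_map hf h2, h1, lintegral_smul_measure]
  rfl

variable {m : ℕ}

/-- The frequency of the piece of size `d`. -/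
noncomputable def wq (d : ℝ) (ξ : E (m + 2)) : E (m + 2) :=
  dgn (Fin.snoc (α := fun _ => ℝ) (fun _ : Fin (m + 1) => 2 * Real.pi * d)
    (-(2 * Real.pi * d ^ 2))) ξ

theorem wq_cast (d : ℝ) (ξ : E (m + 2)) (j : Fin (m + 1)) :
    wq d ξ j.castSucc = 2 * Real.pi * d * ξ j.castSucc := by
  unfold wq
  rw [dgn_apply, Fin.snoc_castSucc]

theorem wq_zero (d : ℝ) (ξ : E (m + 2)) : wq d ξ 0 = 2 * Real.pi * d * ξ 0 := wq_cast d ξ 0

theorem wq_last (d : ℝ) (ξ : E (m + 2)) :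
    wq d ξ (Fin.last (m + 1)) = -(2 * Real.pi * d ^ 2) * ξ (Fin.last (m + 1)) := by
  unfold wq
  rw [dgn_apply, Fin.snoc_last]

theorem wq_norm {d : ℝ} (h0 : 0 ≤ d) (h1 : d ≤ 1) (ξ : E (m + 2)) :
    d ^ 2 * ‖ξ‖ ≤ ‖wq d ξ‖ := by
  have hpi := Real.pi_gt_three
  have h2 : (d ^ 2 * ‖ξ‖) ^ 2 ≤ ‖wq d ξ‖ ^ 2 := by
    rw [mul_pow, EuclideanSpace.real_norm_sq_eq, EuclideanSpace.real_norm_sq_eq,
      Fin.sum_univ_castSucc (f := fun i : Fin (m + 2) => ξ i ^ 2),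
      Fin.sum_univ_castSucc (f := fun i : Fin (m + 2) => wq d ξ i ^ 2), wq_last]
    simp_rw [wq_cast]
    have h3 : 1 ≤ (2 * Real.pi) ^ 2 := by nlinarith
    have h4 : d ^ 4 ≤ d ^ 2 := pow_le_pow_of_le_one h0 h1 (by norm_num)
    have h5 : (d ^ 2) ^ 2 ≤ (2 * Real.pi * d) ^ 2 := by
      rw [mul_pow]
      have : (d ^ 2) ^ 2 = d ^ 4 := by ring
      rw [this]
      nlinarith [sq_nonneg d]
    have h6 : (d ^ 2) ^ 2 ≤ (2 * Real.pi * d ^ 2) ^ 2 := by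
      rw [mul_pow (2 * Real.pi)]
      nlinarith [sq_nonneg (d ^ 2)]
    rw [mul_add, Finset.mul_sum]
    refine add_le_add (Finset.sum_le_sum fun j _ => ?_) ?_
    · rw [mul_pow]
      gcongr
    · rw [mul_pow, neg_sq]
      gcongr
  exact le_of_sq_le_sq h2 (norm_nonneg _)

/-- From the frequencies `w` to the frequencies `ξ`. -/
theorem wq_scale {d : ℝ} (h0 : 0 < d) (h1 : d ≤ 1) {Φ : E (m + 2) → ℝ≥0∞} (hΦ : Measurable Φ)
    (R : ℝ) :
    ∫⁻ ξ in {ξ : E (m + 2) | R ≤ ‖ξ‖}, Φ (wq d ξ) ≤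
      ENNReal.ofReal ((d ^ 2) ^ (-(((m : ℝ) + 3) / 2))) *
        ∫⁻ w in {w : E (m + 2) | d ^ 2 * R ≤ ‖w‖}, Φ w := by
  have hm : MeasurableSet {w : E (m + 2) | d ^ 2 * R ≤ ‖w‖} :=
    measurableSet_le measurable_const measurable_norm
  have hm' : MeasurableSet {ξ : E (m + 2) | R ≤ ‖ξ‖} :=
    measurableSet_le measurable_const measurable_norm
  have hpi := Real.pi_gt_three
  have hprod : ∏ i, (Fin.snoc (α := fun _ => ℝ) (fun _ : Fin (m + 1) => 2 * Real.pi * d)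
      (-(2 * Real.pi * d ^ 2)) : Fin (m + 2) → ℝ) i =
      -((2 * Real.pi) ^ (m + 2) * d ^ (m + 3)) := by
    rw [Fin.prod_univ_castSucc, Fin.snoc_last]
    simp_rw [Fin.snoc_castSucc]
    rw [Finset.prod_const, Finset.card_univ, Fintype.card_fin]
    ring
  have hpos : 0 < (2 * Real.pi) ^ (m + 2) * d ^ (m + 3) := by positivity
  calc ∫⁻ ξ in {ξ : E (m + 2) | R ≤ ‖ξ‖}, Φ (wq d ξ)
      ≤ ∫⁻ ξ, {w : E (m + 2) | d ^ 2 * R ≤ ‖w‖}.indicator Φ (wq d ξ) := by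
        rw [← lintegral_indicator hm']
        refine lintegral_mono fun ξ => ?_
        by_cases h : ξ ∈ {ξ : E (m + 2) | R ≤ ‖ξ‖}
        · have h2 : wq d ξ ∈ {w : E (m + 2) | d ^ 2 * R ≤ ‖w‖} := by
            refine le_trans ?_ (wq_norm h0.le h1 ξ)
            have h3 : R ≤ ‖ξ‖ := h
            gcongr
          rw [indicator_of_mem h, indicator_of_mem h2]
        · rw [indicator_of_notMem h]
          exact zero_le
    _ = ENNReal.ofReal |(-((2 * Real.pi) ^ (m + 2) * d ^ (m + 3)))⁻¹| *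
        ∫⁻ w, {w : E (m + 2) | d ^ 2 * R ≤ ‖w‖}.indicator Φ w := by
        rw [← hprod]
        exact dgn_lintegral (by rw [hprod]; exact (neg_neg_of_pos hpos).ne) (hΦ.indicator hm)
    _ ≤ _ := by
        rw [lintegral_indicator hm]
        refine mul_le_mul_left (ENNReal.ofReal_le_ofReal ?_) _
        have h3 : 1 ≤ (2 * Real.pi) ^ (m + 2) := one_le_pow₀ (by linarith)
        rw [inv_neg, abs_neg, abs_of_pos (by positivity), Real.rpow_neg (by positivity)]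
        have h4 : (d ^ 2) ^ (((m : ℝ) + 3) / 2) = d ^ (m + 3) := by
          rw [← Real.rpow_natCast, ← Real.rpow_natCast, ← Real.rpow_mul h0.le]
          congr 1
          push_cast
          ring
        rw [h4]
        gcongr
        nlinarith [pow_pos h0 (m + 3)]

end Pool.Agent.LQN
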