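import Pool.Agent.LQN.Df2

/-!
LEAFQ for every `n = m + 2`, row SURF: the surfaces as one smooth compactly supported function of
`(d, t, z)`, frozen at `d`.
-/

set_option autoImplicit false

namespace Pool.Agent.LQN

open MeasureTheory Set Metric Pool.Agent.MP_6cbfb8_an Pool.Agent.LF
open scoped RealInnerProductSpace ContDiff Topology

/-! ### A smooth version of the square root -/

/-- A smooth version of the square root (equal to it for `v ≥ κ / 2`). -/
noncomputable def sqs (κ v : ℝ) : ℝ := Real.smoothTransition (4 / κ * v - 1) * √v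

theorem sqs_eq {κ v : ℝ} (hκ : 0 < κ) (h : κ / 2 ≤ v) : sqs κ v = √v := by
  unfold sqs
  have h1 : 1 ≤ 4 / κ * v - 1 := by
    have : 4 / κ * (κ / 2) = 2 := by field_simp; norm_num
    have h2 : 4 / κ * (κ / 2) ≤ 4 / κ * v := mul_le_mul_of_nonneg_left h (by positivity)
    linarith
  rw [Real.smoothTransition.one_of_one_le h1, one_mul]

theorem sqs_nonneg (κ v : ℝ) : 0 ≤ sqs κ v :=
  mul_nonneg (Real.smoothTransition.nonneg _) (Real.sqrt_nonneg _)

theorem sqs_smooth {κ : ℝ} (hκ : 0 < κ) : ContDiff ℝ ∞ (sqs κ) := by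
  rw [contDiff_iff_contDiffAt]
  intro v
  by_cases hv : v < κ / 4
  · have : sqs κ =ᶠ[𝓝 v] fun _ => 0 := by
      filter_upwards [Iio_mem_nhds hv] with u hu
      unfold sqs
      have h1 : 4 / κ * u - 1 ≤ 0 := by
        have : 4 / κ * (κ / 4) = 1 := by field_simp
        have h2 : 4 / κ * u ≤ 4 / κ * (κ / 4) :=
          mul_le_mul_of_nonneg_left (mem_Iio.1 hu).le (by positivity)
        linarith
      rw [Real.smoothTransition.zero_of_nonpos h1, zero_mul]
    exact contDiffAt_const.congr_of_eventuallyEq this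
  · have hv0 : v ≠ 0 := by
      intro h
      rw [h] at hv
      exact hv (by positivity)
    unfold sqs
    exact (Real.smoothTransition.contDiff.comp (f := fun v : ℝ => 4 / κ * v - 1)
      (by fun_prop)).contDiffAt.mul (Real.contDiffAt_sqrt hv0)

/-! ### The joint function -/

variable {m : ℕ}

/-- The joint function of `(d, t, z)`. -/
noncomputable def JN (κ α : ℝ) (r : Fin m → ℝ) (p : ℝ × (ℝ × E m)) : E (m + 2) :=
  WithLp.toLp 2 (Fin.snoc (α := fun _ => ℝ)
    (Fin.cons (α := fun _ => ℝ) (sqs κ (rr α r p.2.1 p.2.2.ofLp)) (p.2.2.ofLp))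
    (ss α r p.2.1 p.2.2.ofLp / (1 + sqs κ (1 - p.1 ^ 2 * ss α r p.2.1 p.2.2.ofLp))))

theorem JN_zero (κ α : ℝ) (r : Fin m → ℝ) (p : ℝ × (ℝ × E m)) :
    JN κ α r p 0 = sqs κ (rr α r p.2.1 p.2.2.ofLp) := by
  unfold JN
  rw [← Fin.castSucc_zero]
  simp only [Fin.snoc_castSucc, Fin.cons_zero]

theorem JN_mid (κ α : ℝ) (r : Fin m → ℝ) (p : ℝ × (ℝ × E m)) (i : Fin m) :
    JN κ α r p i.succ.castSucc = p.2.2 i := by
  unfold JN
  simp only [Fin.snoc_castSucc, Fin.cons_succ]

theorem JN_last (κ α : ℝ) (r : Fin m → ℝ) (p : ℝ × (ℝ × E m)) :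
    JN κ α r p (Fin.last (m + 1)) =
      ss α r p.2.1 p.2.2.ofLp / (1 + sqs κ (1 - p.1 ^ 2 * ss α r p.2.1 p.2.2.ofLp)) := by
  unfold JN
  simp only [Fin.snoc_last]

/-- Induction over the coordinates. -/
theorem fin_cases3 {P : Fin (m + 2) → Prop} (h0 : P 0) (h1 : ∀ i : Fin m, P i.succ.castSucc)
    (h2 : P (Fin.last (m + 1))) (i : Fin (m + 2)) : P i := by
  refine Fin.lastCases h2 (fun j => ?_) i
  refine Fin.cases ?_ (fun k => h1 k) j
  exact h0

theorem sum3 (f : Fin (m + 2) → ℝ) :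
    ∑ i, f i = f 0 + ∑ i : Fin m, f i.succ.castSucc + f (Fin.last (m + 1)) := by
  rw [Fin.sum_univ_castSucc, Fin.sum_univ_succ]
  rfl

theorem rr_smooth (α : ℝ) (r : Fin m → ℝ) {F : Type*} [NormedAddCommGroup F] [NormedSpace ℝ F]
    {t : F → ℝ} {z : F → E m} (ht : ContDiff ℝ ∞ t) (hz : ContDiff ℝ ∞ z) :
    ContDiff ℝ ∞ fun p => rr α r (t p) (z p).ofLp := by
  unfold rr
  refine (ht.div_const α).sub (ContDiff.sum fun i _ => contDiff_const.mul (ContDiff.pow ?_ 2))
  exact (contDiff_euclidean.1 hz) i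

theorem ss_smooth (α : ℝ) (r : Fin m → ℝ) {F : Type*} [NormedAddCommGroup F] [NormedSpace ℝ F]
    {t : F → ℝ} {z : F → E m} (ht : ContDiff ℝ ∞ t) (hz : ContDiff ℝ ∞ z) :
    ContDiff ℝ ∞ fun p => ss α r (t p) (z p).ofLp := by
  unfold ss
  refine (ht.div_const α).add (ContDiff.sum fun i _ => contDiff_const.mul (ContDiff.pow ?_ 2))
  exact (contDiff_euclidean.1 hz) i

theorem JN_smooth {κ : ℝ} (hκ : 0 < κ) (α : ℝ) (r : Fin m → ℝ) : ContDiff ℝ ∞ (JN κ α r) := by
  have hz : ContDiff ℝ ∞ fun p : ℝ × (ℝ × E m) => p.2.2 := by fun_prop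
  have ht : ContDiff ℝ ∞ fun p : ℝ × (ℝ × E m) => p.2.1 := by fun_prop
  have hd : ContDiff ℝ ∞ fun p : ℝ × (ℝ × E m) => p.1 := by fun_prop
  have hr := rr_smooth α r ht hz
  have hs := ss_smooth α r ht hz
  have hq : ContDiff ℝ ∞ fun p : ℝ × (ℝ × E m) =>
      1 + sqs κ (1 - p.1 ^ 2 * ss α r p.2.1 p.2.2.ofLp) :=
    contDiff_const.add ((sqs_smooth hκ).comp (contDiff_const.sub ((hd.pow 2).mul hs)))
  rw [contDiff_euclidean]
  intro i
  refine fin_cases3 (P := fun i => ContDiff ℝ ∞ fun p => JN κ α r p i) ?_ (fun i => ?_) ?_ i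
  · simp only [JN_zero]
    exact (sqs_smooth hκ).comp hr
  · simp only [JN_mid]
    exact (contDiff_euclidean.1 hz) i
  · simp only [JN_last]
    exact hs.div hq fun p => by
      have := sqs_nonneg κ (1 - p.1 ^ 2 * ss α r p.2.1 p.2.2.ofLp)
      positivity

/-- Bounds of the derivatives of a slice. -/
theorem sliceN_le {F G H : Type*} [NormedAddCommGroup F] [NormedSpace ℝ F]
    [NormedAddCommGroup G] [NormedSpace ℝ G] [NormedAddCommGroup H] [NormedSpace ℝ H]
    {J : F × G → H} {j : ℕ} (hJ : ContDiff ℝ j J) (d : F) (p : G) :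
    ‖iteratedFDeriv ℝ j (fun p => J (d, p)) p‖ ≤ ‖iteratedFDeriv ℝ j J (d, p)‖ := by
  have h1 : ContDiff ℝ j (fun w => J ((d, 0) + w)) := hJ.comp (contDiff_const.add contDiff_id)
  have h2 : (fun z => J (d, z)) =
      (fun w => J ((d, 0) + w)) ∘ (ContinuousLinearMap.inr ℝ F G) := by
    funext y; simp
  rw [h2, ContinuousLinearMap.iteratedFDeriv_comp_right _ h1 p le_rfl]
  refine (ContinuousMultilinearMap.norm_compContinuousLinearMap_le _ _).trans ?_
  rw [iteratedFDeriv_comp_add_left, Finset.prod_const, Finset.card_univ, Fintype.card_fin]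
  have h3 : ((d, 0) : F × G) + (ContinuousLinearMap.inr ℝ F G) p = (d, p) := by simp
  rw [h3]
  refine mul_le_of_le_one_right (norm_nonneg _) (pow_le_one₀ (norm_nonneg _) ?_)
  exact ContinuousLinearMap.opNorm_le_bound _ zero_le_one fun y => by
    rw [ContinuousLinearMap.inr_apply, Prod.norm_mk, norm_zero, one_mul]
    exact max_le (norm_nonneg _) le_rfl

/-! ### One variable derivatives -/

/-- The derivative of `h` as a function of `s`. -/
theorem hd_h {d s : ℝ} (hs : 0 < 1 - d ^ 2 * s) :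
    HasDerivAt (fun s => s / (1 + √(1 - d ^ 2 * s))) (1 / (2 * √(1 - d ^ 2 * s))) s := by
  have h1 : HasDerivAt (fun s => 1 - d ^ 2 * s) (-(d ^ 2)) s := by
    have := ((hasDerivAt_id s).const_mul (d ^ 2)).const_sub 1
    simpa using this
  have h2 := h1.sqrt hs.ne'
  have hq : 0 < √(1 - d ^ 2 * s) := Real.sqrt_pos.2 hs
  have h3 : HasDerivAt (fun s => 1 + √(1 - d ^ 2 * s)) (-(d ^ 2) / (2 * √(1 - d ^ 2 * s))) s :=
    h2.const_add 1
  have h4 := (hasDerivAt_id s).div h3 (by positivity)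
  refine h4.congr_deriv ?_
  have hsq : √(1 - d ^ 2 * s) ^ 2 = 1 - d ^ 2 * s := Real.sq_sqrt hs.le
  simp only [id]
  set q := √(1 - d ^ 2 * s) with hqd
  have hds : d ^ 2 * s = 1 - q ^ 2 := by linarith
  field_simp
  linear_combination hds

theorem line_rr (α : ℝ) (r : Fin m → ℝ) (t : ℝ) (z : E m) (i : Fin m) :
    HasDerivAt (fun s : ℝ => rr α r t (z + s • EuclideanSpace.single i (1 : ℝ)).ofLp)
      (-(2 * r i * z i)) 0 := by
  have h1 : ∀ j : Fin m, HasDerivAt (fun s : ℝ =>
      r j * (z + s • EuclideanSpace.single i (1 : ℝ)).ofLp j ^ 2)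
      (if j = i then 2 * r i * z i else 0) 0 := by
    intro j
    have h2 : (fun s : ℝ => r j * (z + s • EuclideanSpace.single i (1 : ℝ)).ofLp j ^ 2) =
        fun s : ℝ => r j * (z j + s * (if j = i then 1 else 0)) ^ 2 := by
      funext s
      simp
    rw [h2]
    have h3 : HasDerivAt (fun s : ℝ => z j + s * (if j = i then (1 : ℝ) else 0))
        (if j = i then (1 : ℝ) else 0) 0 := by
      have := ((hasDerivAt_id (0 : ℝ)).mul_const (if j = i then (1 : ℝ) else 0)).const_add (z j)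
      simpa using this
    refine ((h3.pow 2).const_mul (r j)).congr_deriv ?_
    by_cases hji : j = i
    · subst hji; simp; ring
    · simp [hji]
  have h4 := (HasDerivAt.fun_sum fun j (_ : j ∈ (Finset.univ : Finset (Fin m))) => h1 j).const_sub
    (t / α)
  unfold rr
  refine h4.congr_deriv ?_
  rw [Finset.sum_ite_eq' Finset.univ i]
  simp

theorem line_ss (α : ℝ) (r : Fin m → ℝ) (t : ℝ) (z : E m) (i : Fin m) :
    HasDerivAt (fun s : ℝ => ss α r t (z + s • EuclideanSpace.single i (1 : ℝ)).ofLp)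
      (2 * (1 - r i) * z i) 0 := by
  have h0 : (fun s : ℝ => ss α r t (z + s • EuclideanSpace.single i (1 : ℝ)).ofLp) =
      fun s : ℝ => rr α (fun i => -(1 - r i)) t
        (z + s • EuclideanSpace.single i (1 : ℝ)).ofLp := by
    funext s
    unfold ss rr
    rw [sub_eq_add_neg, ← Finset.sum_neg_distrib]
    congr 1
    exact Finset.sum_congr rfl fun j _ => by ring
  rw [h0]
  exact (line_rr α (fun i => -(1 - r i)) t z i).congr_deriv (by ring)

theorem t_rr {α : ℝ} (r : Fin m → ℝ) (t : ℝ) (y : Fin m → ℝ) :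
    HasDerivAt (fun s : ℝ => rr α r s y) (1 / α) t := by
  unfold rr
  exact ((hasDerivAt_id t).div_const α).sub_const _

theorem t_ss {α : ℝ} (r : Fin m → ℝ) (t : ℝ) (y : Fin m → ℝ) :
    HasDerivAt (fun s : ℝ => ss α r s y) (1 / α) t := by
  unfold ss
  exact ((hasDerivAt_id t).div_const α).add_const _

/-- The local form: near a point of the large region. -/
theorem JN_near {κ α d t : ℝ} {r : Fin m → ℝ} {z : E m} (hκ : 0 < κ) (h : Rl κ α d r t z.ofLp) :
    ∀ᶠ p : ℝ × E m in 𝓝 (t, z), JN (κ / 4) α r (d, p) 0 = AA α r p.1 p.2.ofLp ∧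
      JN (κ / 4) α r (d, p) (Fin.last (m + 1)) = hh α d r p.1 p.2.ofLp := by
  have hr : Continuous fun p : ℝ × E m => rr α r p.1 p.2.ofLp :=
    (rr_smooth α r contDiff_fst contDiff_snd).continuous
  have hs : Continuous fun p : ℝ × E m => 1 - d ^ 2 * ss α r p.1 p.2.ofLp :=
    continuous_const.sub (continuous_const.mul (ss_smooth α r contDiff_fst contDiff_snd).continuous)
  have h1 : ∀ᶠ p : ℝ × E m in 𝓝 (t, z), κ / 8 < rr α r p.1 p.2.ofLp :=
    hr.continuousAt.eventually_const_lt (lt_of_lt_of_le (by linarith) h.2.1)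
  have h2 : ∀ᶠ p : ℝ × E m in 𝓝 (t, z), κ / 8 < 1 - d ^ 2 * ss α r p.1 p.2.ofLp :=
    hs.continuousAt.eventually_const_lt (lt_of_lt_of_le (by linarith) h.2.2.2)
  filter_upwards [h1, h2] with p hp1 hp2
  refine ⟨?_, ?_⟩
  · rw [JN_zero, sqs_eq (by positivity) (by linarith)]
    rfl
  · rw [JN_last, sqs_eq (by positivity) (by linarith)]
    rfl

theorem surf {κ α : ℝ} (hκ : 0 < κ) (hα : α ≠ 0) (r : Fin m → ℝ) :
    ∃ (X : ℝ → ℝ × E m → E (m + 2)) (A : ℕ → ℝ), SF κ α r X A := by
  set M : ℝ := 10 + |α| * (9 + 9 * ∑ i, |r i|) + 3 * (m + 1) with hM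
  have hM0 : 0 < M := by positivity
  let χ : ContDiffBump (0 : ℝ × (ℝ × E m)) := ⟨M, 2 * M, hM0, by linarith⟩
  set J : ℝ × (ℝ × E m) → E (m + 2) := fun p => χ p • JN (κ / 4) α r p with hJ
  have hJs : ContDiff ℝ ∞ J := χ.contDiff.smul (JN_smooth (by positivity) α r)
  have hJc : HasCompactSupport J := χ.hasCompactSupport.smul_right
  have hb : ∀ j : ℕ, ∃ C : ℝ, ∀ p, ‖iteratedFDeriv ℝ j J p‖ ≤ C := fun j =>
    (hJs.continuous_iteratedFDeriv (m := j) (by exact_mod_cast le_top)).bounded_above_of_compact_support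
      (hJc.iteratedFDeriv j)
  choose A hA using hb
  refine ⟨fun d p => J (d, p), A, fun d hd0 hd1 => ⟨?_, ?_, ?_⟩⟩
  · exact hJs.comp (contDiff_prodMk_right d)
  · intro j p
    exact (sliceN_le (hJs.of_le (by exact_mod_cast le_top)) d p).trans (hA j _)
  intro t z h
  have hr0 : 0 < rr α r t z.ofLp := lt_of_lt_of_le (by positivity) h.2.1
  have hs0 : 0 < 1 - d ^ 2 * ss α r t z.ofLp := lt_of_lt_of_le (by positivity) h.2.2.2
  have hA0 : 0 < AA α r t z.ofLp := Real.sqrt_pos.2 hr0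
  have hH0 : 0 < HH α d r t z.ofLp := Real.sqrt_pos.2 hs0
  -- the map is the explicit one near `(t, z)`
  have hnear : ∀ᶠ p : ℝ × E m in 𝓝 (t, z), J (d, p) 0 = AA α r p.1 p.2.ofLp ∧
      (∀ i : Fin m, J (d, p) i.succ.castSucc = p.2 i) ∧
      J (d, p) (Fin.last (m + 1)) = hh α d r p.1 p.2.ofLp := by
    have h1 : ∀ᶠ p : ℝ × E m in 𝓝 (t, z), χ (d, p) = 1 := by
      have hc : Continuous fun p : ℝ × E m => ((d, p) : ℝ × (ℝ × E m)) := by fun_prop
      have h2 : ((d, (t, z)) : ℝ × (ℝ × E m)) ∈ ball (0 : ℝ × (ℝ × E m)) M := by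
        have hS : 0 ≤ ∑ i, |r i| := Finset.sum_nonneg fun i _ => abs_nonneg _
        rw [mem_ball_zero_iff, Prod.norm_mk, Prod.norm_mk]
        refine max_lt ?_ (max_lt ?_ ?_)
        · rw [Real.norm_eq_abs, abs_of_nonneg hd0, hM]
          have : 0 ≤ |α| * (9 + 9 * ∑ i, |r i|) := by positivity
          have h3 : (0 : ℝ) ≤ m := Nat.cast_nonneg m
          linarith
        · rw [Real.norm_eq_abs]
          have h3 : t = α * (rr α r t z.ofLp + ∑ i, r i * z.ofLp i ^ 2) := by
            unfold rr; field_simp; ring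
          have h4 : |∑ i, r i * z.ofLp i ^ 2| ≤ 9 * ∑ i, |r i| := by
            refine (Finset.abs_sum_le_sum_abs _ _).trans ?_
            rw [Finset.mul_sum]
            refine Finset.sum_le_sum fun i _ => ?_
            rw [abs_mul, abs_pow]
            have h5 := h.1 i
            have h6 : |z.ofLp i| ^ 2 ≤ 9 := by nlinarith [abs_nonneg (z.ofLp i)]
            nlinarith [abs_nonneg (r i)]
          have h7 : |t| ≤ |α| * (9 + 9 * ∑ i, |r i|) := by
            rw [h3, abs_mul]
            refine mul_le_mul_of_nonneg_left ((abs_add_le _ _).trans ?_) (abs_nonneg _)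
            rw [abs_of_pos hr0]
            linarith [h.2.2.1]
          have h8 : (0 : ℝ) ≤ m := Nat.cast_nonneg m
          rw [hM]
          linarith
        · have h3 : ‖z‖ ^ 2 ≤ (3 * (m + 1 : ℝ)) ^ 2 := by
            rw [EuclideanSpace.norm_sq_eq]
            have h4 : ∑ i, ‖z i‖ ^ 2 ≤ ∑ _i : Fin m, (9 : ℝ) := by
              refine Finset.sum_le_sum fun i _ => ?_
              rw [Real.norm_eq_abs]
              have := h.1 i
              nlinarith [abs_nonneg (z.ofLp i)]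
            rw [Finset.sum_const, Finset.card_univ, Fintype.card_fin, nsmul_eq_mul] at h4
            have h8 : (0 : ℝ) ≤ m := Nat.cast_nonneg m
            nlinarith
          have h5 : ‖z‖ ≤ 3 * (m + 1 : ℝ) :=
            (pow_le_pow_iff_left₀ (norm_nonneg _) (by positivity) two_ne_zero).1 h3
          have : 0 ≤ |α| * (9 + 9 * ∑ i, |r i|) := by positivity
          rw [hM]
          linarith
      filter_upwards [hc.continuousAt.preimage_mem_nhds (isOpen_ball.mem_nhds h2)] with p hp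
      exact χ.one_of_mem_closedBall (ball_subset_closedBall hp)
    filter_upwards [h1, JN_near hκ h] with p hp1 hp2
    have h3 : J (d, p) = JN (κ / 4) α r (d, p) := by simp [hJ, hp1]
    rw [h3]
    exact ⟨hp2.1, fun i => JN_mid _ _ _ _ i, hp2.2⟩
  have hself := hnear.self_of_nhds
  have hdiff : HasFDerivAt (fun p => J (d, p)) (fderiv ℝ (fun p => J (d, p)) (t, z)) (t, z) :=
    (((hJs.comp (contDiff_prodMk_right d)).differentiable (by simp)) (t, z)).hasFDerivAt
  set D := fderiv ℝ (fun p => J (d, p)) (t, z) with hD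
  -- the coordinates
  have hcomp : ∀ i : Fin (m + 2), HasFDerivAt (fun p => J (d, p) i)
      ((PiLp.proj 2 (fun _ : Fin (m + 2) => ℝ) i : E (m + 2) →L[ℝ] ℝ) ∘L D) (t, z) := fun i =>
    (PiLp.proj 2 (fun _ : Fin (m + 2) => ℝ) i : E (m + 2) →L[ℝ] ℝ).hasFDerivAt.comp (t, z) hdiff
  -- derivative in `t`
  have ht1 : HasDerivAt (fun s : ℝ => ((s, z) : ℝ × E m)) (1, 0) t :=
    (hasDerivAt_id t).prodMk (hasDerivAt_const t z)
  have htn : Filter.Tendsto (fun s : ℝ => ((s, z) : ℝ × E m)) (𝓝 t) (𝓝 (t, z)) :=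
    ht1.continuousAt
  have dt : ∀ i : Fin (m + 2), HasDerivAt (fun s : ℝ => J (d, (s, z)) i) (D (1, 0) i) t :=
    fun i => by
    have h1 : HasFDerivAt (fun p => J (d, p) i)
      ((PiLp.proj 2 (fun _ : Fin (m + 2) => ℝ) i : E (m + 2) →L[ℝ] ℝ) ∘L D) (t, z) := hcomp i
    exact HasFDerivAt.comp_hasDerivAt t h1 ht1
  have dt0 : D (1, 0) 0 = 1 / (2 * α * AA α r t z.ofLp) := by
    have h1 : HasDerivAt (fun s => AA α r s z.ofLp) (1 / α / (2 * √(rr α r t z.ofLp))) t :=
      (t_rr r t z.ofLp).sqrt hr0.ne'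
    refine ((dt 0).unique (h1.congr_of_eventuallyEq ?_)).trans ?_
    · filter_upwards [htn.eventually hnear] with s hs
      exact hs.1
    · change 1 / α / (2 * AA α r t z.ofLp) = _
      field_simp
  have dt1 : ∀ i : Fin m, D (1, 0) i.succ.castSucc = 0 := fun i => by
    refine (dt _).unique ((hasDerivAt_const t (z i)).congr_of_eventuallyEq ?_)
    filter_upwards [htn.eventually hnear] with s hs
    exact hs.2.1 i
  have dt2 : D (1, 0) (Fin.last (m + 1)) = 1 / (2 * α * HH α d r t z.ofLp) := by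
    have h1 := (hd_h (d := d) (s := ss α r t z.ofLp) hs0).comp t (t_ss (α := α) r t z.ofLp)
    refine ((dt _).unique (h1.congr_of_eventuallyEq ?_)).trans ?_
    · filter_upwards [htn.eventually hnear] with s hs
      exact hs.2.2
    · change 1 / (2 * HH α d r t z.ofLp) * (1 / α) = _
      field_simp
  -- derivative in `y i`
  have hy1 : ∀ i : Fin m, HasDerivAt
      (fun s : ℝ => ((t, z + s • EuclideanSpace.single i (1 : ℝ)) : ℝ × E m))
      (0, EuclideanSpace.single i (1 : ℝ)) 0 := fun i => by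
    refine (hasDerivAt_const (0 : ℝ) t).prodMk ?_
    have := ((hasDerivAt_id (0 : ℝ)).smul_const (EuclideanSpace.single i (1 : ℝ))).const_add z
    simpa using this
  have hz0 : ∀ i : Fin m, (t, z + (0 : ℝ) • EuclideanSpace.single i (1 : ℝ)) = (t, z) := by
    intro i; simp
  have hyn : ∀ i : Fin m, Filter.Tendsto
      (fun s : ℝ => ((t, z + s • EuclideanSpace.single i (1 : ℝ)) : ℝ × E m)) (𝓝 0)
      (𝓝 (t, z)) := fun i => by
    have := (hy1 i).continuousAt.tendsto
    rwa [hz0] at this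
  have dy : ∀ (i : Fin m) (k : Fin (m + 2)),
      HasDerivAt (fun s : ℝ => J (d, (t, z + s • EuclideanSpace.single i (1 : ℝ))) k)
      (D (0, EuclideanSpace.single i (1 : ℝ)) k) 0 := fun i k => by
    have h1 : HasFDerivAt (fun p => J (d, p) k)
      ((PiLp.proj 2 (fun _ : Fin (m + 2) => ℝ) k : E (m + 2) →L[ℝ] ℝ) ∘L D)
        (t, z + (0 : ℝ) • EuclideanSpace.single i (1 : ℝ)) := by rw [hz0]; exact hcomp k
    exact HasFDerivAt.comp_hasDerivAt (0 : ℝ) h1 (hy1 i)
  have hz1 : ∀ i : Fin m, (z + (0 : ℝ) • EuclideanSpace.single i (1 : ℝ)) = z := by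
    intro i; simp
  have dy0 : ∀ i : Fin m, D (0, EuclideanSpace.single i (1 : ℝ)) 0 =
      -(r i * z i) / AA α r t z.ofLp := fun i => by
    have h1 := (line_rr α r t z i).sqrt (by rw [hz1]; exact hr0.ne')
    rw [hz1] at h1
    refine ((dy i 0).unique (h1.congr_of_eventuallyEq ?_)).trans ?_
    · filter_upwards [(hyn i).eventually hnear] with s hs
      exact hs.1
    · change -(2 * r i * z i) / (2 * AA α r t z.ofLp) = _
      field_simp
  have dy1 : ∀ i k : Fin m, D (0, EuclideanSpace.single i (1 : ℝ)) k.succ.castSucc =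
      if k = i then 1 else 0 := fun i k => by
    have h1 : HasDerivAt (fun s : ℝ => (z + s • EuclideanSpace.single i (1 : ℝ)) k)
        (if k = i then (1 : ℝ) else 0) 0 := by
      have h2 : (fun s : ℝ => (z + s • EuclideanSpace.single i (1 : ℝ)) k) =
          fun s : ℝ => z k + s * (if k = i then 1 else 0) := by
        funext s
        simp
      rw [h2]
      have := ((hasDerivAt_id (0 : ℝ)).mul_const (if k = i then (1 : ℝ) else 0)).const_add (z k)
      simpa using this
    refine (dy i _).unique (h1.congr_of_eventuallyEq ?_)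
    filter_upwards [(hyn i).eventually hnear] with s hs
    exact hs.2.1 k
  have dy2 : ∀ i : Fin m, D (0, EuclideanSpace.single i (1 : ℝ)) (Fin.last (m + 1)) =
      (1 - r i) * z i / HH α d r t z.ofLp := fun i => by
    have h0 : 0 < 1 - d ^ 2 * ss α r t (z + (0 : ℝ) • EuclideanSpace.single i (1 : ℝ)).ofLp := by
      rw [hz1]; exact hs0
    have h1 := (hd_h h0).comp (0 : ℝ) (line_ss α r t z i)
    rw [hz1] at h1
    refine ((dy i _).unique (h1.congr_of_eventuallyEq ?_)).trans ?_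
    · filter_upwards [(hyn i).eventually hnear] with s hs
      exact hs.2.2
    · change 1 / (2 * HH α d r t z.ofLp) * (2 * (1 - r i) * z i) = _
      field_simp
  refine ⟨hself.1, hself.2.1, hself.2.2, fun w => ?_, fun w i => ?_⟩
  · have h1 : Xt (fun p => J (d, p)) (t, z) = D (1, 0) := rfl
    rw [h1, PiLp.inner_apply, sum3]
    simp only [RCLike.inner_apply, conj_trivial, dt0, dt1, dt2, zero_mul, Finset.sum_const_zero,
      add_zero]
    unfold TT
    field_simp
  · have h1 : Vw (fun p => J (d, p)) w (t, z) i =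
        ⟪D (0, EuclideanSpace.single i (1 : ℝ)), w⟫ := by
      have h2 : Vw (fun p => J (d, p)) w (t, z) i =
          ⟪(EuclideanSpace.single i (1 : ℝ) : E m), Vw (fun p => J (d, p)) w (t, z)⟫ := by
        rw [EuclideanSpace.inner_single_left]
        simp
      rw [h2]
      unfold Vw
      rw [ContinuousLinearMap.adjoint_inner_right]
      rfl
    rw [h1, PiLp.inner_apply, sum3]
    simp only [RCLike.inner_apply, conj_trivial, dy0, dy1, dy2, mul_ite, mul_one, mul_zero,
      Finset.sum_ite_eq', Finset.mem_univ, if_true]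
    unfold UU LL
    field_simp
    ring

end Pool.Agent.LQN
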