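import Pool.Agent.LQN.PIECE2a
import Pool.Agent.LQN.PIECE3
import Pool.Agent.LQN.SUML
import Pool.Agent.LQN.SURF
import Pool.Agent.LQN.MODEL
import Pool.Agent.LQN.RED
import Pool.Agent.MP_6cbfb8_an.SteinTomas

/-!
LEAFQ for every `n = m + 2`, row PIECE: from the model theorem to a piece of the sphere, and the
theorem on the whole sphere.
-/

set_option autoImplicit false

namespace Pool.Agent.LQN

open MeasureTheory Set Metric Pool.Agent.MP_6cbfb8_an Pool.Agent.LF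
open scoped RealInnerProductSpace ContDiff ENNReal NNReal

variable {m : ℕ}

/-- The integral over the disc. -/
theorem chart_int {g : E (m + 2) → ℂ} (hg : Measurable g) {M : ℝ} (hM : ∀ x, ‖g x‖ ≤ M)
    {k0 : ℝ} (hk0 : 0 < k0) (h0 : ∀ x, x (Fin.last (m + 1)) ≤ k0 → g x = 0) (ξ : E (m + 2)) :
    extn g ξ = ∫ y : E m, ∫ u : ℝ, Fg g ξ u y :=
  chart_int0 hg hM hk0 h0 ξ

/-- The bounds of one dyadic piece. -/
theorem fl_tail {κ k0 : ℝ} {b : Fin (m + 2) → ℝ} {α : ℝ} {r : Fin m → ℝ} (hα : α ≠ 0)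
    (hκ : 0 < κ) (hk0 : 0 < k0) (hk : κ ≤ k0 / 4) (hk2 : κ ≤ k0 ^ 2)
    (hαb : α = b 0 - b (Fin.last (m + 1)))
    (hrb : ∀ i : Fin m, α * r i = b i.succ.castSucc - b (Fin.last (m + 1)))
    {g0 : ℝ → ℝ} (hg : ContDiff ℝ ∞ g0) (hg0 : ∀ v ≤ k0, g0 v = 0)
    {X : ℝ → ℝ × E m → E (m + 2)} {A : ℕ → ℝ} (hX : SF κ α r X A) {p η C : ℝ} (hp : 0 < p)
    (hη : 0 < η) {B B' : ℕ → ℝ}
    (hmod : ∀ d, 0 < d → d ≤ 1 → ∀ b : ℝ × E m → ℂ, DC κ α d r B' b →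
      (∫⁻ ξ, ‖Tb (X d) b ξ‖ₑ ^ p ≤ ENNReal.ofReal (C * d⁻¹)) ∧ ∀ R : ℝ, 1 ≤ R →
        ∫⁻ ξ in {ξ : E (m + 2) | R ≤ ‖ξ‖}, ‖Tb (X d) b ξ‖ₑ ^ p ≤
          ENNReal.ofReal (C * d⁻¹ * R ^ (-η)))
    {G : ℝ → E (m + 2) → ℂ} (hG : GC B G)
    (h0 : ∀ t x, x (Fin.last (m + 1)) ≤ k0 → G t x = 0)
    (hDC : ∀ d, 0 ≤ d → d ≤ 1 → DC κ α d r B' (bl κ α r (b (Fin.last (m + 1))) g0 X d G))
    (l : ℕ) (R : ℝ) (hR : 1 ≤ R) :
    ∫⁻ ξ in {ξ : E (m + 2) | R ≤ ‖ξ‖}, ‖extn (fl b g0 G l) ξ‖ₑ ^ p ≤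
      ENNReal.ofReal (|C| * ((1 / 4 : ℝ) ^ l) ^ ((((m : ℝ) + 1) * p - (m + 4)) / 2) *
        min 1 (((1 / 4 : ℝ) ^ l * R) ^ (-η))) := by
  obtain ⟨M, hM0, hM⟩ := fp_bound (m := m) hg.continuous B
  have hR0 : 0 < R := by linarith
  set d : ℝ := (1 / 2) ^ l with hd
  have hd0 : 0 < d := by rw [hd]; positivity
  have hd1 : d ≤ 1 := pow_le_one₀ (by norm_num) (by norm_num)
  have hd2 : d ^ 2 = (1 / 4 : ℝ) ^ l := by
    rw [hd, ← pow_mul, mul_comm, pow_mul]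
    norm_num
  have hdl : 4 ^ l * d ^ 2 = 1 := by
    rw [hd2, ← mul_pow]
    norm_num
  have hfz : ∀ x, x (Fin.last (m + 1)) ≤ k0 → fl b g0 G l x = 0 := by
    intro x hx
    unfold fl fp
    rw [h0 _ x hx]
    simp
  have hfm : Measurable (fl b g0 G l) := measurable_fl hG b hg.continuous.measurable l
  set Φ : E (m + 2) → ℝ≥0∞ := fun w =>
    ‖Tb (X d) (bl κ α r (b (Fin.last (m + 1))) g0 X d G) w‖ₑ ^ p with hΦ
  have hD := hDC d hd0.le hd1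
  have hΦm : Measurable Φ :=
    (p2_measurable_Tb (hX d hd0.le hd1).1.continuous hD.1).enorm.pow_const p
  have e1 : ∀ ξ, ‖extn (fl b g0 G l) ξ‖ₑ ^ p =
      ENNReal.ofReal ((d ^ (m + 1)) ^ p) * Φ (wq d ξ) := by
    intro ξ
    have h1 := extn_fl_of hα hκ hk0 hk hk2 hαb hrb hg hg0 hX hG h0 hd0 hd1 hdl
      (wq_zero d ξ) (fun i => wq_cast d ξ i.succ) (wq_last d ξ)
      (chart_int hfm (fun x => (hM b G hG).2 l x) hk0 hfz ξ)
    simp only [hΦ]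
    rw [← ofReal_norm, h1, ENNReal.ofReal_mul (by positivity), ENNReal.mul_rpow_of_nonneg _ _ hp.le,
      ENNReal.ofReal_rpow_of_pos (by positivity), ofReal_norm]
  have h2 : ∫⁻ w in {w : E (m + 2) | d ^ 2 * R ≤ ‖w‖}, Φ w ≤
      ENNReal.ofReal (|C| * d⁻¹ * min 1 ((d ^ 2 * R) ^ (-η))) := by
    have hdi : 0 < d⁻¹ := by positivity
    rcases le_total 1 (d ^ 2 * R) with h3 | h3
    · refine ((hmod d hd0 hd1 _ hD).2 _ h3).trans (ENNReal.ofReal_le_ofReal ?_)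
      rw [min_eq_right (Real.rpow_le_one_of_one_le_of_nonpos h3 (by linarith))]
      exact mul_le_mul_of_nonneg_right (mul_le_mul_of_nonneg_right (le_abs_self C) hdi.le)
        (by positivity)
    · refine (setLIntegral_le_lintegral _ _).trans
        (((hmod d hd0 hd1 _ hD).1).trans (ENNReal.ofReal_le_ofReal ?_))
      rw [min_eq_left (Real.one_le_rpow_of_pos_of_le_one_of_nonpos (by positivity) h3
        (by linarith)), mul_one]
      exact mul_le_mul_of_nonneg_right (le_abs_self C) hdi.le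
  simp_rw [e1]
  rw [lintegral_const_mul' _ _ ENNReal.ofReal_ne_top]
  calc ENNReal.ofReal ((d ^ (m + 1)) ^ p) * ∫⁻ ξ in {ξ : E (m + 2) | R ≤ ‖ξ‖}, Φ (wq d ξ)
      ≤ ENNReal.ofReal ((d ^ (m + 1)) ^ p) *
        (ENNReal.ofReal ((d ^ 2) ^ (-(((m : ℝ) + 3) / 2))) *
          ENNReal.ofReal (|C| * d⁻¹ * min 1 ((d ^ 2 * R) ^ (-η)))) := by
        gcongr
        exact (wq_scale hd0 hd1 hΦm R).trans (mul_le_mul_right h2 _)
    _ = _ := by
        rw [← hd2, ← ENNReal.ofReal_mul (by positivity), ← ENNReal.ofReal_mul (by positivity)]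
        congr 1
        have e2 : (d ^ (m + 1)) ^ p = (d ^ 2) ^ (((m : ℝ) + 1) * p / 2) := by
          rw [← Real.rpow_natCast, ← Real.rpow_natCast, ← Real.rpow_mul hd0.le,
            ← Real.rpow_mul hd0.le]
          congr 1
          push_cast
          ring
        have e3 : d⁻¹ = (d ^ 2) ^ (-(1 / 2) : ℝ) := by
          rw [← Real.rpow_natCast, ← Real.rpow_mul hd0.le, ← Real.rpow_neg_one]
          congr 1
          push_cast
          ring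
        have e4 : (((m : ℝ) + 1) * p - (m + 4)) / 2 =
            ((m : ℝ) + 1) * p / 2 + -(((m : ℝ) + 3) / 2) + (-(1 / 2) : ℝ) := by ring
        rw [e2, e3, e4, Real.rpow_add (by positivity), Real.rpow_add (by positivity)]
        ring

/-- ROW PIECE. -/
theorem piece (hm : 2 ≤ m) {b : Fin (m + 2) → ℝ} (hb : Function.Injective b) {p : ℝ}
    (hp : 2 * ((m : ℝ) + 2) / (m + 1) < p) {k0 : ℝ} (hk : 0 < k0) {g0 : ℝ → ℝ}
    (hg : ContDiff ℝ ∞ g0) (hg0 : ∀ x ≤ k0, g0 x = 0) : ∃ η : ℝ, 0 < η ∧ ∀ B : ℕ → ℝ,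
    ∃ C : ℝ, ∀ G : ℝ → E (m + 2) → ℂ, GC B G →
      (∀ t x, x (Fin.last (m + 1)) ≤ k0 → G t x = 0) → ∀ R : ℝ, 1 ≤ R →
      ∫⁻ ξ in {ξ : E (m + 2) | R ≤ ‖ξ‖}, ‖extn (fun x => if 0 < x 0 then
        (g0 (x 0 ^ 2 / ∑ j : Fin (m + 1), x j.castSucc ^ 2) : ℂ) *
          G (∑ i, b i * x i ^ 2) x else 0) ξ‖ₑ ^ p ≤ ENNReal.ofReal (C * R ^ (-η)) := by
  have hne : ∀ i : Fin (m + 1), b i.castSucc - b (Fin.last (m + 1)) ≠ 0 := fun i =>
    sub_ne_zero.2 fun h => (Fin.castSucc_lt_last i).ne (hb h)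
  set α : ℝ := b 0 - b (Fin.last (m + 1)) with hαd
  have hα : α ≠ 0 := hne 0
  set r : Fin m → ℝ := fun i => (b i.succ.castSucc - b (Fin.last (m + 1))) / α with hr
  have hrb : ∀ i : Fin m, α * r i = b i.succ.castSucc - b (Fin.last (m + 1)) := fun i => by
    simp only [hr]
    field_simp
  have hyp : Hyp α r := by
    refine ⟨hα, fun i => ?_, fun i => ?_, fun i j h => ?_⟩
    · exact div_ne_zero (hne i.succ) hα
    · intro h
      have h1 := hrb i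
      rw [h, mul_one] at h1
      have h2 : b 0 = b i.succ.castSucc := by linarith
      have h3 := hb h2
      rw [← Fin.castSucc_zero] at h3
      exact (Fin.succ_ne_zero i) (Fin.castSucc_injective _ h3).symm
    · have h1 : b i.succ.castSucc = b j.succ.castSucc := by
        have h2 := hrb i
        have h3 := hrb j
        rw [h] at h2
        linarith
      exact Fin.succ_injective _ (Fin.castSucc_injective _ (hb h1))
  set k : ℝ := min k0 (1 / 4) with hkd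
  have hk1 : 0 < k := lt_min hk (by norm_num)
  have hk2 : k ≤ k0 := min_le_left _ _
  have hk3 : k ≤ 1 / 4 := min_le_right _ _
  have hκ : 0 < k ^ 2 := by positivity
  have hκ1 : k ^ 2 ≤ 1 := by nlinarith
  have hκ2 : k ^ 2 ≤ k / 4 := by nlinarith
  have hg1 : ∀ x ≤ k, g0 x = 0 := fun x hx => hg0 x (hx.trans hk2)
  have hm2 : (2 : ℝ) ≤ m := by exact_mod_cast hm
  have hm1 : (0 : ℝ) < (m : ℝ) + 1 := by positivity
  have hp2 : 2 * ((m : ℝ) + 2) < (m + 1) * p := by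
    rw [div_lt_iff₀ hm1] at hp
    linarith
  have hp1 : 1 < p := by
    by_contra h
    have : ((m : ℝ) + 1) * p ≤ (m + 1) * 1 :=
      mul_le_mul_of_nonneg_left (not_lt.1 h) hm1.le
    linarith
  obtain ⟨X, A, hX⟩ := surf hκ hα r
  obtain ⟨η, hη, hmd⟩ := model hm hκ hκ1 hyp hX hp
  obtain ⟨η', hη', hs⟩ := suml (n := m + 2) (p := p)
    (a := (((m : ℝ) + 1) * p - (m + 4)) / 2) hp1 (by linarith) hη
  refine ⟨η', hη', fun B => ?_⟩
  obtain ⟨B', hB'⟩ := bl_DC hα hκ hk1 hκ2 le_rfl hg hg1 hX (b (Fin.last (m + 1))) B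
  obtain ⟨C, hC⟩ := hmd B'
  obtain ⟨C', hC'⟩ := hs |C| (abs_nonneg C)
  refine ⟨C', fun G hG h0 R hR => ?_⟩
  have h1 : ∀ t x, x (Fin.last (m + 1)) ≤ k → G t x = 0 := fun t x hx => h0 t x (hx.trans hk2)
  refine hC' (fun l => extn (fl b g0 G l)) (extn (fp b g0 G))
    (fun l => measurable_extn _ (measurable_fl hG b hg.continuous.measurable l))
    (fun ξ => fl_hasSum hG b hg.continuous ξ) (fun l R hR => ?_) R hR
  exact fl_tail hα hκ hk1 hκ2 le_rfl hαd hrb hg hg1 hX (by linarith) hη hC hG h1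
    (fun d hd0 hd1 => hB' d hd0 hd1 G hG h1) l R hR

/-- The row PIECE in the form of RED. -/
theorem pieceAt (hm : 2 ≤ m) {p : ℝ} (hp : 2 * ((m : ℝ) + 2) / (m + 1) < p) : PieceAt m p :=
  fun _ hb _ hk _ hg hg0 => piece hm hb hp hk hg hg0

/-- The theorem on the whole sphere of `ℝ^(m+2)`, with tails. -/
theorem quadQ (hm : 2 ≤ m) {b : Fin (m + 2) → ℝ} (hb : Function.Injective b) {p : ℝ}
    (hp : 2 * ((m : ℝ) + 2) / (m + 1) < p) :
    ∃ η : ℝ, 0 < η ∧ ∀ B : ℕ → ℝ, ∃ C : ℝ, ∀ G : ℝ → E (m + 2) → ℂ, GC B G → ∀ R : ℝ, 1 ≤ R →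
      ∫⁻ ξ in {ξ : E (m + 2) | R ≤ ‖ξ‖}, ‖extn (fun x => G (∑ i, b i * x i ^ 2) x) ξ‖ₑ ^ p ≤
        ENNReal.ofReal (C * R ^ (-η)) := by
  have hm1 : (0 : ℝ) < (m : ℝ) + 1 := by positivity
  refine quadQ_of hb ?_ (pieceAt hm hp)
  refine lt_of_le_of_lt ?_ hp
  rw [le_div_iff₀ hm1]
  have : (0 : ℝ) ≤ m := by positivity
  linarith

end Pool.Agent.LQN
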