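import Pool.Agent.LQN.Df2
import Pool.Agent.LQ.PIECE1

/-!
LEAFQ for every `n = m + 2`, row PIECE, part 1: the density of a dyadic piece in the chart.
-/

set_option autoImplicit false

namespace Pool.Agent.LQN

open MeasureTheory Set Filter Topology Pool.Agent.MP_6cbfb8_an Pool.Agent.LF
open Pool.Agent.LQ (kc kc_smooth kc_eq kc_zero psd psd_smooth psd_zero psd_le kc_inv_smooth
  kc_sqrt_smooth)
open scoped RealInnerProductSpace ContDiff

variable {m : ℕ}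

/-! ### the explicit functions -/

theorem p1_ss {α t : ℝ} {r y : Fin m → ℝ} : ss α r t y = rr α r t y + ∑ i, y i ^ 2 := by
  unfold ss rr
  rw [sub_add, ← Finset.sum_sub_distrib, sub_eq_add_neg, ← Finset.sum_neg_distrib]
  congr 1
  exact Finset.sum_congr rfl fun i _ => by ring

theorem p1_t {α t : ℝ} {r y : Fin m → ℝ} (hα : α ≠ 0) :
    t = α * (rr α r t y + ∑ i, r i * y i ^ 2) := by
  unfold rr
  field_simp
  ring

theorem p1_A_pos {α t : ℝ} {r y : Fin m → ℝ} (h : 0 < rr α r t y) : 0 < AA α r t y :=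
  Real.sqrt_pos.2 h

theorem p1_A_sq {α t : ℝ} {r y : Fin m → ℝ} (h : 0 ≤ rr α r t y) :
    AA α r t y ^ 2 = rr α r t y := Real.sq_sqrt h

theorem p1_H_sq {α d t : ℝ} {r y : Fin m → ℝ} (h : 0 ≤ 1 - d ^ 2 * ss α r t y) :
    HH α d r t y ^ 2 = 1 - d ^ 2 * ss α r t y := Real.sq_sqrt h

/-- `d² h = 1 - H`. -/
theorem p1_h {α d t : ℝ} {r y : Fin m → ℝ} (h : 0 ≤ 1 - d ^ 2 * ss α r t y) :
    d ^ 2 * hh α d r t y = 1 - HH α d r t y := by
  have h1 : 0 ≤ HH α d r t y := Real.sqrt_nonneg _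
  have h2 := p1_H_sq h
  unfold hh
  rw [← mul_div_assoc, div_eq_iff (by linarith)]
  nlinarith

/-- The `t`-support. -/
theorem p1_t_le {α t : ℝ} {r y : Fin m → ℝ} (hα : α ≠ 0) (hy : ∀ i, |y i| ≤ 2)
    (h1 : 0 < rr α r t y) (h2 : rr α r t y ≤ 4) : |t| ≤ |α| * (4 + ∑ i, |r i| * 4) := by
  conv_lhs => rw [p1_t (r := r) (y := y) (t := t) hα]
  rw [abs_mul]
  refine mul_le_mul_of_nonneg_left ((abs_add_le _ _).trans ?_) (abs_nonneg _)
  refine add_le_add (by rwa [abs_of_pos h1]) ((Finset.abs_sum_le_sum_abs _ _).trans ?_)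
  refine Finset.sum_le_sum fun i _ => ?_
  rw [abs_mul, abs_sq]
  refine mul_le_mul_of_nonneg_left ?_ (abs_nonneg _)
  rw [← sq_abs]
  nlinarith [hy i, abs_nonneg (y i)]

theorem p1_z_le {z : E m} (hz : ∀ i, |z i| ≤ 2) : ‖z‖ ≤ √(4 * m) := by
  rw [EuclideanSpace.norm_eq]
  refine Real.sqrt_le_sqrt ?_
  calc ∑ i, ‖z i‖ ^ 2 ≤ ∑ _i : Fin m, (4 : ℝ) := by
        refine Finset.sum_le_sum fun i _ => ?_
        rw [Real.norm_eq_abs]
        nlinarith [hz i, abs_nonneg (z i)]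
    _ = 4 * m := by simp [mul_comm]

/-! ### the amplitude -/

/-- The amplitude without `G`. -/
noncomputable def cf (κ α : ℝ) (r : Fin m → ℝ) (g0 : ℝ → ℝ) (q : ℝ × (ℝ × E m)) : ℝ :=
  g0 (rr α r q.2.1 q.2.2.ofLp * kc 16 (fun v => 1 / v) (ss α r q.2.1 q.2.2.ofLp)) *
    psd (ss α r q.2.1 q.2.2.ofLp) *
    (kc (4 / κ) (fun v => 1 / √v) (rr α r q.2.1 q.2.2.ofLp) *
      kc (4 / κ) (fun v => 1 / √v) (1 - q.1 ^ 2 * ss α r q.2.1 q.2.2.ofLp) / (2 * |α|))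

theorem cf_smooth {κ : ℝ} (hκ : 0 < κ) (α : ℝ) (r : Fin m → ℝ) {g0 : ℝ → ℝ}
    (hg : ContDiff ℝ ∞ g0) : ContDiff ℝ ∞ (cf κ α r g0) := by
  have hr : ContDiff ℝ ∞ fun q : ℝ × (ℝ × E m) => rr α r q.2.1 q.2.2.ofLp := by
    unfold rr
    fun_prop
  have hs : ContDiff ℝ ∞ fun q : ℝ × (ℝ × E m) => ss α r q.2.1 q.2.2.ofLp := by
    unfold ss
    fun_prop
  have h1 := (kc_inv_smooth (by norm_num : (0 : ℝ) < 16)).comp hs
  have h2 := psd_smooth.comp hs
  have h3 := (kc_sqrt_smooth (by positivity : (0 : ℝ) < 4 / κ)).comp hr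
  have h4 : ContDiff ℝ ∞ fun q : ℝ × (ℝ × E m) => 1 - q.1 ^ 2 * ss α r q.2.1 q.2.2.ofLp :=
    contDiff_const.sub ((contDiff_fst.pow 2).mul hs)
  have h5 := (kc_sqrt_smooth (by positivity : (0 : ℝ) < 4 / κ)).comp h4
  exact ((hg.comp (hr.mul h1)).mul h2).mul ((h3.mul h5).div_const _)

/-- Where the amplitude lives. -/
theorem cf_supp {κ k0 α : ℝ} {r : Fin m → ℝ} (hκ : 0 < κ) (hk : κ ≤ k0 / 4)
    {g0 : ℝ → ℝ} (hg0 : ∀ v ≤ k0, g0 v = 0) {d t : ℝ}
    {z : E m} (h : cf κ α r g0 (d, (t, z)) ≠ 0) :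
    (∀ i, |z i| ≤ 2) ∧ κ < rr α r t z.ofLp ∧ rr α r t z.ofLp ≤ 4 ∧ 1 / 4 < ss α r t z.ofLp ∧
      ss α r t z.ofLp < 4 ∧ κ / 4 < 1 - d ^ 2 * ss α r t z.ofLp := by
  unfold cf at h
  simp only at h
  set r1 := rr α r t z.ofLp with hr
  set s := ss α r t z.ofLp with hs
  have hsr : s = r1 + ∑ i, z i ^ 2 := p1_ss
  have h1 : psd s ≠ 0 := fun h0 => h (by rw [h0]; ring)
  have h2 : g0 (r1 * kc 16 (fun v => 1 / v) s) ≠ 0 := fun h0 => h (by rw [h0]; ring)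
  have h3 : kc (4 / κ) (fun v => 1 / √v) (1 - d ^ 2 * s) ≠ 0 := fun h0 => h (by rw [h0]; ring)
  have hs1 : 1 / 4 < s := by
    by_contra h4
    exact h1 (psd_zero (Or.inl (not_lt.1 h4)))
  have hs2 : s < 4 := by
    by_contra h4
    exact h1 (psd_zero (Or.inr (not_lt.1 h4)))
  have hr1 : k0 < r1 / s := by
    rw [kc_eq (by linarith : (4 : ℝ) ≤ 16 * s), mul_one_div] at h2
    by_contra h4
    exact h2 (hg0 _ (not_lt.1 h4))
  have hr2 : κ < r1 := by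
    rw [lt_div_iff₀ (by linarith)] at hr1
    nlinarith
  have hsum : ∀ i, z i ^ 2 ≤ ∑ i, z i ^ 2 := fun i =>
    Finset.single_le_sum (f := fun i => z i ^ 2) (fun i _ => sq_nonneg _) (Finset.mem_univ i)
  have hsum0 : 0 ≤ ∑ i, z i ^ 2 := Finset.sum_nonneg fun i _ => sq_nonneg _
  refine ⟨fun i => ?_, hr2, by linarith, hs1, hs2, ?_⟩
  · rw [← sq_le_sq₀ (abs_nonneg _) (by norm_num), sq_abs]
    linarith [hsum i]
  · by_contra h4
    refine h3 (kc_zero ?_)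
    rw [div_mul_eq_mul_div, div_le_one hκ]
    linarith

/-- The derivatives of the amplitude are bounded uniformly in `d`. -/
theorem cf_bdd {κ k0 α : ℝ} {r : Fin m → ℝ} (hα : α ≠ 0) (hκ : 0 < κ) (hk : κ ≤ k0 / 4)
    {g0 : ℝ → ℝ} (hg : ContDiff ℝ ∞ g0)
    (hg0 : ∀ v ≤ k0, g0 v = 0) : ∃ C : ℕ → ℝ, ∀ d, 0 ≤ d → d ≤ 1 →
      ∀ j (p : ℝ × E m), ‖iteratedFDeriv ℝ j (fun p => (cf κ α r g0 (d, p) : ℂ)) p‖ ≤ C j := by
  set χ : ℝ → ℝ := fun d => Real.smoothTransition (d + 2) * Real.smoothTransition (3 - d) with hχ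
  have hχs : ContDiff ℝ ∞ χ :=
    (Real.smoothTransition.contDiff.comp (contDiff_id.add contDiff_const)).mul
      (Real.smoothTransition.contDiff.comp (contDiff_const.sub contDiff_id))
  set F : ℝ × (ℝ × E m) → ℂ := fun q => ((χ q.1 * cf κ α r g0 q : ℝ) : ℂ) with hF
  have hFs : ContDiff ℝ ∞ F :=
    Complex.ofRealCLM.contDiff.comp ((hχs.comp contDiff_fst).mul (cf_smooth hκ α r hg))
  have hFc : HasCompactSupport F := by
    refine HasCompactSupport.intro (K := Icc (-2) 3 ×ˢ (Icc (-(|α| * (4 + ∑ i, |r i| * 4)))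
      (|α| * (4 + ∑ i, |r i| * 4)) ×ˢ Metric.closedBall 0 √(4 * m)))
      (isCompact_Icc.prod (isCompact_Icc.prod (isCompact_closedBall _ _))) fun q hq => ?_
    by_contra h0
    have h1 : χ q.1 * cf κ α r g0 q ≠ 0 := fun h => h0 (by
      simp only [hF]
      rw [h, Complex.ofReal_zero])
    have h2 : χ q.1 ≠ 0 := left_ne_zero_of_mul h1
    have h3 : cf κ α r g0 q ≠ 0 := right_ne_zero_of_mul h1
    obtain ⟨d, t, z⟩ := q
    obtain ⟨h4, h5, h6, -, -, -⟩ := cf_supp hκ hk hg0 h3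
    refine hq ⟨⟨?_, ?_⟩, ?_, ?_⟩
    · by_contra h7
      refine h2 ?_
      simp only [hχ]
      rw [Real.smoothTransition.zero_of_nonpos (by linarith [not_le.1 h7]), zero_mul]
    · by_contra h7
      refine h2 ?_
      simp only [hχ]
      rw [Real.smoothTransition.zero_of_nonpos (by linarith [not_le.1 h7] : 3 - d ≤ 0), mul_zero]
    · exact abs_le.1 (p1_t_le hα h4 (hκ.trans h5) h6)
    · rw [mem_closedBall_zero_iff]
      exact p1_z_le h4
  obtain ⟨C, hC⟩ := iter_bdd hFs hFc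
  refine ⟨C, fun d hd0 hd1 j p => ?_⟩
  have h1 := (iter_slice hFs d j p).trans (hC j (d, p))
  have h2 : (fun p : ℝ × E m => F (d, p)) = fun p => (cf κ α r g0 (d, p) : ℂ) := by
    funext p
    simp only [hF, hχ]
    rw [Real.smoothTransition.one_of_one_le (by linarith),
      Real.smoothTransition.one_of_one_le (by linarith : 1 ≤ 3 - d)]
    simp
  rwa [h2] at h1

/-! ### the point of the sphere -/

/-- The point of the sphere. -/
noncomputable def xt (X : ℝ → ℝ × E m → E (m + 2)) (d : ℝ) (p : ℝ × E m) : E (m + 2) :=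
  WithLp.toLp 2 fun i => if i = Fin.last (m + 1) then 1 - d ^ 2 * X d p i else d * X d p i

/-- The linear part of `xt`. -/
noncomputable def Ld (d : ℝ) : E (m + 2) →ₗ[ℝ] E (m + 2) where
  toFun v := WithLp.toLp 2 fun i => if i = Fin.last (m + 1) then -(d ^ 2 * v i) else d * v i
  map_add' v w := by
    ext i
    simp only [PiLp.add_apply]
    split_ifs <;> ring
  map_smul' c v := by
    ext i
    simp only [PiLp.smul_apply, smul_eq_mul, RingHom.id_apply]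
    split_ifs <;> ring

theorem Ld_apply (d : ℝ) (v : E (m + 2)) (i : Fin (m + 2)) :
    Ld d v i = if i = Fin.last (m + 1) then -(d ^ 2 * v i) else d * v i := rfl

theorem Ld_norm {d : ℝ} (hd0 : 0 ≤ d) (hd1 : d ≤ 1) (v : E (m + 2)) : ‖Ld d v‖ ≤ 1 * ‖v‖ := by
  rw [one_mul, ← sq_le_sq₀ (norm_nonneg _) (norm_nonneg _), EuclideanSpace.norm_sq_eq,
    EuclideanSpace.norm_sq_eq]
  refine Finset.sum_le_sum fun i _ => ?_
  rw [Real.norm_eq_abs, Real.norm_eq_abs, sq_abs, sq_abs, Ld_apply]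
  have h1 : d ^ 2 ≤ 1 := pow_le_one₀ hd0 hd1
  have h2 : 0 ≤ d ^ 2 := by positivity
  have h3 : (d ^ 2) ^ 2 ≤ 1 := pow_le_one₀ h2 h1
  split_ifs
  · rw [neg_sq, mul_pow]
    exact mul_le_of_le_one_left (sq_nonneg _) h3
  · rw [mul_pow]
    exact mul_le_of_le_one_left (sq_nonneg _) h1

theorem xt_bdd {κ α : ℝ} {r : Fin m → ℝ} {X : ℝ → ℝ × E m → E (m + 2)} {A : ℕ → ℝ}
    (hX : SF κ α r X A) {d : ℝ}
    (hd0 : 0 ≤ d) (hd1 : d ≤ 1) : ContDiff ℝ ∞ (xt X d) ∧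
      ∀ j p, ‖iteratedFDeriv ℝ j (xt X d) p‖ ≤ 1 + A j := by
  obtain ⟨h1, h2, -⟩ := hX d hd0 hd1
  set L : E (m + 2) →L[ℝ] E (m + 2) := (Ld d).mkContinuous 1 (Ld_norm hd0 hd1) with hL
  have hLn : ‖L‖ ≤ 1 := (Ld d).mkContinuous_norm_le zero_le_one _
  have e : xt X d = fun p => (L ∘ X d) p + EuclideanSpace.single (Fin.last (m + 1)) (1 : ℝ) := by
    funext p
    ext i
    have hLp : ∀ v, L v = WithLp.toLp 2 fun i =>
      if i = Fin.last (m + 1) then -(d ^ 2 * v i) else d * v i := fun v => rfl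
    simp only [Function.comp_apply, hLp, xt, PiLp.add_apply, EuclideanSpace.single_apply]
    split_ifs <;> ring
  have hc : ContDiff ℝ ∞ (L ∘ X d) := L.contDiff.comp h1
  refine ⟨?_, fun j p => ?_⟩
  · rw [e]
    exact hc.add contDiff_const
  · have hj : ((j : ℕ) : ℕ∞ω) ≤ ∞ := by exact_mod_cast le_top
    rw [e, fun_iteratedFDeriv_add_apply (hc.of_le hj).contDiffAt contDiffAt_const]
    refine (norm_add_le _ _).trans ?_
    rw [add_comm]
    refine add_le_add ?_ ?_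
    · rcases Nat.eq_zero_or_pos j with h0 | h0
      · subst h0
        rw [norm_iteratedFDeriv_zero]
        simp
      · rw [iteratedFDeriv_const_of_ne (by omega)]
        simp
    · refine (ContinuousLinearMap.norm_iteratedFDeriv_comp_left _
        (h1.contDiffAt.of_le hj) le_rfl).trans ?_
      calc ‖L‖ * ‖iteratedFDeriv ℝ j (X d) p‖ ≤ 1 * A j :=
            mul_le_mul hLn (h2 j p) (norm_nonneg _) zero_le_one
        _ = A j := one_mul _

/-- The density of the piece of size `d` in the chart. -/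
noncomputable def bl (κ α : ℝ) (r : Fin m → ℝ) (b2 : ℝ) (g0 : ℝ → ℝ)
    (X : ℝ → ℝ × E m → E (m + 2)) (d : ℝ)
    (G : ℝ → E (m + 2) → ℂ) (p : ℝ × E m) : ℂ :=
  G (b2 + d ^ 2 * p.1) (xt X d p) * (cf κ α r g0 (d, p) : ℂ)

/-- A point with given coordinates. -/
noncomputable def pt (u : ℝ) (y : Fin m → ℝ) (h : ℝ) : E (m + 2) :=
  WithLp.toLp 2 (Fin.snoc (α := fun _ => ℝ) (Fin.cons (α := fun _ => ℝ) u y) h)

theorem pt_zero (u : ℝ) (y : Fin m → ℝ) (h : ℝ) : pt u y h 0 = u := by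
  have h1 : (0 : Fin (m + 2)) = Fin.castSucc (0 : Fin (m + 1)) := rfl
  rw [h1]
  unfold pt
  simp only
  rw [Fin.snoc_castSucc, Fin.cons_zero]

theorem pt_mid (u : ℝ) (y : Fin m → ℝ) (h : ℝ) (i : Fin m) : pt u y h i.succ.castSucc = y i := by
  unfold pt
  simp only
  rw [Fin.snoc_castSucc, Fin.cons_succ]

theorem pt_last (u : ℝ) (y : Fin m → ℝ) (h : ℝ) : pt u y h (Fin.last (m + 1)) = h := by
  unfold pt
  simp only
  rw [Fin.snoc_last]

/-- Two points with the same coordinates are equal. -/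
theorem ext3 {x y : E (m + 2)} (h0 : x 0 = y 0)
    (h1 : ∀ i : Fin m, x i.succ.castSucc = y i.succ.castSucc)
    (h2 : x (Fin.last (m + 1)) = y (Fin.last (m + 1))) : x = y := by
  ext i
  refine Fin.lastCases h2 (fun j => ?_) i
  refine Fin.cases h0 (fun k => h1 k) j

/-- On the large region `xt` is the point of the sphere. -/
theorem xt_eq {κ α : ℝ} {r : Fin m → ℝ} (hκ : 0 < κ) {X : ℝ → ℝ × E m → E (m + 2)} {A : ℕ → ℝ}
    (hX : SF κ α r X A)
    {d : ℝ} (hd0 : 0 ≤ d) (hd1 : d ≤ 1) {t : ℝ} {z : E m} (h : Rl κ α d r t z.ofLp) :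
    xt X d (t, z) = pt (d * AA α r t z.ofLp) (fun i => d * z i) (HH α d r t z.ofLp) := by
  obtain ⟨-, -, h3⟩ := hX d hd0 hd1
  obtain ⟨e0, e1, e2, -, -⟩ := h3 t z h
  have hH := p1_h (α := α) (r := r) (d := d) (t := t) (y := z.ofLp)
    (by linarith [h.2.2.2] : 0 ≤ 1 - d ^ 2 * ss α r t z.ofLp)
  refine ext3 ?_ (fun i => ?_) ?_
  · rw [pt_zero]
    unfold xt
    simp only
    rw [if_neg (by exact (Fin.last_pos).ne), e0]
  · rw [pt_mid]
    unfold xt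
    simp only
    rw [if_neg (Fin.castSucc_lt_last _).ne, e1]
  · rw [pt_last]
    unfold xt
    simp only
    rw [if_pos trivial, e2, hH]
    ring

theorem bl_DC {κ k0 α : ℝ} {r : Fin m → ℝ} (hα : α ≠ 0) (hκ : 0 < κ) (hk0 : 0 < k0)
    (hk : κ ≤ k0 / 4) (hk2 : κ ≤ k0 ^ 2) {g0 : ℝ → ℝ} (hg : ContDiff ℝ ∞ g0)
    (hg0 : ∀ v ≤ k0, g0 v = 0) {X : ℝ → ℝ × E m → E (m + 2)} {A : ℕ → ℝ} (hX : SF κ α r X A)
    (b2 : ℝ) (B : ℕ → ℝ) : ∃ B' : ℕ → ℝ, ∀ d, 0 ≤ d → d ≤ 1 → ∀ G : ℝ → E (m + 2) → ℂ, GC B G →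
      (∀ t x, x (Fin.last (m + 1)) ≤ k0 → G t x = 0) →
      DC κ α d r B' (bl κ α r b2 g0 X d G) := by
  obtain ⟨C, hC⟩ := cf_bdd (r := r) hα hκ hk hg hg0
  refine ⟨fun k => ∑ i ∈ Finset.range (k + 1), (k.choose i : ℝ) *
        ((i.factorial : ℝ) * (∑ j ∈ Finset.range (i + 1), |B j|) *
          (1 + ∑ j ∈ Finset.range (i + 1), |1 + A j|) ^ i) * C (k - i), ?_⟩
  intro d hd0 hd1 G hG hG2
  obtain ⟨hXs, hXb⟩ := xt_bdd hX hd0 hd1
  have hK : ContDiff ℝ ∞ fun p : ℝ × E m => (cf κ α r g0 (d, p) : ℂ) :=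
    Complex.ofRealCLM.contDiff.comp ((cf_smooth hκ α r hg).comp
      (contDiff_const.prodMk contDiff_id))
  refine ⟨?_, fun t => ?_, fun t k z => ?_, fun t z h => ?_⟩
  · refine Measurable.mul ?_ hK.continuous.measurable
    have h1 : Measurable fun p : ℝ × E m => (b2 + d ^ 2 * p.1, xt X d p) :=
      (by fun_prop : Measurable fun p : ℝ × E m => b2 + d ^ 2 * p.1).prodMk
        hXs.continuous.measurable
    exact hG.1.comp h1
  · have hz : ContDiff ℝ ∞ fun z : E m => ((t, z) : ℝ × E m) := contDiff_const.prodMk contDiff_id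
    exact ((hG.2.1 (b2 + d ^ 2 * t)).comp (hXs.comp hz)).mul (hK.comp hz)
  · exact iter_comp hXs hK hXb (fun j p => hC d hd0 hd1 j p) (hG.2.1 (b2 + d ^ 2 * t))
      (fun j x => hG.2.2 j _ x) t k z
  · by_contra h0
    have h1 : cf κ α r g0 (d, (t, z)) ≠ 0 := by
      intro h2
      refine h0 ?_
      unfold bl
      rw [h2, Complex.ofReal_zero, mul_zero]
    obtain ⟨h2, h3, h4, h5, h6, h7⟩ := cf_supp hκ hk hg0 h1
    have hRg : Rl κ α d r t z.ofLp :=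
      ⟨fun i => (h2 i).trans (by norm_num), by linarith, by linarith, h7.le⟩
    have h8 : k0 < HH α d r t z.ofLp := by
      by_contra h9
      refine h0 ?_
      unfold bl
      rw [hG2, zero_mul]
      rw [xt_eq hκ hX hd0 hd1 hRg, pt_last]
      exact not_lt.1 h9
    refine h ⟨h2, h3.le, h4, ?_⟩
    have h9 := p1_H_sq (α := α) (r := r) (d := d) (t := t) (y := z.ofLp)
      (by linarith : 0 ≤ 1 - d ^ 2 * ss α r t z.ofLp)
    nlinarith

end Pool.Agent.LQN
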