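import Pool.Agent.MST.CH
import Pool.Agent.LQN.PIECE1

/-!
LEAFQ for every `n = m + 2`, row PIECE, part 2a: from the sphere to the ball, as an iterated
integral.
-/

set_option autoImplicit false

namespace Pool.Agent.LQN

open MeasureTheory Set Pool.Agent.MP_6cbfb8_an
open scoped RealInnerProductSpace ContDiff Real

variable {m : ℕ}

/-- `ℝ × ℝ^m` and `ℝ^(m+1)`. -/
noncomputable def eN (m : ℕ) : ℝ × E m ≃ᵐ E (m + 1) :=
  ((MeasurableEquiv.refl ℝ).prodCongr (MeasurableEquiv.toLp 2 (Fin m → ℝ)).symm).trans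
    ((MeasurableEquiv.piFinSuccAbove (fun _ : Fin (m + 1) => ℝ) 0).symm.trans
      (MeasurableEquiv.toLp 2 (Fin (m + 1) → ℝ)))

theorem eN_eq (p : ℝ × E m) :
    eN m p = WithLp.toLp 2 (Fin.cons (α := fun _ => ℝ) p.1 p.2.ofLp) := by
  have h : (MeasurableEquiv.piFinSuccAbove (fun _ : Fin (m + 1) => ℝ) 0).symm (p.1, p.2.ofLp) =
      Fin.cons (α := fun _ => ℝ) p.1 p.2.ofLp := by
    simp [MeasurableEquiv.piFinSuccAbove, Fin.insertNthEquiv, Fin.insertNth_zero']
  exact congrArg (WithLp.toLp 2) h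

theorem eN_zero (p : ℝ × E m) : eN m p 0 = p.1 := by
  rw [eN_eq]
  rfl

theorem eN_succ (p : ℝ × E m) (i : Fin m) : eN m p i.succ = p.2 i := by
  rw [eN_eq]
  rfl

theorem eN_mp : MeasurePreserving (eN m) volume volume := by
  have h1 : MeasurePreserving ((MeasurableEquiv.refl ℝ).prodCongr
      (MeasurableEquiv.toLp 2 (Fin m → ℝ)).symm) (volume : Measure (ℝ × E m))
      (volume : Measure (ℝ × (Fin m → ℝ))) :=
    (MeasurePreserving.id volume).prod (PiLp.volume_preserving_ofLp (Fin m))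
  have h2 : MeasurePreserving (MeasurableEquiv.piFinSuccAbove (fun _ : Fin (m + 1) => ℝ) 0).symm
      (volume : Measure (ℝ × (Fin m → ℝ))) volume :=
    (volume_preserving_piFinSuccAbove (fun _ : Fin (m + 1) => ℝ) 0).symm _
  exact h1.trans (h2.trans (PiLp.volume_preserving_toLp (Fin (m + 1))))

theorem eN_inner (X : E (m + 1)) (p : ℝ × E m) :
    inner ℝ (eN m p) X = p.1 * X 0 + ∑ i : Fin m, p.2 i * X i.succ := by
  rw [PiLp.inner_apply, Fin.sum_univ_succ]
  simp only [eN_zero, eN_succ]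
  simp [mul_comm]

theorem eN_norm (p : ℝ × E m) : ‖eN m p‖ ^ 2 = p.1 ^ 2 + ∑ i : Fin m, p.2 i ^ 2 := by
  rw [EuclideanSpace.norm_sq_eq, Fin.sum_univ_succ]
  simp only [eN_zero, eN_succ]
  simp

theorem eN_join (p : ℝ × E m) (h : ℝ) : (join (eN m p) h : E (m + 2)) = pt p.1 p.2.ofLp h := by
  rw [eN_eq]
  rfl

/-- The sphere and the ball, iterated integral. -/
theorem chart_int0 {g : E (m + 2) → ℂ} (hg : Measurable g) {M : ℝ} (hM : ∀ x, ‖g x‖ ≤ M) {k0 : ℝ}
    (hk : 0 < k0) (h0 : ∀ x, x (Fin.last (m + 1)) ≤ k0 → g x = 0) (ξ : E (m + 2)) :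
    extn g ξ = ∫ y : E m, ∫ u : ℝ, g (pt u y.ofLp √(1 - u ^ 2 - ∑ i, y i ^ 2)) *
      ((1 / √(1 - u ^ 2 - ∑ i, y i ^ 2) : ℝ) : ℂ) *
      Complex.exp (((-(2 * π * (u * ξ 0 + ∑ i : Fin m, y i * ξ i.succ.castSucc +
        √(1 - u ^ 2 - ∑ i, y i ^ 2) * ξ (Fin.last (m + 1)))) : ℝ) : ℂ) * Complex.I) := by
  have hM0 : 0 ≤ M := (norm_nonneg _).trans (hM 0)
  set q : ℝ × E m → ℝ := fun p => 1 - p.1 ^ 2 - ∑ i, p.2 i ^ 2 with hq
  set F : ℝ × E m → ℂ := fun p => g (pt p.1 p.2.ofLp √(q p)) * ((1 / √(q p) : ℝ) : ℂ) *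
      Complex.exp (((-(2 * π * (p.1 * ξ 0 + ∑ i : Fin m, p.2 i * ξ i.succ.castSucc +
        √(q p) * ξ (Fin.last (m + 1)))) : ℝ) : ℂ) * Complex.I) with hF
  -- the support
  have hF0 : ∀ p : ℝ × E m, √(q p) ≤ k0 → F p = 0 := by
    intro p hp
    rw [hF]
    simp only
    rw [h0 _ (by rw [pt_last]; exact hp), zero_mul, zero_mul]
  have hqm : Measurable q := by
    rw [hq]
    fun_prop
  have hFm : Measurable F := by
    have h1 : Measurable fun p : ℝ × E m => √(q p) := hqm.sqrt
    have h2 : Measurable fun p : ℝ × E m => (pt p.1 p.2.ofLp √(q p) : E (m + 2)) := by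
      refine (MeasurableEquiv.toLp 2 (Fin (m + 2) → ℝ)).measurable.comp ?_
      rw [measurable_pi_iff]
      intro i
      refine Fin.lastCases ?_ (fun j => ?_) i
      · simp only [Fin.snoc_last]
        exact h1
      · simp only [Fin.snoc_castSucc]
        refine Fin.cases ?_ (fun k => ?_) j
        · simp only [Fin.cons_zero]
          exact measurable_fst
        · simp only [Fin.cons_succ]
          fun_prop
    refine ((hg.comp h2).mul ?_).mul ?_
    · exact Complex.measurable_ofReal.comp (measurable_const.div h1)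
    · refine Complex.measurable_exp.comp (Measurable.mul ?_ measurable_const)
      refine Complex.measurable_ofReal.comp ?_
      fun_prop
  have hFb : ∀ p, ‖F p‖ ≤ M * k0⁻¹ := by
    intro p
    by_cases hp : √(q p) ≤ k0
    · rw [hF0 p hp, norm_zero]
      positivity
    · push Not at hp
      rw [hF]
      simp only
      rw [norm_mul, Complex.norm_exp_ofReal_mul_I, mul_one, norm_mul, Complex.norm_real,
        Real.norm_of_nonneg (by positivity)]
      have h1 : 1 / √(q p) ≤ k0⁻¹ := by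
        rw [one_div]
        exact inv_anti₀ hk hp.le
      gcongr
      exact hM _
  have hS : ∀ p : ℝ × E m, p ∉ Icc (-1 : ℝ) 1 ×ˢ Metric.closedBall (0 : E m) 1 → F p = 0 := by
    intro p hp
    refine hF0 p ?_
    have h2 : ‖p.2‖ ^ 2 = ∑ i, p.2 i ^ 2 := by
      rw [EuclideanSpace.norm_sq_eq]
      simp
    have h1 : q p ≤ 0 := by
      by_contra h3
      push Not at h3
      rw [hq] at h3
      simp only at h3
      rw [← h2] at h3
      refine hp ⟨⟨?_, ?_⟩, ?_⟩
      · nlinarith [sq_nonneg ‖p.2‖]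
      · nlinarith [sq_nonneg ‖p.2‖]
      · rw [mem_closedBall_zero_iff]
        nlinarith [sq_nonneg p.1, norm_nonneg p.2]
    rw [Real.sqrt_eq_zero_of_nonpos h1]
    exact hk.le
  have hSm : MeasurableSet (Icc (-1 : ℝ) 1 ×ˢ Metric.closedBall (0 : E m) 1) :=
    measurableSet_Icc.prod measurableSet_closedBall
  have hFi : Integrable F ((volume : Measure ℝ).prod (volume : Measure (E m))) := by
    have h1 : (Icc (-1 : ℝ) 1 ×ˢ Metric.closedBall (0 : E m) 1).indicator F = F := by
      funext p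
      by_cases hp : p ∈ Icc (-1 : ℝ) 1 ×ˢ Metric.closedBall (0 : E m) 1
      · rw [indicator_of_mem hp]
      · rw [indicator_of_notMem hp, hS p hp]
    rw [← h1, integrable_indicator_iff hSm]
    refine Measure.integrableOn_of_bounded (M := M * k0⁻¹) ?_ hFm.aestronglyMeasurable
      (Filter.Eventually.of_forall hFb)
    rw [Measure.prod_prod]
    exact ENNReal.mul_ne_top (by simp) measure_closedBall_lt_top.ne
  have e0 : ∫ p, F p ∂((volume : Measure ℝ).prod (volume : Measure (E m))) =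
      ∫ y : E m, ∫ u : ℝ, F (u, y) := integral_prod_symm F hFi
  refine Eq.trans ?_ e0
  rw [← Measure.volume_eq_prod]
  -- the chart
  set K : ℝ := M + 1 with hK
  have hK0 : 0 < K := by positivity
  have hKc : (K : ℂ) ≠ 0 := by exact_mod_cast hK0.ne'
  set g' : E (m + 2) → ℂ := fun x => ((K⁻¹ : ℝ) : ℂ) * g x with hg'
  have hg'm : Measurable g' := hg.const_mul _
  have hg'b : ∀ x, ‖g' x‖ ≤ 1 := by
    intro x
    rw [hg']
    simp only
    rw [norm_mul, Complex.norm_real, Real.norm_of_nonneg (by positivity), inv_mul_le_iff₀ hK0,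
      mul_one]
    linarith [hM x]
  have hge : (fun x : E (m + 2) => if 0 < x (Fin.last (m + 1)) then g' x else 0) = g' := by
    funext x
    by_cases h : 0 < x (Fin.last (m + 1))
    · rw [if_pos h]
    · rw [if_neg h, hg']
      simp only
      rw [h0 x ((not_lt.1 h).trans hk.le), mul_zero]
  set X : E (m + 1) := WithLp.toLp 2 (fun i => ξ i.castSucc) with hX
  have hξ : (join X (ξ (Fin.last (m + 1))) : E (m + 2)) = ξ := by
    ext i
    refine Fin.lastCases ?_ (fun j => ?_) i
    · simp [join, hX]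
    · simp [join, hX]
  have h1 := MST.chart m g' hg'm hg'b X (ξ (Fin.last (m + 1)))
  rw [hge] at h1
  have h2 : extn g ξ = (K : ℂ) * extn g' (join X (ξ (Fin.last (m + 1))) : E (m + 2)) := by
    rw [hξ]
    unfold extn
    rw [← integral_const_mul]
    refine integral_congr_ae (Filter.Eventually.of_forall fun x => ?_)
    simp only [hg']
    rw [Complex.ofReal_inv, ← mul_assoc, ← mul_assoc, mul_inv_cancel₀ hKc, one_mul]
  refine (h2.trans (congrArg _ h1)).trans ?_
  rw [← integral_indicator measurableSet_ball,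
    ← (eN_mp (m := m)).integral_comp (eN m).measurableEmbedding, ← integral_const_mul]
  refine integral_congr_ae (Filter.Eventually.of_forall fun p => ?_)
  simp only
  have e3 : 1 - ‖eN m p‖ ^ 2 = q p := by
    rw [eN_norm, hq]
    ring
  by_cases hp : eN m p ∈ Metric.ball (0 : E (m + 1)) 1
  · rw [indicator_of_mem hp, e3, eN_join, eN_inner, hg', hF]
    simp only
    unfold MST.ex
    have e4 : X 0 = ξ 0 := rfl
    have e5 : ∀ i : Fin m, X i.succ = ξ i.succ.castSucc := fun i => rfl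
    rw [e4, Complex.ofReal_inv]
    simp only [e5]
    field_simp
  · rw [indicator_of_notMem hp, mul_zero]
    symm
    refine hF0 p ?_
    rw [mem_ball_zero_iff, not_lt] at hp
    have h4 : q p ≤ 0 := by
      rw [← e3]
      nlinarith
    rw [Real.sqrt_eq_zero_of_nonpos h4]
    exact hk.le

end Pool.Agent.LQN
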