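import Pool.Agent.LQN.G2
import Pool.Agent.LQN.SVR
import Pool.Agent.LQN.KF

/-!
LQN: the two-point lemma. A linear form which controls, together with the differences of the `U i`,
the chord of two points whose rows are close to those of a third one.
-/

set_option autoImplicit false

namespace Pool.Agent.LQN.NR

variable {m : ℕ}

theorem rg_mono {κ κ' α d : ℝ} {r : Fin m → ℝ} {t : ℝ} {y : Fin m → ℝ} (h : Rg κ α d r t y)
    (h0 : 0 < κ') (h1 : κ' ≤ κ) : Rg κ' α d r t y := by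
  have h2 : κ⁻¹ ≤ κ'⁻¹ := inv_anti₀ h0 h1
  exact ⟨fun i => (h.1 i).trans h2, h1.trans h.2.1, h.2.2.1.trans h2, h1.trans h.2.2.2⟩

theorem bx_mono {c0 c1 t0 : ℝ} {y0 : Fin m → ℝ} {t : ℝ} {y : Fin m → ℝ} (h : Bx c0 t0 y0 t y)
    (h1 : c0 ≤ c1) : Bx c1 t0 y0 t y :=
  ⟨h.1.trans h1, fun i => (h.2 i).trans (mul_le_mul_of_nonneg_right h1 (abs_nonneg _))⟩

theorem nn_nonneg (t : ℝ) (y : Fin m → ℝ) (t' : ℝ) (y' : Fin m → ℝ) : 0 ≤ nn t y t' y' :=
  add_nonneg (abs_nonneg _) (Finset.sum_nonneg fun _ _ => abs_nonneg _)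

/-- The rows as linear forms. -/
theorem row_lin {α : ℝ} (hα : α ≠ 0) (r L y1 yb : Fin m → ℝ) (a3 c3 : ℝ) :
    ∃ (a : Fin m → ℝ) (b : Fin m → Fin m → ℝ),
      (∀ Dt D i, Row α r L y1 yb a3 c3 Dt D i = a i * Dt + ∑ k, b i k * D k) ∧
      (∀ v, Cot α r y1 a3 c3 v = ∑ i, v i * a i) ∧
      ∀ v k, Coy r L y1 yb a3 c3 v k = ∑ i, v i * b i k := by
  have h1 : ∀ Dt D i, Row α r L y1 yb a3 c3 Dt D i =
      Cot α r y1 a3 c3 (Pi.single i 1) * Dt +
        ∑ k, Coy r L y1 yb a3 c3 (Pi.single i 1) k * D k := by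
    intro Dt D i
    rw [← row_cot hα]
    simp [Pi.single_apply]
  refine ⟨fun i => Cot α r y1 a3 c3 (Pi.single i 1),
    fun i k => Coy r L y1 yb a3 c3 (Pi.single i 1) k, h1, fun v => ?_, fun v k => ?_⟩
  · have h2 := row_cot hα r L y1 yb a3 c3 1 0 v
    simp only [h1] at h2
    simpa using h2.symm
  · have h2 := row_cot hα r L y1 yb a3 c3 0 (Pi.single k 1) v
    simp only [h1] at h2
    simpa [Pi.single_apply] using h2.symm

/-- The two-point lemma. -/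
theorem tp {α : ℝ} {r : Fin m → ℝ} (h : Hyp α r) {κ : ℝ} (hκ : 0 < κ) (hκ1 : κ ≤ 1) :
    ∃ C c1 : ℝ, 0 < C ∧ 0 < c1 ∧ c1 ≤ 1 / 8 ∧ ∀ d, 0 ≤ d → d ≤ 1 → ∀ t0 y0, Rg κ α d r t0 y0 →
      (∀ i, y0 i ≠ 0) → ∀ t y, Bx c1 t0 y0 t y → ∀ w1 wn, κ ≤ |w1| + |wn| → |w1| + |wn| ≤ κ⁻¹ →
      ∃ (e0 : ℝ) (e : Fin m → ℝ), |e0| ≤ 1 ∧ (∀ k, |e k| ≤ 1) ∧
        ∀ t1 y1 t2 y2, Bx c1 t0 y0 t1 y1 → Bx c1 t0 y0 t2 y2 → ∀ w1' wn' (w' : Fin m → ℝ),
          |w1' - w1| ≤ c1 → |wn' - wn| ≤ c1 →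
          (∀ i, |LL α d r w1' wn' t1 y1 i - LL α d r w1 wn t y i| ≤
            c1 * el α d r w1 wn t y i) →
          ∀ δ : Fin m → ℝ, (∀ i, |δ i| ≤ c1 * el α d r w1 wn t y i * nn t1 y1 t2 y2) →
          nn t1 y1 t2 y2 ≤ C * (∑ i, |UU α d r w1' wn' w' t2 y2 i -
            UU α d r w1' wn' w' t1 y1 i + δ i| / el α d r w1 wn t y i +
              |e0 * (t2 - t1) + ∑ k, e k * (y2 k - y1 k)|) := by
  obtain ⟨cb, hcb, hcb8, box⟩ := box_sub h hκ hκ1
  have hκ4 : 0 < κ / 4 := by positivity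
  have hκ41 : κ / 4 ≤ 1 := by linarith
  obtain ⟨Cs, cs, hCs, hcs, SV⟩ := svr h hκ4 hκ41
  obtain ⟨Cp, hCp, PT⟩ := row_pert h hκ4 hκ41
  obtain ⟨Cn, cn, hCn, hcn, NP⟩ := near_pts h hκ hκ1
  have hk := kc_pos m hCs.le
  -- the small constant
  set K : ℝ := kc m Cs * (m + 1) * (Cp * Cn + 1) * 2 with hK
  have hK0 : 0 < K := by rw [hK]; positivity
  refine ⟨2 * kc m Cs, min (min (1 / K) (1 / Cn)) (min cn cb), by positivity, by positivity, ?_, ?_⟩
  · exact (min_le_right _ _).trans ((min_le_right _ _).trans hcb8)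
  set c1 : ℝ := min (min (1 / K) (1 / Cn)) (min cn cb) with hc1
  have hc10 : 0 < c1 := by rw [hc1]; positivity
  have hc1K : c1 ≤ 1 / K := (min_le_left _ _).trans (min_le_left _ _)
  have hc1C : c1 ≤ 1 / Cn := (min_le_left _ _).trans (min_le_right _ _)
  have hc1n : c1 ≤ cn := (min_le_right _ _).trans (min_le_left _ _)
  have hc1b : c1 ≤ cb := (min_le_right _ _).trans (min_le_right _ _)
  intro d hd0 hd1 t0 y0 hRg hy0 t y hB w1 wn hw hw'
  have hq : Rg (κ / 4) α d r t y := box d hd0 hd1 t0 y0 t y hRg (bx_mono hB hc1b)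
  have hw4 : κ / 4 ≤ |w1| + |wn| := by linarith
  have hi4 : κ⁻¹ ≤ (κ / 4)⁻¹ := inv_anti₀ hκ4 (by linarith)
  have hw4' : |w1| + |wn| ≤ (κ / 4)⁻¹ := hw'.trans hi4
  -- `el` is positive
  have hyt : ∀ i, y i ≠ 0 := by
    intro i hi
    have h1 := hB.2 i
    rw [hi, zero_sub, abs_neg] at h1
    have h2 : 0 < |y0 i| := abs_pos.2 (hy0 i)
    have h3 : c1 ≤ 1 / 8 := hc1b.trans hcb8
    nlinarith
  have hel : ∀ i, 0 < el α d r w1 wn t y i := by
    intro i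
    unfold el
    have := abs_pos.2 (hyt i)
    have := abs_nonneg (LL α d r w1 wn t y i)
    linarith
  -- the rows at the reference point
  have hself : ∀ η : ℝ, 0 ≤ η → Near η α d r w1 wn t y (LL α d r w1 wn t y) y y
      (w1 / AA α r t y ^ 3) (d ^ 2 * wn / HH α d r t y ^ 3) := by
    intro η hη
    refine ⟨fun i => ?_, fun i => ?_, fun i => ?_, ?_, ?_⟩
    · rw [sub_self, abs_zero]
      exact mul_nonneg hη (hel i).le
    · rw [sub_self, abs_zero]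
      positivity
    · rw [sub_self, abs_zero]
      positivity
    · rw [sub_self, abs_zero]
      exact hη
    · rw [sub_self, abs_zero]
      exact hη
  obtain ⟨a, b, hrow, hcot, hcoy⟩ := row_lin h.α0 r (LL α d r w1 wn t y) y y
    (w1 / AA α r t y ^ 3) (d ^ 2 * wn / HH α d r t y ^ 3)
  have hsv := SV d hd0 hd1 t y w1 wn hq hw4 hw4' _ _ _ _ _ (hself cs hcs.le)
  obtain ⟨e0, e, he0, he, -, -, hKF⟩ := kf_robust (fun i => a i / el α d r w1 wn t y i)
    (fun i k => b i k / el α d r w1 wn t y i) hCs.le (fun v => by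
      have h1 := hsv fun i => v i / el α d r w1 wn t y i
      have h2 : ∀ i, |v i / el α d r w1 wn t y i| * el α d r w1 wn t y i = |v i| := by
        intro i
        rw [abs_div, abs_of_pos (hel i), div_mul_cancel₀ _ (hel i).ne']
      simp only [h2, hcot, hcoy] at h1
      have h3 : ∀ i, v i / el α d r w1 wn t y i * a i = v i * (a i / el α d r w1 wn t y i) :=
        fun i => by ring
      have h4 : ∀ i k, v i / el α d r w1 wn t y i * b i k =
          v i * (b i k / el α d r w1 wn t y i) := fun i k => by ring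
      simp only [h3, h4] at h1
      exact h1)
  refine ⟨e0, e, he0, he, ?_⟩
  intro t1 y1 t2 y2 hB1 hB2 w1' wn' w' hw1 hwn hL δ hδ
  have hR1 := box d hd0 hd1 t0 y0 t1 y1 hRg (bx_mono hB1 hc1b)
  have hR2 := box d hd0 hd1 t0 y0 t2 y2 hRg (bx_mono hB2 hc1b)
  have hnear := NP c1 hc10 hc1n d hd0 hd1 t0 y0 hRg t y t1 y1 t2 y2 hB hB1 hB2 w1 wn w1' wn' hw'
    hw1 hwn (LL α d r w1' wn' t1 y1) hL
  have hη0 : 0 ≤ Cn * c1 := by positivity
  have hη1 : Cn * c1 ≤ 1 := by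
    have := mul_le_mul_of_nonneg_left hc1C hCn.le
    rwa [mul_one_div_cancel hCn.ne'] at this
  have hpt := PT d hd0 hd1 t y w1 wn hq hw4' (Cn * c1) hη0 hη1 _ _ _ _ _ _ _ _ _ _ hnear
    (hself _ hη0) (t2 - t1) fun i => y2 i - y1 i
  set N : ℝ := |t2 - t1| + ∑ k, |y2 k - y1 k| with hN
  have hNn : nn t1 y1 t2 y2 = N := rfl
  have hN0 : 0 ≤ N := nn_nonneg t1 y1 t2 y2
  have hfin := hKF (t2 - t1) (fun k => y2 k - y1 k)
    (fun i => (UU α d r w1' wn' w' t2 y2 i - UU α d r w1' wn' w' t1 y1 i + δ i) /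
      el α d r w1 wn t y i) ((Cp * Cn + 1) * c1) ?_ ?_
  · rw [hNn]
    refine hfin.trans (le_of_eq ?_)
    congr 2
    refine Finset.sum_congr rfl fun i _ => ?_
    rw [abs_div, abs_of_pos (hel i)]
  · have h1 : K * c1 ≤ 1 := by
      have := mul_le_mul_of_nonneg_left hc1K hK0.le
      rwa [mul_one_div_cancel hK0.ne'] at this
    have h2 : kc m Cs * (m * ((Cp * Cn + 1) * c1)) ≤
        kc m Cs * ((m + 1) * ((Cp * Cn + 1) * c1)) := by
      gcongr
      linarith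
    refine h2.trans ?_
    have h3 : kc m Cs * ((m + 1) * ((Cp * Cn + 1) * c1)) = K * c1 / 2 := by
      rw [hK]
      ring
    rw [h3]
    linarith
  · intro i
    have hi := hel i
    have h1 : (UU α d r w1' wn' w' t2 y2 i - UU α d r w1' wn' w' t1 y1 i + δ i) /
        el α d r w1 wn t y i - (a i / el α d r w1 wn t y i * (t2 - t1) +
          ∑ k, b i k / el α d r w1 wn t y i * (y2 k - y1 k)) =
        ((UU α d r w1' wn' w' t2 y2 i - UU α d r w1' wn' w' t1 y1 i -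
          (a i * (t2 - t1) + ∑ k, b i k * (y2 k - y1 k))) + δ i) / el α d r w1 wn t y i := by
      have h2 : ∑ k, b i k / el α d r w1 wn t y i * (y2 k - y1 k) =
          (∑ k, b i k * (y2 k - y1 k)) / el α d r w1 wn t y i := by
        rw [Finset.sum_div]
        exact Finset.sum_congr rfl fun k _ => by ring
      rw [h2]
      ring
    rw [h1, abs_div, abs_of_pos hi, div_le_iff₀ hi, ← hrow]
    rw [D1 h.α0 r t1 t2 y1 y2 (lt_of_lt_of_le hκ4 hR1.2.1) (lt_of_lt_of_le hκ4 hR2.2.1)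
      (lt_of_lt_of_le hκ4 hR1.2.2.2) (lt_of_lt_of_le hκ4 hR2.2.2.2)]
    refine (abs_add_le _ _).trans ?_
    have h3 := hpt i
    have h4 := hδ i
    rw [hNn] at h4
    calc _ ≤ Cp * (Cn * c1) * el α d r w1 wn t y i * N +
          c1 * el α d r w1 wn t y i * N := add_le_add h3 h4
      _ = _ := by ring

end Pool.Agent.LQN.NR
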