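import Pool.Agent.LQN.G2
import Pool.Agent.LQN.SVR
import Pool.Agent.LQN.KF
import Pool.Agent.LQN.AL

/-!
LQN row VOL, part 1: the inequality for the change of variables.
-/

set_option autoImplicit false

namespace Pool.Agent.LQN.Vo

open MeasureTheory Set
open scoped ENNReal

variable {m : ℕ}

theorem Rg_mono {κ κ' α d : ℝ} {r : Fin m → ℝ} {t : ℝ} {y : Fin m → ℝ} (hκ' : 0 < κ')
    (h : κ' ≤ κ) (hR : Rg κ α d r t y) : Rg κ' α d r t y := by
  have h1 : κ⁻¹ ≤ κ'⁻¹ := inv_anti₀ hκ' h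
  exact ⟨fun i => (hR.1 i).trans h1, h.trans hR.2.1, hR.2.2.1.trans h1, h.trans hR.2.2.2⟩

theorem Bx_mono {c c' t0 t : ℝ} {y0 y : Fin m → ℝ} (h : c ≤ c') (hB : Bx c t0 y0 t y) :
    Bx c' t0 y0 t y :=
  ⟨hB.1.trans h, fun i => (hB.2 i).trans (mul_le_mul_of_nonneg_right h (abs_nonneg _))⟩

theorem row_lin (α : ℝ) (r L y' yb : Fin m → ℝ) (a3 c3 Dt : ℝ) (D : Fin m → ℝ) (i : Fin m) :
    Row α r L y' yb a3 c3 Dt D i = Row α r L y' yb a3 c3 1 0 i * Dt +
      ∑ k, Row α r L y' yb a3 c3 0 (Pi.single k 1) i * D k := by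
  have hP : PP α r yb Dt D = PP α r yb 1 0 * Dt + ∑ k, PP α r yb 0 (Pi.single k 1) * D k := by
    unfold PP
    have e1 : ∀ k : Fin m, ∑ i, r i * yb i * (Pi.single k (1 : ℝ) : Fin m → ℝ) i = r k * yb k := by
      intro k
      rw [Finset.sum_eq_single k]
      · simp
      · intro j _ hj
        simp [hj]
      · simp
    simp only [e1, Pi.zero_apply, mul_zero, Finset.sum_const_zero, zero_div, zero_sub, sub_zero]
    rw [sub_eq_add_neg, ← Finset.sum_neg_distrib]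
    congr 1
    · ring
    · exact Finset.sum_congr rfl fun k _ => by ring
  have hS : SS α r yb Dt D = SS α r yb 1 0 * Dt + ∑ k, SS α r yb 0 (Pi.single k 1) * D k := by
    unfold SS
    have e1 : ∀ k : Fin m, ∑ i, (1 - r i) * yb i * (Pi.single k (1 : ℝ) : Fin m → ℝ) i =
        (1 - r k) * yb k := by
      intro k
      rw [Finset.sum_eq_single k]
      · simp
      · intro j _ hj
        simp [hj]
      · simp
    simp only [e1, Pi.zero_apply, mul_zero, Finset.sum_const_zero, zero_div, zero_add, add_zero]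
    congr 1
    · ring
  unfold Row
  rw [hP, hS]
  have e2 : ∑ k, L i * (Pi.single k (1 : ℝ) : Fin m → ℝ) i * D k = L i * D i := by
    rw [Finset.sum_eq_single i]
    · simp
    · intro j _ hj
      simp [Ne.symm hj]
    · simp
  have e3 : ∑ k, (L i * (Pi.single k (1 : ℝ) : Fin m → ℝ) i + y' i * (r i * a3 *
      PP α r yb 0 (Pi.single k 1) + (1 - r i) * c3 * SS α r yb 0 (Pi.single k 1))) * D k =
      ∑ k, L i * (Pi.single k (1 : ℝ) : Fin m → ℝ) i * D k +
      y' i * (r i * a3 * ∑ k, PP α r yb 0 (Pi.single k 1) * D k +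
        (1 - r i) * c3 * ∑ k, SS α r yb 0 (Pi.single k 1) * D k) := by
    rw [Finset.mul_sum, Finset.mul_sum, ← Finset.sum_add_distrib, Finset.mul_sum,
      ← Finset.sum_add_distrib]
    exact Finset.sum_congr rfl fun k _ => by ring
  rw [e3, e2, Pi.zero_apply]
  ring

theorem el_nonneg (α d : ℝ) (r : Fin m → ℝ) (w1 wn t : ℝ) (y : Fin m → ℝ) (i : Fin m) :
    0 ≤ el α d r w1 wn t y i := add_nonneg (abs_nonneg _) (abs_nonneg _)

theorem Near_self {η α d : ℝ} {r : Fin m → ℝ} {w1 wn t : ℝ} {y : Fin m → ℝ} (hη : 0 ≤ η) :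
    Near η α d r w1 wn t y (LL α d r w1 wn t y) y y (w1 / AA α r t y ^ 3)
      (d ^ 2 * wn / HH α d r t y ^ 3) := by
  refine ⟨fun i => ?_, fun i => ?_, fun i => ?_, ?_, ?_⟩
  · rw [sub_self, abs_zero]
    exact mul_nonneg hη (el_nonneg ..)
  · rw [sub_self, abs_zero]
    positivity
  · rw [sub_self, abs_zero]
    positivity
  · rw [sub_self, abs_zero]; exact hη
  · rw [sub_self, abs_zero]; exact hη

theorem Bx_abs {c0 t0 t : ℝ} {y0 y : Fin m → ℝ} (hB : Bx c0 t0 y0 t y) (i : Fin m) :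
    (1 - c0) * |y0 i| ≤ |y i| ∧ |y i| ≤ (1 + c0) * |y0 i| := by
  have h1 := hB.2 i
  have h2 : |y0 i| ≤ |y i| + |y i - y0 i| := by
    have := abs_sub_abs_le_abs_sub (y0 i) (y i)
    rw [abs_sub_comm] at this
    linarith
  have h3 : |y i| ≤ |y0 i| + |y i - y0 i| := by
    have := abs_sub_abs_le_abs_sub (y i) (y0 i)
    linarith
  exact ⟨by linarith, by linarith⟩

/-- **The inequality for (AL)**: the kernel functional `e` at `p = (t, y)` and `U i / ℓ i`
separate the points of the box at which `L` is close to its value at `p`. -/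
theorem ch_al {α : ℝ} {r : Fin m → ℝ} (h : Hyp α r) {κ : ℝ} (hκ : 0 < κ) (hκ1 : κ ≤ 1) :
    ∃ C c1 : ℝ, 0 < C ∧ 0 < c1 ∧ c1 ≤ 1 / 8 ∧ ∀ d, 0 ≤ d → d ≤ 1 →
      ∀ t0 y0, Rg κ α d r t0 y0 → (∀ i, y0 i ≠ 0) → ∀ t y, Bx c1 t0 y0 t y → ∀ w1 wn,
      κ ≤ |w1| + |wn| → |w1| + |wn| ≤ κ⁻¹ →
      ∃ (e0 : ℝ) (e : Fin m → ℝ), |e0| ≤ 1 ∧ (∀ k, |e k| ≤ 1) ∧
        ∀ t1 y1 t2 y2, Bx c1 t0 y0 t1 y1 → Bx c1 t0 y0 t2 y2 → ∀ w : Fin m → ℝ,
          (∀ i, |LL α d r w1 wn t1 y1 i - LL α d r w1 wn t y i| ≤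
            c1 * el α d r w1 wn t y i) →
          nn t1 y1 t2 y2 ≤ C * (∑ i, |(UU α d r w1 wn w t2 y2 i - UU α d r w1 wn w t1 y1 i) /
            el α d r w1 wn t y i| + |e0 * (t2 - t1) + ∑ k, e k * (y2 k - y1 k)|) := by
  have hκ4 : 0 < κ / 4 := by positivity
  have hκ41 : κ / 4 ≤ 1 := by linarith
  obtain ⟨b1, hb1, hb8, hbox⟩ := box_sub h hκ hκ1
  obtain ⟨Cs, cs, hCs, hcs, hsvr⟩ := svr h hκ4 hκ41
  obtain ⟨Cp, hCp, hpert⟩ := row_pert h hκ4 hκ41
  obtain ⟨Cn, cn, hCn, hcn, hnear⟩ := near_pts h hκ hκ1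
  have hK := kc_pos m hCs.le
  set K := kc m Cs with hKdef
  -- the size of the box
  obtain ⟨c1, hc1, h1, h2, h3, h4, h5⟩ : ∃ c1 : ℝ, 0 < c1 ∧ c1 ≤ b1 ∧ c1 ≤ cn ∧ c1 ≤ 1 / 8 ∧
      Cn * c1 ≤ 1 ∧ K * (m * (Cp * (Cn * c1))) ≤ 1 / 2 := by
    refine ⟨min (min b1 cn) (min (1 / 8) (min (1 / Cn) (1 / (2 * K * (m + 1) * Cp * Cn)))),
      by positivity, (min_le_left _ _).trans (min_le_left _ _),
      (min_le_left _ _).trans (min_le_right _ _), (min_le_right _ _).trans (min_le_left _ _),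
      ?_, ?_⟩
    · have : min (min b1 cn) (min (1 / 8) (min (1 / Cn) (1 / (2 * K * (m + 1) * Cp * Cn)))) ≤
          1 / Cn := (min_le_right _ _).trans ((min_le_right _ _).trans (min_le_left _ _))
      calc Cn * _ ≤ Cn * (1 / Cn) := mul_le_mul_of_nonneg_left this hCn.le
        _ = 1 := mul_one_div_cancel hCn.ne'
    · have h6 : min (min b1 cn) (min (1 / 8) (min (1 / Cn) (1 / (2 * K * (m + 1) * Cp * Cn)))) ≤
          1 / (2 * K * (m + 1) * Cp * Cn) :=
        (min_le_right _ _).trans ((min_le_right _ _).trans (min_le_right _ _))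
      calc K * (m * (Cp * (Cn * _))) ≤ K * ((m + 1) * (Cp * (Cn *
            (1 / (2 * K * (m + 1) * Cp * Cn))))) := by gcongr; linarith
        _ = 1 / 2 := by field_simp
  refine ⟨2 * K, c1, by positivity, hc1, h3, fun d hd0 hd1 t0 y0 hR hy0 t y hB w1 wn hw hw' => ?_⟩
  have hRp : Rg (κ / 4) α d r t y := hbox d hd0 hd1 t0 y0 t y hR (Bx_mono h1 hB)
  have hwκ : κ / 4 ≤ |w1| + |wn| := by linarith
  have hinv : κ⁻¹ ≤ (κ / 4)⁻¹ := inv_anti₀ hκ4 (by linarith)
  have hel : ∀ i, 0 < el α d r w1 wn t y i := fun i => by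
    have h6 := (Bx_abs hB i).1
    have h7 : 0 < |y0 i| := abs_pos.2 (hy0 i)
    have h8 : 0 < (1 - c1) * |y0 i| := mul_pos (by linarith) h7
    unfold el
    linarith [abs_nonneg (LL α d r w1 wn t y i)]
  set η : ℝ := Cn * c1 with hη
  have hη0 : 0 ≤ η := by positivity
  set L := LL α d r w1 wn t y with hL
  set A3 := w1 / AA α r t y ^ 3 with hA3
  set C3 := d ^ 2 * wn / HH α d r t y ^ 3 with hC3
  set l := el α d r w1 wn t y with hl
  have hbase := hsvr d hd0 hd1 t y w1 wn hRp hwκ (hw'.trans hinv) L y y A3 C3 (Near_self hcs.le)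
  obtain ⟨e0, e, he0, he, -, -, hmain⟩ := kf_robust
    (fun i => Row α r L y y A3 C3 1 0 i / l i)
    (fun i k => Row α r L y y A3 C3 0 (Pi.single k 1) i / l i) hCs.le (by
      intro v
      have h6 := hbase fun i => v i / l i
      have h7 : ∑ i, |v i / l i| * l i = ∑ i, |v i| := by
        refine Finset.sum_congr rfl fun i _ => ?_
        rw [abs_div, abs_of_pos (hel i), div_mul_cancel₀ _ (hel i).ne']
      rw [h7] at h6
      have h8 : ∑ i, v i * (Row α r L y y A3 C3 1 0 i / l i) =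
          Cot α r y A3 C3 fun i => v i / l i := by
        have := row_cot h.α0 r L y y A3 C3 1 0 fun i => v i / l i
        simp only [Pi.zero_apply, mul_zero, Finset.sum_const_zero, add_zero, mul_one] at this
        rw [← this]
        exact Finset.sum_congr rfl fun i _ => by ring
      have h9 : ∀ k, ∑ i, v i * (Row α r L y y A3 C3 0 (Pi.single k 1) i / l i) =
          Coy r L y y A3 C3 (fun i => v i / l i) k := by
        intro k
        have := row_cot h.α0 r L y y A3 C3 0 (Pi.single k 1) fun i => v i / l i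
        have h10 : ∑ k', Coy r L y y A3 C3 (fun i => v i / l i) k' *
            (Pi.single k (1 : ℝ) : Fin m → ℝ) k' = Coy r L y y A3 C3 (fun i => v i / l i) k := by
          rw [Finset.sum_eq_single k]
          · simp
          · intro j _ hj
            simp [hj]
          · simp
        rw [mul_zero, zero_add, h10] at this
        rw [← this]
        exact Finset.sum_congr rfl fun i _ => by ring
      rw [h8]
      simp only [h9]
      exact h6)
  refine ⟨e0, e, he0, he, fun t1 y1 t2 y2 hB1 hB2 w hLL => ?_⟩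
  have hR1 : Rg (κ / 4) α d r t1 y1 := hbox d hd0 hd1 t0 y0 t1 y1 hR (Bx_mono h1 hB1)
  have hR2 : Rg (κ / 4) α d r t2 y2 := hbox d hd0 hd1 t0 y0 t2 y2 hR (Bx_mono h1 hB2)
  have hN := hnear c1 hc1 h2 d hd0 hd1 t0 y0 hR t y t1 y1 t2 y2 hB hB1 hB2 w1 wn w1 wn hw'
    (by rw [sub_self, abs_zero]; exact hc1.le) (by rw [sub_self, abs_zero]; exact hc1.le)
    (LL α d r w1 wn t1 y1) hLL
  have hD := fun i => D1 (d := d) h.α0 r t1 t2 y1 y2 (by linarith [hR1.2.1]) (by linarith [hR2.2.1])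
    (by linarith [hR1.2.2.2]) (by linarith [hR2.2.2.2]) w1 wn w i
  have hfin := hmain (t2 - t1) (fun k => y2 k - y1 k)
    (fun i => (UU α d r w1 wn w t2 y2 i - UU α d r w1 wn w t1 y1 i) / l i) (Cp * η) h5 (by
      intro i
      have h6 := hpert d hd0 hd1 t y w1 wn hRp (hw'.trans hinv) η hη0 h4 _ _ _ _ _ _ _ _ _ _ hN
        (Near_self hη0) (t2 - t1) (fun k => y2 k - y1 k) i
      have h7 : Row α r L y y A3 C3 1 0 i / l i * (t2 - t1) +
          ∑ k, Row α r L y y A3 C3 0 (Pi.single k 1) i / l i * (y2 k - y1 k) =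
          Row α r L y y A3 C3 (t2 - t1) (fun k => y2 k - y1 k) i / l i := by
        rw [row_lin α r L y y A3 C3 (t2 - t1), add_div, Finset.sum_div]
        congr 1
        · ring
        · exact Finset.sum_congr rfl fun k _ => by ring
      rw [h7, ← sub_div, abs_div, abs_of_pos (hel i), div_le_iff₀ (hel i), hD i]
      refine h6.trans (le_of_eq ?_)
      ring)
  exact hfin

end Pool.Agent.LQN.Vo
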