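import Pool.Agent.LQN.VOL1

/-!
LQN row VOL, part 2: bounds, pieces.
-/

set_option autoImplicit false

namespace Pool.Agent.LQN.Vo

open MeasureTheory Set
open scoped ENNReal

variable {m : ℕ}

theorem exists_pos_le {ι : Type*} [Finite ι] (f : ι → ℝ) (hf : ∀ i, 0 < f i) :
    ∃ δ : ℝ, 0 < δ ∧ ∀ i, δ ≤ f i := by
  cases isEmpty_or_nonempty ι
  · exact ⟨1, one_pos, isEmptyElim⟩
  · obtain ⟨i, hi⟩ := Finite.exists_min f
    exact ⟨f i, hf i, hi⟩

theorem Rg_A {κ α d : ℝ} {r : Fin m → ℝ} {t : ℝ} {y : Fin m → ℝ} (hκ : 0 < κ) (hκ1 : κ ≤ 1)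
    (h : Rg κ α d r t y) : κ ≤ AA α r t y ∧ AA α r t y ≤ κ⁻¹ := by
  have h0 : 0 ≤ rr α r t y := hκ.le.trans h.2.1
  have h1 : AA α r t y ^ 2 = rr α r t y := Real.sq_sqrt h0
  have h2 : 0 ≤ AA α r t y := Real.sqrt_nonneg _
  have h3 : 1 ≤ κ⁻¹ := (one_le_inv₀ hκ).2 hκ1
  constructor
  · refine le_of_sq_le_sq ?_ h2
    rw [h1]
    nlinarith [h.2.1]
  · refine le_of_sq_le_sq ?_ (by linarith)
    rw [h1]
    nlinarith [h.2.2.1]

theorem ss_eq (α : ℝ) (r : Fin m → ℝ) (t : ℝ) (y : Fin m → ℝ) :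
    ss α r t y = rr α r t y + ∑ i, y i ^ 2 := by
  unfold ss rr
  have : ∑ i, (1 - r i) * y i ^ 2 = ∑ i, y i ^ 2 - ∑ i, r i * y i ^ 2 := by
    rw [← Finset.sum_sub_distrib]
    exact Finset.sum_congr rfl fun i _ => by ring
  rw [this]
  ring

theorem Rg_H {κ α d : ℝ} {r : Fin m → ℝ} {t : ℝ} {y : Fin m → ℝ} (hκ : 0 < κ) (hκ1 : κ ≤ 1)
    (h : Rg κ α d r t y) : κ ≤ HH α d r t y ∧ HH α d r t y ≤ 1 := by
  have h0 : 0 ≤ 1 - d ^ 2 * ss α r t y := hκ.le.trans h.2.2.2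
  have h1 : HH α d r t y ^ 2 = 1 - d ^ 2 * ss α r t y := Real.sq_sqrt h0
  have h2 : 0 ≤ HH α d r t y := Real.sqrt_nonneg _
  constructor
  · refine le_of_sq_le_sq ?_ h2
    rw [h1]
    nlinarith [h.2.2.2]
  · refine le_of_sq_le_sq ?_ (by norm_num)
    rw [h1]
    have h4 : 0 ≤ ss α r t y := by
      rw [ss_eq]
      have := h.2.1
      have h5 : 0 ≤ ∑ i, y i ^ 2 := Finset.sum_nonneg fun i _ => sq_nonneg _
      linarith
    have h5 : 0 ≤ d ^ 2 * ss α r t y := by positivity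
    linarith

/-- At most one `L i` is small. -/
theorem LL_pair {α : ℝ} {r : Fin m → ℝ} (h : Hyp α r) {κ : ℝ} (hκ : 0 < κ) (hκ1 : κ ≤ 1) :
    ∃ C : ℝ, 0 < C ∧ ∀ d, ∀ t y, Rg κ α d r t y → ∀ w1 wn, ∀ i k, i ≠ k →
      |w1| + |wn| ≤ C * (|LL α d r w1 wn t y i| + |LL α d r w1 wn t y k|) := by
  obtain ⟨δ, hδ, hδ'⟩ := exists_pos_le (fun q : {q : Fin m × Fin m // q.1 ≠ q.2} =>
    |r q.1.1 - r q.1.2|) (fun q => abs_pos.2 (sub_ne_zero.2 fun h0 => q.2 (h.inj h0)))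
  set B : ℝ := ∑ i, |r i| with hB
  have hB0 : 0 ≤ B := Finset.sum_nonneg fun _ _ => abs_nonneg _
  have hr : ∀ i, |r i| ≤ B := fun i =>
    Finset.single_le_sum (f := fun i => |r i|) (fun _ _ => abs_nonneg _) (Finset.mem_univ i)
  have hκi : 1 ≤ κ⁻¹ := (one_le_inv₀ hκ).2 hκ1
  refine ⟨κ⁻¹ * (2 + (1 + 2 * B) / δ), by positivity, fun d t y hR w1 wn i k hik => ?_⟩
  obtain ⟨hA1, hA2⟩ := Rg_A hκ hκ1 hR
  obtain ⟨hH1, hH2⟩ := Rg_H hκ hκ1 hR
  set A := AA α r t y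
  set H := HH α d r t y
  have hA0 : 0 < A := by linarith
  have hH0 : 0 < H := by linarith
  set a := w1 / A with ha
  set c := wn / H with hc
  have hLi : LL α d r w1 wn t y i = (1 - r i) * c - r i * a := rfl
  have hLk : LL α d r w1 wn t y k = (1 - r k) * c - r k * a := rfl
  set Li := LL α d r w1 wn t y i
  set Lk := LL α d r w1 wn t y k
  have h1 : δ * |a + c| ≤ |Li| + |Lk| := by
    have h2 : (r i - r k) * (a + c) = Lk - Li := by rw [hLi, hLk]; ring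
    have h3 : |r i - r k| * |a + c| ≤ |Li| + |Lk| := by
      rw [← abs_mul, h2]
      exact (abs_sub _ _).trans (le_of_eq (add_comm _ _))
    exact (mul_le_mul_of_nonneg_right (hδ' ⟨(i, k), hik⟩) (abs_nonneg _)).trans h3
  have h2 : |a + c| ≤ (|Li| + |Lk|) / δ := by
    rw [le_div_iff₀ hδ]; linarith
  have h3 : |c| ≤ |Li| + B * |a + c| := by
    have h4 : c = Li + r i * (a + c) := by rw [hLi]; ring
    calc |c| = |Li + r i * (a + c)| := by rw [← h4]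
      _ ≤ |Li| + |r i| * |a + c| := by
          refine (abs_add_le _ _).trans (le_of_eq ?_)
          rw [abs_mul]
      _ ≤ _ := by
          have := mul_le_mul_of_nonneg_right (hr i) (abs_nonneg (a + c))
          linarith
  have h4 : |a| ≤ |a + c| + |c| := by
    have h5 : a = (a + c) - c := by ring
    calc |a| = |(a + c) - c| := by rw [← h5]
      _ ≤ _ := abs_sub _ _
  have h5 : |a| + |c| ≤ (2 + (1 + 2 * B) / δ) * (|Li| + |Lk|) := by
    have h6 : (1 + 2 * B) * |a + c| ≤ (1 + 2 * B) * ((|Li| + |Lk|) / δ) :=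
      mul_le_mul_of_nonneg_left h2 (by positivity)
    have h7 : (2 + (1 + 2 * B) / δ) * (|Li| + |Lk|) =
        2 * (|Li| + |Lk|) + (1 + 2 * B) * ((|Li| + |Lk|) / δ) := by ring
    rw [h7]
    linarith [abs_nonneg Lk, abs_nonneg (a + c)]
  have h6 : |w1| = |a| * A := by
    rw [ha, abs_div, abs_of_pos hA0, div_mul_cancel₀ _ hA0.ne']
  have h7 : |wn| = |c| * H := by
    rw [hc, abs_div, abs_of_pos hH0, div_mul_cancel₀ _ hH0.ne']
  calc |w1| + |wn| = |a| * A + |c| * H := by rw [h6, h7]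
    _ ≤ |a| * κ⁻¹ + |c| * κ⁻¹ := by
        have := mul_le_mul_of_nonneg_left hA2 (abs_nonneg a)
        have := mul_le_mul_of_nonneg_left (hH2.trans hκi) (abs_nonneg c)
        linarith
    _ = κ⁻¹ * (|a| + |c|) := by ring
    _ ≤ κ⁻¹ * ((2 + (1 + 2 * B) / δ) * (|Li| + |Lk|)) :=
        mul_le_mul_of_nonneg_left h5 (by positivity)
    _ = _ := by ring

theorem PP_le {α : ℝ} {r yb : Fin m → ℝ} {B K : ℝ} (hB : ∀ i, |r i| ≤ B)
    (hK : ∀ i, |yb i| ≤ K) (hB0 : 0 ≤ B) (hK0 : 0 ≤ K) (Dt : ℝ) (D : Fin m → ℝ) :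
    |PP α r yb Dt D| ≤ (1 / (2 * |α|) + B * K) * (|Dt| + ∑ i, |D i|) := by
  unfold PP
  have h0 : 0 ≤ ∑ i, |D i| := Finset.sum_nonneg fun _ _ => abs_nonneg _
  have h1 : |Dt / (2 * α)| = 1 / (2 * |α|) * |Dt| := by
    rw [abs_div, abs_mul, abs_two]
    ring
  have h2 : |∑ i, r i * yb i * D i| ≤ B * K * ∑ i, |D i| := by
    rw [Finset.mul_sum]
    refine (Finset.abs_sum_le_sum_abs _ _).trans (Finset.sum_le_sum fun i _ => ?_)
    rw [abs_mul, abs_mul]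
    exact mul_le_mul_of_nonneg_right (mul_le_mul (hB i) (hK i) (abs_nonneg _) hB0) (abs_nonneg _)
  have h3 : 0 ≤ 1 / (2 * |α|) := by positivity
  have h4 : 0 ≤ B * K := by positivity
  refine (abs_sub _ _).trans ?_
  rw [h1]
  nlinarith [mul_nonneg h3 h0, mul_nonneg h4 (abs_nonneg Dt)]

theorem SS_le {α : ℝ} {r yb : Fin m → ℝ} {B K : ℝ} (hB : ∀ i, |1 - r i| ≤ B)
    (hK : ∀ i, |yb i| ≤ K) (hB0 : 0 ≤ B) (hK0 : 0 ≤ K) (Dt : ℝ) (D : Fin m → ℝ) :
    |SS α r yb Dt D| ≤ (1 / (2 * |α|) + B * K) * (|Dt| + ∑ i, |D i|) := by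
  unfold SS
  have h0 : 0 ≤ ∑ i, |D i| := Finset.sum_nonneg fun _ _ => abs_nonneg _
  have h1 : |Dt / (2 * α)| = 1 / (2 * |α|) * |Dt| := by
    rw [abs_div, abs_mul, abs_two]
    ring
  have h2 : |∑ i, (1 - r i) * yb i * D i| ≤ B * K * ∑ i, |D i| := by
    rw [Finset.mul_sum]
    refine (Finset.abs_sum_le_sum_abs _ _).trans (Finset.sum_le_sum fun i _ => ?_)
    rw [abs_mul, abs_mul]
    exact mul_le_mul_of_nonneg_right (mul_le_mul (hB i) (hK i) (abs_nonneg _) hB0) (abs_nonneg _)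
  have h3 : 0 ≤ 1 / (2 * |α|) := by positivity
  have h4 : 0 ≤ B * K := by positivity
  refine (abs_add_le _ _).trans ?_
  rw [h1]
  nlinarith [mul_nonneg h3 h0, mul_nonneg h4 (abs_nonneg Dt)]

/-- Lipschitz bound of `L`. -/
theorem LL_lip {α : ℝ} {r : Fin m → ℝ} (h : Hyp α r) {κ : ℝ} (hκ : 0 < κ) (hκ1 : κ ≤ 1) :
    ∃ C : ℝ, 0 < C ∧ ∀ d, 0 ≤ d → d ≤ 1 → ∀ t y t' y', Rg κ α d r t y → Rg κ α d r t' y' →
      ∀ w1 wn i, |LL α d r w1 wn t' y' i - LL α d r w1 wn t y i| ≤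
        C * (|w1| + |wn|) * nn t y t' y' := by
  set B : ℝ := ∑ i, (|r i| + |1 - r i|) with hB
  have hB0 : 0 ≤ B := Finset.sum_nonneg fun _ _ => by positivity
  have hr : ∀ i, |r i| ≤ B := fun i => by
    have := Finset.single_le_sum (f := fun i => |r i| + |1 - r i|) (fun _ _ => by positivity)
      (Finset.mem_univ i)
    linarith [abs_nonneg (1 - r i)]
  have hr1 : ∀ i, |1 - r i| ≤ B := fun i => by
    have := Finset.single_le_sum (f := fun i => |r i| + |1 - r i|) (fun _ _ => by positivity)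
      (Finset.mem_univ i)
    linarith [abs_nonneg (r i)]
  have hκi : 0 < κ⁻¹ := by positivity
  set G : ℝ := 1 / (2 * |α|) + B * κ⁻¹ with hG
  have hG0 : 0 ≤ G := by positivity
  refine ⟨1 + B * (κ⁻¹ ^ 3 * G), by positivity, fun d hd0 hd1 t y t' y' hR hR' w1 wn i => ?_⟩
  obtain ⟨hA1, hA2⟩ := Rg_A hκ hκ1 hR
  obtain ⟨hH1, hH2⟩ := Rg_H hκ hκ1 hR
  obtain ⟨hA1', hA2'⟩ := Rg_A hκ hκ1 hR'
  obtain ⟨hH1', hH2'⟩ := Rg_H hκ hκ1 hR'
  have e1 := inv_A_diff h.α0 r t t' y y' (hκ.trans_le hR.2.1) (hκ.trans_le hR'.2.1) w1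
  have e2 := inv_H_diff (d := d) h.α0 r t t' y y' (hκ.trans_le hR.2.2.2)
    (hκ.trans_le hR'.2.2.2) wn
  have hyb : ∀ k, |(y k + y' k) / 2| ≤ κ⁻¹ := fun k => by
    rw [abs_div, abs_two, div_le_iff₀ (by norm_num)]
    refine (abs_add_le _ _).trans ?_
    linarith [hR.1 k, hR'.1 k]
  have hP := PP_le (α := α) (yb := fun i => (y i + y' i) / 2) hr hyb hB0 hκi.le (t' - t)
    (fun i => y' i - y i)
  have hS := SS_le (α := α) (yb := fun i => (y i + y' i) / 2) hr1 hyb hB0 hκi.le (t' - t)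
    (fun i => y' i - y i)
  set P := PP α r (fun i => (y i + y' i) / 2) (t' - t) fun i => y' i - y i
  set S := SS α r (fun i => (y i + y' i) / 2) (t' - t) fun i => y' i - y i
  have hnn : nn t y t' y' = |t' - t| + ∑ i, |y' i - y i| := rfl
  rw [← hnn] at hP hS
  set N := nn t y t' y' with hN
  have hN0 : 0 ≤ N := by
    rw [hnn]; exact add_nonneg (abs_nonneg _) (Finset.sum_nonneg fun _ _ => abs_nonneg _)
  have inv3 : ∀ A A' : ℝ, κ ≤ A → κ ≤ A' → 2 / (A * A' * (A + A')) ≤ κ⁻¹ ^ 3 := by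
    intro A A' h1 h2
    have hA : 0 < A := by linarith
    have hA' : 0 < A' := by linarith
    rw [div_le_iff₀ (by positivity), inv_pow, inv_mul_eq_div, le_div_iff₀ (by positivity)]
    have h3 : κ ^ 2 ≤ A * A' := by nlinarith
    have h4 : 2 * κ ≤ A + A' := by linarith
    calc 2 * κ ^ 3 = κ ^ 2 * (2 * κ) := by ring
      _ ≤ (A * A') * (A + A') := mul_le_mul h3 h4 (by positivity) (by positivity)
  have b1 : |w1 / AA α r t' y' - w1 / AA α r t y| ≤ κ⁻¹ ^ 3 * G * |w1| * N := by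
    rw [e1, abs_neg, abs_mul]
    have h1 : |2 * w1 / (AA α r t y * AA α r t' y' * (AA α r t y + AA α r t' y'))| ≤
        κ⁻¹ ^ 3 * |w1| := by
      have hp : 0 < AA α r t y * AA α r t' y' * (AA α r t y + AA α r t' y') := by
        have : 0 < AA α r t y := by linarith
        have : 0 < AA α r t' y' := by linarith
        positivity
      rw [abs_div, abs_of_pos hp, abs_mul, abs_two]
      calc 2 * |w1| / (AA α r t y * AA α r t' y' * (AA α r t y + AA α r t' y')) =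
            2 / (AA α r t y * AA α r t' y' * (AA α r t y + AA α r t' y')) * |w1| := by ring
        _ ≤ _ := mul_le_mul_of_nonneg_right (inv3 _ _ hA1 hA1') (abs_nonneg _)
    calc _ ≤ (κ⁻¹ ^ 3 * |w1|) * (G * N) := mul_le_mul h1 hP (abs_nonneg _) (by positivity)
      _ = _ := by ring
  have b2 : |wn / HH α d r t' y' - wn / HH α d r t y| ≤ κ⁻¹ ^ 3 * G * |wn| * N := by
    rw [e2, abs_mul]
    have hd2 : d ^ 2 ≤ 1 := pow_le_one₀ hd0 hd1
    have h1 : |2 * d ^ 2 * wn / (HH α d r t y * HH α d r t' y' *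
        (HH α d r t y + HH α d r t' y'))| ≤ κ⁻¹ ^ 3 * |wn| := by
      have hp : 0 < HH α d r t y * HH α d r t' y' * (HH α d r t y + HH α d r t' y') := by
        have : 0 < HH α d r t y := by linarith
        have : 0 < HH α d r t' y' := by linarith
        positivity
      rw [abs_div, abs_of_pos hp, abs_mul, abs_mul, abs_two, abs_of_nonneg (sq_nonneg d)]
      calc 2 * d ^ 2 * |wn| / (HH α d r t y * HH α d r t' y' *
            (HH α d r t y + HH α d r t' y')) =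
            d ^ 2 * (2 / (HH α d r t y * HH α d r t' y' *
              (HH α d r t y + HH α d r t' y')) * |wn|) := by ring
        _ ≤ 1 * (κ⁻¹ ^ 3 * |wn|) := mul_le_mul hd2
            (mul_le_mul_of_nonneg_right (inv3 _ _ hH1 hH1') (abs_nonneg _)) (by positivity)
            (by norm_num)
        _ = _ := one_mul _
    calc _ ≤ (κ⁻¹ ^ 3 * |wn|) * (G * N) := mul_le_mul h1 hS (abs_nonneg _) (by positivity)
      _ = _ := by ring
  have e3 : LL α d r w1 wn t' y' i - LL α d r w1 wn t y i =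
      (1 - r i) * (wn / HH α d r t' y' - wn / HH α d r t y) -
        r i * (w1 / AA α r t' y' - w1 / AA α r t y) := by
    unfold LL; ring
  rw [e3]
  refine (abs_sub _ _).trans ?_
  rw [abs_mul, abs_mul]
  have h1 := mul_le_mul (hr1 i) b2 (abs_nonneg _) hB0
  have h2 := mul_le_mul (hr i) b1 (abs_nonneg _) hB0
  have h3 : 0 ≤ (|w1| + |wn|) * N := by positivity
  calc _ ≤ B * (κ⁻¹ ^ 3 * G * |wn| * N) + B * (κ⁻¹ ^ 3 * G * |w1| * N) := add_le_add h1 h2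
    _ = B * (κ⁻¹ ^ 3 * G) * (|w1| + |wn|) * N := by ring
    _ ≤ (1 + B * (κ⁻¹ ^ 3 * G)) * (|w1| + |wn|) * N := by nlinarith

theorem nn_Bx {c t0 : ℝ} {y0 : Fin m → ℝ} {K : ℝ} (hK : ∀ i, |y0 i| ≤ K)
    {t t' : ℝ} {y y' : Fin m → ℝ} (hc : 0 ≤ c) (h : Bx c t0 y0 t y) (h' : Bx c t0 y0 t' y') :
    nn t y t' y' ≤ 2 * c * (1 + m * K) := by
  unfold nn
  have h1 : |t' - t| ≤ 2 * c := by
    have e : t' - t = (t' - t0) - (t - t0) := by ring
    rw [e]
    exact (abs_sub _ _).trans (by linarith [h.1, h'.1])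
  have h2 : ∑ i, |y' i - y i| ≤ ∑ _i : Fin m, 2 * c * K := by
    refine Finset.sum_le_sum fun i _ => ?_
    have e : y' i - y i = (y' i - y0 i) - (y i - y0 i) := by ring
    rw [e]
    have h3 : c * |y0 i| ≤ c * K := mul_le_mul_of_nonneg_left (hK i) hc
    exact (abs_sub _ _).trans (by linarith [h.2 i, h'.2 i])
  rw [Finset.sum_const, Finset.card_univ, Fintype.card_fin, nsmul_eq_mul] at h2
  nlinarith

/-! ### The pieces -/

/-- The pieces of the line. -/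
def pc (ν δ σ : ℝ) (n : ℕ) : Set ℝ :=
  {x | 0 ≤ σ * x ∧ ν * Real.exp (n * δ) ≤ ν + σ * x ∧ ν + σ * x < ν * Real.exp ((n + 1) * δ)}

theorem pc_cover {ν δ : ℝ} (hν : 0 < ν) (hδ : 0 < δ) (x : ℝ) :
    ∃ b : Bool, ∃ n : ℕ, x ∈ pc ν δ (if b then 1 else -1) n := by
  obtain ⟨b, hb⟩ : ∃ b : Bool, (if b then (1 : ℝ) else -1) * x = |x| := by
    rcases le_total 0 x with h | h
    · exact ⟨true, by rw [abs_of_nonneg h]; simp⟩
    · exact ⟨false, by rw [abs_of_nonpos h]; simp⟩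
  set q : ℝ := Real.log ((ν + |x|) / ν) / δ with hq
  have h1 : 1 ≤ (ν + |x|) / ν := by
    rw [le_div_iff₀ hν]; linarith [abs_nonneg x]
  have hq0 : 0 ≤ q := div_nonneg (Real.log_nonneg h1) hδ.le
  refine ⟨b, ⌊q⌋₊, ?_, ?_, ?_⟩
  · rw [hb]; exact abs_nonneg x
  · rw [hb]
    have h2 : (⌊q⌋₊ : ℝ) * δ ≤ Real.log ((ν + |x|) / ν) := by
      have := Nat.floor_le hq0
      rw [hq] at this
      rwa [le_div_iff₀ hδ] at this
    have h3 := (Real.le_log_iff_exp_le (by linarith)).1 h2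
    rw [le_div_iff₀ hν] at h3
    linarith
  · rw [hb]
    have h2 : Real.log ((ν + |x|) / ν) < ((⌊q⌋₊ : ℝ) + 1) * δ := by
      have := Nat.lt_floor_add_one q
      conv_lhs at this => rw [hq]
      rwa [div_lt_iff₀ hδ] at this
    have h3 := (Real.log_lt_iff_lt_exp (by linarith)).1 h2
    rw [div_lt_iff₀ hν] at h3
    linarith

theorem pc_diff {ν δ σ : ℝ} (hν : 0 < ν) (hδ : 0 < δ) (hδ1 : δ ≤ 1) (hσ : |σ| = 1) {n : ℕ}
    {x x' : ℝ} (hx : x ∈ pc ν δ σ n) (hx' : x' ∈ pc ν δ σ n) :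
    |x - x'| ≤ 2 * δ * (ν * Real.exp (n * δ)) ∧ ν * Real.exp (n * δ) ≤ ν + |x| := by
  obtain ⟨h0, h1, h2⟩ := hx
  obtain ⟨h0', h1', h2'⟩ := hx'
  have e1 : σ * x = |x| := by
    rw [← abs_of_nonneg h0, abs_mul, hσ, one_mul]
  have e2 : σ * x' = |x'| := by
    rw [← abs_of_nonneg h0', abs_mul, hσ, one_mul]
  have h3 : |x - x'| = |σ * x - σ * x'| := by
    rw [← mul_sub, abs_mul, hσ, one_mul]
  have h4 : Real.exp ((n + 1) * δ) = Real.exp (n * δ) * Real.exp δ := by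
    rw [← Real.exp_add]; ring_nf
  have h5 : Real.exp δ ≤ 1 + 2 * δ := by
    have := Real.abs_exp_sub_one_le (x := δ) (by rw [abs_of_pos hδ]; exact hδ1)
    rw [abs_of_pos hδ] at this
    linarith [(abs_le.1 this).2]
  set q := ν * Real.exp (n * δ) with hq
  have hq0 : 0 < q := by positivity
  have h6 : ν * Real.exp ((n + 1) * δ) ≤ q * (1 + 2 * δ) := by
    rw [h4, ← mul_assoc]
    exact mul_le_mul_of_nonneg_left h5 hq0.le
  refine ⟨?_, by rw [← e1]; exact h1⟩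
  rw [h3]
  refine abs_le.2 ⟨?_, ?_⟩ <;> nlinarith

end Pool.Agent.LQN.Vo
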