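import Pool.Agent.LQN.VOL2

/-!
LQN row VOL, part 3: the volume of one piece.
-/

set_option autoImplicit false

namespace Pool.Agent.LQN.Vo

open MeasureTheory Set
open scoped ENNReal

variable {m : ℕ}

theorem vol_box (a b : ℝ) (u v : Fin m → ℝ) (hab : a ≤ b) (huv : ∀ i, u i ≤ v i) :
    volume (Icc a b ×ˢ Icc u v : Set (ℝ × (Fin m → ℝ))) =
      ENNReal.ofReal ((b - a) * ∏ i, (v i - u i)) := by
  rw [Measure.volume_eq_prod, Measure.prod_prod, Real.volume_Icc, Real.volume_Icc_pi,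
    ← ENNReal.ofReal_prod_of_nonneg (fun i _ => sub_nonneg.2 (huv i)),
    ← ENNReal.ofReal_mul (sub_nonneg.2 hab)]

theorem meas_rr (α : ℝ) (r : Fin m → ℝ) :
    Measurable fun q : ℝ × (Fin m → ℝ) => rr α r q.1 q.2 := by
  unfold rr
  fun_prop

theorem meas_ss (α : ℝ) (r : Fin m → ℝ) :
    Measurable fun q : ℝ × (Fin m → ℝ) => ss α r q.1 q.2 := by
  unfold ss
  fun_prop

theorem meas_AA (α : ℝ) (r : Fin m → ℝ) :
    Measurable fun q : ℝ × (Fin m → ℝ) => AA α r q.1 q.2 :=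
  Real.continuous_sqrt.measurable.comp (meas_rr α r)

theorem meas_HH (α d : ℝ) (r : Fin m → ℝ) :
    Measurable fun q : ℝ × (Fin m → ℝ) => HH α d r q.1 q.2 := by
  have := meas_ss α r
  exact Real.continuous_sqrt.measurable.comp (by fun_prop)

theorem meas_LL (α d : ℝ) (r : Fin m → ℝ) (w1 wn : ℝ) (i : Fin m) :
    Measurable fun q : ℝ × (Fin m → ℝ) => LL α d r w1 wn q.1 q.2 i := by
  have h1 := meas_AA α r
  have h2 := meas_HH α d r
  unfold LL
  fun_prop

theorem meas_UU (α d : ℝ) (r : Fin m → ℝ) (w1 wn : ℝ) (w : Fin m → ℝ) (i : Fin m) :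
    Measurable fun q : ℝ × (Fin m → ℝ) => UU α d r w1 wn w q.1 q.2 i := by
  have h1 := meas_LL α d r w1 wn i
  unfold UU
  fun_prop

theorem meas_nn (t : ℝ) (y : Fin m → ℝ) :
    Measurable fun q : ℝ × (Fin m → ℝ) => nn t y q.1 q.2 := by
  unfold nn
  fun_prop

theorem meas_Bx (c0 t0 : ℝ) (y0 : Fin m → ℝ) :
    MeasurableSet {q : ℝ × (Fin m → ℝ) | Bx c0 t0 y0 q.1 q.2} := by
  have h1 : {q : ℝ × (Fin m → ℝ) | Bx c0 t0 y0 q.1 q.2} =
      {q | |q.1 - t0| ≤ c0} ∩ ⋂ i, {q | |q.2 i - y0 i| ≤ c0 * |y0 i|} := by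
    ext q
    simp only [Bx, mem_ofPred_eq, mem_inter_iff, mem_iInter]
  rw [h1]
  refine MeasurableSet.inter (measurableSet_le (by fun_prop) measurable_const)
    (MeasurableSet.iInter fun i => measurableSet_le (by fun_prop) measurable_const)

theorem meas_pc (ν δ σ : ℝ) (n : ℕ) : MeasurableSet (pc ν δ σ n) := by
  have h1 : pc ν δ σ n = {x | 0 ≤ σ * x} ∩ ({x | ν * Real.exp (n * δ) ≤ ν + σ * x} ∩
      {x | ν + σ * x < ν * Real.exp ((n + 1) * δ)}) := rfl
  rw [h1]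
  exact (measurableSet_le measurable_const (by fun_prop)).inter
    ((measurableSet_le measurable_const (by fun_prop)).inter
      (measurableSet_lt (by fun_prop) measurable_const))

theorem abs_le_nn1 (t t' : ℝ) (y y' : Fin m → ℝ) : |t' - t| ≤ nn t y t' y' := by
  unfold nn
  have : 0 ≤ ∑ i, |y' i - y i| := Finset.sum_nonneg fun _ _ => abs_nonneg _
  linarith

theorem abs_le_nn2 (t t' : ℝ) (y y' : Fin m → ℝ) (i : Fin m) : |y' i - y i| ≤ nn t y t' y' := by
  unfold nn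
  have := Finset.single_le_sum (f := fun i => |y' i - y i|) (fun _ _ => abs_nonneg _)
    (Finset.mem_univ i)
  have h1 := abs_nonneg (t' - t)
  linarith

theorem vol_al {T : Set (ℝ × (Fin m → ℝ))} (hT : MeasurableSet T)
    {U : ℝ × (Fin m → ℝ) → Fin m → ℝ} (hU : Measurable U) {l : Fin m → ℝ} (hl : ∀ i, 0 < l i)
    {C ρ ε : ℝ} (hC : 0 < C) (hρ : 0 < ρ) (hε : 0 < ε) {e0 : ℝ} {e : Fin m → ℝ}
    (he0 : |e0| ≤ 1) (he : ∀ k, |e k| ≤ 1) {t : ℝ} {y : Fin m → ℝ}
    (h1 : ∀ q ∈ T, nn t y q.1 q.2 ≤ ρ) (h2 : ∀ q ∈ T, ∀ i, |U q i| ≤ ε)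
    (h3 : ∀ p ∈ T, ∀ q ∈ T, nn p.1 p.2 q.1 q.2 ≤ C * (∑ i, |(U q i - U p i) / l i| +
      |e0 * (q.1 - p.1) + ∑ k, e k * (q.2 k - p.2 k)|)) :
    volume T ≤ ENNReal.ofReal ((C * (m + 1)) ^ (m + 1) * (2 * ρ * ∏ i, (2 * (ε / l i)))) := by
  set Φ : ℝ × (Fin m → ℝ) → ℝ × (Fin m → ℝ) := fun q =>
    (e0 * q.1 + ∑ k, e k * q.2 k, fun i => U q i / l i) with hΦ
  have hΦm : Measurable Φ := by
    refine Measurable.prodMk (by fun_prop) (measurable_pi_lambda _ fun i => ?_)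
    exact ((measurable_pi_apply i).comp hU).div_const _
  set s0 : ℝ := e0 * t + ∑ k, e k * y k with hs0
  set B : Set (ℝ × (Fin m → ℝ)) := Icc (s0 - ρ) (s0 + ρ) ×ˢ
    Icc (fun i => -(ε / l i)) (fun i => ε / l i) with hB
  have hBm : MeasurableSet B := measurableSet_Icc.prod measurableSet_Icc
  have hBv : volume B = ENNReal.ofReal (2 * ρ * ∏ i, (2 * (ε / l i))) := by
    rw [hB, vol_box _ _ _ _ (by linarith) (fun i => by
      have := div_pos hε (hl i)
      linarith)]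
    congr 1
    have e1 : s0 + ρ - (s0 - ρ) = 2 * ρ := by ring
    rw [e1]
    congr 1
    exact Finset.prod_congr rfl fun i _ => by ring
  have hTB : ∀ q ∈ T, Φ q ∈ B := by
    intro q hq
    have h4 : |e0 * q.1 + ∑ k, e k * q.2 k - s0| ≤ ρ := by
      have h5 : e0 * q.1 + ∑ k, e k * q.2 k - s0 =
          e0 * (q.1 - t) + ∑ k, e k * (q.2 k - y k) := by
        have h6 : ∑ k, e k * (q.2 k - y k) = ∑ k, e k * q.2 k - ∑ k, e k * y k := by
          rw [← Finset.sum_sub_distrib]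
          exact Finset.sum_congr rfl fun k _ => by ring
        rw [h6, hs0]
        ring
      rw [h5]
      refine le_trans ?_ (h1 q hq)
      unfold nn
      refine (abs_add_le _ _).trans (add_le_add ?_ ?_)
      · rw [abs_mul]
        exact mul_le_of_le_one_left (abs_nonneg _) he0
      · refine (Finset.abs_sum_le_sum_abs _ _).trans (Finset.sum_le_sum fun k _ => ?_)
        rw [abs_mul]
        exact mul_le_of_le_one_left (abs_nonneg _) (he k)
    have h5 : ∀ i, |U q i / l i| ≤ ε / l i := fun i => by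
      rw [abs_div, abs_of_pos (hl i)]
      exact div_le_div_of_nonneg_right (h2 q hq i) (hl i).le
    refine ⟨⟨?_, ?_⟩, fun i => ?_, fun i => ?_⟩
    · have := (abs_le.1 h4).1
      show s0 - ρ ≤ e0 * q.1 + ∑ k, e k * q.2 k
      linarith
    · have := (abs_le.1 h4).2
      show e0 * q.1 + ∑ k, e k * q.2 k ≤ s0 + ρ
      linarith
    · exact (abs_le.1 (h5 i)).1
    · exact (abs_le.1 (h5 i)).2
  have hm0 : (0 : ℝ) < m + 1 := by positivity
  have hc : 0 < 1 / (C * (m + 1)) := by positivity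
  have hkey : ∀ p ∈ T, ∀ q ∈ T, nn p.1 p.2 q.1 q.2 ≤ C * (m + 1) * ‖Φ q - Φ p‖ := by
    intro p hp q hq
    refine (h3 p hp q hq).trans ?_
    rw [mul_assoc]
    refine mul_le_mul_of_nonneg_left ?_ hC.le
    have h6 : ∀ i, |(U q i - U p i) / l i| ≤ ‖Φ q - Φ p‖ := fun i => by
      have h7 : (U q i - U p i) / l i = (Φ q - Φ p).2 i := by
        show _ = U q i / l i - U p i / l i
        ring
      rw [h7, ← Real.norm_eq_abs]
      exact (norm_le_pi_norm _ i).trans (norm_snd_le _)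
    have h7 : |e0 * (q.1 - p.1) + ∑ k, e k * (q.2 k - p.2 k)| ≤ ‖Φ q - Φ p‖ := by
      have h8 : e0 * (q.1 - p.1) + ∑ k, e k * (q.2 k - p.2 k) = (Φ q - Φ p).1 := by
        show _ = (e0 * q.1 + ∑ k, e k * q.2 k) - (e0 * p.1 + ∑ k, e k * p.2 k)
        have h6 : ∑ k, e k * (q.2 k - p.2 k) = ∑ k, e k * q.2 k - ∑ k, e k * p.2 k := by
          rw [← Finset.sum_sub_distrib]
          exact Finset.sum_congr rfl fun k _ => by ring
        rw [h6]
        ring
      rw [h8, ← Real.norm_eq_abs]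
      exact norm_fst_le _
    have h8 : ∑ i, |(U q i - U p i) / l i| ≤ m * ‖Φ q - Φ p‖ := by
      have := Finset.sum_le_sum (s := Finset.univ) fun i _ => h6 i
      simpa using this
    linarith
  have hal := al_prod hT hΦm (D0 := 1) one_pos (fun _ : Fin m => (1 : ℝ)) (fun _ => one_pos) hc
    (fun x hx z hz => by
      rw [one_mul, one_div, inv_mul_le_iff₀ (by positivity)]
      have h4 := hkey z hz x hx
      exact (abs_le_nn1 z.1 x.1 z.2 x.2).trans h4)
    (fun x hx z hz i => by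
      rw [one_mul, one_div, inv_mul_le_iff₀ (by positivity)]
      have h4 := hkey z hz x hx
      exact (abs_le_nn2 z.1 x.1 z.2 x.2 i).trans h4)
    (g := B.indicator 1) (measurable_one.indicator hBm)
  have hL : ∫⁻ x in T, B.indicator (1 : ℝ × (Fin m → ℝ) → ℝ≥0∞) (Φ x) = volume T := by
    rw [← setLIntegral_one]
    refine setLIntegral_congr_fun hT fun x hx => ?_
    simp only [indicator_of_mem (hTB x hx), Pi.one_apply]
  have hRr : ∫⁻ x, B.indicator (1 : ℝ × (Fin m → ℝ) → ℝ≥0∞) x = volume B := by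
    rw [lintegral_indicator_one hBm]
  rw [hL, hRr, hBv, ← ENNReal.ofReal_mul (by positivity)] at hal
  refine hal.trans (le_of_eq ?_)
  congr 2
  simp

end Pool.Agent.LQN.Vo
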